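import Pool.Agent.Lib.MP_34b931_co.Stack37

namespace Pool.Agent.Lib.MP_34b931_co

open Metric Set Filter Topology InnerProductGeometry

theorem tangent_ge {e : Set E3} {v c t : E3} (hv : dist v c = 1) (he : ∀ x ∈ e, dist x c ≤ 1)
    (ht : t ∈ posTangentConeAt e v) : 0 ≤ inner ℝ t (c - v) := by
  obtain ⟨α, l, hl, a, d, -, h2, h3⟩ := exists_fun_of_mem_tangentConeAt ht
  refine ge_of_tendsto (h3.inner (tendsto_const_nhds (x := c - v))) (h2.mono fun k hk => ?_)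
  have h4 := (le_iff hv).1 (he _ hk)
  rw [add_sub_cancel_left] at h4
  rw [NNReal.smul_def, real_inner_smul_left]
  exact mul_nonneg (a k).2 (by nlinarith [sq_nonneg ‖d k‖])

theorem tangent_eq {e : Set E3} {v c t : E3} (hv : dist v c = 1) (he : ∀ x ∈ e, dist x c = 1)
    (ht : t ∈ posTangentConeAt e v) : inner ℝ t (c - v) = 0 := by
  obtain ⟨α, l, hl, a, d, h1, h2, h3⟩ := exists_fun_of_mem_tangentConeAt ht
  have k1 := (h3.inner (𝕜 := ℝ) (tendsto_const_nhds (x := c - v))).const_mul 2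
  have k2 := h3.inner (𝕜 := ℝ) h1
  rw [inner_zero_right] at k2
  have := tendsto_nhds_unique_of_eventuallyEq k1 k2 (h2.mono fun k hk => by
    have h4 := (eq_iff hv).1 (he _ hk)
    rw [add_sub_cancel_left] at h4
    simp only [NNReal.smul_def, real_inner_smul_left, real_inner_self_eq_norm_sq]
    rw [h4]; ring)
  linarith

/-- `θ` is the angle between the two extreme rays of the cone dual to `n1, n2, n3` that are
orthogonal to `n1`. -/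
def Corner (n1 n2 n3 : E3) (θ : ℝ) : Prop := ∃ t s : E3, t ≠ 0 ∧ s ≠ 0 ∧
  inner ℝ t n1 = 0 ∧ inner ℝ t n2 = 0 ∧ 0 ≤ inner ℝ t n3 ∧
  inner ℝ s n1 = 0 ∧ inner ℝ s n3 = 0 ∧ 0 ≤ inner ℝ s n2 ∧ θ = angle t s

theorem Ind.swap12 {n1 n2 n3 : E3} (h : Ind n1 n2 n3) : Ind n2 n1 n3 := fun α β δ e => by
  have := h β α δ (by rw [← e]; abel); tauto

theorem Ind.swap23 {n1 n2 n3 : E3} (h : Ind n1 n2 n3) : Ind n1 n3 n2 := fun α β δ e => by
  have := h α δ β (by rw [← e]; abel); tauto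

theorem Ind.ray {n1 n2 n3 t d : E3} (h : Ind n1 n2 n3) (t0 : t ≠ 0) (t1 : inner ℝ t n1 = 0)
    (t2 : inner ℝ t n2 = 0) (t3 : 0 ≤ inner ℝ t n3) (d1 : inner ℝ d n1 = 0)
    (d2 : inner ℝ d n2 = 0) (d3 : inner ℝ d n3 = 1) : ∃ κ : ℝ, 0 < κ ∧ t = κ • d := by
  refine ⟨inner ℝ t n3, lt_of_le_of_ne t3 fun e => t0 (h.orth t1 t2 e.symm), ?_⟩
  refine sub_eq_zero.1 (h.orth ?_ ?_ ?_) <;>
    simp only [inner_sub_left, real_inner_smul_left, t1, t2, d1, d2, d3] <;> ring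

theorem Corner.eq {n1 n2 n3 d2 d3 : E3} {θ : ℝ} (h : Ind n1 n2 n3) (hc : Corner n1 n2 n3 θ)
    (a1 : inner ℝ d2 n1 = 0) (a2 : inner ℝ d2 n2 = 1) (a3 : inner ℝ d2 n3 = 0)
    (b1 : inner ℝ d3 n1 = 0) (b2 : inner ℝ d3 n2 = 0) (b3 : inner ℝ d3 n3 = 1) :
    θ = angle d3 d2 := by
  obtain ⟨t, s, t0, s0, t1, t2, t3, s1, s3, s2, rfl⟩ := hc
  obtain ⟨κ, k0, rfl⟩ := h.ray t0 t1 t2 t3 b1 b2 b3
  obtain ⟨μ, m0, rfl⟩ := h.swap23.ray s0 s1 s3 s2 a1 a3 a2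
  rw [angle_smul_left_of_pos _ _ k0, angle_smul_right_of_pos _ _ m0]

theorem unit_inner (x y : E3) :
    inner ℝ (‖x‖⁻¹ • x) (‖y‖⁻¹ • y) = Real.cos (angle x y) := by
  rw [cos_angle, real_inner_smul_left, real_inner_smul_right]
  ring

theorem back {n1 n2 n3 d1 d2 d3 m e1 e2 e3 : E3} (L : E3 ≃ₗᵢ[ℝ] E3) (h : Ind n1 n2 n3)
    (u1 : ‖n1‖ = 1) (um : ‖m‖ = 1)
    (a1 : inner ℝ d1 n1 = 1) (a2 : inner ℝ d1 n2 = 0) (a3 : inner ℝ d1 n3 = 0)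
    (b1 : inner ℝ d2 n1 = 0) (b2 : inner ℝ d2 n2 = 1) (b3 : inner ℝ d2 n3 = 0)
    (c1 : inner ℝ d3 n1 = 0) (c2 : inner ℝ d3 n2 = 0) (c3 : inner ℝ d3 n3 = 1)
    (m1 : inner ℝ e1 m = 1) (m2 : inner ℝ e2 m = 0) (m3 : inner ℝ e3 m = 0)
    (l1 : L (‖e1‖⁻¹ • e1) = ‖d1‖⁻¹ • d1) (l2 : L (‖e2‖⁻¹ • e2) = ‖d2‖⁻¹ • d2)
    (l3 : L (‖e3‖⁻¹ • e3) = ‖d3‖⁻¹ • d3) : L m = n1 := by
  obtain ⟨α, β, δ, e⟩ := h.span (L m)
  have p1 : 0 < ‖d1‖ := norm_pos_iff.2 (by rintro rfl; simp at a1)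
  have p2 : 0 < ‖d2‖ := norm_pos_iff.2 (by rintro rfl; simp at b2)
  have p3 : 0 < ‖d3‖ := norm_pos_iff.2 (by rintro rfl; simp at c3)
  have q1 : 0 < ‖e1‖ := norm_pos_iff.2 (by rintro rfl; simp at m1)
  have k1 := L.inner_map_map (‖e1‖⁻¹ • e1) m
  have k2 := L.inner_map_map (‖e2‖⁻¹ • e2) m
  have k3 := L.inner_map_map (‖e3‖⁻¹ • e3) m
  rw [l1, e] at k1
  rw [l2, e] at k2
  rw [l3, e] at k3
  simp only [real_inner_smul_left, inner_add_right, real_inner_smul_right, a1, a2, a3, b1, b2, b3,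
    c1, c2, c3, m1, m2, m3, mul_zero, mul_one, add_zero, zero_add] at k1 k2 k3
  have hβ : β = 0 := by
    rcases mul_eq_zero.1 k2 with h | h
    exacts [h, absurd h (inv_pos.2 p2).ne']
  have hδ : δ = 0 := by
    rcases mul_eq_zero.1 k3 with h | h
    exacts [h, absurd h (inv_pos.2 p3).ne']
  have hα : 0 < α := by
    by_contra h
    have := mul_nonpos_of_nonpos_of_nonneg (not_lt.1 h) (inv_pos.2 p1).le
    have := inv_pos.2 q1
    linarith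
  rw [hβ, hδ, zero_smul, zero_smul, add_zero, add_zero] at e
  have := congrArg norm e
  rw [L.norm_map, um, norm_smul, u1, Real.norm_of_nonneg hα.le, mul_one] at this
  rw [e, ← this, one_smul]

/-- Three face angles at a simple vertex determine the three dihedral angles. -/
theorem aaa {n1 n2 n3 m1 m2 m3 : E3} {θ1 θ2 θ3 : ℝ} (hn : Ind n1 n2 n3) (hm : Ind m1 m2 m3)
    (u1 : ‖n1‖ = 1) (u2 : ‖n2‖ = 1) (w1 : ‖m1‖ = 1) (w2 : ‖m2‖ = 1)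
    (c1 : Corner n1 n2 n3 θ1) (c2 : Corner n2 n3 n1 θ2) (c3 : Corner n3 n1 n2 θ3)
    (c1' : Corner m1 m2 m3 θ1) (c2' : Corner m2 m3 m1 θ2) (c3' : Corner m3 m1 m2 θ3) :
    ‖m1 - m2‖ = ‖n1 - n2‖ := by
  obtain ⟨d1, a1, a2, a3⟩ := hn.dual 1 0 0
  obtain ⟨d2, b1, b2, b3⟩ := hn.dual 0 1 0
  obtain ⟨d3, g1, g2, g3⟩ := hn.dual 0 0 1
  obtain ⟨e1, a1', a2', a3'⟩ := hm.dual 1 0 0
  obtain ⟨e2, b1', b2', b3'⟩ := hm.dual 0 1 0
  obtain ⟨e3, g1', g2', g3'⟩ := hm.dual 0 0 1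
  have t1 := (c1'.eq hm b1' b2' b3' g1' g2' g3').symm.trans (c1.eq hn b1 b2 b3 g1 g2 g3)
  have t2 := (c2'.eq hm.swap12.swap23 g2' g3' g1' a2' a3' a1').symm.trans
    (c2.eq hn.swap12.swap23 g2 g3 g1 a2 a3 a1)
  have t3 := (c3'.eq hm.swap23.swap12 a3' a1' a2' b3' b1' b2').symm.trans
    (c3.eq hn.swap23.swap12 a3 a1 a2 b3 b1 b2)
  have z : ∀ {x n : E3}, inner ℝ x n = 1 → angle x x = 0 := fun h =>
    angle_self (by rintro rfl; simp at h)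
  obtain ⟨L, hL⟩ := exists_iso (fun i => ‖![e1, e2, e3] i‖⁻¹ • ![e1, e2, e3] i)
    (fun i => ‖![d1, d2, d3] i‖⁻¹ • ![d1, d2, d3] i) (by
      intro i j
      rw [unit_inner, unit_inner]
      congr 1
      fin_cases i <;> fin_cases j <;> simp only [Fin.zero_eta, Fin.mk_one, Fin.reduceFinMk,
        Matrix.cons_val_zero, Matrix.cons_val_one, Matrix.cons_val]
      · rw [z a1, z a1']
      · rw [angle_comm, t3, angle_comm]
      · exact t2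
      · exact t3
      · rw [z b2, z b2']
      · rw [angle_comm, t1, angle_comm]
      · rw [angle_comm, t2, angle_comm]
      · exact t1
      · rw [z g3, z g3'])
  have l1 : L (‖e1‖⁻¹ • e1) = ‖d1‖⁻¹ • d1 := hL 0
  have l2 : L (‖e2‖⁻¹ • e2) = ‖d2‖⁻¹ • d2 := hL 1
  have l3 : L (‖e3‖⁻¹ • e3) = ‖d3‖⁻¹ • d3 := hL 2
  have r1 := back L hn u1 w1 a1 a2 a3 b1 b2 b3 g1 g2 g3 a1' b1' g1' l1 l2 l3
  have r2 := back L hn.swap12 u2 w2 b2 b1 b3 a2 a1 a3 g2 g1 g3 b2' a2' g2' l2 l1 l3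
  rw [← r1, ← r2, ← map_sub, L.norm_map]

variable {ι : Type} [DecidableEq ι]

theorem Stacked.cover {S : Finset ι} {T : Finset (Finset ι)} (h : Stacked S T) :
    ∀ i ∈ S, ∃ A ∈ T, i ∈ A := by
  induction h with
  | base S h =>
    intro i hi
    obtain ⟨A, h1, h2, h3⟩ := Finset.exists_subsuperset_card_eq (s := {i}) (t := S) (n := 3)
      (by simpa using hi) (by simp) (by omega)
    exact ⟨A, Finset.mem_powersetCard.2 ⟨h2, h3⟩, h1 (by simp)⟩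
  | step S T a b d n _ hn ab bd ad hT ih =>
    intro i hi
    rcases Finset.mem_insert.1 hi with rfl | hi
    · exact ⟨{i, a, b}, by simp, by simp⟩
    · obtain ⟨A, hA, hiA⟩ := ih i hi
      by_cases h : A = {a, b, d}
      · rw [h] at hiA
        simp only [Finset.mem_insert, Finset.mem_singleton] at hiA
        rcases hiA with rfl | rfl | rfl
        · exact ⟨{n, i, b}, by simp, by simp⟩
        · exact ⟨{n, a, i}, by simp, by simp⟩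
        · exact ⟨{n, b, i}, by simp, by simp⟩
      · exact ⟨A, Finset.mem_union_left _ (Finset.mem_erase.2 ⟨h, hA⟩), hiA⟩

/-- Two faces that meet share a vertex. -/
theorem share {c : ι → E3} (hp : Priv c) {S : Finset ι} {T : Finset (Finset ι)} (hS : Stacked S T)
    (h1 : ∀ A ∈ T, ∃ v, InP c S v ∧ ∀ i ∈ A, dist v (c i) = 1)
    (h2 : ∀ v, InP c S v → ∀ i ∈ S, ∀ j ∈ S, ∀ k ∈ S, i ≠ j → j ≠ k → i ≠ k → dist v (c i) = 1 →
      dist v (c j) = 1 → dist v (c k) = 1 → {i, j, k} ∈ T) :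
    ∀ v, InP c S v → ∀ i ∈ S, ∀ j ∈ S, i ≠ j → dist v (c i) = 1 → dist v (c j) = 1 →
      ∃ A ∈ T, i ∈ A ∧ j ∈ A := by
  intro x hx i hi j hj ij xi xj
  have fin : ∀ v, InP c S v → ∀ k ∈ S, k ≠ i → k ≠ j → dist v (c i) = 1 → dist v (c j) = 1 →
      dist v (c k) = 1 → ∃ A ∈ T, i ∈ A ∧ j ∈ A := fun v hv k hk ki kj k1 k2 k3 =>
    ⟨_, h2 v hv i hi j hj k hk ij kj.symm ki.symm k1 k2 k3, by simp, by simp⟩
  by_contra hcon
  obtain ⟨A, hA, iA⟩ := hS.cover i hi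
  have jA : j ∉ A := fun h => hcon ⟨A, hA, iA, h⟩
  obtain ⟨k, kA, ki⟩ : ∃ k ∈ A, k ≠ i := Finset.exists_mem_ne (by rw [(hS.sub A hA).2]; omega) i
  have kS := (hS.sub A hA).1 kA
  have kj : k ≠ j := fun h => jA (h ▸ kA)
  obtain ⟨u, hu, eu⟩ := h1 A hA
  have uj : dist u (c j) < 1 :=
    lt_of_le_of_ne (hu j hj) fun h => hcon (fin u hu k kS ki kj (eu i iA) h (eu k kA))
  obtain ⟨x1, p1, p2, p3⟩ := circle_leaves (hp.ne ki) (eu i iA) (eu k kA) uj (hp.ne ij.symm)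
  have ne : x1 ≠ x := by rintro rfl; linarith [hx k kS]
  have nn : ‖x1 - x‖ ≠ 0 := norm_ne_zero_iff.2 (sub_ne_zero.2 ne)
  obtain ⟨τ, τ0, τ1, τ2⟩ := exists_orth (c i - x) (c j - x)
  have η1 : 2 * inner ℝ ((‖x1 - x‖ ^ 2)⁻¹ • (x1 - x)) (c i - x) = 1 := by
    rw [real_inner_smul_left, mul_left_comm, ← (eq_iff xi).1 p1]; field_simp
  have η2 : 2 * inner ℝ ((‖x1 - x‖ ^ 2)⁻¹ • (x1 - x)) (c j - x) = 1 := by
    rw [real_inner_smul_left, mul_left_comm, ← (eq_iff xj).1 p2]; field_simp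
  have memZ : ∀ {z}, z ∈ (S.erase i).erase j ↔ z ∈ S ∧ z ≠ i ∧ z ≠ j := by
    intro z; simp only [Finset.mem_erase]; tauto
  obtain ⟨t, -, k1, z, hz, k2⟩ := walk c ((S.erase i).erase j) (v := x)
    (τ := τ) (by rintro rfl; simp at τ0) η1 τ1 (by
      intro z hz
      obtain ⟨z1, z2, z3⟩ := memZ.1 hz
      exact lt_of_le_of_ne (hx z z1) fun h => hcon (fin x hx z z1 z2 z3 xi xj h))
    ⟨k, memZ.2 ⟨kS, ki, kj⟩, by rwa [inv_inv ne]⟩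
  have i1 := inv_eq xi (ζ := (‖x1 - x‖ ^ 2)⁻¹ • (x1 - x) + t • τ) (by
    rw [inner_add_left, real_inner_smul_left _ _ t, τ1, mul_zero, add_zero, η1])
  have i2 := inv_eq xj (ζ := (‖x1 - x‖ ^ 2)⁻¹ • (x1 - x) + t • τ) (by
    rw [inner_add_left, real_inner_smul_left _ _ t, τ2, mul_zero, add_zero, η2])
  obtain ⟨z1, z2, z3⟩ := memZ.1 hz
  refine hcon (fin _ (fun l hl => ?_) z z1 z2 z3 i1 i2 k2)
  by_cases e1 : l = i
  · rw [e1]; exact i1.le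
  by_cases e2 : l = j
  · rw [e2]; exact i2.le
  exact k1 l (memZ.2 ⟨hl, e1, e2⟩)

end Pool.Agent.Lib.MP_34b931_co
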