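import Pool.Agent.Lib.MP_34b931_co.Angle37

namespace Pool.Agent.Lib.MP_34b931_co

open Metric Set

/-- A ball-polyhedron: `n ≥ 3` closed unit balls of Euclidean 3-space whose intersection has
nonempty interior, none of which can be omitted. -/
structure BallPoly (n : ℕ) where
  c : Fin n → E3
  three : 3 ≤ n
  int : (interior (⋂ i, closedBall (c i) 1)).Nonempty
  reduced : ∀ i, (⋂ j, ⋂ (_ : j ≠ i), closedBall (c j) 1) ≠ ⋂ j, closedBall (c j) 1

namespace BallPoly

variable {n m : ℕ} (P : BallPoly n)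

def body : Set E3 := ⋂ i, closedBall (P.c i) 1

def face (i : Fin n) : Set E3 := P.body ∩ sphere (P.c i) 1

open Classical in
/-- The faces containing a point. -/
noncomputable def facesAt (x : E3) : Finset (Fin n) := Finset.univ.filter fun i => x ∈ P.face i

def IsVertex (x : E3) : Prop := x ∈ frontier P.body ∧ 3 ≤ (P.facesAt x).card

/-- Boundary points lying in exactly two faces. -/
def twoSet : Set E3 := {x | x ∈ frontier P.body ∧ (P.facesAt x).card = 2}

def IsEdge (e : Set E3) : Prop := ∃ x ∈ P.twoSet, e = closure (connectedComponentIn P.twoSet x)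

def IsCell (A : Set E3) : Prop :=
  A = ∅ ∨ (∃ v, P.IsVertex v ∧ A = {v}) ∨ P.IsEdge A ∨ (∃ i, A = P.face i) ∨ A = P.body

/-- The empty set, the vertices, edges, faces and the body, ordered by inclusion. -/
abbrev Cell : Type := {A : Set E3 // P.IsCell A}

def Standard : Prop := ∀ A B : P.Cell, (∃ C, IsLUB {A, B} C) ∧ ∃ C, IsGLB {A, B} C

/-- `θ` is the angle at `v` between the tangent half-lines of two edges of `F` through `v`. -/
def IsFaceAngle (F : Set E3) (v : E3) (θ : ℝ) : Prop :=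
  ∃ (e₁ e₂ : Set E3) (t₁ t₂ : E3), P.IsEdge e₁ ∧ P.IsEdge e₂ ∧ e₁ ≠ e₂ ∧ e₁ ⊆ F ∧ e₂ ⊆ F ∧
    v ∈ e₁ ∧ v ∈ e₂ ∧ t₁ ≠ 0 ∧ t₂ ≠ 0 ∧ t₁ ∈ posTangentConeAt e₁ v ∧ t₂ ∈ posTangentConeAt e₂ v ∧
    θ = InnerProductGeometry.angle t₁ t₂

/-- Corresponding face angles agree under the isomorphism `φ` of face lattices. -/
def SameFaceAngles (Q : BallPoly m) (φ : P.Cell ≃o Q.Cell) : Prop :=
  ∀ (F V : P.Cell) (i : Fin n) (v w : E3), F.1 = P.face i → P.IsVertex v → v ∈ F.1 →
    V.1 = {v} → (φ V).1 = {w} → ∃ θ, P.IsFaceAngle F.1 v θ ∧ Q.IsFaceAngle (φ F).1 w θ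

/-- The sets of faces meeting at the vertices are the triangles of a stacked triangulation. -/
def StackedType : Prop :=
  ∃ T, Stacked Finset.univ T ∧ ∀ A, A ∈ T ↔ ∃ v, P.IsVertex v ∧ P.facesAt v = A

end BallPoly

end Pool.Agent.Lib.MP_34b931_co
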