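import Mathlib

namespace Pool.Agent.Lib.MP_34b931_co

open Metric Set Filter Topology

abbrev E3 := EuclideanSpace ℝ (Fin 3)

theorem fr3 : Module.finrank ℝ E3 = 3 := by simp

theorem sq_dist (x v c : E3) (h : dist v c = 1) :
    dist x c ^ 2 = ‖x - v‖ ^ 2 - 2 * inner ℝ (x - v) (c - v) + 1 := by
  have h1 : ‖c - v‖ = 1 := by rw [← dist_eq_norm, dist_comm, h]
  have : x - c = (x - v) - (c - v) := by abel
  rw [dist_eq_norm, this, norm_sub_sq_real, h1]; ring

theorem le_iff {x v c : E3} (h : dist v c = 1) :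
    dist x c ≤ 1 ↔ ‖x - v‖ ^ 2 ≤ 2 * inner ℝ (x - v) (c - v) := by
  have := sq_dist x v c h
  have h0 := dist_nonneg (x := x) (y := c)
  constructor <;> intro h' <;> nlinarith

theorem lt_iff {x v c : E3} (h : dist v c = 1) :
    dist x c < 1 ↔ ‖x - v‖ ^ 2 < 2 * inner ℝ (x - v) (c - v) := by
  have := sq_dist x v c h
  have h0 := dist_nonneg (x := x) (y := c)
  constructor <;> intro h' <;> nlinarith

theorem eq_iff {x v c : E3} (h : dist v c = 1) :
    dist x c = 1 ↔ ‖x - v‖ ^ 2 = 2 * inner ℝ (x - v) (c - v) := by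
  have := sq_dist x v c h
  have h0 := dist_nonneg (x := x) (y := c)
  constructor <;> intro h'
  · rw [h'] at this; linarith
  · have : dist x c ^ 2 = 1 := by linarith
    nlinarith

theorem norm_one {v c : E3} (h : dist v c = 1) : ‖c - v‖ = 1 := by
  rw [← dist_eq_norm, dist_comm, h]

/-- Linear independence of three vectors, spelled out. -/
def Ind (n1 n2 n3 : E3) : Prop :=
  ∀ α β δ : ℝ, α • n1 + β • n2 + δ • n3 = 0 → α = 0 ∧ β = 0 ∧ δ = 0

theorem ind_aux {n1 n2 n3 y : E3} (h1 : ‖n1‖ = 1) (h2 : ‖n2‖ = 1) (h3 : ‖n3‖ = 1)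
    (e3 : ‖y‖ ^ 2 = 2 * inner ℝ y n3) (l1 : ‖y‖ ^ 2 < 2 * inner ℝ y n1)
    (l2 : ‖y‖ ^ 2 < 2 * inner ℝ y n2) {α β δ : ℝ} (ha : 0 ≤ α) (hb : 0 ≤ β)
    (h : α • n1 + β • n2 + δ • n3 = 0) : α = 0 ∧ β = 0 ∧ δ = 0 := by
  have hd : |δ| ≤ α + β := by
    have e : δ • n3 = -(α • n1 + β • n2) := eq_neg_of_add_eq_zero_right h
    have := congrArg norm e
    rw [norm_smul, h3, norm_neg, Real.norm_eq_abs, mul_one] at this
    rw [this]
    refine (norm_add_le _ _).trans ?_
    rw [norm_smul, norm_smul, h1, h2, Real.norm_of_nonneg ha, Real.norm_of_nonneg hb]; simp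
  have hs : 0 ≤ α + β + δ := by have := neg_abs_le δ; linarith
  have hp := congrArg (fun z => inner ℝ y z) h
  simp only [inner_add_right, real_inner_smul_right, inner_zero_right] at hp
  have hy : 0 ≤ ‖y‖ ^ 2 := by positivity
  have k : (α + β + δ) * ‖y‖ ^ 2 + α * (2 * inner ℝ y n1 - ‖y‖ ^ 2) +
      β * (2 * inner ℝ y n2 - ‖y‖ ^ 2) = 0 := by linear_combination 2 * hp + δ * e3
  have k1 := mul_nonneg hs hy
  have k2 := mul_nonneg ha (sub_pos.2 l1).le
  have k3 := mul_nonneg hb (sub_pos.2 l2).le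
  have a0 : α = 0 := by
    have : α * (2 * inner ℝ y n1 - ‖y‖ ^ 2) = 0 := by linarith
    exact (mul_eq_zero.1 this).resolve_right (sub_pos.2 l1).ne'
  have b0 : β = 0 := by
    have : β * (2 * inner ℝ y n2 - ‖y‖ ^ 2) = 0 := by linarith
    exact (mul_eq_zero.1 this).resolve_right (sub_pos.2 l2).ne'
  refine ⟨a0, b0, ?_⟩
  rw [a0, b0, add_zero] at hd
  exact abs_nonpos_iff.1 hd

/-- Three unit balls each of which has a boundary point strictly inside the two others: the
normals at a common boundary point are independent. -/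
theorem ind_of_private {a b d v x y z : E3} (ha : dist v a = 1) (hb : dist v b = 1)
    (hd : dist v d = 1) (xa : dist x a = 1) (xb : dist x b < 1) (xd : dist x d < 1)
    (yb : dist y b = 1) (ya : dist y a < 1) (yd : dist y d < 1)
    (zd : dist z d = 1) (za : dist z a < 1) (zb : dist z b < 1) :
    Ind (a - v) (b - v) (d - v) := by
  intro α β δ h
  have na := norm_one ha
  have nb := norm_one hb
  have nd := norm_one hd
  have Z := fun {α β δ : ℝ} => ind_aux (α := α) (β := β) (δ := δ) na nb nd ((eq_iff hd).1 zd)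
    ((lt_iff ha).1 za) ((lt_iff hb).1 zb)
  have Y := fun {α β δ : ℝ} => ind_aux (α := α) (β := β) (δ := δ) na nd nb ((eq_iff hb).1 yb)
    ((lt_iff ha).1 ya) ((lt_iff hd).1 yd)
  have X := fun {α β δ : ℝ} => ind_aux (α := α) (β := β) (δ := δ) nb nd na ((eq_iff ha).1 xa)
    ((lt_iff hb).1 xb) ((lt_iff hd).1 xd)
  have hn : (-α) • (a - v) + (-β) • (b - v) + (-δ) • (d - v) = 0 := by
    rw [neg_smul, neg_smul, neg_smul, ← neg_add, ← neg_add, h, neg_zero]
  rcases le_total 0 α with h1 | h1 <;> rcases le_total 0 β with h2 | h2 <;>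
    rcases le_total 0 δ with h3 | h3
  · exact Z h1 h2 h
  · exact Z h1 h2 h
  · have := Y h1 h3 (δ := β) (by rw [← h]; abel); tauto
  · have := X (neg_nonneg.2 h2) (neg_nonneg.2 h3) (δ := -α) (by rw [← hn]; abel)
    simp only [neg_eq_zero] at this; tauto
  · have := X h2 h3 (δ := α) (by rw [← h]; abel); tauto
  · have := Y (neg_nonneg.2 h1) (neg_nonneg.2 h3) (δ := -β) (by rw [← hn]; abel)
    simp only [neg_eq_zero] at this; tauto
  · have := Z (neg_nonneg.2 h1) (neg_nonneg.2 h2) hn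
    simp only [neg_eq_zero] at this; tauto
  · have := Z (neg_nonneg.2 h1) (neg_nonneg.2 h2) hn
    simp only [neg_eq_zero] at this; tauto

theorem Ind.span {n1 n2 n3 : E3} (h : Ind n1 n2 n3) (x : E3) :
    ∃ α β δ : ℝ, x = α • n1 + β • n2 + δ • n3 := by
  have li : LinearIndependent ℝ ![n1, n2, n3] := by
    rw [Fintype.linearIndependent_iff]
    intro g hg
    rw [Fin.sum_univ_three] at hg
    obtain ⟨h0, h1, h2⟩ := h _ _ _ hg
    intro i; fin_cases i <;> assumption
  have sp := li.span_eq_top_of_card_eq_finrank' (by simp)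
  have hx : x ∈ Submodule.span ℝ (Set.range ![n1, n2, n3]) := by rw [sp]; trivial
  obtain ⟨g, hg⟩ := (Submodule.mem_span_range_iff_exists_fun ℝ).1 hx
  rw [Fin.sum_univ_three] at hg
  exact ⟨g 0, g 1, g 2, hg.symm⟩

theorem Ind.orth {n1 n2 n3 : E3} (h : Ind n1 n2 n3) {x : E3} (h1 : inner ℝ x n1 = 0)
    (h2 : inner ℝ x n2 = 0) (h3 : inner ℝ x n3 = 0) : x = 0 := by
  obtain ⟨α, β, δ, e⟩ := h.span x
  have : inner ℝ x x = (0 : ℝ) := by
    nth_rewrite 2 [e]
    simp only [inner_add_right, real_inner_smul_right, h1, h2, h3]; ring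
  exact inner_self_eq_zero.1 this

theorem Ind.dual {n1 n2 n3 : E3} (h : Ind n1 n2 n3) (r1 r2 r3 : ℝ) :
    ∃ x : E3, inner ℝ x n1 = r1 ∧ inner ℝ x n2 = r2 ∧ inner ℝ x n3 = r3 := by
  let f : E3 →ₗ[ℝ] (Fin 3 → ℝ) := LinearMap.pi fun i => innerₗ E3 (![n1, n2, n3] i)
  have inj : Function.Injective f := by
    rw [← LinearMap.ker_eq_bot, LinearMap.ker_eq_bot']
    intro x hx
    have h0 := congrFun hx 0
    have h1 := congrFun hx 1
    have h2 := congrFun hx 2
    simp [f] at h0 h1 h2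
    exact h.orth (by rwa [real_inner_comm]) (by rwa [real_inner_comm]) (by rwa [real_inner_comm])
  have sur := (LinearMap.injective_iff_surjective_of_finrank_eq_finrank (f := f) (by simp)).1 inj
  obtain ⟨x, hx⟩ := sur ![r1, r2, r3]
  have h0 := congrFun hx 0
  have h1 := congrFun hx 1
  have h2 := congrFun hx 2
  simp [f] at h0 h1 h2
  exact ⟨x, by rwa [real_inner_comm], by rwa [real_inner_comm], by rwa [real_inner_comm]⟩

theorem exists_orth (p q : E3) : ∃ t : E3, ‖t‖ = 1 ∧ inner ℝ t p = 0 ∧ inner ℝ t q = 0 := by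
  let f : E3 →ₗ[ℝ] (Fin 2 → ℝ) := LinearMap.pi fun i => innerₗ E3 (![p, q] i)
  have hk : LinearMap.ker f ≠ ⊥ := f.ker_ne_bot_of_finrank_lt (by simp)
  obtain ⟨x, hx, x0⟩ := Submodule.exists_mem_ne_zero_of_ne_bot hk
  have h0 := congrFun (LinearMap.mem_ker.1 hx) 0
  have h1 := congrFun (LinearMap.mem_ker.1 hx) 1
  simp [f] at h0 h1
  have hn : ‖x‖ ≠ 0 := norm_ne_zero_iff.2 x0
  refine ⟨‖x‖⁻¹ • x, ?_, ?_, ?_⟩
  · rw [norm_smul, norm_inv, norm_norm, inv_mul_cancel₀ hn]
  · rw [real_inner_smul_left, real_inner_comm, h0, mul_zero]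
  · rw [real_inner_smul_left, real_inner_comm, h1, mul_zero]

/-- A ball meeting the three arcs of a lens and missing the pole `w` has its centre strictly
beyond the plane of the three centres. -/
theorem far_side {a b d w N v1 v2 v3 : E3} (ha : dist w a = 1) (hb : dist w b = 1)
    (hd : dist w d = 1) (hi : Ind (a - w) (b - w) (d - w)) (hN : 1 < dist w N)
    (a1 : dist v1 a = 1) (b1 : dist v1 b = 1) (d1 : dist v1 d ≤ 1) (n1 : dist v1 N ≤ 1)
    (b2 : dist v2 b = 1) (d2 : dist v2 d = 1) (a2 : dist v2 a ≤ 1) (n2 : dist v2 N ≤ 1)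
    (d3 : dist v3 d = 1) (a3 : dist v3 a = 1) (b3 : dist v3 b ≤ 1) (n3 : dist v3 N ≤ 1) :
    ∃ α β δ : ℝ, N - w = α • (a - w) + β • (b - w) + δ • (d - w) ∧ 1 < α + β + δ := by
  obtain ⟨α, β, δ, e⟩ := hi.span (N - w)
  refine ⟨α, β, δ, e, ?_⟩
  by_contra hs
  push Not at hs
  have hN' : 1 < ‖N - w‖ := by rwa [← dist_eq_norm, dist_comm]
  have key : ∀ x : E3, dist x N ≤ 1 → ‖x - w‖ ^ 2 < 2 * (α * inner ℝ (x - w) (a - w) +
      β * inner ℝ (x - w) (b - w) + δ * inner ℝ (x - w) (d - w)) := by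
    intro x hx
    have e2 : x - N = (x - w) - (N - w) := by abel
    have h2 : ‖x - N‖ ^ 2 ≤ 1 := by
      rw [dist_eq_norm] at hx
      nlinarith [norm_nonneg (x - N)]
    rw [e2, norm_sub_sq_real] at h2
    have h3 : inner ℝ (x - w) (N - w) = α * inner ℝ (x - w) (a - w) +
      β * inner ℝ (x - w) (b - w) + δ * inner ℝ (x - w) (d - w) := by
      rw [e]; simp only [inner_add_right, real_inner_smul_right]
    nlinarith
  have pos : ∀ {r s g : ℝ}, 0 ≤ s → 0 ≤ g → s < r * g → 0 ≤ r := by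
    intro r s g h1 h2 h3
    by_contra h4
    push Not at h4
    nlinarith
  have hδ : 0 ≤ δ := by
    have k := key v1 n1
    have k1 := (eq_iff ha).1 a1
    have k2 := (eq_iff hb).1 b1
    have k3 := (le_iff hd).1 d1
    refine pos (s := (1 - (α + β + δ)) * ‖v1 - w‖ ^ 2) (mul_nonneg (by linarith) (by positivity))
      (sub_nonneg.2 k3) ?_
    linear_combination k - α * k1 - β * k2
  have hα : 0 ≤ α := by
    have k := key v2 n2
    have k1 := (eq_iff hb).1 b2
    have k2 := (eq_iff hd).1 d2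
    have k3 := (le_iff ha).1 a2
    refine pos (s := (1 - (α + β + δ)) * ‖v2 - w‖ ^ 2) (mul_nonneg (by linarith) (by positivity))
      (sub_nonneg.2 k3) ?_
    linear_combination k - β * k1 - δ * k2
  have hβ : 0 ≤ β := by
    have k := key v3 n3
    have k1 := (eq_iff hd).1 d3
    have k2 := (eq_iff ha).1 a3
    have k3 := (le_iff hb).1 b3
    refine pos (s := (1 - (α + β + δ)) * ‖v3 - w‖ ^ 2) (mul_nonneg (by linarith) (by positivity))
      (sub_nonneg.2 k3) ?_
    linear_combination k - δ * k1 - α * k2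
  have : ‖N - w‖ ≤ α + β + δ := by
    rw [e]
    refine (norm_add_le _ _).trans ?_
    have := norm_add_le (α • (a - w)) (β • (b - w))
    rw [norm_smul, norm_smul, norm_one ha, norm_one hb, Real.norm_of_nonneg hα,
      Real.norm_of_nonneg hβ] at this
    rw [norm_smul, norm_one hd, Real.norm_of_nonneg hδ]
    linarith
  linarith

/-- Two points strictly beyond the plane with the same three distances coincide. -/
theorem far_unique {a b d w N N' : E3} (hi : Ind (a - w) (b - w) (d - w))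
    (h : ∃ α β δ : ℝ, N - w = α • (a - w) + β • (b - w) + δ • (d - w) ∧ 1 < α + β + δ)
    (h' : ∃ α β δ : ℝ, N' - w = α • (a - w) + β • (b - w) + δ • (d - w) ∧ 1 < α + β + δ)
    (ea : dist N a = dist N' a) (eb : dist N b = dist N' b) (ed : dist N d = dist N' d) :
    N = N' := by
  obtain ⟨α, β, δ, e, s⟩ := h
  obtain ⟨α', β', δ', e', s'⟩ := h'
  have key : ∀ x : E3, dist N x = dist N' x →
      2 * inner ℝ ((N - w) - (N' - w)) (x - w) = ‖N - w‖ ^ 2 - ‖N' - w‖ ^ 2 := by
    intro x hx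
    have e1 : N - x = (N - w) - (x - w) := by abel
    have e2 : N' - x = (N' - w) - (x - w) := by abel
    have h2 : ‖N - x‖ ^ 2 = ‖N' - x‖ ^ 2 := by rw [← dist_eq_norm, ← dist_eq_norm, hx]
    rw [e1, e2, norm_sub_sq_real (N - w), norm_sub_sq_real (N' - w)] at h2
    rw [inner_sub_left]
    linarith
  have ka := key a ea
  have kb := key b eb
  have kd := key d ed
  set D := (N - w) - (N' - w) with hD
  set τ := ‖N - w‖ ^ 2 - ‖N' - w‖ ^ 2 with hτ
  have k1 : inner ℝ D ((N - w) + (N' - w)) = τ := by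
    rw [hD, hτ, inner_sub_left, inner_add_right, inner_add_right, real_inner_self_eq_norm_sq,
      real_inner_self_eq_norm_sq, real_inner_comm (N - w) (N' - w)]
    ring
  have k2 : 2 * inner ℝ D ((N - w) + (N' - w)) = (α + β + δ + (α' + β' + δ')) * τ := by
    rw [e, e']
    simp only [inner_add_right, real_inner_smul_right]
    linear_combination (α + α') * ka + (β + β') * kb + (δ + δ') * kd
  have t0 : τ = 0 := by
    have : (α + β + δ + (α' + β' + δ') - 2) * τ = 0 := by linear_combination 2 * k1 - k2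
    exact (mul_eq_zero.1 this).resolve_left (by linarith)
  have : D = 0 := hi.orth (by linarith) (by linarith) (by linarith)
  rw [hD] at this
  have h5 : N - N' = 0 := by rw [← this]; abel
  exact sub_eq_zero.1 h5

/-- No point is strictly beyond the plane as seen from both poles. -/
theorem far_both {a b d w w' N : E3} (ha : dist w a = 1) (hb : dist w b = 1) (hd : dist w d = 1)
    (ha' : dist w' a = 1) (hb' : dist w' b = 1) (hd' : dist w' d = 1)
    (h : ∃ α β δ : ℝ, N - w = α • (a - w) + β • (b - w) + δ • (d - w) ∧ 1 < α + β + δ)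
    (h' : ∃ α β δ : ℝ, N - w' = α • (a - w') + β • (b - w') + δ • (d - w') ∧ 1 < α + β + δ) :
    w = w' := by
  obtain ⟨α, β, δ, e, s⟩ := h
  obtain ⟨α', β', δ', e', s'⟩ := h'
  have ka := (eq_iff ha).1 ha'
  have kb := (eq_iff hb).1 hb'
  have kd := (eq_iff hd).1 hd'
  set y := w' - w with hy
  have e2 : N - w = α' • ((a - w) - y) + β' • ((b - w) - y) + δ' • ((d - w) - y) + y := by
    have : ∀ x : E3, (x - w) - y = x - w' := fun x => by rw [hy]; abel
    rw [this, this, this, ← e', hy]; abel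
  have k1 := congrArg (fun z => inner ℝ y z) (e.symm.trans e2)
  simp only [inner_add_right, real_inner_smul_right, inner_sub_right y _ y,
    real_inner_self_eq_norm_sq] at k1
  have k2 : (α + β + δ + (α' + β' + δ') - 2) * ‖y‖ ^ 2 = 0 := by
    linear_combination 2 * k1 + (α - α') * ka + (β - β') * kb + (δ - δ') * kd
  have k3 : ‖y‖ ^ 2 = 0 := (mul_eq_zero.1 k2).resolve_left (by linarith)
  have k4 : y = 0 := by simpa using k3
  exact (sub_eq_zero.1 k4).symm

end Pool.Agent.Lib.MP_34b931_co
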