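import Pool.Agent.Lib.MP_34b931_co.H22Tri

/-! The spherical arm lemma (by a plane section of the cone) and the four sign changes. -/

namespace Pool.Agent.Lib.MP_34b931_co.G

open InnerProductGeometry

namespace Arm

theorem angle_le_of_inner {a b a' b' : E3} (ha : ‖a'‖ = ‖a‖) (hb : ‖b'‖ = ‖b‖)
    (h : inner ℝ a b ≤ inner ℝ a' b') : angle a' b' ≤ angle a b := by
  unfold angle
  rw [ha, hb]
  exact Real.arccos_le_arccos (div_le_div_of_nonneg_right h (by positivity))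

theorem inner_le_of_angle {a b a' b' : E3} (ha : ‖a'‖ = ‖a‖) (hb : ‖b'‖ = ‖b‖)
    (h : angle a' b' ≤ angle a b) : inner ℝ a b ≤ inner ℝ a' b' := by
  rw [← cos_angle_mul_norm_mul_norm, ← cos_angle_mul_norm_mul_norm, ha, hb]
  exact mul_le_mul_of_nonneg_right
    (Real.cos_le_cos_of_nonneg_of_le_pi (angle_nonneg _ _) (angle_le_pi _ _) h) (by positivity)

/-- Euclidean comparison of the directions of two chains. -/
theorem bow (n : ℕ) (e e' : ℕ → E3) (hn : ∀ i < n, ‖e' i‖ = ‖e i‖)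
    (hin : ∀ i, i + 1 < n → inner ℝ (e i) (e (i + 1)) ≤ inner ℝ (e' i) (e' (i + 1)))
    (hadd : ∀ i j, i < j → j + 1 < n →
      angle (e i) (e (j + 1)) = angle (e i) (e j) + angle (e j) (e (j + 1))) :
    ∀ i < n, ∀ k < n, inner ℝ (e i) (e k) ≤ inner ℝ (e' i) (e' k) := by
  have step : ∀ i, i + 1 < n → angle (e' i) (e' (i + 1)) ≤ angle (e i) (e (i + 1)) :=
    fun i hi => angle_le_of_inner (hn i (by omega)) (hn _ hi) (hin i hi)
  have key : ∀ i k, i < k → k < n → angle (e' i) (e' k) ≤ angle (e i) (e k) := by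
    intro i k hik
    induction k, hik using Nat.le_induction with
    | base => exact step i
    | succ k hk ih =>
      intro hk'
      rw [hadd i k hk hk']
      exact (angle_le_angle_add_angle _ (e' k) _).trans
        (add_le_add (ih (by omega)) (step k hk'))
  intro i hi k hk
  rcases lt_trichotomy i k with h | h | h
  · exact inner_le_of_angle (hn i hi) (hn k hk) (key i k h hk)
  · subst h
    rw [real_inner_self_eq_norm_sq, real_inner_self_eq_norm_sq, hn i hi]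
  · rw [real_inner_comm, real_inner_comm (e' k)]
    exact inner_le_of_angle (hn k hk) (hn i hi) (key k i h hi)

theorem six_id (x y u v r s : E3) :
    d3 (cr3 x y) (cr3 u v) (cr3 r s) * d3 x u r =
      d3 u r s * (d3 x y r * d3 x u v) + d3 x y u * (d3 x r s * d3 u v r) := by
  simp [d3, cr3]
  ring

/-- Convexity of the dual polygon. -/
theorem six {x y u v r s : E3} (h1 : 0 < d3 u r s) (h2 : 0 < d3 x y r) (h3 : 0 < d3 x u v)
    (h4 : 0 ≤ d3 x y u) (h5 : 0 ≤ d3 x r s) (h6 : 0 ≤ d3 u v r) (h7 : 0 < d3 x u r) :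
    0 < d3 (cr3 x y) (cr3 u v) (cr3 r s) := by
  have h := six_id x y u v r s
  have : 0 < d3 (cr3 x y) (cr3 u v) (cr3 r s) * d3 x u r := by rw [h]; positivity
  exact (pos_iff_pos_of_mul_pos this).2 h7

theorem cvx_nonneg {q : ℕ → E3} {n : ℕ} (h : Cvx q n) {i j k : ℕ} (hij : i ≤ j) (hjk : j ≤ k)
    (hk : k ≤ n) : 0 ≤ d3 (q i) (q j) (q k) := by
  rcases hij.eq_or_lt with rfl | hij
  · rw [d3_self12]
  rcases hjk.eq_or_lt with rfl | hjk
  · rw [d3_self23]
  exact (h.2 i j k hij hjk hk).le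

theorem cvx_mono {q : ℕ → E3} {n m : ℕ} (h : Cvx q n) (hm : m ≤ n) : Cvx q m :=
  ⟨fun i hi => h.1 i (hi.trans hm), fun i j k hij hjk hk => h.2 i j k hij hjk (hk.trans hm)⟩

theorem dual_nonneg {q : ℕ → E3} {n : ℕ} (h : Cvx q n) {i j k : ℕ} (hij : i ≤ j) (hjk : j ≤ k)
    (hk : k < n) : 0 ≤ d3 (cr3 (q i) (q (i + 1))) (cr3 (q j) (q (j + 1)))
      (cr3 (q k) (q (k + 1))) := by
  rcases hij.eq_or_lt with rfl | hij
  · rw [d3_self12]
  rcases hjk.eq_or_lt with rfl | hjk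
  · rw [d3_self23]
  exact (six (h.2 _ _ _ hjk (by omega) (by omega)) (h.2 _ _ _ (by omega) (by omega) (by omega))
    (h.2 _ _ _ hij (by omega) (by omega)) (cvx_nonneg h (by omega) (by omega) (by omega))
    (cvx_nonneg h (by omega) (by omega) (by omega))
    (cvx_nonneg h (by omega) (by omega) (by omega)) (h.2 _ _ _ hij hjk (by omega))).le

theorem dual_last {q : ℕ → E3} {n : ℕ} (h : Cvx q n) {i j : ℕ} (hij : i < j) (hj : j < n) :
    0 < d3 (cr3 (q i) (q (i + 1))) (cr3 (q j) (q (j + 1))) (cr3 (q n) (q 0)) := by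
  refine six ?_ (h.2 _ _ _ (by omega) (by omega) le_rfl)
    (h.2 _ _ _ hij (by omega) (by omega)) (cvx_nonneg h (by omega) (by omega) (by omega)) ?_
    (cvx_nonneg h (by omega) (by omega) le_rfl) (h.2 _ _ _ hij hj le_rfl)
  · rw [d3_cyc]; exact h.2 _ _ _ (by omega) hj le_rfl
  · rw [d3_cyc]; exact cvx_nonneg h (by omega) (by omega) le_rfl

theorem d3_add1 (a b c x y : E3) : d3 (a + b + c) x y = d3 a x y + d3 b x y + d3 c x y := by
  simp [d3]; ring

/-- A plane section in which the arm turns by less than `π`. -/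
theorem exists_plane {q : ℕ → E3} {m : ℕ} (h : Cvx q (m + 2)) :
    ∃ z : E3, (∀ j ≤ m + 2, 0 < inner ℝ z (q j)) ∧ ∀ i j, i < j → j < m + 2 →
      0 < d3 z (cr3 (q i) (q (i + 1))) (cr3 (q j) (q (j + 1))) := by
  refine ⟨cr3 (q 0) (q (0 + 1)) + cr3 (q (m + 1)) (q (m + 1 + 1)) + cr3 (q (m + 2)) (q 0),
    fun j hj => ?_, fun i j hij hj => ?_⟩
  · rw [inner_add_left, inner_add_left, inner_cr3, inner_cr3, inner_cr3,
      d3_cyc (q j) (q (m + 1)), ← d3_cyc (q (m + 2)) (q 0) (q j)]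
    have h3 : 0 ≤ d3 (q 0) (q j) (q (m + 2)) := cvx_nonneg h (by omega) hj le_rfl
    have h1 : 0 ≤ d3 (q 0) (q (0 + 1)) (q j) := by
      rcases Nat.eq_zero_or_pos j with rfl | hj0
      · rw [d3_self13]
      · exact cvx_nonneg h (by omega) (by omega) hj
    have h2 : 0 ≤ d3 (q j) (q (m + 1)) (q (m + 1 + 1)) := by
      rcases hj.eq_or_lt with rfl | hj'
      · rw [d3_self13]
      · exact cvx_nonneg h (by omega) (by omega) le_rfl
    rcases Nat.eq_zero_or_pos j with rfl | hj0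
    · have := h.2 0 (m + 1) (m + 1 + 1) (by omega) (by omega) le_rfl
      linarith
    rcases hj.eq_or_lt with rfl | hj'
    · have := h.2 0 (0 + 1) (m + 2) (by omega) (by omega) le_rfl
      linarith
    · have := h.2 0 j (m + 2) hj0 hj' le_rfl
      linarith
  · rw [d3_add1, ← d3_cyc (cr3 (q (m + 1)) _), ← d3_cyc (cr3 (q (m + 2)) _)]
    have h1 := dual_nonneg h (Nat.zero_le i) hij.le hj
    have h2 := dual_nonneg h hij.le (show j ≤ m + 1 by omega) (by omega)
    have h3 := dual_last h hij hj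
    linarith

theorem cr3_cr3 (a b z : E3) : cr3 (cr3 a b) z = inner ℝ z a • b - inner ℝ z b • a := by
  apply ext3 <;> simp [cr3, inner3] <;> ring

theorem cramer_cr (z a b c : E3) :
    d3 z a c • cr3 b z = d3 z b c • cr3 a z + d3 z a b • cr3 c z := by
  apply ext3 <;> simp [d3, cr3] <;> ring

theorem d3_cr_cr (z a b : E3) : d3 z (cr3 a z) (cr3 b z) = ‖z‖ ^ 2 * d3 z a b := by
  simp [d3, cr3, norm3]; ring

theorem angle_add_cr {z a b c : E3} (hac : 0 < d3 z a c) (hbc : 0 < d3 z b c)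
    (hab : 0 < d3 z a b) :
    angle (cr3 a z) (cr3 c z) = angle (cr3 a z) (cr3 b z) + angle (cr3 b z) (cr3 c z) := by
  have hz : z ≠ 0 := by
    rintro rfl
    simp [d3] at hab
  have hb : cr3 b z ≠ 0 := by
    intro h0
    have h1 := d3_cr_cr z a b
    have h2 : 0 < ‖z‖ ^ 2 * d3 z a b := by
      have := norm_pos_iff.2 hz
      positivity
    rw [← h1, h0] at h2
    simp [d3] at h2
  refine angle_eq_angle_add_add_angle_add_of_mem_span hb (Submodule.mem_span_pair.2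
    ⟨⟨d3 z b c / d3 z a c, by positivity⟩, ⟨d3 z a b / d3 z a c, by positivity⟩, ?_⟩)
  have h := cramer_cr z a b c
  change (d3 z b c / d3 z a c) • cr3 a z + (d3 z a b / d3 z a c) • cr3 c z = cr3 b z
  rw [div_eq_inv_mul, div_eq_inv_mul (d3 z a b), mul_smul, mul_smul, ← smul_add, ← h, smul_smul,
    inv_mul_cancel₀ hac.ne', one_smul]

theorem inner_edge (s t u v : ℝ) (a b c d : E3) :
    inner ℝ (s • a - t • b) (u • c - v • d) = s * u * inner ℝ a c - s * v * inner ℝ a d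
      - t * u * inner ℝ b c + t * v * inner ℝ b d := by
  simp only [inner_sub_left, inner_sub_right, real_inner_smul_left, real_inner_smul_right]
  ring

theorem inner_unit {a : E3} (h : ‖a‖ = 1) : inner ℝ a a = (1 : ℝ) := by
  rw [real_inner_self_eq_norm_sq, h]; norm_num

theorem arm_two (m : ℕ) (q q' : ℕ → E3) (h : Cvx q (m + 2)) (h' : ∀ i ≤ m + 2, ‖q' i‖ = 1)
    (hs : ∀ i < m + 2, inner ℝ (q i) (q (i + 1)) = inner ℝ (q' i) (q' (i + 1)))
    (hd : ∀ i, i + 2 ≤ m + 2 → inner ℝ (q' i) (q' (i + 2)) ≤ inner ℝ (q i) (q (i + 2))) :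
    inner ℝ (q' 0) (q' (m + 2)) ≤ inner ℝ (q 0) (q (m + 2)) ∧
    ((∃ i, i + 2 ≤ m + 2 ∧ inner ℝ (q' i) (q' (i + 2)) < inner ℝ (q i) (q (i + 2))) →
      inner ℝ (q' 0) (q' (m + 2)) < inner ℝ (q 0) (q (m + 2))) := by
  obtain ⟨z, hz, hN⟩ := exists_plane h
  obtain ⟨t, ht⟩ : ∃ t : ℕ → ℝ, ∀ i, t i = (inner ℝ z (q i))⁻¹ := ⟨_, fun _ => rfl⟩
  have tpos : ∀ i ≤ m + 2, 0 < t i := fun i hi => by rw [ht]; exact inv_pos.2 (hz i hi)
  obtain ⟨e, he⟩ : ∃ e : ℕ → E3, ∀ i, e i = t (i + 1) • q (i + 1) - t i • q i :=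
    ⟨_, fun _ => rfl⟩
  obtain ⟨e', he'⟩ : ∃ e' : ℕ → E3, ∀ i, e' i = t (i + 1) • q' (i + 1) - t i • q' i :=
    ⟨_, fun _ => rfl⟩
  have hE : ∀ i < m + 2, e i = (t i * t (i + 1)) • cr3 (cr3 (q i) (q (i + 1))) z := by
    intro i hi
    have a1 := (hz i (by omega)).ne'
    have a2 := (hz (i + 1) (by omega)).ne'
    rw [he, cr3_cr3, smul_sub, smul_smul, smul_smul, ht, ht]
    congr 2 <;> field_simp
  have hn : ∀ i < m + 2, ‖e' i‖ = ‖e i‖ := by
    intro i hi
    rw [← sq_eq_sq₀ (norm_nonneg _) (norm_nonneg _), ← real_inner_self_eq_norm_sq,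
      ← real_inner_self_eq_norm_sq, he, he', inner_edge, inner_edge,
      inner_unit (h.1 i (by omega)), inner_unit (h.1 (i + 1) (by omega)),
      inner_unit (h' i (by omega)), inner_unit (h' (i + 1) (by omega)),
      real_inner_comm (q i) (q (i + 1)), real_inner_comm (q' i) (q' (i + 1)), hs i hi]
  have hdiff : ∀ i, i + 1 < m + 2 →
      inner ℝ (e' i) (e' (i + 1)) - inner ℝ (e i) (e (i + 1)) =
        t i * t (i + 2) * (inner ℝ (q i) (q (i + 2)) - inner ℝ (q' i) (q' (i + 2))) := by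
    intro i hi
    rw [he, he, he', he', inner_edge, inner_edge, inner_unit (h.1 (i + 1) (by omega)),
      inner_unit (h' (i + 1) (by omega)), hs i (by omega), hs (i + 1) hi]
    ring
  have hin : ∀ i, i + 1 < m + 2 → inner ℝ (e i) (e (i + 1)) ≤ inner ℝ (e' i) (e' (i + 1)) := by
    intro i hi
    have a1 := tpos i (by omega)
    have a2 := tpos (i + 2) (by omega)
    have a3 := sub_nonneg.2 (hd i (by omega))
    rw [← sub_nonneg, hdiff i hi]
    positivity
  have hadd : ∀ i j, i < j → j + 1 < m + 2 →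
      angle (e i) (e (j + 1)) = angle (e i) (e j) + angle (e j) (e (j + 1)) := by
    intro i j hij hj
    have p : ∀ k < m + 2, 0 < t k * t (k + 1) := fun k hk =>
      mul_pos (tpos k (by omega)) (tpos (k + 1) (by omega))
    rw [hE i (by omega), hE j (by omega), hE (j + 1) hj]
    simp only [angle_smul_left_of_pos _ _ (p i (by omega)),
      angle_smul_left_of_pos _ _ (p j (by omega)), angle_smul_right_of_pos _ _ (p j (by omega)),
      angle_smul_right_of_pos _ _ (p (j + 1) hj)]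
    exact angle_add_cr (hN _ _ (by omega) hj) (hN _ _ (by omega) hj) (hN _ _ hij (by omega))
  have hb := bow (m + 2) e e' hn hin hadd
  have tot : ∀ (p f : ℕ → E3), (∀ i, f i = t (i + 1) • p (i + 1) - t i • p i) → ‖p 0‖ = 1 →
      ‖p (m + 2)‖ = 1 → ∑ i ∈ Finset.range (m + 2), ∑ k ∈ Finset.range (m + 2),
        inner ℝ (f i) (f k) =
        t (m + 2) ^ 2 + t 0 ^ 2 - 2 * (t 0 * t (m + 2)) * inner ℝ (p 0) (p (m + 2)) := by
    intro p f hf h0 h1
    have : ∑ i ∈ Finset.range (m + 2), f i = t (m + 2) • p (m + 2) - t 0 • p 0 := by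
      simp only [hf]
      exact Finset.sum_range_sub (fun i => t i • p i) (m + 2)
    simp only [← inner_sum]
    rw [← sum_inner, this, inner_edge, inner_unit h0, inner_unit h1,
      real_inner_comm (p 0) (p (m + 2))]
    ring
  have T1 := tot q e he (h.1 0 (by omega)) (h.1 _ le_rfl)
  have T2 := tot q' e' he' (h' 0 (by omega)) (h' _ le_rfl)
  have tp : 0 < 2 * (t 0 * t (m + 2)) := by
    have := tpos 0 (by omega)
    have := tpos (m + 2) le_rfl
    positivity
  have row : ∀ i ∈ Finset.range (m + 2), ∑ k ∈ Finset.range (m + 2), inner ℝ (e i) (e k) ≤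
      ∑ k ∈ Finset.range (m + 2), inner ℝ (e' i) (e' k) := fun i hi =>
    Finset.sum_le_sum fun k hk => hb i (Finset.mem_range.1 hi) k (Finset.mem_range.1 hk)
  constructor
  · have := Finset.sum_le_sum row
    rw [T1, T2] at this
    exact le_of_mul_le_mul_left (by linarith) tp
  · rintro ⟨i, hi, hlt⟩
    have := Finset.sum_lt_sum row ⟨i, Finset.mem_range.2 (by omega), Finset.sum_lt_sum
      (fun k hk => hb i (by omega) k (Finset.mem_range.1 hk))
      ⟨i + 1, Finset.mem_range.2 (by omega), by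
        have a1 := tpos i (by omega)
        have a2 := tpos (i + 2) (by omega)
        have a3 := sub_pos.2 hlt
        rw [← sub_pos, hdiff i (by omega)]
        positivity⟩⟩
    rw [T1, T2] at this
    exact lt_of_mul_lt_mul_left (by linarith) tp.le

end Arm

theorem stArm : StArm := by
  intro n q q' h h' hs hd
  match n with
  | 0 =>
    rw [Arm.inner_unit (h.1 0 le_rfl), Arm.inner_unit (h'.1 0 le_rfl)]
    exact ⟨le_rfl, fun ⟨i, hi, _⟩ => absurd hi (by omega)⟩
  | 1 => exact ⟨(hs 0 one_pos).ge, fun ⟨i, hi, _⟩ => absurd hi (by omega)⟩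
  | m + 2 => exact Arm.arm_two m q q' h h'.1 hs hd

namespace Arm

/-- A periodic parametrisation of a closed convex polygon. -/
def Per (Q : ℕ → E3) (n : ℕ) : Prop :=
  (∀ k, Q (k + (n + 1)) = Q k) ∧ ∀ s, Cvx (fun k => Q (s + k)) n

theorem per_of_cvx {q : ℕ → E3} {n : ℕ} (h : Cvx q n) : Per (fun k => q (k % (n + 1))) n := by
  refine ⟨fun k => by simp, fun s => ⟨fun i _ => h.1 _ (Nat.le_of_lt_succ (Nat.mod_lt _ (by omega))),
    fun i j k hij hjk hk => ?_⟩⟩
  have hr : s % (n + 1) < n + 1 := Nat.mod_lt _ (by omega)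
  have hm : ∀ l ≤ n, (s + l) % (n + 1) =
      if s % (n + 1) + l < n + 1 then s % (n + 1) + l else s % (n + 1) + l - (n + 1) := by
    intro l hl
    rw [← Nat.mod_add_mod]
    split_ifs with h1
    · exact Nat.mod_eq_of_lt h1
    · rw [Nat.mod_eq_sub_mod (by omega)]
      exact Nat.mod_eq_of_lt (by omega)
  simp only
  rw [hm i (by omega), hm j (by omega), hm k hk]
  generalize s % (n + 1) = r at hr
  split_ifs with h1 h2 h3
  · exact h.2 _ _ _ (by omega) (by omega) (by omega)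
  · rw [d3_cyc]; exact h.2 _ _ _ (by omega) (by omega) (by omega)
  · omega
  · rw [← d3_cyc]; exact h.2 _ _ _ (by omega) (by omega) (by omega)
  · omega
  · omega
  · omega
  · exact h.2 _ _ _ (by omega) (by omega) (by omega)

theorem two_arms (hA : StArm) {n : ℕ} {Q Q' : ℕ → E3} (h : Per Q n) (h' : Per Q' n)
    (hs : ∀ k, inner ℝ (Q k) (Q (k + 1)) = inner ℝ (Q' k) (Q' (k + 1))) {s m k₀ : ℕ}
    (hm1 : 1 ≤ m) (hm : m ≤ n)
    (h1 : ∀ k, s ≤ k → k + 2 ≤ s + m → inner ℝ (Q' k) (Q' (k + 2)) ≤ inner ℝ (Q k) (Q (k + 2)))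
    (h2 : ∀ k, s + m ≤ k → k + 2 ≤ s + (n + 1) →
      inner ℝ (Q k) (Q (k + 2)) ≤ inner ℝ (Q' k) (Q' (k + 2)))
    (hk1 : s ≤ k₀) (hk2 : k₀ + 2 ≤ s + m)
    (hlt : inner ℝ (Q' k₀) (Q' (k₀ + 2)) < inner ℝ (Q k₀) (Q (k₀ + 2))) : False := by
  have a1 := (hA m (fun k => Q (s + k)) (fun k => Q' (s + k)) (cvx_mono (h.2 s) hm)
    (cvx_mono (h'.2 s) hm) (fun i _ => hs (s + i))
    (fun i hi => h1 (s + i) (by omega) (by omega))).2 ⟨k₀ - s, by omega, by
      simp only [← add_assoc, Nat.add_sub_cancel' hk1]; exact hlt⟩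
  have a2 := (hA (n + 1 - m) (fun k => Q' (s + m + k)) (fun k => Q (s + m + k))
    (cvx_mono (h'.2 (s + m)) (by omega)) (cvx_mono (h.2 (s + m)) (by omega))
    (fun i _ => (hs (s + m + i)).symm)
    (fun i hi => h2 (s + m + i) (by omega) (by omega))).1
  have e : s + m + (n + 1 - m) = s + (n + 1) := by omega
  simp only [add_zero, e, h.1, h'.1] at a1 a2
  rw [real_inner_comm, real_inner_comm (Q' s)] at a2
  exact absurd a1 (not_lt.2 a2)

theorem no_neg (hA : StArm) {n : ℕ} (hn : 2 ≤ n) {Q Q' : ℕ → E3} (h : Per Q n) (h' : Per Q' n)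
    (hs : ∀ k, inner ℝ (Q k) (Q (k + 1)) = inner ℝ (Q' k) (Q' (k + 1))) {a b k₀ : ℕ}
    (h1 : ∀ k, a ≤ k → k < b → inner ℝ (Q' k) (Q' (k + 2)) ≤ inner ℝ (Q k) (Q (k + 2)))
    (h2 : ∀ k, b ≤ k → k < a + (n + 1) →
      inner ℝ (Q k) (Q (k + 2)) ≤ inner ℝ (Q' k) (Q' (k + 2)))
    (hk1 : a ≤ k₀) (hk2 : k₀ < b) :
    inner ℝ (Q k₀) (Q (k₀ + 2)) ≤ inner ℝ (Q' k₀) (Q' (k₀ + 2)) := by
  by_contra hlt
  rw [not_le] at hlt
  by_cases c1 : b + 1 ≤ a + n
  · exact two_arms hA h h' hs (s := a) (m := b + 1 - a) (by omega) (by omega)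
      (fun k _ _ => h1 k (by omega) (by omega)) (fun k _ _ => h2 k (by omega) (by omega))
      hk1 (by omega) hlt
  by_cases c2 : k₀ + 2 ≤ a + n
  · exact two_arms hA h h' hs (s := a) (m := n) (by omega) le_rfl
      (fun k _ _ => h1 k (by omega) (by omega)) (fun k _ _ => by omega) hk1 c2 hlt
  · exact two_arms hA h h' hs (s := k₀ + 2 - n) (m := n) (by omega) le_rfl
      (fun k _ _ => h1 k (by omega) (by omega)) (fun k _ _ => by omega) (by omega) (by omega) hlt

/-- If the signs form two arcs, all differences vanish. -/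
theorem two_arcs (hA : StArm) {n : ℕ} (hn : 2 ≤ n) {q q' : ℕ → E3} {δ : ℕ → ℝ} (h : Cvx q n)
    (h' : Cvx q' n)
    (hs : ∀ i ≤ n, inner ℝ (q i) (q ((i + 1) % (n + 1))) =
      inner ℝ (q' i) (q' ((i + 1) % (n + 1))))
    (hδ : ∀ i ≤ n, δ i = inner ℝ (q' ((i + n) % (n + 1))) (q' ((i + 1) % (n + 1))) -
      inner ℝ (q ((i + n) % (n + 1))) (q ((i + 1) % (n + 1)))) {a b : ℕ} (hb : b ≤ n + 1)
    (_hab : a ≤ b) (h1 : ∀ i, a ≤ i → i < b → δ i ≤ 0)
    (h2 : ∀ i ≤ n, i < a ∨ b ≤ i → 0 ≤ δ i) : ∀ i ≤ n, δ i = 0 := by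
  have P := per_of_cvx h
  have P' := per_of_cvx h'
  have lt : ∀ k, k % (n + 1) ≤ n := fun k => Nat.le_of_lt_succ (Nat.mod_lt _ (by omega))
  have S : ∀ k, inner ℝ (q (k % (n + 1))) (q ((k + 1) % (n + 1))) =
      inner ℝ (q' (k % (n + 1))) (q' ((k + 1) % (n + 1))) := by
    intro k
    have := hs _ (lt k)
    rwa [Nat.mod_add_mod] at this
  have D : ∀ k, δ ((k + 1) % (n + 1)) =
      inner ℝ (q' (k % (n + 1))) (q' ((k + 2) % (n + 1))) -
        inner ℝ (q (k % (n + 1))) (q ((k + 2) % (n + 1))) := by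
    intro k
    rw [hδ _ (lt (k + 1)), Nat.mod_add_mod, Nat.mod_add_mod,
      show k + 1 + n = k + (n + 1) by ring, Nat.add_mod_right]
  have md : ∀ i ≤ n, (i + n + 1) % (n + 1) = i := by
    intro i hi
    rw [add_assoc, Nat.add_mod_right]
    exact Nat.mod_eq_of_lt (by omega)
  have pos : ∀ i ≤ n, 0 ≤ δ i := by
    intro i hi
    by_cases c : i < a ∨ b ≤ i
    · exact h2 i hi c
    rw [← md i hi, D, sub_nonneg]
    refine no_neg hA hn P P' S (a := a + n) (b := b + n) (fun k k1 k2 => ?_) (fun k k1 k2 => ?_)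
      (by omega) (by omega)
    · obtain ⟨j, rfl⟩ : ∃ j, k = j + n := ⟨k - n, by omega⟩
      have := h1 j (by omega) (by omega)
      rw [← md j (by omega), D] at this
      exact sub_nonpos.1 this
    · refine sub_nonneg.1 (le_of_le_of_eq (h2 _ (lt (k + 1)) ?_) (D k))
      obtain ⟨j, rfl⟩ : ∃ j, k = j + n := ⟨k - n, by omega⟩
      by_cases c' : j ≤ n
      · rw [md j c']; omega
      · obtain ⟨l, rfl⟩ : ∃ l, j = l + n + 1 := ⟨j - (n + 1), by omega⟩
        rw [add_assoc (l + n + 1), Nat.add_mod_right, md l (by omega)]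
        omega
  intro i hi
  refine le_antisymm ?_ (pos i hi)
  rw [← md i hi, D, sub_nonpos]
  exact no_neg hA hn P' P (fun k => (S k).symm) (a := n) (b := n + (n + 1))
    (fun k _ _ => sub_nonneg.1 (le_of_le_of_eq (pos _ (lt (k + 1))) (D k)))
    (fun k _ _ => by omega) (by omega) (by omega)

/-- Without four alternating signs the sequence splits in three blocks. -/
theorem split (n : ℕ) (δ : ℕ → ℝ) (i₁ : ℕ) (hp : 0 < δ i₁) (hz : ∀ i < i₁, δ i = 0)
    (hno : ¬ ∃ i₁ i₂ i₃ i₄, i₁ < i₂ ∧ i₂ < i₃ ∧ i₃ < i₄ ∧ i₄ ≤ n ∧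
      δ i₁ * δ i₂ < 0 ∧ δ i₂ * δ i₃ < 0 ∧ δ i₃ * δ i₄ < 0) :
    ∃ a b, b ≤ n + 1 ∧ a ≤ b ∧ (∀ i, a ≤ i → i < b → δ i ≤ 0) ∧
      ∀ i ≤ n, i < a ∨ b ≤ i → 0 ≤ δ i := by
  classical
  let s := (Finset.range (n + 1)).filter fun i => δ i < 0
  have hs : ∀ i, i ∈ s ↔ i ≤ n ∧ δ i < 0 := fun i => by simp [s]
  rcases s.eq_empty_or_nonempty with h | h
  · refine ⟨0, 0, by omega, le_rfl, fun i _ hi => by omega, fun i hi _ => ?_⟩
    by_contra hc
    have : i ∈ s := (hs i).2 ⟨hi, not_le.1 hc⟩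
    rw [h] at this
    exact absurd this (Finset.notMem_empty i)
  · have ha := (hs _).1 (s.min'_mem h)
    have hb := (hs _).1 (s.max'_mem h)
    have hab := s.min'_le_max' h
    refine ⟨s.min' h, s.max' h + 1, by omega, by omega, fun i h1 h2 => ?_, fun i hi hc => ?_⟩
    · by_contra hc
      rw [not_le] at hc
      have n1 : i ≠ s.min' h := fun e => by rw [e] at hc; linarith [ha.2]
      have n2 : i ≠ s.max' h := fun e => by rw [e] at hc; linarith [hb.2]
      have n3 : i₁ < s.min' h := by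
        rcases lt_trichotomy i₁ (s.min' h) with c | c | c
        · exact c
        · rw [c] at hp; linarith [ha.2]
        · have := hz _ c; linarith [ha.2]
      exact hno ⟨i₁, s.min' h, i, s.max' h, n3, by omega, by omega, hb.1,
        mul_neg_of_pos_of_neg hp ha.2, mul_neg_of_neg_of_pos ha.2 hc,
        mul_neg_of_pos_of_neg hc hb.2⟩
    · by_contra hc'
      have hi' : i ∈ s := (hs i).2 ⟨hi, not_le.1 hc'⟩
      have := s.min'_le i hi'
      have := s.le_max' i hi'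
      omega

end Arm

theorem stSign (hA : StArm) : StSign := by
  classical
  intro n q q' δ hn h h' hs hδ
  by_contra hc
  rw [not_or] at hc
  obtain ⟨h0, hno⟩ := hc
  have hex : ∃ i, δ i ≠ 0 := by
    by_contra hall
    push Not at hall
    exact h0 fun i _ => hall i
  have hz : ∀ i < Nat.find hex, δ i = 0 := fun i hi => not_not.1 (Nat.find_min hex hi)
  rcases lt_or_gt_of_ne (Nat.find_spec hex) with hneg | hpos
  · obtain ⟨a, b, hb, hab, h1, h2⟩ := Arm.split n (fun i => -δ i) (Nat.find hex)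
      (neg_pos.2 hneg) (fun i hi => by rw [hz i hi, neg_zero]) (by simpa only [neg_mul_neg] using hno)
    have := Arm.two_arcs hA hn (δ := fun i => -δ i) h' h (fun i hi => (hs i hi).symm)
      (fun i hi => by rw [hδ i hi, neg_sub]) hb hab h1 h2
    exact h0 fun i hi => neg_eq_zero.1 (this i hi)
  · obtain ⟨a, b, hb, hab, h1, h2⟩ := Arm.split n δ (Nat.find hex) hpos hz hno
    exact h0 (Arm.two_arcs hA hn h h' hs hδ hb hab h1 h2)

end Pool.Agent.Lib.MP_34b931_co.G
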