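import Pool.Agent.Lib.MP_34b931_co.H22St

/-! Determinants, cross products and frames. -/

namespace Pool.Agent.Lib.MP_34b931_co.G

open Filter Topology

theorem inner3 (a b : E3) : inner ℝ a b = a 0 * b 0 + a 1 * b 1 + a 2 * b 2 := by
  simp [PiLp.inner_apply, Fin.sum_univ_three]; ring

theorem inner4 (a b : E4) : inner ℝ a b = a 0 * b 0 + a 1 * b 1 + a 2 * b 2 + a 3 * b 3 := by
  simp [PiLp.inner_apply, Fin.sum_univ_four]; ring

theorem ext3 {a b : E3} (h0 : a 0 = b 0) (h1 : a 1 = b 1) (h2 : a 2 = b 2) : a = b := by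
  ext i; fin_cases i <;> assumption

theorem ext4 {a b : E4} (h0 : a 0 = b 0) (h1 : a 1 = b 1) (h2 : a 2 = b 2) (h3 : a 3 = b 3) :
    a = b := by
  ext i; fin_cases i <;> assumption

theorem norm3 (a : E3) : ‖a‖ ^ 2 = a 0 ^ 2 + a 1 ^ 2 + a 2 ^ 2 := by
  rw [← real_inner_self_eq_norm_sq, inner3]; ring

theorem norm4 (a : E4) : ‖a‖ ^ 2 = a 0 ^ 2 + a 1 ^ 2 + a 2 ^ 2 + a 3 ^ 2 := by
  rw [← real_inner_self_eq_norm_sq, inner4]; ring

theorem d3_swap12 (a b c : E3) : d3 b a c = -d3 a b c := by simp only [d3]; ring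
theorem d3_swap23 (a b c : E3) : d3 a c b = -d3 a b c := by simp only [d3]; ring
theorem d3_cyc (a b c : E3) : d3 b c a = d3 a b c := by simp only [d3]; ring
theorem d3_self12 (a c : E3) : d3 a a c = 0 := by simp only [d3]; ring
theorem d3_self13 (a b : E3) : d3 a b a = 0 := by simp only [d3]; ring
theorem d3_self23 (a b : E3) : d3 a b b = 0 := by simp only [d3]; ring

theorem d4_swap12 (a b c d : E4) : d4 b a c d = -d4 a b c d := by simp only [d4, m3]; ring
theorem d4_swap23 (a b c d : E4) : d4 a c b d = -d4 a b c d := by simp only [d4, m3]; ring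
theorem d4_swap34 (a b c d : E4) : d4 a b d c = -d4 a b c d := by simp only [d4, m3]; ring
theorem d4_cyc (a b c d : E4) : d4 b c a d = d4 a b c d := by simp only [d4, m3]; ring
theorem d4_rot (a b c d : E4) : d4 b c d a = -d4 a b c d := by simp only [d4, m3]; ring
theorem d4_rot2 (a b c d : E4) : d4 c d a b = d4 a b c d := by simp only [d4, m3]; ring
theorem d4_self12 (a c d : E4) : d4 a a c d = 0 := by simp only [d4, m3]; ring
theorem d4_self13 (a b d : E4) : d4 a b a d = 0 := by simp only [d4, m3]; ring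
theorem d4_self14 (a b c : E4) : d4 a b c a = 0 := by simp only [d4, m3]; ring
theorem d4_self23 (a b d : E4) : d4 a b b d = 0 := by simp only [d4, m3]; ring
theorem d4_self24 (a b c : E4) : d4 a b c b = 0 := by simp only [d4, m3]; ring
theorem d4_self34 (a b c : E4) : d4 a b c c = 0 := by simp only [d4, m3]; ring

@[fun_prop] theorem continuous_d3 {X : Type*} [TopologicalSpace X] {a b c : X → E3}
    (ha : Continuous a) (hb : Continuous b) (hc : Continuous c) :
    Continuous fun x => d3 (a x) (b x) (c x) := by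
  simp only [d3]; fun_prop

@[fun_prop] theorem continuous_d4 {X : Type*} [TopologicalSpace X] {a b c d : X → E4}
    (ha : Continuous a) (hb : Continuous b) (hc : Continuous c) (hd : Continuous d) :
    Continuous fun x => d4 (a x) (b x) (c x) (d x) := by
  simp only [d4, m3]; fun_prop

/-- Cross product in `E3`. -/
noncomputable def cr3 (a b : E3) : E3 :=
  !₂[a 1 * b 2 - a 2 * b 1, a 2 * b 0 - a 0 * b 2, a 0 * b 1 - a 1 * b 0]

theorem inner_cr3 (a b c : E3) : inner ℝ (cr3 a b) c = d3 a b c := by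
  simp [inner3, cr3, d3]; ring

theorem norm_cr3 (a b : E3) : ‖cr3 a b‖ ^ 2 = ‖a‖ ^ 2 * ‖b‖ ^ 2 - inner ℝ a b ^ 2 := by
  simp [norm3, inner3, cr3]; ring

/-- Cross product of three vectors of `E4`. -/
noncomputable def cr (a b c : E4) : E4 :=
  !₂[-m3 1 2 3 a b c, m3 0 2 3 a b c, -m3 0 1 3 a b c, m3 0 1 2 a b c]

theorem inner_cr (a b c d : E4) : inner ℝ (cr a b c) d = d4 a b c d := by
  simp [inner4, cr, d4]; ring

@[fun_prop] theorem continuous_cr {X : Type*} [TopologicalSpace X] {a b c : X → E4}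
    (ha : Continuous a) (hb : Continuous b) (hc : Continuous c) :
    Continuous fun x => cr (a x) (b x) (c x) := by
  refine (PiLp.continuous_toLp 2 _).comp (continuous_pi fun i => ?_)
  fin_cases i <;> simp [m3] <;> fun_prop

/-- Cramer's rule in `E3`. -/
theorem cramer3 (a b c v : E3) :
    d3 a b c • v = d3 v b c • a + d3 a v c • b + d3 a b v • c := by
  apply ext3 <;> simp [d3] <;> ring

/-- Cramer's rule in `E4`. -/
theorem cramer4 (a b c d v : E4) :
    d4 a b c d • v = d4 v b c d • a + d4 a v c d • b + d4 a b v d • c + d4 a b c v • d := by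
  apply ext4 <;> simp [d4, m3] <;> ring

/-- Dual Cramer rule in `E4`. -/
theorem dual4 (a b c d v : E4) : d4 a b c d • v = -(inner ℝ a v • cr b c d) +
    inner ℝ b v • cr a c d - inner ℝ c v • cr a b d + inner ℝ d v • cr a b c := by
  apply ext4 <;> simp [d4, m3, cr, inner4] <;> ring

theorem dual3 (a b c v : E3) : d3 a b c • v = inner ℝ a v • cr3 b c +
    inner ℝ b v • cr3 c a + inner ℝ c v • cr3 a b := by
  apply ext3 <;> simp [d3, cr3, inner3] <;> ring

theorem eq_zero_of_inner4 {a b c d v : E4} (h : d4 a b c d ≠ 0) (ha : inner ℝ a v = 0)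
    (hb : inner ℝ b v = 0) (hc : inner ℝ c v = 0) (hd : inner ℝ d v = 0) : v = 0 := by
  have := dual4 a b c d v
  rw [ha, hb, hc, hd] at this
  simpa [h] using this

theorem eq_zero_of_inner3 {a b c v : E3} (h : d3 a b c ≠ 0) (ha : inner ℝ a v = 0)
    (hb : inner ℝ b v = 0) (hc : inner ℝ c v = 0) : v = 0 := by
  have := dual3 a b c v
  rw [ha, hb, hc] at this
  simpa [h] using this

/-- A linear system with nonzero determinant is solvable. -/
theorem exists_dual4 {a b c d : E4} (h : d4 a b c d ≠ 0) (r s t w : ℝ) :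
    ∃ y : E4, inner ℝ y a = r ∧ inner ℝ y b = s ∧ inner ℝ y c = t ∧ inner ℝ y d = w := by
  refine ⟨(d4 a b c d)⁻¹ • (-(r • cr b c d) + s • cr a c d - t • cr a b d + w • cr a b c),
    ?_, ?_, ?_, ?_⟩ <;>
  simp only [real_inner_smul_left, inner_add_left, inner_sub_left, inner_neg_left, inner_cr] <;>
  field_simp <;> simp only [d4, m3] <;> ring

/-- A vector orthogonal to `a, b, c` is a multiple of their cross product. -/
theorem perp_cr {a b c v : E4} (d : E4) (ha : inner ℝ a v = 0) (hb : inner ℝ b v = 0)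
    (hc : inner ℝ c v = 0) : d4 a b c d • v = inner ℝ d v • cr a b c := by
  have := dual4 a b c d v
  rw [ha, hb, hc] at this
  simpa using this

theorem d3_sq (a b c : E3) : d3 a b c ^ 2 =
    inner ℝ a a * inner ℝ b b * inner ℝ c c + 2 * inner ℝ a b * inner ℝ b c * inner ℝ a c
      - inner ℝ a a * inner ℝ b c ^ 2 - inner ℝ b b * inner ℝ a c ^ 2
      - inner ℝ c c * inner ℝ a b ^ 2 := by
  simp only [d3, inner3]; ring

/-- Cauchy-Binet for two triples. -/
theorem d3_mul (a b c a' b' c' : E3) : d3 a b c * d3 a' b' c' =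
    inner ℝ a a' * (inner ℝ b b' * inner ℝ c c' - inner ℝ b c' * inner ℝ c b')
      - inner ℝ a b' * (inner ℝ b a' * inner ℝ c c' - inner ℝ b c' * inner ℝ c a')
      + inner ℝ a c' * (inner ℝ b a' * inner ℝ c b' - inner ℝ b b' * inner ℝ c a') := by
  simp only [d3, inner3]; ring

/-- Two unit vectors with the same products with `a, b, c` on the same side coincide. -/
theorem vtx_unique {a b c x y : E4} (hx : ‖x‖ = 1) (hy : ‖y‖ = 1)
    (ha : inner ℝ a x = inner ℝ a y) (hb : inner ℝ b x = inner ℝ b y)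
    (hc : inner ℝ c x = inner ℝ c y) (px : 0 < d4 a b c x) (py : 0 < d4 a b c y) : x = y := by
  have h0 : inner ℝ (x + y) (x - y) = (0 : ℝ) := by
    rw [inner_add_left, inner_sub_right, inner_sub_right, real_inner_self_eq_norm_sq,
      real_inner_self_eq_norm_sq, hx, hy, real_inner_comm]; ring
  have h1 : d4 a b c (x + y) = d4 a b c x + d4 a b c y := by
    rw [← inner_cr, ← inner_cr, ← inner_cr, inner_add_right]
  refine sub_eq_zero.1 (eq_zero_of_inner4 (a := a) (b := b) (c := c) (d := x + y)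
    (by rw [h1]; positivity) ?_ ?_ ?_ h0) <;> rw [inner_sub_right] <;> linarith

/-- Coordinates on the orthogonal complement of `x` in the quaternionic frame. -/
noncomputable def fr (x v : E4) : E3 :=
  !₂[x 3 * v 0 + x 2 * v 1 - x 1 * v 2 - x 0 * v 3, -(x 2 * v 0) + x 3 * v 1 + x 0 * v 2 - x 1 * v 3,
    x 1 * v 0 - x 0 * v 1 + x 3 * v 2 - x 2 * v 3]

theorem fr_inner' (x v w : E4) : inner ℝ (fr x v) (fr x w) =
    ‖x‖ ^ 2 * inner ℝ v w - inner ℝ v x * inner ℝ w x := by
  simp [fr, inner3, inner4, norm4]; ring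

theorem fr_d3' (x a b c : E4) : d3 (fr x a) (fr x b) (fr x c) = ‖x‖ ^ 2 * d4 a b c x := by
  simp [fr, d3, d4, m3, norm4]; ring

theorem fr_inner {x : E4} (hx : ‖x‖ = 1) (v w : E4) : inner ℝ (fr x v) (fr x w) =
    inner ℝ v w - inner ℝ v x * inner ℝ w x := by
  rw [fr_inner', hx]; ring

theorem fr_d3 {x : E4} (hx : ‖x‖ = 1) (a b c : E4) :
    d3 (fr x a) (fr x b) (fr x c) = d4 a b c x := by
  rw [fr_d3', hx]; ring

theorem fr_add (x v w : E4) : fr x (v + w) = fr x v + fr x w := by
  apply ext3 <;> simp [fr] <;> ring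

theorem fr_smul (x v : E4) (t : ℝ) : fr x (t • v) = t • fr x v := by
  apply ext3 <;> simp [fr] <;> ring

theorem fr_self (x : E4) : fr x x = 0 := by
  apply ext3 <;> simp [fr] <;> ring

/-- Four unit vectors of `E3` have vanishing Gram determinant. -/
theorem Dg_eq_zero {ι : Type} {G : ι → ι → ℝ} {a b c d : ι} {A B C D : E3} (hA : ‖A‖ = 1)
    (hB : ‖B‖ = 1) (hC : ‖C‖ = 1) (hD : ‖D‖ = 1) (ab : inner ℝ A B = G a b)
    (ac : inner ℝ A C = G a c) (ad : inner ℝ A D = G a d) (bc : inner ℝ B C = G b c)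
    (bd : inner ℝ B D = G b d) (cd : inner ℝ C D = G c d) : Dg G a b c d = 0 := by
  have k := fun v : E3 => congrArg (inner ℝ v) (cramer3 A B C D)
  have kA := k A
  have kB := k B
  have kC := k C
  have kD := k D
  have e1 := d3_mul A B C A B C
  have e2 := d3_mul A B C D B C
  have e3 := d3_mul A B C A D C
  have e4 := d3_mul A B C A B D
  simp only [inner_add_right, real_inner_smul_right, real_inner_self_eq_norm_sq, hA, hB, hC, hD,
    real_inner_comm A B, real_inner_comm A C, real_inner_comm A D, real_inner_comm B C,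
    real_inner_comm B D, real_inner_comm C D, ab, ac, ad, bc, bd, cd] at kD e1 e2 e3 e4
  simp only [Dg]
  linear_combination (-1 : ℝ) * e1 + G a d * e2 + G b d * e3 + G c d * e4 + d3 A B C * kD

end Pool.Agent.Lib.MP_34b931_co.G
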