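import Pool.Agent.Lib.MP_34b931_co.H22Tri

/-! Every cycle bounds: a sign cocycle on the faces of a ball-polyhedron is a coboundary. -/

namespace Pool.Agent.Lib.MP_34b931_co.G

open Filter Topology

namespace Bnd

/-- `V` spans the line attached to the weights `w` by the sign matrix `S`. -/
def Spans {ι : Type} (S : ι → ι → ℝ) (w V : ι → ℝ) : Prop :=
  ∃ (l : ℝ) (σ : ι → ℝ), l ≠ 0 ∧ (∀ i, σ i * σ i = 1) ∧
    (∀ i j, w i ≠ 0 → w j ≠ 0 → S i j = σ i * σ j) ∧ ∀ i, V i = l * σ i * w i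

theorem Spans.step {ι : Type} [Fintype ι] {S : ι → ι → ℝ} {w w' V σ' : ι → ℝ} (h : Spans S w V)
    (w0 : ∀ i, 0 ≤ w i) (w0' : ∀ i, 0 ≤ w' i) (s1 : ∀ i, σ' i * σ' i = 1)
    (a : ∀ i j, w i ≠ 0 → w j ≠ 0 → S i j = σ' i * σ' j)
    (b : ∀ i j, w' i ≠ 0 → w' j ≠ 0 → S i j = σ' i * σ' j) {k : ι} (k1 : 0 < w k) (k2 : 0 < w' k) :
    Spans S w' fun i => w' i * ∑ j, S i j * w' j * V j := by
  obtain ⟨l, σ, l0, s0, hS, hV⟩ := h
  have p : 0 < ∑ j, w' j * w j :=
    Finset.sum_pos' (fun j _ => mul_nonneg (w0' j) (w0 j)) ⟨k, Finset.mem_univ _, mul_pos k2 k1⟩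
  have n1 : σ k ≠ 0 := fun e => by simpa [e] using s0 k
  have n2 : σ' k ≠ 0 := fun e => by simpa [e] using s1 k
  refine ⟨l * (σ k * σ' k) * ∑ j, w' j * w j, σ', mul_ne_zero (mul_ne_zero l0 (mul_ne_zero n1 n2))
    p.ne', s1, b, fun i => ?_⟩
  by_cases hi : w' i = 0
  · simp [hi]
  have : ∑ j, S i j * w' j * V j = ∑ j, l * (σ k * σ' k) * σ' i * (w' j * w j) := by
    refine Finset.sum_congr rfl fun j _ => ?_
    rw [hV j]
    by_cases h1 : w' j = 0
    · simp [h1]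
    by_cases h2 : w j = 0
    · simp [h2]
    have e1 := hS j k h2 k1.ne'
    have e2 := a j k h2 k1.ne'
    have e3 : σ j = σ k * σ' k * σ' j := by
      linear_combination (σ k) * (e2 - e1) - σ j * s0 k
    rw [b i j hi h1, e3]
    linear_combination (l * σ k * σ' k * σ' i * w' j * w j) * s1 j
  simp only [this, ← Finset.mul_sum]
  ring

/-- A locally trivial sign cocycle on a compact convex set has a continuous section. -/
theorem transport {ι : Type} [Fintype ι] {K : Set E3} (hK : IsCompact K) (hc : Convex ℝ K)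
    (g : ι → E3 → ℝ) (hg : ∀ i, Continuous (g i)) (h1 : ∀ y, ∃ i, g i y = 0) (h0 : ∀ i y, 0 ≤ g i y)
    (S : ι → ι → ℝ) (hS : ∀ y ∈ K, ∃ σ : ι → ℝ, (∀ i, σ i * σ i = 1) ∧
      ∀ i j, g i y = 0 → g j y = 0 → S i j = σ i * σ j) :
    ∃ V : ι → E3 → ℝ, (∀ i, Continuous (V i)) ∧
      ∀ y ∈ K, ∀ i j, g i y = 0 → g j y = 0 → 0 < V i y * V j y * S i j := by
  rcases K.eq_empty_or_nonempty with rfl | ⟨y0, hy0⟩
  · exact ⟨fun _ _ => 0, fun _ => continuous_const, by simp⟩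
  have loc : ∀ (f : E3 → ℝ) (y1 : E3) (U : Set ℝ), Continuous f → U ∈ 𝓝 (f y1) →
      ∀ᶠ z : ℝ × E3 in 𝓝 (0, y1), ∀ y', dist y' z.2 ≤ z.1 → f y' ∈ U := by
    intro f y1 U hf hU
    obtain ⟨ρ, ρ0, hρ⟩ := Metric.eventually_nhds_iff.1 (hf.continuousAt.eventually hU)
    have : ∀ᶠ z : ℝ × E3 in 𝓝 (0, y1), z.1 + dist z.2 y1 < ρ :=
      ContinuousAt.eventually_lt (by fun_prop) continuousAt_const (by simpa using ρ0)
    filter_upwards [this] with z hz y' hy'
    exact hρ (by linarith [dist_triangle y' z.2 y1])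
  have e1 : ∀ᶠ δ in 𝓝 (0 : ℝ), ∀ y ∈ K, ∃ σ : ι → ℝ, (∀ i, σ i * σ i = 1) ∧ ∀ y', dist y' y ≤ δ →
      ∀ i j, g i y' < δ → g j y' < δ → S i j = σ i * σ j := by
    refine hK.eventually_forall_of_forall_eventually fun y1 hy1 => ?_
    obtain ⟨σ, s1, s2⟩ := hS y1 hy1
    have : ∀ i, ∀ᶠ z : ℝ × E3 in 𝓝 (0, y1), ∀ y', dist y' z.2 ≤ z.1 → g i y' < z.1 → g i y1 = 0 := by
      intro i
      rcases (h0 i y1).eq_or_lt with e | e
      · exact Eventually.of_forall fun _ _ _ _ => e.symm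
      have a : ∀ᶠ z : ℝ × E3 in 𝓝 (0, y1), z.1 < g i y1 / 2 :=
        ContinuousAt.eventually_lt (by fun_prop) continuousAt_const (by simpa using e)
      filter_upwards [a, loc (g i) y1 _ (hg i) (Ioi_mem_nhds (half_lt_self e))] with z z1 z2 y' d l
      exact absurd (z2 y' d) (by simp only [Set.mem_Ioi]; linarith)
    filter_upwards [eventually_all.2 this] with z hz
    exact ⟨σ, s1, fun y' d i j a b => s2 i j (hz i y' d a) (hz j y' d b)⟩
  obtain ⟨δ, e1, δ0⟩ := ((e1.filter_mono nhdsWithin_le_nhds).and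
    (self_mem_nhdsWithin (s := Set.Ioi (0 : ℝ)))).exists
  replace δ0 : 0 < δ := δ0
  have e2 : ∀ᶠ η in 𝓝 (0 : ℝ), ∀ y ∈ K, ∃ i, ∀ y', dist y' y ≤ η → g i y' < δ := by
    refine hK.eventually_forall_of_forall_eventually fun y1 _ => ?_
    obtain ⟨i, hi⟩ := h1 y1
    filter_upwards [loc (g i) y1 _ (hg i) (Iio_mem_nhds (hi.trans_lt δ0))] with z hz
    exact ⟨i, hz⟩
  obtain ⟨η, ⟨e2, ηδ⟩, η0⟩ := (((e2.and (eventually_le_nhds δ0)).filter_mono
    nhdsWithin_le_nhds).and (self_mem_nhdsWithin (s := Set.Ioi (0 : ℝ)))).exists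
  replace η0 : 0 < η := η0
  obtain ⟨R, hR⟩ := (Metric.isBounded_iff_subset_closedBall y0).1 hK.isBounded
  obtain ⟨N, hN⟩ := exists_nat_gt (max (R / η) 0)
  have N0 : (0 : ℝ) < N := (le_max_right _ _).trans_lt hN
  have N1 : R ≤ η * N := by
    have := (le_max_left _ _).trans_lt hN
    rw [div_lt_iff₀ η0] at this
    linarith
  let w : E3 → ι → ℝ := fun y i => max 0 (δ - g i y)
  have w1 : ∀ y i, w y i ≠ 0 → g i y < δ := fun y i h => by
    by_contra hl
    exact h (max_eq_left (by linarith))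
  have w2 : ∀ y i, g i y < δ → 0 < w y i := fun y i h => lt_max_of_lt_right (by linarith)
  let q : ℕ → E3 → E3 := fun m y => y0 + ((m : ℝ) / N) • (y - y0)
  have key : ∀ m : ℕ, m ≤ N → ∃ V : ι → E3 → ℝ, (∀ i, Continuous (V i)) ∧
      ∀ y ∈ K, Spans S (w (q m y)) fun i => V i y := by
    intro m
    induction m with
    | zero =>
      intro _
      obtain ⟨σ, s1, s2⟩ := e1 y0 hy0
      refine ⟨fun i _ => σ i * w y0 i, fun _ => continuous_const, fun y _ => ?_⟩
      have : q 0 y = y0 := by simp [q]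
      rw [this]
      exact ⟨1, σ, one_ne_zero, s1, fun i j a b => s2 y0 (by simpa using δ0.le) i j (w1 _ _ a)
        (w1 _ _ b), fun i => by ring⟩
    | succ m ih =>
      intro hm
      obtain ⟨V, V1, V2⟩ := ih (by omega)
      refine ⟨fun i y => w (q (m + 1) y) i * ∑ j, S i j * w (q (m + 1) y) j * V j y, fun i => ?_,
        fun y hy => ?_⟩
      · simp only [w, q]
        fun_prop
      have m1 : (m : ℝ) + 1 ≤ N := by exact_mod_cast hm
      have qK : q m y ∈ K := hc.add_smul_sub_mem hy0 hy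
        ⟨by positivity, by rw [div_le_one N0]; linarith⟩
      have d : dist (q (m + 1) y) (q m y) ≤ η := by
        have : q (m + 1) y - q m y = (1 / N : ℝ) • (y - y0) := by
          simp only [q]
          push_cast
          rw [add_sub_add_left_eq_sub, ← sub_smul]
          congr 1
          ring
        have r : ‖y - y0‖ ≤ R := by simpa [dist_eq_norm] using hR hy
        rw [dist_eq_norm, this, norm_smul, Real.norm_of_nonneg (by positivity), one_div,
          inv_mul_le_iff₀ N0]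
        linarith
      obtain ⟨σ, s1, s2⟩ := e1 _ qK
      obtain ⟨k, hk⟩ := e2 _ qK
      exact (V2 y hy).step (fun _ => le_max_left _ _) (fun _ => le_max_left _ _) s1
        (fun i j a b => s2 _ (by simpa using δ0.le) i j (w1 _ _ a) (w1 _ _ b))
        (fun i j a b => s2 _ (d.trans ηδ) i j (w1 _ _ a) (w1 _ _ b))
        (w2 _ _ (hk _ (by simpa using η0.le))) (w2 _ _ (hk _ d))
  obtain ⟨V, V1, V2⟩ := key N le_rfl
  refine ⟨V, V1, fun y hy i j a b => ?_⟩
  obtain ⟨l, σ, l0, s1, s2, s3⟩ := V2 y hy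
  have : q N y = y := by simp [q, N0.ne']
  rw [this] at s2 s3
  have wi := w2 y i (a.trans_lt δ0)
  have wj := w2 y j (b.trans_lt δ0)
  simp only at s3
  rw [s3 i, s3 j, s2 i j wi.ne' wj.ne']
  have : l * σ i * w y i * (l * σ j * w y j) * (σ i * σ j) =
      l ^ 2 * (w y i * w y j) * (σ i * σ i) * (σ j * σ j) := by ring
  rw [this, s1, s1]
  positivity

/-- The exit parameter of the ray from `b` through `y` out of the unit ball around `c`. -/
noncomputable def ex (b c y : E3) : ℝ :=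
  inner ℝ (y - b) (c - b) + √(inner ℝ (y - b) (c - b) ^ 2 + ‖y - b‖ ^ 2 * (1 - ‖c - b‖ ^ 2))

theorem ray_sq (b c η : E3) (t : ℝ) : dist (b + t • η) c ^ 2 =
    t ^ 2 * ‖η‖ ^ 2 - 2 * t * inner ℝ η (c - b) + ‖c - b‖ ^ 2 := by
  rw [dist_eq_norm, show b + t • η - c = t • η - (c - b) by abel, norm_sub_sq_real, norm_smul,
    real_inner_smul_left, mul_pow, Real.norm_eq_abs, sq_abs]
  ring

theorem ex_spec {b c y : E3} (hb : dist b c ≤ 1) (hy : y ≠ b) :
    0 ≤ ex b c y ∧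
    (∀ s, 0 ≤ s → s ≤ ex b c y → dist (b + (s / ‖y - b‖ ^ 2) • (y - b)) c ≤ 1) ∧
    dist (b + (ex b c y / ‖y - b‖ ^ 2) • (y - b)) c = 1 ∧
    (dist y c ≤ 1 → ‖y - b‖ ^ 2 ≤ ex b c y) ∧ (dist y c = 1 → ex b c y = ‖y - b‖ ^ 2) := by
  have N0 : 0 < ‖y - b‖ ^ 2 := pow_pos (norm_pos_iff.2 (sub_ne_zero.2 hy)) 2
  have q0 : 0 ≤ 1 - ‖c - b‖ ^ 2 := by
    rw [dist_comm, dist_eq_norm] at hb
    nlinarith [norm_nonneg (c - b)]
  have r := fun s => ray_sq b c (y - b) (s / ‖y - b‖ ^ 2)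
  have r1 := ray_sq b c (y - b) 1
  rw [one_smul, add_sub_cancel] at r1
  unfold ex
  generalize inner ℝ (y - b) (c - b) = p at *
  generalize ‖y - b‖ ^ 2 = N at *
  have hD := Real.sq_sqrt (show 0 ≤ p ^ 2 + N * (1 - ‖c - b‖ ^ 2) by positivity)
  have D1 : |p| ≤ √(p ^ 2 + N * (1 - ‖c - b‖ ^ 2)) :=
    Real.abs_le_sqrt (by nlinarith [mul_nonneg N0.le q0])
  generalize √(p ^ 2 + N * (1 - ‖c - b‖ ^ 2)) = D at *
  obtain ⟨D2, D3⟩ := abs_le.1 D1
  have k : ∀ s, N * (dist (b + (s / N) • (y - b)) c ^ 2 - 1) = (s - p - D) * (s - p + D) := by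
    intro s
    rw [r]
    field_simp
    linear_combination hD
  refine ⟨by linarith, fun s s0 s1 => ?_, ?_, fun h => ?_, fun h => ?_⟩
  · have a := k s
    have : (s - p - D) * (s - p + D) ≤ 0 := mul_nonpos_of_nonpos_of_nonneg (by linarith) (by linarith)
    have : dist (b + (s / N) • (y - b)) c ^ 2 ≤ 1 := by nlinarith
    exact (pow_le_one_iff_of_nonneg dist_nonneg two_ne_zero).1 this
  · have a := k (p + D)
    rw [show p + D - p - D = 0 by ring, zero_mul, mul_eq_zero, sub_eq_zero] at a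
    exact (pow_eq_one_iff_of_nonneg dist_nonneg two_ne_zero).1 (a.resolve_left N0.ne')
  · have : dist y c ^ 2 ≤ 1 := pow_le_one₀ dist_nonneg h
    by_contra hl
    have : 0 < (N - p - D) * (N - p + D) := mul_pos (by linarith) (by linarith)
    nlinarith
  · rw [h] at r1
    have : (N - p - D) * (N - p + D) = 0 := by linear_combination -hD - N * r1
    rcases mul_eq_zero.1 this with e | e <;> linarith

/-- A compact connected piece of the face `j` joining a private point `x` to `v`. -/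
theorem chord {ι : Type} {c : ι → E3} {j i0 : ι} (hi : i0 ≠ j) {x v : E3}
    (x1 : dist x (c j) = 1) (x2 : ∀ i, i ≠ j → dist x (c i) < 1) (v1 : dist v (c j) = 1)
    (v2 : InB c v) : ∃ Z : Set E3, IsCompact Z ∧ IsPreconnected Z ∧ x ∈ Z ∧ v ∈ Z ∧
      ∀ y ∈ Z, InB c y ∧ dist y (c j) = 1 ∧ (y = v ∨ ∀ i, i ≠ j → dist y (c i) < 1) := by
  have n0 : ‖x - c j‖ = 1 := by rwa [← dist_eq_norm]
  have n1 : ‖v - c j‖ = 1 := by rwa [← dist_eq_norm]
  let m : ℝ → E3 := fun s => (1 - s) • (x - c j) + s • (v - c j)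
  have a0 : ∀ i, i ≠ j → ‖c i - c j‖ ^ 2 < 2 * inner ℝ (x - c j) (c i - c j) := fun i h => by
    have := x2 i h
    refine lt_of_le_of_ne ((unit_le_iff n0).1 (by simpa using this.le)) fun e => ?_
    exact this.ne (by simpa using (unit_eq_iff n0).2 e)
  have a1 : ∀ i, ‖c i - c j‖ ^ 2 ≤ 2 * inner ℝ (v - c j) (c i - c j) := fun i =>
    (unit_le_iff n1).1 (by simpa using v2 i)
  have a2 : ∀ i, i ≠ j → ∀ s, 0 ≤ s → s < 1 →
      ‖c i - c j‖ ^ 2 < 2 * inner ℝ (m s) (c i - c j) := fun i h s s0 s1 => by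
    simp only [m, inner_add_left, real_inner_smul_left]
    nlinarith [mul_pos (sub_pos.2 s1) (sub_pos.2 (a0 i h)), mul_nonneg s0 (sub_nonneg.2 (a1 i))]
  have m1 : m 1 = v - c j := by simp [m]
  have m0 : ∀ s ∈ Set.Icc (0 : ℝ) 1, m s ≠ 0 := fun s hs e => by
    rcases hs.2.eq_or_lt with rfl | l
    · rw [m1] at e
      simp [e] at n1
    · have := a2 i0 hi s hs.1 l
      rw [e, inner_zero_left] at this
      nlinarith [sq_nonneg ‖c i0 - c j‖]
  let u : ℝ → E3 := fun s => c j + ‖m s‖⁻¹ • m s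
  have cu : ContinuousOn u (Set.Icc 0 1) := by
    have cm : Continuous m := by simp only [m]; fun_prop
    exact continuousOn_const.add ((cm.norm.continuousOn.inv₀ fun s hs =>
      norm_ne_zero_iff.2 (m0 s hs)).smul cm.continuousOn)
  have u1 : u 1 = v := by simp [u, m1, n1]
  refine ⟨u '' Set.Icc 0 1, isCompact_Icc.image_of_continuousOn cu, isPreconnected_Icc.image _ cu,
    ⟨0, by simp, by simp [u, m, n0]⟩, ⟨1, by simp, u1⟩, ?_⟩
  rintro _ ⟨s, hs, rfl⟩
  rcases hs.2.eq_or_lt with rfl | l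
  · rw [u1]
    exact ⟨v2, v1, Or.inl rfl⟩
  have p : 0 < ‖m s‖ := norm_pos_iff.2 (m0 s hs)
  have un : ‖‖m s‖⁻¹ • m s‖ = 1 := by rw [norm_smul, norm_inv, norm_norm, inv_mul_cancel₀ p.ne']
  have le1 : ‖m s‖ ≤ 1 := by
    refine (norm_add_le _ _).trans ?_
    rw [norm_smul, norm_smul, n0, n1, Real.norm_of_nonneg hs.1, Real.norm_of_nonneg (by linarith)]
    linarith
  have dj : dist (u s) (c j) = 1 := by simpa [u, dist_eq_norm] using un
  have di : ∀ i, i ≠ j → dist (u s) (c i) < 1 := fun i h => by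
    have b := a2 i h s hs.1 l
    have b' : ‖c i - c j‖ ^ 2 < 2 * inner ℝ (‖m s‖⁻¹ • m s) (c i - c j) := by
      rw [real_inner_smul_left]
      have := (one_le_inv₀ p).2 le1
      nlinarith [sq_nonneg ‖c i - c j‖]
    exact lt_of_le_of_ne ((unit_le_iff un).2 b'.le) fun e => b'.ne ((unit_eq_iff un).1 e)
  refine ⟨fun i => ?_, dj, Or.inr di⟩
  by_cases h : i = j
  · rw [h, dj]
  · exact (di i h).le

open Classical in
/-- Around a vertex the cycle is a coboundary. -/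
theorem vertex (h1 : StE1) {ι : Type} [Fintype ι] {c : ι → E3} {z : ι → ι → ZMod 2} {v : E3}
    (hp : Priv c) (hv : EV c v) (hz : ∑ j, ∑ k, (if ESide c v j k then z j k else 0) = 0) :
    ∃ χ : ι → ZMod 2, ∀ j k, ESide c v j k → z j k = χ j + χ k := by
  obtain ⟨n, e, n2, -, cv, es⟩ := h1 ι c v hp hv
  have inj0 : ∀ i j, i < j → j ≤ n → e i ≠ e j := by
    intro i j ij jn h
    rcases Nat.lt_or_ge 0 i with a | a
    · have := cv.2 0 i j a ij jn
      simp [h, d3_self23] at this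
    rcases Nat.lt_or_ge j n with b | b
    · have := cv.2 i j n ij b le_rfl
      simp [h, d3_self12] at this
    · have := cv.2 i 1 j (by omega) (by omega) jn
      simp [h, d3_self13] at this
  have inj : ∀ i j, i ≤ n → j ≤ n → e i = e j → i = j := fun i j a b h => by
    rcases lt_trichotomy i j with l | l | l
    · exact absurd h (inj0 i j l b)
    · exact l
    · exact absurd h.symm (inj0 j i l a)
  let f : ℕ → ZMod 2 := fun i => z (e i) (e ((i + 1) % (n + 1)))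
  have sum : ∑ i ∈ Finset.range (n + 1), f i = 0 := by
    rw [← hz, ← Finset.sum_product', ← Finset.sum_filter]
    refine Finset.sum_bij (fun i _ => (e i, e ((i + 1) % (n + 1)))) (fun i hi => ?_)
      (fun i hi j hj h => ?_) (fun p hp => ?_) fun _ _ => rfl
    · simp only [Finset.mem_filter, Finset.mem_product, Finset.mem_univ, true_and]
      exact (es _ _).2 ⟨i, by simpa [Nat.lt_succ_iff] using hi, rfl, rfl⟩
    · simp only [Finset.mem_range] at hi hj
      exact inj i j (by omega) (by omega) (Prod.ext_iff.1 h).1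
    · obtain ⟨i, a, b, d⟩ := (es _ _).1 (Finset.mem_filter.1 hp).2
      exact ⟨i, by simpa [Nat.lt_succ_iff] using a, Prod.ext b d⟩
  let χ : ι → ZMod 2 := fun l => if h : ∃ k ≤ n, e k = l then ∑ i ∈ Finset.range h.choose, f i else 0
  have hχ : ∀ k ≤ n, χ (e k) = ∑ i ∈ Finset.range k, f i := fun k hk => by
    have h : ∃ k' ≤ n, e k' = e k := ⟨k, hk, rfl⟩
    simp only [χ, dif_pos h, inj _ _ h.choose_spec.1 hk h.choose_spec.2]
  refine ⟨χ, fun j k h => ?_⟩
  obtain ⟨i, a, rfl, rfl⟩ := (es _ _).1 h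
  change f i = _
  rcases a.eq_or_lt with rfl | l
  · rw [Nat.mod_self, hχ _ le_rfl, hχ 0 (by omega), Finset.sum_range_zero, add_zero]
    rw [Finset.sum_range_succ] at sum
    generalize ∑ k ∈ Finset.range i, f k = t at sum
    generalize f i = s at sum
    revert s t
    decide
  · rw [Nat.mod_eq_of_lt (by omega), hχ _ a, hχ _ l, Finset.sum_range_succ]
    generalize ∑ k ∈ Finset.range i, f k = t
    generalize f i = s
    revert s t
    decide

/-- The extension of the cycle to all pairs of faces is locally trivial. -/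
theorem cocycle {ι : Type} [Fintype ι] {c : ι → E3} {z : ι → ι → ZMod 2} (H : EStd c)
    (sym : ∀ j k, z j k = z k j)
    (hz : ∀ v, EV c v → ∃ χ : ι → ZMod 2, ∀ j k, ESide c v j k → z j k = χ j + χ k) :
    ∃ s : ι → ι → ZMod 2, (∀ v j k, EV c v → ESide c v j k → s j k = z j k) ∧
      ∀ x, InB c x → ∃ σ : ι → ZMod 2, ∀ i j, dist x (c i) = 1 → dist x (c j) = 1 →
        s i j = σ i + σ j := by
  classical
  choose! χ hχ using hz
  have aa : ∀ a : ZMod 2, a + a = 0 := by decide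
  let s : ι → ι → ZMod 2 := fun i j =>
    if h : ∃ v, EV c v ∧ dist v (c i) = 1 ∧ dist v (c j) = 1 then χ h.choose i + χ h.choose j else 0
  have hs : ∀ v i j, EV c v → dist v (c i) = 1 → dist v (c j) = 1 → s i j = χ v i + χ v j := by
    intro v i j hv a b
    have h : ∃ v, EV c v ∧ dist v (c i) = 1 ∧ dist v (c j) = 1 := ⟨v, hv, a, b⟩
    simp only [s, dif_pos h]
    obtain ⟨hw, a', b'⟩ := h.choose_spec
    generalize h.choose = w at hw a' b'
    by_cases e : v = w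
    · rw [e]
    by_cases ij : i = j
    · rw [ij, aa, aa]
    have k : ∀ v w, EV c v → EV c w → v ≠ w → dist v (c i) = 1 → dist v (c j) = 1 →
        dist w (c i) = 1 → dist w (c j) = 1 → χ v i + χ v j = z i j := by
      intro v w hv hw e a b a' b'
      rcases H.two v w i j hv hw e ij a b a' b' with t | t
      · exact (hχ v hv _ _ t).symm
      · rw [sym, hχ v hv _ _ t, add_comm]
    rw [k v w hv hw e a b a' b', k w v hw hv (Ne.symm e) a' b' a b]
  have s0 : ∀ i, s i i = 0 := fun i => by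
    simp only [s]
    split_ifs
    · exact aa _
    · rfl
  have ss : ∀ i j, s i j = s j i := fun i j => by
    by_cases h : ∃ v, EV c v ∧ dist v (c i) = 1 ∧ dist v (c j) = 1
    · obtain ⟨v, hv, a, b⟩ := h
      rw [hs v i j hv a b, hs v j i hv b a, add_comm]
    · simp only [s]
      rw [dif_neg h, dif_neg fun ⟨v, hv, a, b⟩ => h ⟨v, hv, b, a⟩]
  refine ⟨s, fun v j k hv t => by rw [hs v j k hv t.2.1 t.2.2.1, hχ v hv j k t], fun x hx => ?_⟩
  by_cases hv : EV c x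
  · exact ⟨χ x, fun i j => hs x i j hv⟩
  by_cases h : ∃ k, dist x (c k) = 1
  swap
  · exact ⟨0, fun i j a => absurd ⟨i, a⟩ h⟩
  obtain ⟨k, hk⟩ := h
  refine ⟨s k, fun i j a b => ?_⟩
  by_cases ij : i = j
  · rw [ij, s0, aa]
  by_cases ik : i = k
  · rw [ik, s0, zero_add]
  by_cases jk : j = k
  · rw [jk, s0, add_zero, ss]
  exact absurd ⟨hx, i, j, k, ij, jk, ik, a, b, hk⟩ hv

end Bnd

open Bnd in
theorem stBnd (h1 : StE1) (h2 : StE2) (_h4 : StE4) : StBnd := by
  intro ι _ c z H sym hz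
  classical
  by_cases hb : ∃ b, EV c b
  swap
  · exact ⟨0, fun v j k hv => absurd ⟨v, hv⟩ hb⟩
  obtain ⟨b, hb⟩ := hb
  obtain ⟨s, s1, s2⟩ := cocycle H sym fun v hv => vertex h1 H.priv hv (hz v hv)
  suffices h : ∃ χ : ι → ZMod 2, ∀ v j k, v ≠ b → EV c v → ESide c v j k → z j k = χ j + χ k by
    obtain ⟨χ, h⟩ := h
    refine ⟨χ, fun v j k hv t => ?_⟩
    by_cases e : v = b
    · obtain ⟨w, hw, wv, t'⟩ := h2 ι c v j k H.priv hv t
      rw [sym, h w k j (e ▸ wv) hw t', add_comm]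
    · exact h v j k e hv t
  by_contra hn
  push Not at hn
  choose v j k vb hv t hne using hn
  choose x x1 x2 using H.priv
  obtain ⟨bP, i0, i1, -, i01, -, -, b0, b1, -⟩ := hb
  have : Nonempty ι := ⟨i0⟩
  have path : ∀ (w : E3) (l : ι), w ≠ b → InB c w → dist w (c l) = 1 → ∃ Z : Set E3,
      IsPreconnected Z ∧ x l ∈ Z ∧ w ∈ Z ∧ (∀ y ∈ Z, InB c y ∧ dist y (c l) = 1) ∧
      ∀ᶠ δ in 𝓝 (0 : ℝ), ∀ y ∈ Z, δ ≤ inner ℝ (y - b) (c i0 - b) := by
    intro w l wb w1 w2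
    obtain ⟨i, il, bi⟩ : ∃ i, i ≠ l ∧ dist b (c i) = 1 := by
      by_cases e : i0 = l
      · exact ⟨i1, e ▸ i01.symm, b1⟩
      · exact ⟨i0, e, b0⟩
    obtain ⟨Z, z1, z2, z3, z4, z5⟩ := chord il (x1 l) (x2 l) w2 w1
    refine ⟨Z, z2, z3, z4, fun y hy => ⟨(z5 y hy).1, (z5 y hy).2.1⟩,
      z1.eventually_forall_of_forall_eventually fun y hy => ?_⟩
    have yb : y ≠ b := by
      rintro rfl
      rcases (z5 y hy).2.2 with e | e
      · exact wb e.symm
      · exact (e i il).ne bi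
    have a := (le_iff b0).1 ((z5 y hy).1 i0)
    have p : 0 < ‖y - b‖ ^ 2 := pow_pos (norm_pos_iff.2 (sub_ne_zero.2 yb)) 2
    exact (ContinuousAt.eventually_lt (by fun_prop) (by fun_prop) (by simp only; linarith) :
      ∀ᶠ q : ℝ × E3 in 𝓝 (0, y), q.1 < inner ℝ (q.2 - b) (c i0 - b)).mono fun _ h => h.le
  choose Zj j1 j2 j3 j4 j5 using fun χ => path (v χ) (j χ) (vb χ) (hv χ).1 (t χ).2.1
  choose Zk k1 k2 k3 k4 k5 using fun χ => path (v χ) (k χ) (vb χ) (hv χ).1 (t χ).2.2.1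
  obtain ⟨δ, ⟨j5, k5⟩, δ0⟩ := ((((eventually_all.2 j5).and (eventually_all.2 k5)).filter_mono
    nhdsWithin_le_nhds).and (self_mem_nhdsWithin (s := Set.Ioi (0 : ℝ)))).exists
  replace δ0 : 0 < δ := δ0
  let K : Set E3 := Metric.closedBall (c i0) 1 ∩ {y | δ ≤ inner ℝ (y - b) (c i0 - b)}
  have Kb : ∀ y ∈ K, y ≠ b := by
    rintro y ⟨-, hy⟩ rfl
    simp only [Set.mem_ofPred_eq, sub_self, inner_zero_left] at hy
    linarith
  let g : ι → E3 → ℝ := fun i y => ∑ l, max 0 (ex b (c i) y - ex b (c l) y)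
  have g0 : ∀ i y, g i y = 0 ↔ ∀ l, ex b (c i) y ≤ ex b (c l) y := fun i y => by
    simp only [g]
    rw [Finset.sum_eq_zero_iff_of_nonneg fun _ _ => le_max_left _ _]
    simp
  let sg : ZMod 2 → ℝ := fun a => if a = 0 then 1 else -1
  have sg1 : ∀ a a', sg (a + a') = sg a * sg a' := fun a a' => by
    have c2 : ∀ a : ZMod 2, a = 0 ∨ a = 1 := by decide
    have c3 : (1 : ZMod 2) + 1 = 0 := rfl
    rcases c2 a with rfl | rfl <;> rcases c2 a' with rfl | rfl <;> simp [sg, c3]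
  obtain ⟨V, V1, V2⟩ := transport (K := K)
    ((isCompact_closedBall _ _).inter_right (isClosed_le continuous_const (by fun_prop)))
    ((convex_closedBall _ _).inter fun y hy y' hy' a a' a0 a1 aa => by
      simp only [Set.mem_ofPred_eq] at hy hy' ⊢
      have : a • y + a' • y' - b = a • (y - b) + a' • (y' - b) := by
        rw [smul_sub, smul_sub, ← add_sub_add_comm, ← add_smul, aa, one_smul]
      rw [this, inner_add_left, real_inner_smul_left, real_inner_smul_left]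
      nlinarith [mul_le_mul_of_nonneg_left hy a0, mul_le_mul_of_nonneg_left hy' a1])
    g (fun i => by simp only [g, ex]; fun_prop)
    (fun y => (Finite.exists_min fun i => ex b (c i) y).imp fun i h => (g0 i y).2 h)
    (fun i y => Finset.sum_nonneg fun _ _ => le_max_left _ _) (fun i l => sg (s i l))
    fun y hy => by
      obtain ⟨m, hm⟩ := Finite.exists_min fun i => ex b (c i) y
      have sp := fun i => ex_spec (bP i) (Kb y hy)
      obtain ⟨σ, hσ⟩ := s2 (b + (ex b (c m) y / ‖y - b‖ ^ 2) • (y - b)) fun i =>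
        (sp i).2.1 _ (sp m).1 (hm i)
      have act : ∀ i, g i y = 0 → dist (b + (ex b (c m) y / ‖y - b‖ ^ 2) • (y - b)) (c i) = 1 :=
        fun i h => by
          rw [le_antisymm (hm i) ((g0 i y).1 h m)]
          exact (sp i).2.2.1
      refine ⟨fun i => sg (σ i), fun i => ?_, fun i l a a' => by rw [hσ i l (act i a) (act l a'), sg1]⟩
      simp only [sg]
      split_ifs <;> norm_num
  have ga : ∀ y ∈ K, InB c y → ∀ i, dist y (c i) = 1 → g i y = 0 := fun y hy yP i h =>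
    (g0 i y).2 fun l => by
      rw [(ex_spec (bP i) (Kb y hy)).2.2.2.2 h]
      exact (ex_spec (bP l) (Kb y hy)).2.2.2.1 (yP l)
  let χ : ι → ZMod 2 := fun i => if 0 < V i (x i) then 0 else 1
  have sign : ∀ (Z : Set E3) (l : ι) (w : E3), IsPreconnected Z → x l ∈ Z → w ∈ Z →
      (∀ y ∈ Z, InB c y ∧ dist y (c l) = 1) → (∀ y ∈ Z, δ ≤ inner ℝ (y - b) (c i0 - b)) →
      0 < V l w * sg (χ l) := by
    intro Z l w z1 z2 z3 z4 z5
    have ne : ∀ y ∈ Z, V l y ≠ 0 := fun y hy e => by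
      have yK : y ∈ K := ⟨(z4 y hy).1 i0, z5 y hy⟩
      have a := ga y yK (z4 y hy).1 l (z4 y hy).2
      simpa [e] using V2 y yK l l a a
    simp only [χ]
    split_ifs with p
    · simpa [sg] using z1.lt_of_ne (V1 l).continuousOn ne ⟨_, z2, p⟩ z3
    · simpa [sg] using z1.gt_of_ne (V1 l).continuousOn ne
        ⟨_, z2, lt_of_le_of_ne (not_lt.1 p) (ne _ z2)⟩ z3
  have a := sign _ _ _ (j1 χ) (j2 χ) (j3 χ) (j4 χ) (j5 χ)
  have a' := sign _ _ _ (k1 χ) (k2 χ) (k3 χ) (k4 χ) (k5 χ)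
  have vK : v χ ∈ K := ⟨(hv χ).1 i0, j5 χ _ (j3 χ)⟩
  have a'' := V2 _ vK _ _ (ga _ vK (hv χ).1 _ (t χ).2.1) (ga _ vK (hv χ).1 _ (t χ).2.2.1)
  rw [s1 _ _ _ (hv χ) (t χ)] at a''
  have p := mul_pos (mul_pos a a') a''
  have e : V (j χ) (v χ) * sg (χ (j χ)) * (V (k χ) (v χ) * sg (χ (k χ))) *
      (V (j χ) (v χ) * V (k χ) (v χ) * sg (z (j χ) (k χ))) = (V (j χ) (v χ) * V (k χ) (v χ)) ^ 2 *
      sg (χ (j χ) + χ (k χ) + z (j χ) (k χ)) := by
    rw [sg1, sg1]; ring
  have u : ∀ a a' : ZMod 2, a ≠ a' → a' + a ≠ 0 := by decide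
  rw [e] at p
  simp only [sg, if_neg (u _ _ (hne χ))] at p
  nlinarith [sq_nonneg (V (j χ) (v χ) * V (k χ) (v χ))]

end Pool.Agent.Lib.MP_34b931_co.G
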