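import Pool.Agent.Lib.MP_34b931_co.H22Tri

/-! Regular triangulations of vector configurations in `E4`. -/

namespace Pool.Agent.Lib.MP_34b931_co.G

open Filter Topology

namespace CellL

variable {ι : Type} {p : ι → E4} {w : ι → ℝ} {a b c d m : ι} {y : E4}

/-- `y` takes the values `w` on `a, b, c, d`. -/
def Dual (p : ι → E4) (w : ι → ℝ) (y : E4) (a b c d : ι) : Prop :=
  inner ℝ y (p a) = w a ∧ inner ℝ y (p b) = w b ∧ inner ℝ y (p c) = w c ∧ inner ℝ y (p d) = w d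

theorem lift_eq (h : Dual p w y a b c d) (m : ι) :
    Lift p w a b c d m = d4 (p a) (p b) (p c) (p d) * (inner ℝ y (p m) - w m) := by
  have k := congrArg (inner ℝ y) (cramer4 (p a) (p b) (p c) (p d) (p m))
  simp only [inner_add_right, real_inner_smul_right, h.1, h.2.1, h.2.2.1, h.2.2.2] at k
  simp only [Lift]
  linear_combination (-1 : ℝ) * k

theorem exists_dual (h : d4 (p a) (p b) (p c) (p d) ≠ 0) : ∃ y, Dual p w y a b c d :=
  exists_dual4 h _ _ _ _

theorem Dual.unique {y' : E4} (h0 : d4 (p a) (p b) (p c) (p d) ≠ 0) (h : Dual p w y a b c d)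
    (h' : Dual p w y' a b c d) : y = y' := by
  refine sub_eq_zero.1 (eq_zero_of_inner4 h0 ?_ ?_ ?_ ?_) <;>
    rw [inner_sub_right, real_inner_comm, real_inner_comm y']
  · rw [h.1, h'.1, sub_self]
  · rw [h.2.1, h'.2.1, sub_self]
  · rw [h.2.2.1, h'.2.2.1, sub_self]
  · rw [h.2.2.2, h'.2.2.2, sub_self]

theorem cell_of (h0 : d4 (p a) (p b) (p c) (p d) ≠ 0) (h : Dual p w y a b c d)
    (hm : ∀ m, m ≠ a → m ≠ b → m ≠ c → m ≠ d → w m < inner ℝ y (p m)) : Cell p w a b c d := by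
  refine ⟨h0, fun m h1 h2 h3 h4 => ?_⟩
  rw [lift_eq h, ← mul_assoc]
  exact mul_pos (mul_self_pos.2 h0) (sub_pos.2 (hm m h1 h2 h3 h4))

theorem lt_of_cell (hc : Cell p w a b c d) (h : Dual p w y a b c d) (h1 : m ≠ a) (h2 : m ≠ b)
    (h3 : m ≠ c) (h4 : m ≠ d) : w m < inner ℝ y (p m) := by
  have k := hc.2 m h1 h2 h3 h4
  rw [lift_eq h, ← mul_assoc] at k
  exact sub_pos.1 ((mul_pos_iff_of_pos_left (mul_self_pos.2 hc.1)).1 k)

theorem le_of_cell (hc : Cell p w a b c d) (h : Dual p w y a b c d) (m : ι) :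
    w m ≤ inner ℝ y (p m) := by
  by_cases h1 : m = a
  · rw [h1, h.1]
  by_cases h2 : m = b
  · rw [h2, h.2.1]
  by_cases h3 : m = c
  · rw [h3, h.2.2.1]
  by_cases h4 : m = d
  · rw [h4, h.2.2.2]
  exact (lt_of_cell hc h h1 h2 h3 h4).le

theorem ne_of_d4 (h : d4 (p a) (p b) (p c) (p d) ≠ 0) :
    a ≠ b ∧ a ≠ c ∧ a ≠ d ∧ b ≠ c ∧ b ≠ d ∧ c ≠ d := by
  refine ⟨?_, ?_, ?_, ?_, ?_, ?_⟩ <;> rintro rfl <;> apply h
  exacts [d4_self12 _ _ _, d4_self13 _ _ _, d4_self14 _ _ _, d4_self23 _ _ _, d4_self24 _ _ _,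
    d4_self34 _ _ _]

/-- One pivot of the simplex method. -/
theorem pivot [Fintype ι] (hG : Gen p w) {ε : ℝ} (ha : inner ℝ y (p a) = w a)
    (hb : inner ℝ y (p b) = w b) (hc : inner ℝ y (p c) = w c) (hf : ∀ m, w m ≤ inner ℝ y (p m))
    (hm : ∃ m, 0 < ε * d4 (p a) (p b) (p c) (p m)) :
    ∃ d, Cell p w a b c d ∧ 0 < ε * d4 (p a) (p b) (p c) (p d) := by
  classical
  obtain ⟨m0, hm0⟩ := hm
  obtain ⟨d, hd, hmin⟩ := Finset.exists_min_image
    (Finset.univ.filter fun m => 0 < ε * d4 (p a) (p b) (p c) (p m))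
    (fun m => (inner ℝ y (p m) - w m) / (ε * d4 (p a) (p b) (p c) (p m))) ⟨m0, by simpa using hm0⟩
  simp only [Finset.mem_filter, Finset.mem_univ, true_and] at hd hmin
  set s := (inner ℝ y (p d) - w d) / (ε * d4 (p a) (p b) (p c) (p d)) with hs
  have hs0 : 0 ≤ s := div_nonneg (sub_nonneg.2 (hf d)) hd.le
  have hval : ∀ v, inner ℝ (y - (s * ε) • cr (p a) (p b) (p c)) v =
      inner ℝ y v - s * (ε * d4 (p a) (p b) (p c) v) := fun v => by
    rw [inner_sub_left, real_inner_smul_left, inner_cr, mul_assoc]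
  have h0 : d4 (p a) (p b) (p c) (p d) ≠ 0 := fun e => by
    rw [e, mul_zero] at hd
    exact lt_irrefl _ hd
  have hD : Dual p w (y - (s * ε) • cr (p a) (p b) (p c)) a b c d := by
    refine ⟨?_, ?_, ?_, ?_⟩ <;> rw [hval]
    · rw [d4_self14, ha]; ring
    · rw [d4_self24, hb]; ring
    · rw [d4_self34, hc]; ring
    · rw [hs, div_mul_cancel₀ _ hd.ne']; ring
  refine ⟨d, cell_of h0 hD fun m h1 h2 h3 h4 => lt_of_le_of_ne ?_ fun e => ?_, hd⟩
  · rw [hval]
    by_cases hp : 0 < ε * d4 (p a) (p b) (p c) (p m)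
    · have := (le_div_iff₀ hp).1 (hmin m hp)
      linarith
    · have := mul_nonneg hs0 (neg_nonneg.2 (not_lt.1 hp))
      linarith [hf m]
  · apply hG a b c d m h0 h1 h2 h3 h4
    rw [lift_eq hD, ← e, sub_self, mul_zero]

theorem dense_ne {E : Type} [NormedAddCommGroup E] [NormedSpace ℝ E] (f : E → ℝ) (v : E) {k : ℝ}
    (hk : k ≠ 0) (hf : ∀ x (t : ℝ), f (x + t • v) = f x + t * k) : Dense {x | f x ≠ 0} := by
  intro x
  by_cases hx : f x = 0
  · have h1 : Tendsto (fun t : ℝ => x + t • v) (𝓝[≠] 0) (𝓝 x) := by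
      have : Continuous fun t : ℝ => x + t • v := by fun_prop
      have h2 := this.tendsto 0
      rw [zero_smul, add_zero] at h2
      exact h2.mono_left nhdsWithin_le_nhds
    refine mem_closure_of_tendsto h1 ?_
    filter_upwards [self_mem_nhdsWithin] with t ht
    show f (x + t • v) ≠ 0
    rw [hf, hx, zero_add]
    exact mul_ne_zero ht hk
  · exact subset_closure hx

theorem d4_add_smul (a b c x v : E4) (t : ℝ) :
    d4 a b c (x + t • v) = d4 a b c x + t * d4 a b c v := by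
  rw [← inner_cr, ← inner_cr, ← inner_cr, inner_add_right, real_inner_smul_right]

variable {S : ι → ι → ι → ι → Prop} {T : Tri ι}

/-- A cell of `S` with no cell of `S` on the other side of `abc`. -/
theorem adj_of_bd (hS : Sym4 S) (hB : IsBd p S T) (h : S a b c d)
    (h0 : d4 (p a) (p b) (p c) (p d) ≠ 0)
    (hn : ¬ ∃ d', S a b c d' ∧ d4 (p a) (p b) (p c) (p d') * d4 (p a) (p b) (p c) (p d) < 0) :
    T.adj a b := by
  rcases h0.lt_or_gt with hD | hD
  · refine Tri.adj21 ((hB b a c).2 ⟨⟨d, (hS _ _ _ _ h).1, ?_⟩, ?_⟩)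
    · rw [d4_swap12]; linarith
    · rintro ⟨d', k1, k2⟩
      rw [d4_swap12] at k2
      exact hn ⟨d', (hS _ _ _ _ k1).1, mul_neg_of_pos_of_neg (by linarith) hD⟩
  · refine Tri.adj12 ((hB a b c).2 ⟨⟨d, h, hD⟩, ?_⟩)
    rintro ⟨d', k1, k2⟩
    exact hn ⟨d', k1, mul_neg_of_neg_of_pos k2 hD⟩

theorem step (hS : Sym4 S) (hC : ∀ a b c d, S a b c d → Cell p w a b c d) (hB : IsBd p S T)
    {g : E4} (h : S a b c d) (hy : Dual p w y a b c d)
    (hmin : ∀ c' d' y', S a b c' d' → Dual p w y' a b c' d' → inner ℝ y g ≤ inner ℝ y' g)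
    (hg : d4 (p a) (p b) (p c) (p d) * d4 (p a) (p b) (p c) g < 0) : T.adj a b := by
  have h0 := (hC _ _ _ _ h).1
  refine adj_of_bd hS hB h h0 ?_
  rintro ⟨d', k1, k2⟩
  have hc' := hC _ _ _ _ k1
  obtain ⟨y', hy'⟩ := exists_dual (w := w) hc'.1
  obtain ⟨-, -, n1, -, n2, n3⟩ := ne_of_d4 h0
  have n4 : d ≠ d' := by
    rintro rfl
    exact absurd k2 (not_lt.2 (mul_self_nonneg _))
  have hlt := lt_of_cell hc' hy' n1.symm n2.symm n3.symm n4
  have e := perp_cr (a := p a) (b := p b) (c := p c) (v := y' - y) (p d)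
    (by rw [inner_sub_right, real_inner_comm, real_inner_comm y, hy.1, hy'.1, sub_self])
    (by rw [inner_sub_right, real_inner_comm, real_inner_comm y, hy.2.1, hy'.2.1, sub_self])
    (by rw [inner_sub_right, real_inner_comm, real_inner_comm y, hy.2.2.1, hy'.2.2.1, sub_self])
  have e2 := congrArg (fun v => inner ℝ v g) e
  simp only [real_inner_smul_left, inner_cr, inner_sub_left, inner_sub_right] at e2
  rw [real_inner_comm y' (p d), real_inner_comm y (p d), hy.2.2.2] at e2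
  have e3 := hmin c d' y' k1 hy'
  have e4 : 0 ≤ d4 (p a) (p b) (p c) (p d) * d4 (p a) (p b) (p c) (p d) *
      (inner ℝ y' g - inner ℝ y g) := mul_nonneg (mul_self_nonneg _) (sub_nonneg.2 e3)
  rw [mul_assoc, e2] at e4
  nlinarith [mul_pos (sub_pos.2 hlt) (neg_pos.2 hg)]

theorem walk [Fintype ι] (hS : Sym4 S) (hC : ∀ a b c d, S a b c d → Cell p w a b c d)
    (hB : IsBd p S T) {g : E4} (h : S a b c d)
    (hv : ∀ c d y, S a b c d → Dual p w y a b c d → ∃ v : E4, inner ℝ (p a) v = 0 ∧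
      inner ℝ (p b) v = 0 ∧ 0 ≤ inner ℝ (p c) v ∧ 0 ≤ inner ℝ (p d) v ∧ inner ℝ v g < 0) :
    T.adj a b := by
  classical
  choose Y hY using fun t : {t : ι × ι // S a b t.1 t.2} =>
    exists_dual (w := w) (hC _ _ _ _ t.2).1
  obtain ⟨⟨⟨c, d⟩, h⟩, -, hmin⟩ := Finset.exists_min_image Finset.univ
    (fun t : {t : ι × ι // S a b t.1 t.2} => inner ℝ (Y t) g) ⟨⟨(c, d), h⟩, Finset.mem_univ _⟩
  have hy := hY ⟨(c, d), h⟩
  set y := Y ⟨(c, d), h⟩
  dsimp only at h hy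
  have hmin' : ∀ c' d' y', S a b c' d' → Dual p w y' a b c' d' → inner ℝ y g ≤ inner ℝ y' g := by
    intro c' d' y' k1 k2
    rw [k2.unique (hC _ _ _ _ k1).1 (hY ⟨(c', d'), k1⟩)]
    exact hmin _ (Finset.mem_univ _)
  obtain ⟨v, va, vb, vc, vd, vg⟩ := hv c d y h hy
  have h0 := (hC _ _ _ _ h).1
  have e := congrArg (fun u => inner ℝ u g) (dual4 (p a) (p b) (p c) (p d) v)
  simp only [va, vb, zero_smul, neg_zero, zero_add, real_inner_smul_left, inner_add_left,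
    inner_sub_left, inner_cr, inner_zero_left] at e
  by_cases h1 : d4 (p a) (p b) (p c) (p d) * d4 (p a) (p b) (p c) g < 0
  · exact step hS hC hB h hy hmin' h1
  · refine step (y := y) hS hC hB (hS _ _ _ _ h).2.2 ⟨hy.1, hy.2.1, hy.2.2.2, hy.2.2.1⟩ hmin' ?_
    rw [d4_swap34]
    by_contra h2
    have e1 := mul_nonneg vd (not_lt.1 h1)
    have e2 := mul_nonneg vc (not_lt.1 h2)
    have e3 := mul_pos (mul_self_pos.2 h0) (neg_pos.2 vg)
    have e4 : d4 (p a) (p b) (p c) (p d) * (d4 (p a) (p b) (p c) (p d) * inner ℝ v g) =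
      d4 (p a) (p b) (p c) (p d) * (0 - inner ℝ (p c) v * d4 (p a) (p b) (p d) g +
        inner ℝ (p d) v * d4 (p a) (p b) (p c) g) := by rw [e]
    nlinarith

end CellL

open CellL

theorem stCellSym : StCellSym := by
  intro ι p w a b c d h
  obtain ⟨y, hy⟩ := exists_dual (w := w) h.1
  refine ⟨cell_of ?_ ⟨hy.2.1, hy.1, hy.2.2.1, hy.2.2.2⟩ fun m h1 h2 h3 h4 => ?_,
    cell_of ?_ ⟨hy.1, hy.2.2.1, hy.2.1, hy.2.2.2⟩ fun m h1 h2 h3 h4 => ?_,
    cell_of ?_ ⟨hy.1, hy.2.1, hy.2.2.2, hy.2.2.1⟩ fun m h1 h2 h3 h4 => ?_⟩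
  · rw [d4_swap12]; exact neg_ne_zero.2 h.1
  · exact lt_of_cell h hy h2 h1 h3 h4
  · rw [d4_swap23]; exact neg_ne_zero.2 h.1
  · exact lt_of_cell h hy h1 h3 h2 h4
  · rw [d4_swap34]; exact neg_ne_zero.2 h.1
  · exact lt_of_cell h hy h1 h2 h4 h3

theorem stUniq : StUniq := by
  intro ι p w a b c d d' h h' hp
  by_contra hne
  obtain ⟨-, -, n1, -, n2, n3⟩ := ne_of_d4 h.1
  obtain ⟨-, -, l1, -, l2, l3⟩ := ne_of_d4 h'.1
  have k := h.2 d' l1.symm l2.symm l3.symm (Ne.symm hne)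
  have k' := h'.2 d n1.symm n2.symm n3.symm hne
  have e : Lift p w a b c d' d = -Lift p w a b c d d' := by
    simp only [Lift, d4, m3]; ring
  rw [e] at k'
  nlinarith [mul_pos k k', mul_nonneg hp.le (mul_self_nonneg (Lift p w a b c d d'))]

theorem stGW1 : StGW1 := by
  intro ι _ p w hG a b c y ha hb hc hm hex
  have := pivot hG (ε := 1) ha hb hc (fun m => by
    by_cases h1 : m = a
    · rw [h1, ha]
    by_cases h2 : m = b
    · rw [h2, hb]
    by_cases h3 : m = c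
    · rw [h3, hc]
    exact (hm m h1 h2 h3).le) (by simpa using hex)
  simpa using this

theorem stGW2 : StGW2 := by
  intro ι _ p w hG a b c d m h hm
  obtain ⟨y, hy⟩ := exists_dual (w := w) h.1
  obtain ⟨d', k1, k2⟩ := pivot hG (ε := -d4 (p a) (p b) (p c) (p d)) hy.1 hy.2.1 hy.2.2.1
    (le_of_cell h hy) ⟨m, by linarith⟩
  exact ⟨d', k1, by linarith⟩

theorem stDense : StDense := by
  intro ι _ p
  classical
  have hO : ∀ t : {t : ι × ι × ι // ∃ v, d4 (p t.1) (p t.2.1) (p t.2.2) v ≠ 0},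
      IsOpen {o | d4 (p t.1.1) (p t.1.2.1) (p t.1.2.2) o ≠ 0} := fun t =>
    isOpen_ne_fun (by fun_prop) continuous_const
  have eO : {o | GenO p o} = ⋂ t : {t : ι × ι × ι // ∃ v, d4 (p t.1) (p t.2.1) (p t.2.2) v ≠ 0},
      {o | d4 (p t.1.1) (p t.1.2.1) (p t.1.2.2) o ≠ 0} := by
    ext o
    simp only [Set.mem_iInter]
    exact ⟨fun h t => h _ _ _ t.2, fun h a b c k => h ⟨(a, b, c), k⟩⟩
  refine ⟨?_, ?_, ?_⟩
  · have eG : {w | Gen p w} = ⋂ t : {t : ι × ι × ι × ι × ι //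
        d4 (p t.1) (p t.2.1) (p t.2.2.1) (p t.2.2.2.1) ≠ 0 ∧ t.2.2.2.2 ≠ t.1 ∧
          t.2.2.2.2 ≠ t.2.1 ∧ t.2.2.2.2 ≠ t.2.2.1 ∧ t.2.2.2.2 ≠ t.2.2.2.1},
        {w | Lift p w t.1.1 t.1.2.1 t.1.2.2.1 t.1.2.2.2.1 t.1.2.2.2.2 ≠ 0} := by
      ext w
      simp only [Set.mem_iInter]
      exact ⟨fun h t => h _ _ _ _ _ t.2.1 t.2.2.1 t.2.2.2.1 t.2.2.2.2.1 t.2.2.2.2.2,
        fun h a b c d m k0 k1 k2 k3 k4 => h ⟨(a, b, c, d, m), k0, k1, k2, k3, k4⟩⟩
    rw [eG]
    refine dense_iInter_of_isOpen (fun t => isOpen_ne_fun ?_ continuous_const) ?_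
    · simp only [Lift]
      fun_prop
    · rintro ⟨⟨a, b, c, d, m⟩, k0, k1, k2, k3, k4⟩
      dsimp only at k0 k1 k2 k3 k4 ⊢
      refine dense_ne (fun w => Lift p w a b c d m) (Pi.single m 1) (neg_ne_zero.2 k0)
        fun x t => ?_
      simp only [Lift, Pi.add_apply, Pi.smul_apply, Pi.single_eq_same, smul_eq_mul,
        Pi.single_eq_of_ne k1.symm, Pi.single_eq_of_ne k2.symm, Pi.single_eq_of_ne k3.symm,
        Pi.single_eq_of_ne k4.symm]
      ring
  · rw [eO]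
    refine dense_iInter_of_isOpen hO ?_
    rintro ⟨⟨a, b, c⟩, v, hv⟩
    exact dense_ne (fun o => d4 (p a) (p b) (p c) o) v hv fun x t => d4_add_smul _ _ _ _ _ _
  · rw [eO]
    exact isOpen_iInter_of_finite hO

theorem stWalk : StWalk := by
  intro ι _ p w S T _ hS hC hB a b c d h hcase
  rcases hcase with ⟨c', d', hc', hn⟩ | ⟨l, l0, lp, la, lb⟩
  · obtain ⟨z, hz⟩ := exists_dual (w := w) hc'.1
    refine CellL.walk hS hC hB (g := p c' + p d') h fun c d y k hy => ⟨z - y, ?_, ?_, ?_, ?_, ?_⟩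
    · rw [inner_sub_right, real_inner_comm, real_inner_comm y, hy.1, hz.1, sub_self]
    · rw [inner_sub_right, real_inner_comm, real_inner_comm y, hy.2.1, hz.2.1, sub_self]
    · rw [inner_sub_right, real_inner_comm, real_inner_comm y, hy.2.2.1]
      exact sub_nonneg.2 (le_of_cell hc' hz c)
    · rw [inner_sub_right, real_inner_comm, real_inner_comm y, hy.2.2.2]
      exact sub_nonneg.2 (le_of_cell hc' hz d)
    · have hk := hC _ _ _ _ k
      have e1 := le_of_cell hk hy c'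
      have e2 := le_of_cell hk hy d'
      rw [inner_sub_left, inner_add_right, inner_add_right, hz.2.2.1, hz.2.2.2]
      by_contra hcon
      have f1 : inner ℝ y (p c') = w c' := by linarith
      have f2 : inner ℝ y (p d') = w d' := by linarith
      obtain ⟨-, n1, n2, n3, n4, n5⟩ := ne_of_d4 hc'.1
      have g1 : c' = c ∨ c' = d := by
        by_contra g
        have := lt_of_cell hk hy n1.symm n3.symm (fun e => g (Or.inl e)) fun e => g (Or.inr e)
        linarith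
      have g2 : d' = c ∨ d' = d := by
        by_contra g
        have := lt_of_cell hk hy n2.symm n4.symm (fun e => g (Or.inl e)) fun e => g (Or.inr e)
        linarith
      rcases g1 with rfl | rfl <;> rcases g2 with rfl | rfl
      · exact n5 rfl
      · exact hn k
      · exact hn (hS _ _ _ _ k).2.2
      · exact n5 rfl
  · refine CellL.walk hS hC hB (g := -l) h fun c d y _ _ => ⟨l, ?_, ?_, ?_, ?_, ?_⟩
    · rw [real_inner_comm, la]
    · rw [real_inner_comm, lb]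
    · rw [real_inner_comm]; exact lp c
    · rw [real_inner_comm]; exact lp d
    · rw [inner_neg_right, neg_lt_zero]
      exact real_inner_self_pos.2 l0

end Pool.Agent.Lib.MP_34b931_co.G
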