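import Pool.Agent.Lib.MP_34b931_co.H22Tri

/-! The combinatorial lemma of Cauchy for a map all of whose cycles bound. -/

namespace Pool.Agent.Lib.MP_34b931_co.G

open Finset Module

namespace Comb

open Classical in
/-- Euler type inequality. -/
theorem euler {H V O : Type} [Fintype H] [Nonempty H] [Fintype O] (vt : H → V) (q : H → O)
    (α : Equiv.Perm H) (hα : ∀ d, α (α d) = d)
    (hb : ∀ z : H → ZMod 2, (∀ d, z (α d) = z d) →
      (∀ v, ∑ d, (if vt d = v then z d else 0) = 0) →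
      ∃ y : O → ZMod 2, ∀ d, z d = y (q d) + y (q (α d))) :
    Fintype.card H + 2 ≤ 2 * (univ.image vt).card + 2 * Fintype.card O := by
  have h2 : ∀ x : ZMod 2, x + x = 0 := by decide
  have h3 : ∀ x y : ZMod 2, x + y = 0 → y = x := by decide
  let T : (H → ZMod 2) →ₗ[ZMod 2] H → ZMod 2 := LinearMap.id + LinearMap.funLeft _ _ α
  have hT : ∀ x d, T x d = x d + x (α d) := fun x d => rfl
  have h1 : LinearMap.range T ≤ LinearMap.ker T := by
    rintro _ ⟨x, rfl⟩
    rw [LinearMap.mem_ker]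
    funext d
    rw [hT, hT, hT, hα, add_comm (x (α d)), h2]
    rfl
  have e1 := T.finrank_range_add_finrank_ker
  have e2 := Submodule.finrank_mono h1
  let Bd : (H → ZMod 2) →ₗ[ZMod 2] (univ.image vt) → ZMod 2 :=
    LinearMap.pi fun v => ∑ d, if vt d = v.1 then LinearMap.proj d else 0
  have hBd : ∀ x v, Bd x v = ∑ d, if vt d = v.1 then x d else 0 := fun x v => by
    simp only [Bd, LinearMap.pi_apply, LinearMap.sum_apply]
    refine sum_congr rfl fun d _ => ?_
    split_ifs <;> rfl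
  have e3 := (Bd ∘ₗ (LinearMap.ker T).subtype).finrank_range_add_finrank_ker
  have e4 := (LinearMap.range (Bd ∘ₗ (LinearMap.ker T).subtype)).finrank_le
  let B : (O → ZMod 2) →ₗ[ZMod 2] H → ZMod 2 := T ∘ₗ LinearMap.funLeft _ _ q
  have hB : ∀ y d, B y d = y (q d) + y (q (α d)) := fun y d => rfl
  have h4 : (LinearMap.ker (Bd ∘ₗ (LinearMap.ker T).subtype)).map (LinearMap.ker T).subtype ≤
      LinearMap.range B := by
    rintro _ ⟨⟨z, hz⟩, hz', rfl⟩
    have hz1 : T z = 0 := hz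
    have hz2 : Bd z = 0 := hz'
    obtain ⟨y, hy⟩ := hb z (fun d => h3 _ _ (congrFun hz1 d)) fun v => by
      by_cases hv : v ∈ univ.image vt
      · exact (hBd z ⟨v, hv⟩).symm.trans (congrFun hz2 _)
      · refine sum_eq_zero fun d _ => if_neg fun h => hv ?_
        exact mem_image.2 ⟨d, mem_univ _, h⟩
    exact ⟨y, funext fun d => (hy d).symm⟩
  have e5 := Submodule.finrank_mono h4
  rw [Submodule.finrank_map_subtype_eq] at e5
  have e6 := B.finrank_range_add_finrank_ker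
  have e7 : 1 ≤ finrank (ZMod 2) (LinearMap.ker B) := by
    rw [Submodule.one_le_finrank_iff, Submodule.ne_bot_iff]
    refine ⟨fun _ => 1, funext fun d => h2 1, fun h => ?_⟩
    exact one_ne_zero (congrFun h (q (Classical.arbitrary H)))
  simp only [finrank_fintype_fun_eq_card, Fintype.card_coe] at e1 e4 e6
  omega

open Classical in
/-- Sign changes along an invariant set. -/
theorem face {H : Type} (φ : Equiv.Perm H) (δ : H → ℝ) (h1 : ∀ d, φ d ≠ d)
    (h2 : ∀ d, φ (φ d) ≠ d) (S : Finset H) (hS : ∀ d ∈ S, φ d ∈ S) (hne : S.Nonempty) :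
    (S.filter fun d => δ d * δ (φ d) < 0).card + 4 ≤ 2 * S.card := by
  obtain ⟨d, hd⟩ := hne
  have hsub : ({d, φ d, φ (φ d)} : Finset H) ⊆ S := by
    intro x hx
    simp only [mem_insert, mem_singleton] at hx
    rcases hx with rfl | rfl | rfl
    exacts [hd, hS _ hd, hS _ (hS _ hd)]
  have hc : ({d, φ d, φ (φ d)} : Finset H).card = 3 :=
    card_eq_three.2 ⟨_, _, _, (h1 d).symm, (h2 d).symm, (h1 _).symm, rfl⟩
  have h3 := card_le_card hsub
  have h4 := card_filter_le S fun d => δ d * δ (φ d) < 0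
  by_contra hlt
  have h5 : S.card = 3 := by omega
  have h6 := eq_of_subset_of_card_le hsub (by omega)
  have h7 := eq_of_subset_of_card_le (filter_subset (fun d => δ d * δ (φ d) < 0) S) (by omega)
  have h8 : ∀ x ∈ S, δ x * δ (φ x) < 0 := fun x hx => by
    rw [← h7] at hx
    exact (mem_filter.1 hx).2
  have h9 : φ (φ (φ d)) = d := by
    have := hS _ (hS _ (hS _ hd))
    rw [← h6] at this
    simp only [mem_insert, mem_singleton] at this
    rcases this with h | h | h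
    exacts [h, absurd h (h2 _), absurd h (h1 _)]
  have a1 := h8 _ hd
  have a2 := h8 _ (hS _ hd)
  have a3 := h8 _ (hS _ (hS _ hd))
  rw [h9] at a3
  nlinarith [mul_pos_of_neg_of_neg a1 a2, mul_nonneg (sq_nonneg (δ (φ d))) (neg_pos.2 a3).le]

open Classical in
theorem core {H V : Type} [Fintype H] [Nonempty H] (vt : H → V) (α ρ : Equiv.Perm H) (δ : H → ℝ)
    (hα : ∀ d, α (α d) = d) (hρ : ∀ d, vt (ρ d) = vt d) (hne : ∀ d, vt (α d) ≠ vt d)
    (hs : ∀ d d', vt d = vt d' → vt (α d) = vt (α d') → d = d') (hfix : ∀ d, ρ d ≠ d)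
    (hδ : ∀ d, δ (α d) = δ d)
    (h4 : ∀ d, 4 ≤ (univ.filter fun e => δ e * δ (ρ e) < 0 ∧ vt e = vt d).card)
    (hb : ∀ z : H → ZMod 2, (∀ d, z (α d) = z d) →
      (∀ v, ∑ d, (if vt d = v then z d else 0) = 0) →
      ∃ y : H → ZMod 2, (∀ d, y (ρ (α d)) = y d) ∧ ∀ d, z d = y d + y (α d)) : False := by
  let O := Quot fun a b : H => ρ (α a) = b
  let q : H → O := Quot.mk _
  let _ : Fintype O := Fintype.ofFinite O
  have e1 := euler vt q α hα fun z h1 h2 => by
    obtain ⟨y, h3, h5⟩ := hb z h1 h2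
    exact ⟨Quot.lift y fun a b h => by rw [← h, h3], h5⟩
  have e2 : 4 * (univ.image vt).card ≤ (univ.filter fun e => δ e * δ (ρ e) < 0).card := by
    rw [card_eq_sum_card_fiberwise (f := vt) (t := univ.image vt) (s := univ.filter _)
      (fun x _ => mem_image_of_mem _ (mem_univ x)), mul_comm, ← smul_eq_mul]
    refine card_nsmul_le_sum _ _ _ fun v hv => ?_
    obtain ⟨d, -, rfl⟩ := mem_image.1 hv
    rw [filter_filter]
    exact h4 d
  have e3 : (univ.filter fun e => δ e * δ (ρ e) < 0).card =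
      (univ.filter fun e => δ e * δ ((ρ * α) e) < 0).card :=
    card_equiv α (by simp [hα, hδ])
  have e4 : ∑ o : O, (((univ.filter fun e => q e = o).filter
      fun e => δ e * δ ((ρ * α) e) < 0).card + 4) ≤
      ∑ o : O, 2 * (univ.filter fun e => q e = o).card := by
    refine sum_le_sum fun o _ => face (ρ * α) δ (fun d h => hne d ?_) (fun d h => ?_) _ ?_ ?_
    · rw [← hρ (α d)]
      exact congrArg vt h
    · refine hfix (α d) (hs _ _ (hρ _) ?_)
      rw [hα, ← hρ]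
      exact congrArg vt h
    · intro d hd
      simp only [mem_filter, mem_univ, true_and] at hd ⊢
      rw [← hd]
      exact (Quot.sound (r := fun a b : H => ρ (α a) = b) rfl).symm
    · obtain ⟨d, rfl⟩ := Quot.exists_rep o
      exact ⟨d, by simp [q]⟩
  rw [sum_add_distrib, ← mul_sum, ← card_eq_sum_card_fiberwise (f := q) (by simp)] at e4
  simp only [filter_comm (fun e => q e = _)] at e4
  rw [← card_eq_sum_card_fiberwise (f := q) (by simp)] at e4
  simp only [sum_const, card_univ, smul_eq_mul] at e4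
  omega

section Return

variable {D : Type} [Fintype D] (ρ : Equiv.Perm D) (δ : D → ℝ)

theorem ex_ret {d : D} (hd : δ d ≠ 0) : ∃ n, 0 < n ∧ δ (ρ^[n] d) ≠ 0 :=
  ⟨orderOf ρ, orderOf_pos ρ, by
    rw [Equiv.Perm.iterate_eq_pow, pow_orderOf_eq_one]
    exact hd⟩

open Classical in
/-- First return time. -/
noncomputable def rt (d : {d // δ d ≠ 0}) : ℕ := Nat.find (ex_ret ρ δ d.2)

open Classical in
theorem rt_spec (d : {d // δ d ≠ 0}) : 0 < rt ρ δ d ∧ δ (ρ^[rt ρ δ d] d) ≠ 0 :=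
  Nat.find_spec (ex_ret ρ δ d.2)

open Classical in
theorem rt_min (d : {d // δ d ≠ 0}) {j : ℕ} (h0 : 0 < j) (h : j < rt ρ δ d) : δ (ρ^[j] d) = 0 := by
  by_contra h1
  exact Nat.find_min (ex_ret ρ δ d.2) h ⟨h0, h1⟩

/-- First return map. -/
noncomputable def ret (d : {d // δ d ≠ 0}) : {d // δ d ≠ 0} :=
  ⟨ρ^[rt ρ δ d] d, (rt_spec ρ δ d).2⟩

theorem ret_inj : Function.Injective (ret ρ δ) := by
  have key : ∀ d d', rt ρ δ d ≤ rt ρ δ d' → ret ρ δ d = ret ρ δ d' → d = d' := by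
    intro d d' h1 h2
    obtain ⟨j, hj⟩ := Nat.exists_eq_add_of_le h1
    have h3 : ρ^[rt ρ δ d] d = ρ^[rt ρ δ d'] d' := congrArg Subtype.val h2
    rw [hj, Function.iterate_add_apply] at h3
    have h4 := ρ.injective.iterate _ h3
    rcases j.eq_zero_or_pos with rfl | h5
    · exact Subtype.ext h4
    · have := (rt_spec ρ δ d).1
      exact absurd (h4 ▸ rt_min ρ δ d' h5 (by omega)) d.2
  intro d d' h
  rcases le_total (rt ρ δ d) (rt ρ δ d') with h1 | h1
  exacts [key d d' h1 h, (key d' d h1 h.symm).symm]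

theorem ret_change (d₀ : D) {i j : ℕ} (hij : i < j) (h : δ (ρ^[i] d₀) * δ (ρ^[j] d₀) < 0) :
    ∃ k, i ≤ k ∧ k < j ∧ ∃ hk : δ (ρ^[k] d₀) ≠ 0,
      δ (ρ^[k] d₀) * δ (ret ρ δ ⟨ρ^[k] d₀, hk⟩) < 0 := by
  induction hm : j - i using Nat.strong_induction_on generalizing i with
  | _ m ih =>
    have hi : δ (ρ^[i] d₀) ≠ 0 := left_ne_zero_of_mul h.ne
    have h1 := rt_spec ρ δ ⟨_, hi⟩
    have h2 : i + rt ρ δ ⟨_, hi⟩ ≤ j := by
      by_contra h3
      have := rt_min ρ δ ⟨_, hi⟩ (j := j - i) (by omega) (by omega)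
      rw [← Function.iterate_add_apply, Nat.sub_add_cancel hij.le] at this
      exact right_ne_zero_of_mul h.ne this
    have h4 : (ret ρ δ ⟨_, hi⟩).1 = ρ^[i + rt ρ δ ⟨_, hi⟩] d₀ := by
      rw [add_comm, Function.iterate_add_apply]
      rfl
    by_cases h5 : δ (ρ^[i] d₀) * δ (ret ρ δ ⟨_, hi⟩) < 0
    · exact ⟨i, le_rfl, hij, hi, h5⟩
    have h6 : 0 < δ (ρ^[i] d₀) * δ (ret ρ δ ⟨_, hi⟩) :=
      lt_of_le_of_ne (not_lt.1 h5) (mul_ne_zero hi (ret ρ δ ⟨_, hi⟩).2).symm
    rw [h4] at h6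
    have h7 : i + rt ρ δ ⟨_, hi⟩ < j := lt_of_le_of_ne h2 fun h8 => by
      rw [h8] at h6
      linarith
    have h8 : δ (ρ^[i + rt ρ δ ⟨_, hi⟩] d₀) * δ (ρ^[j] d₀) < 0 := by
      by_contra h9
      nlinarith [mul_neg_of_pos_of_neg h6 h, mul_nonneg (sq_nonneg (δ (ρ^[i] d₀))) (not_lt.1 h9)]
    obtain ⟨k, h9, h10⟩ := ih _ (by omega) h7 h8 rfl
    exact ⟨k, by omega, h10⟩

omit [Fintype D] in
theorem iter_ne (d₀ : D) {i j : ℕ} (hij : i < j) (h : j < i + Function.minimalPeriod ρ d₀) :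
    ρ^[i] d₀ ≠ ρ^[j] d₀ := by
  intro h1
  obtain ⟨k, rfl⟩ := Nat.exists_eq_add_of_le hij.le
  rw [Function.iterate_add_apply] at h1
  have h2 : Function.IsPeriodicPt ρ k d₀ := (ρ.injective.iterate _ h1).symm
  have := h2.minimalPeriod_le (by omega)
  omega

end Return

end Comb

open Comb in
theorem stComb : StComb := by
  classical
  intro D V Fc _ vt fc α ρ δ hα hρ hc hf hne hs hb hδ h4 d₁
  by_contra hd₁
  have : Nonempty {d // δ d ≠ 0} := ⟨⟨d₁, hd₁⟩⟩
  have hit : ∀ (n : ℕ) d, vt (ρ^[n] d) = vt d := fun n d => by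
    induction n with
    | zero => rfl
    | succ n ih => rw [Function.iterate_succ_apply', hρ, ih]
  let α' : Equiv.Perm {d // δ d ≠ 0} := α.subtypePerm fun d => by rw [hδ]
  let ρ' : Equiv.Perm {d // δ d ≠ 0} :=
    Equiv.ofBijective (ret ρ δ) (Finite.injective_iff_bijective.1 (ret_inj ρ δ))
  refine core (fun d => vt d.1) α' ρ' (fun d => δ d.1) (fun d => Subtype.ext (hα d))
    (fun d => hit _ _) (fun d => hne d) (fun d d' h1 h2 => Subtype.ext (hs _ _ h1 h2)) ?_
    (fun d => hδ d) ?_ ?_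
  · intro d hd
    have h1 : ρ^[rt ρ δ d] d = d := congrArg Subtype.val hd
    have h2 : ∀ e, vt e = vt d → δ e ≠ 0 → e = d := by
      intro e he he'
      obtain ⟨n, -, hn⟩ := (hc _ _ he.symm).exists_pow_eq'
      rw [← Equiv.Perm.iterate_eq_pow,
        ← Function.IsPeriodicPt.iterate_mod_apply (n := rt ρ δ d) h1] at hn
      rcases (n % rt ρ δ d).eq_zero_or_pos with h3 | h3
      · rw [h3] at hn
        exact hn.symm
      · exact absurd (hn ▸ rt_min ρ δ d h3 (Nat.mod_lt _ (rt_spec ρ δ d).1)) he'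
    obtain ⟨d₀, i₁, i₂, -, -, h0, -, -, -, -, h5, -⟩ := h4 d d.2
    rw [h2 _ ((hit _ _).trans h0) (left_ne_zero_of_mul h5.ne),
      h2 _ ((hit _ _).trans h0) (right_ne_zero_of_mul h5.ne)] at h5
    exact absurd h5 (not_lt.2 (mul_self_nonneg _))
  · intro d
    obtain ⟨d₀, i₁, i₂, i₃, i₄, h0, h12, h23, h34, h41, s1, s2, s3⟩ := h4 d d.2
    have s4 : δ (ρ^[i₄] d₀) * δ (ρ^[i₁ + Function.minimalPeriod ρ d₀] d₀) < 0 := by
      rw [Function.iterate_add_apply, Function.iterate_minimalPeriod]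
      by_contra h9
      nlinarith [mul_neg_of_pos_of_neg (mul_pos_of_neg_of_neg s1 s2) s3,
        mul_nonneg (sq_nonneg (δ (ρ^[i₂] d₀) * δ (ρ^[i₃] d₀))) (not_lt.1 h9)]
    obtain ⟨k₁, a1, b1, c1, e1⟩ := ret_change ρ δ d₀ h12 s1
    obtain ⟨k₂, a2, b2, c2, e2⟩ := ret_change ρ δ d₀ h23 s2
    obtain ⟨k₃, a3, b3, c3, e3⟩ := ret_change ρ δ d₀ h34 s3
    obtain ⟨k₄, a4, b4, c4, e4⟩ := ret_change ρ δ d₀ (by omega) s4
    have hn : ∀ {i j : ℕ} (ci : δ (ρ^[i] d₀) ≠ 0) (cj : δ (ρ^[j] d₀) ≠ 0), i < j →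
        j < i + Function.minimalPeriod ρ d₀ →
        (⟨_, ci⟩ : {d // δ d ≠ 0}) ≠ ⟨_, cj⟩ := fun ci cj h1 h2 h =>
      iter_ne ρ d₀ h1 h2 (congrArg Subtype.val h)
    have hcard : ({⟨_, c1⟩, ⟨_, c2⟩, ⟨_, c3⟩, ⟨_, c4⟩} : Finset {d // δ d ≠ 0}).card = 4 := by
      rw [card_insert_of_notMem, card_insert_of_notMem, card_pair (hn c3 c4 (by omega) (by omega))]
      · simp only [mem_insert, mem_singleton, not_or]
        exact ⟨hn c2 c3 (by omega) (by omega), hn c2 c4 (by omega) (by omega)⟩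
      · simp only [mem_insert, mem_singleton, not_or]
        exact ⟨hn c1 c2 (by omega) (by omega), hn c1 c3 (by omega) (by omega),
          hn c1 c4 (by omega) (by omega)⟩
    rw [← hcard]
    refine card_le_card fun x hx => ?_
    simp only [mem_insert, mem_singleton] at hx
    simp only [mem_filter, mem_univ, true_and]
    rcases hx with rfl | rfl | rfl | rfl
    exacts [⟨e1, (hit _ _).trans h0⟩, ⟨e2, (hit _ _).trans h0⟩, ⟨e3, (hit _ _).trans h0⟩,
      ⟨e4, (hit _ _).trans h0⟩]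
  · intro z h1 h2
    have h3 : ∀ x y : ZMod 2, 0 = x + y → y = x := by decide
    obtain ⟨χ, hχ⟩ := hb (fun d => if h : δ d ≠ 0 then z ⟨d, h⟩ else 0) (fun d => by
      by_cases h : δ d ≠ 0
      · rw [dif_pos h, dif_pos (by rwa [hδ])]
        exact h1 ⟨d, h⟩
      · rw [dif_neg h, dif_neg (by rwa [hδ])]) fun v => by
      rw [← Fintype.sum_subtype_add_sum_subtype fun d => δ d ≠ 0,
        sum_eq_zero (s := (univ : Finset {d // ¬ δ d ≠ 0})) fun d _ => by
          rw [dif_neg d.2, ite_self], add_zero]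
      exact (sum_congr rfl fun d _ => by rw [dif_pos d.2]).trans (h2 v)
    refine ⟨fun d => χ (fc d), fun d => ?_, fun d => ?_⟩
    · have key : ∀ j, j < rt ρ δ (α' d) → χ (fc (ρ^[j + 1] (α d))) = χ (fc d) := by
        intro j
        induction j with
        | zero =>
          intro _
          change χ (fc (ρ (α d))) = _
          rw [hf, hα]
        | succ j ih =>
          intro hj
          have h5 := hχ (ρ^[j + 1] (α d))
          have h6 : δ (ρ^[j + 1] (α d)) = 0 := rt_min ρ δ (α' d) j.succ_pos hj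
          rw [dif_neg (not_not.2 h6)] at h5
          rw [Function.iterate_succ_apply' ρ (j + 1), hf, h3 _ _ h5, ih (by omega)]
      have h6 := (rt_spec ρ δ (α' d)).1
      have h7 := key (rt ρ δ (α' d) - 1) (by omega)
      rw [Nat.sub_add_cancel h6] at h7
      exact h7
    · have := hχ d
      rwa [dif_pos d.2] at this

end Pool.Agent.Lib.MP_34b931_co.G
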