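import Pool.Agent.Lib.MP_34b931_co.H22Tri

/-! Connectedness of the edge graph of a standard ball-polyhedron, and orientations. -/

namespace Pool.Agent.Lib.MP_34b931_co.G

open Metric Set

namespace Conn

/-- Colours of maximisers of finitely many continuous functions on a preconnected set. -/
theorem argmax_conn {X J : Type} [TopologicalSpace X] [Finite J] {s : Set X}
    (hs : IsPreconnected s) (f : J → X → ℝ) (hf : ∀ j, Continuous (f j)) (col : J → Prop)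
    (h : ∀ x ∈ s, ∀ j k, (∀ l, f l x ≤ f j x) → (∀ l, f l x ≤ f k x) → col j → col k)
    {x y : X} (hx : x ∈ s) (hy : y ∈ s) {j k : J} (hj : ∀ l, f l x ≤ f j x)
    (hk : ∀ l, f l y ≤ f k y) (cj : col j) : col k := by
  by_contra ck
  have hc : ∀ j, IsClosed {x | ∀ l, f l x ≤ f j x} := fun j => by
    rw [ofPred_forall]
    exact isClosed_iInter fun l => isClosed_le (hf l) (hf j)
  have hU : ∀ p : J → Prop, IsClosed (⋃ j : {j // p j}, {x | ∀ l, f l x ≤ f j.1 x}) := fun p =>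
    isClosed_iUnion_of_finite fun j => hc j.1
  have : Nonempty J := ⟨j⟩
  obtain ⟨z, hz, h1, h2⟩ := isPreconnected_closed_iff.1 hs _ _ (hU col) (hU fun j => ¬ col j)
    (fun z _ => by
      obtain ⟨m, hm⟩ := Finite.exists_max fun l => f l z
      by_cases cm : col m
      · exact Or.inl (mem_iUnion.2 ⟨⟨m, cm⟩, hm⟩)
      · exact Or.inr (mem_iUnion.2 ⟨⟨m, cm⟩, hm⟩))
    ⟨x, hx, mem_iUnion.2 ⟨⟨j, cj⟩, hj⟩⟩ ⟨y, hy, mem_iUnion.2 ⟨⟨k, ck⟩, hk⟩⟩
  obtain ⟨⟨a, ca⟩, ha⟩ := mem_iUnion.1 h1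
  obtain ⟨⟨b, cb⟩, hb⟩ := mem_iUnion.1 h2
  exact cb (h z hz a b ha hb ca)

/-- The positive root of `a t ^ 2 + 2 b t + e`. -/
noncomputable def root (a b e : ℝ) : ℝ := (-b + Real.sqrt (b ^ 2 - a * e)) / a

theorem abs_lt_sqrt' {a e : ℝ} (b : ℝ) (ha : 0 < a) (he : e < 0) :
    |b| < Real.sqrt (b ^ 2 - a * e) := by
  apply Real.lt_sqrt_of_sq_lt
  rw [sq_abs]
  nlinarith

theorem root_pos {a e : ℝ} (b : ℝ) (ha : 0 < a) (he : e < 0) : 0 < root a b e := by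
  have := abs_lt_sqrt' b ha he
  have := le_abs_self b
  exact div_pos (by linarith) ha

theorem root_fac {a e t : ℝ} (b : ℝ) (ha : 0 < a) (he : e < 0) (ht : 0 ≤ t) :
    ∃ μ, 0 < μ ∧ a * t ^ 2 + 2 * b * t + e = μ * (t - root a b e) := by
  have h1 := abs_lt_sqrt' b ha he
  have h2 := neg_abs_le b
  have h3 : Real.sqrt (b ^ 2 - a * e) ^ 2 = b ^ 2 - a * e := Real.sq_sqrt (by nlinarith)
  refine ⟨a * t + b + Real.sqrt (b ^ 2 - a * e), by nlinarith, ?_⟩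
  rw [root]
  field_simp
  linear_combination h3

theorem continuous_root {X : Type} [TopologicalSpace X] (a e : ℝ) {b : X → ℝ}
    (hb : Continuous b) : Continuous fun x => root a (b x) e := by
  unfold root
  fun_prop

theorem dist_le_iff {x p : E3} {μ r : ℝ} (hμ : 0 < μ) (h : 1 - dist x p ^ 2 = μ * r) :
    (dist x p ≤ 1 ↔ 0 ≤ r) ∧ (dist x p = 1 ↔ r = 0) := by
  have h0 := dist_nonneg (x := x) (y := p)
  refine ⟨⟨fun h1 => ?_, fun h1 => ?_⟩, ⟨fun h1 => ?_, fun h1 => ?_⟩⟩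
  · have : 0 ≤ μ * r := by nlinarith
    exact (mul_nonneg_iff_of_pos_left hμ).1 this
  · have := mul_nonneg hμ.le h1
    nlinarith
  · rw [h1] at h
    exact (mul_eq_zero.1 (by linarith : μ * r = 0)).resolve_left hμ.ne'
  · rw [h1] at h
    nlinarith

/-- Distance to `p` along a ray of the plane that is inverse to the sphere. -/
theorem rim_dist {x₀ n d : E3} (p : E3) (hn : ‖n‖ = 1) (hd : inner ℝ n d = 0) :
    1 - dist (inv x₀ ((1 / 2 : ℝ) • n + d)) p ^ 2 = (1 / 4 + ‖d‖ ^ 2)⁻¹ *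
      ((1 - ‖p - x₀‖ ^ 2) * ‖d‖ ^ 2 + 2 * inner ℝ d (p - x₀) +
        ((1 - ‖p - x₀‖ ^ 2) / 4 + inner ℝ n (p - x₀) - 1)) := by
  have h1 : ‖(1 / 2 : ℝ) • n + d‖ ^ 2 = 1 / 4 + ‖d‖ ^ 2 := by
    rw [norm_add_sq_real, norm_smul, real_inner_smul_left, hd, hn]
    norm_num
  have h2 : inv x₀ ((1 / 2 : ℝ) • n + d) - p =
      (1 / 4 + ‖d‖ ^ 2)⁻¹ • ((1 / 2 : ℝ) • n + d) - (p - x₀) := by
    rw [inv, h1]; abel
  have h3 : (0 : ℝ) < 1 / 4 + ‖d‖ ^ 2 := by positivity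
  rw [dist_eq_norm, h2, norm_sub_sq_real, norm_smul, mul_pow, h1, real_inner_smul_left,
    inner_add_left, real_inner_smul_left, Real.norm_eq_abs, sq_abs]
  field_simp
  ring

theorem rim_neg {x₀ n p : E3} (hn : ‖n‖ = 1) (hp : dist x₀ p < 1) :
    0 < 1 - ‖p - x₀‖ ^ 2 ∧ (1 - ‖p - x₀‖ ^ 2) / 4 + inner ℝ n (p - x₀) - 1 < 0 := by
  rw [dist_comm, dist_eq_norm] at hp
  have h0 := norm_nonneg (p - x₀)
  have h1 := real_inner_le_norm n (p - x₀)
  rw [hn] at h1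
  constructor <;> nlinarith

/-- The parameter at which the ray of direction `τ` enters the ball about `p`. -/
noncomputable def rho (x₀ n p τ : E3) : ℝ :=
  root (1 - ‖p - x₀‖ ^ 2) (inner ℝ τ (p - x₀)) ((1 - ‖p - x₀‖ ^ 2) / 4 + inner ℝ n (p - x₀) - 1)

theorem rho_pos {x₀ n p : E3} (τ : E3) (hn : ‖n‖ = 1) (hp : dist x₀ p < 1) : 0 < rho x₀ n p τ :=
  root_pos _ (rim_neg hn hp).1 (rim_neg hn hp).2

theorem rho_iff {x₀ n p τ : E3} {t : ℝ} (hn : ‖n‖ = 1) (hp : dist x₀ p < 1) (hτ : ‖τ‖ = 1)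
    (hd : inner ℝ n τ = 0) (ht : 0 ≤ t) :
    (dist (inv x₀ ((1 / 2 : ℝ) • n + t • τ)) p ≤ 1 ↔ rho x₀ n p τ ≤ t) ∧
      (dist (inv x₀ ((1 / 2 : ℝ) • n + t • τ)) p = 1 ↔ t = rho x₀ n p τ) := by
  obtain ⟨μ, hμ, e⟩ := root_fac (inner ℝ τ (p - x₀)) (rim_neg hn hp).1 (rim_neg hn hp).2 ht
  have h1 := rim_dist (x₀ := x₀) (d := t • τ) p hn (by rw [real_inner_smul_right, hd, mul_zero])
  have h2 : ‖t • τ‖ ^ 2 = t ^ 2 := by rw [norm_smul, hτ, mul_one, Real.norm_eq_abs, sq_abs]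
  rw [h2, real_inner_smul_left] at h1
  have h3 : 1 - dist (inv x₀ ((1 / 2 : ℝ) • n + t • τ)) p ^ 2 =
      ((1 / 4 + t ^ 2)⁻¹ * μ) * (t - rho x₀ n p τ) := by
    rw [h1, mul_assoc _ μ, rho, ← e]; ring
  have := dist_le_iff (by positivity) h3
  rwa [sub_nonneg, sub_eq_zero] at this

theorem rim_on {x₀ q d : E3} (h : dist x₀ q = 1) (hd : inner ℝ (q - x₀) d = 0) :
    dist (inv x₀ ((1 / 2 : ℝ) • (q - x₀) + d)) q = 1 := by
  apply inv_eq h
  rw [inner_add_left, real_inner_smul_left, real_inner_self_eq_norm_sq, norm_one h,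
    real_inner_comm, hd]
  norm_num

theorem rim_surj {x₀ q p y : E3} (h : dist x₀ q = 1) (hp : dist x₀ p < 1) (yq : dist y q = 1)
    (yp : dist y p = 1) : ∃ (τ : E3) (t : ℝ), ‖τ‖ = 1 ∧ inner ℝ (q - x₀) τ = 0 ∧ 0 ≤ t ∧
      y = inv x₀ ((1 / 2 : ℝ) • (q - x₀) + t • τ) := by
  have hy : y ≠ x₀ := by rintro rfl; linarith
  have hn : ‖y - x₀‖ ≠ 0 := norm_ne_zero_iff.2 (sub_ne_zero.2 hy)
  set d : E3 := (‖y - x₀‖ ^ 2)⁻¹ • (y - x₀) - (1 / 2 : ℝ) • (q - x₀) with hd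
  have e : y = inv x₀ ((1 / 2 : ℝ) • (q - x₀) + d) := by
    rw [hd, add_sub_cancel, inv_inv hy]
  have h1 : inner ℝ (q - x₀) d = 0 := by
    rw [hd, inner_sub_right, real_inner_smul_right, real_inner_smul_right,
      real_inner_self_eq_norm_sq, norm_one h, real_inner_comm]
    have := (eq_iff h).1 yq
    field_simp
    linarith
  have d0 : d ≠ 0 := by
    intro d0
    have h2 := rim_dist (x₀ := x₀) p (norm_one h) h1
    rw [← e, yp, d0] at h2
    have := (rim_neg (norm_one h) hp).2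
    simp at h2
    linarith
  have dn : ‖d‖ ≠ 0 := norm_ne_zero_iff.2 d0
  refine ⟨‖d‖⁻¹ • d, ‖d‖, ?_, ?_, norm_nonneg _, ?_⟩
  · rw [norm_smul, norm_inv, norm_norm, inv_mul_cancel₀ dn]
  · rw [real_inner_smul_right, h1, mul_zero]
  · rw [smul_smul, mul_inv_cancel₀ dn, one_smul]; exact e

theorem circle_conn {n : E3} (hn : ‖n‖ = 1) :
    IsPreconnected {τ : E3 | ‖τ‖ = 1 ∧ inner ℝ n τ = 0} := by
  have : Fact (Module.finrank ℝ E3 = 2 + 1) := ⟨fr3⟩
  have n0 : n ≠ 0 := by rintro rfl; simp at hn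
  have h2 : Module.finrank ℝ (ℝ ∙ n)ᗮ = 2 := Submodule.finrank_orthogonal_span_singleton n0
  have h3 : 1 < Module.rank ℝ (ℝ ∙ n)ᗮ := by
    rw [← Module.finrank_eq_rank, h2]; norm_num
  have h4 := (isPreconnected_sphere h3 0 1).image Subtype.val continuous_subtype_val.continuousOn
  convert h4 using 1
  ext τ
  simp only [mem_ofPred_eq, mem_image, mem_sphere_zero_iff_norm]
  constructor
  · rintro ⟨h1, h2⟩
    exact ⟨⟨τ, Submodule.mem_orthogonal_singleton_iff_inner_right.2 h2⟩, h1, rfl⟩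
  · rintro ⟨σ, h1, rfl⟩
    exact ⟨h1, Submodule.mem_orthogonal_singleton_iff_inner_right.1 σ.2⟩

variable {ι : Type}

/-- Points of the rim of a face. -/
theorem rim_pt {c : ι → E3} {i : ι} {x₀ τ : E3} (h1 : dist x₀ (c i) = 1)
    (h2 : ∀ j, j ≠ i → dist x₀ (c j) < 1) (hτ : ‖τ‖ = 1) (hd : inner ℝ (c i - x₀) τ = 0)
    {j : ι} (hj : j ≠ i)
    (hm : ∀ l, l ≠ i → rho x₀ (c i - x₀) (c l) τ ≤ rho x₀ (c i - x₀) (c j) τ) :
    ∃ y, InB c y ∧ dist y (c i) = 1 ∧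
      ∀ k, k ≠ i → rho x₀ (c i - x₀) (c j) τ ≤ rho x₀ (c i - x₀) (c k) τ → dist y (c k) = 1 := by
  have hn := norm_one h1
  have t0 := (rho_pos τ hn (h2 j hj)).le
  have on : dist (inv x₀ ((1 / 2 : ℝ) • (c i - x₀) + rho x₀ (c i - x₀) (c j) τ • τ)) (c i) = 1 :=
    rim_on h1 (by rw [real_inner_smul_right, hd, mul_zero])
  refine ⟨_, fun l => ?_, on, fun k hk hle => ?_⟩
  · by_cases hl : l = i
    · rw [hl, on]
    · exact (rho_iff hn (h2 l hl) hτ hd t0).1.2 (hm l hl)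
  · exact (rho_iff hn (h2 k hk) hτ hd t0).2.2 (le_antisymm hle (hm k hk))

/-- The rim of a face is connected. -/
theorem rim_conn [Finite ι] {c : ι → E3} (hp : Priv c) (i : ι) (col : ι → Prop)
    (h : ∀ y j k, InB c y → j ≠ i → k ≠ i → dist y (c i) = 1 → dist y (c j) = 1 →
      dist y (c k) = 1 → col j → col k)
    {v w : E3} {j k : ι} (hv : InB c v) (hw : InB c w) (hj : j ≠ i) (hk : k ≠ i)
    (vi : dist v (c i) = 1) (vj : dist v (c j) = 1) (wi : dist w (c i) = 1)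
    (wk : dist w (c k) = 1) (cj : col j) : col k := by
  obtain ⟨x₀, h1, h2⟩ := hp i
  have hn := norm_one h1
  have key : ∀ (v : E3) (j : ι), InB c v → j ≠ i → dist v (c i) = 1 → dist v (c j) = 1 →
      ∃ τ : E3, (‖τ‖ = 1 ∧ inner ℝ (c i - x₀) τ = 0) ∧
        ∀ l, l ≠ i → rho x₀ (c i - x₀) (c l) τ ≤ rho x₀ (c i - x₀) (c j) τ := by
    intro v j hv hj vi vj
    obtain ⟨τ, t, hτ, hd, ht, e⟩ := rim_surj h1 (h2 j hj) vi vj
    refine ⟨τ, ⟨hτ, hd⟩, fun l hl => ?_⟩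
    rw [← (rho_iff hn (h2 j hj) hτ hd ht).2.1 (e ▸ vj)]
    exact (rho_iff hn (h2 l hl) hτ hd ht).1.1 (e ▸ hv l)
  obtain ⟨τ, hτ, mτ⟩ := key v j hv hj vi vj
  obtain ⟨σ, hσ, mσ⟩ := key w k hw hk wi wk
  refine argmax_conn (J := {l // l ≠ i}) (circle_conn hn)
    (fun l τ => rho x₀ (c i - x₀) (c l.1) τ) (fun l => continuous_root _ _ (by fun_prop))
    (fun l => col l.1) ?_ hτ hσ (j := ⟨j, hj⟩) (k := ⟨k, hk⟩) (fun l => mτ l.1 l.2)
    (fun l => mσ l.1 l.2) cj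
  rintro ξ ⟨ξ1, ξ2⟩ a b ha hb ca
  obtain ⟨y, y1, y2, y3⟩ := rim_pt h1 h2 ξ1 ξ2 a.2 fun l hl => ha ⟨l, hl⟩
  exact h y a.1 b.1 y1 a.2 b.2 y2 (y3 _ a.2 le_rfl) (y3 _ b.2 (hb a)) ca

theorem rim_ne [Finite ι] {c : ι → E3} (hp : Priv c) (h3 : 3 ≤ Nat.card ι) (i : ι) :
    ∃ y j, InB c y ∧ j ≠ i ∧ dist y (c i) = 1 ∧ dist y (c j) = 1 := by
  obtain ⟨x₀, h1, h2⟩ := hp i
  obtain ⟨τ, hτ, hd, -⟩ := exists_orth (c i - x₀) 0
  have : Nontrivial ι := Finite.one_lt_card_iff_nontrivial.1 (by omega)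
  have : Nonempty {l // l ≠ i} := let ⟨l, hl⟩ := exists_ne i; ⟨⟨l, hl⟩⟩
  obtain ⟨m, hm⟩ := Finite.exists_max fun l : {l // l ≠ i} => rho x₀ (c i - x₀) (c l.1) τ
  obtain ⟨y, y1, y2, y3⟩ := rim_pt h1 h2 hτ (by rw [real_inner_comm]; exact hd) m.2
    fun l hl => hm ⟨l, hl⟩
  exact ⟨y, m.1, y1, m.2, y2, y3 _ m.2 le_rfl⟩

/-- The parameter at which the ray from `o` of direction `u` leaves the ball about `p`. -/
noncomputable def rad (o p u : E3) : ℝ := root 1 (-inner ℝ u (p - o)) (‖p - o‖ ^ 2 - 1)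

theorem rad_neg {o p : E3} (hp : dist o p < 1) : ‖p - o‖ ^ 2 - 1 < 0 := by
  rw [dist_comm, dist_eq_norm] at hp
  nlinarith [norm_nonneg (p - o)]

theorem rad_iff {o p u : E3} {t : ℝ} (hp : dist o p < 1) (hu : ‖u‖ = 1) (ht : 0 ≤ t) :
    (dist (o + t • u) p ≤ 1 ↔ t ≤ rad o p u) ∧ (dist (o + t • u) p = 1 ↔ rad o p u = t) := by
  obtain ⟨μ, hμ, e⟩ := root_fac (-inner ℝ u (p - o)) one_pos (rad_neg hp) ht
  have h2 : o + t • u - p = t • u - (p - o) := by abel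
  have h3 : 1 - dist (o + t • u) p ^ 2 = μ * (rad o p u - t) := by
    rw [dist_eq_norm, h2, norm_sub_sq_real, norm_smul, hu, real_inner_smul_left, mul_one,
      Real.norm_eq_abs, sq_abs, rad]
    linear_combination -e
  have := dist_le_iff hμ h3
  rwa [sub_nonneg, sub_eq_zero] at this

/-- The boundary of the body is connected. -/
theorem bdry_conn [Finite ι] {c : ι → E3} {o : E3} (ho : ∀ i, dist o (c i) < 1) (col : ι → Prop)
    (h : ∀ y j k, InB c y → dist y (c j) = 1 → dist y (c k) = 1 → col j → col k)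
    {v w : E3} {j k : ι} (hv : InB c v) (hw : InB c w) (vj : dist v (c j) = 1)
    (wk : dist w (c k) = 1) (cj : col j) : col k := by
  have key : ∀ (v : E3) (j : ι), InB c v → dist v (c j) = 1 →
      ∃ u ∈ sphere (0 : E3) 1, ∀ l, -rad o (c l) u ≤ -rad o (c j) u := by
    intro v j hv vj
    have hy : v ≠ o := by rintro rfl; linarith [ho j]
    have hn : ‖v - o‖ ≠ 0 := norm_ne_zero_iff.2 (sub_ne_zero.2 hy)
    have hu : ‖‖v - o‖⁻¹ • (v - o)‖ = 1 := by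
      rw [norm_smul, norm_inv, norm_norm, inv_mul_cancel₀ hn]
    have e : v = o + ‖v - o‖ • ‖v - o‖⁻¹ • (v - o) := by
      rw [smul_smul, mul_inv_cancel₀ hn, one_smul]; abel
    refine ⟨_, mem_sphere_zero_iff_norm.2 hu, fun l => neg_le_neg ?_⟩
    rw [(rad_iff (ho j) hu (norm_nonneg (v - o))).2.1 (e ▸ vj)]
    exact (rad_iff (ho l) hu (norm_nonneg (v - o))).1.1 (e ▸ hv l)
  obtain ⟨τ, hτ, mτ⟩ := key v j hv vj
  obtain ⟨σ, hσ, mσ⟩ := key w k hw wk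
  have h3 : 1 < Module.rank ℝ E3 := by
    rw [← Module.finrank_eq_rank, fr3]; norm_num
  refine argmax_conn (isPreconnected_sphere h3 0 1) (fun l u => -rad o (c l) u)
    (fun l => (continuous_root _ _ (by fun_prop)).neg) col ?_ hτ hσ mτ mσ cj
  intro u hu a b ha hb ca
  have hu := mem_sphere_zero_iff_norm.1 hu
  have t0 : 0 ≤ rad o (c a) u := (root_pos _ one_pos (rad_neg (ho a))).le
  refine h (o + rad o (c a) u • u) a b (fun l => (rad_iff (ho l) hu t0).1.2 ?_)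
    ((rad_iff (ho a) hu t0).2.2 rfl) ((rad_iff (ho b) hu t0).2.2 ?_) ca
  · exact neg_le_neg_iff.1 (ha l)
  · exact le_antisymm (neg_le_neg_iff.1 (hb a)) (neg_le_neg_iff.1 (ha b))

theorem EV.other {c : ι → E3} {v : E3} (hv : EV c v) (i j : ι) :
    ∃ l, l ≠ i ∧ l ≠ j ∧ dist v (c l) = 1 := by
  obtain ⟨-, a, b, d, ab, bd, ad, ha, hb, hd⟩ := hv
  by_cases h1 : a ≠ i ∧ a ≠ j
  · exact ⟨a, h1.1, h1.2, ha⟩
  by_cases h2 : b ≠ i ∧ b ≠ j
  · exact ⟨b, h2.1, h2.2, hb⟩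
  exact ⟨d, by grind, by grind, hd⟩

theorem side_asymm {c : ι → E3} {v : E3} {j k : ι} (hv : EV c v) (h : ESide c v j k) :
    ¬ ESide c v k j := fun h' => by
  obtain ⟨l, lj, lk, hl⟩ := EV.other hv j k
  have h1 := h.2.2.2 l lj lk hl
  have h2 := h'.2.2.2 l lk lj hl
  rw [d3_swap12] at h2
  linarith

theorem side_next {c : ι → E3} {v : E3} {j k l : ι} (h : ESide c v j k) (h' : ESide c v j l) :
    k = l := by
  by_contra e
  have h1 := h.2.2.2 l h'.1.symm (Ne.symm e) h'.2.2.1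
  have h2 := h'.2.2.2 k h.1.symm e h.2.2.1
  rw [d3_swap23] at h2
  linarith

theorem side_prev {c : ι → E3} {v : E3} {j k l : ι} (h : ESide c v j k) (h' : ESide c v l k) :
    j = l := by
  by_contra e
  have h1 := h.2.2.2 l (Ne.symm e) h'.1 h'.2.1
  have h2 := h'.2.2.2 j e h.1 h.2.1
  rw [← d3_cyc, d3_swap12] at h2
  linarith

theorem cyc_all {P : ℕ → Prop} {n i₀ : ℕ} (h : ∀ i ≤ n, P i → P ((i + 1) % (n + 1)))
    (h0 : i₀ ≤ n) (p0 : P i₀) : ∀ i ≤ n, P i := by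
  have key : ∀ m, P ((i₀ + m) % (n + 1)) := by
    intro m
    induction m with
    | zero => rwa [add_zero, Nat.mod_eq_of_lt (by omega)]
    | succ m ih =>
      have := h _ (Nat.lt_succ_iff.1 (Nat.mod_lt _ (Nat.succ_pos n))) ih
      rwa [Nat.mod_add_mod, add_assoc] at this
  intro i hi
  have := key (i + (n + 1) - i₀)
  rwa [show i₀ + (i + (n + 1) - i₀) = i + (n + 1) by omega, Nat.add_mod_right,
    Nat.mod_eq_of_lt (by omega)] at this

theorem dist_neg (c : ι → E3) (x : E3) (i : ι) : dist (-x) ((-c) i) = dist x (c i) := by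
  rw [Pi.neg_apply, dist_neg_neg]

theorem dist_neg' (c : ι → E3) (x : E3) (i : ι) : dist x ((-c) i) = dist (-x) (c i) := by
  rw [← dist_neg, neg_neg]

theorem inB_neg {c : ι → E3} {x : E3} : InB (-c) x ↔ InB c (-x) := by
  simp only [InB, dist_neg']

theorem ev_neg {c : ι → E3} {x : E3} : EV (-c) x ↔ EV c (-x) := by
  simp only [EV, inB_neg, dist_neg']

theorem side_neg {c : ι → E3} {x : E3} {j k : ι} : ESide (-c) x j k ↔ ESide c (-x) k j := by
  have : ∀ l, d3 ((-c) j - x) ((-c) k - x) ((-c) l - x) =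
      d3 (c k - -x) (c j - -x) (c l - -x) := fun l => by
    simp only [d3, Pi.neg_apply, PiLp.sub_apply, PiLp.neg_apply]
    ring
  simp only [ESide, dist_neg', this]
  grind

theorem eStd_neg {c : ι → E3} (h : EStd c) : EStd (-c) where
  priv i := by
    obtain ⟨x, h1, h2⟩ := h.priv i
    exact ⟨-x, by rwa [dist_neg], fun j hj => by rw [dist_neg]; exact h2 j hj⟩
  three := h.three
  int := by
    obtain ⟨o, ho⟩ := h.int
    exact ⟨-o, fun i => by rw [dist_neg]; exact ho i⟩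
  uniq3 v w i j k := by
    simp only [inB_neg, dist_neg']
    intro a1 a2 a3 a4 a5 a6 a7 a8 a9 a10 a11
    exact neg_injective (h.uniq3 _ _ i j k a1 a2 a3 a4 a5 a6 a7 a8 a9 a10 a11)
  two v w j k := by
    simp only [ev_neg, side_neg, dist_neg']
    intro a1 a2 a3 a4 a5 a6 a7 a8
    exact (h.two _ _ j k a1 a2 (fun e => a3 (neg_injective e)) a4 a5 a6 a7 a8).symm
  suniq v w j k := by
    simp only [ev_neg, side_neg]
    intro a1 a2 a3 a4
    exact neg_injective (h.suniq _ _ k j a1 a2 a3 a4)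

theorem corner_neg {a b d : E3} {θ : ℝ} (h : Corner a b d θ) : Corner (-a) (-b) (-d) θ := by
  obtain ⟨t, s, h1, h2, h3, h4, h5, h6, h7, h8, h9⟩ := h
  refine ⟨-t, -s, neg_ne_zero.2 h1, neg_ne_zero.2 h2, ?_, ?_, ?_, ?_, ?_, ?_, ?_⟩
  any_goals rwa [inner_neg_neg]
  rwa [InnerProductGeometry.angle_neg_neg]

theorem match_neg {c c' : ι → E3} {ψ : E3 → E3} (h : Match c c' ψ) : Match c (-c') (-ψ) where
  vert v hv := by
    rw [ev_neg, Pi.neg_apply, neg_neg]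
    exact h.vert v hv
  act v hv i := by
    rw [Pi.neg_apply ψ, dist_neg]
    exact h.act v hv i
  surj w hw := by
    obtain ⟨v, hv, e⟩ := h.surj _ (ev_neg.1 hw)
    exact ⟨v, hv, by rw [Pi.neg_apply, e, neg_neg]⟩
  ang v i j k hv s1 s2 := by
    obtain ⟨θ, h1, h2⟩ := h.ang v i j k hv s1 s2
    refine ⟨θ, h1, ?_⟩
    have e : ∀ l, (-c') l - (-ψ) v = -(c' l - ψ v) := fun l => by
      simp only [Pi.neg_apply]; abel
    rw [e, e, e]
    exact corner_neg h2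

end Conn

open Conn

theorem stConn (_h2 : StE2) (h4 : StE4) : StConn := by
  intro ι _ c hc
  refine ⟨fun i => ?_, fun κ hκ => ?_⟩
  · obtain ⟨y, j, hy, hj, yi, yj⟩ := rim_ne hc.priv hc.three i
    obtain ⟨v, hv, -, vi⟩ := h4 ι c y j i hc.priv hc.three hy hj yj yi
    exact ⟨v, hv, vi⟩
  have A : ∀ v w j k, EV c v → EV c w → j ≠ k → dist v (c j) = 1 → dist v (c k) = 1 →
      dist w (c j) = 1 → dist w (c k) = 1 → κ v → κ w := by
    intro v w j k hv hw jk vj vk wj wk kv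
    by_cases e : v = w
    · exact e ▸ kv
    rcases hc.two v w j k hv hw e jk vj vk wj wk with s | s <;>
      rcases hc.two w v j k hw hv (Ne.symm e) jk wj wk vj vk with s' | s'
    · exact (e (hc.suniq v w j k hv hw s s')).elim
    · exact hκ v w j k hv hw s s' kv
    · exact hκ v w k j hv hw s s' kv
    · exact (e (hc.suniq v w k j hv hw s s')).elim
  have B : ∀ v w i, EV c v → EV c w → dist v (c i) = 1 → dist w (c i) = 1 → κ v → κ w := by
    intro v w i hv hw vi wi kv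
    obtain ⟨j, hj, -, vj⟩ := EV.other hv i i
    obtain ⟨k, hk, -, wk⟩ := EV.other hw i i
    obtain ⟨z, hz, zi, zk, kz⟩ := rim_conn hc.priv i
      (fun j => ∃ z, EV c z ∧ dist z (c i) = 1 ∧ dist z (c j) = 1 ∧ κ z) (by
        rintro y a b hy ha hb yi ya yb ⟨z, hz, zi, za, kz⟩
        by_cases e : a = b
        · exact ⟨z, hz, zi, e ▸ za, kz⟩
        have hy' : EV c y := ⟨hy, i, a, b, ha.symm, e, hb.symm, yi, ya, yb⟩
        exact ⟨y, hy', yi, yb, A z y i a hz hy' ha.symm zi za yi ya kz⟩)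
      hv.1 hw.1 hj hk vi vj wi wk ⟨v, hv, vi, vj, kv⟩
    exact A z w i k hz hw hk.symm zi zk wi wk kz
  intro v w hv hw kv
  obtain ⟨o, ho⟩ := hc.int
  obtain ⟨j, vj⟩ : ∃ j, dist v (c j) = 1 := let ⟨_, a, _, _, _, _, _, ha, _⟩ := hv; ⟨a, ha⟩
  obtain ⟨k, wk⟩ : ∃ k, dist w (c k) = 1 := let ⟨_, a, _, _, _, _, _, ha, _⟩ := hw; ⟨a, ha⟩
  obtain ⟨z, hz, zk, kz⟩ := bdry_conn ho (fun j => ∃ z, EV c z ∧ dist z (c j) = 1 ∧ κ z) (by
      rintro y a b hy ya yb ⟨z, hz, za, kz⟩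
      by_cases e : a = b
      · exact ⟨z, hz, e ▸ za, kz⟩
      obtain ⟨u, hu, ua, ub⟩ := h4 ι c y a b hc.priv hc.three hy e ya yb
      exact ⟨u, hu, ub, B z u a hz hu za ua kz⟩)
    hv.1 hw.1 vj wk ⟨v, hv, vj, kv⟩
  exact B z w k hz hw zk wk kz

theorem stOrient (hC : StConn) (h1 : StE1) (h2 : StE2) : StOrient := by
  intro ι _ c c' ψ hc hc' hm
  have inj : ∀ v w, EV c v → EV c w → ψ v = ψ w → v = w := by
    intro v w hv hw e
    obtain ⟨hv', i, j, k, ij, jk, ik, vi, vj, vk⟩ := id hv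
    have t : ∀ l, dist v (c l) = 1 → dist w (c l) = 1 := fun l hl =>
      (hm.act w hw l).2 (e ▸ (hm.act v hv l).1 hl)
    exact hc.uniq3 v w i j k hv' hw.1 ij jk ik vi vj vk (t i vi) (t j vj) (t k vk)
  have fw : ∀ v j k, EV c v → ESide c v j k → ESide c' (ψ v) j k ∨ ESide c' (ψ v) k j := by
    intro v j k hv s
    obtain ⟨w, hw, wv, s'⟩ := h2 ι c v j k hc.priv hv s
    exact hc'.two (ψ v) (ψ w) j k (hm.vert v hv) (hm.vert w hw) (fun e => wv (inj v w hv hw e).symm)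
      s.1 ((hm.act v hv j).1 s.2.1) ((hm.act v hv k).1 s.2.2.1) ((hm.act w hw j).1 s'.2.2.1)
      ((hm.act w hw k).1 s'.2.1)
  have bw : ∀ v j k, EV c v → ESide c' (ψ v) j k → ESide c v j k ∨ ESide c v k j := by
    intro v j k hv s
    obtain ⟨w', hw', wv, s'⟩ := h2 ι c' (ψ v) j k hc'.priv (hm.vert v hv) s
    obtain ⟨w, hw, rfl⟩ := hm.surj w' hw'
    exact hc.two v w j k hv hw (fun e => wv (e ▸ rfl)) s.1 ((hm.act v hv j).2 s.2.1)
      ((hm.act v hv k).2 s.2.2.1) ((hm.act w hw j).2 s'.2.2.1) ((hm.act w hw k).2 s'.2.1)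
  have one : ∀ v j k, EV c v → ESide c v j k → ESide c' (ψ v) j k →
      ∀ a b, ESide c v a b → ESide c' (ψ v) a b := by
    intro v j k hv s s' a b sab
    obtain ⟨n, e, -, -, -, he⟩ := h1 ι c v hc.priv hv
    obtain ⟨i₀, h0, rfl, rfl⟩ := (he j k).1 s
    obtain ⟨i, hi, rfl, rfl⟩ := (he a b).1 sab
    refine cyc_all (P := fun i => ESide c' (ψ v) (e i) (e ((i + 1) % (n + 1)))) ?_ h0 s' i hi
    intro m hm' p
    have t1 := (he _ _).2 ⟨m, hm', rfl, rfl⟩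
    have t2 := (he _ _).2 ⟨(m + 1) % (n + 1), Nat.lt_succ_iff.1 (Nat.mod_lt _ (Nat.succ_pos n)),
      rfl, rfl⟩
    refine (fw v _ _ hv t2).resolve_right fun q => side_asymm hv t1 ?_
    rw [side_prev p q]
    exact t2
  by_cases hex : ∃ v, EV c v ∧ ∀ a b, ESide c v a b → ESide c' (ψ v) a b
  · obtain ⟨v₀, hv₀, k₀⟩ := hex
    have all : ∀ w, EV c w → ∀ a b, ESide c w a b → ESide c' (ψ w) a b := fun w hw =>
      (hC ι c hc).2 (fun v => ∀ a b, ESide c v a b → ESide c' (ψ v) a b) (by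
        intro v w j k hv hw s s' kv
        refine one w k j hw s' ((fw w k j hw s').resolve_right fun q => ?_)
        have e := inj v w hv hw (hc'.suniq _ _ j k (hm.vert v hv) (hm.vert w hw) (kv j k s) q)
        exact side_asymm hv s (e ▸ s')) v₀ w hv₀ hw k₀
    refine ⟨c', ψ, Or.inl rfl, hc', hm, fun v j k hv => ⟨all v hv j k, fun s => ?_⟩⟩
    exact (bw v j k hv s).resolve_right fun q => side_asymm (hm.vert v hv) s (all v hv k j q)
  · have all : ∀ w, EV c w → ∀ a b, ESide c w a b → ESide c' (ψ w) b a := fun w hw a b s =>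
      (fw w a b hw s).resolve_left fun q => hex ⟨w, hw, one w a b hw s q⟩
    refine ⟨-c', -ψ, Or.inr rfl, eStd_neg hc', match_neg hm, fun v j k hv => ?_⟩
    rw [side_neg, Pi.neg_apply, neg_neg]
    refine ⟨all v hv j k, fun s => ?_⟩
    exact (bw v k j hv s).resolve_left fun q => side_asymm (hm.vert v hv) s (all v hv k j q)

end Pool.Agent.Lib.MP_34b931_co.G
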