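import Pool.Agent.Lib.MP_34b931_co.Lat37

/-! Definitions and intermediate statements for the global rigidity of standard ball-polyhedra.
Each `St...` is a proposition proved in a separate file. -/

namespace Pool.Agent.Lib.MP_34b931_co.G

open Filter Topology

abbrev E4 := EuclideanSpace ℝ (Fin 4)

/-- Determinant of three vectors of `E3`. -/
def d3 (a b c : E3) : ℝ :=
  a 0 * (b 1 * c 2 - b 2 * c 1) - a 1 * (b 0 * c 2 - b 2 * c 0) + a 2 * (b 0 * c 1 - b 1 * c 0)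

/-- A `3 × 3` minor of three vectors of `E4`. -/
def m3 (i j k : Fin 4) (a b c : E4) : ℝ :=
  a i * (b j * c k - b k * c j) - a j * (b i * c k - b k * c i) + a k * (b i * c j - b j * c i)

/-- Determinant of four vectors of `E4`. -/
def d4 (a b c d : E4) : ℝ :=
  -(d 0 * m3 1 2 3 a b c) + d 1 * m3 0 2 3 a b c - d 2 * m3 0 1 3 a b c + d 3 * m3 0 1 2 a b c

/-! ### Oriented triangulated spheres, flips, intrinsic classes -/

/-- An oriented simplicial closed surface with at most `3n - 6` edges. -/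
structure Tri (ι : Type) where
  F : ι → ι → ι → Prop
  cyc : ∀ {a b c}, F a b c → F b c a
  ne : ∀ {a b c}, F a b c → a ≠ b
  uniq : ∀ {a b c d}, F a b c → F a b d → c = d
  twin : ∀ {a b c}, F a b c → ∃ d, F b a d
  nrev : ∀ {a b c}, F a b c → ¬ F a c b
  cover : ∀ a, ∃ b c, F a b c
  conn : ∀ S : ι → ι → ι → Prop, (∀ a b c, F a b c → S a b c → S b c a) →
    (∀ a b c d, F a b c → F b a d → S a b c → S b a d) →
    ∀ a b c a' b' c', F a b c → F a' b' c' → S a b c → S a' b' c'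
  count : Nat.card {t : ι × ι × ι // F t.1 t.2.1 t.2.2} + 12 ≤ 6 * Nat.card ι

variable {ι : Type}

def Tri.adj (T : Tri ι) (a b : ι) : Prop := ∃ c, T.F a b c

/-- Exactly `3n - 6` edges. -/
def Tri.Full (T : Tri ι) : Prop :=
  6 * Nat.card ι ≤ Nat.card {t : ι × ι × ι // T.F t.1 t.2.1 t.2.2} + 12

/-- `(x, y, z)` is a cyclic rotation of `(a, b, c)`. -/
def Rot (a b c x y z : ι) : Prop :=
  (x = a ∧ y = b ∧ z = c) ∨ (x = b ∧ y = c ∧ z = a) ∨ (x = c ∧ y = a ∧ z = b)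

/-- `T'` arises from `T` by replacing the diagonal `ac` of the quadrilateral `abcd` by `bd`. -/
def IsFlip (T T' : Tri ι) (a b c d : ι) : Prop :=
  T.F a b c ∧ T.F a c d ∧ ¬ T.adj b d ∧ ∀ x y z, T'.F x y z ↔
    (T.F x y z ∧ ¬ Rot a b c x y z ∧ ¬ Rot a c d x y z) ∨ Rot a b d x y z ∨ Rot b c d x y z

/-- `D` develops the triangle `abc` with Gram data `G` into the unit sphere. -/
def Dev (G : ι → ι → ℝ) (D : ι → E3) (a b c : ι) : Prop :=
  (∀ i j, (i = a ∨ i = b ∨ i = c) → (j = a ∨ j = b ∨ j = c) → inner ℝ (D i) (D j) = G i j) ∧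
    0 < d3 (D a) (D b) (D c)

/-- `G` (cosines of edge lengths) defines a spherical cone metric on `T`. -/
def IsMet (T : Tri ι) (G : ι → ι → ℝ) : Prop :=
  (∀ a b, G a b = G b a) ∧ (∀ a, G a a = 1) ∧ ∀ a b c, T.F a b c → ∃ D, Dev G D a b c

/-- One step: change `G` off the edges, or flip inside a convex developed quadrilateral. -/
def Step (X Y : Tri ι × (ι → ι → ℝ)) : Prop :=
  IsMet X.1 X.2 ∧ IsMet Y.1 Y.2 ∧ (∀ x y, X.1.adj x y → Y.1.adj x y → Y.2 x y = X.2 x y) ∧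
    (Y.1 = X.1 ∨ ∃ (a b c d : ι) (D : ι → E3), IsFlip X.1 Y.1 a b c d ∧ Dev X.2 D a b c ∧
      Dev X.2 D a c d ∧ Dev Y.2 D a b d ∧ Dev Y.2 D b c d)

def Cls (T : Tri ι) (G : ι → ι → ℝ) (T' : Tri ι) (G' : ι → ι → ℝ) : Prop :=
  Relation.ReflTransGen Step (T, G) (T', G')

/-- The cone over the geometric realisation of `T`. -/
def Tri.cone (T : Tri ι) : Set (ι → ℝ) :=
  {l | (∀ i, 0 ≤ l i) ∧ ∃ a b c, T.F a b c ∧ ∀ i, l i ≠ 0 → i = a ∨ i = b ∨ i = c}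

def ip [Fintype ι] (G : ι → ι → ℝ) (l m : ι → ℝ) : ℝ := ∑ i, ∑ j, l i * m j * G i j

noncomputable def lin [Fintype ι] (D : ι → E3) (l : ι → ℝ) : E3 := ∑ i, l i • D i

/-- `D` develops all triangles that contain `y`. -/
def Adm (T : Tri ι) (G : ι → ι → ℝ) (y : ι → ℝ) (D : ι → E3) : Prop :=
  ∀ a b c, T.F a b c → (∀ i, y i ≠ 0 → i = a ∨ i = b ∨ i = c) → Dev G D a b c

/-- `y` is not on the ray of a vertex. -/
def NV (y : ι → ℝ) : Prop := ∃ i j, i ≠ j ∧ y i ≠ 0 ∧ y j ≠ 0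

/-- `f` is a local isometry of cones fixing the vertices. -/
structure Iso1 [Fintype ι] [DecidableEq ι] (T : Tri ι) (G : ι → ι → ℝ) (T' : Tri ι)
    (G' : ι → ι → ℝ) (f : (ι → ℝ) → ι → ℝ) : Prop where
  maps : Set.MapsTo f T.cone T'.cone
  cont : ContinuousOn f T.cone
  homog : ∀ y ∈ T.cone, ∀ t : ℝ, 0 ≤ t → f (t • y) = t • f y
  vert : ∀ i, f (Pi.single i 1) = Pi.single i 1
  nv : ∀ y ∈ T.cone, NV y → NV (f y)
  f1 : ∀ y ∈ T.cone, ∀ᶠ l in 𝓝[T.cone] y, ip G' (f l) (f y) = ip G l y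
  ct : ∀ y ∈ T.cone, NV y → ∀ D, Adm T G y D →
    ∃ D', Adm T' G' (f y) D' ∧ ∀ᶠ l in 𝓝[T.cone] y, lin D' (f l) = lin D l

def Iso [Fintype ι] [DecidableEq ι] (T : Tri ι) (G : ι → ι → ℝ) (T' : Tri ι) (G' : ι → ι → ℝ) :
    Prop :=
  ∃ f g, Iso1 T G T' G' f ∧ Iso1 T' G' T G g ∧ (∀ y ∈ T.cone, g (f y) = y) ∧
    ∀ y ∈ T'.cone, f (g y) = y

/-- Determinant of the Gram matrix of `a, b, c, d` (unit diagonal). -/
def Dg (G : ι → ι → ℝ) (a b c d : ι) : ℝ :=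
  1 - G a b ^ 2 - G a c ^ 2 - G a d ^ 2 - G b c ^ 2 - G b d ^ 2 - G c d ^ 2
    + 2 * G a b * G b c * G a c + 2 * G a b * G b d * G a d + 2 * G a c * G c d * G a d
    + 2 * G b c * G c d * G b d + G a b ^ 2 * G c d ^ 2 + G a c ^ 2 * G b d ^ 2
    + G a d ^ 2 * G b c ^ 2 - 2 * G a b * G b c * G c d * G a d
    - 2 * G a b * G b d * G c d * G a c - 2 * G a c * G b c * G b d * G a d

/-- The edge values have transcendence degree at least `3n - 6`. -/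
def Generic (T : Tri ι) (G : ι → ι → ℝ) : Prop :=
  ∀ s : Finset ℝ, (∀ a b, T.adj a b → IsAlgebraic (Algebra.adjoin ℚ (s : Set ℝ)) (G a b)) →
    3 * Nat.card ι ≤ s.card + 6

/-! ### Ball-polyhedra in the unit 3-sphere: balls `τ ≤ ⟪u i, x⟫` -/

def Un (u : ι → E4) : Prop := ∀ i, ‖u i‖ = 1

noncomputable def gm (τ : ℝ) (u : ι → E4) (a b : ι) : ℝ :=
  (inner ℝ (u a) (u b) - τ ^ 2) / (1 - τ ^ 2)

def Pt (τ : ℝ) (u : ι → E4) (x : E4) : Prop := ‖x‖ = 1 ∧ ∀ i, τ ≤ inner ℝ (u i) x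

def Act (τ : ℝ) (u : ι → E4) (x : E4) (i : ι) : Prop := inner ℝ (u i) x = τ

/-- At the vertex `x`, the ordered pair `a, b` is a side of the polygon of active indices. -/
def SideAt (τ : ℝ) (u : ι → E4) (x : E4) (a b : ι) : Prop :=
  Pt τ u x ∧ a ≠ b ∧ Act τ u x a ∧ Act τ u x b ∧ (∃ c, c ≠ a ∧ c ≠ b ∧ Act τ u x c) ∧
    ∀ c, c ≠ a → c ≠ b → Act τ u x c → 0 < d4 (u a) (u b) (u c) x

/-- `a, b, c, d` are active at `x` and form a positively oriented convex quadrilateral. -/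
def QuadAt (τ : ℝ) (u : ι → E4) (x : E4) (a b c d : ι) : Prop :=
  Pt τ u x ∧ Act τ u x a ∧ Act τ u x b ∧ Act τ u x c ∧ Act τ u x d ∧
    0 < d4 (u a) (u b) (u c) x ∧ 0 < d4 (u a) (u c) (u d) x ∧ 0 < d4 (u a) (u b) (u d) x ∧
    0 < d4 (u b) (u c) (u d) x

structure Good (τ : ℝ) (u : ι → E4) (T : Tri ι) : Prop where
  un : Un u
  vtx : ∀ a b c, T.F a b c → ∃ x, Pt τ u x ∧ Act τ u x a ∧ Act τ u x b ∧ Act τ u x c ∧
    0 < d4 (u a) (u b) (u c) x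
  side : ∀ x a b, SideAt τ u x a b → ∃ c, T.F a b c ∧ Act τ u x c

/-- Local structure at the vertices. -/
structure Loc0 (τ : ℝ) (u : ι → E4) : Prop where
  three : ∀ x a b c, Pt τ u x → a ≠ b → b ≠ c → a ≠ c → Act τ u x a → Act τ u x b →
    Act τ u x c → d4 (u a) (u b) (u c) x ≠ 0
  four : ∀ x a b c d, Pt τ u x → Act τ u x a → Act τ u x b → Act τ u x c → Act τ u x d →
    0 < d4 (u a) (u b) (u c) x → d ≠ a → d ≠ b → d ≠ c → d4 (u a) (u b) (u c) (u d) ≠ 0 ∧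
      (QuadAt τ u x a d b c ∨ QuadAt τ u x a b d c ∨ QuadAt τ u x a b c d)
  five : ∀ x a b c d e, QuadAt τ u x a b c d → Act τ u x e → e = a ∨ e = b ∨ e = c ∨ e = d

structure Reg (τ : ℝ) (u : ι → E4) (T : Tri ι) : Prop where
  nn : 0 ≤ τ
  lt : τ < 1
  good : Good τ u T
  loc : Loc0 τ u
  dside : ∀ x y a b c d, QuadAt τ u x a b c d → ¬ SideAt τ u y a c
  duniq : ∀ x y a b c d b' d', QuadAt τ u x a b c d → QuadAt τ u y a b' c d' → x = y

/-- A simple spherical ball-polyhedron of type `T`. -/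
structure SGood (τ : ℝ) (u : ι → E4) (T : Tri ι) : Prop where
  un : Un u
  vtx : ∀ a b c, T.F a b c → ∃ x, Pt τ u x ∧ Act τ u x a ∧ Act τ u x b ∧ Act τ u x c
  simple : ∀ x a b c, Pt τ u x → a ≠ b → b ≠ c → a ≠ c → Act τ u x a → Act τ u x b →
    Act τ u x c → (∀ d, Act τ u x d → d = a ∨ d = b ∨ d = c) ∧
      ((T.F a b c ∧ 0 < d4 (u a) (u b) (u c) x) ∨ (T.F a c b ∧ d4 (u a) (u b) (u c) x < 0))

def B4 (τ : ℝ) (u : ι → E4) : Prop :=
  ∀ a b c d, a ≠ b → a ≠ c → b ≠ c → d ≠ a → d ≠ b → d ≠ c → ∀ α β γ : ℝ,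
    u d = α • u a + β • u b + γ • u c → τ * (α + β + γ - 1) ≠ 0

def B5 (τ : ℝ) (u : ι → E4) : Prop :=
  ∀ (x : E4) (e : Fin 5 → ι), ‖x‖ = 1 → (∀ k, Act τ u x (e k)) → ¬ Function.Injective e

def WFree (T : Tri ι) (G : ι → ι → ℝ) : Prop :=
  ∀ a b c d, T.adj a b → T.adj a c → T.adj a d → T.adj b c → T.adj b d → T.adj c d →
    Dg G a b c d ≠ 0

/-- First-order change of the Gram matrix. -/
noncomputable def dx (p ξ : ι → E4) (a b : ι) : ℝ := inner ℝ (ξ a) (p b) + inner ℝ (p a) (ξ b)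

/-! ### Regular triangulations of a vector configuration in `E4` and the quadratic form -/

def Lift (p : ι → E4) (w : ι → ℝ) (a b c d m : ι) : ℝ :=
  w a * d4 (p m) (p b) (p c) (p d) + w b * d4 (p a) (p m) (p c) (p d)
    + w c * d4 (p a) (p b) (p m) (p d) + w d * d4 (p a) (p b) (p c) (p m)
    - w m * d4 (p a) (p b) (p c) (p d)

/-- The linear function with values `w` on `a, b, c, d` exceeds `w` at all other points. -/
def Cell (p : ι → E4) (w : ι → ℝ) (a b c d : ι) : Prop :=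
  d4 (p a) (p b) (p c) (p d) ≠ 0 ∧ ∀ m, m ≠ a → m ≠ b → m ≠ c → m ≠ d →
    0 < d4 (p a) (p b) (p c) (p d) * Lift p w a b c d m

def Gen (p : ι → E4) (w : ι → ℝ) : Prop :=
  ∀ a b c d m, d4 (p a) (p b) (p c) (p d) ≠ 0 → m ≠ a → m ≠ b → m ≠ c → m ≠ d →
    Lift p w a b c d m ≠ 0

def GP (p : ι → E4) : Prop :=
  ∀ a b c d, a ≠ b → a ≠ c → a ≠ d → b ≠ c → b ≠ d → c ≠ d → d4 (p a) (p b) (p c) (p d) ≠ 0

def GenO (p : ι → E4) (o : E4) : Prop :=
  ∀ a b c, (∃ v, d4 (p a) (p b) (p c) v ≠ 0) → d4 (p a) (p b) (p c) o ≠ 0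

/-- Every vector spans an exposed ray of the cone. -/
def Ext (p : ι → E4) : Prop :=
  ∀ a, ∃ z : E4, inner ℝ z (p a) = 0 ∧ ∀ j, j ≠ a → 0 < inner ℝ z (p j)

def Hull (p : ι → E4) (a b : ι) : Prop :=
  ∃ l : E4, l ≠ 0 ∧ (∀ j, 0 ≤ inner ℝ l (p j)) ∧ inner ℝ l (p a) = 0 ∧ inner ℝ l (p b) = 0

def Sym4 (S : ι → ι → ι → ι → Prop) : Prop :=
  ∀ a b c d, S a b c d → S b a c d ∧ S a c b d ∧ S a b d c

def Rq (p : ι → E4) (o : E4) (a b c d : ι) (y : ι → ι → ℝ) : ℝ :=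
  d4 o (p b) (p c) (p d) * d4 (p a) o (p c) (p d) * y a b
    + d4 o (p b) (p c) (p d) * d4 (p a) (p b) o (p d) * y a c
    + d4 o (p b) (p c) (p d) * d4 (p a) (p b) (p c) o * y a d
    + d4 (p a) o (p c) (p d) * d4 (p a) (p b) o (p d) * y b c
    + d4 (p a) o (p c) (p d) * d4 (p a) (p b) (p c) o * y b d
    + d4 (p a) (p b) o (p d) * d4 (p a) (p b) (p c) o * y c d

noncomputable def hq (p : ι → E4) (o : E4) (a b c d : ι) (y y' : ι → ι → ℝ) : ℝ :=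
  Rq p o a b c d y * Rq p o a b c d y' / (|d4 (p a) (p b) (p c) (p d)| *
    (d4 o (p b) (p c) (p d) * d4 (p a) o (p c) (p d) * d4 (p a) (p b) o (p d) *
      d4 (p a) (p b) (p c) o))

open Classical in
noncomputable def Hb [Fintype ι] (p : ι → E4) (o : E4) (S : ι → ι → ι → ι → Prop)
    (y y' : ι → ι → ℝ) : ℝ :=
  ∑ a, ∑ b, ∑ c, ∑ d, if S a b c d then hq p o a b c d y y' else 0

open Classical in
noncomputable def bd [Fintype ι] (p : ι → E4) (S : ι → ι → ι → ι → Prop) (a b c : ι) : ℝ :=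
  ∑ d, if S a b c d then (SignType.sign (d4 (p a) (p b) (p c) (p d)) : ℝ) else 0

/-- The linear function vanishing at `o` with values `⟪ξ i, o⟫` at `p i`, `i = a, b, c`. -/
noncomputable def ell (p ξ : ι → E4) (o : E4) (a b c : ι) (v : E4) : ℝ :=
  (inner ℝ (ξ a) o * d4 v (p b) (p c) o + inner ℝ (ξ b) o * d4 (p a) v (p c) o
    + inner ℝ (ξ c) o * d4 (p a) (p b) v o) / d4 (p a) (p b) (p c) o

/-- `T` is the oriented boundary of the union of the cells in `S`. -/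
def IsBd (p : ι → E4) (S : ι → ι → ι → ι → Prop) (T : Tri ι) : Prop :=
  ∀ a b c, T.F a b c ↔ (∃ d, S a b c d ∧ 0 < d4 (p a) (p b) (p c) (p d)) ∧
    ¬ ∃ d, S a b c d ∧ d4 (p a) (p b) (p c) (p d) < 0

/-! ### Euclidean ball-polyhedra -/

def InB (c : ι → E3) (x : E3) : Prop := ∀ i, dist x (c i) ≤ 1

def EV (c : ι → E3) (v : E3) : Prop :=
  InB c v ∧ ∃ i j k, i ≠ j ∧ j ≠ k ∧ i ≠ k ∧ dist v (c i) = 1 ∧ dist v (c j) = 1 ∧ dist v (c k) = 1

def ESide (c : ι → E3) (v : E3) (j k : ι) : Prop :=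
  j ≠ k ∧ dist v (c j) = 1 ∧ dist v (c k) = 1 ∧
    ∀ l, l ≠ j → l ≠ k → dist v (c l) = 1 → 0 < d3 (c j - v) (c k - v) (c l - v)

/-- What is used of a standard ball-polyhedron. -/
structure EStd (c : ι → E3) : Prop where
  priv : Priv c
  three : 3 ≤ Nat.card ι
  int : ∃ o, ∀ i, dist o (c i) < 1
  uniq3 : ∀ v w i j k, InB c v → InB c w → i ≠ j → j ≠ k → i ≠ k → dist v (c i) = 1 →
    dist v (c j) = 1 → dist v (c k) = 1 → dist w (c i) = 1 → dist w (c j) = 1 →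
    dist w (c k) = 1 → v = w
  two : ∀ v w j k, EV c v → EV c w → v ≠ w → j ≠ k → dist v (c j) = 1 → dist v (c k) = 1 →
    dist w (c j) = 1 → dist w (c k) = 1 → ESide c v j k ∨ ESide c v k j
  suniq : ∀ v w j k, EV c v → EV c w → ESide c v j k → ESide c w j k → v = w

/-- Corresponding vertices lie on corresponding faces, with equal face angles. -/
structure Match (c c' : ι → E3) (ψ : E3 → E3) : Prop where
  vert : ∀ v, EV c v → EV c' (ψ v)
  act : ∀ v, EV c v → ∀ i, dist v (c i) = 1 ↔ dist (ψ v) (c' i) = 1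
  surj : ∀ w, EV c' w → ∃ v, EV c v ∧ ψ v = w
  ang : ∀ v i j k, EV c v → ESide c v j i → ESide c v i k → ∃ θ,
    Corner (c i - v) (c j - v) (c k - v) θ ∧ Corner (c' i - ψ v) (c' j - ψ v) (c' k - ψ v) θ

/-- A simple Euclidean ball-polyhedron of type `T`. -/
structure EGood (c : ι → E3) (T : Tri ι) : Prop where
  vtx : ∀ a b d, T.F a b d → ∃ x, InB c x ∧ dist x (c a) = 1 ∧ dist x (c b) = 1 ∧ dist x (c d) = 1
  simple : ∀ x a b d, InB c x → a ≠ b → b ≠ d → a ≠ d → dist x (c a) = 1 → dist x (c b) = 1 →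
    dist x (c d) = 1 → (∀ l, dist x (c l) = 1 → l = a ∨ l = b ∨ l = d) ∧
      ((T.F a b d ∧ 0 < d3 (c a - x) (c b - x) (c d - x)) ∨
        (T.F a d b ∧ d3 (c a - x) (c b - x) (c d - x) < 0))

open Classical in
/-- Sum of the unit normals at `v`. -/
noncomputable def nsum [Fintype ι] (c : ι → E3) (v : E3) : E3 :=
  ∑ j, if dist v (c j) = 1 then c j - v else 0

/-- Centres after cutting off each vertex `pos ν` by a further unit ball. -/
noncomputable def trunc [Fintype ι] {κ : Type} (c : ι → E3) (pos : κ → E3) (ε : ℝ) : ι ⊕ κ → E3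
  | Sum.inl j => c j
  | Sum.inr ν => pos ν + ((1 + ε) * ‖nsum c (pos ν)‖⁻¹) • nsum c (pos ν)

/-- The type of the truncated polyhedron. -/
def IsTrunc {κ : Type} (c : ι → E3) (pos : κ → E3) (T : Tri (ι ⊕ κ)) : Prop :=
  ∀ x y z, T.F x y z ↔
    ∃ ν j k, ESide c (pos ν) j k ∧ Rot (Sum.inr ν) (Sum.inl j) (Sum.inl k) x y z

/-- A strictly convex spherical polygon (or arm) with vertices `q 0, …, q n`. -/
def Cvx (q : ℕ → E3) (n : ℕ) : Prop :=
  (∀ i ≤ n, ‖q i‖ = 1) ∧ ∀ i j k, i < j → j < k → k ≤ n → 0 < d3 (q i) (q j) (q k)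

end Pool.Agent.Lib.MP_34b931_co.G
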