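import Pool.Agent.Lib.MP_34b931_co.H22Tri

/-! Local structure of intersections of unit balls in `E3`. -/

namespace Pool.Agent.Lib.MP_34b931_co.G

open Filter Topology

namespace Edge

variable {ι : Type} {c : ι → E3} {v : E3}

/-- An active normal spans an exposed ray of the cone of active normals. -/
theorem exposed (hp : Priv c) {j : ι} (hj : dist v (c j) = 1) :
    ∃ y : E3, inner ℝ (c j - v) y = 0 ∧
      ∀ l, l ≠ j → dist v (c l) = 1 → 0 < inner ℝ (c l - v) y := by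
  obtain ⟨x, h1, h2⟩ := hp j
  have e := (eq_iff hj).1 h1
  have nj := norm_one hj
  refine ⟨(x - v) - (‖x - v‖ ^ 2 / 2) • (c j - v), ?_, fun l hl hv => ?_⟩
  · rw [inner_sub_right, real_inner_smul_right, real_inner_self_eq_norm_sq, nj,
      real_inner_comm]
    linarith
  · have lt := (lt_iff hv).1 (h2 l hl)
    have nl := norm_one hv
    have cs : inner ℝ (c l - v) (c j - v) ≤ 1 := by
      have := real_inner_le_norm (c l - v) (c j - v)
      rwa [nl, nj, one_mul] at this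
    rw [inner_sub_right, real_inner_smul_right, real_inner_comm]
    have : 0 ≤ ‖x - v‖ ^ 2 / 2 := by positivity
    nlinarith

theorem d3_ne (hp : Priv c) {i j k : ι} (ij : i ≠ j) (jk : j ≠ k) (ik : i ≠ k)
    (hi : dist v (c i) = 1) (hj : dist v (c j) = 1) (hk : dist v (c k) = 1) :
    d3 (c i - v) (c j - v) (c k - v) ≠ 0 := by
  obtain ⟨x, x0, x1⟩ := exposed hp hi
  obtain ⟨y, y0, y1⟩ := exposed hp hj
  obtain ⟨z, z0, z1⟩ := exposed hp hk
  have a1 := x1 j ij.symm hj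
  have a2 := x1 k ik.symm hk
  have b1 := y1 i ij hi
  have b2 := y1 k jk.symm hk
  have c1 := z1 i ik hi
  have c2 := z1 j jk hj
  intro h
  have e := d3_mul (c i - v) (c j - v) (c k - v) x y z
  rw [h, x0, y0, z0] at e
  have p1 := mul_pos b1 (mul_pos c2 a2)
  have p2 := mul_pos c1 (mul_pos a1 b2)
  nlinarith

theorem cramer_inner (a b d w y : E3) : d3 a b d * inner ℝ w y =
    d3 w b d * inner ℝ a y + d3 a w d * inner ℝ b y + d3 a b w * inner ℝ d y := by
  simp only [d3, inner3]; ring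

theorem lt_trans' (hp : Priv c) {o k l m : ι} (ho : dist v (c o) = 1) (hk : dist v (c k) = 1)
    (hl : dist v (c l) = 1) (hm : dist v (c m) = 1) (ko : k ≠ o) (lo : l ≠ o) (mo : m ≠ o)
    (h1 : 0 < d3 (c o - v) (c k - v) (c l - v)) (h2 : 0 < d3 (c o - v) (c l - v) (c m - v)) :
    0 < d3 (c o - v) (c k - v) (c m - v) := by
  obtain ⟨y, y0, y1⟩ := exposed hp ho
  have e := cramer_inner (c o - v) (c k - v) (c m - v) (c l - v) y
  rw [y0, mul_zero, zero_add] at e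
  have p := add_pos (mul_pos h2 (y1 k ko hk)) (mul_pos h1 (y1 m mo hm))
  rw [← e] at p
  exact (mul_pos_iff_of_pos_right (y1 l lo hl)).1 p

theorem mid_pos (hp : Priv c) {o k l m : ι} (ho : dist v (c o) = 1) (hk : dist v (c k) = 1)
    (hl : dist v (c l) = 1) (hm : dist v (c m) = 1) (lo : l ≠ o)
    (h1 : 0 < d3 (c o - v) (c k - v) (c l - v)) (h2 : 0 < d3 (c o - v) (c l - v) (c m - v)) :
    0 < d3 (c k - v) (c l - v) (c m - v) := by
  have kl : k ≠ l := by
    rintro rfl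
    rw [d3_self23] at h1; exact lt_irrefl _ h1
  have ml : m ≠ l := by
    rintro rfl
    rw [d3_self23] at h2; exact lt_irrefl _ h2
  obtain ⟨y, y0, y1⟩ := exposed hp hl
  have e := cramer_inner (c o - v) (c k - v) (c m - v) (c l - v) y
  rw [y0, mul_zero, d3_swap12 (c k - v) (c l - v)] at e
  have p := add_pos (mul_pos h2 (y1 k kl hk)) (mul_pos h1 (y1 m ml hm))
  have q := y1 o lo.symm ho
  have : 0 < d3 (c k - v) (c l - v) (c m - v) * inner ℝ (c o - v) y := by linarith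
  exact (mul_pos_iff_of_pos_right q).1 this

/-- The sides of a convex polygon of active normals. -/
theorem side_iff {n : ℕ} {e : ℕ → ι} (hn : 2 ≤ n)
    (hact : ∀ i, dist v (c i) = 1 ↔ ∃ k ≤ n, e k = i)
    (hinj : ∀ p ≤ n, ∀ q ≤ n, e p = e q → p = q)
    (hc : ∀ i j k, i < j → j < k → k ≤ n → 0 < d3 (c (e i) - v) (c (e j) - v) (c (e k) - v))
    (j k : ι) : ESide c v j k ↔ ∃ i ≤ n, e i = j ∧ e ((i + 1) % (n + 1)) = k := by
  constructor
  · rintro ⟨jk, hj, hk, h⟩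
    obtain ⟨p, hp, rfl⟩ := (hact j).1 hj
    obtain ⟨q, hq, rfl⟩ := (hact k).1 hk
    have pq : p ≠ q := fun h' => jk (by rw [h'])
    have key : ∀ m ≤ n, m ≠ p → m ≠ q → 0 < d3 (c (e p) - v) (c (e q) - v) (c (e m) - v) :=
      fun m hm h1 h2 => h (e m) (fun h' => h1 (hinj m hm p hp h'))
        (fun h' => h2 (hinj m hm q hq h')) ((hact _).2 ⟨m, hm, rfl⟩)
    refine ⟨p, hp, rfl, ?_⟩
    by_cases h1 : q = p + 1
    · rw [Nat.mod_eq_of_lt (by omega), h1]
    by_cases h2 : p = n ∧ q = 0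
    · rw [h2.1, h2.2, Nat.mod_self]
    exfalso
    rcases lt_or_gt_of_ne pq with h3 | h3
    · have a := key (p + 1) (by omega) (by omega) (by omega)
      have b := hc p (p + 1) q (by omega) (by omega) hq
      rw [d3_swap23] at a; linarith
    · by_cases h4 : q = 0
      · have a := key n le_rfl (by omega) (by omega)
        have b := hc q p n h3 (by omega) le_rfl
        rw [d3_swap12] at a; linarith
      · have a := key 0 (by omega) (by omega) (by omega)
        have b := hc 0 q p (by omega) h3 hp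
        rw [← d3_cyc, ← d3_cyc, d3_swap23] at a; linarith
  · rintro ⟨i, hi, rfl, rfl⟩
    have hm : (i + 1) % (n + 1) ≤ n := Nat.lt_succ_iff.1 (Nat.mod_lt _ (by omega))
    rcases eq_or_lt_of_le hi with h | h
    · subst h
      rw [Nat.mod_self]
      refine ⟨fun h' => ?_, (hact _).2 ⟨i, le_rfl, rfl⟩, (hact _).2 ⟨0, by omega, rfl⟩, ?_⟩
      · have := hinj i le_rfl 0 (by omega) h'
        omega
      · intro l h1 h2 hl
        obtain ⟨m, hm, rfl⟩ := (hact l).1 hl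
        have m1 : m ≠ i := fun h' => h1 (by rw [h'])
        have m2 : m ≠ 0 := fun h' => h2 (by rw [h'])
        have b := hc 0 m i (by omega) (by omega) le_rfl
        rwa [← d3_cyc, ← d3_cyc] at b
    · rw [Nat.mod_eq_of_lt (by omega)]
      refine ⟨fun h' => ?_, (hact _).2 ⟨i, hi, rfl⟩, (hact _).2 ⟨i + 1, by omega, rfl⟩, ?_⟩
      · have := hinj i hi (i + 1) (by omega) h'
        omega
      · intro l h1 h2 hl
        obtain ⟨m, hm, rfl⟩ := (hact l).1 hl
        have m1 : m ≠ i := fun h' => h1 (by rw [h'])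
        have m2 : m ≠ i + 1 := fun h' => h2 (by rw [h'])
        rcases lt_or_gt_of_ne m1 with h3 | h3
        · have b := hc m i (i + 1) h3 (by omega) (by omega)
          rwa [← d3_cyc] at b
        · exact hc i (i + 1) m (by omega) (by omega) hm

theorem last_exit {κ : Type} [Finite κ] (g : κ → ℝ → ℝ) (hg : ∀ l, Continuous (g l))
    (h1 : ∀ l, ∀ᶠ t in atTop, 0 < g l t) (h0 : ∃ l t, g l t ≤ 0) :
    ∃ s, (∀ l, 0 ≤ g l s) ∧ (∃ l, g l s = 0) ∧ ∀ t, s < t → ∀ l, 0 < g l t := by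
  set S : Set ℝ := ⋃ l, {t | g l t ≤ 0} with hS
  have hcl : IsClosed S := isClosed_iUnion_of_finite fun l => isClosed_le (hg l) continuous_const
  have hne : S.Nonempty := by
    obtain ⟨l, t, h⟩ := h0
    exact ⟨t, Set.mem_iUnion.2 ⟨l, h⟩⟩
  have hb : BddAbove S := by
    obtain ⟨T, hT⟩ := eventually_atTop.1 (eventually_all.2 h1)
    refine ⟨T, fun t ht => ?_⟩
    obtain ⟨l, hl⟩ := Set.mem_iUnion.1 ht
    by_contra h
    exact absurd (hT t (le_of_lt (not_le.1 h)) l) (not_lt.2 hl)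
  have hafter : ∀ t, sSup S < t → ∀ l, 0 < g l t := by
    intro t ht l
    by_contra h
    exact absurd (le_csSup hb (Set.mem_iUnion.2 ⟨l, not_lt.1 h⟩)) (not_le.2 ht)
  have hge : ∀ l, 0 ≤ g l (sSup S) := by
    intro l
    have t : Tendsto (g l) (𝓝[>] sSup S) (𝓝 (g l (sSup S))) :=
      (hg l).continuousAt.tendsto.mono_left nhdsWithin_le_nhds
    exact ge_of_tendsto t (eventually_nhdsWithin_of_forall fun t ht => (hafter t ht l).le)
  obtain ⟨l, hl⟩ := Set.mem_iUnion.1 (hcl.csSup_mem hne hb)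
  exact ⟨sSup S, hge, ⟨l, le_antisymm hl (hge l)⟩, hafter⟩

theorem slope_nonneg {A B : ℝ} (h : ∀ s, 0 < s → 0 < s * A + B * s ^ 2) : 0 ≤ A := by
  have t : Tendsto (fun s : ℝ => A + B * s) (𝓝[>] 0) (𝓝 (A + B * 0)) :=
    (by fun_prop : Continuous fun s : ℝ => A + B * s).continuousAt.tendsto.mono_left
      nhdsWithin_le_nhds
  rw [mul_zero, add_zero] at t
  refine ge_of_tendsto t (eventually_nhdsWithin_of_forall fun s hs => ?_)
  have h1 := h s hs
  have h2 : 0 < s * (A + B * s) := by linarith [h1, show s * (A + B * s) = s * A + B * s ^ 2 by ring]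
  exact ((mul_pos_iff_of_pos_left hs).1 h2).le

theorem quad_pos {A B C : ℝ} (h : 0 < A ∨ (A = 0 ∧ 0 < B)) :
    ∀ᶠ t in atTop, 0 < A * t ^ 2 + B * t + C := by
  have key : ∀ᶠ t : ℝ in atTop, 0 < t ∧ |C| < t * (A * t + B) := by
    rcases h with h | ⟨h, h'⟩
    · filter_upwards [eventually_gt_atTop (|C| + 1), eventually_gt_atTop ((1 - B) / A)]
        with t h1 h2
      have h3 : 1 < A * t + B := by
        rw [div_lt_iff₀ h] at h2; linarith
      have := abs_nonneg C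
      exact ⟨by linarith, by nlinarith⟩
    · filter_upwards [eventually_gt_atTop 0, eventually_gt_atTop (|C| / B)] with t h1 h2
      rw [div_lt_iff₀ h'] at h2
      exact ⟨h1, by rw [h]; linarith⟩
  filter_upwards [key] with t ht
  have := neg_abs_le C
  nlinarith [ht.2]

/-- The function whose sign decides whether the inverse point lies in the ball about `q`. -/
noncomputable def gi (v q ζ : E3) : ℝ := 2 * inner ℝ ζ (q - v) + (1 - ‖q - v‖ ^ 2) * ‖ζ‖ ^ 2 - 1

theorem inv_dist (v q : E3) {ζ : E3} (h0 : ζ ≠ 0) :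
    dist (inv v ζ) q ^ 2 = 1 - (‖ζ‖ ^ 2)⁻¹ * gi v q ζ := by
  have hn : ‖ζ‖ ≠ 0 := norm_ne_zero_iff.2 h0
  have e : inv v ζ - q = (‖ζ‖ ^ 2)⁻¹ • ζ - (q - v) := by rw [inv]; abel
  rw [dist_eq_norm, e, norm_sub_sq_real, norm_smul, real_inner_smul_left, norm_inv, norm_pow,
    norm_norm, gi]
  field_simp
  ring

theorem inv_le_iff (v q : E3) {ζ : E3} (h0 : ζ ≠ 0) : dist (inv v ζ) q ≤ 1 ↔ 0 ≤ gi v q ζ := by
  have hn : 0 < (‖ζ‖ ^ 2)⁻¹ := by have := norm_pos_iff.2 h0; positivity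
  have e := inv_dist v q h0
  have d := dist_nonneg (x := inv v ζ) (y := q)
  constructor
  · intro h
    have : 0 ≤ (‖ζ‖ ^ 2)⁻¹ * gi v q ζ := by nlinarith
    exact (mul_nonneg_iff_of_pos_left hn).1 this
  · intro h
    have := mul_nonneg hn.le h
    nlinarith

theorem inv_eq_iff (v q : E3) {ζ : E3} (h0 : ζ ≠ 0) : dist (inv v ζ) q = 1 ↔ gi v q ζ = 0 := by
  have hn : 0 < (‖ζ‖ ^ 2)⁻¹ := by have := norm_pos_iff.2 h0; positivity
  have e := inv_dist v q h0
  have d := dist_nonneg (x := inv v ζ) (y := q)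
  constructor
  · intro h
    rw [h] at e
    have : (‖ζ‖ ^ 2)⁻¹ * gi v q ζ = 0 := by linarith
    exact (mul_eq_zero.1 this).resolve_left hn.ne'
  · intro h
    rw [h] at e
    nlinarith

theorem gi_line (v q ζ τ : E3) (s : ℝ) : gi v q (ζ + s • τ) = gi v q ζ +
    s * (2 * (inner ℝ τ (q - v) + (1 - ‖q - v‖ ^ 2) * inner ℝ ζ τ)) +
      (1 - ‖q - v‖ ^ 2) * ‖τ‖ ^ 2 * s ^ 2 := by
  simp only [gi, norm_add_sq_real, inner_add_left, real_inner_smul_left, real_inner_smul_right,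
    norm_smul, mul_pow, Real.norm_eq_abs, sq_abs]
  ring

theorem refl_id (a b q u : E3) (ha : ‖u‖ ^ 2 = 2 * inner ℝ u a) (hb : ‖u‖ ^ 2 = 2 * inner ℝ u b) :
    ‖u‖ ^ 2 * d3 (b - u) (a - u) (q - u) = ‖u‖ ^ 2 * inner ℝ (cr3 a b) q +
      inner ℝ u (cr3 a b) * (‖u‖ ^ 2 - 2 * inner ℝ u q) := by
  rw [real_inner_comm (cr3 a b) u, inner_cr3, inner_cr3]
  have e : ‖u‖ ^ 2 * d3 (b - u) (a - u) (q - u) - (‖u‖ ^ 2 * d3 a b q +
      d3 a b u * (‖u‖ ^ 2 - 2 * inner ℝ u q)) = d3 u b q * (‖u‖ ^ 2 - 2 * inner ℝ u a) +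
        d3 a u q * (‖u‖ ^ 2 - 2 * inner ℝ u b) := by
    simp only [norm3, inner3, d3, PiLp.sub_apply]; ring
  rw [← ha, ← hb] at e
  linarith

theorem cr3_ne (hp : Priv c) {j k : ι} (jk : j ≠ k) (hj : dist v (c j) = 1)
    (hk : dist v (c k) = 1) : cr3 (c j - v) (c k - v) ≠ 0 := by
  obtain ⟨x, h1, h2⟩ := hp j
  have e := (eq_iff hj).1 h1
  have lt := (lt_iff hk).1 (h2 k jk.symm)
  have nj := norm_one hj
  have nk := norm_one hk
  intro h
  have n := norm_cr3 (c j - v) (c k - v)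
  rw [h, nj, nk, norm_zero] at n
  have n' : (inner ℝ (c j - v) (c k - v) - 1) * (inner ℝ (c j - v) (c k - v) + 1) = (0 : ℝ) := by
    nlinarith
  have p := sq_nonneg ‖x - v‖
  rcases mul_eq_zero.1 n' with h3 | h3
  · have : ‖(c j - v) - (c k - v)‖ ^ 2 = 0 := by rw [norm_sub_sq_real, nj, nk]; linarith
    have h4 : c j - v = c k - v := sub_eq_zero.1 (norm_eq_zero.1 (pow_eq_zero_iff two_ne_zero |>.1 this))
    rw [h4] at e; linarith
  · have : ‖(c j - v) + (c k - v)‖ ^ 2 = 0 := by rw [norm_add_sq_real, nj, nk]; linarith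
    have h4 : c j - v = -(c k - v) :=
      eq_neg_of_add_eq_zero_left (norm_eq_zero.1 (pow_eq_zero_iff two_ne_zero |>.1 this))
    rw [h4, inner_neg_right] at e; linarith

/-- Walking along the circle of `j, k` away from `v` until a third ball becomes active. -/
theorem key [Fintype ι] (hp : Priv c) (hv : InB c v) {j k : ι} (hs : ESide c v j k) {η : E3}
    (e1 : 2 * inner ℝ η (c j - v) = 1) (e2 : 2 * inner ℝ η (c k - v) = 1)
    (h0 : ∃ l, l ≠ j ∧ l ≠ k ∧ gi v (c l) η ≤ 0) : ∃ w, EV c w ∧ w ≠ v ∧ ESide c w k j := by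
  obtain ⟨jk, hj, hk, hs⟩ := hs
  set τ := cr3 (c j - v) (c k - v) with hτ
  have τ0 : 0 < ‖τ‖ := norm_pos_iff.2 (cr3_ne hp jk hj hk)
  have τj : inner ℝ τ (c j - v) = 0 := by rw [hτ, inner_cr3, d3_self13]
  have τk : inner ℝ τ (c k - v) = 0 := by rw [hτ, inner_cr3, d3_self23]
  have nj := norm_one hj
  have nk := norm_one hk
  obtain ⟨s, s1, ⟨l0, s2⟩, s3⟩ := last_exit (κ := {l // l ≠ j ∧ l ≠ k})
    (fun l t => gi v (c l) (η + t • τ)) (fun l => by simp only [gi_line]; fun_prop)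
    (fun l => by
      have hl := hv l
      have hd : dist v (c l) = ‖c l - v‖ := by rw [dist_comm, dist_eq_norm]
      have q := quad_pos (A := (1 - ‖c l - v‖ ^ 2) * ‖τ‖ ^ 2)
        (B := 2 * (inner ℝ τ (c l - v) + (1 - ‖c l - v‖ ^ 2) * inner ℝ η τ)) (C := gi v (c l) η)
        (by
          rcases eq_or_lt_of_le hl with h | h
          · right
            have := hs l l.2.1 l.2.2 h
            rw [← hd, h, hτ, inner_cr3]
            exact ⟨by ring, by linarith⟩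
          · left
            have := norm_nonneg (c l - v)
            rw [hd] at h
            exact mul_pos (by nlinarith) (by positivity))
      filter_upwards [q] with t ht
      rw [gi_line]; linarith)
    (by
      obtain ⟨l, h1, h2, h3⟩ := h0
      exact ⟨⟨l, h1, h2⟩, 0, by simpa using h3⟩)
  set ζ := η + s • τ with hζ
  have ζj : 2 * inner ℝ ζ (c j - v) = 1 := by
    rw [hζ, inner_add_left, real_inner_smul_left, τj]; linarith
  have ζk : 2 * inner ℝ ζ (c k - v) = 1 := by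
    rw [hζ, inner_add_left, real_inner_smul_left, τk]; linarith
  have ζ0 : ζ ≠ 0 := by
    intro h
    rw [h] at ζj; simp at ζj
  have wj := inv_eq hj ζj
  have wk := inv_eq hk ζk
  have win : InB c (inv v ζ) := by
    intro l
    by_cases h1 : l = j
    · rw [h1, wj]
    by_cases h2 : l = k
    · rw [h2, wk]
    exact (inv_le_iff v (c l) ζ0).2 (s1 ⟨l, h1, h2⟩)
  refine ⟨inv v ζ, ⟨win, j, k, l0, jk, l0.2.2.symm, l0.2.1.symm, wj, wk,
    (inv_eq_iff v (c l0) ζ0).2 s2⟩, inv_ne ζ0, jk.symm, wk, wj, fun l lk lj hl => ?_⟩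
  have ne := d3_ne hp jk.symm lj.symm lk.symm wk wj hl
  have g0 := (inv_eq_iff v (c l) ζ0).1 hl
  have sl : 0 ≤ 2 * (inner ℝ τ (c l - v) + (1 - ‖c l - v‖ ^ 2) * inner ℝ ζ τ) := by
    refine slope_nonneg (B := (1 - ‖c l - v‖ ^ 2) * ‖τ‖ ^ 2) fun t ht => ?_
    have := s3 (s + t) (by linarith) ⟨l, lj, lk⟩
    have e : η + (s + t) • τ = ζ + t • τ := by rw [hζ, add_smul]; abel
    simp only [e] at this
    rw [gi_line, g0] at this
    linarith
  have N0 : 0 < ‖ζ‖ ^ 2 := by have := norm_pos_iff.2 ζ0; positivity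
  set u := (‖ζ‖ ^ 2)⁻¹ • ζ with hu
  have nu : ‖u‖ ^ 2 = (‖ζ‖ ^ 2)⁻¹ := by
    rw [hu, norm_smul, norm_inv, norm_pow, norm_norm]
    field_simp
  have iu : ∀ y, inner ℝ u y = (‖ζ‖ ^ 2)⁻¹ * inner ℝ ζ y := fun y => by
    rw [hu, real_inner_smul_left]
  have r := refl_id (c j - v) (c k - v) (c l - v) u
    (by rw [nu, iu]; linear_combination (-(‖ζ‖ ^ 2)⁻¹) * ζj)
    (by rw [nu, iu]; linear_combination (-(‖ζ‖ ^ 2)⁻¹) * ζk)
  have sub : ∀ y, y - inv v ζ = y - v - u := fun y => by rw [inv, hu]; abel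
  rw [sub, sub, sub] at ne ⊢
  rw [nu, iu, iu, ← hτ] at r
  have r2 : d3 (c k - v - u) (c j - v - u) (c l - v - u) =
      inner ℝ τ (c l - v) + (1 - ‖c l - v‖ ^ 2) * inner ℝ ζ τ := by
    have g1 : 1 - 2 * inner ℝ ζ (c l - v) = (1 - ‖c l - v‖ ^ 2) * ‖ζ‖ ^ 2 := by
      rw [gi] at g0; linarith
    have i0 : (‖ζ‖ ^ 2)⁻¹ ≠ 0 := (inv_pos.2 N0).ne'
    apply mul_left_cancel₀ i0
    rw [r]
    have i1 : (‖ζ‖ ^ 2)⁻¹ * ‖ζ‖ ^ 2 = 1 := inv_mul_cancel₀ N0.ne'
    linear_combination ((‖ζ‖ ^ 2)⁻¹ * (‖ζ‖ ^ 2)⁻¹ * inner ℝ ζ τ) * g1 +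
      ((‖ζ‖ ^ 2)⁻¹ * inner ℝ ζ τ * (1 - ‖c l - v‖ ^ 2)) * i1
  rw [r2] at ne ⊢
  exact lt_of_le_of_ne (by linarith) (Ne.symm ne)

/-- The circle of two unit spheres is not inside an open unit ball whose sphere meets the lens. -/
theorem circle_out {p q o z : E3} (pq : p ≠ q) (zo : dist z o = 1) (zp : dist z p ≤ 1)
    (zq : dist z q ≤ 1) : ∃ y, dist y p = 1 ∧ dist y q = 1 ∧ 1 ≤ dist y o := by
  set D := q - p with hD
  set m := p + (1 / 2 : ℝ) • D with hm
  set O := o - m with hO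
  set Z := z - m with hZ
  have D0 : 0 < ‖D‖ ^ 2 := by
    have := norm_pos_iff.2 (sub_ne_zero.2 pq.symm)
    positivity
  set σ := inner ℝ O D / ‖D‖ ^ 2 with hσ
  have hperp : inner ℝ (O - σ • D) D = 0 := by
    rw [inner_sub_left, real_inner_smul_left, real_inner_self_eq_norm_sq, hσ,
      div_mul_cancel₀ _ D0.ne', sub_self]
  obtain ⟨f, r, f1, fD, r0, fO⟩ : ∃ (f : E3) (r : ℝ), ‖f‖ = 1 ∧ inner ℝ f D = 0 ∧ 0 ≤ r ∧
      O = σ • D + r • f := by
    by_cases h : O - σ • D = 0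
    · obtain ⟨t, t1, t2, -⟩ := exists_orth D D
      exact ⟨t, 0, t1, t2, le_rfl, by rw [zero_smul, add_zero]; exact sub_eq_zero.1 h⟩
    · have hn : ‖O - σ • D‖ ≠ 0 := norm_ne_zero_iff.2 h
      refine ⟨‖O - σ • D‖⁻¹ • (O - σ • D), ‖O - σ • D‖, ?_, ?_, norm_nonneg _, ?_⟩
      · rw [norm_smul, norm_inv, norm_norm, inv_mul_cancel₀ hn]
      · rw [real_inner_smul_left, hperp, mul_zero]
      · rw [smul_smul, mul_inv_cancel₀ hn, one_smul]; abel
  have a1 : ‖Z‖ ^ 2 + inner ℝ Z D + ‖D‖ ^ 2 / 4 ≤ 1 := by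
    have e : z - p = Z + (1 / 2 : ℝ) • D := by rw [hZ, hm]; abel
    have : dist z p ^ 2 = ‖Z‖ ^ 2 + inner ℝ Z D + ‖D‖ ^ 2 / 4 := by
      rw [dist_eq_norm, e, norm_add_sq_real, real_inner_smul_right, norm_smul, mul_pow,
        Real.norm_eq_abs, sq_abs]; ring
    nlinarith [dist_nonneg (x := z) (y := p)]
  have a2 : ‖Z‖ ^ 2 - inner ℝ Z D + ‖D‖ ^ 2 / 4 ≤ 1 := by
    have e : z - q = Z - (1 / 2 : ℝ) • D := by
      rw [hZ, hm, hD]; module
    have : dist z q ^ 2 = ‖Z‖ ^ 2 - inner ℝ Z D + ‖D‖ ^ 2 / 4 := by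
      rw [dist_eq_norm, e, norm_sub_sq_real, real_inner_smul_right, norm_smul, mul_pow,
        Real.norm_eq_abs, sq_abs]; ring
    nlinarith [dist_nonneg (x := z) (y := q)]
  have a3 : ‖Z‖ ^ 2 - 2 * (σ * inner ℝ Z D + r * inner ℝ Z f) + ‖O‖ ^ 2 = 1 := by
    have e : z - o = Z - O := by rw [hZ, hO]; abel
    have : dist z o ^ 2 = ‖Z‖ ^ 2 - 2 * inner ℝ Z O + ‖O‖ ^ 2 := by
      rw [dist_eq_norm, e, norm_sub_sq_real]
    rw [zo] at this
    have e2 : inner ℝ Z O = σ * inner ℝ Z D + r * inner ℝ Z f := by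
      rw [fO, inner_add_right, real_inner_smul_right, real_inner_smul_right]
    rw [← e2]; linarith
  have hρ : 0 ≤ 1 - ‖D‖ ^ 2 / 4 := by nlinarith [sq_nonneg ‖Z‖]
  set ρ := √(1 - ‖D‖ ^ 2 / 4) with hρd
  have ρ0 : 0 ≤ ρ := Real.sqrt_nonneg _
  have ρ2 : ρ ^ 2 = 1 - ‖D‖ ^ 2 / 4 := Real.sq_sqrt hρ
  have nO : ‖O‖ ^ 2 = σ ^ 2 * ‖D‖ ^ 2 + r ^ 2 := by
    rw [fO, norm_add_sq_real, real_inner_smul_left, real_inner_smul_right, real_inner_comm, fD,
      norm_smul, norm_smul, f1, mul_pow, mul_pow, Real.norm_eq_abs, Real.norm_eq_abs, sq_abs, sq_abs]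
    ring
  have one : ∀ x : ℝ, 0 ≤ x → x ^ 2 = 1 → x = 1 := fun x h1 h2 => by nlinarith
  refine ⟨m - ρ • f, one _ dist_nonneg ?_, one _ dist_nonneg ?_, ?_⟩
  · have e : m - ρ • f - p = (1 / 2 : ℝ) • D - ρ • f := by rw [hm]; abel
    rw [dist_eq_norm, e, norm_sub_sq_real, real_inner_smul_left, real_inner_smul_right,
      real_inner_comm, fD, norm_smul, norm_smul, f1, mul_pow, mul_pow, Real.norm_eq_abs,
      Real.norm_eq_abs, sq_abs, sq_abs, ρ2]
    ring
  · have e : m - ρ • f - q = -((1 / 2 : ℝ) • D + ρ • f) := by rw [hm, hD]; module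
    rw [dist_eq_norm, e, norm_neg, norm_add_sq_real, real_inner_smul_left, real_inner_smul_right,
      real_inner_comm, fD, norm_smul, norm_smul, f1, mul_pow, mul_pow, Real.norm_eq_abs,
      Real.norm_eq_abs, sq_abs, sq_abs, ρ2]
    ring
  · have e : m - ρ • f - o = -(O + ρ • f) := by rw [hO]; abel
    have Of : inner ℝ O f = r := by
      rw [fO, inner_add_left, real_inner_smul_left, real_inner_smul_left, real_inner_comm, fD,
        real_inner_self_eq_norm_sq, f1]; ring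
    have d2 : dist (m - ρ • f) o ^ 2 = ‖O‖ ^ 2 + 2 * (ρ * r) + ρ ^ 2 := by
      rw [dist_eq_norm, e, norm_neg, norm_add_sq_real, real_inner_smul_right, Of, norm_smul, f1,
        mul_pow, Real.norm_eq_abs, sq_abs]; ring
    by_contra hlt
    have hd := dist_nonneg (x := m - ρ • f) (y := o)
    have h1 : ‖O‖ ^ 2 + 2 * (ρ * r) < ‖D‖ ^ 2 / 4 := by nlinarith [not_le.1 hlt]
    have ρr := mul_nonneg ρ0 r0
    have hσ2 : σ ^ 2 < 1 / 4 := by
      have : σ ^ 2 * ‖D‖ ^ 2 < 1 / 4 * ‖D‖ ^ 2 := by nlinarith [sq_nonneg r]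
      exact lt_of_mul_lt_mul_right this D0.le
    have σ1 : σ ≤ 1 / 2 := by nlinarith
    have σ2 : -(1 / 2) ≤ σ := by nlinarith
    have zn : ‖Z‖ ≤ ρ :=
      (abs_le_of_sq_le_sq' (show ‖Z‖ ^ 2 ≤ ρ ^ 2 by rw [ρ2]; linarith) ρ0).2
    have zf : -ρ ≤ inner ℝ Z f := by
      have := abs_real_inner_le_norm Z f
      rw [f1, mul_one] at this
      linarith [neg_abs_le (inner ℝ Z f : ℝ)]
    have b1 : -(2 * (r * inner ℝ Z f)) ≤ 2 * (ρ * r) := by nlinarith
    rcases le_total 0 (inner ℝ Z D : ℝ) with h | h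
    · nlinarith
    · nlinarith

end Edge

open Edge

theorem stE1 : StE1 := by
  classical
  intro ι _ c v hp hv
  obtain ⟨-, o, j, k, oj, jk, ok, ho, hj, hk⟩ := hv
  let S := {i : ι // dist v (c i) = 1 ∧ i ≠ o}
  let r : S → S → Prop := fun a b => 0 < d3 (c o - v) (c a - v) (c b - v)
  have : IsStrictTotalOrder S r :=
    { trichotomous := by
        intro a b h1 h2
        by_contra h
        have ab : (a : ι) ≠ b := fun h' => h (Subtype.ext h')
        have := d3_ne hp a.2.2.symm ab b.2.2.symm ho a.2.1 b.2.1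
        simp only [r, not_lt] at h1 h2
        rw [d3_swap23] at h2
        exact this (le_antisymm h1 (by linarith))
      irrefl := fun a h => by
        simp only [r] at h
        rw [d3_self23] at h; exact lt_irrefl _ h
      trans := fun a b d h1 h2 => lt_trans' hp ho a.2.1 b.2.1 d.2.1 a.2.2 b.2.2 d.2.2 h1 h2 }
  let _ : LinearOrder S := linearOrderOfSTO r
  set n := Fintype.card S with hn
  have n2 : 2 ≤ n := by
    have : Nontrivial S := ⟨⟨⟨j, hj, oj.symm⟩, ⟨k, hk, ok.symm⟩, fun h => jk (congrArg Subtype.val h)⟩⟩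
    exact Fintype.one_lt_card
  let φ : Fin n ≃o S := monoEquivOfFin S hn.symm
  let e : ℕ → ι := fun i => if h : 0 < i ∧ i ≤ n then (φ ⟨i - 1, by omega⟩ : S) else o
  have e0 : e 0 = o := by simp [e]
  have ep : ∀ i (h1 : 0 < i) (h2 : i ≤ n), e i = (φ ⟨i - 1, by omega⟩ : S) := by
    intro i h1 h2
    simp only [e]
    rw [dif_pos ⟨h1, h2⟩]
  have hact : ∀ i, dist v (c i) = 1 ↔ ∃ k ≤ n, e k = i := by
    intro i
    constructor
    · intro hi
      by_cases h : i = o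
      · exact ⟨0, by omega, by rw [e0, h]⟩
      · obtain ⟨t, ht⟩ := φ.surjective ⟨i, hi, h⟩
        refine ⟨t + 1, by omega, ?_⟩
        rw [ep (t + 1) (by omega) (by omega)]
        simp only [Nat.add_sub_cancel, Fin.eta, ht]
    · rintro ⟨m, hm, rfl⟩
      rcases Nat.eq_zero_or_pos m with h | h
      · rw [h, e0, ho]
      · rw [ep m h hm]; exact (φ _).2.1
  have lt0 : ∀ p q, 0 < p → p < q → q ≤ n → 0 < d3 (c o - v) (c (e p) - v) (c (e q) - v) := by
    intro p q h1 h2 h3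
    rw [ep p h1 (by omega), ep q (by omega) h3]
    have : φ ⟨p - 1, by omega⟩ < φ ⟨q - 1, by omega⟩ := φ.strictMono (by simp [Fin.lt_def]; omega)
    exact this
  have neo : ∀ p, 0 < p → p ≤ n → e p ≠ o := fun p h1 h2 => by
    rw [ep p h1 h2]; exact (φ _).2.2
  have act : ∀ p ≤ n, dist v (c (e p)) = 1 := fun p h => (hact _).2 ⟨p, h, rfl⟩
  have hc : ∀ i j k, i < j → j < k → k ≤ n →
      0 < d3 (c (e i) - v) (c (e j) - v) (c (e k) - v) := by
    intro p q s h1 h2 h3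
    rcases Nat.eq_zero_or_pos p with h | h
    · rw [h, e0]; exact lt0 q s (by omega) h2 h3
    · exact mid_pos hp ho (act p (by omega)) (act q (by omega)) (act s h3)
        (neo q (by omega) (by omega)) (lt0 p q h h1 (by omega)) (lt0 q s (by omega) h2 h3)
  have hlt : ∀ p q, p < q → q ≤ n → e p ≠ e q := by
    intro p q h1 h2 h
    rcases Nat.eq_zero_or_pos p with h0 | h0
    · rw [h0, e0] at h; exact neo q (by omega) h2 h.symm
    · have := lt0 p q h0 h1 h2
      rw [h, d3_self23] at this; exact lt_irrefl _ this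
  have hinj : ∀ p ≤ n, ∀ q ≤ n, e p = e q → p = q := by
    intro p hp' q hq h
    rcases lt_trichotomy p q with h1 | h1 | h1
    · exact absurd h (hlt p q h1 hq)
    · exact h1
    · exact absurd h.symm (hlt q p h1 hp')
  exact ⟨n, e, n2, hact, ⟨fun i hi => norm_one (act i hi), hc⟩, side_iff n2 hact hinj hc⟩

theorem stE2 : StE2 := by
  intro ι _ c v j k hp hv hs
  obtain ⟨hin, a, b, d, ab, bd, ad, ha, hb, hd⟩ := hv
  obtain ⟨l, lj, lk, hl⟩ : ∃ l, l ≠ j ∧ l ≠ k ∧ dist v (c l) = 1 := by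
    by_contra h
    push Not at h
    have h0 : ∀ l, dist v (c l) = 1 → l = j ∨ l = k := fun l hl => by
      by_contra hh
      push Not at hh
      exact h l hh.1 hh.2 hl
    rcases h0 a ha with h1 | h1 <;> rcases h0 b hb with h2 | h2 <;>
      rcases h0 d hd with h3 | h3 <;>
      first
        | exact ab (h1.trans h2.symm)
        | exact bd (h2.trans h3.symm)
        | exact ad (h1.trans h3.symm)
  obtain ⟨η, e1, e2, e3⟩ := (hp.ind hs.1 lk.symm lj.symm hs.2.1 hs.2.2.1 hl).dual (1 / 2) (1 / 2) 0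
  refine key hp hin hs (η := η) (by rw [e1]; norm_num) (by rw [e2]; norm_num) ⟨l, lj, lk, ?_⟩
  rw [gi, e3, norm_one hl]; norm_num

theorem stE3 : StE3 := by
  intro ι _ c v hp hv
  refine eventually_all.2 fun j => eventually_all.2 fun k => ?_
  have away : ∀ i, dist v (c i) ≠ 1 → ∀ᶠ x in 𝓝[≠] v, dist x (c i) ≠ 1 := fun i hi =>
    ((by fun_prop : Continuous fun x : E3 => dist x (c i)).continuousAt.eventually_ne hi).filter_mono
      nhdsWithin_le_nhds
  by_cases hj : dist v (c j) = 1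
  swap
  · filter_upwards [away j hj] with x hx _ _ h _ using absurd h hx
  by_cases hk : dist v (c k) = 1
  swap
  · filter_upwards [away k hk] with x hx _ _ _ h using absurd h hx
  by_cases jk : j = k
  · exact Eventually.of_forall fun x h => absurd jk h
  by_cases h1 : ESide c v j k
  · exact Eventually.of_forall fun x _ _ _ _ => Or.inl h1
  by_cases h2 : ESide c v k j
  · exact Eventually.of_forall fun x _ _ _ _ => Or.inr h2
  obtain ⟨l, lj, lk, hl, dl⟩ : ∃ l, l ≠ j ∧ l ≠ k ∧ dist v (c l) = 1 ∧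
      d3 (c j - v) (c k - v) (c l - v) < 0 := by
    by_contra h
    push Not at h
    exact h1 ⟨jk, hj, hk, fun l a b d =>
      lt_of_le_of_ne (h l a b d) (d3_ne hp jk b.symm a.symm hj hk d).symm⟩
  obtain ⟨m, mj, mk, hm, dm⟩ : ∃ m, m ≠ j ∧ m ≠ k ∧ dist v (c m) = 1 ∧
      0 < d3 (c j - v) (c k - v) (c m - v) := by
    by_contra h
    push Not at h
    refine h2 ⟨Ne.symm jk, hk, hj, fun l a b d => ?_⟩
    have := lt_of_le_of_ne (h l b a d) (d3_ne hp jk a.symm b.symm hj hk d)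
    rw [d3_swap12]; linarith
  set A := c j - v
  set B := c k - v
  set L := c l - v
  set M := c m - v
  set K := |d3 M B L + d3 A M L| / (2 * d3 A B M) with hK
  have K0 : 0 ≤ K := by positivity
  set C := ‖cr3 B L‖ / 2 + ‖cr3 L A‖ / 2 + K * ‖cr3 A B‖ + 1 with hC
  have C0 : 0 < C := by positivity
  have near : ∀ᶠ x in 𝓝[≠] v, ‖x - v‖ < -d3 A B L / C := by
    have : ∀ᶠ x in 𝓝 v, dist x v < -d3 A B L / C :=
      Metric.ball_mem_nhds v (div_pos (by linarith) C0)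
    simpa only [dist_eq_norm] using this.filter_mono nhdsWithin_le_nhds
  filter_upwards [near, self_mem_nhdsWithin] with x hx xv _ xin xj xk
  exfalso
  set u := x - v with hu
  have u0 : 0 < ‖u‖ := norm_pos_iff.2 (sub_ne_zero.2 xv)
  have ej : inner ℝ A u = ‖u‖ ^ 2 / 2 := by
    have := (eq_iff hj).1 xj
    rw [real_inner_comm]; linarith
  have ek : inner ℝ B u = ‖u‖ ^ 2 / 2 := by
    have := (eq_iff hk).1 xk
    rw [real_inner_comm]; linarith
  have el : 0 ≤ inner ℝ L u := by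
    have := (le_iff hl).1 (xin l)
    rw [real_inner_comm]; nlinarith [sq_nonneg ‖u‖]
  have em : 0 ≤ inner ℝ M u := by
    have := (le_iff hm).1 (xin m)
    rw [real_inner_comm]; nlinarith [sq_nonneg ‖u‖]
  have cr := cramer_inner A B L M u
  rw [ej, ek] at cr
  have el2 : inner ℝ L u ≤ K * ‖u‖ ^ 2 := by
    have a1 : d3 A B M * inner ℝ L u ≤ |d3 M B L + d3 A M L| * (‖u‖ ^ 2 / 2) := by
      have b1 := mul_nonneg (neg_pos.2 dl).le em
      have b2 := mul_le_mul_of_nonneg_right (neg_le_abs (d3 M B L + d3 A M L))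
        (by positivity : 0 ≤ ‖u‖ ^ 2 / 2)
      nlinarith
    have a2 : d3 A B M * (K * ‖u‖ ^ 2) = |d3 M B L + d3 A M L| * (‖u‖ ^ 2 / 2) := by
      rw [hK]; field_simp
    exact le_of_mul_le_mul_left (by rw [a2]; exact a1) dm
  have du := congrArg norm (dual3 A B L u)
  rw [norm_smul, Real.norm_eq_abs, abs_of_neg dl, ej, ek] at du
  have tri : ‖(‖u‖ ^ 2 / 2) • cr3 B L + (‖u‖ ^ 2 / 2) • cr3 L A + inner ℝ L u • cr3 A B‖ ≤
      ‖u‖ ^ 2 / 2 * ‖cr3 B L‖ + ‖u‖ ^ 2 / 2 * ‖cr3 L A‖ + K * ‖u‖ ^ 2 * ‖cr3 A B‖ := by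
    refine (norm_add₃_le).trans ?_
    rw [norm_smul, norm_smul, norm_smul, Real.norm_of_nonneg (by positivity),
      Real.norm_of_nonneg el]
    have := mul_le_mul_of_nonneg_right el2 (norm_nonneg (cr3 A B))
    linarith
  rw [lt_div_iff₀ C0] at hx
  have f1 : -d3 A B L * ‖u‖ ≤ ‖u‖ * C * ‖u‖ := by
    rw [du, hC]; nlinarith [sq_nonneg ‖u‖]
  have f2 := mul_lt_mul_of_pos_right hx u0
  linarith

theorem stE4 : StE4 := by
  classical
  intro ι _ c x j k hp h3 hx jk hj hk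
  by_cases h : ∃ l, l ≠ j ∧ l ≠ k ∧ dist x (c l) = 1
  · obtain ⟨l, lj, lk, hl⟩ := h
    exact ⟨x, ⟨hx, j, k, l, jk, lk.symm, lj.symm, hj, hk, hl⟩, hj, hk⟩
  push Not at h
  obtain ⟨l, lj, lk⟩ : ∃ l, l ≠ j ∧ l ≠ k := by
    by_contra h'
    push Not at h'
    have : (Finset.univ : Finset ι) ⊆ {j, k} := fun l _ => by
      by_cases h1 : l = j
      · simp [h1]
      · simp [h' l h1]
    have h4 := Finset.card_le_card this
    rw [Finset.card_univ, Finset.card_pair jk, ← Nat.card_eq_fintype_card] at h4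
    omega
  obtain ⟨z, z1, z2⟩ := hp l
  obtain ⟨y, yj, yk, yl⟩ := circle_out (hp.ne jk) z1 (z2 j lj.symm).le (z2 k lk.symm).le
  have yx : y ≠ x := by
    rintro rfl
    exact h l lj lk (le_antisymm (hx l) yl)
  have n0 : 0 < ‖y - x‖ ^ 2 := by
    have := norm_pos_iff.2 (sub_ne_zero.2 yx)
    positivity
  set η := (‖y - x‖ ^ 2)⁻¹ • (y - x) with hη
  have one : ∀ i, dist x (c i) = 1 → dist y (c i) = 1 → 2 * inner ℝ η (c i - x) = 1 := by
    intro i h1 h2
    have := (eq_iff h1).1 h2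
    rw [hη, real_inner_smul_left, mul_left_comm, ← this, inv_mul_cancel₀ n0.ne']
  have η0 : η ≠ 0 := by
    intro h0
    have := one j hj yj
    rw [h0] at this; simp at this
  obtain ⟨w, w1, -, w2⟩ := key hp hx (j := j) (k := k)
    ⟨jk, hj, hk, fun m a b d => absurd d (h m a b)⟩ (one j hj yj) (one k hk yk) ⟨l, lj, lk, by
      have e := inv_dist x (c l) η0
      rw [hη, inv_inv yx, ← hη] at e
      have p : 0 < (‖η‖ ^ 2)⁻¹ := by have := norm_pos_iff.2 η0; positivity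
      by_contra hc
      have := mul_pos p (not_le.1 hc)
      nlinarith⟩
  exact ⟨w, w1, w2.2.2.1, w2.2.1⟩

end Pool.Agent.Lib.MP_34b931_co.G
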