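import Pool.Agent.Lib.MP_34b931_co.H22Fin2

/-! Finitely many lengths of geodesic segments joining two vertices. -/

namespace Pool.Agent.Lib.MP_34b931_co.G

open Filter Topology Set

namespace FinL

variable {ι : Type}

/-- `l` is supported on `i, j, k`. -/
def Sp (l : ι → ℝ) (i j k : ι) : Prop := ∀ m, l m ≠ 0 → m = i ∨ m = j ∨ m = k

theorem Sp.cyc {l : ι → ℝ} {i j k : ι} (h : Sp l i j k) : Sp l j k i := fun m hm => by
  have := h m hm
  grind

theorem sp_rot {l : ι → ℝ} {i j k x y z : ι} (r : Rot i j k x y z) (h : Sp l x y z) :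
    Sp l i j k := fun m hm => by
  have := h m hm
  unfold Rot at r
  grind

theorem dev_rot {G : ι → ι → ℝ} {D : ι → E3} {i j k x y z : ι} (r : Rot i j k x y z)
    (h : Dev G D i j k) : Dev G D x y z := by
  rcases r with ⟨rfl, rfl, rfl⟩ | ⟨rfl, rfl, rfl⟩ | ⟨rfl, rfl, rfl⟩
  exacts [h, h.cyc, h.cyc.cyc]

theorem nv_two {l : ι → ℝ} {i j : ι} (h : NV l) (s : ∀ m, l m ≠ 0 → m = i ∨ m = j) :
    l i ≠ 0 ∧ l j ≠ 0 := by
  obtain ⟨x, y, xy, hx, hy⟩ := h
  have := s x hx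
  have := s y hy
  grind

theorem faces_two {T : Tri ι} {i j k p x y z : ι} (f : T.F i j k) (f' : T.F j i p)
    (g : T.F x y z) (hi : i = x ∨ i = y ∨ i = z) (hj : j = x ∨ j = y ∨ j = z) :
    Rot i j k x y z ∨ Rot j i p x y z := by
  have ij := T.ne f
  have g1 := T.cyc g
  have g2 := Tri.cyc2 g
  unfold Rot
  rcases hi with rfl | rfl | rfl <;> rcases hj with rfl | rfl | rfl
  · exact absurd rfl ij
  · simp [T.uniq g f]
  · simp [T.uniq g2 f']
  · simp [T.uniq g f']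
  · exact absurd rfl ij
  · simp [T.uniq g1 f]
  · simp [T.uniq g2 f]
  · simp [T.uniq g1 f']
  · exact absurd rfl ij

theorem dev_mk {T : Tri ι} {G : ι → ι → ℝ} (h : IsMet T G) {D : ι → E3} {i j k : ι}
    (ii : inner ℝ (D i) (D i) = 1) (jj : inner ℝ (D j) (D j) = 1) (kk : inner ℝ (D k) (D k) = 1)
    (ij : inner ℝ (D i) (D j) = G i j) (ik : inner ℝ (D i) (D k) = G i k)
    (jk : inner ℝ (D j) (D k) = G j k) (p : 0 < d3 (D i) (D j) (D k)) : Dev G D i j k := by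
  refine ⟨fun x y hx hy => ?_, p⟩
  rcases hx with rfl | rfl | rfl <;> rcases hy with rfl | rfl | rfl <;>
    first
      | assumption
      | (rw [h.2.1]; assumption)
      | (rw [real_inner_comm, h.1]; assumption)

theorem dev_unit {T : Tri ι} {G : ι → ι → ℝ} (h : IsMet T G) {D : ι → E3} {i j k m : ι}
    (d : Dev G D i j k) (hm : m = i ∨ m = j ∨ m = k) : inner ℝ (D m) (D m) = 1 := by
  rw [d.1 m m hm hm, h.2.1]

theorem norm_of_inner {v : E3} (h : inner ℝ v v = 1) : ‖v‖ = 1 := by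
  rw [real_inner_self_eq_norm_sq] at h
  exact (pow_eq_one_iff_of_nonneg (norm_nonneg _) two_ne_zero).1 h

theorem exists_mu [Finite ι] (T : Tri ι) (G : ι → ι → ℝ) :
    ∃ μ : ℝ, 0 < μ ∧ ∀ i j k D, Dev G D i j k → μ ≤ d3 (D i) (D j) (D k) := by
  have : ∀ t : ι × ι × ι, ∃ μ : ℝ, 0 < μ ∧
      ∀ D, Dev G D t.1 t.2.1 t.2.2 → μ ≤ d3 (D t.1) (D t.2.1) (D t.2.2) := by
    rintro ⟨i, j, k⟩
    by_cases h : ∃ D, Dev G D i j k
    · obtain ⟨D0, d0⟩ := h
      refine ⟨_, d0.2, fun D d => le_of_eq (d3_eq ?_ ?_ ?_ ?_ ?_ ?_ d0.2 d.2)⟩ <;>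
        rw [d0.1 _ _ (by simp) (by simp), d.1 _ _ (by simp) (by simp)]
    · exact ⟨1, one_pos, fun D d => absurd ⟨D, d⟩ h⟩
  choose f hf using this
  have := T.nonempty
  obtain ⟨t0, h0⟩ := Finite.exists_min f
  exact ⟨f t0, (hf t0).1, fun i j k D d => (h0 (i, j, k)).trans ((hf (i, j, k)).2 D d)⟩

/-- Possible products with a third vertex, given the products with the ends of an edge. -/
def nx (T : Tri ι) (G : ι → ι → ℝ) (S : Set ℝ) : Set ℝ :=
  S ∪ {w | ∃ i j k, T.adj i j ∧ ∃ x ∈ S, ∃ y ∈ S,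
    ((1 - G i j ^ 2) * w - (G i k - G i j * G j k) * x - (G j k - G i j * G i k) * y) ^ 2 =
      gd (G i j) (G i k) (G j k) * gd (G i j) x y}

theorem nx_finite [Finite ι] {T : Tri ι} {G : ι → ι → ℝ} (h : IsMet T G) {S : Set ℝ}
    (hS : S.Finite) : (nx T G S).Finite := by
  refine hS.union ?_
  have key : ∀ s p q E : ℝ, s ≠ 0 → {w : ℝ | (s * w - p - q) ^ 2 = E}.Finite := by
    intro s p q E hs
    refine (toFinite {(p + q + √E) / s, (p + q - √E) / s}).subset fun w hw => ?_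
    have e : √E = |s * w - p - q| := by rw [← hw, Real.sqrt_sq_eq_abs]
    rcases abs_choice (s * w - p - q) with e' | e'
    · left
      rw [e, e']
      field_simp
      ring
    · right
      rw [e, e', mem_singleton_iff]
      field_simp
      ring
  refine (finite_iUnion fun t : {t : ι × ι × ι // T.adj t.1 t.2.1} => hS.biUnion fun x _ =>
    hS.biUnion fun y _ => key (1 - G t.1.1 t.1.2.1 ^ 2)
      ((G t.1.1 t.1.2.2 - G t.1.1 t.1.2.1 * G t.1.2.1 t.1.2.2) * x)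
      ((G t.1.2.1 t.1.2.2 - G t.1.1 t.1.2.1 * G t.1.1 t.1.2.2) * y)
      (gd (G t.1.1 t.1.2.1) (G t.1.1 t.1.2.2) (G t.1.2.1 t.1.2.2) * gd (G t.1.1 t.1.2.1) x y)
      (sub_pos.2 (h.sq_lt t.2)).ne').subset ?_
  rintro w ⟨i, j, k, a, x, hx, y, hy, e⟩
  exact mem_iUnion.2 ⟨⟨(i, j, k), a⟩, mem_biUnion hx (mem_biUnion hy e)⟩

theorem nx_iter_finite [Finite ι] {T : Tri ι} {G : ι → ι → ℝ} (h : IsMet T G) {S : Set ℝ}
    (hS : S.Finite) (n : ℕ) : ((nx T G)^[n] S).Finite := by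
  induction n with
  | zero => exact hS
  | succ n ih => rw [Function.iterate_succ_apply']; exact nx_finite h ih

theorem sub_nx_iter (T : Tri ι) (G : ι → ι → ℝ) (S : Set ℝ) (n : ℕ) : S ⊆ (nx T G)^[n] S := by
  induction n with
  | zero => exact subset_rfl
  | succ n ih => rw [Function.iterate_succ_apply']; exact ih.trans subset_union_left

theorem mem_nx {T : Tri ι} {G : ι → ι → ℝ} (h : IsMet T G) {D : ι → E3} {i j k : ι}
    (f : T.F i j k) (d : Dev G D i j k) {S : Set ℝ} {Z : E3} (z : inner ℝ Z Z = 1)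
    (hi : inner ℝ Z (D i) ∈ S) (hj : inner ℝ Z (D j) ∈ S) : inner ℝ Z (D k) ∈ nx T G S := by
  refine Or.inr ⟨i, j, k, ⟨k, f⟩, _, hi, _, hj, ?_⟩
  have := third z (dev_unit h d (m := i) (by simp)) (dev_unit h d (m := j) (by simp))
    (dev_unit h d (m := k) (by simp))
  rwa [d.1 i j (by simp) (by simp), d.1 i k (by simp) (by simp), d.1 j k (by simp) (by simp)]
    at this

variable [Fintype ι] [DecidableEq ι]

theorem lin_three {l : ι → ℝ} {i j k : ι} (ij : i ≠ j) (jk : j ≠ k) (ik : i ≠ k)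
    (h : Sp l i j k) (D : ι → E3) : lin D l = l i • D i + l j • D j + l k • D k := by
  unfold lin
  rw [← Finset.sum_subset (Finset.subset_univ {i, j, k}) (fun m _ hm => ?_)]
  · rw [Finset.sum_insert (by simp [ij, ik]), Finset.sum_pair jk, add_assoc]
  · have : l m = 0 := by
      by_contra e
      exact hm (by simpa using h m e)
    simp [this]

theorem lin_face {T : Tri ι} {l : ι → ℝ} {i j k : ι} (f : T.F i j k) (h : Sp l i j k)
    (D : ι → E3) : lin D l = l i • D i + l j • D j + l k • D k :=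
  lin_three (T.ne f) (Tri.ne23 f) (Tri.ne13 f) h D

theorem lin_single (D : ι → E3) (b : ι) : lin D (Pi.single b 1) = D b := by
  simp [lin, Pi.single_apply]

/-- `D` develops the path near `t` onto the segment. -/
def Gd (T : Tri ι) (G : ι → ι → ℝ) (c : ℝ → ι → ℝ) (X Y : E3) (D : ι → E3) (t : ℝ) : Prop :=
  Adm T G (c t) D ∧ ∀ᶠ s in 𝓝 t, lin D (c s) = seg X Y s

def On (c : ℝ → ι → ℝ) (X Y : E3) (D : ι → E3) (i j k : ι) (s : ℝ) : Prop :=
  Sp (c s) i j k ∧ lin D (c s) = seg X Y s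

/-- A geodesic from `a` to `b` that is developed onto the segment from `X` to `Y`. -/
structure Geo (T : Tri ι) (G : ι → ι → ℝ) (c : ℝ → ι → ℝ) (X Y : E3) (a b : ι) : Prop where
  met : IsMet T G
  cont : ContinuousOn c (Icc 0 1)
  mem : ∀ t ∈ Icc (0 : ℝ) 1, c t ∈ T.cone
  nv : ∀ t ∈ Ioo (0 : ℝ) 1, NV (c t)
  good : ∀ t ∈ Ioo (0 : ℝ) 1, ∃ D, Gd T G c X Y D t
  ind : cr3 X Y ≠ 0
  ux : inner ℝ X X = 1
  uy : inner ℝ Y Y = 1
  e0 : c 0 = Pi.single a 1
  e1 : c 1 = Pi.single b 1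

/-- At time `t` the path crosses the edge `ij` into the face on its positive side. -/
def Sta (T : Tri ι) (G : ι → ι → ℝ) (c : ℝ → ι → ℝ) (X Y : E3) (D : ι → E3) (i j : ι) (t : ℝ) :
    Prop :=
  t ∈ Ioo (0 : ℝ) 1 ∧ Gd T G c X Y D t ∧ T.adj i j ∧ (∀ m, c t m ≠ 0 → m = i ∨ m = j) ∧
    0 < d3 (D i) (D j) (Y - X)

variable {T : Tri ι} {G : ι → ι → ℝ} {c : ℝ → ι → ℝ} {X Y : E3} {a b i j k : ι} {D : ι → E3}
  {t : ℝ}

omit [DecidableEq ι] in
theorem Gd.rev {c' : ℝ → ι → ℝ} (hc : ∀ s, c' s = c (1 - s)) (h : Gd T G c X Y D t) :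
    Gd T G c' Y X D (1 - t) := by
  refine ⟨by rw [hc, sub_sub_cancel]; exact h.1, ?_⟩
  have : Tendsto (fun s : ℝ => 1 - s) (𝓝 (1 - t)) (𝓝 t) :=
    Continuous.tendsto' (by fun_prop) _ _ (sub_sub_cancel _ _)
  refine (this.eventually h.2).mono fun s e => ?_
  rw [hc, e, seg_rev]

omit [DecidableEq ι] in
theorem Sta.rev {c' : ℝ → ι → ℝ} (hc : ∀ s, c' s = c (1 - s)) (h : Sta T G c X Y D i j t) :
    Sta T G c' Y X D j i (1 - t) := by
  obtain ⟨ht, g, e, s, d⟩ := h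
  refine ⟨⟨by linarith [ht.2], by linarith [ht.1]⟩, g.rev hc, e.symm, fun m hm => ?_, ?_⟩
  · rw [hc, sub_sub_cancel] at hm
    exact (s m hm).symm
  · have : d3 (D j) (D i) (X - Y) = d3 (D i) (D j) (Y - X) := by
      simp [d3]
      ring
    rwa [this]

theorem Geo.rev (h : Geo T G c X Y a b) : Geo T G (fun s => c (1 - s)) Y X b a where
  met := h.met
  cont := h.cont.comp (by fun_prop) fun s hs => ⟨by linarith [hs.2], by linarith [hs.1]⟩
  mem t ht := h.mem _ ⟨by linarith [ht.2], by linarith [ht.1]⟩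
  nv t ht := h.nv _ ⟨by linarith [ht.2], by linarith [ht.1]⟩
  good t ht := by
    obtain ⟨D, g⟩ := h.good (1 - t) ⟨by linarith [ht.2], by linarith [ht.1]⟩
    have := g.rev (c' := fun s => c (1 - s)) fun _ => rfl
    rw [sub_sub_cancel] at this
    exact ⟨D, this⟩
  ind := fun e => h.ind (by
    have : cr3 X Y = -cr3 Y X := by apply ext3 <;> simp [cr3] <;> ring
    rw [this, e, neg_zero])
  ux := h.uy
  uy := h.ux
  e0 := by simpa using h.e1
  e1 := by simpa using h.e0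

theorem Geo.ev_ne (h : Geo T G c X Y a b) (ht : t ∈ Ioo (0 : ℝ) 1) {m : ι} (hm : c t m ≠ 0) :
    ∀ᶠ s in 𝓝 t, c s m ≠ 0 :=
  ((continuous_apply m).continuousAt.comp
    (h.cont.continuousAt (Icc_mem_nhds ht.1 ht.2))).eventually_ne hm

theorem Geo.loc_edge (h : Geo T G c X Y a b) (ht : t ∈ Ioo (0 : ℝ) 1) (g : Gd T G c X Y D t)
    (f : T.F i j k) (sp : Sp (c t) i j k) (k0 : c t k = 0) (dir : 0 ≤ d3 (D i) (D j) (Y - X)) :
    ∀ᶠ s in 𝓝[>] t, Sp (c s) i j k := by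
  have s2 : ∀ m, c t m ≠ 0 → m = i ∨ m = j := fun m hm => by
    have := sp m hm
    grind
  obtain ⟨ci, cj⟩ := nv_two (h.nv t ht) s2
  obtain ⟨p, f'⟩ := T.twin f
  have dv : Dev G D j i p := g.1 _ _ _ f' fun m hm => by
    have := s2 m hm
    grind
  have z : d3 (D i) (D j) (seg X Y t) = 0 := by
    rw [← g.2.self_of_nhds, lin_face f sp, k0]
    simp [d3]
    ring
  filter_upwards [nhdsWithin_le_nhds (h.ev_ne ht ci), nhdsWithin_le_nhds (h.ev_ne ht cj),
    nhdsWithin_le_nhds g.2, nhdsWithin_le_nhds (Icc_mem_nhds ht.1 ht.2), self_mem_nhdsWithin]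
    with s si sj e hs st
  obtain ⟨nn, x, y, w, fs, ss⟩ := h.mem s hs
  rcases faces_two f f' fs (ss i si) (ss j sj) with r | r
  · exact sp_rot r ss
  · have s3 : Sp (c s) j i p := sp_rot r ss
    have e1 := d3_seg (D i) (D j) X Y s t
    have e2 : d3 (D i) (D j) (seg X Y s) = -(c s p * d3 (D j) (D i) (D p)) := by
      rw [← e, lin_face f' s3]
      simp [d3]
      ring
    have e3 : c s p = 0 := by
      refine le_antisymm (le_of_mul_le_mul_right ?_ dv.2) (nn p)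
      have := mul_nonneg (sub_pos.2 (show t < s from st)).le dir
      linarith
    intro m hm
    have := s3 m hm
    grind

theorem Geo.loc (h : Geo T G c X Y a b) (ht : t ∈ Ioo (0 : ℝ) 1) (g : Gd T G c X Y D t)
    (f : T.F i j k) (sp : Sp (c t) i j k) (d1 : c t k = 0 → 0 ≤ d3 (D i) (D j) (Y - X))
    (d2 : c t i = 0 → 0 ≤ d3 (D j) (D k) (Y - X)) (d3' : c t j = 0 → 0 ≤ d3 (D k) (D i) (Y - X)) :
    ∀ᶠ s in 𝓝[>] t, On c X Y D i j k s := by
  refine Eventually.and ?_ (nhdsWithin_le_nhds g.2)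
  by_cases ck : c t k = 0
  · exact h.loc_edge ht g f sp ck (d1 ck)
  by_cases ci : c t i = 0
  · exact (h.loc_edge ht g (T.cyc f) sp.cyc ci (d2 ci)).mono fun s e => e.cyc.cyc
  by_cases cj : c t j = 0
  · exact (h.loc_edge ht g (Tri.cyc2 f) sp.cyc.cyc cj (d3' cj)).mono fun s e => e.cyc
  filter_upwards [nhdsWithin_le_nhds (h.ev_ne ht ci), nhdsWithin_le_nhds (h.ev_ne ht cj),
    nhdsWithin_le_nhds (h.ev_ne ht ck), nhdsWithin_le_nhds (Icc_mem_nhds ht.1 ht.2)]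
    with s si sj sk hs
  obtain ⟨-, x, y, w, -, ss⟩ := h.mem s hs
  intro m hm
  have := ss i si
  have := ss j sj
  have := ss k sk
  have := ss m hm
  have := T.ne f
  have := Tri.ne23 f
  have := Tri.ne13 f
  grind

theorem dev_agree {D' : ι → E3} (f : T.F i j k) (d : Dev G D i j k) (d' : Dev G D' i j k)
    {l l' : ι → ℝ} (s : Sp l i j k) (s' : Sp l' i j k) (e : lin D l = lin D' l)
    (e' : lin D l' = lin D' l') (hne : cr3 (lin D l) (lin D l') ≠ 0) : D' i = D i := by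
  refine (agree (A := D i) (B := D j) (C := D k) (A' := D' i) (B' := D' j) (C' := D' k)
    ?_ ?_ ?_ ?_ ?_ ?_ d.2 d'.2 (lin_face f s D) (e.trans (lin_face f s D'))
    (lin_face f s' D) (e'.trans (lin_face f s' D')) hne).symm <;>
  rw [d.1 _ _ (by simp) (by simp), d'.1 _ _ (by simp) (by simp)]

omit [DecidableEq ι] in
theorem exit_state (ht : t ∈ Ioo (0 : ℝ) 1) (g : Gd T G c X Y D t) (f : T.F i j k)
    (sp : Sp (c t) i j k) (k0 : c t k = 0) (dir : d3 (D i) (D j) (Y - X) < 0) :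
    Sta T G c X Y D j i t := by
  refine ⟨ht, g, Tri.adj21 f, fun m hm => ?_, by rw [d3_swap12]; linarith⟩
  have := sp m hm
  grind

/-- The path is followed through a face until it ends or leaves through an edge. -/
theorem Geo.ext (h : Geo T G c X Y a b) (ht : t ∈ Ioo (0 : ℝ) 1) (f : T.F i j k)
    (dv : Dev G D i j k) (o : On c X Y D i j k t) (ev : ∀ᶠ s in 𝓝[>] t, On c X Y D i j k s) :
    ((b = i ∨ b = j ∨ b = k) ∧ Y = D b) ∨ ∃ s D', t < s ∧ D' i = D i ∧ D' j = D j ∧ D' k = D k ∧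
      (Sta T G c X Y D' j i s ∨ Sta T G c X Y D' k j s ∨ Sta T G c X Y D' i k s) := by
  by_contra hn
  rw [not_or] at hn
  have cl : IsClosed ({s | On c X Y D i j k s} ∩ Icc t 1) := by
    have c1 : IsClosed {q : (ι → ℝ) × ℝ | Sp q.1 i j k ∧ lin D q.1 = seg X Y q.2} := by
      refine IsClosed.inter (s₁ := {q : (ι → ℝ) × ℝ | Sp q.1 i j k}) ?_
        (isClosed_eq (by unfold lin; fun_prop) (by unfold seg; fun_prop))
      have : {q : (ι → ℝ) × ℝ | Sp q.1 i j k} =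
          ⋂ m : {m // ¬ (m = i ∨ m = j ∨ m = k)}, {q | q.1 m.1 = 0} := by
        ext q
        simp only [Sp, mem_ofPred_eq, mem_iInter, Subtype.forall]
        exact forall_congr' fun m => not_imp_comm
      rw [this]
      exact isClosed_iInter fun m => isClosed_eq (by fun_prop) (by fun_prop)
    rw [inter_comm]
    exact ((h.cont.mono (Icc_subset_Icc_left ht.1.le)).prodMk
      continuousOn_id).preimage_isClosed_of_isClosed isClosed_Icc c1
  have sub := cl.Icc_subset_of_forall_mem_nhdsGT_of_Icc_subset o (fun s hs ss => ?_)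
  · obtain ⟨o1, o2⟩ := sub ⟨ht.2.le, le_rfl⟩
    rw [h.e1] at o1 o2
    refine hn.1 ⟨o1 b (by simp), ?_⟩
    rw [lin_single] at o2
    simp [o2, seg]
  rcases hs.1.eq_or_lt with rfl | lt
  · exact ev
  have hs' : s ∈ Ioo (0 : ℝ) 1 := ⟨ht.1.trans lt, hs.2⟩
  obtain ⟨D', g⟩ := h.good s hs'
  have os : On c X Y D i j k s := ss ⟨lt.le, le_rfl⟩
  have dv' : Dev G D' i j k := g.1 _ _ _ f os.1
  obtain ⟨r, r1, r2⟩ : ∃ r, lin D' (c r) = seg X Y r ∧ r ∈ Ioo t s :=
    ((g.2.filter_mono (nhdsWithin_le_nhds (s := Iio s))).and (Ioo_mem_nhdsLT lt)).exists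
  have or : On c X Y D i j k r := ss ⟨r2.1.le, r2.2.le⟩
  have hne : cr3 (lin D (c s)) (lin D (c r)) ≠ 0 := by
    rw [os.2, or.2, cr3_seg]
    exact smul_ne_zero (sub_ne_zero.2 r2.2.ne) h.ind
  have e1 := os.2.trans g.2.self_of_nhds.symm
  have e2 := or.2.trans r1.symm
  have ai := dev_agree f dv dv' os.1 or.1 e1 e2 hne
  have aj := dev_agree (T.cyc f) dv.cyc dv'.cyc os.1.cyc or.1.cyc e1 e2 hne
  have ak := dev_agree (Tri.cyc2 f) dv.cyc.cyc dv'.cyc.cyc os.1.cyc.cyc or.1.cyc.cyc e1 e2 hne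
  have no := fun z => hn.2 ⟨s, D', lt, ai, aj, ak, z⟩
  refine (h.loc hs' g f os.1 (fun z => not_lt.1 fun w => no (Or.inl ?_))
    (fun z => not_lt.1 fun w => no (Or.inr (Or.inl ?_)))
    (fun z => not_lt.1 fun w => no (Or.inr (Or.inr ?_)))).mono fun r' o' => ⟨o'.1, ?_⟩
  · exact exit_state hs' g f os.1 z w
  · exact exit_state hs' g (T.cyc f) os.1.cyc z w
  · exact exit_state hs' g (Tri.cyc2 f) os.1.cyc.cyc z w
  · rw [← o'.2, lin_face f o'.1, lin_face f o'.1, ai, aj, ak]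

theorem Geo.half (h : Geo T G c X Y a b) (ht : t ∈ Ioo (0 : ℝ) 1) (g : Gd T G c X Y D t)
    (f : T.F i j k) (sp : Sp (c t) i j k) :
    ((b = i ∨ b = j ∨ b = k) ∧ Y = D b) ∨ ∃ D' i' j' s, Sta T G c X Y D' i' j' s := by
  by_contra hn
  rw [not_or] at hn
  have no := fun i' j' z => hn.2 ⟨D, i', j', t, z⟩
  rcases h.ext ht f (g.1 _ _ _ f sp) ⟨sp, g.2.self_of_nhds⟩ (h.loc ht g f sp
    (fun z => not_lt.1 fun w => no _ _ (exit_state ht g f sp z w))
    (fun z => not_lt.1 fun w => no _ _ (exit_state ht g (T.cyc f) sp.cyc z w))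
    (fun z => not_lt.1 fun w => no _ _ (exit_state ht g (Tri.cyc2 f) sp.cyc.cyc z w))) with
    e | ⟨s, D', -, -, -, -, e | e | e⟩
  exacts [hn.1 e, hn.2 ⟨_, _, _, _, e⟩, hn.2 ⟨_, _, _, _, e⟩, hn.2 ⟨_, _, _, _, e⟩]

theorem Geo.sta (h : Geo T G c X Y a b) (s : Sta T G c X Y D i j t) :
    0 < c t i ∧ 0 < c t j ∧ seg X Y t = c t i • D i + c t j • D j := by
  obtain ⟨ht, g, ⟨k, f⟩, sp, -⟩ := s
  obtain ⟨ci, cj⟩ := nv_two (h.nv t ht) sp
  have nn := (h.mem t ⟨ht.1.le, ht.2.le⟩).1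
  refine ⟨(nn i).lt_of_ne' ci, (nn j).lt_of_ne' cj, ?_⟩
  have k0 : c t k = 0 := by
    by_contra e
    have := sp k e
    have := Tri.ne23 f
    have := Tri.ne13 f
    grind
  rw [← g.2.self_of_nhds, lin_face f (fun m hm => by have := sp m hm; grind), k0, zero_smul,
    add_zero]

/-- The angular part of the potential. -/
noncomputable def zf (c : ℝ → ι → ℝ) (X Y : E3) (D : ι → E3) (i j : ι) (t : ℝ) : ℝ :=
  if c t j ≤ c t i then cs (cr3 (D i) X) (cr3 (D i) (seg X Y t))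
  else cs (cr3 (D j) X) (cr3 (D j) (seg X Y t))

omit [Fintype ι] [DecidableEq ι] in
theorem zf_abs : |zf c X Y D i j t| ≤ 1 := by
  unfold zf
  split_ifs <;> exact cs_abs _ _

/-- The walk through the faces ends after a bounded number of steps. -/
theorem Geo.term (h : Geo T G c X Y a b) {μ : ℝ} (hμ : 0 < μ)
    (hm : ∀ i j k D, Dev G D i j k → μ ≤ d3 (D i) (D j) (D k)) {Z : E3} (hZ : inner ℝ Z Z = 1)
    (n : ℕ) : ∀ (D : ι → E3) (i j : ι) (t : ℝ) (S : Set ℝ), Sta T G c X Y D i j t →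
      (2 / ((μ / 4) ^ 2 / 2) + 1) * cs X (seg X Y t) + zf c X Y D i j t +
        (2 / ((μ / 4) ^ 2 / 2) + 2) < n * ((μ / 4) ^ 2 / 2) →
      inner ℝ Z (D i) ∈ S → inner ℝ Z (D j) ∈ S → inner ℝ Z Y ∈ (nx T G)^[n] S ∧
        ∃ D' i' j' t', Sta T G c X Y D' i' j' t' ∧ inner ℝ Y (D' i') = G b i' ∧
          inner ℝ Y (D' j') = G b j' := by
  induction n with
  | zero =>
    intro D i j t S _ hp
    have K0 : 0 < 2 / ((μ / 4) ^ 2 / 2) + 1 := by positivity
    have := mul_le_mul_of_nonneg_left (abs_le.1 (cs_abs X (seg X Y t))).1 K0.le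
    have := (abs_le.1 (zf_abs (c := c) (X := X) (Y := Y) (D := D) (i := i) (j := j) (t := t))).1
    simp only [Nat.cast_zero, zero_mul] at hp
    linarith
  | succ n ih =>
    intro D i j t S s hp si sj
    obtain ⟨ci, cj, eU⟩ := h.sta s
    obtain ⟨ht, g, ⟨k, f⟩, sp, dir⟩ := id s
    have sp' : Sp (c t) i j k := fun m hm => by
      have := sp m hm
      grind
    have dv : Dev G D i j k := g.1 _ _ _ f sp'
    have sk := mem_nx h.met f dv hZ si sj
    have ui := norm_of_inner (dev_unit h.met dv (m := i) (by simp))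
    have uj := norm_of_inner (dev_unit h.met dv (m := j) (by simp))
    have uk := norm_of_inner (dev_unit h.met dv (m := k) (by simp))
    have hd := hm _ _ _ _ dv
    rw [Function.iterate_succ_apply]
    push_cast at hp
    rcases h.ext ht f dv ⟨sp', g.2.self_of_nhds⟩ (h.loc ht g f sp' (fun _ => dir.le)
      (fun z => absurd z ci.ne') (fun z => absurd z cj.ne')) with
      ⟨hb, e⟩ | ⟨r, D', lt, ai, aj, ak, e | e | e⟩
    · refine ⟨sub_nx_iter T G _ n ?_, D, i, j, t, s, ?_, ?_⟩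
      · rw [e]
        rcases hb with rfl | rfl | rfl
        exacts [Or.inl si, Or.inl sj, sk]
      · rw [e, dv.1 b i hb (by simp)]
      · rw [e, dv.1 b j hb (by simp)]
    · have := e.2.2.2.2
      rw [ai, aj, d3_swap12] at this
      linarith
    · obtain ⟨ck', cj', eU'⟩ := h.sta e
      rw [ak, aj, add_comm] at eU'
      rw [add_comm] at eU
      have p := pivot (z := zf c X Y D i j t) (z' := zf c X Y D' k j r) uj ui uk hμ
        (by rw [d3_swap12, abs_neg]; exact hd.trans (le_abs_self _)) cj ci cj' ck' ht.1 lt eU eU'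
        (by rw [d3_swap12]; exact neg_ne_zero.2 dir.ne') zf_abs zf_abs
        (fun z => by rw [zf, if_neg (not_le.2 z)]) (fun z => by rw [zf, if_neg (not_le.2 z), aj])
      exact ih D' k j r _ e (by linarith) (ak ▸ sk) (aj ▸ Or.inl sj)
    · obtain ⟨ci', ck', eU'⟩ := h.sta e
      rw [ak, ai] at eU'
      have p := pivot (z := zf c X Y D i j t) (z' := zf c X Y D' i k r) ui uj uk hμ
        (hd.trans (le_abs_self _)) ci cj ci' ck' ht.1 lt eU eU' dir.ne' zf_abs zf_abs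
        (fun z => by rw [zf, if_pos z.le]) (fun z => by rw [zf, if_pos z.le, ai])
      exact ih D' i k r _ e (by linarith) (ai ▸ Or.inl si) (ak ▸ sk)

theorem exists_bound (T : Tri ι) (G : ι → ι → ℝ) : ∃ N : ℕ, ∀ (c : ℝ → ι → ℝ) (X Y : E3)
    (a b : ι), Geo T G c X Y a b → inner ℝ X Y ∈ (nx T G)^[N] (range fun p : ι × ι => G p.1 p.2) := by
  obtain ⟨μ, hμ, hm⟩ := exists_mu T G
  have ε0 : 0 < (μ / 4) ^ 2 / 2 := by positivity
  obtain ⟨N, hN⟩ := exists_nat_gt (2 * (2 / ((μ / 4) ^ 2 / 2) + 2) / ((μ / 4) ^ 2 / 2))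
  rw [div_lt_iff₀ ε0] at hN
  have bd : ∀ (c : ℝ → ι → ℝ) (X Y : E3) (D : ι → E3) (i j : ι) (t : ℝ),
      (2 / ((μ / 4) ^ 2 / 2) + 1) * cs X (seg X Y t) + zf c X Y D i j t +
        (2 / ((μ / 4) ^ 2 / 2) + 2) < N * ((μ / 4) ^ 2 / 2) := by
    intro c X Y D i j t
    have K0 : 0 < 2 / ((μ / 4) ^ 2 / 2) + 1 := by positivity
    have := mul_le_mul_of_nonneg_left (abs_le.1 (cs_abs X (seg X Y t))).2 K0.le
    have := (abs_le.1 (zf_abs (c := c) (X := X) (Y := Y) (D := D) (i := i) (j := j) (t := t))).2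
    linarith
  refine ⟨N, fun c X Y a b h => ?_⟩
  have back : ∀ s, c s = (fun s => c (1 - s)) (1 - s) := fun s => by simp
  have main : ∀ D i j t, Sta T G (fun s => c (1 - s)) Y X D i j t →
      inner ℝ X Y ∈ (nx T G)^[N] (range fun p : ι × ι => G p.1 p.2) := by
    intro D i j t s
    obtain ⟨-, D', i', j', t', s', e1, e2⟩ :=
      h.rev.term hμ hm h.ux N D i j t univ s (bd _ _ _ _ _ _ _) trivial trivial
    exact (h.term hμ hm h.ux N D' j' i' _ (range fun p : ι × ι => G p.1 p.2) (s'.rev back)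
      (bd _ _ _ _ _ _ _) ⟨(a, j'), e2.symm⟩ ⟨(a, i'), e1.symm⟩).1
  have ht : (1 / 2 : ℝ) ∈ Ioo (0 : ℝ) 1 := by constructor <;> norm_num
  obtain ⟨D, g⟩ := h.good _ ht
  obtain ⟨-, i, j, k, f, sp⟩ := h.mem _ ⟨ht.1.le, ht.2.le⟩
  rcases h.half ht g f sp with ⟨hb, eb⟩ | ⟨D', i', j', s, st⟩
  · rcases h.rev.half (t := 1 - 1 / 2) (by constructor <;> norm_num) (g.rev fun _ => rfl) f
      (by rw [sub_sub_cancel]; exact sp) with ⟨ha, ea⟩ | ⟨D', i', j', s, st⟩
    · refine sub_nx_iter T G _ N ⟨(a, b), ?_⟩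
      rw [ea, eb, (g.1 _ _ _ f sp).1 a b ha hb]
    · exact main _ _ _ _ st
  · exact main _ _ _ _ (st.rev fun _ => rfl)

omit [Fintype ι] in
/-- One development for both faces at an edge. -/
theorem exists_both (h : IsMet T G) (e : T.adj a b) : ∃ D : ι → E3, inner ℝ (D a) (D a) = 1 ∧
    inner ℝ (D b) (D b) = 1 ∧ inner ℝ (D a) (D b) = G a b ∧ cr3 (D a) (D b) ≠ 0 ∧
    ∀ y : ι → ℝ, y a ≠ 0 → y b ≠ 0 → Adm T G y D := by
  obtain ⟨p, f⟩ := e
  obtain ⟨q, f'⟩ := T.twin f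
  obtain ⟨D1, d1⟩ := h.2.2 _ _ _ f
  obtain ⟨D2, d2⟩ := h.2.2 _ _ _ f'
  have ua := dev_unit h d1 (m := a) (by simp)
  have ub := dev_unit h d1 (m := b) (by simp)
  have e2 := d3_gd (dev_unit h d2 (m := b) (by simp)) (dev_unit h d2 (m := a) (by simp))
    (dev_unit h d2 (m := q) (by simp))
  rw [d2.1 b a (by simp) (by simp), d2.1 b q (by simp) (by simp), d2.1 a q (by simp) (by simp)]
    at e2
  obtain ⟨Q, q1, q2, q3, q4⟩ := exists_third ub ua (d1.1 b a (by simp) (by simp))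
    (h.sq_lt (Tri.adj12 f')) d2.2 e2
  have qa : a ≠ q := Tri.ne23 f'
  have qb : b ≠ q := Tri.ne13 f'
  have qp : p ≠ q := (Tri.twin_ne f f').symm
  have n1 : Dev G (Function.update D1 q Q) a b p := by
    refine dev_mk h ?_ ?_ ?_ ?_ ?_ ?_ ?_ <;>
      simp only [Function.update_of_ne qa, Function.update_of_ne qb, Function.update_of_ne qp]
    exacts [ua, ub, dev_unit h d1 (by simp), d1.1 _ _ (by simp) (by simp),
      d1.1 _ _ (by simp) (by simp), d1.1 _ _ (by simp) (by simp), d1.2]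
  have n2 : Dev G (Function.update D1 q Q) b a q := by
    refine dev_mk h ?_ ?_ ?_ ?_ ?_ ?_ ?_ <;>
      simp only [Function.update_of_ne qa, Function.update_of_ne qb, Function.update_self]
    exacts [ub, ua, q3, d1.1 _ _ (by simp) (by simp), q1, q2, q4]
  refine ⟨Function.update D1 q Q, dev_unit h n1 (by simp), dev_unit h n1 (by simp),
    n1.1 _ _ (by simp) (by simp), cr3_ne n1.2.ne', fun y ya yb x y' z g s => ?_⟩
  rcases faces_two f f' g (s a ya) (s b yb) with r | r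
  exacts [dev_rot r n1, dev_rot r n2]

theorem geo_of_iso {T' : Tri ι} {G' : ι → ι → ℝ} {g : (ι → ℝ) → ι → ℝ} (h : IsMet T G)
    (h' : IsMet T' G') (iso : Iso1 T' G' T G g) (e : T'.adj a b) :
    ∃ c X Y, Geo T G c X Y a b ∧ inner ℝ X Y = G' a b := by
  obtain ⟨D', ua, ub, ab, ind, adm⟩ := exists_both h' e
  have ne := e.ne
  let y : ℝ → ι → ℝ := fun t => (1 - t) • Pi.single a 1 + t • Pi.single b 1
  have ya : ∀ t, y t a = 1 - t := fun t => by simp [y, ne]
  have yb : ∀ t, y t b = t := fun t => by simp [y, ne.symm]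
  have ys : ∀ t m, y t m ≠ 0 → m = a ∨ m = b := fun t m hm => by
    by_contra k
    rw [not_or] at k
    exact hm (by simp [y, k.1, k.2])
  have yc : Continuous y := by fun_prop
  obtain ⟨p, f⟩ := e
  have sp : ∀ t, Sp (y t) a b p := fun t m hm => by
    have := ys t m hm
    grind
  have ym : ∀ t ∈ Icc (0 : ℝ) 1, y t ∈ T'.cone := fun t ht => by
    refine ⟨fun m => ?_, a, b, p, f, sp t⟩
    by_cases k : y t m = 0
    · exact k.ge
    rcases ys t m k with rfl | rfl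
    · rw [ya]
      linarith [ht.2]
    · rw [yb]
      exact ht.1
  have yn : ∀ t ∈ Ioo (0 : ℝ) 1, y t a ≠ 0 ∧ y t b ≠ 0 := fun t ht => by
    rw [ya, yb]
    exact ⟨(sub_pos.2 ht.2).ne', ht.1.ne'⟩
  have yl : ∀ t, lin D' (y t) = seg (D' a) (D' b) t := fun t => by
    have : y t p = 0 := by
      by_contra k
      have := ys t p k
      have := Tri.ne23 f
      have := Tri.ne13 f
      grind
    rw [lin_face f (sp t), this, ya, yb, zero_smul, add_zero, seg]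
  refine ⟨fun t => g (y t), D' a, D' b, ⟨h, iso.cont.comp yc.continuousOn ym,
    fun t ht => iso.maps (ym t ht), fun t ht => iso.nv _ (ym t ⟨ht.1.le, ht.2.le⟩)
      ⟨a, b, ne, yn t ht⟩, fun t ht => ?_, ind, ua, ub, ?_, ?_⟩, ab⟩
  · obtain ⟨D, a1, a2⟩ := iso.ct _ (ym t ⟨ht.1.le, ht.2.le⟩) ⟨a, b, ne, yn t ht⟩ D'
      (adm _ (yn t ht).1 (yn t ht).2)
    have tt : Tendsto y (𝓝 t) (𝓝[T'.cone] (y t)) :=
      tendsto_nhdsWithin_iff.2 ⟨yc.tendsto t, mem_of_superset (Icc_mem_nhds ht.1 ht.2) ym⟩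
    exact ⟨D, a1, (tt.eventually a2).mono fun s k => k.trans (yl s)⟩
  · simp [y, iso.vert]
  · simp [y, iso.vert]

end FinL

theorem stFin : StFin := by
  intro ι _ _ T G h
  obtain ⟨N, hN⟩ := FinL.exists_bound T G
  refine ⟨_, FinL.nx_iter_finite h (finite_range fun p : ι × ι => G p.1 p.2) N,
    fun T' G' g h' iso a b e => ?_⟩
  obtain ⟨c, X, Y, geo, r⟩ := FinL.geo_of_iso h h' iso e
  exact r ▸ hN c X Y a b geo

end Pool.Agent.Lib.MP_34b931_co.G
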