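import Pool.Agent.Lib.MP_34b931_co.H22Tri

/-! Vector lemmas for the finiteness of geodesic lengths. -/

namespace Pool.Agent.Lib.MP_34b931_co.G

open Filter Topology Set

namespace FinL

/-- Cosine of the angle between two vectors. -/
noncomputable def cs (e v : E3) : ℝ := inner ℝ e v / (‖e‖ * ‖v‖)

theorem cs_abs (e v : E3) : |cs e v| ≤ 1 := abs_real_inner_div_norm_mul_norm_le_one e v

theorem cs_btw {e v w : E3} {α β : ℝ} (he : e ≠ 0) (hv : v ≠ 0) (hw : w ≠ 0) (hα : 0 ≤ α)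
    (hβ : 0 ≤ β) (h : v = α • e + β • w) : cs e w + 1 - cs v w ≤ cs e v := by
  have a0 := norm_pos_iff.2 he
  have b0 := norm_pos_iff.2 hw
  have n0 := norm_pos_iff.2 hv
  have tri : 0 ≤ α * ‖e‖ + β * ‖w‖ - ‖v‖ := by
    have := norm_add_le (α • e) (β • w)
    rw [norm_smul, norm_smul, Real.norm_of_nonneg hα, Real.norm_of_nonneg hβ, ← h] at this
    linarith
  have k0 : 0 ≤ ‖e‖ * ‖w‖ + inner ℝ e w := by
    have := abs_real_inner_le_norm e w
    have := neg_abs_le (inner ℝ e w)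
    linarith
  have e1 : inner ℝ e v = α * ‖e‖ ^ 2 + β * inner ℝ e w := by
    rw [h, inner_add_right, real_inner_smul_right, real_inner_smul_right,
      real_inner_self_eq_norm_sq]
  have e2 : inner ℝ v w = α * inner ℝ e w + β * ‖w‖ ^ 2 := by
    rw [h, inner_add_left, real_inner_smul_left, real_inner_smul_left,
      real_inner_self_eq_norm_sq]
  have e3 : cs e v + cs v w - (cs e w + 1) =
      (α * ‖e‖ + β * ‖w‖ - ‖v‖) * (‖e‖ * ‖w‖ + inner ℝ e w) / (‖e‖ * ‖w‖ * ‖v‖) := by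
    unfold cs
    rw [e1, e2]
    field_simp
    ring
  have : 0 ≤ (α * ‖e‖ + β * ‖w‖ - ‖v‖) * (‖e‖ * ‖w‖ + inner ℝ e w) / (‖e‖ * ‖w‖ * ‖v‖) :=
    div_nonneg (mul_nonneg tri k0) (by positivity)
  linarith

theorem cs_le {p q W : E3} {m : ℝ} (hp : p ≠ 0) (hq : q ≠ 0) (hW : ‖W‖ = 1) (hm : 0 ≤ m)
    (h : m * (‖p‖ * ‖q‖) ≤ |d3 p q W|) : cs p q ≤ 1 - m ^ 2 / 2 := by
  have P0 : 0 < ‖p‖ * ‖q‖ := mul_pos (norm_pos_iff.2 hp) (norm_pos_iff.2 hq)
  have h1 : |d3 p q W| ≤ ‖cr3 p q‖ := by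
    have := abs_real_inner_le_norm (cr3 p q) W
    rwa [inner_cr3, hW, mul_one] at this
  have h2 : (m * (‖p‖ * ‖q‖)) ^ 2 ≤ ‖cr3 p q‖ ^ 2 :=
    pow_le_pow_left₀ (by positivity) (h.trans h1) 2
  have h3 : inner ℝ p q = cs p q * (‖p‖ * ‖q‖) := by
    unfold cs
    field_simp
  rw [norm_cr3, h3] at h2
  have h4 : m ^ 2 * (‖p‖ * ‖q‖) ^ 2 ≤ (1 - cs p q ^ 2) * (‖p‖ * ‖q‖) ^ 2 := by
    nlinarith
  have h5 := le_of_mul_le_mul_right h4 (pow_pos P0 2)
  nlinarith [sq_nonneg (1 - cs p q)]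

theorem cr3_add (a b c : E3) : cr3 a (b + c) = cr3 a b + cr3 a c := by
  apply ext3 <;> simp [cr3] <;> ring

theorem cr3_smul (a b : E3) (t : ℝ) : cr3 a (t • b) = t • cr3 a b := by
  apply ext3 <;> simp [cr3] <;> ring

theorem cr3_self (a : E3) : cr3 a a = 0 := by
  apply ext3 <;> simp [cr3] <;> ring

theorem cr3_ne {a b c : E3} (h : d3 a b c ≠ 0) : cr3 a b ≠ 0 := fun e => by
  rw [← inner_cr3, e, inner_zero_left] at h
  exact h rfl

theorem norm_cr3_le {a b : E3} (ha : ‖a‖ = 1) (hb : ‖b‖ = 1) : ‖cr3 a b‖ ≤ 1 := by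
  have := norm_cr3 a b
  rw [ha, hb] at this
  nlinarith [sq_nonneg (inner ℝ a b), norm_nonneg (cr3 a b)]

theorem norm_comb {a b : E3} (ha : ‖a‖ = 1) (hb : ‖b‖ = 1) {x y : ℝ} (hx : 0 < x) (hy : 0 < y) :
    ‖x • a + y • b‖ ≤ x + y := by
  have := norm_add_le (x • a) (y • b)
  rwa [norm_smul, norm_smul, Real.norm_of_nonneg hx.le, Real.norm_of_nonneg hy.le, ha, hb,
    mul_one, mul_one] at this

theorem comb_ne {V A B : E3} (h : d3 V A B ≠ 0) {x y : ℝ} (hy : 0 < y) : x • V + y • A ≠ 0 := by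
  intro e
  have : cr3 V (x • V + y • A) = y • cr3 V A := by
    rw [cr3_add, cr3_smul, cr3_smul, cr3_self, smul_zero, zero_add]
  rw [e, ← zero_smul ℝ V, cr3_smul, zero_smul] at this
  exact cr3_ne h ((smul_eq_zero.1 this.symm).resolve_left hy.ne')

/-- Crossing a triangle far from the pivot takes a definite angle. -/
theorem long {V A B : E3} {μ x y x' y' : ℝ} (hV : ‖V‖ = 1) (hA : ‖A‖ = 1) (hB : ‖B‖ = 1)
    (hμ : 0 < μ) (hd : μ ≤ |d3 V A B|) (hx : 0 < x) (hy : 0 < y) (hx' : 0 < x') (hy' : 0 < y')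
    (h : x ≤ y ∨ x' ≤ y') : cs (x • V + y • A) (x' • V + y' • B) ≤ 1 - (μ / 4) ^ 2 / 2 := by
  have d0 : d3 V A B ≠ 0 := abs_pos.1 (hμ.trans_le hd)
  have n1 := norm_comb hV hA hx hy
  have n2 := norm_comb hV hB hx' hy'
  have p0 := comb_ne d0 (x := x) hy
  have q0 := comb_ne (V := V) (A := B) (B := A) (by rw [d3_swap23]; exact neg_ne_zero.2 d0)
    (x := x') hy'
  have nn := mul_le_mul n1 n2 (norm_nonneg _) (by positivity)
  have key : ∀ (W : E3) (r : ℝ), ‖W‖ = 1 → 0 < r → (x + y) * (x' + y') ≤ 4 * r →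
      |d3 (x • V + y • A) (x' • V + y' • B) W| = r * |d3 V A B| →
      cs (x • V + y • A) (x' • V + y' • B) ≤ 1 - (μ / 4) ^ 2 / 2 := by
    intro W r hW hr h1 h2
    refine cs_le p0 q0 hW (by positivity) ?_
    rw [h2]
    nlinarith [mul_le_mul_of_nonneg_left hd hr.le, mul_le_mul_of_nonneg_left (nn.trans h1) hμ.le]
  have kV : |d3 (x • V + y • A) (x' • V + y' • B) V| = y * y' * |d3 V A B| := by
    rw [← abs_of_pos (mul_pos hy hy'), ← abs_mul]
    congr 1
    simp [d3]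
    ring
  have kB : |d3 (x • V + y • A) (x' • V + y' • B) B| = y * x' * |d3 V A B| := by
    rw [← abs_of_pos (mul_pos hy hx'), ← abs_mul, ← abs_neg]
    congr 1
    simp [d3]
    ring
  have kA : |d3 (x • V + y • A) (x' • V + y' • B) A| = x * y' * |d3 V A B| := by
    rw [← abs_of_pos (mul_pos hx hy'), ← abs_mul, ← abs_neg]
    congr 1
    simp [d3]
    ring
  rcases h with h | h
  · rcases le_total x' y' with h' | h'
    · exact key V _ hV (mul_pos hy hy') (by nlinarith) kV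
    · exact key B _ hB (mul_pos hy hx') (by nlinarith) kB
  · rcases le_total x y with h' | h'
    · exact key V _ hV (mul_pos hy hy') (by nlinarith) kV
    · exact key A _ hA (mul_pos hx hy') (by nlinarith) kA

/-- The corner of a triangle has a definite angle. -/
theorem corner {V A B : E3} {μ x y x' y' : ℝ} (hV : ‖V‖ = 1) (hA : ‖A‖ = 1) (hB : ‖B‖ = 1)
    (hμ : 0 < μ) (hd : μ ≤ |d3 V A B|) (hy : 0 < y) (hy' : 0 < y') :
    cs (cr3 V (x • V + y • A)) (cr3 V (x' • V + y' • B)) ≤ 1 - (μ / 4) ^ 2 / 2 := by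
  have d0 : d3 V A B ≠ 0 := abs_pos.1 (hμ.trans_le hd)
  have d1 : d3 V B A ≠ 0 := by rw [d3_swap23]; exact neg_ne_zero.2 d0
  simp only [cr3_add, cr3_smul, cr3_self, smul_zero, zero_add]
  refine cs_le (smul_ne_zero hy.ne' (cr3_ne d0)) (smul_ne_zero hy'.ne' (cr3_ne d1)) hV
    (by positivity) ?_
  have e : d3 (y • cr3 V A) (y' • cr3 V B) V = y * y' * (d3 V A B * ‖V‖ ^ 2) := by
    simp [d3, cr3, norm3]
    ring
  rw [e, hV, one_pow, mul_one, abs_mul, abs_of_pos (mul_pos hy hy'), norm_smul, norm_smul,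
    Real.norm_of_nonneg hy.le, Real.norm_of_nonneg hy'.le]
  have n := mul_le_mul (norm_cr3_le hV hA) (norm_cr3_le hV hB) (norm_nonneg _) zero_le_one
  have yy := mul_pos hy hy'
  nlinarith [mul_le_mul_of_nonneg_left hd yy.le, mul_le_mul_of_nonneg_left n (mul_pos yy hμ).le]

/-- The segment from `X` to `Y`. -/
noncomputable def seg (X Y : E3) (t : ℝ) : E3 := (1 - t) • X + t • Y

theorem seg_rev (X Y : E3) (t : ℝ) : seg Y X (1 - t) = seg X Y t := by
  simp only [seg, sub_sub_cancel]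
  exact add_comm _ _

theorem seg_btw (X Y : E3) {t t' : ℝ} (h : t' ≠ 0) :
    seg X Y t = (1 - t / t') • X + (t / t') • seg X Y t' := by
  apply ext3 <;> simp [seg] <;> field_simp <;> ring

theorem cr3_seg (X Y : E3) (s t : ℝ) : cr3 (seg X Y s) (seg X Y t) = (t - s) • cr3 X Y := by
  apply ext3 <;> simp [seg, cr3] <;> ring

theorem d3_seg (A B X Y : E3) (s t : ℝ) :
    d3 A B (seg X Y s) = d3 A B (seg X Y t) + (s - t) * d3 A B (Y - X) := by
  simp [seg, d3]
  ring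

/-- The potential drops by a definite amount when a triangle is crossed. -/
theorem pivot {X Y V A B : E3} {μ t t' x y x' y' z z' : ℝ} (hV : ‖V‖ = 1) (hA : ‖A‖ = 1)
    (hB : ‖B‖ = 1) (hμ : 0 < μ) (hd : μ ≤ |d3 V A B|) (hx : 0 < x) (hy : 0 < y) (hx' : 0 < x')
    (hy' : 0 < y') (ht : 0 < t) (htt : t < t') (h1 : seg X Y t = x • V + y • A)
    (h2 : seg X Y t' = x' • V + y' • B) (hX : d3 V A (Y - X) ≠ 0) (hz : |z| ≤ 1) (hz' : |z'| ≤ 1)
    (e1 : y < x → z = cs (cr3 V X) (cr3 V (seg X Y t)))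
    (e2 : y' < x' → z' = cs (cr3 V X) (cr3 V (seg X Y t'))) :
    (2 / ((μ / 4) ^ 2 / 2) + 1) * cs X (seg X Y t') + z' + (μ / 4) ^ 2 / 2 ≤
      (2 / ((μ / 4) ^ 2 / 2) + 1) * cs X (seg X Y t) + z := by
  have d0 : d3 V A B ≠ 0 := abs_pos.1 (hμ.trans_le hd)
  have d1 : d3 V B A ≠ 0 := by rw [d3_swap23]; exact neg_ne_zero.2 d0
  have t0 : 0 < t' := ht.trans htt
  have c1 : 0 ≤ 1 - t / t' := by rw [sub_nonneg, div_le_one t0]; exact htt.le
  have c2 : 0 ≤ t / t' := by positivity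
  have dX : d3 V X A ≠ 0 := by
    have k := d3_seg V A X Y 0 t
    have k1 : d3 V A (seg X Y t) = 0 := by rw [h1]; simp [d3]; ring
    have k2 : seg X Y 0 = X := by simp [seg]
    rw [k1, k2] at k
    rw [d3_swap23, k]
    simp [ht.ne', hX]
  have X0 : X ≠ 0 := by
    rintro rfl
    exact dX (by simp [d3])
  have p0 : seg X Y t ≠ 0 := h1 ▸ comb_ne d0 hy
  have q0 : seg X Y t' ≠ 0 := h2 ▸ comb_ne d1 hy'
  have b1 := cs_btw X0 p0 q0 c1 c2 (seg_btw X Y t0.ne')
  set ε := (μ / 4) ^ 2 / 2 with hε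
  have ε0 : 0 < ε := by positivity
  have K0 : 0 < 2 / ε + 1 := by positivity
  by_cases h : x ≤ y ∨ x' ≤ y'
  · have l := long hV hA hB hμ hd hx hy hx' hy' h
    rw [← h1, ← h2, ← hε] at l
    have k : (2 / ε + 1) * ε = 2 + ε := by field_simp
    have := mul_le_mul_of_nonneg_left
      (show cs X (seg X Y t') + ε ≤ cs X (seg X Y t) by linarith) K0.le
    have := abs_le.1 hz
    have := abs_le.1 hz'
    nlinarith
  · push Not at h
    have l := corner (x := x) (x' := x') hV hA hB hμ hd hy hy'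
    rw [← h1, ← h2, ← hε] at l
    have r1 : cr3 V (seg X Y t) ≠ 0 := by
      rw [h1, cr3_add, cr3_smul, cr3_smul, cr3_self, smul_zero, zero_add]
      exact smul_ne_zero hy.ne' (cr3_ne d0)
    have r2 : cr3 V (seg X Y t') ≠ 0 := by
      rw [h2, cr3_add, cr3_smul, cr3_smul, cr3_self, smul_zero, zero_add]
      exact smul_ne_zero hy'.ne' (cr3_ne d1)
    have b2 := cs_btw (cr3_ne dX) r1 r2 c1 c2 (by
      rw [seg_btw X Y (t := t) t0.ne', cr3_add, cr3_smul, cr3_smul])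
    have := (abs_le.1 (cs_abs (seg X Y t) (seg X Y t'))).2
    have := mul_le_mul_of_nonneg_left
      (show cs X (seg X Y t') ≤ cs X (seg X Y t) by linarith) K0.le
    rw [e1 h.1, e2 h.2]
    linarith

theorem d3_eq {A B C A' B' C' : E3} (aa : inner ℝ A A = inner ℝ A' A')
    (bb : inner ℝ B B = inner ℝ B' B') (cc : inner ℝ C C = inner ℝ C' C')
    (ab : inner ℝ A B = inner ℝ A' B') (ac : inner ℝ A C = inner ℝ A' C')
    (bc : inner ℝ B C = inner ℝ B' C') (p : 0 < d3 A B C) (p' : 0 < d3 A' B' C') :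
    d3 A B C = d3 A' B' C' := by
  refine (pow_left_inj₀ p.le p'.le two_ne_zero).1 ?_
  rw [d3_sq, d3_sq, aa, bb, cc, ab, ac, bc]

/-- Two congruent oriented triples that agree on two independent combinations coincide. -/
theorem agree {A B C A' B' C' : E3} {x1 y1 z1 x2 y2 z2 : ℝ} (aa : inner ℝ A A = inner ℝ A' A')
    (bb : inner ℝ B B = inner ℝ B' B') (cc : inner ℝ C C = inner ℝ C' C')
    (ab : inner ℝ A B = inner ℝ A' B') (ac : inner ℝ A C = inner ℝ A' C')
    (bc : inner ℝ B C = inner ℝ B' C') (p : 0 < d3 A B C) (p' : 0 < d3 A' B' C') {P Q : E3}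
    (h1 : P = x1 • A + y1 • B + z1 • C) (h1' : P = x1 • A' + y1 • B' + z1 • C')
    (h2 : Q = x2 • A + y2 • B + z2 • C) (h2' : Q = x2 • A' + y2 • B' + z2 • C')
    (hne : cr3 P Q ≠ 0) : A = A' := by
  have e := d3_eq aa bb cc ab ac bc p p'
  have k : ∀ {R : E3} {x y z : ℝ}, R = x • A + y • B + z • C → R = x • A' + y • B' + z • C' →
      inner ℝ R (A - A') = 0 := by
    intro R x y z r r'
    have i1 : inner ℝ R A = x * inner ℝ A A + y * inner ℝ A B + z * inner ℝ A C := by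
      rw [r]; simp [inner3, norm3]; ring
    have i2 : inner ℝ R A' = x * inner ℝ A' A' + y * inner ℝ A' B' + z * inner ℝ A' C' := by
      rw [r']; simp [inner3, norm3]; ring
    rw [inner_sub_right, i1, i2, aa, ab, ac, sub_self]
  refine sub_eq_zero.1 (eq_zero_of_inner3 (a := P) (b := Q) (c := cr3 P Q) ?_ (k h1 h1')
    (k h2 h2') ?_)
  · rw [← inner_cr3]
    exact fun h => hne (inner_self_eq_zero.1 h)
  · have i1 : d3 P Q A = (y1 * z2 - z1 * y2) * d3 A B C := by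
      rw [h1, h2]; simp [d3]; ring
    have i2 : d3 P Q A' = (y1 * z2 - z1 * y2) * d3 A' B' C' := by
      rw [h1', h2']; simp [d3]; ring
    rw [inner_sub_right, inner_cr3, inner_cr3, i1, i2, e, sub_self]

/-- Gram determinant of three unit vectors. -/
def gd (k x y : ℝ) : ℝ := 1 + 2 * k * x * y - k ^ 2 - x ^ 2 - y ^ 2

theorem d3_gd {A B C : E3} (a : inner ℝ A A = 1) (b : inner ℝ B B = 1) (c : inner ℝ C C = 1) :
    d3 A B C ^ 2 = gd (inner ℝ A B) (inner ℝ A C) (inner ℝ B C) := by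
  rw [d3_sq, a, b, c, gd]
  ring

theorem third {X A B Q : E3} (x : inner ℝ X X = 1) (a : inner ℝ A A = 1) (b : inner ℝ B B = 1)
    (q : inner ℝ Q Q = 1) :
    ((1 - inner ℝ A B ^ 2) * inner ℝ X Q - (inner ℝ A Q - inner ℝ A B * inner ℝ B Q) * inner ℝ X A
      - (inner ℝ B Q - inner ℝ A B * inner ℝ A Q) * inner ℝ X B) ^ 2 =
      gd (inner ℝ A B) (inner ℝ A Q) (inner ℝ B Q) *
        gd (inner ℝ A B) (inner ℝ X A) (inner ℝ X B) := by
  have e := d3_mul A B Q A B X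
  have e1 := d3_gd a b q
  have e2 := d3_gd a b x
  rw [real_inner_comm X A, real_inner_comm X B] at e2
  rw [← e1, ← e2, ← mul_pow, e, a, b, real_inner_comm X A, real_inner_comm X B,
    real_inner_comm X Q, real_inner_comm A B, real_inner_comm A Q, real_inner_comm B Q]
  ring

/-- Development of a third vertex across a given edge. -/
theorem exists_third {A B : E3} {k x y δ : ℝ} (a : inner ℝ A A = 1) (b : inner ℝ B B = 1)
    (ab : inner ℝ A B = k) (hk : k ^ 2 < 1) (hδ : 0 < δ) (e : δ ^ 2 = gd k x y) :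
    ∃ Q : E3, inner ℝ A Q = x ∧ inner ℝ B Q = y ∧ inner ℝ Q Q = 1 ∧ 0 < d3 A B Q := by
  have s0 : 0 < 1 - k ^ 2 := by linarith
  have ba : inner ℝ B A = k := by rw [real_inner_comm, ab]
  have n1 : inner ℝ (cr3 A B) A = 0 := by rw [inner_cr3, d3_self13]
  have n2 : inner ℝ (cr3 A B) B = 0 := by rw [inner_cr3, d3_self23]
  have n1' : inner ℝ A (cr3 A B) = 0 := by rw [real_inner_comm, n1]
  have n2' : inner ℝ B (cr3 A B) = 0 := by rw [real_inner_comm, n2]
  have n3 : inner ℝ (cr3 A B) (cr3 A B) = 1 - k ^ 2 := by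
    rw [real_inner_self_eq_norm_sq, norm_cr3, ← real_inner_self_eq_norm_sq,
      ← real_inner_self_eq_norm_sq, a, b, ab, mul_one]
  refine ⟨(1 - k ^ 2)⁻¹ • ((x - k * y) • A + (y - k * x) • B + δ • cr3 A B), ?_, ?_, ?_, ?_⟩
  · simp only [real_inner_smul_right, inner_add_right, a, ab, n1']
    field_simp
    ring
  · simp only [real_inner_smul_right, inner_add_right, b, ba, n2']
    field_simp
    ring
  · simp only [real_inner_smul_right, inner_add_right, real_inner_smul_left, inner_add_left, a, b,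
      ab, ba, n1, n2, n1', n2', n3]
    field_simp
    rw [gd] at e
    linear_combination (1 - k ^ 2) * e
  · rw [← inner_cr3]
    simp only [real_inner_smul_right, inner_add_right, n1, n2, n3]
    field_simp
    simpa using mul_pos s0 hδ

end FinL

end Pool.Agent.Lib.MP_34b931_co.G
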