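import Pool.Agent.Lib.MP_34b931_co.H22St

/-! From the intermediate statements to the rigidity theorem. -/

namespace Pool.Agent.Lib.MP_34b931_co.G

open Filter Topology Set BallPoly

theorem dist_of_inner {a b a' b' : E3} (h1 : inner ℝ a a = inner ℝ a' a')
    (h2 : inner ℝ a b = inner ℝ a' b') (h3 : inner ℝ b b = inner ℝ b' b') :
    ‖a - b‖ = ‖a' - b'‖ := by
  rw [← sq_eq_sq₀ (norm_nonneg _) (norm_nonneg _), norm_sub_sq_real, norm_sub_sq_real,
    ← real_inner_self_eq_norm_sq, ← real_inner_self_eq_norm_sq, ← real_inner_self_eq_norm_sq,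
    ← real_inner_self_eq_norm_sq, h1, h2, h3]

theorem euclid (hOr : StOrient) (h0 : StStep0) (hT : StTriT) (hTr : StTrunc) (hE : StE)
    {ι : Type} [Fintype ι] {c c' : ι → E3} {ψ : E3 → E3} (h : EStd c) (h' : EStd c')
    (hm : Match c c' ψ) (i j : ι) : dist (c i) (c j) = dist (c' i) (c' j) := by
  classical
  obtain ⟨e, ψ, he, s, m, sd⟩ := hOr ι c c' ψ h h' hm
  suffices dist (c i) (c j) = dist (e i) (e j) by
    rcases he with rfl | rfl
    · exact this
    · simpa using this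
  have gr := h0 ι c e ψ h s m fun v j k hv => (sd v j k hv).1
  obtain ⟨κ, _, pos, T, inj, rng, tr⟩ := hT ι c h
  have ev : ∀ ν, EV c (pos ν) := fun ν => (rng _).2 ⟨ν, rfl⟩
  have inj' : Function.Injective (ψ ∘ pos) := by
    intro ν μ k
    obtain ⟨b, i, j, l, ij, jl, il, k1, k2, k3⟩ := ev ν
    have t : ∀ i, dist (pos ν) (c i) = 1 → dist (pos μ) (c i) = 1 := fun i d =>
      (m.act _ (ev μ) i).2 (by rw [show ψ (pos μ) = ψ (pos ν) from k.symm]; exact (m.act _ (ev ν) i).1 d)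
    exact inj (h.uniq3 _ _ i j l b (ev μ).1 ij jl il k1 k2 k3 (t i k1) (t j k2) (t l k3))
  have rng' : ∀ w, EV e w ↔ w ∈ range (ψ ∘ pos) := by
    refine fun w => ⟨fun k => ?_, ?_⟩
    · obtain ⟨v, hv, rfl⟩ := m.surj w k
      obtain ⟨ν, rfl⟩ := (rng v).1 hv
      exact ⟨ν, rfl⟩
    · rintro ⟨ν, rfl⟩
      exact m.vert _ (ev ν)
  have tr' : IsTrunc e (ψ ∘ pos) T := fun x y z => (tr x y z).trans <|
    exists_congr fun ν => exists_congr fun j => exists_congr fun k =>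
      and_congr_left' (sd _ j k (ev ν))
  obtain ⟨ε, g, g'⟩ := ((hTr ι κ c pos T h inj rng tr).and
    (hTr ι κ e (ψ ∘ pos) T s inj' rng' tr')).exists
  have n1 : ∀ v, EV c v → ∀ j, dist v (c j) = 1 →
      inner ℝ (c j - v) (nsum c v) = inner ℝ (e j - ψ v) (nsum e (ψ v)) := by
    intro v hv j hj
    simp only [nsum, inner_sum]
    refine Finset.sum_congr rfl fun l _ => ?_
    by_cases k : dist v (c l) = 1
    · rw [if_pos k, if_pos ((m.act v hv l).1 k), gr v j l hv hj k]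
    · rw [if_neg k, if_neg (mt (m.act v hv l).2 k), inner_zero_right, inner_zero_right]
  have n2 : ∀ v, EV c v → inner ℝ (nsum c v) (nsum c v) =
      inner ℝ (nsum e (ψ v)) (nsum e (ψ v)) := by
    intro v hv
    conv_lhs => enter [2]; rw [nsum]
    conv_rhs => enter [2]; rw [nsum]
    simp only [sum_inner]
    refine Finset.sum_congr rfl fun l _ => ?_
    by_cases k : dist v (c l) = 1
    · rw [if_pos k, if_pos ((m.act v hv l).1 k), n1 v hv l k]
    · rw [if_neg k, if_neg (mt (m.act v hv l).2 k), inner_zero_left, inner_zero_left]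
  have spoke : ∀ ν j, dist (pos ν) (c j) = 1 →
      dist (trunc c pos ε (.inl j)) (trunc c pos ε (.inr ν)) =
        dist (trunc e (ψ ∘ pos) ε (.inl j)) (trunc e (ψ ∘ pos) ε (.inr ν)) := by
    intro ν j hj
    have n3 : ‖nsum c (pos ν)‖ = ‖nsum e (ψ (pos ν))‖ := by
      rw [norm_eq_sqrt_real_inner, n2 _ (ev ν), ← norm_eq_sqrt_real_inner]
    simp only [trunc, dist_eq_norm, ← sub_sub, Function.comp]
    refine dist_of_inner (gr _ j j (ev ν) hj hj) ?_ ?_
    · rw [real_inner_smul_right, real_inner_smul_right, n3, n1 _ (ev ν) j hj]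
    · simp only [real_inner_smul_right, real_inner_smul_left, n3, n2 _ (ev ν)]
  refine hE (ι ⊕ κ) _ _ T g g' ?_ (.inl i) (.inl j)
  rintro a b ⟨d, f⟩
  obtain ⟨ν, j, k, ⟨-, hj, hk, -⟩, r⟩ := (tr a b d).1 f
  rcases r with ⟨rfl, rfl, -⟩ | ⟨rfl, rfl, -⟩ | ⟨rfl, rfl, -⟩
  · rw [dist_comm, spoke ν j hj, dist_comm]
  · have := dist_of_inner (gr _ j j (ev ν) hj hj) (gr _ j k (ev ν) hj hk) (gr _ k k (ev ν) hk hk)
    simpa only [trunc, dist_eq_norm, sub_sub_sub_cancel_right] using this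
  · exact spoke ν k hk

theorem final (hStd : StStd) (hMa : StMatch) (hOr : StOrient) (h0 : StStep0) (hT : StTriT)
    (hTr : StTrunc) (hE : StE) {n m : ℕ} (P : BallPoly n) (hP : P.Standard) (Q : BallPoly m)
    (hQ : Q.Standard) (φ : P.Cell ≃o Q.Cell) (hφ : P.SameFaceAngles Q φ) :
    ∃ Ψ : E3 ≃ᵢ E3, Ψ '' Q.body = P.body := by
  obtain ⟨σ, ψ, s, m⟩ := hMa n m P Q φ hP hQ hφ
  obtain ⟨Ψ, hΨ⟩ := exists_isometry (Q.c ∘ σ) P.c Finset.univ
    (Finset.mem_univ ⟨0, by have := P.three; omega⟩)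
    fun i _ j _ => (euclid hOr h0 hT hTr hE (hStd n P hP) s m i j).symm
  have inQ : ∀ {x}, InP (Q.c ∘ σ) Finset.univ x ↔ x ∈ Q.body := fun {x} => by
    rw [mem_body]
    exact ⟨fun h j _ => by simpa using h (σ.symm j) (by simp), fun h i _ => h (σ i) (by simp)⟩
  refine ⟨Ψ, ?_⟩
  ext x
  obtain ⟨y, rfl⟩ := Ψ.surjective x
  rw [Ψ.injective.mem_set_image, ← inQ, mem_body]
  refine forall₂_congr fun i hi => ?_
  rw [← hΨ i hi, Ψ.dist_eq]

end Pool.Agent.Lib.MP_34b931_co.G
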