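import Pool.Agent.Lib.MP_34b931_co.H22Tri

/-! Transcendence degree of the edge values: consequences, invariance, density. -/

namespace Pool.Agent.Lib.MP_34b931_co.G

open Filter Topology

namespace Gen

variable {ι : Type}

/-- The real numbers that are algebraic over the algebra generated by `s`. -/
def K (s : Set ℝ) : Subfield ℝ where
  carrier := {x | IsAlgebraic (Algebra.adjoin ℚ s) x}
  mul_mem' := fun h h' => IsAlgebraic.mul h h'
  one_mem' := isAlgebraic_one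
  add_mem' := fun h h' => IsAlgebraic.add h h'
  zero_mem' := isAlgebraic_zero
  neg_mem' := fun h => IsAlgebraic.neg h
  inv_mem' := fun _ h => IsAlgebraic.inv h

theorem mem_K {s : Set ℝ} {x : ℝ} : x ∈ K s ↔ IsAlgebraic (Algebra.adjoin ℚ s) x := Iff.rfl

theorem K_of_mem {s : Set ℝ} {x : ℝ} (h : x ∈ s) : x ∈ K s :=
  isAlgebraic_algebraMap (⟨x, Algebra.subset_adjoin h⟩ : Algebra.adjoin ℚ s)

theorem K_sq {s : Set ℝ} {x : ℝ} (h : x ^ 2 ∈ K s) : x ∈ K s :=
  IsAlgebraic.of_pow two_pos h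

theorem K_two {s : Set ℝ} : (2 : ℝ) ∈ K s := by
  rw [← one_add_one_eq_two]
  exact add_mem (one_mem _) (one_mem _)

theorem K_quad {s : Set ℝ} {A B C t : ℝ} (hA : A ∈ K s) (hB : B ∈ K s) (hC : C ∈ K s) (h0 : A ≠ 0)
    (h : A * t ^ 2 + B * t + C = 0) : t ∈ K s := by
  have h1 : 2 * A * t + B ∈ K s := by
    refine K_sq ?_
    rw [show (2 * A * t + B) ^ 2 = B * B - 2 * 2 * A * C by linear_combination 4 * A * h]
    exact sub_mem (mul_mem hB hB) (mul_mem (mul_mem (mul_mem K_two K_two) hA) hC)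
  rw [show t = (2 * A * t + B - B) / (2 * A) by field_simp; ring]
  exact div_mem (sub_mem h1 hB) (mul_mem K_two hA)

theorem K_unit {s : Set ℝ} {x y z t : ℝ} (hx : x ∈ K s) (hy : y ∈ K s) (hz : z ∈ K s)
    (h : x ^ 2 + y ^ 2 + z ^ 2 + t ^ 2 = 1) : t ∈ K s := by
  refine K_sq ?_
  rw [show t ^ 2 = 1 - x ^ 2 - y ^ 2 - z ^ 2 by linarith]
  exact sub_mem (sub_mem (sub_mem (one_mem _) (pow_mem hx 2)) (pow_mem hy 2)) (pow_mem hz 2)

theorem K_dg {s : Set ℝ} {G : ι → ι → ℝ} {a b c d : ι} (ab : G a b ∈ K s) (ac : G a c ∈ K s)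
    (ad : G a d ∈ K s) (bc : G b c ∈ K s) (cd : G c d ∈ K s) (h0 : G a c ^ 2 < 1)
    (h : Dg G a b c d = 0) : G b d ∈ K s := by
  have two : (2 : ℝ) ∈ K s := K_two
  refine K_quad (A := G a c ^ 2 - 1)
    (B := 2 * (G a b * G a d + G b c * G c d - G a b * G c d * G a c - G a c * G b c * G a d))
    (C := 1 - G a b ^ 2 - G a c ^ 2 - G a d ^ 2 - G b c ^ 2 - G c d ^ 2
      + 2 * G a b * G b c * G a c + 2 * G a c * G c d * G a d + G a b ^ 2 * G c d ^ 2
      + G a d ^ 2 * G b c ^ 2 - 2 * G a b * G b c * G c d * G a d) ?_ ?_ ?_ (by linarith) ?_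
  · exact sub_mem (pow_mem ac 2) (one_mem _)
  · exact mul_mem two (sub_mem (sub_mem (add_mem (mul_mem ab ad) (mul_mem bc cd))
      (mul_mem (mul_mem ab cd) ac)) (mul_mem (mul_mem ac bc) ad))
  · exact sub_mem (add_mem (add_mem (add_mem (add_mem (sub_mem (sub_mem (sub_mem (sub_mem (sub_mem
      (one_mem _) (pow_mem ab 2)) (pow_mem ac 2)) (pow_mem ad 2)) (pow_mem bc 2)) (pow_mem cd 2))
      (mul_mem (mul_mem (mul_mem two ab) bc) ac)) (mul_mem (mul_mem (mul_mem two ac) cd) ad))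
      (mul_mem (pow_mem ab 2) (pow_mem cd 2))) (mul_mem (pow_mem ad 2) (pow_mem bc 2)))
      (mul_mem (mul_mem (mul_mem (mul_mem two ab) bc) cd) ad)
  · rw [Dg] at h
    linear_combination h

/-- One orientation for every edge. -/
theorem exists_edges [Fintype ι] (T : Tri ι) : ∃ A : Finset (ι × ι),
    (∀ x y, (x, y) ∈ A → T.adj x y) ∧ (∀ x y, T.adj x y → (x, y) ∈ A ∨ (y, x) ∈ A) ∧
    (∀ x y, (x, y) ∈ A → (y, x) ∉ A) ∧
    2 * A.card = Nat.card {t : ι × ι × ι // T.F t.1 t.2.1 t.2.2} := by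
  classical
  let e := Fintype.equivFin ι
  refine ⟨Finset.univ.filter fun p => T.adj p.1 p.2 ∧ e p.1 < e p.2, fun x y h => ?_,
    fun x y h => ?_, fun x y h h' => ?_, ?_⟩
  · exact (Finset.mem_filter.1 h).2.1
  · simp only [Finset.mem_filter, Finset.mem_univ, true_and]
    rcases lt_or_gt_of_ne (e.injective.ne h.ne) with k | k
    exacts [Or.inl ⟨h, k⟩, Or.inr ⟨h.symm, k⟩]
  · exact lt_asymm (Finset.mem_filter.1 h).2.2 (Finset.mem_filter.1 h').2.2
  · rw [← T.card_adj, Nat.card_eq_fintype_card, Fintype.card_subtype,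
      ← Finset.card_filter_add_card_filter_not (s := Finset.univ.filter fun p : ι × ι =>
        T.adj p.1 p.2) (fun p => e p.1 < e p.2),
      Finset.filter_filter, Finset.filter_filter, two_mul]
    congr 1
    refine Finset.card_equiv (Equiv.prodComm ι ι) fun p => ?_
    simp only [Finset.mem_filter, Finset.mem_univ, true_and, Equiv.prodComm_apply, Prod.fst_swap,
      Prod.snd_swap, not_lt]
    exact ⟨fun h => ⟨h.1.symm, h.2.le⟩,
      fun h => ⟨h.1.symm, lt_of_le_of_ne h.2 (e.injective.ne h.1.symm.ne)⟩⟩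

/-- Coordinates in which four given vectors are triangular. -/
theorem exists_coord (f : Fin 4 → E4) : ∃ L : E4 →ₗ[ℝ] E4,
    (∀ v w, inner ℝ (L v) (L w) = inner ℝ v w) ∧ ∀ i j, i < j → L (f i) j = 0 := by
  have h : Module.finrank ℝ E4 = Fintype.card (Fin 4) := by simp
  exact ⟨(InnerProductSpace.gramSchmidtOrthonormalBasis h f).repr.toLinearEquiv.toLinearMap,
    fun v w => (InnerProductSpace.gramSchmidtOrthonormalBasis h f).repr.inner_map_map v w,
    fun i j k => InnerProductSpace.gramSchmidtOrthonormalBasis_inv_triangular' h f k⟩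

/-- Counting free parameters. -/
theorem count [Fintype ι] {T : Tri ι} {τ : ℝ} {u : ι → E4} (hg : Generic T (gm τ u))
    {L : E4 →ₗ[ℝ] E4} (hL : ∀ v w, inner ℝ (L v) (L w) = inner ℝ v w) (bad : List (ι × Fin 3))
    (hb : bad.Nodup) (ex : Finset ℝ) (hc : ex.card + 7 ≤ bad.length)
    (h : ∀ s : Set ℝ, (∀ x ∈ ex, x ∈ K s) → (∀ i k, (i, k) ∉ bad → L (u i) k.castSucc ∈ K s) →
      τ ∈ K s ∧ ∀ i, L (u i) 0 ∈ K s ∧ L (u i) 1 ∈ K s ∧ L (u i) 2 ∈ K s ∧ L (u i) 3 ∈ K s) :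
    False := by
  classical
  let s : Finset ℝ := ex ∪ (Finset.univ \ bad.toFinset).image fun p => L (u p.1) p.2.castSucc
  obtain ⟨h1, h2⟩ := h s (fun x hx => K_of_mem (Finset.mem_coe.2 (Finset.mem_union_left _ hx)))
    fun i k hk => K_of_mem (Finset.mem_coe.2 (Finset.mem_union_right _ (Finset.mem_image.2
      ⟨(i, k), by simpa using hk, rfl⟩)))
  have h3 := hg s fun a b _ => by
    obtain ⟨a0, a1, a2, a3⟩ := h2 a
    obtain ⟨b0, b1, b2, b3⟩ := h2 b
    rw [← mem_K, gm, ← hL, inner4]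
    exact div_mem (sub_mem (add_mem (add_mem (add_mem (mul_mem a0 b0) (mul_mem a1 b1))
      (mul_mem a2 b2)) (mul_mem a3 b3)) (pow_mem h1 2)) (sub_mem (one_mem _) (pow_mem h1 2))
  have h4 : s.card ≤ ex.card + (Finset.univ \ bad.toFinset).card :=
    (Finset.card_union_le _ _).trans (Nat.add_le_add_left Finset.card_image_le _)
  have h5 := Finset.card_sdiff_add_card_eq_card (Finset.subset_univ bad.toFinset)
  rw [List.toFinset_card_of_nodup hb, Finset.card_univ, Fintype.card_prod, Fintype.card_fin,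
    ← Nat.card_eq_fintype_card] at h5
  omega

theorem unit_coord {L : E4 →ₗ[ℝ] E4} (hL : ∀ v w, inner ℝ (L v) (L w) = inner ℝ v w) {v : E4}
    (hv : ‖v‖ = 1) : L v 0 ^ 2 + L v 1 ^ 2 + L v 2 ^ 2 + L v 3 ^ 2 = 1 := by
  have := hL v v
  rw [inner4, real_inner_self_eq_norm_sq, hv] at this
  linarith

theorem b5 [Fintype ι] {T : Tri ι} {τ : ℝ} {u : ι → E4} (hu : Un u) (hg : Generic T (gm τ u)) :
    B5 τ u := by
  intro x e hx ha he
  obtain ⟨L, hL, tr⟩ := exists_coord ![x, u (e 0), u (e 1), 0]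
  have x1 : L x 1 = 0 := tr 0 1 (by decide)
  have x2 : L x 2 = 0 := tr 0 2 (by decide)
  have x3 : L x 3 = 0 := tr 0 3 (by decide)
  have p2 : L (u (e 0)) 2 = 0 := tr 1 2 (by decide)
  have p3 : L (u (e 0)) 3 = 0 := tr 1 3 (by decide)
  have q3 : L (u (e 1)) 3 = 0 := tr 2 3 (by decide)
  have x0 := unit_coord hL hx
  have hn := fun i => unit_coord hL (hu i)
  have ne : ∀ i j : Fin 5, e i = e j ↔ i = j := fun i j => he.eq_iff
  refine count hg hL [(e 0, 0), (e 0, 1), (e 0, 2), (e 1, 0), (e 1, 2), (e 2, 0), (e 3, 0), (e 4, 0)]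
    (by simp [ne]) {τ} (by simp) fun s h1 h2 => ?_
  have hτ : τ ∈ K s := h1 τ (Finset.mem_singleton_self τ)
  have z : (0 : ℝ) ∈ K s := zero_mem _
  have hx0 : L x 0 ∈ K s := K_unit z z z (by rw [x1, x2, x3] at x0; linarith)
  have c0 : ∀ k, L (u (e k)) 0 ∈ K s := fun k => by
    have h3 : inner ℝ (u (e k)) x = τ := ha k
    rw [← hL, inner4, x1, x2, x3] at h3
    rw [x1, x2, x3] at x0
    rw [show L (u (e k)) 0 = τ * L x 0 by
      linear_combination (L x 0) * h3 - L (u (e k)) 0 * x0]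
    exact mul_mem hτ hx0
  refine ⟨hτ, fun i => ?_⟩
  have n := hn i
  by_cases i0 : i = e 0
  · subst i0
    exact ⟨c0 0, K_unit (c0 0) (p2 ▸ z) (p3 ▸ z) (by linarith), p2 ▸ z, p3 ▸ z⟩
  by_cases i1 : i = e 1
  · subst i1
    have k1 : L (u (e 1)) 1 ∈ K s := h2 _ 1 (by simp [ne])
    exact ⟨c0 1, k1, K_unit (c0 1) k1 (q3 ▸ z) (by linarith), q3 ▸ z⟩
  have k1 : L (u i) 1 ∈ K s := h2 _ 1 (by simp [i0])
  have k2 : L (u i) 2 ∈ K s := h2 _ 2 (by simp [i0, i1])
  have k0 : L (u i) 0 ∈ K s := by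
    by_cases h : ∃ k, i = e k
    · obtain ⟨k, rfl⟩ := h
      exact c0 k
    · exact h2 _ 0 (by simp [not_exists.1 h])
  exact ⟨k0, k1, k2, K_unit k0 k1 k2 n⟩

theorem b4_zero [Fintype ι] {T : Tri ι} {u : ι → E4} (hu : Un u) (hg : Generic T (gm 0 u))
    {a b c d : ι} (ab : a ≠ b) (ac : a ≠ c) (bc : b ≠ c) (da : d ≠ a) (db : d ≠ b) (dc : d ≠ c)
    {α β γ : ℝ} (h : u d = α • u a + β • u b + γ • u c) : False := by
  obtain ⟨L, hL, tr⟩ := exists_coord ![u a, u b, u c, 0]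
  have a1 : L (u a) 1 = 0 := tr 0 1 (by decide)
  have a2 : L (u a) 2 = 0 := tr 0 2 (by decide)
  have a3 : L (u a) 3 = 0 := tr 0 3 (by decide)
  have b2 : L (u b) 2 = 0 := tr 1 2 (by decide)
  have b3 : L (u b) 3 = 0 := tr 1 3 (by decide)
  have c3 : L (u c) 3 = 0 := tr 2 3 (by decide)
  have d3 : L (u d) 3 = 0 := by simp [h, a3, b3, c3]
  have hn := fun i => unit_coord hL (hu i)
  refine count hg hL [(a, 0), (a, 1), (a, 2), (b, 1), (b, 2), (c, 2), (d, 2)]
    (by simp [ab, ac, bc, da.symm, db.symm, dc.symm]) ∅ (by simp) fun s _ h2 => ?_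
  have z : (0 : ℝ) ∈ K s := zero_mem _
  refine ⟨z, fun i => ?_⟩
  have n := hn i
  by_cases ia : i = a
  · subst ia
    exact ⟨K_unit (a1 ▸ z) (a2 ▸ z) (a3 ▸ z) (by linarith), a1 ▸ z, a2 ▸ z, a3 ▸ z⟩
  have k0 : L (u i) 0 ∈ K s := h2 _ 0 (by simp [ia])
  by_cases ib : i = b
  · subst ib
    exact ⟨k0, K_unit k0 (b2 ▸ z) (b3 ▸ z) (by linarith), b2 ▸ z, b3 ▸ z⟩
  have k1 : L (u i) 1 ∈ K s := h2 _ 1 (by simp [ia, ib])
  by_cases ic : i = c
  · subst ic
    exact ⟨k0, k1, K_unit k0 k1 (c3 ▸ z) (by linarith), c3 ▸ z⟩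
  by_cases id : i = d
  · subst id
    exact ⟨k0, k1, K_unit k0 k1 (d3 ▸ z) (by linarith), d3 ▸ z⟩
  have k2 : L (u i) 2 ∈ K s := h2 _ 2 (by simp [ia, ib, ic, id])
  exact ⟨k0, k1, k2, K_unit k0 k1 k2 n⟩

theorem b4_one [Fintype ι] {T : Tri ι} {τ : ℝ} {u : ι → E4} (hu : Un u) (hg : Generic T (gm τ u))
    {a b c d : ι} (ab : a ≠ b) (ac : a ≠ c) (bc : b ≠ c) (da : d ≠ a) (db : d ≠ b) (dc : d ≠ c)
    {β γ : ℝ} (h : u d = (1 - β - γ) • u a + β • u b + γ • u c) : False := by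
  obtain ⟨L, hL, tr⟩ := exists_coord ![u b - u a, u c - u a, u a, 0]
  have e : ∀ i k, L (u i - u a) k = 0 → L (u i) k = L (u a) k := fun i k h => by
    rw [map_sub, PiLp.sub_apply] at h
    linarith
  have a3 : L (u a) 3 = 0 := tr 2 3 (by decide)
  have b1 : L (u b) 1 = L (u a) 1 := e _ _ (tr 0 1 (by decide))
  have b2 : L (u b) 2 = L (u a) 2 := e _ _ (tr 0 2 (by decide))
  have b3 : L (u b) 3 = 0 := (e _ _ (tr 0 3 (by decide))).trans a3
  have c2 : L (u c) 2 = L (u a) 2 := e _ _ (tr 1 2 (by decide))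
  have c3 : L (u c) 3 = 0 := (e _ _ (tr 1 3 (by decide))).trans a3
  have d2 : L (u d) 2 = L (u a) 2 := by
    simp only [h, map_add, map_smul, PiLp.add_apply, PiLp.smul_apply, smul_eq_mul, b2, c2]
    ring
  have d3 : L (u d) 3 = 0 := by simp [h, a3, b3, c3]
  have hn := fun i => unit_coord hL (hu i)
  refine count hg hL [(a, 0), (b, 0), (b, 1), (b, 2), (c, 0), (c, 2), (d, 0), (d, 2)]
    (by simp [ab, ac, bc, da.symm, db.symm, dc.symm]) {τ} (by simp) fun s h1 h2 => ?_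
  have z : (0 : ℝ) ∈ K s := zero_mem _
  refine ⟨h1 τ (Finset.mem_singleton_self τ), fun i => ?_⟩
  have n := hn i
  have a1 : L (u a) 1 ∈ K s := h2 _ 1 (by simp [ab])
  have a2 : L (u a) 2 ∈ K s := h2 _ 2 (by simp [ab, ac, da.symm])
  by_cases ia : i = a
  · subst ia
    exact ⟨K_unit a1 a2 (a3 ▸ z) (by linarith), a1, a2, a3 ▸ z⟩
  by_cases ib : i = b
  · subst ib
    exact ⟨K_unit (b1 ▸ a1) (b2 ▸ a2) (b3 ▸ z) (by linarith), b1 ▸ a1, b2 ▸ a2, b3 ▸ z⟩
  have k1 : L (u i) 1 ∈ K s := h2 _ 1 (by simp [ib])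
  by_cases ic : i = c
  · subst ic
    exact ⟨K_unit k1 (c2 ▸ a2) (c3 ▸ z) (by linarith), k1, c2 ▸ a2, c3 ▸ z⟩
  by_cases id : i = d
  · subst id
    exact ⟨K_unit k1 (d2 ▸ a2) (d3 ▸ z) (by linarith), k1, d2 ▸ a2, d3 ▸ z⟩
  have k0 : L (u i) 0 ∈ K s := h2 _ 0 (by simp [ia, ib, ic, id])
  have k2 : L (u i) 2 ∈ K s := h2 _ 2 (by simp [ib, ic, id])
  exact ⟨k0, k1, k2, K_unit k0 k1 k2 n⟩

theorem closure_eq (s : Set ℝ) : (AlgebraicIndependent.matroid ℚ ℝ).closure s = K s := by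
  rw [AlgebraicIndependent.matroid_closure_eq]
  ext x
  exact Subalgebra.mem_algebraicClosure _ _

theorem K_countable {s : Set ℝ} (hs : s.Finite) : (K s : Set ℝ).Countable := by
  have : Countable (Algebra.adjoin ℚ s) := by
    rw [← Cardinal.mk_le_aleph0_iff]
    refine (Algebra.cardinalMk_adjoin_le ℚ s).trans (sup_le (sup_le ?_ ?_) le_rfl)
    · exact Cardinal.mk_le_aleph0
    · exact hs.lt_aleph0.le
  exact Algebraic.countable (Algebra.adjoin ℚ s) ℝ

theorem exists_indep {κ : Type} (A : Finset κ) (g : κ → ℝ) {ε : ℝ} (hε : 0 < ε) :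
    ∃ g' : κ → ℝ, (∀ p, dist (g' p) (g p) < ε) ∧
      (AlgebraicIndependent.matroid ℚ ℝ).Indep (g' '' A) ∧ Set.InjOn g' A := by
  classical
  induction A using Finset.induction_on with
  | empty => exact ⟨g, fun p => by simpa using hε, by simp, by simp⟩
  | insert p A hp ih =>
    obtain ⟨g', h1, h2, h3⟩ := ih
    obtain ⟨x, hx, hx'⟩ := ((K_countable (A.finite_toSet.image g')).dense_compl ℝ).exists_mem_open
      (Metric.isOpen_ball (x := g p) (ε := ε)) (Metric.nonempty_ball.2 hε)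
    have hx0 : x ∉ g' '' A := fun h => hx (K_of_mem h)
    have e : ∀ q ∈ (A : Set κ), Function.update g' p x q = g' q := fun q hq =>
      Function.update_of_ne (by rintro rfl; exact hp hq) _ _
    have e' : Function.update g' p x '' A = g' '' A := Set.image_congr e
    refine ⟨Function.update g' p x, fun q => ?_, ?_, ?_⟩
    · by_cases h : q = p
      · subst h
        rwa [Function.update_self]
      · rw [Function.update_of_ne h]
        exact h1 q
    · rw [Finset.coe_insert, Set.image_insert_eq, Function.update_self, e',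
        h2.insert_indep_iff_of_notMem hx0, closure_eq]
      exact ⟨Set.mem_univ _, hx⟩
    · rw [Finset.coe_insert, Set.injOn_insert (by simpa using hp), Function.update_self, e']
      exact ⟨h3.congr fun q hq => (e q hq).symm, hx0⟩

end Gen

open Gen

theorem stGenW : StGenW := by
  classical
  intro ι _ T G hm hg a b c d ab ac ad bc bd cd h
  obtain ⟨A, A1, A2, A3, A4⟩ := exists_edges T
  obtain ⟨p, hp, hp'⟩ : ∃ p ∈ A, p = (b, d) ∨ p = (d, b) := by
    rcases A2 b d bd with k | k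
    exacts [⟨_, k, Or.inl rfl⟩, ⟨_, k, Or.inr rfl⟩]
  let s : Finset ℝ := (A.erase p).image fun q => G q.1 q.2
  have key : ∀ x y, T.adj x y → ¬ (x = b ∧ y = d) → ¬ (x = d ∧ y = b) → G x y ∈ K s := by
    intro x y k k1 k2
    refine K_of_mem (Finset.mem_coe.2 (Finset.mem_image.2 ?_))
    rcases A2 x y k with q | q
    · exact ⟨(x, y), Finset.mem_erase.2 ⟨by grind, q⟩, rfl⟩
    · exact ⟨(y, x), Finset.mem_erase.2 ⟨by grind, q⟩, hm.1 _ _⟩
  have n1 := ab.ne
  have n2 := ac.ne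
  have n3 := ad.ne
  have n4 := bc.ne
  have n5 := bd.ne
  have n6 := cd.ne
  have kbd : G b d ∈ K s := K_dg (key _ _ ab (by grind) (by grind)) (key _ _ ac (by grind) (by grind))
    (key _ _ ad (by grind) (by grind)) (key _ _ bc (by grind) (by grind))
    (key _ _ cd (by grind) (by grind)) (hm.sq_lt ac) h
  have h1 := hg s fun x y k => by
    rw [← mem_K]
    by_cases k1 : x = b ∧ y = d
    · rw [k1.1, k1.2]
      exact kbd
    by_cases k2 : x = d ∧ y = b
    · rw [k2.1, k2.2, hm.1]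
      exact kbd
    exact key x y k k1 k2
  have h2 : s.card ≤ (A.erase p).card := Finset.card_image_le
  have h3 := Finset.card_erase_add_one hp
  have h4 := T.count
  omega

theorem stGenB : StGenB := by
  intro ι _ T τ u hu _ _ hg
  refine ⟨fun a b c d ab ac bc da db dc α β γ h h0 => ?_, b5 hu hg⟩
  rcases mul_eq_zero.1 h0 with rfl | h1
  · exact b4_zero hu hg ab ac bc da db dc h
  · exact b4_one hu hg ab ac bc da db dc (by rwa [show 1 - β - γ = α by linarith])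

theorem stGenStep : StGenStep := by
  rintro ι _ ⟨T, G⟩ ⟨T', G'⟩ ⟨hm, hm', h3, h4⟩ hg s hs
  refine hg s fun x y k => ?_
  dsimp only at hm hm' h3 h4 hs k ⊢
  rcases h4 with h4 | ⟨a, b, c, d, D, f, d1, -, d2, d3⟩
  · have k' : T'.adj x y := by rwa [show T' = T from h4]
    rw [← h3 x y k k']
    exact hs x y k'
  have un : ∀ i, inner ℝ (D i) (D i) = G' i i → ‖D i‖ = 1 := fun i h => by
    rw [real_inner_self_eq_norm_sq, hm'.2.1 i] at h
    exact (pow_eq_one_iff_of_nonneg (norm_nonneg _) two_ne_zero).1 h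
  have kac : G a c ∈ K s := by
    rw [← d1.1 a c (by simp) (by simp)]
    have ba := d2.1 b a (by simp) (by simp)
    have bd := d2.1 b d (by simp) (by simp)
    have ad := d2.1 a d (by simp) (by simp)
    have bc := d3.1 b c (by simp) (by simp)
    have dc := d3.1 d c (by simp) (by simp)
    refine K_dg (G := fun i j => inner ℝ (D i) (D j)) (a := b) (b := a) (c := d) (d := c)
      ?_ ?_ ?_ ?_ ?_ ?_ (Dg_eq_zero (un b (d2.1 b b (by simp) (by simp)))
        (un a (d2.1 a a (by simp) (by simp))) (un d (d2.1 d d (by simp) (by simp)))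
        (un c (d3.1 c c (by simp) (by simp))) rfl rfl rfl rfl rfl rfl)
    · exact ba ▸ hs b a (Tri.adj21 f.abd)
    · exact bd ▸ hs b d (Tri.adj23 f.abd)
    · exact bc ▸ hs b c (Tri.adj12 f.bcd)
    · exact ad ▸ hs a d (Tri.adj13 f.abd)
    · exact dc ▸ hs d c (Tri.adj32 f.bcd)
    · exact bd ▸ hm'.sq_lt (Tri.adj23 f.abd)
  by_cases k1 : x = a ∧ y = c
  · rw [k1.1, k1.2]
    exact kac
  by_cases k2 : x = c ∧ y = a
  · rw [k2.1, k2.2, hm.1]
    exact kac
  have k' : T'.adj x y := (f.adj_iff x y).2 (Or.inl ⟨k, k1, k2⟩)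
  rw [← h3 x y k k']
  exact hs x y k'

theorem stGenDense : StGenDense := by
  classical
  intro ι _ T G hf hG U hU
  obtain ⟨ε, hε, hU⟩ := Metric.mem_nhds_iff.1 hU
  obtain ⟨A, A1, A2, A3, A4⟩ := exists_edges T
  obtain ⟨g, g1, g2, g3⟩ := exists_indep A (fun p => G p.1 p.2) hε
  refine ⟨fun x y => if (x, y) ∈ A then g (x, y) else if (y, x) ∈ A then g (y, x) else G x y,
    hU ?_, fun x y => ?_, fun s hs => ?_⟩
  · rw [Metric.mem_ball, dist_pi_lt_iff hε]
    intro x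
    rw [dist_pi_lt_iff hε]
    intro y
    split_ifs
    · exact g1 (x, y)
    · rw [hG x y]
      exact g1 (y, x)
    · simpa using hε
  · have := A3 x y
    have := hG x y
    grind
  · have h1 : g '' A ⊆ (AlgebraicIndependent.matroid ℚ ℝ).closure s := by
      rintro _ ⟨⟨x, y⟩, hp, rfl⟩
      have := hs x y (A1 x y hp)
      simp only [if_pos (Finset.mem_coe.1 hp)] at this
      rw [closure_eq]
      exact this
    have h2 := (g2.encard_le_eRk_of_subset h1).trans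
      ((Matroid.eRk_closure_eq _ _).le.trans (Matroid.eRk_le_encard _ _))
    rw [g3.encard_image, Set.encard_coe_eq_coe_finsetCard, Set.encard_coe_eq_coe_finsetCard,
      Nat.cast_le] at h2
    have h3 : 6 * Nat.card ι ≤ _ := hf
    omega

end Pool.Agent.Lib.MP_34b931_co.G
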