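import Pool.Agent.Lib.MP_34b931_co.H22Tri

/-! Flips inside convex developed quadrilaterals are local isometries of the cones. -/

namespace Pool.Agent.Lib.MP_34b931_co.G

open Filter Topology

namespace Iso

variable {ι : Type} {T T' T'' : Tri ι} {G G' G'' : ι → ι → ℝ} {a b c d x y z : ι}

/-- The support of `l` lies in `a, b, c`. -/
def In (l : ι → ℝ) (a b c : ι) : Prop := ∀ i, l i ≠ 0 → i = a ∨ i = b ∨ i = c

theorem adj_of_mem (h : T.F x y z) {i j : ι} (hi : i = x ∨ i = y ∨ i = z)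
    (hj : j = x ∨ j = y ∨ j = z) (hij : i ≠ j) : T.adj i j := by
  rcases hi with rfl | rfl | rfl <;> rcases hj with rfl | rfl | rfl
  exacts [absurd rfl hij, Tri.adj12 h, Tri.adj13 h, Tri.adj21 h, absurd rfl hij, Tri.adj23 h,
    Tri.adj31 h, Tri.adj32 h, absurd rfl hij]

theorem rot_of_mem (h1 : T.F a b c) (h2 : T.F a c d) (h : T.F x y z)
    (ha : a = x ∨ a = y ∨ a = z) (hc : c = x ∨ c = y ∨ c = z) :
    Rot a b c x y z ∨ Rot a c d x y z := by
  have ac := Tri.ne13 h1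
  have h3 := Tri.cyc2 h1
  rcases ha with rfl | rfl | rfl <;> rcases hc with rfl | rfl | rfl
  · exact absurd rfl ac
  · exact Or.inr (Or.inl ⟨rfl, rfl, T.uniq h h2⟩)
  · exact Or.inl (Or.inl ⟨rfl, T.uniq (Tri.cyc2 h) h3, rfl⟩)
  · exact Or.inl (Or.inr (Or.inr ⟨rfl, rfl, T.uniq h h3⟩))
  · exact absurd rfl ac
  · exact Or.inr (Or.inr (Or.inr ⟨T.uniq (T.cyc h) h2, rfl, rfl⟩))
  · exact Or.inr (Or.inr (Or.inl ⟨rfl, T.uniq (Tri.cyc2 h) h2, rfl⟩))
  · exact Or.inl (Or.inr (Or.inl ⟨T.uniq (T.cyc h) h3, rfl, rfl⟩))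
  · exact absurd rfl ac

theorem In.rot {l : ι → ℝ} (r : Rot a b c x y z) (h : In l x y z) : In l a b c := by
  intro i hi
  have := h i hi
  unfold Rot at r
  grind

theorem dev_rot {D : ι → E3} (r : Rot a b c x y z) (h : Dev G D a b c) : Dev G D x y z := by
  rcases r with ⟨rfl, rfl, rfl⟩ | ⟨rfl, rfl, rfl⟩ | ⟨rfl, rfl, rfl⟩
  exacts [h, h.cyc, h.cyc.cyc]

theorem dev_rot' {D : ι → E3} (r : Rot a b c x y z) (h : Dev G D x y z) : Dev G D a b c := by
  rcases r with ⟨rfl, rfl, rfl⟩ | ⟨rfl, rfl, rfl⟩ | ⟨rfl, rfl, rfl⟩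
  exacts [h, h.cyc.cyc, h.cyc]

theorem agree (m : IsMet T G) (m' : IsMet T' G')
    (e : ∀ x y, T.adj x y → T'.adj x y → G' x y = G x y) (h : T.F x y z) (h' : T'.F x y z)
    (i j : ι) (hi : i = x ∨ i = y ∨ i = z) (hj : j = x ∨ j = y ∨ j = z) : G' i j = G i j := by
  rcases eq_or_ne i j with rfl | hij
  · rw [m.2.1, m'.2.1]
  · exact e i j (adj_of_mem h hi hj hij) (adj_of_mem h' hi hj hij)

theorem dev_congr {D D' : ι → E3} (h : Dev G D x y z)
    (e : ∀ i j, (i = x ∨ i = y ∨ i = z) → (j = x ∨ j = y ∨ j = z) → G' i j = G i j)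
    (e' : ∀ i, (i = x ∨ i = y ∨ i = z) → D' i = D i) : Dev G' D' x y z := by
  refine ⟨fun i j hi hj => ?_, ?_⟩
  · rw [e' i hi, e' j hj, e i j hi hj, h.1 i j hi hj]
  · rw [e' x (by simp), e' y (by simp), e' z (by simp)]
    exact h.2

theorem dev_unique {D D' : ι → E3} (h : Dev G D x y z) (h' : Dev G D' x y z) (ex : D' x = D x)
    (ey : D' y = D y) : D' z = D z := by
  have g : ∀ i j, (i = x ∨ i = y ∨ i = z) → (j = x ∨ j = y ∨ j = z) →
      inner ℝ (D' i) (D' j) = inner ℝ (D i) (D j) := fun i j hi hj => by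
    rw [h.1 i j hi hj, h'.1 i j hi hj]
  have e : d3 (D' x) (D' y) (D' z) = d3 (D x) (D y) (D z) := by
    refine (pow_left_inj₀ h'.2.le h.2.le two_ne_zero).1 ?_
    rw [d3_sq, d3_sq, g x x (by simp) (by simp), g y y (by simp) (by simp),
      g z z (by simp) (by simp), g x y (by simp) (by simp), g y z (by simp) (by simp),
      g x z (by simp) (by simp)]
  have h0 : cr3 (D x) (D y) ≠ 0 := fun e => by
    have := h.2
    rw [← inner_cr3, e, inner_zero_left] at this
    exact lt_irrefl _ this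
  refine sub_eq_zero.1 (eq_zero_of_inner3 (a := D x) (b := D y) (c := cr3 (D x) (D y)) ?_ ?_ ?_ ?_)
  · rw [← inner_cr3]
    exact inner_self_ne_zero.2 h0
  · rw [inner_sub_right, ← g x z (by simp) (by simp), ex, sub_self]
  · rw [inner_sub_right, ← g y z (by simp) (by simp), ey, sub_self]
  · rw [inner_sub_right, inner_cr3, inner_cr3, ← e, ex, ey, sub_self]

variable [Fintype ι]

theorem ev_supp (y : ι → ℝ) : ∀ᶠ l in 𝓝 y, ∀ i, y i ≠ 0 → l i ≠ 0 := by
  refine eventually_all.2 fun i => ?_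
  by_cases h : y i = 0
  · exact .of_forall fun l hl => absurd h hl
  · exact ((continuous_apply i).continuousAt.eventually_ne h).mono fun l hl _ => hl

theorem ip_congr {l m : ι → ℝ} (hl : In l x y z) (hm : In m x y z)
    (e : ∀ i j, (i = x ∨ i = y ∨ i = z) → (j = x ∨ j = y ∨ j = z) → G' i j = G i j) :
    ip G' l m = ip G l m := by
  refine Finset.sum_congr rfl fun i _ => Finset.sum_congr rfl fun j _ => ?_
  by_cases hi : l i = 0
  · simp [hi]
  by_cases hj : m j = 0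
  · simp [hj]
  rw [e i j (hl i hi) (hm j hj)]

theorem ip_dev {D : ι → E3} {l m : ι → ℝ} (h : Dev G D x y z) (hl : In l x y z)
    (hm : In m x y z) : ip G l m = inner ℝ (lin D l) (lin D m) := by
  rw [← ip_congr hl hm h.1]
  simp only [ip, lin, sum_inner]
  simp only [inner_sum, real_inner_smul_left, real_inner_smul_right, mul_assoc, mul_left_comm]

theorem lin_congr {D D' : ι → E3} {l : ι → ℝ} (h : ∀ i, l i ≠ 0 → D' i = D i) :
    lin D' l = lin D l := by
  refine Finset.sum_congr rfl fun i _ => ?_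
  by_cases hi : l i = 0
  · simp [hi]
  · rw [h i hi]

variable [DecidableEq ι]

theorem iso1_refl : Iso1 T G T G id :=
  ⟨fun _ h => h, continuousOn_id, fun _ _ _ _ => rfl, fun _ => rfl, fun _ _ h => h,
    fun _ _ => .of_forall fun _ => rfl, fun _ _ _ D h => ⟨D, h, .of_forall fun _ => rfl⟩⟩

theorem iso1_id (m : IsMet T G) (m' : IsMet T G')
    (e : ∀ x y, T.adj x y → T.adj x y → G' x y = G x y) : Iso1 T G T G' id := by
  refine ⟨fun _ h => h, continuousOn_id, fun _ _ _ _ => rfl, fun _ => rfl, fun _ _ h => h,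
    fun y _ => ?_, fun _ _ _ D h => ⟨D, fun p q r k s => dev_congr (h p q r k s)
      (agree m m' e k k) fun _ _ => rfl, .of_forall fun _ => rfl⟩⟩
  filter_upwards [self_mem_nhdsWithin, mem_nhdsWithin_of_mem_nhds (ev_supp y)] with l hl hs
  obtain ⟨-, p, q, r, k, s⟩ := hl
  exact ip_congr s (fun i hi => s i (hs i hi)) (agree m m' e k k)

theorem iso1_comp {f g : (ι → ℝ) → ι → ℝ} (hf : Iso1 T G T' G' f) (hg : Iso1 T' G' T'' G'' g) :
    Iso1 T G T'' G'' (g ∘ f) := by
  have t : ∀ y ∈ T.cone, Tendsto f (𝓝[T.cone] y) (𝓝[T'.cone] (f y)) := fun y hy =>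
    (hf.cont y hy).tendsto_nhdsWithin hf.maps
  refine ⟨hg.maps.comp hf.maps, hg.cont.comp hf.cont hf.maps, fun y hy s hs => ?_, fun i => ?_,
    fun y hy h => hg.nv _ (hf.maps hy) (hf.nv y hy h), fun y hy => ?_, fun y hy h D hD => ?_⟩
  · simp only [Function.comp]
    rw [hf.homog y hy s hs, hg.homog _ (hf.maps hy) s hs]
  · simp only [Function.comp]
    rw [hf.vert, hg.vert]
  · filter_upwards [hf.f1 y hy, (t y hy).eventually (hg.f1 _ (hf.maps hy))] with l h1 h2
    exact h2.trans h1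
  · obtain ⟨D', h1, h2⟩ := hf.ct y hy h D hD
    obtain ⟨D'', h3, h4⟩ := hg.ct _ (hf.maps hy) (hf.nv y hy h) D' h1
    refine ⟨D'', h3, ?_⟩
    filter_upwards [h2, (t y hy).eventually h4] with l h5 h6
    exact h6.trans h5

/-- The flip map. -/
noncomputable def fl (a b c d : ι) (α β γ δ : ℝ) (l : ι → ℝ) : ι → ℝ :=
  l + min (l a / α) (l c / γ) • (Pi.single b β + Pi.single d δ - Pi.single a α - Pi.single c γ)

omit [Fintype ι] in
theorem fl_rot (a b c d : ι) (α β γ δ : ℝ) : fl c d a b γ δ α β = fl a b c d α β γ δ := by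
  funext l
  rw [fl, fl, min_comm]
  congr 2
  abel

theorem lin_fl {D : ι → E3} {α β γ δ : ℝ} (h : β • D b + δ • D d = α • D a + γ • D c)
    (l : ι → ℝ) : lin D (fl a b c d α β γ δ l) = lin D l := by
  have e : ∑ i, (Pi.single b β + Pi.single d δ - Pi.single a α - Pi.single c γ : ι → ℝ) i • D i
      = 0 := by
    simp only [Pi.add_apply, Pi.sub_apply, add_smul, sub_smul, Finset.sum_add_distrib,
      Finset.sum_sub_distrib, Pi.single_apply, ite_smul, zero_smul, Finset.sum_ite_eq',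
      Finset.mem_univ, if_true, h]
    abel
  simp only [lin, fl, Pi.add_apply _ (_ • _), Pi.smul_apply, smul_eq_mul, add_smul, mul_smul,
    Finset.sum_add_distrib, ← Finset.smul_sum, e, smul_zero, add_zero]

/-- The data of a flip. -/
structure FD (T T' : Tri ι) (G G' : ι → ι → ℝ) (a b c d : ι) (D : ι → E3) (α β γ δ : ℝ) :
    Prop where
  fl : IsFlip T T' a b c d
  m : IsMet T G
  m' : IsMet T' G'
  e : ∀ x y, T.adj x y → T'.adj x y → G' x y = G x y
  d1 : Dev G D a b c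
  d2 : Dev G D a c d
  d3 : Dev G' D a b d
  d4 : Dev G' D b c d
  pa : 0 < α
  pb : 0 < β
  pc : 0 < γ
  pd : 0 < δ
  rel : β • D b + δ • D d = α • D a + γ • D c

variable {D : ι → E3} {α β γ δ : ℝ}

omit [Fintype ι] [DecidableEq ι] in
theorem FD.symm (h : FD T T' G G' a b c d D α β γ δ) : FD T' T G' G b c d a D β γ δ α :=
  ⟨h.fl.symm, h.m', h.m, fun x y k k' => (h.e x y k' k).symm, h.d4, h.d3.cyc, h.d1.cyc, h.d2.cyc,
    h.pb, h.pc, h.pd, h.pa, by rw [h.rel, add_comm]⟩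

omit [Fintype ι] in
theorem FD.vals (h : FD T T' G G' a b c d D α β γ δ) (l : ι → ℝ) :
    Iso.fl a b c d α β γ δ l a = l a - min (l a / α) (l c / γ) * α ∧
    Iso.fl a b c d α β γ δ l b = l b + min (l a / α) (l c / γ) * β ∧
    Iso.fl a b c d α β γ δ l c = l c - min (l a / α) (l c / γ) * γ ∧
    Iso.fl a b c d α β γ δ l d = l d + min (l a / α) (l c / γ) * δ ∧
    ∀ i, i ≠ a → i ≠ b → i ≠ c → i ≠ d → Iso.fl a b c d α β γ δ l i = l i := by
  have ab := T.ne h.fl.1
  have bc := Tri.ne23 h.fl.1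
  have ac := Tri.ne13 h.fl.1
  have cd := Tri.ne23 h.fl.2.1
  have ad := Tri.ne13 h.fl.2.1
  have bd := h.fl.bd
  refine ⟨?_, ?_, ?_, ?_, fun i h1 h2 h3 h4 => ?_⟩ <;>
    simp [Iso.fl, sub_eq_add_neg, ab.symm, bc.symm, ac.symm, cd.symm, ad.symm, bd.symm, *]

omit [Fintype ι] in
theorem FD.fix (h : FD T T' G G' a b c d D α β γ δ) {l : ι → ℝ} (h0 : ∀ i, 0 ≤ l i)
    (h1 : l a = 0 ∨ l c = 0) : Iso.fl a b c d α β γ δ l = l := by
  have : min (l a / α) (l c / γ) = 0 := by
    rcases h1 with e | e <;> rw [e, zero_div]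
    exacts [min_eq_left (div_nonneg (h0 c) h.pc.le), min_eq_right (div_nonneg (h0 a) h.pa.le)]
  rw [Iso.fl, this, zero_smul, add_zero]

omit [Fintype ι] in
theorem FD.fix_or (h : FD T T' G G' a b c d D α β γ δ) {l : ι → ℝ} (h0 : ∀ i, 0 ≤ l i) :
    Iso.fl a b c d α β γ δ l = l ∨
      (Iso.fl a b c d α β γ δ l b ≠ 0 ∧ Iso.fl a b c d α β γ δ l d ≠ 0) := by
  by_cases h1 : l a = 0 ∨ l c = 0
  · exact Or.inl (h.fix h0 h1)
  · rw [not_or] at h1
    have hm : 0 < min (l a / α) (l c / γ) := lt_min (div_pos ((h0 a).lt_of_ne' h1.1) h.pa)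
      (div_pos ((h0 c).lt_of_ne' h1.2) h.pc)
    obtain ⟨-, e1, -, e2, -⟩ := h.vals l
    rw [e1, e2]
    exact Or.inr ⟨(add_pos_of_nonneg_of_pos (h0 b) (mul_pos hm h.pb)).ne',
      (add_pos_of_nonneg_of_pos (h0 d) (mul_pos hm h.pd)).ne'⟩

omit [Fintype ι] [DecidableEq ι] in
theorem FD.bd0 (h : FD T T' G G' a b c d D α β γ δ) {l : ι → ℝ} (hl : l ∈ T.cone) :
    l b = 0 ∨ l d = 0 := by
  obtain ⟨-, p, q, r, k, s⟩ := hl
  by_contra e
  rw [not_or] at e
  exact h.fl.2.2.1 (adj_of_mem k (s b e.1) (s d e.2) h.fl.bd)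

omit [Fintype ι] [DecidableEq ι] in
theorem FD.out (h : FD T T' G G' a b c d D α β γ δ) {l : ι → ℝ} (hl : l ∈ T.cone)
    (h1 : ¬ In l a b c) (h2 : ¬ In l a c d) :
    (l a = 0 ∨ l c = 0) ∧ ∃ p q r, T.F p q r ∧ T'.F p q r ∧ In l p q r := by
  obtain ⟨-, p, q, r, k, s⟩ := hl
  have n1 : ¬ Rot a b c p q r := fun e => h1 (In.rot e s)
  have n2 : ¬ Rot a c d p q r := fun e => h2 (In.rot e s)
  refine ⟨?_, p, q, r, k, (h.fl.2.2.2 p q r).2 (Or.inl ⟨k, n1, n2⟩), s⟩
  by_contra e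
  rw [not_or] at e
  exact (rot_of_mem h.fl.1 h.fl.2.1 k (s a e.1) (s c e.2)).elim n1 n2

omit [Fintype ι] in
theorem FD.inn (h : FD T T' G G' a b c d D α β γ δ) {l : ι → ℝ}
    (h1 : In l a b c ∨ In l a c d) :
    In (Iso.fl a b c d α β γ δ l) a b d ∨ In (Iso.fl a b c d α β γ δ l) b c d := by
  obtain ⟨e1, -, e2, -, e3⟩ := h.vals l
  have s : ∀ i, Iso.fl a b c d α β γ δ l i ≠ 0 → i = a ∨ i = b ∨ i = c ∨ i = d := by
    intro i hi
    by_contra e
    simp only [not_or] at e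
    rw [e3 i e.1 e.2.1 e.2.2.1 e.2.2.2] at hi
    rcases h1 with h1 | h1 <;> have := h1 i hi <;> grind
  rcases min_choice (l a / α) (l c / γ) with e | e
  · rw [e, div_mul_cancel₀ _ h.pa.ne', sub_self] at e1
    exact Or.inr fun i hi => by have := s i hi; grind
  · rw [e, div_mul_cancel₀ _ h.pc.ne', sub_self] at e2
    exact Or.inl fun i hi => by have := s i hi; grind

omit [Fintype ι] in
theorem FD.maps (h : FD T T' G G' a b c d D α β γ δ) :
    Set.MapsTo (Iso.fl a b c d α β γ δ) T.cone T'.cone := by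
  intro l hl
  have h0 := hl.1
  by_cases h1 : In l a b c ∨ In l a c d
  · refine ⟨fun i => ?_, ?_⟩
    · obtain ⟨e1, e2, e3, e4, e5⟩ := h.vals l
      have hm : 0 ≤ min (l a / α) (l c / γ) := le_min (div_nonneg (h0 a) h.pa.le)
        (div_nonneg (h0 c) h.pc.le)
      by_cases ia : i = a
      · rw [ia, e1, sub_nonneg]
        exact (le_div_iff₀ h.pa).1 (min_le_left _ _)
      by_cases ib : i = b
      · rw [ib, e2]
        exact add_nonneg (h0 b) (mul_nonneg hm h.pb.le)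
      by_cases ic : i = c
      · rw [ic, e3, sub_nonneg]
        exact (le_div_iff₀ h.pc).1 (min_le_right _ _)
      by_cases id : i = d
      · rw [id, e4]
        exact add_nonneg (h0 d) (mul_nonneg hm h.pd.le)
      rw [e5 i ia ib ic id]
      exact h0 i
    · rcases h.inn h1 with e | e
      exacts [⟨a, b, d, h.fl.abd, e⟩, ⟨b, c, d, h.fl.bcd, e⟩]
  · rw [not_or] at h1
    obtain ⟨e, p, q, r, -, k, s⟩ := h.out hl h1.1 h1.2
    rw [h.fix h0 e]
    exact ⟨h0, p, q, r, k, s⟩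

omit [Fintype ι] in
theorem FD.inv (h : FD T T' G G' a b c d D α β γ δ) {l : ι → ℝ} (hl : l ∈ T.cone) :
    Iso.fl b c d a β γ δ α (Iso.fl a b c d α β γ δ l) = l := by
  obtain ⟨-, e1, -, e2, -⟩ := h.vals l
  have e : min (Iso.fl a b c d α β γ δ l b / β) (Iso.fl a b c d α β γ δ l d / δ) =
      min (l a / α) (l c / γ) := by
    rw [e1, e2, add_div, add_div, mul_div_cancel_right₀ _ h.pb.ne',
      mul_div_cancel_right₀ _ h.pd.ne', min_add_add_right]
    rcases h.bd0 hl with e | e <;> rw [e, zero_div]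
    · rw [min_eq_left (div_nonneg (hl.1 d) h.pd.le), zero_add]
    · rw [min_eq_right (div_nonneg (hl.1 b) h.pb.le), zero_add]
  rw [Iso.fl, e, Iso.fl, add_assoc, ← smul_add]
  convert add_zero l
  convert smul_zero _
  abel

omit [Fintype ι] in
theorem fl_cont : Continuous (Iso.fl a b c d α β γ δ) := by
  unfold Iso.fl
  fun_prop

theorem FD.f1 (h : FD T T' G G' a b c d D α β γ δ) (y : ι → ℝ) (hy : y ∈ T.cone) :
    ∀ᶠ l in 𝓝[T.cone] y, ip G' (Iso.fl a b c d α β γ δ l) (Iso.fl a b c d α β γ δ y) =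
      ip G l y := by
  filter_upwards [self_mem_nhdsWithin, mem_nhdsWithin_of_mem_nhds (ev_supp y),
    mem_nhdsWithin_of_mem_nhds (fl_cont.continuousAt.eventually
      (ev_supp (Iso.fl a b c d α β γ δ y)))] with l hl hs hs'
  by_cases h1 : In l a b c ∨ In l a c d
  · have e1 : ip G l y = inner ℝ (lin D l) (lin D y) := by
      rcases h1 with e | e
      exacts [ip_dev h.d1 e fun i hi => e i (hs i hi), ip_dev h.d2 e fun i hi => e i (hs i hi)]
    rw [e1, ← lin_fl h.rel l, ← lin_fl h.rel y]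
    rcases h.inn h1 with e | e
    exacts [ip_dev h.d3 e fun i hi => e i (hs' i hi), ip_dev h.d4 e fun i hi => e i (hs' i hi)]
  · rw [not_or] at h1
    obtain ⟨e, p, q, r, k, k', s⟩ := h.out hl h1.1 h1.2
    rw [h.fix hl.1 e, h.fix hy.1 (e.imp (fun e => by_contra fun n => hs a n e)
      fun e => by_contra fun n => hs c n e)]
    exact ip_congr s (fun i hi => s i (hs i hi)) (agree h.m h.m' h.e k k')

omit [Fintype ι] [DecidableEq ι] in
theorem FD.transfer (h : FD T T' G G' a b c d D α β γ δ) {D' : ι → E3} (h1 : Dev G D' a b c)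
    (rel : β • D' b + δ • D' d = α • D' a + γ • D' c) :
    Dev G D' a c d ∧ Dev G' D' a b d ∧ Dev G' D' b c d := by
  have ed : ∀ {E : ι → E3}, β • E b + δ • E d = α • E a + γ • E c →
      E d = δ⁻¹ • (α • E a + γ • E c - β • E b) := fun {E} e => by
    rw [← e, add_sub_cancel_left, inv_smul_smul₀ h.pd.ne']
  have g0 : ∀ i j, (i = a ∨ i = b ∨ i = c) → (j = a ∨ j = b ∨ j = c) →
      inner ℝ (D' i) (D' j) = inner ℝ (D i) (D j) := fun i j hi hj => by
    rw [h1.1 i j hi hj, h.d1.1 i j hi hj]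
  have g1 : ∀ i, (i = a ∨ i = b ∨ i = c) → inner ℝ (D' i) (D' d) = inner ℝ (D i) (D d) := by
    intro i hi
    rw [ed rel, ed h.rel]
    simp only [inner_smul_right, inner_sub_right, inner_add_right]
    rw [g0 i a hi (by simp), g0 i b hi (by simp), g0 i c hi (by simp)]
  have g2 : ∀ i, (i = a ∨ i = b ∨ i = c ∨ i = d) → ∀ j, (j = a ∨ j = b ∨ j = c) →
      inner ℝ (D' j) (D' i) = inner ℝ (D j) (D i) := by
    intro i hi j hj
    by_cases e : i = d
    · rw [e, g1 j hj]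
    · exact g0 j i hj (by grind)
  have g : ∀ i j, (i = a ∨ i = b ∨ i = c ∨ i = d) → (j = a ∨ j = b ∨ j = c ∨ j = d) →
      inner ℝ (D' i) (D' j) = inner ℝ (D i) (D j) := by
    intro i j hi hj
    by_cases e : i = d
    · rw [e, ed rel, ed h.rel]
      simp only [real_inner_smul_left, inner_sub_left, inner_add_left]
      rw [g2 j hj a (by simp), g2 j hj b (by simp), g2 j hj c (by simp)]
    · exact g2 j hj i (by grind)
  have p := h1.2
  have pd := inv_pos.2 h.pd
  refine ⟨⟨fun i j hi hj => ?_, ?_⟩, ⟨fun i j hi hj => ?_, ?_⟩, ⟨fun i j hi hj => ?_, ?_⟩⟩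
  · rw [g i j (by grind) (by grind), h.d2.1 i j hi hj]
  · refine (mul_pos pd (mul_pos h.pb p)).trans_eq ?_
    rw [ed rel]
    simp [MP_34b931_co.G.d3]
    ring
  · rw [g i j (by grind) (by grind), h.d3.1 i j hi hj]
  · refine (mul_pos pd (mul_pos h.pc p)).trans_eq ?_
    rw [ed rel]
    simp [MP_34b931_co.G.d3]
    ring
  · rw [g i j (by grind) (by grind), h.d4.1 i j hi hj]
  · refine (mul_pos pd (mul_pos h.pa p)).trans_eq ?_
    rw [ed rel]
    simp [MP_34b931_co.G.d3]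
    ring

theorem FD.ct1 (h : FD T T' G G' a b c d D α β γ δ) {y : ι → ℝ} (hy : y ∈ T.cone) (nv : NV y)
    (h1 : In y a b c) {D0 : ι → E3} (hD : Adm T G y D0) :
    ∃ D', Adm T' G' (Iso.fl a b c d α β γ δ y) D' ∧
      ∀ᶠ l in 𝓝[T.cone] y, lin D' (Iso.fl a b c d α β γ δ l) = lin D0 l := by
  have cd := Tri.ne23 h.fl.2.1
  have ad := Tri.ne13 h.fl.2.1
  have bd := h.fl.bd
  obtain ⟨D', e0, rel⟩ : ∃ D' : ι → E3, (∀ i, i ≠ d → D' i = D0 i) ∧
      β • D' b + δ • D' d = α • D' a + γ • D' c := by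
    refine ⟨Function.update D0 d (δ⁻¹ • (α • D0 a + γ • D0 c - β • D0 b)),
      fun i hi => Function.update_of_ne hi _ _, ?_⟩
    rw [Function.update_of_ne bd, Function.update_of_ne ad, Function.update_of_ne cd,
      Function.update_self, smul_inv_smul₀ h.pd.ne', add_sub_cancel]
  obtain ⟨t1, t2, t3⟩ := h.transfer (dev_congr (hD a b c h.fl.1 h1) (fun _ _ _ _ => rfl)
    fun i hi => e0 i (by grind)) rel
  have key : ∀ p q r, T.F p q r → In y p q r → (d = p ∨ d = q ∨ d = r) → Rot a c d p q r := by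
    intro p q r k s hd
    obtain ⟨i, j, ij, hi, hj⟩ := nv
    have nb : ¬ (b = p ∨ b = q ∨ b = r) := fun hb => h.fl.2.2.1 (adj_of_mem k hb hd bd)
    have i1 := h1 i hi
    have i2 := s i hi
    have j1 := h1 j hj
    have j2 := s j hj
    refine (rot_of_mem h.fl.1 h.fl.2.1 k (by grind) (by grind)).resolve_left fun e => nb ?_
    unfold Rot at e
    grind
  refine ⟨D', fun p q r k s => ?_, ?_⟩
  · rcases (h.fl.2.2.2 p q r).1 k with ⟨k0, -, n2⟩ | e | e
    · rcases h.fix_or hy.1 with e | e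
      · rw [e] at s
        exact dev_congr (hD p q r k0 s) (agree h.m h.m' h.e k0 k) fun i hi =>
          e0 i fun e => n2 (key p q r k0 s (e ▸ hi))
      · exact absurd (adj_of_mem k0 (s b e.1) (s d e.2) bd) h.fl.2.2.1
    · exact dev_rot e t2
    · exact dev_rot e t3
  · filter_upwards [self_mem_nhdsWithin, mem_nhdsWithin_of_mem_nhds (ev_supp y)] with l hl hs
    rw [lin_fl rel]
    refine lin_congr fun i hi => ?_
    by_cases e : i = d
    · obtain ⟨-, p, q, r, k, s⟩ := hl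
      have s' : In y p q r := fun j hj => s j (hs j hj)
      rw [e] at hi ⊢
      exact dev_unique (dev_rot' (key p q r k s' (s d hi)) (hD p q r k s')) t1 (e0 a ad) (e0 c cd)
    · exact e0 i e

theorem FD.iso1 (h : FD T T' G G' a b c d D α β γ δ) :
    Iso1 T G T' G' (Iso.fl a b c d α β γ δ) := by
  refine ⟨h.maps, fl_cont.continuousOn, fun y _ t ht => ?_, fun i => h.fix (fun j => ?_) ?_,
    fun y hy nv => ?_, h.f1, fun y hy nv D0 hD => ?_⟩
  · simp only [Iso.fl, Pi.smul_apply, smul_eq_mul, mul_div_assoc, ← mul_min_of_nonneg _ _ ht,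
      smul_add t, mul_smul]
  · rw [Pi.single_apply]
    split_ifs <;> norm_num
  · have ac := Tri.ne13 h.fl.1
    by_cases e : a = i
    · exact Or.inr (Pi.single_eq_of_ne (e ▸ ac.symm) _)
    · exact Or.inl (Pi.single_eq_of_ne e _)
  · rcases h.fix_or hy.1 with e | e
    · rwa [e]
    · exact ⟨b, d, h.fl.bd, e⟩
  by_cases h1 : In y a b c
  · exact h.ct1 hy nv h1 hD
  by_cases h2 : In y a c d
  · rw [← fl_rot]
    exact h.symm.symm.ct1 hy nv (fun i hi => by have := h2 i hi; grind) hD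
  refine ⟨D0, fun p q r k s => ?_, ?_⟩
  · rw [h.fix hy.1 (h.out hy h1 h2).1] at s
    have z := h.bd0 hy
    rcases (h.fl.2.2.2 p q r).1 k with ⟨k0, -⟩ | e | e
    · exact dev_congr (hD p q r k0 s) (agree h.m h.m' h.e k0 k) fun _ _ => rfl
    · have s' := In.rot e s
      rcases z with z | z
      · exact absurd (fun i hi => by have := s' i hi; grind) h2
      · exact absurd (fun i hi => by have := s' i hi; grind) h1
    · have s' := In.rot e s
      rcases z with z | z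
      · exact absurd (fun i hi => by have := s' i hi; grind) h2
      · exact absurd (fun i hi => by have := s' i hi; grind) h1
  · filter_upwards [self_mem_nhdsWithin, mem_nhdsWithin_of_mem_nhds (ev_supp y)] with l hl hs
    rw [h.fix hl.1 (h.out hl (fun e => h1 fun i hi => e i (hs i hi))
      fun e => h2 fun i hi => e i (hs i hi)).1]

theorem step_iso (h : Step (T, G) (T', G')) : Iso T G T' G' := by
  obtain ⟨m, m', e, rfl | ⟨a, b, c, d, D, f, d1, d2, d3, d4⟩⟩ := h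
  · exact ⟨id, id, iso1_id m m' e, iso1_id m' m fun x y k k' => (e x y k' k).symm,
      fun _ _ => rfl, fun _ _ => rfl⟩
  · have h : FD T T' G G' a b c d D _ _ _ _ := ⟨f, m, m', e, d1, d2, d3, d4, d4.2, d2.2, d3.2, d1.2,
      by apply ext3 <;> simp [MP_34b931_co.G.d3] <;> ring⟩
    refine ⟨_, _, h.iso1, h.symm.iso1, fun y hy => h.inv hy, fun y hy => ?_⟩
    rw [← fl_rot]
    exact h.symm.inv hy

end Iso

theorem stIso : StIso := by
  intro ι _ _ T T' G G' h
  have key : ∀ Y : Tri ι × (ι → ι → ℝ), Relation.ReflTransGen Step (T, G) Y →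
      Iso T G Y.1 Y.2 := by
    intro Y hY
    induction hY with
    | refl => exact ⟨id, id, Iso.iso1_refl, Iso.iso1_refl, fun _ _ => rfl, fun _ _ => rfl⟩
    | tail _ s ih =>
      obtain ⟨f, g, h1, h2, h3, h4⟩ := ih
      obtain ⟨f', g', k1, k2, k3, k4⟩ := Iso.step_iso s
      refine ⟨f' ∘ f, g ∘ g', Iso.iso1_comp h1 k1, Iso.iso1_comp k2 h2, fun y hy => ?_,
        fun y hy => ?_⟩
      · simp only [Function.comp]
        rw [k3 _ (h1.maps hy), h3 y hy]
      · simp only [Function.comp]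
        rw [h4 _ (k2.maps hy), k4 y hy]
  exact key _ h

end Pool.Agent.Lib.MP_34b931_co.G
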