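import Pool.Agent.Lib.MP_34b931_co.H22Tri

/-! The local lemma for two convex cones in `E3`. -/

namespace Pool.Agent.Lib.MP_34b931_co.G

open Filter Topology

namespace LL

open Real

/-- The angle in `(0, π)` with cotangent `N / D`. -/
noncomputable def ang (N D : ℝ) : ℝ := π / 2 - arctan (N / D)

theorem ang_pos (N D : ℝ) : 0 < ang N D := by
  have := arctan_lt_pi_div_two (N / D); unfold ang; linarith

theorem ang_lt (N D : ℝ) : ang N D < π := by
  have := neg_pi_div_two_lt_arctan (N / D); unfold ang; linarith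

theorem polar (N D : ℝ) (hD : 0 < D) :
    ∃ ρ, 0 < ρ ∧ N = ρ * cos (ang N D) ∧ D = ρ * sin (ang N D) := by
  have h : 0 < √(1 + (N / D) ^ 2) := sqrt_pos.2 (by positivity)
  refine ⟨D * √(1 + (N / D) ^ 2), by positivity, ?_, ?_⟩
  · rw [ang, cos_pi_div_two_sub, sin_arctan]; field_simp
  · rw [ang, sin_pi_div_two_sub, cos_arctan]; field_simp

/-- A closed planar polygon turning left around the origin has total angle at least `2π`. -/
theorem sum_ge {K : Type} [Fintype K] [Nonempty K] (σ : Equiv.Perm K) (x y : K → ℝ)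
    (h : ∀ k, 0 < x k * y (σ k) - y k * x (σ k)) :
    2 * π ≤ ∑ k, ang (x k * x (σ k) + y k * y (σ k)) (x k * y (σ k) - y k * x (σ k)) := by
  classical
  choose ρ hρ hc hs using fun k => polar (x k * x (σ k) + y k * y (σ k)) _ (h k)
  set θ : K → ℝ := fun k => ang (x k * x (σ k) + y k * y (σ k)) (x k * y (σ k) - y k * x (σ k))
    with hθ
  let z : K → ℂ := fun k => ⟨x k, y k⟩
  have hz : ∀ k, z (σ k) * (starRingEnd ℂ) (z k) = (ρ k : ℂ) * Complex.exp (θ k * Complex.I) := by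
    intro k
    apply Complex.ext
    · simp only [z, Complex.mul_re, Complex.conj_re, Complex.conj_im, Complex.ofReal_re,
        Complex.ofReal_im, Complex.exp_ofReal_mul_I_re, Complex.exp_ofReal_mul_I_im]
      have := hc k
      linarith
    · simp only [z, Complex.mul_im, Complex.conj_re, Complex.conj_im, Complex.ofReal_re,
        Complex.ofReal_im, Complex.exp_ofReal_mul_I_re, Complex.exp_ofReal_mul_I_im]
      have := hs k
      linarith
  have hp : ∏ k, (z (σ k) * (starRingEnd ℂ) (z k)) = ((∏ k, Complex.normSq (z k) : ℝ) : ℂ) := by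
    rw [Finset.prod_mul_distrib, Equiv.prod_comp σ z, ← Finset.prod_mul_distrib]
    simp only [Complex.mul_conj, Complex.ofReal_prod]
  have hq : ∏ k, (z (σ k) * (starRingEnd ℂ) (z k)) =
      ((∏ k, ρ k : ℝ) : ℂ) * Complex.exp ((∑ k, θ k : ℝ) * Complex.I) := by
    simp only [hz]
    rw [Finset.prod_mul_distrib, ← Complex.exp_sum, Complex.ofReal_prod, Complex.ofReal_sum,
      Finset.sum_mul]
  have hR : 0 < ∏ k, ρ k := Finset.prod_pos fun k _ => hρ k
  have hN : 0 ≤ ∏ k, Complex.normSq (z k) := Finset.prod_nonneg fun k _ => Complex.normSq_nonneg _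
  have e := hp.symm.trans hq
  have e1 := congrArg Complex.re e
  have e2 := congrArg Complex.im e
  simp only [Complex.mul_re, Complex.mul_im, Complex.ofReal_re, Complex.ofReal_im,
    Complex.exp_ofReal_mul_I_re, Complex.exp_ofReal_mul_I_im] at e1 e2
  have s0 : sin (∑ k, θ k) = 0 := by
    have : (∏ k, ρ k) * sin (∑ k, θ k) = 0 := by linarith
    exact (mul_eq_zero.1 this).resolve_left hR.ne'
  have c0 : 0 ≤ cos (∑ k, θ k) := by
    have : 0 ≤ (∏ k, ρ k) * cos (∑ k, θ k) := by linarith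
    exact nonneg_of_mul_nonneg_right this hR |> fun h => h
  have c1 : cos (∑ k, θ k) = 1 := by
    have := sin_sq_add_cos_sq (∑ k, θ k)
    rw [s0] at this
    nlinarith
  obtain ⟨n, hn⟩ := (cos_eq_one_iff _).1 c1
  have hpos : 0 < ∑ k, θ k := Finset.sum_pos (fun k _ => ang_pos _ _) Finset.univ_nonempty
  have hn1 : (1 : ℝ) ≤ n := by
    have : (0 : ℝ) < n := by
      by_contra hh
      have := mul_nonpos_of_nonpos_of_nonneg (not_lt.1 hh) (by positivity : (0 : ℝ) ≤ 2 * π)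
      linarith
    exact_mod_cast this
  rw [← hn]
  nlinarith [pi_pos]

/-- The open arc of directions between two plane vectors. -/
def arc (x y x' y' : ℝ) : Set ℝ :=
  {φ | 0 < (x * y' - y * x') * (x * sin φ - y * cos φ) ∧
    0 < (x * y' - y * x') * (cos φ * y' - sin φ * x')}

theorem arc_symm (x y x' y' : ℝ) : arc x' y' x y = arc x y x' y' := by
  ext φ
  simp only [arc, Set.mem_ofPred_eq]
  constructor <;> rintro ⟨h1, h2⟩ <;> constructor <;> linarith

theorem arc_open (x y x' y' : ℝ) : IsOpen (arc x y x' y') := by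
  have h1 : Continuous fun φ : ℝ => (x * y' - y * x') * (x * sin φ - y * cos φ) := by fun_prop
  have h2 : Continuous fun φ : ℝ => (x * y' - y * x') * (cos φ * y' - sin φ * x') := by fun_prop
  exact (isOpen_lt continuous_const h1).inter (isOpen_lt continuous_const h2)

theorem arc_sub (x y x' y' : ℝ) (h : 0 < x * y' - y * x') :
    ∃ φ, Set.Ioo φ (φ + ang (x * x' + y * y') (x * y' - y * x')) ⊆ arc x y x' y' := by
  obtain ⟨ρ, hρ, hc, hs⟩ := polar (x * x' + y * y') _ h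
  set θ := ang (x * x' + y * y') (x * y' - y * x') with hθ
  have hθ1 : θ < π := ang_lt _ _
  let z : ℂ := ⟨x, y⟩
  have hz : z ≠ 0 := by
    intro h0
    have h1 : x = 0 := congrArg Complex.re h0
    have h2 : y = 0 := congrArg Complex.im h0
    rw [h1, h2] at h
    simp at h
  have hr : 0 < ‖z‖ := norm_pos_iff.2 hz
  have hx : x = ‖z‖ * cos (Complex.arg z) := (Complex.norm_mul_cos_arg z).symm
  have hy : y = ‖z‖ * sin (Complex.arg z) := (Complex.norm_mul_sin_arg z).symm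
  set r := ‖z‖
  set φ := Complex.arg z
  refine ⟨φ, fun ψ hψ => ?_⟩
  obtain ⟨h1, h2⟩ := hψ
  have s1 : 0 < sin (ψ - φ) := sin_pos_of_pos_of_lt_pi (by linarith) (by linarith)
  have s2 : 0 < sin (θ - (ψ - φ)) := sin_pos_of_pos_of_lt_pi (by linarith) (by linarith)
  have t := sin_sq_add_cos_sq φ
  refine ⟨mul_pos h ?_, mul_pos h ?_⟩
  · have : x * sin ψ - y * cos ψ = r * sin (ψ - φ) := by
      rw [sin_sub]; rw [hx, hy]; ring
    rw [this]; positivity
  · have : r * (cos ψ * y' - sin ψ * x') = ρ * sin (θ - (ψ - φ)) := by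
      rw [sin_sub, sin_sub, cos_sub]
      have e1 : ρ * cos θ = r * (cos φ * x' + sin φ * y') := by rw [← hc, hx, hy]; ring
      have e2 : ρ * sin θ = r * (cos φ * y' - sin φ * x') := by rw [← hs, hx, hy]; ring
      linear_combination (-(cos ψ * cos φ + sin ψ * sin φ)) * e2
        + (sin ψ * cos φ - cos ψ * sin φ) * e1 - r * (cos ψ * y' - sin ψ * x') * t
    have h3 : 0 < r * (cos ψ * y' - sin ψ * x') := by rw [this]; positivity
    exact (pos_iff_pos_of_mul_pos h3).1 hr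

theorem arc_sub' (x y x' y' : ℝ) (h : x * y' - y * x' ≠ 0) :
    ∃ φ, Set.Ioo φ (φ + ang (x * x' + y * y') |x * y' - y * x'|) ⊆ arc x y x' y' := by
  rcases lt_or_gt_of_ne h with h | h
  · obtain ⟨φ, hφ⟩ := arc_sub x' y' x y (by linarith)
    refine ⟨φ, ?_⟩
    rw [abs_of_neg h, ← arc_symm, show x * x' + y * y' = x' * x + y' * y by ring,
      show -(x * y' - y * x') = x' * y - y' * x by ring]
    exact hφ
  · rw [abs_of_pos h]; exact arc_sub x y x' y' h

theorem arc_vol (x y x' y' : ℝ) (h : x * y' - y * x' ≠ 0) :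
    ENNReal.ofReal (ang (x * x' + y * y') |x * y' - y * x'|) ≤
      MeasureTheory.volume (arc x y x' y' ∩ Set.Ioc 0 (0 + 2 * π)) := by
  obtain ⟨φ, hφ⟩ := arc_sub' x y x' y' h
  have hT : 0 < 2 * π := by positivity
  have e := (isAddFundamentalDomain_Ioc hT 0 MeasureTheory.volume).measure_set_eq
    (isAddFundamentalDomain_Ioc hT φ MeasureTheory.volume) (arc_open x y x' y').measurableSet
    (by
      rintro ⟨g, n, rfl⟩
      ext ψ
      have e1 : sin (n • (2 * π) + ψ) = sin ψ := by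
        rw [zsmul_eq_mul, add_comm]; exact sin_add_int_mul_two_pi ψ n
      have e2 : cos (n • (2 * π) + ψ) = cos ψ := by
        rw [zsmul_eq_mul, add_comm]; exact cos_add_int_mul_two_pi ψ n
      change (0 < _ * (x * sin (n • (2 * π) + ψ) - y * cos (n • (2 * π) + ψ)) ∧
        0 < _ * (cos (n • (2 * π) + ψ) * y' - sin (n • (2 * π) + ψ) * x')) ↔ _
      rw [e1, e2]; rfl)
  rw [e]
  have hl := ang_lt (x * x' + y * y') |x * y' - y * x'|
  calc _ = MeasureTheory.volume (Set.Ioo φ (φ + ang (x * x' + y * y') |x * y' - y * x'|)) := by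
        rw [Real.volume_Ioo, add_sub_cancel_left]
    _ ≤ _ := MeasureTheory.measure_mono fun ψ hψ =>
        Set.mem_inter (hφ hψ) (Set.mem_Ioc.2 ⟨hψ.1, by linarith [hψ.2, pi_pos]⟩)

/-- Pairwise disjoint arcs have total angle at most `2π`. -/
theorem sum_le {K : Type} [Fintype K] (x y x' y' : K → ℝ) (h : ∀ k, x k * y' k - y k * x' k ≠ 0)
    (hd : ∀ k l, k ≠ l → ∀ α β α' β' : ℝ, 0 < α → 0 < β → 0 < α' → 0 < β' →
      α * x k + β * x' k = α' * x l + β' * x' l → α * y k + β * y' k ≠ α' * y l + β' * y' l) :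
    ∑ k, ang (x k * x' k + y k * y' k) |x k * y' k - y k * x' k| ≤ 2 * π := by
  classical
  have key : ∀ k φ, φ ∈ arc (x k) (y k) (x' k) (y' k) → ∃ α β : ℝ, 0 < α ∧ 0 < β ∧
      α * x k + β * x' k = cos φ ∧ α * y k + β * y' k = sin φ := by
    rintro k φ ⟨h1, h2⟩
    have h0 := h k
    have h3 : 0 < (x k * y' k - y k * x' k) ^ 2 := by positivity
    refine ⟨_ / _, _ / _, div_pos h2 h3, div_pos h1 h3, ?_, ?_⟩ <;> field_simp <;> ring
  have hdis : Set.PairwiseDisjoint (↑(Finset.univ : Finset K))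
      fun k => arc (x k) (y k) (x' k) (y' k) ∩ Set.Ioc 0 (0 + 2 * π) := by
    intro k _ l _ hkl
    refine Set.disjoint_left.2 fun φ h1 h2 => ?_
    obtain ⟨α, β, a1, a2, a3, a4⟩ := key k φ h1.1
    obtain ⟨α', β', b1, b2, b3, b4⟩ := key l φ h2.1
    exact hd k l hkl α β α' β' a1 a2 b1 b2 (a3.trans b3.symm) (a4.trans b4.symm)
  have e := MeasureTheory.measure_biUnion_finset (μ := MeasureTheory.volume) hdis
    fun k _ => (arc_open _ _ _ _).measurableSet.inter measurableSet_Ioc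
  have h1 : ENNReal.ofReal (∑ k, ang (x k * x' k + y k * y' k) |x k * y' k - y k * x' k|) ≤
      ENNReal.ofReal (2 * π) := by
    rw [ENNReal.ofReal_sum_of_nonneg fun k _ => (ang_pos _ _).le]
    calc _ ≤ ∑ k, MeasureTheory.volume (arc (x k) (y k) (x' k) (y' k) ∩ Set.Ioc 0 (0 + 2 * π)) :=
          Finset.sum_le_sum fun k _ => arc_vol _ _ _ _ (h k)
      _ = _ := e.symm
      _ ≤ MeasureTheory.volume (Set.Ioc 0 (0 + 2 * π)) :=
          MeasureTheory.measure_mono (Set.iUnion₂_subset fun k _ => Set.inter_subset_right)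
      _ = _ := by rw [Real.volume_Ioc]; simp
  exact (ENNReal.ofReal_le_ofReal_iff (by positivity)).1 h1

/-- Gram determinant of three unit vectors. -/
def Dl (c x y : ℝ) : ℝ := 1 - c ^ 2 - x ^ 2 - y ^ 2 + 2 * c * x * y

/-- Apex angle of the spherical triangle with base `c` and legs `x, y` (cosines). -/
noncomputable def th (c x y : ℝ) : ℝ := ang (c - x * y) √(Dl c x y)

theorem th_deriv (c x0 y0 p q t : ℝ) (hD : 0 < Dl c (x0 + t * p) (y0 + t * q))
    (hx : 1 - (x0 + t * p) ^ 2 ≠ 0) (hy : 1 - (y0 + t * q) ^ 2 ≠ 0) :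
    HasDerivAt (fun s => th c (x0 + s * p) (y0 + s * q))
      (p / (1 - (x0 + t * p) ^ 2) *
          (((y0 + t * q) - c * (x0 + t * p)) / √(Dl c (x0 + t * p) (y0 + t * q))) +
        q / (1 - (y0 + t * q) ^ 2) *
          (((x0 + t * p) - c * (y0 + t * q)) / √(Dl c (x0 + t * p) (y0 + t * q)))) t := by
  have h1 : HasDerivAt (fun s => x0 + s * p) p t := by
    simpa using ((hasDerivAt_id t).mul_const p).const_add x0
  have h2 : HasDerivAt (fun s => y0 + s * q) q t := by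
    simpa using ((hasDerivAt_id t).mul_const q).const_add y0
  set x := x0 + t * p with hxd
  set y := y0 + t * q with hyd
  have h3 : HasDerivAt (fun s => Dl c (x0 + s * p) (y0 + s * q))
      (-(2 * x * p) - 2 * y * q + 2 * c * (p * y + x * q)) t := by
    have := ((((h1.mul h1).const_sub (1 - c ^ 2)).sub (h2.mul h2)).add
      ((h1.mul h2).const_mul (2 * c)))
    refine (this.congr_deriv (by ring)).congr_of_eventuallyEq (Eventually.of_forall fun s => ?_)
    simp only [Dl, Pi.add_apply, Pi.sub_apply, Pi.mul_apply]; ring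
  have h4 := h3.sqrt hD.ne'
  have hs : 0 < √(Dl c x y) := sqrt_pos.2 hD
  have h5 := ((((h1.mul h2).const_sub c).div h4 hs.ne').arctan).const_sub (π / 2)
  refine h5.congr_deriv ?_
  have hss : √(Dl c x y) ^ 2 = Dl c x y := sq_sqrt hD.le
  simp only [Pi.mul_apply, Pi.div_apply, ← hxd, ← hyd]
  set w := √(Dl c x y)
  have e : 1 + ((c - x * y) / w) ^ 2 = (1 - x ^ 2) * (1 - y ^ 2) / w ^ 2 := by
    field_simp
    rw [hss, Dl]; ring
  rw [e]
  field_simp
  rw [hss, Dl]; ring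

theorem Dl_pos (c x0 y0 x1 y1 t : ℝ) (hc : c ^ 2 ≤ 1) (h0 : 0 < Dl c x0 y0) (h1 : 0 < Dl c x1 y1)
    (t0 : 0 ≤ t) (t1 : t ≤ 1) : 0 < Dl c (x0 + t * (x1 - x0)) (y0 + t * (y1 - y0)) := by
  have e : Dl c (x0 + t * (x1 - x0)) (y0 + t * (y1 - y0)) = (1 - t) * Dl c x0 y0 + t * Dl c x1 y1
      + t * (1 - t) * (((x1 - x0) - c * (y1 - y0)) ^ 2 + (1 - c ^ 2) * (y1 - y0) ^ 2) := by
    simp only [Dl]; ring
  have h2 : 0 ≤ t * (1 - t) * (((x1 - x0) - c * (y1 - y0)) ^ 2 + (1 - c ^ 2) * (y1 - y0) ^ 2) := by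
    have : 0 ≤ 1 - t := by linarith
    have : 0 ≤ 1 - c ^ 2 := by linarith
    positivity
  have h3 : 0 < (1 - t) * Dl c x0 y0 + t * Dl c x1 y1 := by
    rcases t0.eq_or_lt with h | h
    · rw [← h]; simpa using h0
    · have := mul_pos h h1
      have := mul_nonneg (sub_nonneg.2 t1) h0.le
      linarith
  rw [e]; linarith

theorem frac_sum (r P Q s s' : ℝ) (hs : 0 < s) (hs' : 0 < s') (hA : 0 < s ^ 2 * r - P ^ 2)
    (hB : 0 < s' ^ 2 * r - Q ^ 2) : ∃ L, 0 < L ∧
      P / √(s ^ 2 * r - P ^ 2) + Q / √(s' ^ 2 * r - Q ^ 2) = L * (P / s + Q / s') := by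
  set p := P / s with hp
  set q := Q / s' with hq
  have eP : P = s * p := by rw [hp]; field_simp
  have eQ : Q = s' * q := by rw [hq]; field_simp
  have ha : 0 < r - p ^ 2 := by
    rw [eP] at hA
    have : 0 < s ^ 2 * (r - p ^ 2) := by linarith
    exact (pos_iff_pos_of_mul_pos this).1 (by positivity)
  have hb : 0 < r - q ^ 2 := by
    rw [eQ] at hB
    have : 0 < s' ^ 2 * (r - q ^ 2) := by linarith
    exact (pos_iff_pos_of_mul_pos this).1 (by positivity)
  have e1 : √(s ^ 2 * r - P ^ 2) = s * √(r - p ^ 2) := by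
    rw [eP, show s ^ 2 * r - (s * p) ^ 2 = s ^ 2 * (r - p ^ 2) by ring, sqrt_mul (by positivity),
      sqrt_sq hs.le]
  have e2 : √(s' ^ 2 * r - Q ^ 2) = s' * √(r - q ^ 2) := by
    rw [eQ, show s' ^ 2 * r - (s' * q) ^ 2 = s' ^ 2 * (r - q ^ 2) by ring,
      sqrt_mul (by positivity), sqrt_sq hs'.le]
  have hA' : 0 < √(r - p ^ 2) := sqrt_pos.2 ha
  have hB' : 0 < √(r - q ^ 2) := sqrt_pos.2 hb
  have sA : √(r - p ^ 2) ^ 2 = r - p ^ 2 := sq_sqrt ha.le
  have sB : √(r - q ^ 2) ^ 2 = r - q ^ 2 := sq_sqrt hb.le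
  rw [e1, e2]
  set A := √(r - p ^ 2)
  set B := √(r - q ^ 2)
  have h1 : 0 < r - p * q := by nlinarith [sq_nonneg (p - q)]
  refine ⟨(r - p * q + A * B) / (A * B * (A + B)), by positivity, ?_⟩
  rw [eP, eQ]
  field_simp
  linear_combination q * sA + p * sB

theorem Dl_eq1 (c x y : ℝ) (hc : c ^ 2 ≤ 1) :
    Dl c x y = √(1 - c ^ 2) ^ 2 * (1 - x ^ 2) - (y - c * x) ^ 2 := by
  rw [sq_sqrt (by linarith), Dl]; ring

theorem Dl_eq2 (c x y : ℝ) (hc : c ^ 2 ≤ 1) :
    Dl c x y = √(1 - c ^ 2) ^ 2 * (1 - y ^ 2) - (x - c * y) ^ 2 := by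
  rw [sq_sqrt (by linarith), Dl]; ring

/-- Sum of the two base-angle terms at the vertex `σ k`. -/
noncomputable def Sm {K : Type} (σ : Equiv.Perm K) (c g : K → ℝ) (k : K) : ℝ :=
  (g (σ (σ k)) - c (σ k) * g (σ k)) / √(1 - c (σ k) ^ 2) + (g k - c k * g (σ k)) / √(1 - c k ^ 2)

/-- The total apex angle increases strictly. -/
theorem mono {K : Type} [Fintype K] (σ : Equiv.Perm K) (c g0 g1 : K → ℝ) (hc : ∀ k, c k ^ 2 < 1)
    (h0 : ∀ k, 0 < Dl (c k) (g0 k) (g0 (σ k))) (h1 : ∀ k, 0 < Dl (c k) (g1 k) (g1 (σ k)))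
    (s0 : ∀ k, 0 ≤ Sm σ c g0 k) (s1 : ∀ k, 0 ≤ Sm σ c g1 k) (k0 : K) (s2 : 0 < Sm σ c g0 k0)
    (hg : ∀ k, g0 k < g1 k) :
    ∑ k, th (c k) (g0 k) (g0 (σ k)) < ∑ k, th (c k) (g1 k) (g1 (σ k)) := by
  let g : ℝ → K → ℝ := fun t k => g0 k + t * (g1 k - g0 k)
  let Ω : ℝ → ℝ := fun t => ∑ k, th (c k) (g t k) (g t (σ k))
  have hs : ∀ k, 0 < √(1 - c k ^ 2) := fun k => sqrt_pos.2 (by linarith [hc k])
  have hD : ∀ t ∈ Set.Icc (0 : ℝ) 1, ∀ k, 0 < Dl (c k) (g t k) (g t (σ k)) := fun t ht k =>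
    Dl_pos _ _ _ _ _ _ (hc k).le (h0 k) (h1 k) ht.1 ht.2
  have hx : ∀ t ∈ Set.Icc (0 : ℝ) 1, ∀ k, 0 < 1 - g t k ^ 2 := by
    intro t ht k
    have h := hD t ht k
    rw [Dl_eq1 _ _ _ (hc k).le] at h
    have h2 : 0 < √(1 - c k ^ 2) ^ 2 * (1 - g t k ^ 2) := by
      nlinarith [sq_nonneg (g t (σ k) - c k * g t k)]
    exact (pos_iff_pos_of_mul_pos h2).1 (pow_pos (hs k) 2)
  have hd : ∀ t ∈ Set.Icc (0 : ℝ) 1, HasDerivAt Ω (∑ k, ((g1 k - g0 k) / (1 - g t k ^ 2) *
      ((g t (σ k) - c k * g t k) / √(Dl (c k) (g t k) (g t (σ k)))) +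
      (g1 (σ k) - g0 (σ k)) / (1 - g t (σ k) ^ 2) *
      ((g t k - c k * g t (σ k)) / √(Dl (c k) (g t k) (g t (σ k)))))) t := fun t ht =>
    HasDerivAt.fun_sum fun k _ => th_deriv _ _ _ _ _ _ (hD t ht k) (hx t ht k).ne'
      (hx t ht (σ k)).ne'
  obtain ⟨t, ht, e⟩ := exists_hasDerivAt_eq_slope Ω _ (zero_lt_one' ℝ)
    (fun t ht => (hd t ht).continuousAt.continuousWithinAt)
    (fun t ht => hd t (Set.Ioo_subset_Icc_self ht))
  have ht' := Set.Ioo_subset_Icc_self ht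
  have hS : ∀ k, Sm σ c (g t) k = (1 - t) * Sm σ c g0 k + t * Sm σ c g1 k := by
    intro k
    simp only [Sm, g]; ring
  have key : ∀ k, ∃ L, 0 < L ∧ (g1 (σ k) - g0 (σ k)) / (1 - g t (σ k) ^ 2) *
      ((g t (σ (σ k)) - c (σ k) * g t (σ k)) / √(Dl (c (σ k)) (g t (σ k)) (g t (σ (σ k))))) +
      (g1 (σ k) - g0 (σ k)) / (1 - g t (σ k) ^ 2) *
      ((g t k - c k * g t (σ k)) / √(Dl (c k) (g t k) (g t (σ k)))) = L * Sm σ c (g t) k := by
    intro k
    have a1 := hD t ht' (σ k)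
    have a2 := hD t ht' k
    rw [Dl_eq1 _ _ _ (hc _).le] at a1
    rw [Dl_eq2 _ _ _ (hc _).le] at a2
    obtain ⟨L, hL, e⟩ := frac_sum _ _ _ _ _ (hs (σ k)) (hs k) a1 a2
    refine ⟨(g1 (σ k) - g0 (σ k)) / (1 - g t (σ k) ^ 2) * L,
      mul_pos (div_pos (sub_pos.2 (hg _)) (hx t ht' _)) hL, ?_⟩
    rw [← mul_add, Dl_eq1 _ _ _ (hc (σ k)).le, Dl_eq2 _ _ _ (hc k).le, e, Sm, mul_assoc]
  choose L hL hk using key
  rw [Finset.sum_add_distrib, ← Equiv.sum_comp σ, ← Finset.sum_add_distrib] at e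
  simp only [hk] at e
  have t1 : 0 < 1 - t := sub_pos.2 ht.2
  have hpos : 0 < ∑ k, L k * Sm σ c (g t) k := by
    refine Finset.sum_pos' (fun k _ => mul_nonneg (hL k).le ?_) ⟨k0, Finset.mem_univ _,
      mul_pos (hL k0) ?_⟩
    · rw [hS]; exact add_nonneg (mul_nonneg t1.le (s0 k)) (mul_nonneg ht.1.le (s1 k))
    · rw [hS]; exact add_pos_of_pos_of_nonneg (mul_pos t1 s2) (mul_nonneg ht.1.le (s1 k0))
  rw [e] at hpos
  simp only [Ω, g, one_mul, zero_mul, add_zero, add_sub_cancel, sub_zero, div_one] at hpos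
  linarith

/-- The sum of the two unit tangents at a convex corner, paired with an inner direction. -/
theorem tang {v s t a : E3} (hv : ‖v‖ = 1) (hs : ‖s‖ = 1) (ht : ‖t‖ = 1) (vs : inner ℝ v s = 0)
    (vt : inner ℝ v t = 0) (h1 : d3 v s a ≠ 0) (h2 : d3 v a t ≠ 0) (h3 : 0 ≤ d3 v s t * d3 v s a)
    (h4 : 0 ≤ d3 v s t * d3 v a t) : 0 < inner ℝ s a + inner ℝ t a ∨
      (d3 v s t = 0 ∧ (inner ℝ s a + inner ℝ t a = 0 ∨ s = t)) := by
  have k := cramer3 v s t a
  have k1 := congrArg (inner ℝ s) k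
  have k2 := congrArg (inner ℝ t) k
  have k3 := d3_sq v s t
  simp only [inner_add_right, real_inner_smul_right, real_inner_self_eq_norm_sq, hv, hs, ht,
    real_inner_comm v s, real_inner_comm v t, real_inner_comm s t, vs, vt] at k1 k2 k3
  by_cases hx : d3 v s t = 0
  · refine Or.inr ⟨hx, ?_⟩
    rw [hx] at k3
    have : (inner ℝ s t - 1) * (inner ℝ s t + 1) = 0 := by linarith
    rcases mul_eq_zero.1 this with h | h
    · right
      have : ‖s - t‖ ^ 2 = 0 := by rw [norm_sub_sq_real, hs, ht]; linarith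
      exact sub_eq_zero.1 (norm_eq_zero.1 (pow_eq_zero_iff two_ne_zero |>.1 this))
    · left
      have : ‖s + t‖ ^ 2 = 0 := by rw [norm_add_sq_real, hs, ht]; linarith
      rw [← inner_add_left, norm_eq_zero.1 (pow_eq_zero_iff two_ne_zero |>.1 this),
        inner_zero_left]
  · left
    have p1 : 0 < d3 v s t * d3 v s a := lt_of_le_of_ne h3 (mul_ne_zero hx h1).symm
    have p2 : 0 < d3 v s t * d3 v a t := lt_of_le_of_ne h4 (mul_ne_zero hx h2).symm
    have p3 : 0 < d3 v s t ^ 2 := by positivity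
    have p4 : 0 < 1 + inner ℝ s t := by nlinarith
    have e : d3 v s t ^ 2 * (inner ℝ s a + inner ℝ t a) =
        (d3 v s t * d3 v s a + d3 v s t * d3 v a t) * (1 + inner ℝ s t) := by
      linear_combination d3 v s t * k1 + d3 v s t * k2
    have p5 : 0 < d3 v s t ^ 2 * (inner ℝ s a + inner ℝ t a) := by rw [e]; positivity
    exact (pos_iff_pos_of_mul_pos p5).1 p3

theorem sq_lt {v p a : E3} (hv : ‖v‖ = 1) (hp : ‖p‖ = 1) (h : d3 v p a ≠ 0) :
    inner ℝ v p ^ 2 < 1 := by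
  have e := norm_cr3 v p
  have : cr3 v p ≠ 0 := fun h0 => h (by rw [← inner_cr3, h0, inner_zero_left])
  have := pow_pos (norm_pos_iff.2 this) 2
  rw [hv, hp] at e
  linarith

theorem unit_tan {v p : E3} (hv : ‖v‖ = 1) (hp : ‖p‖ = 1) (h : inner ℝ v p ^ 2 < 1) :
    ∃ s : E3, ‖s‖ = 1 ∧ inner ℝ v s = 0 ∧
      p = inner ℝ v p • v + √(1 - inner ℝ v p ^ 2) • s := by
  have h0 : 0 < √(1 - inner ℝ v p ^ 2) := sqrt_pos.2 (by linarith)
  have h1 : √(1 - inner ℝ v p ^ 2) ^ 2 = 1 - inner ℝ v p ^ 2 := sq_sqrt (by linarith)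
  refine ⟨(√(1 - inner ℝ v p ^ 2))⁻¹ • (p - inner ℝ v p • v), ?_, ?_, ?_⟩
  · have : ‖p - inner ℝ v p • v‖ ^ 2 = √(1 - inner ℝ v p ^ 2) ^ 2 := by
      rw [h1, norm_sub_sq_real, real_inner_smul_right, norm_smul, hp, hv, real_inner_comm v p,
        Real.norm_eq_abs, mul_one, sq_abs]; ring
    rw [norm_smul, (pow_left_inj₀ (norm_nonneg _) h0.le two_ne_zero).1 this, norm_inv,
      Real.norm_eq_abs, abs_of_pos h0, inv_mul_cancel₀ h0.ne']
  · rw [real_inner_smul_right, inner_sub_right, real_inner_smul_right,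
      real_inner_self_eq_norm_sq, hv]; ring
  · rw [smul_smul, mul_inv_cancel₀ h0.ne', one_smul]; abel

theorem corner {v p m a : E3} (hv : ‖v‖ = 1) (hp : ‖p‖ = 1) (hm : ‖m‖ = 1) (h1 : d3 v p a ≠ 0)
    (h2 : d3 m v a ≠ 0) (h3 : 0 ≤ d3 v p m * d3 v p a) (h4 : 0 ≤ d3 m v p * d3 m v a) (S : ℝ)
    (hS : S = (inner ℝ p a - inner ℝ v p * inner ℝ v a) / √(1 - inner ℝ v p ^ 2) +
      (inner ℝ m a - inner ℝ m v * inner ℝ v a) / √(1 - inner ℝ m v ^ 2)) :
    0 < S ∨ (d3 m v p = 0 ∧ (S = 0 ∨ (d3 v p a * d3 m v a < 0 ∧ ∃ α β α' β' : ℝ, 0 < α ∧ 0 < β ∧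
      0 < α' ∧ 0 < β' ∧ α • v + β • p = α' • m + β' • v))) := by
  have c1 := sq_lt hv hp h1
  have c2 := sq_lt hm hv h2
  rw [real_inner_comm v m] at c2 hS
  obtain ⟨s, hs, vs, ep⟩ := unit_tan hv hp c1
  obtain ⟨t, ht, vt, em⟩ := unit_tan hv hm c2
  have r1 : 0 < √(1 - inner ℝ v p ^ 2) := sqrt_pos.2 (by linarith)
  have r2 : 0 < √(1 - inner ℝ v m ^ 2) := sqrt_pos.2 (by linarith)
  have q1 : √(1 - inner ℝ v p ^ 2) ≤ 1 := sqrt_le_one.2 (by nlinarith [sq_nonneg (inner ℝ v p)])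
  have q2 : √(1 - inner ℝ v m ^ 2) ≤ 1 := sqrt_le_one.2 (by nlinarith [sq_nonneg (inner ℝ v m)])
  generalize √(1 - inner ℝ v p ^ 2) = r at *
  generalize √(1 - inner ℝ v m ^ 2) = r' at *
  generalize inner ℝ v p = c at *
  generalize inner ℝ v m = c' at *
  have e1 : d3 v p a = r * d3 v s a := by rw [ep]; simp [d3]; ring
  have e2 : d3 m v a = r' * d3 v a t := by rw [em]; simp [d3]; ring
  have e3 : d3 v p m = r * r' * d3 v s t := by rw [ep, em]; simp [d3]; ring
  have e4 : d3 m v p = r * r' * d3 v s t := by rw [← e3]; exact (d3_cyc m v p).symm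
  have e5 : S = inner ℝ s a + inner ℝ t a := by
    rw [hS, ep, em]
    simp only [inner_add_left, real_inner_smul_left]
    field_simp
    ring
  have hr := mul_pos r1 r2
  rcases tang hv hs ht vs vt (a := a) (fun h => h1 (by rw [e1, h, mul_zero]))
    (fun h => h2 (by rw [e2, h, mul_zero]))
    (by
      rw [e3, e1] at h3
      exact nonneg_of_mul_nonneg_right (by linarith : 0 ≤ r * r' * r * _) (mul_pos hr r1))
    (by
      rw [e4, e2] at h4
      exact nonneg_of_mul_nonneg_right (by linarith : 0 ≤ r * r' * r' * _) (mul_pos hr r2))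
    with h | ⟨h, h' | h'⟩
  · left; rwa [e5]
  · exact Or.inr ⟨by rw [e4, h, mul_zero], Or.inl (by rwa [e5])⟩
  · subst h'
    have b1 := abs_lt.1 ((sq_lt_one_iff_abs_lt_one _).1 c1)
    have b2 := abs_lt.1 ((sq_lt_one_iff_abs_lt_one _).1 c2)
    refine Or.inr ⟨by rw [e4, h, mul_zero], Or.inr ⟨?_, 2 + r * c', r', r, 2 + r' * c,
      by nlinarith, r2, r1, by nlinarith, ?_⟩⟩
    · have h5 : d3 v s a ≠ 0 := fun h => h1 (by rw [e1, h, mul_zero])
      have h6 : 0 < r * r' * d3 v s a ^ 2 := by positivity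
      rw [e1, e2, d3_swap23 v s a]; linarith
    · rw [ep, em]; module

/-- Plane coordinates on the orthogonal complement of a unit vector. -/
theorem frame (a : E3) (ha : ‖a‖ = 1) : ∃ X Y : E3 →ₗ[ℝ] ℝ,
    (∀ v w, X v * X w + Y v * Y w = inner ℝ v w - inner ℝ v a * inner ℝ w a) ∧
    (∀ v w, X v * Y w - Y v * X w = d3 v w a) ∧
    ∀ v, X v = 0 → Y v = 0 → v = inner ℝ v a • a := by
  obtain ⟨e, he, ea, -⟩ := exists_orth a a
  have aa : inner ℝ a a = (1 : ℝ) := by rw [real_inner_self_eq_norm_sq, ha]; ring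
  have ee : inner ℝ e e = (1 : ℝ) := by rw [real_inner_self_eq_norm_sq, he]; ring
  have ae : inner ℝ a e = (0 : ℝ) := by rw [real_inner_comm, ea]
  set f := cr3 a e with hf
  have fa : inner ℝ f a = (0 : ℝ) := by rw [hf, inner_cr3, d3_self13]
  have fe : inner ℝ f e = (0 : ℝ) := by rw [hf, inner_cr3, d3_self23]
  have ff : inner ℝ f f = (1 : ℝ) := by
    rw [real_inner_self_eq_norm_sq, hf, norm_cr3, ha, he, ae]; ring
  have hd : d3 e f a = 1 := by rw [d3_cyc a e f, ← inner_cr3, ← hf, ff]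
  have dec : ∀ v : E3, v = inner ℝ e v • e + inner ℝ f v • f + inner ℝ a v • a := by
    intro v
    refine sub_eq_zero.1 (eq_zero_of_inner3 (a := e) (b := f) (c := a) (by rw [hd]; simp) ?_ ?_ ?_)
      <;> simp only [inner_sub_right, inner_add_right, real_inner_smul_right, ee, ea, ae, fa, fe, ff,
        aa, real_inner_comm f e, real_inner_comm f a] <;> ring
  refine ⟨innerₗ E3 e, innerₗ E3 f, fun v w => ?_, fun v w => ?_, fun v h1 h2 => ?_⟩
  · have := congrArg (inner ℝ w) (dec v)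
    simp only [inner_add_right, real_inner_smul_right] at this
    simp only [innerₗ_apply_apply]
    rw [real_inner_comm w v, this, real_inner_comm w e, real_inner_comm w f, real_inner_comm v a]
    ring
  · have := d3_mul v w a e f a
    rw [hd, ae, aa, real_inner_comm f a, fa] at this
    simp only [innerₗ_apply_apply]
    rw [real_inner_comm v e, real_inner_comm v f, real_inner_comm w e, real_inner_comm w f]
    linarith
  · simp only [innerₗ_apply_apply] at h1 h2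
    have := dec v
    rw [h1, h2, zero_smul, zero_smul, zero_add, zero_add, real_inner_comm] at this
    exact this

theorem Dl_d3 {v w a : E3} (hv : ‖v‖ = 1) (hw : ‖w‖ = 1) (ha : ‖a‖ = 1) :
    Dl (inner ℝ v w) (inner ℝ v a) (inner ℝ w a) = d3 v w a ^ 2 := by
  rw [d3_sq, real_inner_self_eq_norm_sq, real_inner_self_eq_norm_sq, real_inner_self_eq_norm_sq,
    hv, hw, ha, Dl]; ring

end LL

open LL in
theorem stLL : StLL := by
  intro K _ σ u u' a a' hu hu' ha ha' hc h1 h2 h3 h4 h5 h6 hlt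
  obtain ⟨k0, h3⟩ := h3
  have : Nonempty K := ⟨k0⟩
  have hne : ∀ k, σ k ≠ k := fun k h => by
    have := h1 k
    rw [h, d3_self12] at this
    exact lt_irrefl _ this
  have c0 := fun k => corner (hu (σ k)) (hu (σ (σ k))) (hu k) (h1 (σ k)).ne' (h1 k).ne'
    (mul_nonneg (h2 _ _) (h1 _).le) (mul_nonneg (h2 _ _) (h1 _).le)
    (Sm σ (fun k => inner ℝ (u k) (u (σ k))) (fun k => inner ℝ (u k) a) k) rfl
  have c1 := fun k => corner (hu' (σ k)) (hu' (σ (σ k))) (hu' k) (h4 (σ k)) (h4 k) (h5 _ _)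
    (h5 _ _) (Sm σ (fun k => inner ℝ (u k) (u (σ k))) (fun k => inner ℝ (u' k) a') k)
    (by simp only [Sm, hc])
  have m := mono σ (fun k => inner ℝ (u k) (u (σ k))) (fun k => inner ℝ (u k) a)
    (fun k => inner ℝ (u' k) a') (fun k => sq_lt (hu k) (hu _) (h1 k).ne')
    (fun k => by
      rw [Dl_d3 (hu k) (hu _) ha]; exact pow_pos (h1 k) 2)
    (fun k => by
      have := h4 k
      rw [hc, Dl_d3 (hu' k) (hu' _) ha']; positivity)
    (fun k => by
      rcases c0 k with h | ⟨-, h | ⟨h, -⟩⟩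
      · exact h.le
      · exact h.ge
      · exact absurd h (not_lt.2 (mul_pos (h1 _) (h1 _)).le))
    (fun k => by
      rcases c1 k with h | ⟨-, h | ⟨-, α, β, α', β', a1, a2, a3, a4, h⟩⟩
      · exact h.le
      · exact h.ge
      · exact absurd (by rw [h, zero_smul, add_zero]) (h6 (σ k) k (hne k) α β α' β' 0 a1 a2 a3 a4))
    k0 ((c0 k0).resolve_right fun h => h3.ne' h.1) hlt
  obtain ⟨X, Y, f1, f2, -⟩ := frame a ha
  obtain ⟨X', Y', g1, g2, g3⟩ := frame a' ha'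
  have lo := sum_ge σ (fun k => X (u k)) (fun k => Y (u k)) fun k => by rw [f2]; exact h1 k
  have hi := sum_le (fun k => X' (u' k)) (fun k => Y' (u' k)) (fun k => X' (u' (σ k)))
    (fun k => Y' (u' (σ k))) (fun k => by rw [g2]; exact h4 k) (by
      intro k l hkl α β α' β' a1 a2 a3 a4 e1 e2
      have := g3 (α • u' k + β • u' (σ k) - (α' • u' l + β' • u' (σ l)))
        (by simp only [map_sub, map_add, map_smul, smul_eq_mul]; linarith)
        (by simp only [map_sub, map_add, map_smul, smul_eq_mul]; linarith)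
      exact h6 k l hkl α β α' β' _ a1 a2 a3 a4 (by rw [← this]; abel))
  simp only [f1, f2] at lo
  simp only [g1, g2] at hi
  have e0 : ∀ k, th (inner ℝ (u k) (u (σ k))) (inner ℝ (u k) a) (inner ℝ (u (σ k)) a) =
      ang (inner ℝ (u k) (u (σ k)) - inner ℝ (u k) a * inner ℝ (u (σ k)) a)
        (d3 (u k) (u (σ k)) a) := fun k => by
    rw [th, Dl_d3 (hu k) (hu _) ha, Real.sqrt_sq (h1 k).le]
  have e1 : ∀ k, th (inner ℝ (u k) (u (σ k))) (inner ℝ (u' k) a') (inner ℝ (u' (σ k)) a') =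
      ang (inner ℝ (u' k) (u' (σ k)) - inner ℝ (u' k) a' * inner ℝ (u' (σ k)) a')
        |d3 (u' k) (u' (σ k)) a'| := fun k => by
    rw [th, hc, Dl_d3 (hu' k) (hu' _) ha', Real.sqrt_sq_eq_abs]
  simp only [e0, e1] at m
  linarith

end Pool.Agent.Lib.MP_34b931_co.G
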