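import Pool.Agent.Lib.MP_34b931_co.H22Tri

/-! Local structure of spherical ball-polyhedra at the vertices. -/

namespace Pool.Agent.Lib.MP_34b931_co.G

namespace Loc

variable {ι : Type} {τ : ℝ} {u : ι → E4} {T : Tri ι} {x y : E4} {a b c d : ι}

theorem dev (hτ : τ ^ 2 < 1) (hx : ‖x‖ = 1) (ha : Act τ u x a) (hb : Act τ u x b) :
    inner ℝ ((√(1 - τ ^ 2))⁻¹ • fr x (u a)) ((√(1 - τ ^ 2))⁻¹ • fr x (u b)) = gm τ u a b := by
  rw [real_inner_smul_left, real_inner_smul_right, fr_inner hx, ha, hb, ← mul_assoc, ← mul_inv,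
    Real.mul_self_sqrt (by linarith), gm]
  ring

theorem gm_self (hτ : τ ^ 2 < 1) (hu : Un u) (a : ι) : gm τ u a a = 1 := by
  rw [gm, real_inner_self_eq_norm_sq, hu, one_pow, div_self (by linarith)]

theorem dg_zero (hτ : τ ^ 2 < 1) (hu : Un u) (hx : ‖x‖ = 1) (ha : Act τ u x a) (hb : Act τ u x b)
    (hc : Act τ u x c) (hd : Act τ u x d) : Dg (gm τ u) a b c d = 0 := by
  have n : ∀ i, Act τ u x i → ‖(√(1 - τ ^ 2))⁻¹ • fr x (u i)‖ = 1 := fun i hi => by
    have := dev hτ hx hi hi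
    rw [gm_self hτ hu, real_inner_self_eq_norm_sq] at this
    exact (pow_eq_one_iff_of_nonneg (norm_nonneg _) two_ne_zero).1 this
  exact Dg_eq_zero (n a ha) (n b hb) (n c hc) (n d hd) (dev hτ hx ha hb) (dev hτ hx ha hc)
    (dev hτ hx ha hd) (dev hτ hx hb hc) (dev hτ hx hb hd) (dev hτ hx hc hd)

theorem ne_of_pos (h : 0 < d4 (u a) (u b) (u c) x) : a ≠ b ∧ b ≠ c ∧ a ≠ c := by
  refine ⟨?_, ?_, ?_⟩ <;> rintro rfl
  · simp [d4_self12] at h
  · simp [d4_self23] at h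
  · simp [d4_self13] at h

/-- three faces around a vertex of the triangulation -/
theorem fan (T : Tri ι) (a : ι) : ∃ p q r s, T.F a p q ∧ T.F a q r ∧ T.F a s p ∧ r ≠ p ∧ s ≠ q := by
  obtain ⟨p, q, h⟩ := T.cover a
  obtain ⟨r, h1⟩ := T.twin (Tri.cyc2 h)
  obtain ⟨s, h2⟩ := T.twin h
  exact ⟨p, q, r, s, h, h1, T.cyc h2, Tri.twin_ne (Tri.cyc2 h) h1, Tri.twin_ne h h2⟩

theorem five' (h5 : B5 τ u) (hx : ‖x‖ = 1) {e : ι} (ha : Act τ u x a) (hb : Act τ u x b)
    (hc : Act τ u x c) (hd : Act τ u x d) (he : Act τ u x e) (ab : a ≠ b) (ac : a ≠ c) (ad : a ≠ d)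
    (bc : b ≠ c) (bd : b ≠ d) (cd : c ≠ d) : e = a ∨ e = b ∨ e = c ∨ e = d := by
  by_contra hn
  simp only [not_or] at hn
  obtain ⟨ea, eb, ec, ed⟩ := hn
  refine h5 x ![a, b, c, d, e] hx (fun k => by fin_cases k <;> assumption) ?_
  intro i j h
  fin_cases i <;> fin_cases j <;> first | rfl | exact absurd h (by assumption) |
    exact absurd h.symm (by assumption)

theorem b4' (h4 : B4 τ u) (ab : a ≠ b) (ac : a ≠ c) (ad : a ≠ d) (bc : b ≠ c) (bd : b ≠ d)
    (cd : c ≠ d) {p q r s : ℝ} (hs : s ≠ 0) (h : p • u a + q • u b + r • u c + s • u d = 0) :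
    τ * (p + q + r + s) ≠ 0 := by
  have := h4 a b c d ab ac bc ad.symm bd.symm cd.symm (-p / s) (-q / s) (-r / s) (by
    have e : u d = s⁻¹ • (s • u d) := by rw [smul_smul, inv_mul_cancel₀ hs, one_smul]
    rw [e, eq_neg_of_add_eq_zero_right h]
    simp only [div_eq_inv_mul]
    module)
  intro h0
  apply this
  field_simp
  linear_combination -h0

structure Hyp (τ : ℝ) (u : ι → E4) (T : Tri ι) : Prop where
  nn : 0 ≤ τ
  lt : τ < 1
  un : Un u
  vtx : ∀ a b c, T.F a b c → ∃ x, Pt τ u x ∧ Act τ u x a ∧ Act τ u x b ∧ Act τ u x c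
  wf : WFree T (gm τ u)
  b4 : B4 τ u
  b5 : B5 τ u

theorem Hyp.sum_ne (H : Hyp τ u T) (ab : a ≠ b) (ac : a ≠ c) (ad : a ≠ d) (bc : b ≠ c)
    (bd : b ≠ d) (cd : c ≠ d) {p q r s : ℝ} (hs : ¬ (p = 0 ∧ q = 0 ∧ r = 0 ∧ s = 0))
    (h : p • u a + q • u b + r • u c + s • u d = (τ * (p + q + r + s)) • x) :
    τ * (p + q + r + s) ≠ 0 := by
  intro h0
  rw [h0, zero_smul] at h
  by_cases h1 : s ≠ 0
  · exact b4' H.b4 ab ac ad bc bd cd h1 h h0
  by_cases h2 : r ≠ 0
  · exact b4' H.b4 ab ad ac bd bc cd.symm h2 (by rw [← h]; abel) (by linear_combination h0)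
  by_cases h3 : q ≠ 0
  · exact b4' H.b4 ac ad ab cd bc.symm bd.symm h3 (by rw [← h]; abel) (by linear_combination h0)
  by_cases h4 : p ≠ 0
  · exact b4' H.b4 bc bd ab.symm cd ac.symm ad.symm h4 (by rw [← h]; abel)
      (by linear_combination h0)
  exact hs ⟨not_not.1 h4, not_not.1 h3, not_not.1 h2, not_not.1 h1⟩

theorem Hyp.core (H : Hyp τ u T) (hx : ‖x‖ = 1) (ha : Act τ u x a) (ab : a ≠ b) (ac : a ≠ c)
    (ad : a ≠ d) (bc : b ≠ c) (bd : b ≠ d) (cd : c ≠ d) {p q r s : ℝ}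
    (hs : ¬ (p = 0 ∧ q = 0 ∧ r = 0 ∧ s = 0))
    (h : p • u a + q • u b + r • u c + s • u d = (τ * (p + q + r + s)) • x) (hq : 0 ≤ q)
    (hr : 0 ≤ r) (hs' : 0 ≤ s) : False := by
  have h0 := H.sum_ne ab ac ad bc bd cd hs h
  have hτ : τ ^ 2 < 1 := by nlinarith [H.nn, H.lt]
  have le1 : ∀ v w : E4, ‖v‖ = 1 → ‖w‖ = 1 → inner ℝ v w ≤ 1 := fun v w hv hw => by
    simpa [hv, hw] using real_inner_le_norm v w
  have h1 : 0 ≤ p + q + r + s := by
    have e := congrArg (inner ℝ (u a)) h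
    simp only [inner_add_right, real_inner_smul_right, real_inner_self_eq_norm_sq, H.un a] at e
    rw [ha] at e
    nlinarith [mul_le_mul_of_nonneg_left (le1 _ _ (H.un a) (H.un b)) hq,
      mul_le_mul_of_nonneg_left (le1 _ _ (H.un a) (H.un c)) hr,
      mul_le_mul_of_nonneg_left (le1 _ _ (H.un a) (H.un d)) hs']
  have h2 : 0 < τ * (p + q + r + s) := lt_of_le_of_ne (mul_nonneg H.nn h1) h0.symm
  have h3 : ∀ y, Pt τ u y → Act τ u y a → y = x := by
    intro y hy hya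
    have e := congrArg (fun v => inner ℝ v y) h
    simp only [inner_add_left, real_inner_smul_left] at e
    rw [hya] at e
    have : 1 ≤ inner ℝ x y := by
      by_contra hc
      nlinarith [mul_le_mul_of_nonneg_left (hy.2 b) hq, mul_le_mul_of_nonneg_left (hy.2 c) hr,
        mul_le_mul_of_nonneg_left (hy.2 d) hs']
    exact ((inner_eq_one_iff_of_norm_eq_one hx hy.1).1 (le_antisymm (le1 _ _ hx hy.1) this)).symm
  obtain ⟨i, j, k, l, f1, f2, f3, n1, n2⟩ := fan T a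
  obtain ⟨y1, p1, a1, ai, aj⟩ := H.vtx _ _ _ f1
  obtain ⟨y2, p2, a2, -, ak⟩ := H.vtx _ _ _ f2
  obtain ⟨y3, p3, a3, al, -⟩ := H.vtx _ _ _ f3
  obtain rfl := h3 y1 p1 a1
  obtain rfl := h3 y2 p2 a2
  obtain rfl := h3 y3 p3 a3
  rcases five' H.b5 hx ha ai aj ak al (T.ne f1) (T.ne f2) (Tri.ne13 f2) (Tri.ne23 f1) n1.symm
    (Tri.ne23 f2) with e | e | e | e
  · exact T.ne f3 e.symm
  · exact Tri.ne23 f3 e
  · exact n2 e
  · subst e
    exact H.wf a i j l (Tri.adj12 f1) (Tri.adj12 f2) (Tri.adj12 f3) (Tri.adj23 f1) (Tri.adj32 f3)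
      (Tri.adj23 f2) (dg_zero hτ H.un hx ha ai aj al)

theorem Hyp.core' (H : Hyp τ u T) (hx : ‖x‖ = 1) (ha : Act τ u x a) (ab : a ≠ b) (ac : a ≠ c)
    (ad : a ≠ d) (bc : b ≠ c) (bd : b ≠ d) (cd : c ≠ d) {p q r s : ℝ}
    (hs : ¬ (p = 0 ∧ q = 0 ∧ r = 0 ∧ s = 0))
    (h : p • u a + q • u b + r • u c + s • u d = (τ * (p + q + r + s)) • x) (hq : q ≤ 0)
    (hr : r ≤ 0) (hs' : s ≤ 0) : False :=
  H.core hx ha ab ac ad bc bd cd (p := -p) (q := -q) (r := -r) (s := -s) (by simpa using hs)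
    (by linear_combination (norm := module) (-1 : ℝ) • h) (by linarith) (by linarith) (by linarith)

theorem exists_rel {a b c d : E4} (h : d4 a b c d = 0) : ∃ p q r s : ℝ,
    ¬ (p = 0 ∧ q = 0 ∧ r = 0 ∧ s = 0) ∧ p • a + q • b + r • c + s • d = 0 := by
  obtain ⟨v, h0, h1⟩ := (Matrix.exists_vecMul_eq_zero_iff
    (M := !![a 0, a 1, a 2, a 3; b 0, b 1, b 2, b 3; c 0, c 1, c 2, c 3; d 0, d 1, d 2, d 3])).2 (by
      rw [← h]
      simp [Matrix.det_succ_row_zero, Fin.sum_univ_succ, d4, m3, Fin.succAbove]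
      ring)
  refine ⟨v 0, v 1, v 2, v 3, fun k => h0 ?_, ?_⟩
  · ext i; fin_cases i
    exacts [k.1, k.2.1, k.2.2.1, k.2.2.2]
  · have e0 := congrFun h1 0
    have e1 := congrFun h1 1
    have e2 := congrFun h1 2
    have e3 := congrFun h1 3
    simp [Matrix.vecMul, dotProduct, Fin.sum_univ_four] at e0 e1 e2 e3
    apply ext4 <;> simpa

theorem Hyp.three [Fintype ι] (H : Hyp τ u T) (hx : ‖x‖ = 1) (ab : a ≠ b) (bc : b ≠ c) (ac : a ≠ c)
    (ha : Act τ u x a) (hb : Act τ u x b) (hc : Act τ u x c) : d4 (u a) (u b) (u c) x ≠ 0 := by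
  classical
  intro h
  obtain ⟨p, q, r, s, h0, h1⟩ := exists_rel h
  obtain ⟨d, hd⟩ : ∃ d, d ∉ ({a, b, c} : Finset ι) := by
    by_contra hn
    have h2 := Finset.card_le_card (s := Finset.univ) (t := {a, b, c}) fun d _ =>
      not_not.1 (not_exists.1 hn d)
    have h3 := T.four_le_card
    rw [Nat.card_eq_fintype_card, ← Finset.card_univ] at h3
    have := Finset.card_le_three (a := a) (b := b) (c := c)
    omega
  simp only [Finset.mem_insert, Finset.mem_singleton, not_or] at hd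
  obtain ⟨ad, bd, cd⟩ := hd
  have e := congrArg (fun v => inner ℝ v x) h1
  simp only [inner_add_left, real_inner_smul_left, real_inner_self_eq_norm_sq, hx,
    inner_zero_left] at e
  rw [ha, hb, hc] at e
  have hs : s = -(τ * (p + q + r)) := by linarith
  have n0 : ¬ (p = 0 ∧ q = 0 ∧ r = 0) := fun k => h0 ⟨k.1, k.2.1, k.2.2, by simp [hs, k]⟩
  rw [hs] at h1
  have r1 : p • u a + q • u b + r • u c + (0 : ℝ) • u d = (τ * (p + q + r + 0)) • x := by
    linear_combination (norm := module) h1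
  have r2 : q • u b + p • u a + r • u c + (0 : ℝ) • u d = (τ * (q + p + r + 0)) • x := by
    linear_combination (norm := module) h1
  have r3 : r • u c + p • u a + q • u b + (0 : ℝ) • u d = (τ * (r + p + q + 0)) • x := by
    linear_combination (norm := module) h1
  have ad := Ne.symm ad
  have bd := Ne.symm bd
  have cd := Ne.symm cd
  rcases le_total 0 p with hp | hp <;> rcases le_total 0 q with hq | hq <;>
    rcases le_total 0 r with hr | hr
  · exact H.core hx ha ab ac ad bc bd cd (by grind) r1 hq hr le_rfl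
  · exact H.core hx hc ac.symm bc.symm cd ab ad bd (by grind) r3 hp hq le_rfl
  · exact H.core hx hb ab.symm bc bd ac ad cd (by grind) r2 hp hr le_rfl
  · exact H.core' hx ha ab ac ad bc bd cd (by grind) r1 hq hr le_rfl
  · exact H.core hx ha ab ac ad bc bd cd (by grind) r1 hq hr le_rfl
  · exact H.core' hx hb ab.symm bc bd ac ad cd (by grind) r2 hp hr le_rfl
  · exact H.core' hx hc ac.symm bc.symm cd ab ad bd (by grind) r3 hp hq le_rfl
  · exact H.core' hx ha ab ac ad bc bd cd (by grind) r1 hq hr le_rfl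

theorem Hyp.four [Fintype ι] (H : Hyp τ u T) (hx : Pt τ u x) (ha : Act τ u x a) (hb : Act τ u x b)
    (hc : Act τ u x c) (hd : Act τ u x d) (h : 0 < d4 (u a) (u b) (u c) x) (da : d ≠ a)
    (db : d ≠ b) (dc : d ≠ c) : d4 (u a) (u b) (u c) (u d) ≠ 0 ∧
      (QuadAt τ u x a d b c ∨ QuadAt τ u x a b d c ∨ QuadAt τ u x a b c d) := by
  obtain ⟨ab, bc, ac⟩ := ne_of_pos h
  have ad := da.symm
  have bd := db.symm
  have cd := dc.symm
  have n1 := H.three hx.1 bc cd bd hb hc hd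
  have n2 := H.three hx.1 ac cd ad ha hc hd
  have n3 := H.three hx.1 ab bd ad ha hb hd
  have k := cramer4 (u a) (u b) (u c) (u d) x
  rw [show d4 x (u b) (u c) (u d) = -d4 (u b) (u c) (u d) x by rw [d4_rot x, neg_neg],
    show d4 (u a) x (u c) (u d) = d4 (u a) (u c) (u d) x by simp only [d4, m3]; ring,
    d4_swap34 (u a) (u b) (u d) x] at k
  have s1 := d4_swap23 (u a) (u b) (u d) x
  have s2 := d4_swap23 (u a) (u c) (u d) x
  have s3 := d4_swap23 (u b) (u c) (u d) x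
  have s4 := d4_cyc (u d) (u b) (u c) x
  have e := congrArg (fun v => inner ℝ v x) k
  simp only [inner_add_left, real_inner_smul_left, real_inner_self_eq_norm_sq, hx.1] at e
  rw [ha, hb, hc, hd] at e
  generalize hp : -d4 (u b) (u c) (u d) x = p at k e
  generalize hq : d4 (u a) (u c) (u d) x = q at k e
  generalize hr : -d4 (u a) (u b) (u d) x = r at k e
  generalize hs : d4 (u a) (u b) (u c) x = s at k e
  have e' : d4 (u a) (u b) (u c) (u d) = τ * (p + q + r + s) := by linarith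
  rw [e'] at k ⊢
  have s0 : 0 < s := hs ▸ h
  have r1 := k.symm
  have r2 : q • u b + p • u a + r • u c + s • u d = (τ * (q + p + r + s)) • x := by
    linear_combination (norm := module) r1
  have r3 : r • u c + p • u a + q • u b + s • u d = (τ * (r + p + q + s)) • x := by
    linear_combination (norm := module) r1
  have r4 : s • u d + p • u a + q • u b + r • u c = (τ * (s + p + q + r)) • x := by
    linear_combination (norm := module) r1
  refine ⟨H.sum_ne ab ac ad bc bd cd (by grind) r1, ?_⟩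
  rcases lt_or_gt_of_ne n1 with h1 | h1 <;> rcases lt_or_gt_of_ne n2 with h2 | h2 <;>
    rcases lt_or_gt_of_ne n3 with h3 | h3
  · exact (H.core hx.1 hb ab.symm bc bd ac ad cd (by grind) r2 (by linarith) (by linarith)
      s0.le).elim
  · exact Or.inr (Or.inl ⟨hx, ha, hb, hd, hc, h3, by linarith, h, by linarith⟩)
  · exact (H.core hx.1 ha ab ac ad bc bd cd (by grind) r1 (by linarith) (by linarith) s0.le).elim
  · exact (H.core hx.1 hc ac.symm bc.symm cd ab ad bd (by grind) r3 (by linarith) (by linarith)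
      s0.le).elim
  · exact Or.inl ⟨hx, ha, hd, hb, hc, by linarith, h, by linarith, by linarith⟩
  · exact (H.core' hx.1 hd da db dc ab ac bc (by grind) r4 (by linarith) (by linarith)
      (by linarith)).elim
  · exact (H.core hx.1 ha ab ac ad bc bd cd (by grind) r1 (by linarith) (by linarith) s0.le).elim
  · exact Or.inr (Or.inr ⟨hx, ha, hb, hc, hd, h, h2, h3, h1⟩)

theorem sd (hl : Loc0 τ u) (hx : Pt τ u x) (ha : Act τ u x a) (hb : Act τ u x b)
    (hc : Act τ u x c) (h : 0 < d4 (u a) (u b) (u c) x) :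
    SideAt τ u x a b ∨ ∃ d, QuadAt τ u x a d b c := by
  obtain ⟨ab, bc, ac⟩ := ne_of_pos h
  by_contra hn
  rw [not_or] at hn
  refine hn.1 ⟨hx, ab, ha, hb, ⟨c, ac.symm, bc.symm, hc⟩, fun d da db hd => ?_⟩
  by_cases dc : d = c
  · rwa [dc]
  rcases (hl.four x a b c d hx ha hb hc hd h da db dc).2 with q | q | q
  · exact absurd ⟨d, q⟩ hn.2
  · exact q.2.2.2.2.2.1
  · exact q.2.2.2.2.2.2.2.1

theorem quad_side (hl : Loc0 τ u) (q : QuadAt τ u x a b c d) : SideAt τ u x a b := by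
  obtain ⟨ab, bc, ac⟩ := ne_of_pos q.2.2.2.2.2.1
  refine ⟨q.1, ab, q.2.1, q.2.2.1, ⟨c, ac.symm, bc.symm, q.2.2.2.1⟩, fun e ea eb he => ?_⟩
  rcases hl.five x a b c d e q he with rfl | rfl | rfl | rfl
  · exact absurd rfl ea
  · exact absurd rfl eb
  · exact q.2.2.2.2.2.1
  · exact q.2.2.2.2.2.2.2.1

theorem quad_face (R : Reg τ u T) (q : QuadAt τ u x a b c d) : T.F a b c ∨ T.F a b d := by
  obtain ⟨e, f, he⟩ := R.good.side x a b (quad_side R.loc q)
  rcases R.loc.five x a b c d e q he with rfl | rfl | rfl | rfl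
  · exact absurd rfl (Tri.ne13 f)
  · exact absurd rfl (Tri.ne23 f)
  · exact Or.inl f
  · exact Or.inr f

theorem quad_nadj (R : Reg τ u T) (q : QuadAt τ u x a b c d) (f : T.F a b c) : ¬ T.adj b d := by
  rintro ⟨m, g⟩
  obtain ⟨y, hy, yb, yd, ym, h⟩ := R.good.vtx b d m g
  rcases sd R.loc hy yb yd ym h with s | ⟨e, s⟩
  · exact R.dside x y b c d a q.rot s
  · obtain rfl := R.duniq x y b c d a e m q.rot s
    rcases R.loc.five x a b c d m q ym with rfl | rfl | rfl | rfl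
    · exact (ne_of_pos q.2.2.2.2.2.2.1).2.1 (T.uniq f (Tri.cyc2 g))
    · exact Tri.ne13 g rfl
    · rw [d4_swap23] at h
      linarith [q.2.2.2.2.2.2.2.2]
    · exact Tri.ne23 g rfl

theorem diag (R : Reg τ u T) {p q : ι} (hq : QuadAt τ u y a p b q) (hx : Pt τ u x)
    (ha : Act τ u x a) (hb : Act τ u x b) (hc : Act τ u x c) (h : 0 < d4 (u a) (u b) (u c) x) :
    y = x := by
  rcases sd R.loc hx ha hb hc h with s | ⟨e, s⟩
  · exact absurd s (R.dside y x a p b q hq)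
  · exact R.duniq y x a p b q e c hq s

theorem mirror_face (R : Reg τ u T) (hx : Pt τ u x) (ha : Act τ u x a) (hb : Act τ u x b)
    (hc : Act τ u x c) (h : 0 < d4 (u a) (u b) (u c) x) (hy : Pt τ u y) (ka : Act τ u y a)
    (kb : Act τ u y b) (kc : Act τ u y c) (k : 0 < d4 (u a) (u c) (u b) y) : T.F a c b := by
  have hne : y ≠ x := by
    rintro rfl
    rw [d4_swap23] at k
    linarith
  obtain ⟨ac, cb, ab⟩ := ne_of_pos k
  have key : ∀ d, Act τ u y d → d ≠ a → d ≠ c → d = b := by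
    intro d hd da dc
    by_contra db
    rcases (R.loc.four y a c b d hy ka kc kb hd k da dc db).2 with q | q | q
    · exact hne (diag R q.rot.rot hx hc ha hb (by rwa [← d4_cyc, ← d4_cyc] at h))
    · exact hne (diag R q.rot.rot.rot hx hb hc ha (by rwa [d4_cyc]))
    · exact hne (diag R q hx ha hb hc h)
  obtain ⟨e, f, he⟩ := R.good.side y a c ⟨hy, ac, ka, kc, ⟨b, ab.symm, cb.symm, kb⟩,
    fun d da dc hd => by rwa [key d hd da dc]⟩
  rwa [key e he (Tri.ne13 f).symm (Tri.ne23 f).symm] at f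

theorem mirror_uniq (R : Reg τ u T) (hx : Pt τ u x) (ha : Act τ u x a) (hb : Act τ u x b)
    (hc : Act τ u x c) (h : 0 < d4 (u a) (u b) (u c) x) (hy : Pt τ u y) (ka : Act τ u y a)
    (kb : Act τ u y b) (kc : Act τ u y c) : y = x := by
  obtain ⟨ab, bc, ac⟩ := ne_of_pos h
  rcases lt_or_gt_of_ne (R.loc.three y a b c hy ab bc ac ka kb kc) with k | k
  · have k' : 0 < d4 (u a) (u c) (u b) y := by rw [d4_swap23]; linarith
    exact absurd (mirror_face R hx ha hb hc h hy ka kb kc k')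
      (T.nrev (mirror_face R hy ka kc kb k' hx ha hc hb h))
  · exact vtx_unique hy.1 hx.1 (ka.trans ha.symm) (kb.trans hb.symm) (kc.trans hc.symm) k h

theorem ext_pos (R : Reg τ u T) (h : 0 < τ) : Ext u := by
  intro a
  obtain ⟨b, c, f⟩ := T.cover a
  obtain ⟨x, hx, ha, hb, hc, -⟩ := R.good.vtx a b c f
  refine ⟨x - τ • u a, ?_, fun j hj => ?_⟩
  · rw [inner_sub_left, real_inner_smul_left, real_inner_self_eq_norm_sq, R.good.un a,
      real_inner_comm, ha]
    ring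
  · have h1 : u a ≠ u j := by
      intro e
      have hj' : Act τ u x j := by rw [Act, ← e]; exact ha
      by_cases jb : j = b
      · exact R.loc.three x a j c hx hj.symm (jb ▸ Tri.ne23 f) (Tri.ne13 f) ha hj' hc
          (by rw [← e, d4_self12])
      · exact R.loc.three x a j b hx hj.symm jb (T.ne f) ha hj' hb (by rw [← e, d4_self12])
    have h2 := (inner_lt_one_iff_real_of_norm_eq_one (R.good.un a) (R.good.un j)).2 h1
    rw [inner_sub_left, real_inner_smul_left, real_inner_comm]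
    nlinarith [hx.2 j]

theorem ext_zero (R : Reg 0 u T) : Ext u := by
  have key : ∀ a b c, T.F a b c → ∃ x, inner ℝ x (u a) = 0 ∧ (∀ j, 0 ≤ inner ℝ x (u j)) ∧
      ∀ j, j ≠ a → j ≠ b → j ≠ c → 0 < inner ℝ x (u j) := by
    intro a b c f
    obtain ⟨x, hx, ha, hb, hc, h⟩ := R.good.vtx a b c f
    refine ⟨x, (real_inner_comm _ _).trans ha, fun j => real_inner_comm (u j) x ▸ hx.2 j,
      fun j ja jb jc => ?_⟩
    rw [real_inner_comm]
    refine lt_of_le_of_ne (hx.2 j) fun hj => ?_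
    have := eq_zero_of_inner4 (R.loc.four x a b c j hx ha hb hc hj.symm h ja jb jc).1 ha hb hc
      hj.symm
    have h1 := hx.1
    simp [this] at h1
  intro a
  obtain ⟨p, q, r, s, f1, f2, f3, n1, n2⟩ := fan T a
  obtain ⟨x1, a1, b1, c1⟩ := key _ _ _ f1
  obtain ⟨x2, a2, b2, c2⟩ := key _ _ _ f2
  obtain ⟨x3, a3, b3, c3⟩ := key _ _ _ f3
  refine ⟨x1 + x2 + x3, by simp [inner_add_left, a1, a2, a3], fun j hj => ?_⟩
  rw [inner_add_left, inner_add_left]
  have pq := Tri.ne23 f1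
  by_cases jp : j = p
  · linarith [b1 j, b3 j, c2 j hj (jp ▸ pq) (jp ▸ n1.symm)]
  by_cases jq : j = q
  · linarith [b1 j, b2 j, c3 j hj (jq ▸ n2.symm) jp]
  linarith [b2 j, b3 j, c1 j hj jp jq]

theorem map_d4 (L : E4 ≃ₗᵢ[ℝ] E4) : ∃ ε : ℝ, ε ≠ 0 ∧
    ∀ a b c d, d4 (L a) (L b) (L c) (L d) = ε * d4 a b c d := by
  have h : ∀ (a : E4) (j : Fin 4), L a j = a 0 * L !₂[1, 0, 0, 0] j + a 1 * L !₂[0, 1, 0, 0] j +
      a 2 * L !₂[0, 0, 1, 0] j + a 3 * L !₂[0, 0, 0, 1] j := by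
    intro a j
    have : a = a 0 • !₂[1, 0, 0, 0] + a 1 • !₂[0, 1, 0, 0] + a 2 • !₂[0, 0, 1, 0] +
      a 3 • !₂[0, 0, 0, 1] := by apply ext4 <;> simp
    conv_lhs => rw [this]
    simp only [map_add, map_smul]
    rfl
  have key : ∀ a b c d, d4 (L a) (L b) (L c) (L d) = d4 (L !₂[1, 0, 0, 0]) (L !₂[0, 1, 0, 0])
      (L !₂[0, 0, 1, 0]) (L !₂[0, 0, 0, 1]) * d4 a b c d := by
    intro a b c d
    generalize L !₂[1, 0, 0, 0] = e0 at h ⊢
    generalize L !₂[0, 1, 0, 0] = e1 at h ⊢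
    generalize L !₂[0, 0, 1, 0] = e2 at h ⊢
    generalize L !₂[0, 0, 0, 1] = e3 at h ⊢
    simp only [d4, m3, h]
    ring
  refine ⟨_, fun h0 => ?_, key⟩
  have := key (L.symm !₂[1, 0, 0, 0]) (L.symm !₂[0, 1, 0, 0]) (L.symm !₂[0, 0, 1, 0])
    (L.symm !₂[0, 0, 0, 1])
  rw [h0] at this
  simp [d4, m3] at this

end Loc

open Loc

theorem stMet : StMet := by
  intro ι τ u T hτ h
  refine ⟨fun a b => by rw [gm, gm, real_inner_comm], gm_self hτ h.un, fun a b c f => ?_⟩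
  obtain ⟨x, hx, ha, hb, hc, hd⟩ := h.vtx a b c f
  refine ⟨fun i => (√(1 - τ ^ 2))⁻¹ • fr x (u i), fun i j hi hj => dev hτ hx.1 ?_ ?_, ?_⟩
  · rcases hi with rfl | rfl | rfl <;> assumption
  · rcases hj with rfl | rfl | rfl <;> assumption
  · have : ∀ (s : ℝ) (p q r : E3), d3 (s • p) (s • q) (s • r) = s ^ 3 * d3 p q r := by
      intro s p q r; simp [d3]; ring
    rw [this, fr_d3 hx.1]
    have := Real.sqrt_pos.2 (show 0 < 1 - τ ^ 2 by linarith)
    positivity

theorem stLoc : StLoc := by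
  intro ι _ τ u T h0 h1 hu hv hw h4 h5
  have H : Hyp τ u T := ⟨h0, h1, hu, hv, hw, h4, h5⟩
  refine ⟨fun x a b c hx ab bc ac => H.three hx.1 ab bc ac, fun x a b c d => H.four,
    fun x a b c d e q he => ?_⟩
  obtain ⟨hx, ha, hb, hc, hd, k1, k2, k3, -⟩ := q
  obtain ⟨ab, bc, ac⟩ := ne_of_pos k1
  obtain ⟨-, cd, ad⟩ := ne_of_pos k2
  exact five' h5 hx.1 ha hb hc hd he ab ac ad bc (ne_of_pos k3).2.1 cd

theorem stType : StType := by
  intro ι τ u T R
  refine ⟨fun x a b c d q => ?_, fun a b c f => ?_⟩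
  · obtain ⟨-, cd, ad⟩ := ne_of_pos q.2.2.2.2.2.2.1
    rcases quad_face R q with f | f
    · refine Or.inl ⟨f, ?_, quad_nadj R q f⟩
      rcases quad_face R q.rot.rot with g | g
      · exact Tri.cyc2 g
      · exact absurd (T.uniq (T.cyc f) (Tri.cyc2 g)) ad
    · rcases quad_face R q.rot with g | g
      · exact Or.inr ⟨g, T.cyc f, fun h => quad_nadj R q.rot g h.symm⟩
      · exact absurd (T.uniq (Tri.cyc2 g) f) cd
  · obtain ⟨x, hx, ha, hb, hc, h⟩ := R.good.vtx a b c f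
    exact (sd R.loc hx ha hb hc h).imp (fun s => ⟨x, s⟩) fun s => ⟨x, s⟩

theorem stMirror : StMirror := by
  intro ι _ τ u T R
  refine ⟨?_, fun x a b c hx ha hb hc h => ⟨?_, fun y hy => mirror_uniq R hx ha hb hc h hy⟩⟩
  · rcases R.nn.eq_or_lt with rfl | h
    · exact ext_zero R
    · exact ext_pos R h
  · by_contra hn
    simp only [not_exists, not_lt] at hn
    have hc0 : 0 < ‖cr (u a) (u b) (u c)‖ := norm_pos_iff.2 fun e => by
      rw [← inner_cr, e, inner_zero_left] at h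
      exact lt_irrefl _ h
    obtain ⟨s, hs⟩ : ∃ s, s = 2 * d4 (u a) (u b) (u c) x / ‖cr (u a) (u b) (u c)‖ ^ 2 := ⟨_, rfl⟩
    have s0 : 0 < s := by rw [hs]; positivity
    have k : ∀ i, inner ℝ (u i) (x - s • cr (u a) (u b) (u c)) =
        inner ℝ (u i) x - s * d4 (u a) (u b) (u c) (u i) := fun i => by
      rw [inner_sub_right, real_inner_smul_right, real_inner_comm (cr _ _ _), inner_cr]
    have := mirror_uniq R hx ha hb hc h (y := x - s • cr (u a) (u b) (u c)) ⟨?_, fun i => ?_⟩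
      (by rw [Act, k, d4_self14, ha]; ring) (by rw [Act, k, d4_self24, hb]; ring)
      (by rw [Act, k, d4_self34, hc]; ring)
    · rw [sub_eq_self, smul_eq_zero] at this
      exact this.elim s0.ne' (norm_pos_iff.1 hc0)
    · rw [← pow_eq_one_iff_of_nonneg (norm_nonneg _) two_ne_zero, norm_sub_sq_real, hx.1,
        real_inner_smul_right, real_inner_comm, inner_cr, norm_smul, mul_pow, Real.norm_eq_abs,
        sq_abs, hs]
      field_simp
      ring
    · rw [k]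
      nlinarith [hx.2 i, hn i]

theorem stSReg : StSReg := by
  intro ι τ u T h0 h1 S
  have nq : ∀ x a b c d, ¬ QuadAt τ u x a b c d := by
    rintro x a b c d ⟨hx, ha, hb, hc, hd, k1, k2, k3, -⟩
    obtain ⟨ab, bc, ac⟩ := ne_of_pos k1
    obtain ⟨-, cd, ad⟩ := ne_of_pos k2
    rcases (S.simple x a b c hx ab bc ac ha hb hc).1 d hd with e | e | e
    exacts [ad e.symm, (ne_of_pos k3).2.1 e.symm, cd e.symm]
  refine ⟨⟨h0, h1, ⟨S.un, fun a b c f => ?_, ?_⟩, ⟨fun x a b c hx ab bc ac ha hb hc => ?_,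
    fun x a b c d hx ha hb hc hd h da db dc => ?_, fun x a b c d e q => absurd q (nq _ _ _ _ _)⟩,
    fun x y a b c d q => absurd q (nq _ _ _ _ _),
    fun x y a b c d _ _ q => absurd q (nq _ _ _ _ _)⟩, nq⟩
  · obtain ⟨x, hx, ha, hb, hc⟩ := S.vtx a b c f
    rcases (S.simple x a b c hx (T.ne f) (Tri.ne23 f) (Tri.ne13 f) ha hb hc).2 with h | h
    · exact ⟨x, hx, ha, hb, hc, h.2⟩
    · exact absurd h.1 (T.nrev f)
  · rintro x a b ⟨hx, ab, ha, hb, ⟨c, ca, cb, hc⟩, h⟩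
    rcases (S.simple x a b c hx ab cb.symm ca.symm ha hb hc).2 with k | k
    · exact ⟨c, k.1, hc⟩
    · linarith [h c ca cb hc, k.2]
  · rcases (S.simple x a b c hx ab bc ac ha hb hc).2 with k | k
    exacts [k.2.ne', k.2.ne]
  · obtain ⟨ab, bc, ac⟩ := ne_of_pos h
    rcases (S.simple x a b c hx ab bc ac ha hb hc).1 d hd with e | e | e
    exacts [absurd e da, absurd e db, absurd e dc]

theorem stMap : StMap := by
  intro ι L T
  obtain ⟨ε, h0, h⟩ := map_d4 L
  have hp : ∀ τ (u : ι → E4) x, Pt τ (fun i => L (u i)) (L x) ↔ Pt τ u x := fun τ u x => by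
    simp [Pt]
  have ha : ∀ τ (u : ι → E4) x i, Act τ (fun i => L (u i)) (L x) i ↔ Act τ u x i :=
    fun τ u x i => by simp [Act]
  rcases lt_or_gt_of_ne h0 with e | e
  · refine ⟨T.rev, fun a b => Tri.rev_adj, fun τ u g => ⟨fun i => by simpa using g.un i,
      fun a b c f => ?_, fun y a b s => ?_⟩⟩
    · obtain ⟨x, hx, k1, k2, k3, k⟩ := g.vtx a c b f
      refine ⟨L x, (hp _ _ _).2 hx, (ha _ _ _ _).2 k1, (ha _ _ _ _).2 k3, (ha _ _ _ _).2 k2, ?_⟩
      rw [h, d4_swap23]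
      nlinarith
    · obtain ⟨x, rfl⟩ := L.surjective y
      simp only [SideAt, hp, ha, h] at s
      obtain ⟨hx, ab, k1, k2, ⟨c, ca, cb, hc⟩, k⟩ := s
      obtain ⟨d, f, hd⟩ := g.side x b a ⟨hx, ab.symm, k2, k1, ⟨c, cb, ca, hc⟩, fun d db da hd => by
        have := k d da db hd
        rw [d4_swap12]
        nlinarith⟩
      exact ⟨d, T.cyc f, (ha _ _ _ _).2 hd⟩
  · refine ⟨T, fun a b => Iff.rfl, fun τ u g => ⟨fun i => by simpa using g.un i,
      fun a b c f => ?_, fun y a b s => ?_⟩⟩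
    · obtain ⟨x, hx, k1, k2, k3, k⟩ := g.vtx a b c f
      refine ⟨L x, (hp _ _ _).2 hx, (ha _ _ _ _).2 k1, (ha _ _ _ _).2 k2, (ha _ _ _ _).2 k3, ?_⟩
      rw [h]
      positivity
    · obtain ⟨x, rfl⟩ := L.surjective y
      simp only [SideAt, hp, ha, h] at s
      obtain ⟨hx, ab, k1, k2, k3, k⟩ := s
      obtain ⟨d, f, hd⟩ := g.side x a b ⟨hx, ab, k1, k2, k3, fun d da db hd =>
        (pos_iff_pos_of_mul_pos (k d da db hd)).1 e⟩
      exact ⟨d, f, (ha _ _ _ _).2 hd⟩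

end Pool.Agent.Lib.MP_34b931_co.G
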