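import Pool.Agent.Lib.MP_34b931_co.H22Tri

/-! Limits and perturbations of spherical ball-polyhedra. -/

namespace Pool.Agent.Lib.MP_34b931_co.G

open Filter Topology

namespace Open

variable {ι : Type}

theorem cr_inner (a b c a' b' c' : E4) : inner ℝ (cr a b c) (cr a' b' c') =
    inner ℝ a a' * (inner ℝ b b' * inner ℝ c c' - inner ℝ b c' * inner ℝ c b')
      - inner ℝ a b' * (inner ℝ b a' * inner ℝ c c' - inner ℝ b c' * inner ℝ c a')
      + inner ℝ a c' * (inner ℝ b a' * inner ℝ c b' - inner ℝ b b' * inner ℝ c a') := by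
  simp [inner4, cr, m3]; ring

theorem ident {τ t : ℝ} {u : ι → E4} {x : E4} {a b c d : ι} (hτ : τ ^ 2 < 1) (hu : Un u)
    (hx : ‖x‖ = 1) (ha : Act τ u x a) (hb : Act τ u x b) (hc : Act τ u x c)
    (hd : inner ℝ (u d) x - τ = t) :
    (1 - τ ^ 2) ^ 4 * Dg (gm τ u) a b c d = t * (2 * d4 (u a) (u b) (u c) (u d) *
      d4 (u a) (u b) (u c) x - t * ‖cr (u a) (u b) (u c)‖ ^ 2) := by
  have hr : 1 - τ ^ 2 ≠ 0 := by linarith
  have h1 := dual4 (u a) (u b) (u c) (u d) x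
  rw [ha, hb, hc, show inner ℝ (u d) x = τ + t by linarith] at h1
  have h2 : τ • (-cr (u b) (u c) (u d) + cr (u a) (u c) (u d) - cr (u a) (u b) (u d) +
      cr (u a) (u b) (u c)) = d4 (u a) (u b) (u c) (u d) • x - t • cr (u a) (u b) (u c) := by
    rw [h1]; module
  have h3 := congrArg (fun v : E4 => inner ℝ v v) h2
  simp only [real_inner_smul_left, real_inner_smul_right] at h3
  have h4 : inner ℝ (d4 (u a) (u b) (u c) (u d) • x - t • cr (u a) (u b) (u c))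
      (d4 (u a) (u b) (u c) (u d) • x - t • cr (u a) (u b) (u c)) =
      d4 (u a) (u b) (u c) (u d) ^ 2 - t * (2 * d4 (u a) (u b) (u c) (u d) *
      d4 (u a) (u b) (u c) x - t * ‖cr (u a) (u b) (u c)‖ ^ 2) := by
    simp only [inner_sub_left, inner_sub_right, real_inner_smul_left, real_inner_smul_right,
      real_inner_self_eq_norm_sq x, real_inner_self_eq_norm_sq (cr _ _ _), hx,
      real_inner_comm (cr (u a) (u b) (u c)) x, inner_cr _ _ _ x]
    ring
  have h5 := congrArg (inner ℝ (cr (u a) (u b) (u c))) (dual4 (u a) (u b) (u c) (u d) (u d))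
  rw [real_inner_smul_right, inner_cr] at h5
  rw [h4] at h3
  simp only [inner_add_left, inner_add_right, inner_sub_left, inner_sub_right, inner_neg_left,
    inner_neg_right, real_inner_smul_right, cr_inner, real_inner_self_eq_norm_sq (u _), hu a, hu b,
    hu c, hu d, real_inner_comm (u a) (u b), real_inner_comm (u a) (u c), real_inner_comm (u a) (u d),
    real_inner_comm (u b) (u c), real_inner_comm (u b) (u d), real_inner_comm (u c) (u d)] at h3 h5
  simp only [Dg, gm]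
  generalize inner ℝ (u a) (u b) = ab at *
  generalize inner ℝ (u a) (u c) = ac at *
  generalize inner ℝ (u a) (u d) = ad at *
  generalize inner ℝ (u b) (u c) = bc at *
  generalize inner ℝ (u b) (u d) = bd at *
  generalize inner ℝ (u c) (u d) = cd at *
  field_simp
  linear_combination -h3 - h5

theorem gm_symm (τ : ℝ) (u : ι → E4) (a b : ι) : gm τ u a b = gm τ u b a := by
  rw [gm, gm, real_inner_comm]

theorem Dg_cyc (τ : ℝ) (u : ι → E4) (a b c d : ι) :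
    Dg (gm τ u) b c a d = Dg (gm τ u) a b c d := by
  simp only [Dg, gm_symm τ u b a, gm_symm τ u c a]; ring

theorem Dg_swap (τ : ℝ) (u : ι → E4) (a b c d : ι) :
    Dg (gm τ u) a b d c = Dg (gm τ u) a b c d := by
  simp only [Dg, gm_symm τ u d c]; ring

/-- The solution of the linear system that is orthogonal to the cross product. -/
noncomputable def y0 (τ : ℝ) (A B C : E4) : E4 :=
  (‖cr A B C‖ ^ 2)⁻¹ • (-(τ • cr B C (cr A B C)) + τ • cr A C (cr A B C) - τ • cr A B (cr A B C))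

/-- The vertex on the positive side. -/
noncomputable def nv (τ : ℝ) (A B C : E4) : E4 :=
  y0 τ A B C + √((1 - ‖y0 τ A B C‖ ^ 2) / ‖cr A B C‖ ^ 2) • cr A B C

theorem d4_cr (A B C : E4) : d4 A B C (cr A B C) = ‖cr A B C‖ ^ 2 := by
  rw [← inner_cr, real_inner_self_eq_norm_sq]

theorem y0_inner (τ : ℝ) {A B C : E4} (h : cr A B C ≠ 0) :
    inner ℝ A (y0 τ A B C) = τ ∧ inner ℝ B (y0 τ A B C) = τ ∧ inner ℝ C (y0 τ A B C) = τ ∧
      inner ℝ (cr A B C) (y0 τ A B C) = 0 := by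
  have h0 : ‖cr A B C‖ ^ 2 ≠ 0 := pow_ne_zero _ (norm_ne_zero_iff.2 h)
  have h1 := d4_cr A B C
  simp only [← real_inner_comm _ (y0 τ A B C)]
  simp only [y0]
  rw [← h1] at h0 ⊢
  generalize cr A B C = N at *
  refine ⟨?_, ?_, ?_, ?_⟩ <;>
  simp only [real_inner_smul_left, inner_add_left, inner_sub_left, inner_neg_left, inner_cr] <;>
  field_simp <;> simp only [d4, m3] <;> ring

theorem nv_spec (τ : ℝ) {A B C : E4} (h : cr A B C ≠ 0) (h' : ‖y0 τ A B C‖ ^ 2 < 1) :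
    ‖nv τ A B C‖ = 1 ∧ inner ℝ A (nv τ A B C) = τ ∧ inner ℝ B (nv τ A B C) = τ ∧
      inner ℝ C (nv τ A B C) = τ ∧ 0 < d4 A B C (nv τ A B C) := by
  obtain ⟨h1, h2, h3, h4⟩ := y0_inner τ h
  have h0 : 0 < ‖cr A B C‖ ^ 2 := pow_pos (norm_pos_iff.2 h) 2
  have hp : 0 < (1 - ‖y0 τ A B C‖ ^ 2) / ‖cr A B C‖ ^ 2 := div_pos (by linarith) h0
  have hs := Real.sq_sqrt hp.le
  have hs' := Real.sqrt_pos.2 hp
  have k : ∀ v : E4, inner ℝ v (cr A B C) = d4 A B C v := fun v => by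
    rw [real_inner_comm, inner_cr]
  refine ⟨?_, ?_, ?_, ?_, ?_⟩
  · rw [← sq_eq_sq₀ (norm_nonneg _) zero_le_one, nv, norm_add_sq_real, real_inner_smul_right,
      real_inner_comm, h4, norm_smul, mul_pow, Real.norm_eq_abs, sq_abs, hs]
    field_simp
    ring
  · rw [nv, inner_add_right, real_inner_smul_right, h1, k, d4_self14, mul_zero, add_zero]
  · rw [nv, inner_add_right, real_inner_smul_right, h2, k, d4_self24, mul_zero, add_zero]
  · rw [nv, inner_add_right, real_inner_smul_right, h3, k, d4_self34, mul_zero, add_zero]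
  · rw [← inner_cr, nv, inner_add_right, real_inner_smul_right, h4, real_inner_self_eq_norm_sq,
      zero_add]
    positivity

theorem y0_lt {τ : ℝ} {A B C x : E4} (hx : ‖x‖ = 1) (ha : inner ℝ A x = τ) (hb : inner ℝ B x = τ)
    (hc : inner ℝ C x = τ) (hp : 0 < d4 A B C x) :
    cr A B C ≠ 0 ∧ ‖y0 τ A B C‖ ^ 2 < 1 := by
  have h : cr A B C ≠ 0 := fun e => by
    rw [← inner_cr, e, inner_zero_left] at hp
    exact lt_irrefl _ hp
  refine ⟨h, ?_⟩
  obtain ⟨h1, h2, h3, h4⟩ := y0_inner τ h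
  have h0 : 0 < ‖cr A B C‖ ^ 2 := pow_pos (norm_pos_iff.2 h) 2
  have h5 := perp_cr (a := A) (b := B) (c := C) (v := x - y0 τ A B C) (cr A B C)
    (by rw [inner_sub_right, ha, h1, sub_self]) (by rw [inner_sub_right, hb, h2, sub_self])
    (by rw [inner_sub_right, hc, h3, sub_self])
  have h6 := congrArg (inner ℝ (y0 τ A B C)) h5
  rw [real_inner_smul_right, real_inner_smul_right, real_inner_comm (cr A B C), h4, mul_zero,
    d4_cr] at h6
  have h7 := (mul_eq_zero.1 h6).resolve_left h0.ne'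
  have h8 : x - y0 τ A B C ≠ 0 := fun e => by
    rw [← inner_cr, sub_eq_zero.1 e, h4] at hp
    exact lt_irrefl _ hp
  have h9 := norm_add_sq_real (y0 τ A B C) (x - y0 τ A B C)
  rw [add_sub_cancel, hx, h7] at h9
  have := pow_pos (norm_pos_iff.2 h8) 2
  linarith

theorem exists_near {τ : ℝ} {u : ι → E4} {x : E4} {a b c : ι} (hx : ‖x‖ = 1)
    (ha : Act τ u x a) (hb : Act τ u x b) (hc : Act τ u x c) (hp : 0 < d4 (u a) (u b) (u c) x) :
    ∃ X : ℝ × (ι → E4) → E4, Tendsto X (𝓝 (τ, u)) (𝓝 x) ∧ ∀ᶠ q in 𝓝 (τ, u), ‖X q‖ = 1 ∧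
      Act q.1 q.2 (X q) a ∧ Act q.1 q.2 (X q) b ∧ Act q.1 q.2 (X q) c := by
  obtain ⟨h1, h2⟩ := y0_lt hx ha hb hc hp
  have h0 : ‖cr (u a) (u b) (u c)‖ ^ 2 ≠ 0 := pow_ne_zero _ (norm_ne_zero_iff.2 h1)
  have c1 : Continuous fun q : ℝ × (ι → E4) => cr (q.2 a) (q.2 b) (q.2 c) := by fun_prop
  have c2 : ContinuousAt (fun q : ℝ × (ι → E4) => y0 q.1 (q.2 a) (q.2 b) (q.2 c)) (τ, u) := by
    have c0 : ContinuousAt (fun q : ℝ × (ι → E4) => (‖cr (q.2 a) (q.2 b) (q.2 c)‖ ^ 2)⁻¹) (τ, u) :=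
      ContinuousAt.fun_inv₀ (Continuous.continuousAt (by fun_prop)) h0
    have c0' : Continuous fun q : ℝ × (ι → E4) =>
        -(q.1 • cr (q.2 b) (q.2 c) (cr (q.2 a) (q.2 b) (q.2 c))) +
          q.1 • cr (q.2 a) (q.2 c) (cr (q.2 a) (q.2 b) (q.2 c)) -
          q.1 • cr (q.2 a) (q.2 b) (cr (q.2 a) (q.2 b) (q.2 c)) := by fun_prop
    exact c0.fun_smul c0'.continuousAt
  have c3 : ContinuousAt (fun q : ℝ × (ι → E4) => nv q.1 (q.2 a) (q.2 b) (q.2 c)) (τ, u) := by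
    have c0 : ContinuousAt (fun q : ℝ × (ι → E4) => (1 - ‖y0 q.1 (q.2 a) (q.2 b) (q.2 c)‖ ^ 2) /
        ‖cr (q.2 a) (q.2 b) (q.2 c)‖ ^ 2) (τ, u) :=
      ContinuousAt.div₀ (by fun_prop) (Continuous.continuousAt (by fun_prop)) h0
    exact c2.fun_add (c0.sqrt.fun_smul c1.continuousAt)
  obtain ⟨k1, k2, k3, k4, k5⟩ := nv_spec τ h1 h2
  have e : nv τ (u a) (u b) (u c) = x :=
    vtx_unique k1 hx (k2.trans ha.symm) (k3.trans hb.symm) (k4.trans hc.symm) k5 hp
  refine ⟨fun q => nv q.1 (q.2 a) (q.2 b) (q.2 c), e ▸ c3.tendsto, ?_⟩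
  filter_upwards [c1.continuousAt.eventually_ne h1,
    (c2.norm.pow 2).eventually_lt continuousAt_const h2] with q q1 q2
  obtain ⟨k1, k2, k3, k4, -⟩ := nv_spec q.1 q1 q2
  exact ⟨k1, k2, k3, k4⟩

/-- What a small perturbation keeps. -/
structure Nr (τ : ℝ) (u : ι → E4) (x : E4) (τ' : ℝ) (u' : ι → E4) (x' : E4) : Prop where
  act : ∀ m, ¬ Act τ u x m → τ' < inner ℝ (u' m) x'
  pos : ∀ i j k, 0 < d4 (u i) (u j) (u k) x → 0 < d4 (u' i) (u' j) (u' k) x'
  sgn : ∀ a b c d, Act τ u x d → 0 < d4 (u a) (u b) (u c) x → d4 (u a) (u b) (u c) (u d) ≠ 0 →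
    Un u' → ‖x'‖ = 1 → Act τ' u' x' a → Act τ' u' x' b → Act τ' u' x' c → ∃ κ : ℝ, 0 < κ ∧
      d4 (u a) (u b) (u c) (u d) * Dg (gm τ' u') a b c d = (inner ℝ (u' d) x' - τ') * κ

theorem Nr.act' {τ τ' : ℝ} {u u' : ι → E4} {x x' : E4} (h : Nr τ u x τ' u' x') {m : ι}
    (hm : Act τ' u' x' m) : Act τ u x m := by
  by_contra k
  exact (h.act m k).ne' hm

theorem nr_eventually [Finite ι] {τ : ℝ} {u : ι → E4} {x : E4} (hτ : τ ^ 2 < 1) (hx : Pt τ u x) :
    ∀ᶠ z : (ℝ × (ι → E4)) × E4 in 𝓝 ((τ, u), x), Nr τ u x z.1.1 z.1.2 z.2 := by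
  have h1 : ∀ᶠ z : (ℝ × (ι → E4)) × E4 in 𝓝 ((τ, u), x), ∀ m, ¬ Act τ u x m →
      z.1.1 < inner ℝ (z.1.2 m) z.2 := by
    refine eventually_all.2 fun m => eventually_imp_distrib_left.2 fun hm => ?_
    exact ContinuousAt.eventually_lt (Continuous.continuousAt (by fun_prop))
      (Continuous.continuousAt (by fun_prop)) (lt_of_le_of_ne (hx.2 m) (Ne.symm hm))
  have h2 : ∀ᶠ z : (ℝ × (ι → E4)) × E4 in 𝓝 ((τ, u), x), ∀ i j k, 0 < d4 (u i) (u j) (u k) x →
      0 < d4 (z.1.2 i) (z.1.2 j) (z.1.2 k) z.2 := by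
    refine eventually_all.2 fun i => eventually_all.2 fun j => eventually_all.2 fun k =>
      eventually_imp_distrib_left.2 fun hm => ?_
    exact ContinuousAt.eventually_lt continuousAt_const (Continuous.continuousAt (by fun_prop)) hm
  have h3 : ∀ᶠ z : (ℝ × (ι → E4)) × E4 in 𝓝 ((τ, u), x), z.1.1 ^ 2 < 1 :=
    ContinuousAt.eventually_lt (Continuous.continuousAt (by fun_prop)) continuousAt_const hτ
  have h4 : ∀ᶠ z : (ℝ × (ι → E4)) × E4 in 𝓝 ((τ, u), x), ∀ a b c d, Act τ u x d →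
      0 < d4 (u a) (u b) (u c) x → d4 (u a) (u b) (u c) (u d) ≠ 0 →
      0 < d4 (u a) (u b) (u c) (u d) * (2 * d4 (z.1.2 a) (z.1.2 b) (z.1.2 c) (z.1.2 d) *
        d4 (z.1.2 a) (z.1.2 b) (z.1.2 c) z.2 - (inner ℝ (z.1.2 d) z.2 - z.1.1) *
          ‖cr (z.1.2 a) (z.1.2 b) (z.1.2 c)‖ ^ 2) := by
    refine eventually_all.2 fun a => eventually_all.2 fun b => eventually_all.2 fun c =>
      eventually_all.2 fun d => eventually_imp_distrib_left.2 fun hd =>
        eventually_imp_distrib_left.2 fun hp => eventually_imp_distrib_left.2 fun h0 => ?_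
    refine ContinuousAt.eventually_lt continuousAt_const (Continuous.continuousAt (by fun_prop)) ?_
    have := mul_pos (mul_self_pos.2 h0) hp
    simp only
    rw [hd]
    linarith
  filter_upwards [h1, h2, h3, h4] with z k1 k2 k3 k4
  refine ⟨k1, k2, fun a b c d hd hp h0 hu hn ha hb hc => ?_⟩
  have hr : 0 < (1 - z.1.1 ^ 2) ^ 4 := pow_pos (by linarith) 4
  refine ⟨_, div_pos (k4 a b c d hd hp h0) hr, ?_⟩
  have := ident (d := d) k3 hu hn ha hb hc rfl
  rw [← mul_div_assoc, eq_div_iff hr.ne']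
  linear_combination d4 (u a) (u b) (u c) (u d) * this

theorem near_vertex [Finite ι] {τ : ℝ} {u : ι → E4} {x : E4} {a b c : ι} (hτ : τ ^ 2 < 1)
    (hx : Pt τ u x) (ha : Act τ u x a) (hb : Act τ u x b) (hc : Act τ u x c)
    (hp : 0 < d4 (u a) (u b) (u c) x) :
    ∀ᶠ q : ℝ × (ι → E4) in 𝓝 (τ, u), ∃ x', ‖x'‖ = 1 ∧ Act q.1 q.2 x' a ∧ Act q.1 q.2 x' b ∧
      Act q.1 q.2 x' c ∧ Nr τ u x q.1 q.2 x' := by
  obtain ⟨X, h1, h2⟩ := exists_near hx.1 ha hb hc hp
  filter_upwards [h2, (tendsto_id.prodMk_nhds h1).eventually (nr_eventually hτ hx)] with q k1 k2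
  exact ⟨X q, k1.1, k1.2.1, k1.2.2.1, k1.2.2.2, k2⟩

theorem quad_five {τ : ℝ} {u : ι → E4} {x : E4} {a b c d e : ι} (h : Loc0 τ u)
    (k : QuadAt τ u x a d b c ∨ QuadAt τ u x a b d c ∨ QuadAt τ u x a b c d) (he : Act τ u x e) :
    e = a ∨ e = b ∨ e = c ∨ e = d := by
  rcases k with k | k | k <;> have := h.five x _ _ _ _ e k he <;> grind

/-- A side at the limit vertex is a side at a nearby vertex. -/
theorem side_near {τ τ' : ℝ} {u u' : ι → E4} {x x' : E4} {a b c : ι} {T : Tri ι}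
    (hg : Good τ' u' T) (hs : SideAt τ u x a b) (hn : Nr τ u x τ' u' x') (hp : Pt τ' u' x')
    (ha : Act τ' u' x' a) (hb : Act τ' u' x' b) (hc : Act τ' u' x' c) (ca : c ≠ a) (cb : c ≠ b) :
    ∃ c, T.F a b c ∧ Act τ u x c := by
  obtain ⟨e, h1, h2⟩ := hg.side x' a b ⟨hp, hs.2.1, ha, hb, ⟨c, ca, cb, hc⟩,
    fun e ea eb he => hn.pos _ _ _ (hs.2.2.2.2.2 e ea eb (hn.act' he))⟩
  exact ⟨e, h1, hn.act' h2⟩

theorem det_ne {T : Tri ι} {G : ι → ι → ℝ} {τ : ℝ} {u : ι → E4} {x : E4} {a b c : ι}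
    (hG : IsMet T G) (hτ : τ ^ 2 < 1) (hu : Un u) (he : ∀ a b, T.adj a b → gm τ u a b = G a b)
    (hf : T.F a b c) (hx : ‖x‖ = 1) (ha : Act τ u x a) (hb : Act τ u x b) (hc : Act τ u x c) :
    d4 (u a) (u b) (u c) x ≠ 0 := by
  have hr : 0 < 1 - τ ^ 2 := by linarith
  obtain ⟨D, h1, h2⟩ := hG.2.2 a b c hf
  have e1 := d3_sq (D a) (D b) (D c)
  rw [h1 a a (by grind) (by grind), h1 b b (by grind) (by grind), h1 c c (by grind) (by grind),
    h1 a b (by grind) (by grind), h1 b c (by grind) (by grind), h1 a c (by grind) (by grind),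
    hG.2.1, hG.2.1, hG.2.1, ← he a b (Tri.adj12 hf), ← he b c (Tri.adj23 hf),
    ← he a c (Tri.adj13 hf)] at e1
  have e2 := d3_sq (fr x (u a)) (fr x (u b)) (fr x (u c))
  simp only [fr_d3 hx, fr_inner hx, real_inner_self_eq_norm_sq (u _), hu a, hu b, hu c,
    show inner ℝ (u a) x = τ from ha, show inner ℝ (u b) x = τ from hb,
    show inner ℝ (u c) x = τ from hc] at e2
  have e3 : d4 (u a) (u b) (u c) x ^ 2 = (1 - τ ^ 2) ^ 3 * d3 (D a) (D b) (D c) ^ 2 := by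
    rw [e1, e2]
    simp only [gm]
    field_simp
  intro h0
  have : 0 < (1 - τ ^ 2) ^ 3 * d3 (D a) (D b) (D c) ^ 2 := by positivity
  rw [← e3, h0] at this
  simp at this

end Open

open Open

theorem stClosed (hLoc : StLoc) (hW : StGenW) (hB : StGenB) (_hS : StGenStep) (_hM : StMet) :
    StClosed := by
  intro ι _ T G τ u hG hgen hτ1 hcl
  have hfr : ∃ᶠ q : ℝ × (ι → E4) in 𝓝 (τ, u), 0 ≤ q.1 ∧ Good q.1 q.2 T ∧
      ∀ a b, T.adj a b → gm q.1 q.2 a b = G a b := mem_closure_iff_frequently.1 hcl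
  have hτ0 : 0 ≤ τ := by
    by_contra k
    have : ∀ᶠ q : ℝ × (ι → E4) in 𝓝 (τ, u), q.1 < 0 :=
      ContinuousAt.eventually_lt continuousAt_fst continuousAt_const (not_le.1 k)
    obtain ⟨q, h1, h2⟩ := (hfr.and_eventually this).exists
    linarith [h1.1]
  have hτ : τ ^ 2 < 1 := by nlinarith
  have hu : Un u := by
    intro i
    have hc : ContinuousAt (fun q : ℝ × (ι → E4) => ‖q.2 i‖) (τ, u) :=
      Continuous.continuousAt (by fun_prop)
    exact tendsto_nhds_unique_of_frequently_eq hc.tendsto tendsto_const_nhds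
      (hfr.mono fun q hq => hq.2.1.un i)
  have he : ∀ a b, T.adj a b → gm τ u a b = G a b := by
    intro a b hab
    have hc : ContinuousAt (fun q : ℝ × (ι → E4) => gm q.1 q.2 a b) (τ, u) := by
      unfold gm
      exact ContinuousAt.div (Continuous.continuousAt (by fun_prop))
        (Continuous.continuousAt (by fun_prop)) (by simp only; linarith)
    exact tendsto_nhds_unique_of_frequently_eq hc.tendsto tendsto_const_nhds
      (hfr.mono fun q hq => hq.2.2 a b hab)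
  have hv : ∀ a b c, T.F a b c → ∃ x, Pt τ u x ∧ Act τ u x a ∧ Act τ u x b ∧ Act τ u x c ∧
      0 < d4 (u a) (u b) (u c) x := by
    intro a b c hf
    by_contra hcon
    have hcz : IsClosed {z : (ℝ × (ι → E4)) × E4 | (∀ i, z.1.1 ≤ inner ℝ (z.1.2 i) z.2) ∧
        Act z.1.1 z.1.2 z.2 a ∧ Act z.1.1 z.1.2 z.2 b ∧ Act z.1.1 z.1.2 z.2 c ∧
        0 ≤ d4 (z.1.2 a) (z.1.2 b) (z.1.2 c) z.2} := by
      have k : ∀ m, IsClosed {z : (ℝ × (ι → E4)) × E4 | Act z.1.1 z.1.2 z.2 m} := fun m =>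
        isClosed_eq (by fun_prop) (by fun_prop)
      refine IsClosed.and ?_ ((k a).and ((k b).and ((k c).and
        (isClosed_le continuous_const (by fun_prop)))))
      rw [Set.ofPred_forall]
      exact isClosed_iInter fun i => isClosed_le (by fun_prop) (by fun_prop)
    have h1 := (isCompact_sphere (0 : E4) 1).eventually_forall_of_forall_eventually
      (x₀ := (τ, u)) (P := fun q x => ¬ ((∀ i, q.1 ≤ inner ℝ (q.2 i) x) ∧
        Act q.1 q.2 x a ∧ Act q.1 q.2 x b ∧ Act q.1 q.2 x c ∧ 0 ≤ d4 (q.2 a) (q.2 b) (q.2 c) x))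
      fun x hx => hcz.isOpen_compl.mem_nhds fun k => hcon ⟨x, ⟨by simpa using hx, k.1⟩, k.2.1,
        k.2.2.1, k.2.2.2.1, lt_of_le_of_ne k.2.2.2.2
          (det_ne hG hτ hu he hf (by simpa using hx) k.2.1 k.2.2.1 k.2.2.2.1).symm⟩
    obtain ⟨q, hq, h2⟩ := (hfr.and_eventually h1).exists
    obtain ⟨x, k1, k2, k3, k4, k5⟩ := hq.2.1.vtx a b c hf
    exact h2 x (by simpa using k1.1) ⟨k1.2, k2, k3, k4, k5.le⟩
  have hgen' : Generic T (gm τ u) := fun s hs => hgen s fun a b hab => he a b hab ▸ hs a b hab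
  obtain ⟨b4, b5⟩ := hB ι T τ u hu hτ0 hτ1 hgen'
  have hwf : WFree T (gm τ u) := by
    intro a b c d ab ac ad bc bd cd
    have := hW ι T G hG hgen a b c d ab ac ad bc bd cd
    simpa only [Dg, he a b ab, he a c ac, he a d ad, he b c bc, he b d bd, he c d cd] using this
  have hloc := hLoc ι τ u T hτ0 hτ1 hu (fun a b c hf =>
    let ⟨x, k1, k2, k3, k4, _⟩ := hv a b c hf; ⟨x, k1, k2, k3, k4⟩) hwf b4 b5
  refine ⟨hτ0, ⟨hu, hv, fun x a b hs => ?_⟩, he⟩
  obtain ⟨hx, ab, ha, hb, ⟨c, ca, cb, hc⟩, hpos⟩ := id hs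
  by_cases h4 : ∃ d, d ≠ a ∧ d ≠ b ∧ d ≠ c ∧ Act τ u x d
  · obtain ⟨d, da, db, dc, hd⟩ := h4
    obtain ⟨h0, hq⟩ := hloc.four x a b c d hx ha hb hc hd (hpos c ca cb hc) da db dc
    obtain ⟨q, hq1, ⟨x1, n1, a1, b1, c1, r1⟩, x2, n2, a2, b2, d2, r2⟩ := (hfr.and_eventually
      ((near_vertex hτ hx ha hb hc (hpos c ca cb hc)).and
        (near_vertex hτ hx ha hb hd (hpos d da db hd)))).exists
    obtain ⟨κ1, p1, e1⟩ := r1.sgn a b c d hd (hpos c ca cb hc) h0 hq1.2.1.un n1 a1 b1 c1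
    obtain ⟨κ2, p2, e2⟩ := r2.sgn a b d c hc (hpos d da db hd)
      (by rw [d4_swap34]; exact neg_ne_zero.2 h0) hq1.2.1.un n2 a2 b2 d2
    rw [d4_swap34, Dg_swap] at e2
    rcases le_total 0 (d4 (u a) (u b) (u c) (u d) * Dg (gm q.1 q.2) a b c d) with k | k
    · refine side_near hq1.2.1 hs r1 ⟨n1, fun m => ?_⟩ a1 b1 c1 ca cb
      by_cases hm : Act τ u x m
      · rcases quad_five hloc hq hm with rfl | rfl | rfl | rfl
        exacts [a1.ge, b1.ge, c1.ge, by nlinarith]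
      · exact (r1.act m hm).le
    · refine side_near hq1.2.1 hs r2 ⟨n2, fun m => ?_⟩ a2 b2 d2 da db
      by_cases hm : Act τ u x m
      · rcases quad_five hloc hq hm with rfl | rfl | rfl | rfl
        exacts [a2.ge, b2.ge, by nlinarith, d2.ge]
      · exact (r2.act m hm).le
  · obtain ⟨q, hq1, x1, n1, a1, b1, c1, r1⟩ := (hfr.and_eventually
      (near_vertex hτ hx ha hb hc (hpos c ca cb hc))).exists
    refine side_near hq1.2.1 hs r1 ⟨n1, fun m => ?_⟩ a1 b1 c1 ca cb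
    by_cases hm : Act τ u x m
    · have : m = a ∨ m = b ∨ m = c := by grind
      rcases this with rfl | rfl | rfl
      exacts [a1.ge, b1.ge, c1.ge]
    · exact (r1.act m hm).le

theorem stOpen (hT : StType) : StOpen := by
  intro ι _ τ u T hR
  have hτ : τ ^ 2 < 1 := by nlinarith [hR.nn, hR.lt]
  have hty := (hT ι τ u T hR).1
  have h1 : ∀ᶠ q : ℝ × (ι → E4) in 𝓝 (τ, u), ∀ a b c, T.F a b c → Un q.2 →
      (∀ x a b c d, QuadAt τ u x a b c d → T.F a b c →
        0 ≤ d4 (u a) (u b) (u c) (u d) * Dg (gm q.1 q.2) a b c d) →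
      ∃ x, Pt q.1 q.2 x ∧ Act q.1 q.2 x a ∧ Act q.1 q.2 x b ∧ Act q.1 q.2 x c ∧
        0 < d4 (q.2 a) (q.2 b) (q.2 c) x := by
    refine eventually_all.2 fun a => eventually_all.2 fun b => eventually_all.2 fun c =>
      eventually_imp_distrib_left.2 fun hf => ?_
    obtain ⟨x, hx, ha, hb, hc, hp⟩ := hR.good.vtx a b c hf
    filter_upwards [near_vertex hτ hx ha hb hc hp] with q ⟨x1, n1, a1, b1, c1, r1⟩ hu hs
    refine ⟨x1, ⟨n1, fun d => ?_⟩, a1, b1, c1, r1.pos _ _ _ hp⟩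
    by_cases hd : Act τ u x d
    swap
    · exact (r1.act d hd).le
    by_cases da : d = a
    · exact da ▸ a1.ge
    by_cases db : d = b
    · exact db ▸ b1.ge
    by_cases dc : d = c
    · exact dc ▸ c1.ge
    obtain ⟨h0, hq⟩ := hR.loc.four x a b c d hx ha hb hc hd hp da db dc
    obtain ⟨κ, p1, e1⟩ := r1.sgn a b c d hd hp h0 hu n1 a1 b1 c1
    have : 0 ≤ d4 (u a) (u b) (u c) (u d) * Dg (gm q.1 q.2) a b c d := by
      rcases hq with k | k | k
      · have := hs x b c a d k.rot.rot (T.cyc hf)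
        rwa [d4_cyc, Dg_cyc] at this
      · have := hs x c a b d k.rot.rot.rot (Tri.cyc2 hf)
        rwa [← d4_cyc, ← Dg_cyc] at this
      · exact hs x a b c d k hf
    nlinarith
  have h2 := (isCompact_sphere (0 : E4) 1).eventually_forall_of_forall_eventually
    (x₀ := (τ, u)) (P := fun q x => Un q.2 → (∀ x a b c d, QuadAt τ u x a b c d → T.F a b c →
        0 ≤ d4 (u a) (u b) (u c) (u d) * Dg (gm q.1 q.2) a b c d) →
      ∀ a b, SideAt q.1 q.2 x a b → ∃ c, T.F a b c ∧ Act q.1 q.2 x c) fun x hx1 => by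
    by_cases hx : Pt τ u x
    swap
    · obtain ⟨i, hi⟩ : ∃ i, inner ℝ (u i) x < τ := by
        by_contra k
        exact hx ⟨by simpa using hx1, fun i => not_lt.1 fun h => k ⟨i, h⟩⟩
      have : ∀ᶠ z : (ℝ × (ι → E4)) × E4 in 𝓝 ((τ, u), x), inner ℝ (z.1.2 i) z.2 < z.1.1 :=
        ContinuousAt.eventually_lt (Continuous.continuousAt (by fun_prop))
          (Continuous.continuousAt (by fun_prop)) hi
      filter_upwards [this] with z hz _ _ a b hs
      exact absurd (hs.1.2 i) (not_le.2 hz)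
    filter_upwards [nr_eventually hτ hx] with z r hu hs a b ⟨hx', ab, a1, b1, ⟨c, ca, cb, c1⟩, hpos⟩
    have ha := r.act' a1
    have hb := r.act' b1
    have hc := r.act' c1
    have hneg : ∀ e, e ≠ a → e ≠ b → Act z.1.1 z.1.2 z.2 e → ¬ 0 < d4 (u a) (u e) (u b) x := by
      intro e ea eb e1 k
      have k1 := r.pos _ _ _ k
      have k2 := hpos e ea eb e1
      rw [d4_swap23] at k1
      linarith
    have hp : 0 < d4 (u a) (u b) (u c) x := by
      have k1 := hneg c ca cb c1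
      rw [d4_swap23] at k1
      exact lt_of_le_of_ne (by linarith) (hR.loc.three x a b c hx ab cb.symm ca.symm ha hb hc).symm
    by_cases h4 : ∃ d, d ≠ a ∧ d ≠ b ∧ d ≠ c ∧ Act τ u x d
    · obtain ⟨d, da, db, dc, hd⟩ := h4
      obtain ⟨h0, hq⟩ := hR.loc.four x a b c d hx ha hb hc hd hp da db dc
      obtain ⟨κ, p1, e1⟩ := r.sgn a b c d hd hp h0 hu hx'.1 a1 b1 c1
      have hact : 0 ≤ d4 (u a) (u b) (u d) (u c) * Dg (gm z.1.1 z.1.2) a b d c →
          Act z.1.1 z.1.2 z.2 d := by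
        intro k
        rw [d4_swap34, Dg_swap] at k
        exact le_antisymm (by nlinarith) (hx'.2 d)
      rcases hq with k | k | k
      · rcases hty x _ _ _ _ k with ⟨-, f, -⟩ | ⟨f, -, -⟩
        · exact ⟨c, f, c1⟩
        · refine absurd k.2.2.2.2.2.1 (hneg d da db (hact ?_))
          have := hs x d b c a k.rot f
          rw [d4_rot, ← d4_swap23] at this
          convert this using 2
          simp only [Dg, gm_symm z.1.1 z.1.2 d a, gm_symm z.1.1 z.1.2 d b, gm_symm z.1.1 z.1.2 b a,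
            gm_symm z.1.1 z.1.2 c a]
          ring
      · rcases hty x _ _ _ _ k with ⟨f, -, -⟩ | ⟨-, f, -⟩
        · exact ⟨d, f, hact (hs x a b d c k f)⟩
        · exact ⟨c, Tri.cyc2 f, c1⟩
      · rcases hty x _ _ _ _ k with ⟨f, -, -⟩ | ⟨f, f', -⟩
        · exact ⟨c, f, c1⟩
        · refine ⟨d, Tri.cyc2 f', hact ?_⟩
          have := hs x b c d a k.rot f
          rw [d4_rot, ← d4_swap34] at this
          convert this using 2
          simp only [Dg, gm_symm z.1.1 z.1.2 d a, gm_symm z.1.1 z.1.2 d c, gm_symm z.1.1 z.1.2 b a,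
            gm_symm z.1.1 z.1.2 c a]
          ring
    · obtain ⟨e, f, he⟩ := hR.good.side x a b ⟨hx, ab, ha, hb, ⟨c, ca, cb, hc⟩,
        fun e ea eb he => by
          have : e = c := by grind
          exact this ▸ hp⟩
      have ea := (Tri.ne13 f).symm
      have eb := (Tri.ne23 f).symm
      have : e = c := by grind
      exact ⟨c, this ▸ f, c1⟩
  filter_upwards [h1, h2] with q k1 k2 hu hs
  exact ⟨hu, fun a b c f => k1 a b c f hu hs,
    fun x a b k => k2 x (by simpa using k.1.1) hu hs a b k⟩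

end Pool.Agent.Lib.MP_34b931_co.G
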