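import Pool.Agent.Lib.MP_34b931_co.H22Tri

/-! The Pogorelov map: Euclidean rigidity from spherical rigidity. -/

namespace Pool.Agent.Lib.MP_34b931_co.G

open Filter Topology

namespace Pog

variable {ι : Type}

noncomputable def em (c : E3) (t : ℝ) : E4 := !₂[c 0, c 1, c 2, t]

noncomputable def NN : E4 := em 0 1

noncomputable def pr (z : E4) : E3 := !₂[z 0, z 1, z 2]

@[fun_prop] theorem continuousAt_em {X : Type*} [TopologicalSpace X] {c : X → E3} {t : X → ℝ}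
    {x : X} (hc : ContinuousAt c x) (ht : ContinuousAt t x) :
    ContinuousAt (fun y => em (c y) (t y)) x := by
  refine (PiLp.continuous_toLp 2 _).continuousAt.comp (continuousAt_pi.2 fun i => ?_)
  fin_cases i <;> simp <;> fun_prop

theorem norm_em (z : E4) (h : z 3 = 0) (c : E3) : ‖z - em c 0‖ = dist (pr z) c := by
  rw [dist_eq_norm, ← sq_eq_sq₀ (norm_nonneg _) (norm_nonneg _), norm3, norm4]
  simp [em, pr, h]

theorem d4_em (z : E4) (a b c : E3) :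
    d4 (em a 0 - z) (em b 0 - z) (em c 0 - z) (NN + (0 : ℝ) • z) =
      d3 (a - pr z) (b - pr z) (c - pr z) := by
  simp [em, pr, NN, d4, d3, m3]

/-- The sphere of curvature `s` through the origin. -/
def On (s : ℝ) (z : E4) : Prop := 2 * z 3 + s * ‖z‖ ^ 2 = 0

def Simple (T : Tri ι) (s : ℝ) (q : ι → E4) (z : E4) (a b c : ι) : Prop :=
  On s z → (∀ i, ‖z - q i‖ ≤ 1) → a ≠ b → b ≠ c → a ≠ c → ‖z - q a‖ = 1 → ‖z - q b‖ = 1 →
    ‖z - q c‖ = 1 → (∀ d, ‖z - q d‖ = 1 → d = a ∨ d = b ∨ d = c) ∧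
      ((T.F a b c ∧ 0 < d4 (q a - z) (q b - z) (q c - z) (NN + s • z)) ∨
        (T.F a c b ∧ d4 (q a - z) (q b - z) (q c - z) (NN + s • z) < 0))

def Vtx (s : ℝ) (q : ι → E4) (a b c : ι) : Prop :=
  ∃ z, On s z ∧ (∀ i, ‖z - q i‖ ≤ 1) ∧ ‖z - q a‖ = 1 ∧ ‖z - q b‖ = 1 ∧ ‖z - q c‖ = 1

theorem norm_up (s : ℝ) (z : E4) : ‖NN + s • z‖ ^ 2 = 1 + s * (2 * z 3 + s * ‖z‖ ^ 2) := by
  simp [norm4, NN, em]; ring

theorem On.unit {s : ℝ} {z : E4} (h : On s z) : ‖NN + s • z‖ = 1 := by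
  rw [← sq_eq_sq₀ (norm_nonneg _) zero_le_one, norm_up, h]; ring

theorem On.inner {s : ℝ} {z q : E4} (h : On s z) (hq : On s q) :
    inner ℝ (NN + s • q) (NN + s • z) = 1 - s ^ 2 * ‖z - q‖ ^ 2 / 2 := by
  simp only [On, norm4] at h hq
  simp [norm4, inner4, NN, em]
  linear_combination s / 2 * h + s / 2 * hq

theorem sgood {T : Tri ι} {s : ℝ} {q : ι → E4} (hs : 0 < s) (hq : ∀ i, On s (q i))
    (hv : ∀ a b c, T.F a b c → Vtx s q a b c) (h : ∀ z a b c, Simple T s q z a b c) :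
    SGood (1 - s ^ 2 / 2) (fun i => NN + s • q i) T := by
  have s2 : 0 < s ^ 2 := by positivity
  have le : ∀ {z}, On s z → ∀ i,
      (1 - s ^ 2 / 2 ≤ inner ℝ (NN + s • q i) (NN + s • z) ↔ ‖z - q i‖ ≤ 1) := fun hz i => by
    rw [hz.inner (hq i), ← sq_le_sq₀ (norm_nonneg _) zero_le_one]
    constructor <;> intro h <;> nlinarith
  have eq : ∀ {z}, On s z → ∀ i, (Act (1 - s ^ 2 / 2) (fun i => NN + s • q i) (NN + s • z) i ↔
      ‖z - q i‖ = 1) := fun hz i => by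
    simp only [Act]
    rw [hz.inner (hq i), ← sq_eq_sq₀ (norm_nonneg _) zero_le_one]
    constructor <;> intro h
    · exact mul_left_cancel₀ s2.ne' (by linarith)
    · rw [h]; ring
  refine ⟨fun i => (hq i).unit, fun a b c hF => ?_, fun x a b c hx ab bc ac ha hb hc => ?_⟩
  · obtain ⟨z, hz, h1, ha, hb, hc⟩ := hv a b c hF
    exact ⟨NN + s • z, ⟨hz.unit, fun i => (le hz i).2 (h1 i)⟩, (eq hz a).2 ha, (eq hz b).2 hb,
      (eq hz c).2 hc⟩
  · obtain ⟨z, rfl⟩ : ∃ z, x = NN + s • z :=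
      ⟨s⁻¹ • (x - NN), by rw [smul_inv_smul₀ hs.ne']; abel⟩
    have hz : On s z := by
      have := norm_up s z
      rw [hx.1] at this
      exact mul_left_cancel₀ hs.ne' (by linarith)
    obtain ⟨h1, h2⟩ := h z a b c hz (fun i => (le hz i).1 (hx.2 i)) ab bc ac ((eq hz a).1 ha)
      ((eq hz b).1 hb) ((eq hz c).1 hc)
    have e : d4 (NN + s • q a) (NN + s • q b) (NN + s • q c) (NN + s • z) =
        s ^ 3 * d4 (q a - z) (q b - z) (q c - z) (NN + s • z) := by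
      simp [d4, m3, NN, em]; ring
    refine ⟨fun d hd => h1 d ((eq hz d).1 hd), ?_⟩
    rw [e]
    exact h2.imp (fun h => ⟨h.1, mul_pos (by positivity) h.2⟩)
      fun h => ⟨h.1, mul_neg_of_pos_of_neg (by positivity) h.2⟩

theorem ev_simple [Fintype ι] {c : ι → E3} {T : Tri ι} (h : EGood c T) :
    ∀ᶠ p : ℝ × (ι → E4) in 𝓝 (0, fun i => em (c i) 0), ∀ z a b d, Simple T p.1 p.2 z a b d := by
  obtain ⟨i0⟩ := T.nonempty
  have key : ∀ᶠ p : ℝ × (ι → E4) in 𝓝 (0, fun i => em (c i) 0),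
      ∀ z ∈ Metric.closedBall (em (c i0) 0) 2, ∀ a b d, Simple T p.1 p.2 z a b d := by
    refine (isCompact_closedBall _ _).eventually_forall_of_forall_eventually fun z0 _ => ?_
    simp only [eventually_all]
    intro a b d
    have cn : ∀ i, ContinuousAt (fun y : (ℝ × (ι → E4)) × E4 => ‖y.2 - y.1.2 i‖)
        ((0, fun i => em (c i) 0), z0) := fun i => by fun_prop
    by_cases h0 : z0 3 = 0
    swap
    · have : ContinuousAt (fun y : (ℝ × (ι → E4)) × E4 => 2 * y.2 3 + y.1.1 * ‖y.2‖ ^ 2)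
          ((0, fun i => em (c i) 0), z0) := by fun_prop
      filter_upwards [this.eventually_ne (y := 0) (by simpa using h0)] with y hy h1
      exact absurd h1 hy
    by_cases h1 : ∀ i, ‖z0 - em (c i) 0‖ ≤ 1
    swap
    · obtain ⟨i, hi⟩ := not_forall.1 h1
      filter_upwards [continuousAt_const.eventually_lt (cn i) (not_le.1 hi)] with y hy _ h2
      exact absurd (h2 i) (not_le.2 hy)
    by_cases ha : ‖z0 - em (c a) 0‖ = 1
    swap
    · filter_upwards [(cn a).eventually_ne ha] with y hy _ _ _ _ _ h2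
      exact absurd h2 hy
    by_cases hb : ‖z0 - em (c b) 0‖ = 1
    swap
    · filter_upwards [(cn b).eventually_ne hb] with y hy _ _ _ _ _ _ h2
      exact absurd h2 hy
    by_cases hd : ‖z0 - em (c d) 0‖ = 1
    swap
    · filter_upwards [(cn d).eventually_ne hd] with y hy _ _ _ _ _ _ _ h2
      exact absurd h2 hy
    by_cases hn : a ≠ b ∧ b ≠ d ∧ a ≠ d
    swap
    · exact .of_forall fun y _ _ ab bd ad => absurd ⟨ab, bd, ad⟩ hn
    simp only [norm_em z0 h0] at h1 ha hb hd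
    obtain ⟨h2, h3⟩ := h.simple (pr z0) a b d h1 hn.1 hn.2.1 hn.2.2 ha hb hd
    have h4 : ∀ᶠ y : (ℝ × (ι → E4)) × E4 in 𝓝 ((0, fun i => em (c i) 0), z0),
        ∀ l, ‖y.2 - y.1.2 l‖ = 1 → l = a ∨ l = b ∨ l = d := by
      rw [eventually_all]
      intro l
      by_cases hl : ‖z0 - em (c l) 0‖ = 1
      · exact .of_forall fun _ _ => h2 l (by rwa [norm_em z0 h0] at hl)
      · filter_upwards [(cn l).eventually_ne hl] with y hy h5
        exact absurd h5 hy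
    have cd : ContinuousAt (fun y : (ℝ × (ι → E4)) × E4 =>
        d4 (y.1.2 a - y.2) (y.1.2 b - y.2) (y.1.2 d - y.2) (NN + y.1.1 • y.2))
        ((0, fun i => em (c i) 0), z0) := Continuous.continuousAt (by fun_prop)
    rw [← d4_em] at h3
    rcases h3 with ⟨hF, h3⟩ | ⟨hF, h3⟩
    · filter_upwards [h4, continuousAt_const.eventually_lt cd h3] with y h5 h6 _ _ _ _ _ _ _ _
      exact ⟨h5, Or.inl ⟨hF, h6⟩⟩
    · filter_upwards [h4, cd.eventually_lt continuousAt_const h3] with y h5 h6 _ _ _ _ _ _ _ _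
      exact ⟨h5, Or.inr ⟨hF, h6⟩⟩
  have cn : ContinuousAt (fun p : ℝ × (ι → E4) => ‖p.2 i0 - em (c i0) 0‖)
      (0, fun i => em (c i) 0) := by fun_prop
  filter_upwards [key, cn.eventually_lt (continuousAt_const (y := (1 : ℝ))) (by simp)]
    with p hp h1 z a b d h2 h3
  refine hp z ?_ a b d h2 h3
  rw [mem_closedBall_iff_norm]
  linarith [norm_sub_le_norm_sub_add_norm_sub z (p.2 i0) (em (c i0) 0), h3 i0]

/-- The solution of a linear system. -/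
noncomputable def sol (a b c d : E4) (r s t w : ℝ) : E4 :=
  (d4 a b c d)⁻¹ • (-(r • cr b c d) + s • cr a c d - t • cr a b d + w • cr a b c)

theorem sol_inner {a b c d : E4} (h : d4 a b c d ≠ 0) (r s t w : ℝ) :
    inner ℝ (sol a b c d r s t w) a = r ∧ inner ℝ (sol a b c d r s t w) b = s ∧
      inner ℝ (sol a b c d r s t w) c = t ∧ inner ℝ (sol a b c d r s t w) d = w := by
  refine ⟨?_, ?_, ?_, ?_⟩ <;>
  simp only [sol, real_inner_smul_left, inner_add_left, inner_sub_left, inner_neg_left, inner_cr] <;>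
  field_simp <;> simp only [d4, m3] <;> ring

theorem ev_vtx [Fintype ι] {c : ι → E3} {T : Tri ι} (h : EGood c T) {a b d : ι}
    (hF : T.F a b d) : ∀ᶠ p : ℝ × (ι → E4) in 𝓝 (0, fun i => em (c i) 0), Vtx p.1 p.2 a b d := by
  obtain ⟨x, hx, ha, hb, hd⟩ := h.vtx a b d hF
  obtain ⟨h2, h3⟩ := h.simple x a b d hx (T.ne hF) (Tri.ne23 hF) (Tri.ne13 hF) ha hb hd
  set z0 := em x 0 with hz0
  have h0 : z0 3 = 0 := by simp [hz0, em]
  have hp : pr z0 = x := by apply ext3 <;> simp [hz0, em, pr]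
  have hn : ∀ i, ‖z0 - em (c i) 0‖ = dist x (c i) := fun i => by rw [norm_em z0 h0, hp]
  have h4 : d4 (em (c a) 0 - z0) (em (c b) 0 - z0) (em (c d) 0 - z0) (NN + (0 : ℝ) • z0) ≠ 0 := by
    rw [d4_em, hp]
    rcases h3 with h3 | h3
    exacts [h3.2.ne', h3.2.ne]
  have h5 : ∀ᶠ y : (ℝ × (ι → E4)) × E4 in 𝓝 ((0, fun i => em (c i) 0), z0),
      ∀ l, l = a ∨ l = b ∨ l = d ∨ ‖y.2 - y.1.2 l‖ < 1 := by
    rw [eventually_all]
    intro l
    by_cases hl : dist x (c l) = 1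
    · exact .of_forall fun _ => by have := h2 l hl; grind
    · have cn : ContinuousAt (fun y : (ℝ × (ι → E4)) × E4 => ‖y.2 - y.1.2 l‖)
          ((0, fun i => em (c i) 0), z0) := by fun_prop
      filter_upwards [cn.eventually_lt continuousAt_const
        (show ‖z0 - em (c l) 0‖ < 1 by rw [hn]; exact lt_of_le_of_ne (hx l) hl)] with y hy
      exact Or.inr (Or.inr (Or.inr hy))
  rw [nhds_prod_eq, eventually_prod_iff] at h5
  obtain ⟨pa, hpa, pb, hpb, h5⟩ := h5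
  obtain ⟨ε, hε, hb5⟩ := Metric.eventually_nhds_iff.1 hpb
  let W : (ℝ × (ι → E4)) → ℝ → E4 := fun p t =>
    sol (p.2 a - z0) (p.2 b - z0) (p.2 d - z0) (NN + p.1 • z0) ((t + ‖p.2 a - z0‖ ^ 2 - 1) / 2)
      ((t + ‖p.2 b - z0‖ ^ 2 - 1) / 2) ((t + ‖p.2 d - z0‖ ^ 2 - 1) / 2)
      (-(p.1 * (t + ‖z0‖ ^ 2)) / 2)
  have cd : Continuous fun p : ℝ × (ι → E4) =>
      d4 (p.2 a - z0) (p.2 b - z0) (p.2 d - z0) (NN + p.1 • z0) := by fun_prop
  have cW : ∀ t, ContinuousAt (fun p => W p t) (0, fun i => em (c i) 0) := fun t =>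
    (cd.continuousAt.inv₀ h4).smul (Continuous.continuousAt (by fun_prop))
  have cT : ∀ p, Continuous (W p) := fun p => by simp only [W, sol]; fun_prop
  obtain ⟨w1, hw1⟩ : ∃ w1 : E4, ∀ t, W (0, fun i => em (c i) 0) t = t • w1 := by
    refine ⟨W (0, fun i => em (c i) 0) 1, fun t => ?_⟩
    simp only [W, sol, norm_sub_rev _ z0, hn, ha, hb, hd]
    module
  set δ := min (ε ^ 2 / 2) (1 / (‖w1‖ ^ 2 + 1)) with hδ
  have hδ0 : 0 < δ := lt_min (by positivity) (by positivity)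
  have hδ1 : ‖W (0, fun i => em (c i) 0) δ‖ ^ 2 < δ := by
    have : δ * (‖w1‖ ^ 2 + 1) ≤ 1 := (le_div_iff₀ (by positivity)).1 (min_le_right _ _)
    rw [hw1, norm_smul, mul_pow, Real.norm_eq_abs, sq_abs]
    nlinarith
  filter_upwards [hpa, cd.continuousAt.eventually_ne h4,
    ((cW δ).norm.pow 2).eventually_lt continuousAt_const hδ1] with p p1 p2 p3
  obtain ⟨t, ht, e⟩ : ∃ t ∈ Set.Icc 0 δ, t - ‖W p t‖ ^ 2 = 0 :=
    intermediate_value_Icc hδ0.le (f := fun t => t - ‖W p t‖ ^ 2)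
      (Continuous.continuousOn (by have := cT p; fun_prop))
      ⟨by simp, sub_nonneg.2 p3.le⟩
  obtain ⟨e1, e2, e3, e4⟩ : inner ℝ (W p t) (p.2 a - z0) = _ ∧ inner ℝ (W p t) (p.2 b - z0) = _ ∧
    inner ℝ (W p t) (p.2 d - z0) = _ ∧ inner ℝ (W p t) (NN + p.1 • z0) = _ := sol_inner p2 _ _ _ _
  generalize W p t = w at e e1 e2 e3 e4
  have act : ∀ v : E4, inner ℝ w (v - z0) = (t + ‖v - z0‖ ^ 2 - 1) / 2 → ‖z0 + w - v‖ = 1 := by
    intro v hv
    rw [← sq_eq_sq₀ (norm_nonneg _) zero_le_one, show z0 + w - v = w - (v - z0) by abel,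
      norm_sub_sq_real, hv]
    linarith
  refine ⟨z0 + w, ?_, fun i => ?_, act _ e1, act _ e2, act _ e3⟩
  · rw [On, norm_add_sq_real, real_inner_comm]
    rw [inner_add_right, real_inner_smul_right] at e4
    have : inner ℝ w NN = w 3 := by simp [inner4, NN, em]
    simp only [PiLp.add_apply, h0]
    linear_combination 2 * e4 - 2 * this - p.1 * e
  · have hd : dist (z0 + w) z0 < ε := by
      rw [dist_eq_norm, add_sub_cancel_left, ← sq_lt_sq₀ (norm_nonneg _) hε.le]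
      have := ht.2.trans (min_le_left _ _)
      nlinarith
    rcases h5 p1 (hb5 hd) i with rfl | rfl | rfl | h6
    exacts [(act _ e1).le, (act _ e2).le, (act _ e3).le, h6.le]

/-- The lifted centre. -/
noncomputable def XX (s : ℝ) (c : E3) (D : ℝ) : E4 := em (s • c) (1 - s ^ 2 * D / 4)

theorem ev_sgood [Fintype ι] {c : ι → E3} {T : Tri ι} (h : EGood c T) (D : ι → ℝ) :
    ∀ᶠ s in 𝓝[>] (0 : ℝ), (∀ i, 0 < ‖XX s (c i) (D i)‖) ∧
      SGood (1 - s ^ 2 / 2) (fun i => ‖XX s (c i) (D i)‖⁻¹ • XX s (c i) (D i)) T := by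
  let q : ℝ → ι → E4 := fun s i => em (‖XX s (c i) (D i)‖⁻¹ • c i) (-(s * ‖c i‖ ^ 2) *
    (‖XX s (c i) (D i)‖⁻¹ * ((1 - s ^ 2 * D i / 4) + ‖XX s (c i) (D i)‖)⁻¹))
  have n0 : ∀ i, ‖XX 0 (c i) (D i)‖ = 1 := fun i => by
    rw [← sq_eq_sq₀ (norm_nonneg _) zero_le_one, norm4]; simp [XX, em]
  have cn : ∀ i, ContinuousAt (fun s => ‖XX s (c i) (D i)‖) 0 := fun i => by
    unfold XX; fun_prop
  have ci : ∀ i, ContinuousAt (fun s => ‖XX s (c i) (D i)‖⁻¹) 0 := fun i =>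
    (cn i).inv₀ (by rw [n0]; norm_num)
  have cq : ContinuousAt (fun s => (s, q s)) 0 := by
    refine continuousAt_id.prodMk (continuousAt_pi.2 fun i => ?_)
    refine continuousAt_em ((ci i).smul continuousAt_const) (ContinuousAt.mul (by fun_prop)
      ((ci i).mul (ContinuousAt.inv₀ (ContinuousAt.add (by fun_prop) (cn i)) ?_)))
    rw [n0]; norm_num
  have q0 : q 0 = fun i => em (c i) 0 := by ext1 i; simp [q, n0]
  have ct : Tendsto (fun s => (s, q s)) (𝓝 0) (𝓝 (0, fun i => em (c i) 0)) := by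
    rw [← q0]; exact cq
  have h1 : ∀ᶠ p : ℝ × (ι → E4) in 𝓝 (0, fun i => em (c i) 0),
      ∀ a b d, T.F a b d → Vtx p.1 p.2 a b d := by
    simp only [eventually_all]
    exact fun a b d hF => ev_vtx h hF
  have h2 : ∀ᶠ s in 𝓝 (0 : ℝ), ∀ i, 0 < 1 - s ^ 2 * D i / 4 :=
    eventually_all.2 fun i => continuousAt_const.eventually_lt (by fun_prop) (by simp)
  have h3 : ∀ᶠ s in 𝓝 (0 : ℝ), ∀ i, 0 < ‖XX s (c i) (D i)‖ :=
    eventually_all.2 fun i => continuousAt_const.eventually_lt (cn i) (by rw [n0]; norm_num)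
  filter_upwards [self_mem_nhdsWithin, nhdsWithin_le_nhds (ct.eventually h1),
    nhdsWithin_le_nhds (ct.eventually (ev_simple h)), nhdsWithin_le_nhds h2,
    nhdsWithin_le_nhds h3] with s hs p1 p2 p3 p4
  have e : ∀ i, ‖XX s (c i) (D i)‖⁻¹ • XX s (c i) (D i) = NN + s • q s i := fun i => by
    have h4 : ‖XX s (c i) (D i)‖ ^ 2 = s ^ 2 * ‖c i‖ ^ 2 + (1 - s ^ 2 * D i / 4) ^ 2 := by
      simp [norm4, norm3, XX, em]; ring
    have h5 := p4 i
    have h6 := p3 i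
    simp only [q]
    generalize ‖XX s (c i) (D i)‖ = n at h4 h5
    apply ext4
    · simp [XX, em, NN]; ring
    · simp [XX, em, NN]; ring
    · simp [XX, em, NN]; ring
    · simp only [XX, em, NN, PiLp.smul_apply, PiLp.add_apply, Matrix.cons_val, smul_eq_mul]
      generalize 1 - s ^ 2 * D i / 4 = v at h4 h6
      field_simp
      linear_combination -h4
  refine ⟨p4, ?_⟩
  simp only [e]
  refine sgood hs (fun i => ?_) p1 p2
  have h4 := norm_up s (q s i)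
  rw [← e, norm_smul, norm_inv, norm_norm, inv_mul_cancel₀ (p4 i).ne'] at h4
  exact mul_left_cancel₀ (ne_of_gt hs) (by linarith)

end Pog

open Pog in
theorem stE (hS : StS) : StE := by
  intro ι _ c c' T h h' hd a b
  obtain ⟨s, ⟨p1, g⟩, ⟨-, g'⟩, hs⟩ := ((ev_sgood h fun i => ‖c i‖ ^ 2 - ‖c' i‖ ^ 2).and
    ((ev_sgood h' fun i => -(‖c i‖ ^ 2 - ‖c' i‖ ^ 2)).and (Ioo_mem_nhdsGT one_pos))).exists
  have en : ∀ i, ‖XX s (c' i) (-(‖c i‖ ^ 2 - ‖c' i‖ ^ 2))‖ =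
      ‖XX s (c i) (‖c i‖ ^ 2 - ‖c' i‖ ^ 2)‖ := fun i => by
    rw [← sq_eq_sq₀ (norm_nonneg _) (norm_nonneg _)]
    simp [norm4, norm3, XX, Pog.em]; ring
  have key : ∀ i j, inner ℝ (‖XX s (c i) (‖c i‖ ^ 2 - ‖c' i‖ ^ 2)‖⁻¹ •
      XX s (c i) (‖c i‖ ^ 2 - ‖c' i‖ ^ 2)) (‖XX s (c j) (‖c j‖ ^ 2 - ‖c' j‖ ^ 2)‖⁻¹ •
      XX s (c j) (‖c j‖ ^ 2 - ‖c' j‖ ^ 2)) =
      inner ℝ (‖XX s (c' i) (-(‖c i‖ ^ 2 - ‖c' i‖ ^ 2))‖⁻¹ •
      XX s (c' i) (-(‖c i‖ ^ 2 - ‖c' i‖ ^ 2))) (‖XX s (c' j) (-(‖c j‖ ^ 2 - ‖c' j‖ ^ 2))‖⁻¹ •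
      XX s (c' j) (-(‖c j‖ ^ 2 - ‖c' j‖ ^ 2))) ↔ dist (c i) (c j) = dist (c' i) (c' j) := by
    intro i j
    have e : inner ℝ (XX s (c i) (‖c i‖ ^ 2 - ‖c' i‖ ^ 2)) (XX s (c j) (‖c j‖ ^ 2 - ‖c' j‖ ^ 2)) -
        inner ℝ (XX s (c' i) (-(‖c i‖ ^ 2 - ‖c' i‖ ^ 2)))
          (XX s (c' j) (-(‖c j‖ ^ 2 - ‖c' j‖ ^ 2))) =
        s ^ 2 / 2 * (dist (c' i) (c' j) ^ 2 - dist (c i) (c j) ^ 2) := by
      simp [dist_eq_norm, norm3, inner4, XX, Pog.em]; ring
    have s2 : s ^ 2 / 2 ≠ 0 := by have := hs.1; positivity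
    simp only [en, real_inner_smul_left, real_inner_smul_right]
    rw [mul_right_inj' (inv_ne_zero (p1 j).ne'), mul_right_inj' (inv_ne_zero (p1 i).ne'),
      ← sub_eq_zero, e, mul_eq_zero_iff_left s2, sub_eq_zero, sq_eq_sq₀ dist_nonneg dist_nonneg,
      eq_comm]
  exact (key a b).1 (hS ι _ _ _ T (by nlinarith [hs.1, hs.2]) (by nlinarith [hs.1, hs.2]) g g'
    (fun i j hij => (key i j).2 (hd i j hij)) a b)

end Pool.Agent.Lib.MP_34b931_co.G
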