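import Pool.Agent.Lib.MP_34b931_co.H22Tri

/-! Perturbation to general position, and the sign lemma for flat quadrilaterals. -/

namespace Pool.Agent.Lib.MP_34b931_co.G

open Filter Topology

namespace Psd

variable {ι : Type}

theorem exists_gp [Fintype ι] : ∃ q : ι → E4, GP q := by
  let s : ι → ℝ := fun i => ((Fintype.equivFin ι i : ℕ) : ℝ)
  have hs : ∀ i j, i ≠ j → s i - s j ≠ 0 := fun i j h e => h <| (Fintype.equivFin ι).injective <|
    Fin.ext (Nat.cast_injective (R := ℝ) (sub_eq_zero.1 e))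
  refine ⟨fun i => !₂[1, s i, s i ^ 2, s i ^ 3], fun a b c d ab ac ad bc bd cd => ?_⟩
  have : d4 !₂[1, s a, s a ^ 2, s a ^ 3] !₂[1, s b, s b ^ 2, s b ^ 3] !₂[1, s c, s c ^ 2, s c ^ 3]
      !₂[1, s d, s d ^ 2, s d ^ 3] = (s a - s b) * (s a - s c) * (s a - s d) * (s b - s c) *
      (s b - s d) * (s c - s d) := by
    simp [d4, m3]; ring
  rw [this]
  have := hs a b ab
  have := hs a c ac
  have := hs a d ad
  have := hs b c bc
  have := hs b d bd
  have := hs c d cd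
  positivity

theorem line_ne (a b c d a' b' c' d' : E4) (h : d4 a' b' c' d' ≠ 0) :
    ∀ᶠ t : ℝ in 𝓝[≠] 0, d4 (a + t • (a' - a)) (b + t • (b' - b)) (c + t • (c' - c))
      (d + t • (d' - d)) ≠ 0 := by
  set f : ℝ → ℝ := fun t => d4 (a + t • (a' - a)) (b + t • (b' - b)) (c + t • (c' - c))
      (d + t • (d' - d)) with hf
  have an : ∀ t, AnalyticAt ℝ f t := fun t => by
    simp only [hf, d4, m3, PiLp.add_apply, PiLp.smul_apply, smul_eq_mul]
    fun_prop
  rcases (an 0).eventually_eq_zero_or_eventually_ne_zero with k | k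
  · have : Set.EqOn f 0 Set.univ :=
      AnalyticOnNhd.eqOn_zero_of_preconnected_of_eventuallyEq_zero (fun t _ => an t)
        isPreconnected_univ (Set.mem_univ 0) k
    have h1 := this (Set.mem_univ 1)
    simp [hf] at h1
    exact absurd h1 h
  · exact k

theorem gp_freq [Fintype ι] (p : ι → E4) : ∃ᶠ p' in 𝓝 p, GP p' := by
  obtain ⟨q, hq⟩ := exists_gp (ι := ι)
  have h1 : ∀ᶠ t : ℝ in 𝓝[≠] 0, GP fun i => p i + t • (q i - p i) := by
    simp only [GP, eventually_all]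
    intro a b c d ab ac ad bc bd cd
    exact line_ne _ _ _ _ _ _ _ _ (hq a b c d ab ac ad bc bd cd)
  have h2 : Tendsto (fun t : ℝ => fun i => p i + t • (q i - p i)) (𝓝[≠] 0) (𝓝 p) := by
    refine Tendsto.mono_left ?_ nhdsWithin_le_nhds
    have : Continuous (fun t : ℝ => fun i => p i + t • (q i - p i)) := by fun_prop
    simpa using this.tendsto 0
  exact h2.frequently h1.frequently

theorem good_freq [Fintype ι] (hD : StDense) (p : ι → E4) (o : E4) (w : ι → ℝ) :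
    ∃ᶠ x : (ι → E4) × E4 × (ι → ℝ) in 𝓝 (p, o, w),
      GP x.1 ∧ GenO x.1 x.2.1 ∧ Gen x.1 x.2.2 := by
  rw [frequently_iff]
  intro U hU
  obtain ⟨A, hA, B, hB, hAB⟩ := mem_nhds_prod_iff.1 hU
  obtain ⟨C, hC, D, hD', hCD⟩ := mem_nhds_prod_iff.1 hB
  obtain ⟨p', hp, gp⟩ := frequently_iff.1 (gp_freq p) hA
  obtain ⟨d1, d2, -⟩ := hD ι p'
  obtain ⟨o', ho, go⟩ := d2.inter_nhds_nonempty hC
  obtain ⟨w', hw, gw⟩ := d1.inter_nhds_nonempty hD'
  exact ⟨(p', o', w'), hAB ⟨hp, hCD ⟨go, gw⟩⟩, gp, ho, hw⟩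

theorem ext_ev [Fintype ι] {p : ι → E4} (h : Ext p) : ∀ᶠ p' in 𝓝 p, Ext p' := by
  simp only [Ext, eventually_all]
  intro a
  obtain ⟨z, z0, z1⟩ := h a
  have : ∀ᶠ p' in 𝓝 p, ∀ j, j ≠ a →
      0 < inner ℝ (z - (inner ℝ z (p' a) / inner ℝ (p' a) (p' a)) • p' a) (p' j) := by
    simp only [eventually_all]
    intro j hj
    obtain ⟨z', -, z2⟩ := h j
    have pa : p a ≠ 0 := fun e => by simpa [e] using z2 a hj.symm
    have c : ContinuousAt (fun p' : ι → E4 =>
        inner ℝ (z - (inner ℝ z (p' a) / inner ℝ (p' a) (p' a)) • p' a) (p' j)) p := by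
      have ca : Continuous fun p' : ι → E4 => p' a := continuous_apply a
      have cj : Continuous fun p' : ι → E4 => p' j := continuous_apply j
      have c1 : ContinuousAt (fun p' : ι → E4 => inner ℝ z (p' a) / inner ℝ (p' a) (p' a)) p :=
        ContinuousAt.div (f := fun p' : ι → E4 => inner ℝ z (p' a))
          (g := fun p' : ι → E4 => inner ℝ (p' a) (p' a))
          (continuous_const.inner ca).continuousAt (ca.inner ca).continuousAt (by simpa using pa)
      exact ContinuousAt.inner (continuousAt_const.sub (c1.smul ca.continuousAt)) cj.continuousAt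
    refine c.eventually (lt_mem_nhds ?_)
    simpa [z0] using z1 j hj
  filter_upwards [this] with p' hp
  refine ⟨_, ?_, hp⟩
  by_cases e : p' a = 0
  · simp [e]
  · have : inner ℝ (p' a) (p' a) ≠ (0 : ℝ) := by simpa using e
    rw [inner_sub_left, real_inner_smul_left, div_mul_cancel₀ _ this, sub_self]

theorem hull_closed [Fintype ι] (a b : ι) : IsClosed {p : ι → E4 | Hull p a b} := by
  have h1 : IsClosed {x : Metric.sphere (0 : E4) 1 × (ι → E4) |
      (∀ j, 0 ≤ inner ℝ (x.1 : E4) (x.2 j)) ∧ inner ℝ (x.1 : E4) (x.2 a) = 0 ∧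
        inner ℝ (x.1 : E4) (x.2 b) = 0} := by
    simp only [Set.setOf_and, Set.setOf_forall]
    refine (isClosed_iInter fun j => isClosed_le (by fun_prop) (by fun_prop)).inter
      ((isClosed_eq (by fun_prop) (by fun_prop)).inter (isClosed_eq (by fun_prop) (by fun_prop)))
  convert isClosedMap_snd_of_compactSpace _ h1 using 1
  ext p
  constructor
  · rintro ⟨l, l0, l1, l2, l3⟩
    have hl : ‖l‖ ≠ 0 := norm_ne_zero_iff.2 l0
    refine ⟨(⟨‖l‖⁻¹ • l, by simp [norm_smul, hl]⟩, p), ⟨fun j => ?_, ?_, ?_⟩, rfl⟩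
    · simp only [real_inner_smul_left]
      exact mul_nonneg (by positivity) (l1 j)
    · simp only [real_inner_smul_left, l2, mul_zero]
    · simp only [real_inner_smul_left, l3, mul_zero]
  · rintro ⟨⟨⟨l, hl⟩, p'⟩, ⟨l1, l2, l3⟩, rfl⟩
    refine ⟨l, fun e => ?_, l1, l2, l3⟩
    simp [e] at hl

theorem inner_cr_cr (x y z a b c : E4) : inner ℝ (cr x y z) (cr a b c) =
    inner ℝ x a * (inner ℝ y b * inner ℝ z c - inner ℝ y c * inner ℝ z b)
      - inner ℝ x b * (inner ℝ y a * inner ℝ z c - inner ℝ y c * inner ℝ z a)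
      + inner ℝ x c * (inner ℝ y a * inner ℝ z b - inner ℝ y b * inner ℝ z a) := by
  simp [inner4, cr, m3]; ring

theorem cr_ne {p : ι → E4} (h : Ext p) {a b c : ι} (ab : a ≠ b) (ac : a ≠ c) (bc : b ≠ c) :
    cr (p a) (p b) (p c) ≠ 0 := fun e => by
  obtain ⟨x, x0, x1⟩ := h a
  obtain ⟨y, y0, y1⟩ := h b
  obtain ⟨z, z0, z1⟩ := h c
  have k := inner_cr_cr x y z (p a) (p b) (p c)
  rw [e, inner_zero_right, x0, y0, z0] at k
  have := mul_pos (x1 b ab.symm) (mul_pos (y1 c bc.symm) (z1 a ac))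
  have := mul_pos (x1 c ac.symm) (mul_pos (y1 a ab) (z1 b bc))
  nlinarith

@[fun_prop] theorem continuous_lift {X : Type*} [TopologicalSpace X] {p : X → ι → E4}
    {w : X → ι → ℝ} (hp : Continuous p) (hw : Continuous w) (a b c d m : ι) :
    Continuous fun x => Lift (p x) (w x) a b c d m := by
  simp only [Lift]; fun_prop

theorem lift_mem (p : ι → E4) (w : ι → ℝ) {a b c d m : ι}
    (h : m = a ∨ m = b ∨ m = c ∨ m = d) : Lift p w a b c d m = 0 := by
  rcases h with rfl | rfl | rfl | rfl <;> simp only [Lift, d4, m3] <;> ring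

theorem lift_swap (p : ι → E4) (w : ι → ℝ) (a b c d m : ι) :
    Lift p w a b c m d = -Lift p w a b c d m := by
  simp only [Lift, d4, m3]; ring

/-- A flat tuple with a one-signed lift lies on the hull. -/
theorem flat_hull {p : ι → E4} {w : ι → ℝ} (he : Ext p) (hg : Gen p w) {a b c d : ι}
    (ab : a ≠ b) (ac : a ≠ c) (ad : a ≠ d) (bc : b ≠ c) (bd : b ≠ d) (cd : c ≠ d)
    (h0 : d4 (p a) (p b) (p c) (p d) = 0) {s : ℝ} (hs : s ≠ 0)
    (h : ∀ m, 0 ≤ s * Lift p w a b c d m) {u v : ι} (hu : u = a ∨ u = b ∨ u = c ∨ u = d)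
    (hv : v = a ∨ v = b ∨ v = c ∨ v = d) : Hull p u v := by
  by_cases k : ∃ m, d4 (p a) (p b) (p c) (p m) ≠ 0
  · obtain ⟨m, hm⟩ := k
    have md : d ≠ m := fun e => hm (e ▸ h0)
    have g := hg a b c m d hm ad.symm bd.symm cd.symm md
    let l : E4 := s • (-(w a • cr (p b) (p c) (p d)) + w b • cr (p a) (p c) (p d)
      - w c • cr (p a) (p b) (p d) + w d • cr (p a) (p b) (p c))
    have hl : ∀ j, inner ℝ l (p j) = s * Lift p w a b c d j := fun j => by
      simp only [l, real_inner_smul_left, inner_add_left, inner_sub_left, inner_neg_left, inner_cr,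
        Lift, h0]
      simp only [d4, m3]; ring
    refine ⟨l, fun e => ?_, fun j => hl j ▸ h j, ?_, ?_⟩
    · have := hl m
      rw [e, inner_zero_left] at this
      rw [lift_swap] at g
      exact mul_ne_zero hs (neg_ne_zero.1 g) this.symm
    · rw [hl, lift_mem p w hu, mul_zero]
    · rw [hl, lift_mem p w hv, mul_zero]
  · push Not at k
    exact ⟨cr (p a) (p b) (p c), cr_ne he ab ac bc, fun j => by rw [inner_cr, k], by
      rw [inner_cr, k], by rw [inner_cr, k]⟩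

theorem ne_of_d4 {p : ι → E4} {a b c d : ι} (h : d4 (p a) (p b) (p c) (p d) ≠ 0) :
    a ≠ b ∧ a ≠ c ∧ a ≠ d ∧ b ≠ c ∧ b ≠ d ∧ c ≠ d := by
  refine ⟨?_, ?_, ?_, ?_, ?_, ?_⟩ <;> rintro rfl <;> apply h
  exacts [d4_self12 .., d4_self13 .., d4_self14 .., d4_self23 .., d4_self24 .., d4_self34 ..]

theorem geno_ne {p : ι → E4} {o : E4} (ho : GenO p o) {a b c d : ι}
    (h : d4 (p a) (p b) (p c) (p d) ≠ 0) : d4 o (p b) (p c) (p d) ≠ 0 ∧
      d4 (p a) o (p c) (p d) ≠ 0 ∧ d4 (p a) (p b) o (p d) ≠ 0 ∧ d4 (p a) (p b) (p c) o ≠ 0 := by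
  have h1 := ho b c d ⟨p a, by rw [d4_rot]; exact neg_ne_zero.2 h⟩
  have h2 := ho a c d ⟨p b, by rw [d4_swap34, d4_swap23, neg_neg]; exact h⟩
  have h3 := ho a b d ⟨p c, by rw [d4_swap34]; exact neg_ne_zero.2 h⟩
  refine ⟨?_, ?_, ?_, ho a b c ⟨_, h⟩⟩
  · rw [d4_rot] at h1; exact neg_ne_zero.1 h1
  · rw [d4_swap34, d4_swap23, neg_neg] at h2; exact h2
  · rw [d4_swap34] at h3; exact neg_ne_zero.1 h3

abbrev X (ι : Type) := (ι → E4) × E4 × (ι → ℝ)

theorem cell_ev [Fintype ι] {p : ι → E4} {o : E4} {w : ι → ℝ} (hg : Gen p w) {a b c d : ι}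
    (h : d4 (p a) (p b) (p c) (p d) ≠ 0) :
    ∀ᶠ x : X ι in 𝓝 (p, o, w), (Cell x.1 x.2.2 a b c d ↔ Cell p w a b c d) := by
  have c1 : Continuous fun x : X ι => d4 (x.1 a) (x.1 b) (x.1 c) (x.1 d) := by fun_prop
  have e1 : ∀ᶠ x : X ι in 𝓝 (p, o, w), d4 (x.1 a) (x.1 b) (x.1 c) (x.1 d) ≠ 0 :=
    c1.continuousAt.eventually_ne h
  have e2 : ∀ᶠ x : X ι in 𝓝 (p, o, w), ∀ m, m ≠ a → m ≠ b → m ≠ c → m ≠ d →
      (0 < d4 (x.1 a) (x.1 b) (x.1 c) (x.1 d) * Lift x.1 x.2.2 a b c d m ↔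
        0 < d4 (p a) (p b) (p c) (p d) * Lift p w a b c d m) := by
    simp only [eventually_all]
    intro m ma mb mc md
    have c2 : Continuous fun x : X ι =>
      d4 (x.1 a) (x.1 b) (x.1 c) (x.1 d) * Lift x.1 x.2.2 a b c d m := by fun_prop
    rcases lt_or_gt_of_ne (mul_ne_zero h (hg a b c d m h ma mb mc md)) with k | k
    · filter_upwards [c2.continuousAt.eventually (gt_mem_nhds k)] with x hx
      exact iff_of_false (not_lt.2 hx.le) (not_lt.2 k.le)
    · filter_upwards [c2.continuousAt.eventually (lt_mem_nhds k)] with x hx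
      exact iff_of_true hx k
  filter_upwards [e1, e2] with x h1 h2
  exact ⟨fun k => ⟨h, fun m ma mb mc md => (h2 m ma mb mc md).1 (k.2 m ma mb mc md)⟩,
    fun k => ⟨h1, fun m ma mb mc md => (h2 m ma mb mc md).2 (k.2 m ma mb mc md)⟩⟩

theorem flat_cell {p : ι → E4} {o : E4} {w : ι → ℝ} (he : Ext p) (hg : Gen p w) {a b c d : ι}
    (h0 : d4 (p a) (p b) (p c) (p d) = 0)
    (h : ∃ᶠ x : X ι in 𝓝 (p, o, w), Cell x.1 x.2.2 a b c d) {u v : ι}
    (hu : u = a ∨ u = b ∨ u = c ∨ u = d) (hv : v = a ∨ v = b ∨ v = c ∨ v = d) : Hull p u v := by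
  obtain ⟨x0, hx0⟩ := h.exists
  obtain ⟨ab, ac, ad, bc, bd, cd⟩ := ne_of_d4 hx0.1
  have key : ∀ s : ℝ, s ≠ 0 → (∃ᶠ x : X ι in 𝓝 (p, o, w), ∀ m, 0 ≤ s * Lift x.1 x.2.2 a b c d m) →
      Hull p u v := fun s hs k => by
    refine flat_hull he hg ab ac ad bc bd cd h0 hs (fun m => ?_) hu hv
    have c2 : Continuous fun x : X ι => s * Lift x.1 x.2.2 a b c d m := by fun_prop
    exact isClosed_Ici.mem_of_frequently_of_tendsto (k.mono fun x hx => hx m) (c2.tendsto _)
  have : ∃ᶠ x : X ι in 𝓝 (p, o, w), (∀ m, 0 ≤ 1 * Lift x.1 x.2.2 a b c d m) ∨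
      ∀ m, 0 ≤ -1 * Lift x.1 x.2.2 a b c d m := by
    refine h.mono fun x hx => ?_
    have k : ∀ m, 0 ≤ d4 (x.1 a) (x.1 b) (x.1 c) (x.1 d) * Lift x.1 x.2.2 a b c d m := fun m => by
      by_cases hm : m = a ∨ m = b ∨ m = c ∨ m = d
      · rw [lift_mem _ _ hm, mul_zero]
      · push Not at hm
        exact (hx.2 m hm.1 hm.2.1 hm.2.2.1 hm.2.2.2).le
    rcases lt_or_gt_of_ne hx.1 with k1 | k1
    · exact Or.inr fun m => by nlinarith [k m]
    · exact Or.inl fun m => by nlinarith [k m]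
  rcases frequently_or_distrib.1 this with k | k
  · exact key 1 one_ne_zero k
  · exact key (-1) (by norm_num) k

theorem hq_cont {p : ι → E4} {o : E4} {w : ι → ℝ} (ho : GenO p o) {a b c d : ι}
    (h : d4 (p a) (p b) (p c) (p d) ≠ 0) (y : ι → ι → ℝ) :
    ContinuousAt (fun x : X ι => hq x.1 x.2.1 a b c d y y) (p, o, w) := by
  obtain ⟨h1, h2, h3, h4⟩ := geno_ne ho h
  simp only [hq, Rq]
  refine ContinuousAt.div (Continuous.continuousAt (by fun_prop))
    (Continuous.continuousAt (by fun_prop)) ?_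
  have := abs_ne_zero.2 h
  positivity

end Psd

open Psd in
theorem stPsd (h1 : StPsdGP) (h2 : StDense) (_h3 : StCellSym) : StPsd := by
  classical
  intro ι _ p o w he ho hg y ys yh
  let A : Set (X ι) := {x | GP x.1 ∧ GenO x.1 x.2.1 ∧ Gen x.1 x.2.2}
  have nb : (𝓝[A] (p, o, w)).NeBot :=
    mem_closure_iff_nhdsWithin_neBot.1 (mem_closure_iff_frequently.2 (good_freq h2 p o w))
  have t1 : Tendsto (fun x : X ι => x.1) (𝓝 (p, o, w)) (𝓝 p) := continuous_fst.tendsto _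
  have lim : Tendsto (fun x : X ι => Hb x.1 x.2.1 (Cell x.1 x.2.2) y y) (𝓝 (p, o, w))
      (𝓝 (Hb p o (Cell p w) y y)) := by
    simp only [Hb]
    refine tendsto_finsetSum _ fun a _ => tendsto_finsetSum _ fun b _ =>
      tendsto_finsetSum _ fun c _ => tendsto_finsetSum _ fun d _ => ?_
    by_cases h0 : d4 (p a) (p b) (p c) (p d) = 0
    · rw [if_neg fun k : Cell p w a b c d => k.1 h0]
      by_cases hf : ∃ᶠ x : X ι in 𝓝 (p, o, w), Cell x.1 x.2.2 a b c d
      · have k := fun u v hu hv => yh u v (flat_cell (u := u) (v := v) he hg h0 hf hu hv)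
        have : ∀ x : X ι, hq x.1 x.2.1 a b c d y y = 0 := fun x => by
          simp only [hq, Rq, k a b (by simp) (by simp), k a c (by simp) (by simp),
            k a d (by simp) (by simp), k b c (by simp) (by simp), k b d (by simp) (by simp),
            k c d (by simp) (by simp)]
          simp
        simp only [this, ite_self]
        exact tendsto_const_nhds
      · refine tendsto_const_nhds.congr' ?_
        filter_upwards [not_frequently.1 hf] with x hx
        rw [if_neg hx]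
    · by_cases hc : Cell p w a b c d
      · rw [if_pos hc]
        refine Tendsto.congr' ?_ (hq_cont (w := w) ho h0 y)
        filter_upwards [cell_ev (o := o) hg h0] with x hx
        rw [if_pos (hx.2 hc)]
      · rw [if_neg hc]
        refine tendsto_const_nhds.congr' ?_
        filter_upwards [cell_ev (o := o) hg h0] with x hx
        rw [if_neg (mt hx.1 hc)]
  have hh : ∀ᶠ p' in 𝓝 p, ∀ a b, Hull p' a b → Hull p a b := by
    simp only [eventually_all]
    intro a b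
    by_cases k : Hull p a b
    · exact Eventually.of_forall fun _ _ => k
    · filter_upwards [(hull_closed a b).isOpen_compl.mem_nhds k] with p' hp k'
      exact absurd k' hp
  refine ge_of_tendsto (x := 𝓝[A] (p, o, w)) (lim.mono_left nhdsWithin_le_nhds) ?_
  filter_upwards [self_mem_nhdsWithin, nhdsWithin_le_nhds (t1.eventually (ext_ev he)),
    nhdsWithin_le_nhds (t1.eventually hh)] with x hx x1 x2
  exact h1 ι x.1 x.2.1 x.2.2 x1 hx.1 hx.2.1 hx.2.2 y ys fun a b k => yh a b (x2 a b k)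

namespace Psd

variable {ι : Type}

theorem dx_symm (p ξ : ι → E4) (a b : ι) : dx p ξ a b = dx p ξ b a := by
  simp only [dx, real_inner_comm (p a), real_inner_comm (p b)]; ring

theorem hq_swap12 (p : ι → E4) (o : E4) (a b c d : ι) {y z : ι → ι → ℝ}
    (hy : ∀ a b, y a b = y b a) (hz : ∀ a b, z a b = z b a) :
    hq p o b a c d y z = hq p o a b c d y z := by
  simp only [hq, Rq]
  rw [d4_swap12 (p a) o, d4_swap12 o (p b), d4_swap12 (p a) (p b), d4_swap12 (p a) (p b),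
    d4_swap12 (p a) (p b), abs_neg, hy b a, hz b a]
  congr 1 <;> ring

theorem hq_swap23 (p : ι → E4) (o : E4) (a b c d : ι) {y z : ι → ι → ℝ}
    (hy : ∀ a b, y a b = y b a) (hz : ∀ a b, z a b = z b a) :
    hq p o a c b d y z = hq p o a b c d y z := by
  simp only [hq, Rq]
  rw [d4_swap23 o (p b) (p c), d4_swap23 (p a) (p b) o, d4_swap23 (p a) o (p c),
    d4_swap23 (p a) (p b) (p c), d4_swap23 (p a) (p b) (p c), abs_neg, hy c b, hz c b]
  congr 1 <;> ring

theorem hq_swap34 (p : ι → E4) (o : E4) (a b c d : ι) {y z : ι → ι → ℝ}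
    (hy : ∀ a b, y a b = y b a) (hz : ∀ a b, z a b = z b a) :
    hq p o a b d c y z = hq p o a b c d y z := by
  simp only [hq, Rq]
  rw [d4_swap34 o (p b) (p c), d4_swap34 (p a) o (p c), d4_swap34 (p a) (p b) (p c) o,
    d4_swap34 (p a) (p b) o (p d), d4_swap34 (p a) (p b) (p c) (p d), abs_neg, hy d c, hz d c]
  congr 1 <;> ring

theorem sym_rot2 {S : ι → ι → ι → ι → Prop} (hS : Sym4 S) {a b c d : ι} (h : S a b c d) :
    S a c b d ∧ S a d b c ∧ S b c a d ∧ S b d a c ∧ S c d a b := by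
  have s1 := fun {a b c d} (k : S a b c d) => (hS a b c d k).1
  have s2 := fun {a b c d} (k : S a b c d) => (hS a b c d k).2.1
  have s3 := fun {a b c d} (k : S a b c d) => (hS a b c d k).2.2
  exact ⟨s2 h, s2 (s3 h), s2 (s1 h), s2 (s3 (s1 h)), s2 (s3 (s1 (s2 h)))⟩

theorem bd_zero [Fintype ι] (hU : StUniq) {p : ι → E4} {w : ι → ℝ} {S : ι → ι → ι → ι → Prop}
    {T : Tri ι} (hS : Sym4 S) (hc : ∀ a b c d, S a b c d → Cell p w a b c d) (hb : IsBd p S T)
    {a b : ι} (h : ¬ T.adj a b) (c : ι) : bd p S a b c = 0 := by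
  classical
  have n1 : ¬ T.F a b c := fun k => h (Tri.adj12 k)
  have n2 : ¬ T.F b a c := fun k => h (Tri.adj21 k)
  rw [hb] at n1 n2
  have e1 : (∃ d, S b a c d ∧ 0 < d4 (p b) (p a) (p c) (p d)) ↔
      ∃ d, S a b c d ∧ d4 (p a) (p b) (p c) (p d) < 0 :=
    exists_congr fun d => and_congr ⟨fun k => (hS _ _ _ _ k).1, fun k => (hS _ _ _ _ k).1⟩
      (by rw [d4_swap12, neg_pos])
  have e2 : (∃ d, S b a c d ∧ d4 (p b) (p a) (p c) (p d) < 0) ↔
      ∃ d, S a b c d ∧ 0 < d4 (p a) (p b) (p c) (p d) :=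
    exists_congr fun d => and_congr ⟨fun k => (hS _ _ _ _ k).1, fun k => (hS _ _ _ _ k).1⟩
      (by rw [d4_swap12, neg_lt_zero])
  rw [e1, e2] at n2
  unfold bd
  by_cases k : ∃ d, S a b c d ∧ 0 < d4 (p a) (p b) (p c) (p d)
  · obtain ⟨d2, s2, k2⟩ : ∃ d, S a b c d ∧ d4 (p a) (p b) (p c) (p d) < 0 := by
      by_contra k'
      exact n1 ⟨k, k'⟩
    obtain ⟨d1, s1, k1⟩ := k
    have ne : d1 ≠ d2 := by
      rintro rfl
      linarith
    rw [Finset.sum_eq_add d1 d2 ne, if_pos s1, if_pos s2, sign_pos k1, sign_neg k2]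
    · simp
    · intro d _ hd
      rw [if_neg]
      intro s
      rcases lt_or_gt_of_ne (hc _ _ _ _ s).1 with k3 | k3
      · exact hd.2 (hU ι p w a b c d d2 (hc _ _ _ _ s) (hc _ _ _ _ s2) (mul_pos_of_neg_of_neg k3 k2))
      · exact hd.1 (hU ι p w a b c d d1 (hc _ _ _ _ s) (hc _ _ _ _ s1) (mul_pos k3 k1))
    · simp
    · simp
  · refine Finset.sum_eq_zero fun d _ => if_neg fun s => ?_
    rcases lt_or_gt_of_ne (hc _ _ _ _ s).1 with k3 | k3
    · exact n2 ⟨⟨d, s, k3⟩, k⟩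
    · exact k ⟨d, s, k3⟩

theorem le_sum4 [Fintype ι] {f : ι → ι → ι → ι → ℝ} (h : ∀ a b c d, 0 ≤ f a b c d) (a b c d : ι) :
    f a b c d ≤ ∑ a, ∑ b, ∑ c, ∑ d, f a b c d := by
  have h1 : ∀ a b c, 0 ≤ ∑ d, f a b c d := fun a b c => Finset.sum_nonneg fun d _ => h a b c d
  have h2 : ∀ a b, 0 ≤ ∑ c, ∑ d, f a b c d := fun a b => Finset.sum_nonneg fun c _ => h1 a b c
  have h3 : ∀ a, 0 ≤ ∑ b, ∑ c, ∑ d, f a b c d := fun a => Finset.sum_nonneg fun b _ => h2 a b
  exact (Finset.single_le_sum (fun d _ => h a b c d) (Finset.mem_univ d)).trans <|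
    (Finset.single_le_sum (fun c _ => h1 a b c) (Finset.mem_univ c)).trans <|
    (Finset.single_le_sum (fun b _ => h2 a b) (Finset.mem_univ b)).trans <|
    Finset.single_le_sum (fun a _ => h3 a) (Finset.mem_univ a)

end Psd

open Psd in
theorem stRigA (h1 : StPsd) (h2 : StL1) (h3 : StWalk) (h4 : StUniq) (h5 : StCellSym)
    (h6 : StDense) : StRigA := by
  classical
  intro ι _ p ξ w S Q T he hg hS hc hb hξ hQ hT
  obtain ⟨o, ho⟩ := (h6 ι p).2.1.nonempty
  replace ho : GenO p o := ho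
  let Sp : ι → ι → Prop := fun a c => (∃ b d, Q a b c d) ∨ ∃ b d, Q c b a d
  let In : ι → ι → Prop := fun a b => ∃ c d, S a b c d
  let y : ι → ι → ℝ := fun a b => if In a b ∧ ¬ Sp a b then dx p ξ a b else 0
  let z : ι → ι → ℝ := fun a b => dx p ξ a b - y a b
  have inS : ∀ a b, In a b → In b a := fun a b ⟨c, d, k⟩ => ⟨c, d, (hS _ _ _ _ k).1⟩
  have ys : ∀ a b, y a b = y b a := fun a b => by
    have : In a b ∧ ¬ Sp a b ↔ In b a ∧ ¬ Sp b a :=
      and_congr ⟨inS a b, inS b a⟩ (not_congr or_comm)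
    simp only [y, this, dx_symm p ξ a b]
  have zs : ∀ a b, z a b = z b a := fun a b => by simp only [z, ys a b, dx_symm p ξ a b]
  have yadj : ∀ a b, T.adj a b → y a b = 0 := fun a b k => by
    rcases hT a b k with k | k
    · simp only [y, k, ite_self]
    · exact if_neg fun k' => k'.2 k
  have yw : ∀ a b, ((∃ c' d', Cell p w a b c' d' ∧ ¬ S a b c' d') ∨ Hull p a b) → y a b = 0 :=
    fun a b k => by
      by_cases i : In a b
      · obtain ⟨c, d, s⟩ := i
        exact yadj a b (h3 ι p w S T hg hS hc hb a b c d s k)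
      · exact if_neg fun k' => i k'.1
  have zn : ∀ a b, In a b → ¬ Sp a b → z a b = 0 := fun a b i k => by
    simp only [z, y, if_pos (And.intro i k), sub_self]
  have spadj : ∀ a c, Sp a c → T.adj a c := by
    rintro a c (⟨b, d, k⟩ | ⟨b, d, k⟩)
    · exact Tri.adj13 (hQ _ _ _ _ k).2.1
    · exact Tri.adj31 (hQ _ _ _ _ k).2.1
  have spo : ∀ a c b d, S a c b d → Sp a c → ¬ T.adj b d := by
    rintro a c b d s (⟨b', d', k⟩ | ⟨b', d', k⟩)
    · obtain ⟨-, -, -, k1, k2, -⟩ := hQ _ _ _ _ k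
      rcases k2 b d s with ⟨rfl, rfl⟩ | ⟨rfl, rfl⟩
      exacts [k1, fun a => k1 a.symm]
    · obtain ⟨-, -, -, k1, k2, -⟩ := hQ _ _ _ _ k
      rcases k2 b d (hS _ _ _ _ s).1 with ⟨rfl, rfl⟩ | ⟨rfl, rfl⟩
      exacts [k1, fun a => k1 a.symm]
  have core : ∀ a b c d, Q a b c d →
      hq p o a b c d z y = dx p ξ a c * dx p ξ b d / |d4 (p a) (p b) (p c) (p d)| := by
    intro a b c d k
    obtain ⟨s, f1, f2, nbd, -, -⟩ := hQ _ _ _ _ k
    obtain ⟨s1, s2, s3, s4, s5⟩ := sym_rot2 hS s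
    have zab := zn a b ⟨_, _, s⟩ fun k => spo _ _ _ _ s k (Tri.adj23 f2)
    have zad := zn a d ⟨_, _, s2⟩ fun k => spo _ _ _ _ s2 k (Tri.adj23 f1)
    have zbc := zn b c ⟨_, _, s3⟩ fun k => spo _ _ _ _ s3 k (Tri.adj13 f2)
    have zcd := zn c d ⟨_, _, s5⟩ fun k => spo _ _ _ _ s5 k (Tri.adj12 f1)
    have nsp : ¬ Sp b d := fun k => nbd (spadj _ _ k)
    have zbd := zn b d ⟨_, _, s4⟩ nsp
    have ybd : y b d = dx p ξ b d := if_pos ⟨⟨_, _, s4⟩, nsp⟩
    have yac := yadj a c (Tri.adj12 f2)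
    have zac : z a c = dx p ξ a c := by simp only [z, yac, sub_zero]
    obtain ⟨l1, l2, l3, l4⟩ := geno_ne ho (hc _ _ _ _ s).1
    have l0 := abs_ne_zero.2 (hc _ _ _ _ s).1
    simp only [hq, Rq, zab, zad, zbc, zcd, zbd, zac, ybd, yac, yadj a b (Tri.adj12 f1),
      yadj a d (Tri.adj13 f2), yadj b c (Tri.adj23 f1), yadj c d (Tri.adj23 f2)]
    field_simp
    ring
  have qpos : ∀ a b c d, Q a b c d → 0 ≤ hq p o a b c d z y := fun a b c d k => by
    rw [core a b c d k]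
    exact div_nonneg (hQ _ _ _ _ k).2.2.2.2.2 (abs_nonneg _)
  have p12 := fun a b c d => hq_swap12 p o a b c d zs ys
  have p23 := fun a b c d => hq_swap23 p o a b c d zs ys
  have p34 := fun a b c d => hq_swap34 p o a b c d zs ys
  have sppos : ∀ a c b d, S a c b d → Sp a c → 0 ≤ hq p o a c b d z y := by
    rintro a c b d s (⟨b', d', k⟩ | ⟨b', d', k⟩)
    · rcases (hQ _ _ _ _ k).2.2.2.2.1 b d s with ⟨rfl, rfl⟩ | ⟨rfl, rfl⟩
      · rw [p23]; exact qpos _ _ _ _ k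
      · rw [p34, p23]; exact qpos _ _ _ _ k
    · rcases (hQ _ _ _ _ k).2.2.2.2.1 b d (hS _ _ _ _ s).1 with ⟨rfl, rfl⟩ | ⟨rfl, rfl⟩
      · rw [p12, p23]; exact qpos _ _ _ _ k
      · rw [p12, p34, p23]; exact qpos _ _ _ _ k
  have pos : ∀ a b c d, S a b c d → 0 ≤ hq p o a b c d z y := by
    intro a b c d s
    obtain ⟨s1, s2, s3, s4, s5⟩ := sym_rot2 hS s
    by_cases k1 : Sp a b
    · exact sppos _ _ _ _ s k1
    by_cases k2 : Sp a c
    · rw [← p23]; exact sppos _ _ _ _ s1 k2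
    by_cases k3 : Sp a d
    · rw [← p34, ← p23]; exact sppos _ _ _ _ s2 k3
    by_cases k4 : Sp b c
    · rw [← p12, ← p23]; exact sppos _ _ _ _ s3 k4
    by_cases k5 : Sp b d
    · rw [← p12, ← p34, ← p23]; exact sppos _ _ _ _ s4 k5
    by_cases k6 : Sp c d
    · rw [← p23, ← p12, ← p34, ← p23]; exact sppos _ _ _ _ s5 k6
    simp only [hq, Rq, zn a b ⟨_, _, s⟩ k1, zn a c ⟨_, _, s1⟩ k2, zn a d ⟨_, _, s2⟩ k3,
      zn b c ⟨_, _, s3⟩ k4, zn b d ⟨_, _, s4⟩ k5, zn c d ⟨_, _, s5⟩ k6]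
    simp
  have e1 : Hb p o (Cell p w) y y = Hb p o S y y := by
    simp only [Hb]
    refine Finset.sum_congr rfl fun a _ => Finset.sum_congr rfl fun b _ =>
      Finset.sum_congr rfl fun c _ => Finset.sum_congr rfl fun d _ => ?_
    by_cases s : S a b c d
    · rw [if_pos s, if_pos (hc _ _ _ _ s)]
    · rw [if_neg s]
      by_cases k : Cell p w a b c d
      · rw [if_pos k]
        have hS' : Sym4 fun a b c d => Cell p w a b c d ∧ ¬ S a b c d := fun a b c d k =>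
          ⟨⟨(h5 ι p w _ _ _ _ k.1).1, fun s => k.2 (hS _ _ _ _ s).1⟩,
            ⟨(h5 ι p w _ _ _ _ k.1).2.1, fun s => k.2 (hS _ _ _ _ s).2.1⟩,
            ⟨(h5 ι p w _ _ _ _ k.1).2.2, fun s => k.2 (hS _ _ _ _ s).2.2⟩⟩
        obtain ⟨s1, s2, s3, s4, s5⟩ := sym_rot2 hS' (And.intro k s)
        simp only [hq, Rq, yw a b (Or.inl ⟨_, _, k, s⟩), yw a c (Or.inl ⟨_, _, s1⟩),
          yw a d (Or.inl ⟨_, _, s2⟩), yw b c (Or.inl ⟨_, _, s3⟩), yw b d (Or.inl ⟨_, _, s4⟩),
          yw c d (Or.inl ⟨_, _, s5⟩)]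
        simp
      · rw [if_neg k]
  have e2 : Hb p o S y y = Hb p o S (dx p ξ) y - Hb p o S z y := by
    simp only [Hb, ← Finset.sum_sub_distrib]
    refine Finset.sum_congr rfl fun a _ => Finset.sum_congr rfl fun b _ =>
      Finset.sum_congr rfl fun c _ => Finset.sum_congr rfl fun d _ => ?_
    split_ifs
    · simp only [hq, Rq, z]; ring
    · simp
  have e3 : Hb p o S (dx p ξ) y = 0 := by
    have ex : ∀ a b, ∃ v : E4, In a b → d4 (p a) (p b) o v ≠ 0 := fun a b => by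
      by_cases i : In a b
      · obtain ⟨c, d, s⟩ := i
        exact ⟨p d, fun _ => (geno_ne ho (hc _ _ _ _ s).1).2.2.1⟩
      · exact ⟨0, fun k => absurd k i⟩
    choose o₂ ho₂ using ex
    rw [h2 ι p ξ o S y o₂ hS (fun a b c d s => (hc _ _ _ _ s).1) ho hξ ys
      fun a b c d s => ho₂ a b ⟨c, d, s⟩]
    refine mul_eq_zero_of_right _ (Finset.sum_eq_zero fun a _ => Finset.sum_eq_zero fun b _ =>
      Finset.sum_eq_zero fun c _ => ?_)
    by_cases k : T.adj a b
    · simp [yadj a b k]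
    · simp [bd_zero h4 hS hc hb k c]
  have e4 := h1 ι p o w he ho hg y ys fun a b k => yw a b (Or.inr k)
  intro a b c d k
  have s := (hQ _ _ _ _ k).1
  have e5 : (if S a b c d then hq p o a b c d z y else 0) ≤ Hb p o S z y :=
    le_sum4 (f := fun a b c d => if S a b c d then hq p o a b c d z y else 0) (fun a b c d => by
      split_ifs with s
      exacts [pos _ _ _ _ s, le_rfl]) a b c d
  rw [if_pos s, core a b c d k] at e5
  have l0 := abs_pos.2 (hc _ _ _ _ s).1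
  have e6 : dx p ξ a c * dx p ξ b d / |d4 (p a) (p b) (p c) (p d)| ≤ 0 := by linarith
  rw [div_le_iff₀ l0, zero_mul] at e6
  exact le_antisymm e6 (hQ _ _ _ _ k).2.2.2.2.2

end Pool.Agent.Lib.MP_34b931_co.G
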