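import Pool.Agent.Lib.MP_34b931_co.H22Tri

/-! The first variation formula and positivity for pulling triangulations. -/

namespace Pool.Agent.Lib.MP_34b931_co.G

namespace Pull

variable {ι : Type}

/-- Fourfold sum. -/
def s4 [Fintype ι] (f : ι → ι → ι → ι → ℝ) : ℝ := ∑ a, ∑ b, ∑ c, ∑ d, f a b c d

section sums

variable [Fintype ι] (f g : ι → ι → ι → ι → ℝ)

theorem s4_12 : s4 (fun a b c d => f b a c d) = s4 f := Finset.sum_comm

theorem s4_23 : s4 (fun a b c d => f a c b d) = s4 f :=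
  Finset.sum_congr rfl fun _ _ => Finset.sum_comm

theorem s4_34 : s4 (fun a b c d => f a b d c) = s4 f :=
  Finset.sum_congr rfl fun _ _ => Finset.sum_congr rfl fun _ _ => Finset.sum_comm

theorem s4_add : s4 (fun a b c d => f a b c d + g a b c d) = s4 f + s4 g := by
  simp only [s4, Finset.sum_add_distrib]

theorem s4_sub : s4 (fun a b c d => f a b c d - g a b c d) = s4 f - s4 g := by
  simp only [s4, Finset.sum_sub_distrib]

theorem s4_neg : s4 (fun a b c d => -f a b c d) = -s4 f := by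
  simp only [s4, Finset.sum_neg_distrib]

theorem s4_congr {f g : ι → ι → ι → ι → ℝ} (h : ∀ a b c d, f a b c d = g a b c d) :
    s4 f = s4 g := by
  simp only [s4, h]

end sums

/-- The denominator of `hq`. -/
noncomputable def dn (p : ι → E4) (o : E4) (a b c d : ι) : ℝ :=
  |d4 (p a) (p b) (p c) (p d)| *
    (d4 o (p b) (p c) (p d) * d4 (p a) o (p c) (p d) * d4 (p a) (p b) o (p d) *
      d4 (p a) (p b) (p c) o)

variable {p : ι → E4} {o : E4}

theorem dn12 (a b c d : ι) : dn p o b a c d = dn p o a b c d := by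
  unfold dn
  rw [d4_swap12 (p a) (p b) (p c) (p d), d4_swap12 (p a) o, d4_swap12 o (p b),
    d4_swap12 (p a) (p b) o, d4_swap12 (p a) (p b) (p c) o, abs_neg]
  ring

theorem dn23 (a b c d : ι) : dn p o a c b d = dn p o a b c d := by
  unfold dn
  rw [d4_swap23 (p a) (p b) (p c) (p d), d4_swap23 o (p b) (p c), d4_swap23 (p a) (p b) o,
    d4_swap23 (p a) o (p c), d4_swap23 (p a) (p b) (p c) o, abs_neg]
  ring

theorem dn34 (a b c d : ι) : dn p o a b d c = dn p o a b c d := by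
  unfold dn
  rw [d4_swap34 (p a) (p b) (p c) (p d), d4_swap34 o (p b) (p c), d4_swap34 (p a) o (p c),
    d4_swap34 (p a) (p b) (p c) o, d4_swap34 (p a) (p b) o (p d), abs_neg]
  ring

variable {y : ι → ι → ℝ}

theorem Rq12 (hy : ∀ a b, y a b = y b a) (a b c d : ι) : Rq p o b a c d y = Rq p o a b c d y := by
  unfold Rq
  rw [d4_swap12 (p a) o, d4_swap12 o (p b), d4_swap12 (p a) (p b) o,
    d4_swap12 (p a) (p b) (p c) o, hy b a]
  ring

theorem Rq23 (hy : ∀ a b, y a b = y b a) (a b c d : ι) : Rq p o a c b d y = Rq p o a b c d y := by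
  unfold Rq
  rw [d4_swap23 o (p b) (p c), d4_swap23 (p a) (p b) o, d4_swap23 (p a) o (p c),
    d4_swap23 (p a) (p b) (p c) o, hy c b]
  ring

theorem Rq34 (hy : ∀ a b, y a b = y b a) (a b c d : ι) : Rq p o a b d c y = Rq p o a b c d y := by
  unfold Rq
  rw [d4_swap34 o (p b) (p c), d4_swap34 (p a) o (p c), d4_swap34 (p a) (p b) (p c) o,
    d4_swap34 (p a) (p b) o (p d), hy d c]
  ring

theorem hq_eq (a b c d : ι) (x y : ι → ι → ℝ) :
    hq p o a b c d x y = Rq p o a b c d x * Rq p o a b c d y / dn p o a b c d := rfl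

theorem S12 {S : ι → ι → ι → ι → Prop} (h : Sym4 S) (a b c d : ι) : S b a c d ↔ S a b c d :=
  ⟨fun k => (h _ _ _ _ k).1, fun k => (h _ _ _ _ k).1⟩

theorem S23 {S : ι → ι → ι → ι → Prop} (h : Sym4 S) (a b c d : ι) : S a c b d ↔ S a b c d :=
  ⟨fun k => (h _ _ _ _ k).2.1, fun k => (h _ _ _ _ k).2.1⟩

theorem S34 {S : ι → ι → ι → ι → Prop} (h : Sym4 S) (a b c d : ι) : S a b d c ↔ S a b c d :=
  ⟨fun k => (h _ _ _ _ k).2.2, fun k => (h _ _ _ _ k).2.2⟩

theorem L_ne (ho : GenO p o) {a b c d : ι} (h : d4 (p a) (p b) (p c) (p d) ≠ 0) :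
    d4 o (p b) (p c) (p d) ≠ 0 ∧ d4 (p a) o (p c) (p d) ≠ 0 ∧ d4 (p a) (p b) o (p d) ≠ 0 ∧
      d4 (p a) (p b) (p c) o ≠ 0 := by
  refine ⟨?_, ?_, ?_, ho a b c ⟨_, h⟩⟩
  · have := ho b c d ⟨p a, by rw [d4_rot]; exact neg_ne_zero.2 h⟩
    rwa [d4_rot, neg_ne_zero] at this
  · have := ho a c d ⟨p b, by rw [d4_swap34, d4_swap23, neg_neg]; exact h⟩
    rwa [d4_swap34, d4_swap23, neg_neg] at this
  · have := ho a b d ⟨p c, by rw [d4_swap34]; exact neg_ne_zero.2 h⟩
    rwa [d4_swap34, neg_ne_zero] at this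

theorem dx_symm (p ξ : ι → E4) (a b : ι) : dx p ξ a b = dx p ξ b a := by
  simp only [dx, real_inner_comm (ξ a), real_inner_comm (ξ b)]; ring

theorem Rq_dx (ξ : ι → E4) (hξ : ∀ a, inner ℝ (ξ a) (p a) = 0) (a b c d : ι) :
    Rq p o a b c d (dx p ξ) = d4 (p a) (p b) (p c) (p d) *
      (d4 o (p b) (p c) (p d) * inner ℝ (ξ a) o + d4 (p a) o (p c) (p d) * inner ℝ (ξ b) o
        + d4 (p a) (p b) o (p d) * inner ℝ (ξ c) o + d4 (p a) (p b) (p c) o * inner ℝ (ξ d) o) := by
  have k := fun i : ι => congrArg (inner ℝ (ξ i)) (cramer4 (p a) (p b) (p c) (p d) o)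
  have ka := k a
  have kb := k b
  have kc := k c
  have kd := k d
  simp only [inner_add_right, real_inner_smul_right, hξ] at ka kb kc kd
  simp only [Rq, dx, real_inner_comm (ξ _) (p _)]
  linear_combination (-d4 o (p b) (p c) (p d)) * ka - d4 (p a) o (p c) (p d) * kb
    - d4 (p a) (p b) o (p d) * kc - d4 (p a) (p b) (p c) o * kd

theorem pl1 (o a b c d v : E4) :
    d4 o b c d * d4 a b o v = -(d4 v b d o * d4 a b c o) - d4 v b c o * d4 a b o d := by
  simp only [d4, m3]; ring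

theorem pl2 (o a b c d v : E4) :
    d4 a o c d * d4 a b o v = -(d4 a v d o * d4 a b c o) - d4 a v c o * d4 a b o d := by
  simp only [d4, m3]; ring

theorem key (ξ : ι → E4) {a b c d : ι} {v : E4} (hc : d4 (p a) (p b) o (p d) ≠ 0)
    (hd : d4 (p a) (p b) (p c) o ≠ 0) (hv : d4 (p a) (p b) o v ≠ 0) :
    (d4 o (p b) (p c) (p d) * inner ℝ (ξ a) o + d4 (p a) o (p c) (p d) * inner ℝ (ξ b) o
        + d4 (p a) (p b) o (p d) * inner ℝ (ξ c) o + d4 (p a) (p b) (p c) o * inner ℝ (ξ d) o) /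
      (d4 (p a) (p b) o (p d) * d4 (p a) (p b) (p c) o) =
    ell p ξ o a b d v / d4 (p a) (p b) o v - ell p ξ o a b c v / d4 (p a) (p b) o v := by
  have h1 := pl1 o (p a) (p b) (p c) (p d) v
  have h2 := pl2 o (p a) (p b) (p c) (p d) v
  unfold ell
  rw [d4_swap34 (p a) (p b) o (p d), d4_swap34 (p a) (p b) o v]
  field_simp
  linear_combination inner ℝ (ξ a) o * h1 + inner ℝ (ξ b) o * h2

open Classical in
theorem Hb_six [Fintype ι] {S : ι → ι → ι → ι → Prop} (hS : Sym4 S) {x : ι → ι → ℝ}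
    (hx : ∀ a b, x a b = x b a) (y : ι → ι → ℝ) :
    Hb p o S x y = 6 * s4 fun a b c d => if S a b c d then Rq p o a b c d x / dn p o a b c d *
      (d4 o (p b) (p c) (p d) * d4 (p a) o (p c) (p d) * y a b) else 0 := by
  set F : ι → ι → ι → ι → ℝ := fun a b c d => if S a b c d then
    Rq p o a b c d x / dn p o a b c d *
      (d4 o (p b) (p c) (p d) * d4 (p a) o (p c) (p d) * y a b) else 0 with hF
  have e : ∀ a b c d, (if S a b c d then hq p o a b c d x y else 0) =
      F a b c d + F a c b d + F a d b c + F b c a d + F b d a c + F c d a b := by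
    intro a b c d
    have s1 : S a c b d ↔ S a b c d := S23 hS ..
    have s2 : S a d b c ↔ S a b c d := (S23 hS ..).trans (S34 hS ..)
    have s3 : S b c a d ↔ S a b c d := (S23 hS ..).trans (S12 hS ..)
    have s4 : S b d a c ↔ S a b c d := (S23 hS ..).trans ((S34 hS ..).trans (S12 hS ..))
    have s5 : S c d a b ↔ S a b c d :=
      (S23 hS ..).trans ((S34 hS ..).trans ((S12 hS ..).trans s1))
    have r1 : Rq p o a c b d x = Rq p o a b c d x := Rq23 hx ..
    have r2 : Rq p o a d b c x = Rq p o a b c d x := (Rq23 hx ..).trans (Rq34 hx ..)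
    have r3 : Rq p o b c a d x = Rq p o a b c d x := (Rq23 hx ..).trans (Rq12 hx ..)
    have r4 : Rq p o b d a c x = Rq p o a b c d x :=
      (Rq23 hx ..).trans ((Rq34 hx ..).trans (Rq12 hx ..))
    have r5 : Rq p o c d a b x = Rq p o a b c d x :=
      (Rq23 hx ..).trans ((Rq34 hx ..).trans ((Rq12 hx ..).trans r1))
    have n1 : dn p o a c b d = dn p o a b c d := dn23 ..
    have n2 : dn p o a d b c = dn p o a b c d := (dn23 ..).trans (dn34 ..)
    have n3 : dn p o b c a d = dn p o a b c d := (dn23 ..).trans (dn12 ..)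
    have n4 : dn p o b d a c = dn p o a b c d := (dn23 ..).trans ((dn34 ..).trans (dn12 ..))
    have n5 : dn p o c d a b = dn p o a b c d :=
      (dn23 ..).trans ((dn34 ..).trans ((dn12 ..).trans n1))
    simp only [hF, s1, s2, s3, s4, s5, r1, r2, r3, r4, r5, n1, n2, n3, n4, n5]
    split_ifs
    · have e1 : d4 o (p c) (p b) (p d) = -d4 o (p b) (p c) (p d) := by simp only [d4, m3]; ring
      have e2 : d4 (p a) o (p b) (p d) = -d4 (p a) (p b) o (p d) := by simp only [d4, m3]; ring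
      have e3 : d4 o (p d) (p b) (p c) = d4 o (p b) (p c) (p d) := by simp only [d4, m3]; ring
      have e4 : d4 (p a) o (p b) (p c) = d4 (p a) (p b) (p c) o := by simp only [d4, m3]; ring
      have e5 : d4 o (p c) (p a) (p d) = d4 (p a) o (p c) (p d) := by simp only [d4, m3]; ring
      have e6 : d4 (p b) o (p a) (p d) = d4 (p a) (p b) o (p d) := by simp only [d4, m3]; ring
      have e7 : d4 o (p d) (p a) (p c) = -d4 (p a) o (p c) (p d) := by simp only [d4, m3]; ring
      have e8 : d4 (p b) o (p a) (p c) = -d4 (p a) (p b) (p c) o := by simp only [d4, m3]; ring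
      have e9 : d4 o (p d) (p a) (p b) = d4 (p a) (p b) o (p d) := by simp only [d4, m3]; ring
      have e10 : d4 (p c) o (p a) (p b) = d4 (p a) (p b) (p c) o := by simp only [d4, m3]; ring
      rw [hq_eq, e1, e2, e3, e4, e5, e6, e7, e8, e9, e10, mul_div_right_comm]
      conv_lhs => rw [show Rq p o a b c d y = _ from rfl]; unfold Rq
      simp only [Rq]
      ring
    · simp
  have t1 : s4 (fun a b c d => F a c b d) = s4 F := s4_23 F
  have t2 : s4 (fun a b c d => F a d b c) = s4 F := (s4_34 fun a b c d => F a c b d).trans t1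
  have t3 : s4 (fun a b c d => F b c a d) = s4 F := (s4_12 fun a b c d => F a c b d).trans t1
  have t4 : s4 (fun a b c d => F b d a c) = s4 F := (s4_12 fun a b c d => F a d b c).trans t2
  have t5 : s4 (fun a b c d => F c d a b) = s4 F := (s4_23 fun a b c d => F b d a c).trans t4
  change s4 (fun a b c d => if S a b c d then hq p o a b c d x y else 0) = _
  rw [s4_congr e, s4_add, s4_add, s4_add, s4_add, s4_add, t1, t2, t3, t4, t5]
  ring

end Pull

open Pull in
theorem stL1 : StL1 := by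
  classical
  intro ι _ p ξ o S y o₂ hS hD ho hξ _ ho₂
  rw [Hb_six hS (dx_symm p ξ)]
  set g : ι → ι → ι → ℝ := fun a b c => ell p ξ o a b c (o₂ a b) / d4 (p a) (p b) o (o₂ a b)
    with hg
  set A : ι → ι → ι → ι → ℝ := fun a b c d =>
    if S a b c d then y a b * (SignType.sign (d4 (p a) (p b) (p c) (p d)) : ℝ) * g a b c else 0
    with hA
  have e : ∀ a b c d, (if S a b c d then Rq p o a b c d (dx p ξ) / dn p o a b c d *
      (d4 o (p b) (p c) (p d) * d4 (p a) o (p c) (p d) * y a b) else 0) =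
      -A a b d c - A a b c d := by
    intro a b c d
    simp only [hA, S34 hS a b c d]
    split_ifs with h
    · obtain ⟨la, lb, lc, ld⟩ := L_ne ho (hD _ _ _ _ h)
      have k := key ξ (c := c) lc ld (ho₂ _ _ _ _ h)
      have hd := hD _ _ _ _ h
      have hs : (SignType.sign (d4 (p a) (p b) (p c) (p d)) : ℝ) =
          d4 (p a) (p b) (p c) (p d) / |d4 (p a) (p b) (p c) (p d)| := by
        rw [eq_div_iff (abs_ne_zero.2 hd), sign_mul_abs]
      rw [d4_swap34 (p a) (p b) (p c) (p d), Left.sign_neg, SignType.coe_neg, hs, Rq_dx ξ hξ]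
      simp only [hg]
      rw [show ∀ s t u v : ℝ, -(s * -t * u) - s * t * v = s * t * (u - v) from fun _ _ _ _ => by
        ring, ← k, dn]
      have := abs_ne_zero.2 hd
      field_simp
    · simp
  rw [s4_congr e, s4_sub, s4_neg, s4_34 A]
  have : s4 A = ∑ a, ∑ b, ∑ c,
      y a b * bd p S a b c * ell p ξ o a b c (o₂ a b) / d4 (p a) (p b) o (o₂ a b) := by
    refine Finset.sum_congr rfl fun a _ => Finset.sum_congr rfl fun b _ =>
      Finset.sum_congr rfl fun c _ => ?_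
    rw [mul_div_assoc, bd, Finset.mul_sum, Finset.sum_mul]
    refine Finset.sum_congr rfl fun d _ => ?_
    simp only [hA, hg]
    split_ifs <;> simp
  rw [← this]
  ring

namespace Pull

variable {ι : Type} {p : ι → E4} {w : ι → ℝ}

/-- The plane of `a, b, c` supports the cone. -/
def H3 (p : ι → E4) (a b c : ι) : Prop :=
  ∃ l : E4, l ≠ 0 ∧ (∀ j, 0 ≤ inner ℝ l (p j)) ∧ inner ℝ l (p a) = 0 ∧ inner ℝ l (p b) = 0 ∧
    inner ℝ l (p c) = 0

theorem H3.ab {a b c : ι} (h : H3 p a b c) : Hull p a b :=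
  let ⟨l, h0, h1, h2, h3, _⟩ := h; ⟨l, h0, h1, h2, h3⟩

theorem H3.ac {a b c : ι} (h : H3 p a b c) : Hull p a c :=
  let ⟨l, h0, h1, h2, _, h4⟩ := h; ⟨l, h0, h1, h2, h4⟩

theorem H3.bc {a b c : ι} (h : H3 p a b c) : Hull p b c :=
  let ⟨l, h0, h1, _, h3, h4⟩ := h; ⟨l, h0, h1, h3, h4⟩

theorem H3_of {a b c d : ι} (hd : d4 (p a) (p b) (p c) (p d) ≠ 0)
    (h : ∀ m, 0 ≤ d4 (p a) (p b) (p c) (p m) * d4 (p a) (p b) (p c) (p d)) : H3 p a b c := by
  refine ⟨d4 (p a) (p b) (p c) (p d) • cr (p a) (p b) (p c), fun e => ?_, fun j => ?_, ?_, ?_, ?_⟩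
  · have := congrArg (fun l => inner ℝ l (p d)) e
    simp only [real_inner_smul_left, inner_cr, inner_zero_left, mul_self_eq_zero] at this
    exact hd this
  · rw [real_inner_smul_left, inner_cr, mul_comm]; exact h j
  · rw [real_inner_smul_left, inner_cr, d4_self14, mul_zero]
  · rw [real_inner_smul_left, inner_cr, d4_self24, mul_zero]
  · rw [real_inner_smul_left, inner_cr, d4_self34, mul_zero]

open Classical in
/-- An interior triangle lies in no cell or in exactly one cell on each side. -/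
theorem two_cells [Fintype ι] (hU : StUniq) (hG : StGW2) (hw : Gen p w) {a b c : ι}
    (h : ¬ H3 p a b c) : (∀ d, ¬ Cell p w a b c d) ∨ ∃ d₁ d₂, Cell p w a b c d₁ ∧
      Cell p w a b c d₂ ∧ 0 < d4 (p a) (p b) (p c) (p d₁) ∧ d4 (p a) (p b) (p c) (p d₂) < 0 ∧
      ∀ f : ι → ℝ, (∑ d, if Cell p w a b c d then f d else 0) = f d₁ + f d₂ := by
  by_cases h0 : ∀ d, ¬ Cell p w a b c d
  · exact Or.inl h0
  push Not at h0
  obtain ⟨d, hd⟩ := h0
  obtain ⟨m, hm⟩ : ∃ m, d4 (p a) (p b) (p c) (p m) * d4 (p a) (p b) (p c) (p d) < 0 := by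
    by_contra hm
    push Not at hm
    exact h (H3_of hd.1 hm)
  obtain ⟨d', hd', hs⟩ := hG ι p w hw a b c d m hd hm
  obtain ⟨d₁, d₂, c1, c2, p1, p2⟩ : ∃ d₁ d₂, Cell p w a b c d₁ ∧ Cell p w a b c d₂ ∧
      0 < d4 (p a) (p b) (p c) (p d₁) ∧ d4 (p a) (p b) (p c) (p d₂) < 0 := by
    rcases mul_neg_iff.1 hs with ⟨h1, h2⟩ | ⟨h1, h2⟩
    exacts [⟨d', d, hd', hd, h1, h2⟩, ⟨d, d', hd, hd', h2, h1⟩]
  refine Or.inr ⟨d₁, d₂, c1, c2, p1, p2, fun f => ?_⟩
  have hne : d₁ ≠ d₂ := by rintro rfl; linarith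
  rw [Finset.sum_eq_add_of_mem d₁ d₂ (Finset.mem_univ _) (Finset.mem_univ _) hne, if_pos c1,
    if_pos c2]
  rintro e - ⟨n1, n2⟩
  rw [if_neg]
  intro he
  rcases lt_or_gt_of_ne he.1 with h1 | h1
  · exact n2 (hU ι p w a b c e d₂ he c2 (mul_pos_of_neg_of_neg h1 p2))
  · exact n1 (hU ι p w a b c e d₁ he c1 (mul_pos h1 p1))

theorem bd_zero [Fintype ι] (hU : StUniq) (hG : StGW2) (hw : Gen p w) {a b c : ι}
    (h : ¬ H3 p a b c) : bd p (Cell p w) a b c = 0 := by
  rcases two_cells hU hG hw h with h0 | ⟨d₁, d₂, -, -, p1, p2, hf⟩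
  · simp [bd, h0]
  · rw [bd, hf, sign_pos p1, sign_neg p2]; simp

theorem pl3 (o a b c d e : E4) :
    d4 o b c d * d4 a b c e - d4 o b c e * d4 a b c d = -(d4 a b c o * d4 b c d e) := by
  simp only [d4, m3]; ring

end Pull

open Pull in
theorem stPull (hS : StCellSym) (hU : StUniq) (hG : StGW2) : StPull := by
  classical
  intro ι _ p o w a₀ hE _ ho hw ha y hy hy0
  have hS := hS ι p w
  obtain ⟨z, hz0, hz⟩ := hE a₀
  have hfar : ∀ b c d, Cell p w a₀ b c d →
      ∀ m, 0 ≤ d4 (p b) (p c) (p d) (p m) * d4 (p b) (p c) (p d) (p a₀) := by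
    intro b c d h m
    by_contra hm
    have h' : Cell p w b c d a₀ := (S34 hS ..).1 ((S23 hS ..).1 ((S12 hS ..).1 h))
    obtain ⟨d', hd', hs⟩ := hG ι p w hw b c d a₀ m h' (not_le.1 hm)
    rcases ha _ _ _ _ hd' with rfl | rfl | rfl | rfl
    · exact h.1 (d4_self12 ..)
    · exact h.1 (d4_self13 ..)
    · exact h.1 (d4_self14 ..)
    · exact absurd hs (not_lt.2 (mul_self_nonneg _))
  have hne : ∀ b c d, Cell p w a₀ b c d → b ≠ a₀ ∧ c ≠ a₀ ∧ d ≠ a₀ := by
    intro b c d h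
    refine ⟨?_, ?_, ?_⟩ <;> rintro rfl
    exacts [h.1 (d4_self12 ..), h.1 (d4_self13 ..), h.1 (d4_self14 ..)]
  let ξ : ι → E4 := fun i => if i = a₀ then z else 0
  let u : ι → ℝ := fun j => inner ℝ z (p j)
  let v : ι → ℝ := fun j => y a₀ j / u j
  let y₂ : ι → ι → ℝ := fun a b => dx p ξ a b * (v a ^ 2 + v b ^ 2)
  have hv0 : v a₀ = 0 := by simp [v, u, hz0]
  have hu : ∀ j, 0 ≤ u j := fun j => by
    by_cases h : j = a₀
    · rw [h]; exact hz0.ge
    · exact (hz j h).le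
  have hyv : ∀ j, j ≠ a₀ → y a₀ j = u j * v j := fun j h => by
    have : u j ≠ 0 := (hz j h).ne'
    simp only [v]; field_simp
  have hd1 : ∀ j, j ≠ a₀ → dx p ξ a₀ j = u j := fun j h => by simp [dx, ξ, u, h]
  have hd2 : ∀ j k, j ≠ a₀ → k ≠ a₀ → dx p ξ j k = 0 := fun j k h h' => by simp [dx, ξ, h, h']
  have hξ : ∀ a, inner ℝ (ξ a) (p a) = 0 := fun a => by
    by_cases h : a = a₀
    · simp [ξ, h, hz0]
    · simp [ξ, h]
  have hy₂ : ∀ a b, y₂ a b = y₂ b a := fun a b => by simp only [y₂, dx_symm p ξ a b]; ring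
  have hvH : ∀ j, Hull p a₀ j → v j = 0 := fun j h => by simp [v, hy0 _ _ h]
  have h0 : Hb p o (Cell p w) (dx p ξ) y₂ = 0 := by
    have ex : ∀ a b, ∃ t, ∀ c d, Cell p w a b c d → d4 (p a) (p b) o t ≠ 0 := by
      intro a b
      by_cases h : ∃ c d, Cell p w a b c d
      · obtain ⟨c, d, h⟩ := h
        exact ⟨p d, fun _ _ _ => (L_ne ho h.1).2.2.1⟩
      · exact ⟨0, fun c d k => absurd ⟨c, d, k⟩ h⟩
    choose o₂ ho₂ using ex
    rw [stL1 ι p ξ o _ y₂ o₂ hS (fun _ _ _ _ h => h.1) ho hξ hy₂ fun a b c d h => ho₂ a b c d h]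
    rw [mul_eq_zero]
    refine Or.inr (Finset.sum_eq_zero fun a _ => Finset.sum_eq_zero fun b _ =>
      Finset.sum_eq_zero fun c _ => ?_)
    by_cases h : H3 p a b c
    · have : y₂ a b = 0 := by
        by_cases h1 : a = a₀
        · subst h1; simp [y₂, hv0, hvH b h.ab]
        by_cases h2 : b = a₀
        · subst h2
          obtain ⟨l, k0, k1, k2, k3⟩ := h.ab
          simp [y₂, hv0, hvH a ⟨l, k0, k1, k3, k2⟩]
        simp [y₂, hd2 a b h1 h2]
      simp [this]
    · simp [bd_zero hU hG hw h]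
  set E : ι → ι → ι → ι → ℝ := fun a b c d => if Cell p w a b c d then
    hq p o a b c d y y - hq p o a b c d (dx p ξ) y₂ else 0 with hEdef
  have E12 : ∀ a b c d, E b a c d = E a b c d := fun a b c d => by
    simp only [hEdef, hq_eq, S12 hS a b c d, Rq12 hy a b c d, Rq12 hy₂ a b c d,
      Rq12 (dx_symm p ξ) a b c d, dn12 a b c d]
  have E23 : ∀ a b c d, E a c b d = E a b c d := fun a b c d => by
    simp only [hEdef, hq_eq, S23 hS a b c d, Rq23 hy a b c d, Rq23 hy₂ a b c d,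
      Rq23 (dx_symm p ξ) a b c d, dn23 a b c d]
  have E34 : ∀ a b c d, E a b d c = E a b c d := fun a b c d => by
    simp only [hEdef, hq_eq, S34 hS a b c d, Rq34 hy a b c d, Rq34 hy₂ a b c d,
      Rq34 (dx_symm p ξ) a b c d, dn34 a b c d]
  set N : ι → ι → ι → ℝ := fun b c d => if Cell p w a₀ b c d then
    -(u b * u c * (v b - v c) ^ 2) * (d4 o (p b) (p c) (p d) /
      (|d4 (p a₀) (p b) (p c) (p d)| * d4 (p a₀) (p b) (p c) o)) else 0 with hN
  have hEN : ∀ b c d, E a₀ b c d = N b c d + N b d c + N c d b := by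
    intro b c d
    have s1 : Cell p w a₀ c d b ↔ Cell p w a₀ b c d := (S34 hS ..).trans (S23 hS ..)
    simp only [hEdef, hN, S34 hS a₀ b c d, s1]
    split_ifs with h
    · obtain ⟨nb, nc, nd⟩ := hne b c d h
      obtain ⟨la, lb, lc, ld⟩ := L_ne ho h.1
      have h3 : H3 p b c d := H3_of (by rw [d4_rot]; exact neg_ne_zero.2 h.1) (hfar b c d h)
      have e1 : d4 o (p c) (p d) (p b) = d4 o (p b) (p c) (p d) := by simp only [d4, m3]; ring
      have e2 : d4 (p a₀) (p c) (p d) (p b) = d4 (p a₀) (p b) (p c) (p d) := by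
        simp only [d4, m3]; ring
      have e3 : d4 (p a₀) (p c) (p d) o = d4 (p a₀) o (p c) (p d) := by simp only [d4, m3]; ring
      rw [e1, e2, e3, d4_swap34 o (p b) (p c) (p d), d4_swap34 (p a₀) (p b) (p c) (p d), abs_neg,
        d4_swap34 (p a₀) (p b) o (p d)]
      simp only [hq, Rq, y₂, hy0 _ _ h3.ab, hy0 _ _ h3.ac, hy0 _ _ h3.bc, hyv _ nb, hyv _ nc,
        hyv _ nd, hd1 _ nb, hd1 _ nc, hd1 _ nd, hd2 _ _ nb nc, hd2 _ _ nb nd, hd2 _ _ nc nd, hv0]
      have := abs_ne_zero.2 h.1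
      field_simp
      ring
    · simp
  have hN0 : ∀ b c, 0 ≤ ∑ d, N b c d := by
    intro b c
    by_cases h : H3 p a₀ b c
    · simp [hN, hvH b h.ab, hvH c h.ac]
    rcases two_cells hU hG hw h with h0 | ⟨d₁, d₂, c1, c2, p1, p2, hf⟩
    · simp [hN, h0]
    · simp only [hN]
      rw [hf, ← mul_add, abs_of_pos p1, abs_of_neg p2]
      refine mul_nonneg_of_nonpos_of_nonpos (neg_nonpos.2 ?_) ?_
      · have := hu b
        have := hu c
        positivity
      have l0 := (L_ne ho c1.1).2.2.2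
      have k := pl3 o (p a₀) (p b) (p c) (p d₁) (p d₂)
      have k1 := hfar b c d₁ c1 d₂
      rw [d4_rot (p a₀)] at k1
      have k2 : d4 (p b) (p c) (p d₁) (p d₂) ≤ 0 := by nlinarith
      have k3 : d4 o (p b) (p c) (p d₁) / (d4 (p a₀) (p b) (p c) (p d₁) * d4 (p a₀) (p b) (p c) o) +
          d4 o (p b) (p c) (p d₂) / (-d4 (p a₀) (p b) (p c) (p d₂) * d4 (p a₀) (p b) (p c) o) =
          d4 (p b) (p c) (p d₁) (p d₂) /
            (d4 (p a₀) (p b) (p c) (p d₁) * -d4 (p a₀) (p b) (p c) (p d₂)) := by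
        have := p1.ne'
        have := p2.ne
        field_simp
        linear_combination k
      rw [k3]
      exact div_nonpos_of_nonpos_of_nonneg k2 (mul_pos p1 (neg_pos.2 p2)).le
  set E' : ι → ι → ι → ι → ℝ := fun a b c d => if a = a₀ then E a b c d else 0 with hE'
  have hsplit : ∀ a b c d, E a b c d = E' a b c d + E' b a c d + E' c a b d + E' d a b c := by
    intro a b c d
    have q1 : E c a b d = E a b c d := (E12 ..).trans (E23 ..)
    have q2 : E d a b c = E a b c d := (E12 ..).trans ((E23 ..).trans (E34 ..))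
    simp only [hE', E12 a b c d, q1, q2]
    by_cases h : Cell p w a b c d
    · have n1 : a ≠ b := by rintro rfl; exact h.1 (d4_self12 ..)
      have n2 : a ≠ c := by rintro rfl; exact h.1 (d4_self13 ..)
      have n3 : a ≠ d := by rintro rfl; exact h.1 (d4_self14 ..)
      have n4 : b ≠ c := by rintro rfl; exact h.1 (d4_self23 ..)
      have n5 : b ≠ d := by rintro rfl; exact h.1 (d4_self24 ..)
      have n6 : c ≠ d := by rintro rfl; exact h.1 (d4_self34 ..)
      rcases ha _ _ _ _ h with rfl | rfl | rfl | rfl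
      · simp [n1.symm, n2.symm, n3.symm]
      · simp [n1, n4.symm, n5.symm]
      · simp [n2, n4, n6.symm]
      · simp [n3, n5, n6]
    · simp [hEdef, h]
  have hE0 : 0 ≤ s4 E' := by
    have e1 : s4 E' = ∑ b, ∑ c, ∑ d, E a₀ b c d := by
      rw [s4, Finset.sum_eq_single a₀ (fun a _ h => by simp [hE', h]) (by simp)]
      simp [hE']
    have t0 : 0 ≤ ∑ b, ∑ c, ∑ d, N b c d :=
      Finset.sum_nonneg fun b _ => Finset.sum_nonneg fun c _ => hN0 b c
    have t1 : ∑ b, ∑ c, ∑ d, N b d c = ∑ b, ∑ c, ∑ d, N b c d :=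
      Finset.sum_congr rfl fun _ _ => Finset.sum_comm
    have t2 : ∑ b, ∑ c, ∑ d, N c d b = ∑ b, ∑ c, ∑ d, N b c d :=
      Finset.sum_comm.trans t1
    simp only [e1, hEN, Finset.sum_add_distrib, t1, t2]
    linarith
  have t1 : s4 (fun a b c d => E' b a c d) = s4 E' := s4_12 E'
  have t2 : s4 (fun a b c d => E' c a b d) = s4 E' := (s4_23 fun a b c d => E' b a c d).trans t1
  have t3 : s4 (fun a b c d => E' d a b c) = s4 E' := (s4_34 fun a b c d => E' c a b d).trans t2
  have hfin : Hb p o (Cell p w) y y - Hb p o (Cell p w) (dx p ξ) y₂ = s4 E := by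
    change s4 _ - s4 _ = _
    rw [← s4_sub]
    refine s4_congr fun a b c d => ?_
    simp only [hEdef]
    split_ifs <;> simp
  rw [s4_congr hsplit, s4_add, s4_add, s4_add, t1, t2, t3, h0] at hfin
  linarith

end Pool.Agent.Lib.MP_34b931_co.G
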