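import Pool.Agent.Lib.MP_34b931_co.H22Tri

/-! Flips of spherical ball-polyhedra, regularity of generic states, sign conditions. -/

namespace Pool.Agent.Lib.MP_34b931_co.G

open Filter Topology

namespace RegJ

variable {ι : Type} {τ : ℝ} {u : ι → E4} {T T' : Tri ι} {x y : E4} {a b c d : ι}

/-- The development at the vertex `x`. -/
noncomputable def dv (τ : ℝ) (u : ι → E4) (x : E4) (i : ι) : E3 := (√(1 - τ ^ 2))⁻¹ • fr x (u i)

theorem dv_inner (hτ : τ ^ 2 < 1) (hx : ‖x‖ = 1) {i j : ι} (hi : Act τ u x i)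
    (hj : Act τ u x j) : inner ℝ (dv τ u x i) (dv τ u x j) = gm τ u i j := by
  have h1 : 0 < 1 - τ ^ 2 := by linarith
  have h2 : √(1 - τ ^ 2) * √(1 - τ ^ 2) = 1 - τ ^ 2 := Real.mul_self_sqrt h1.le
  have h3 : 0 < √(1 - τ ^ 2) := Real.sqrt_pos.2 h1
  unfold Act at hi hj
  simp only [dv, real_inner_smul_left, real_inner_smul_right, fr_inner hx, hi, hj, gm]
  rw [← mul_assoc, ← mul_inv, h2, div_eq_inv_mul, sq]

theorem dv_pos (hτ : τ ^ 2 < 1) (hx : ‖x‖ = 1) (h : 0 < d4 (u a) (u b) (u c) x) :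
    0 < d3 (dv τ u x a) (dv τ u x b) (dv τ u x c) := by
  have h3 : 0 < √(1 - τ ^ 2) := Real.sqrt_pos.2 (by linarith)
  have : d3 (dv τ u x a) (dv τ u x b) (dv τ u x c) =
      (√(1 - τ ^ 2))⁻¹ ^ 3 * d4 (u a) (u b) (u c) x := by
    rw [← fr_d3 hx]
    simp only [dv, d3, PiLp.smul_apply, smul_eq_mul]
    ring
  rw [this]
  positivity

theorem dv_dev (hτ : τ ^ 2 < 1) (hx : ‖x‖ = 1) (ha : Act τ u x a) (hb : Act τ u x b)
    (hc : Act τ u x c) (h : 0 < d4 (u a) (u b) (u c) x) : Dev (gm τ u) (dv τ u x) a b c := by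
  refine ⟨fun i j hi hj => dv_inner hτ hx ?_ ?_, dv_pos hτ hx h⟩
  · rcases hi with rfl | rfl | rfl <;> assumption
  · rcases hj with rfl | rfl | rfl <;> assumption

theorem dv_norm (hτ : τ ^ 2 < 1) (hu : Un u) (hx : ‖x‖ = 1) (ha : Act τ u x a) :
    ‖dv τ u x a‖ = 1 := by
  have h := dv_inner hτ hx ha ha
  have h1 : 0 < 1 - τ ^ 2 := by linarith
  rw [real_inner_self_eq_norm_sq, gm, real_inner_self_eq_norm_sq, hu a, one_pow,
    div_self h1.ne'] at h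
  exact (pow_eq_one_iff_of_nonneg (norm_nonneg _) two_ne_zero).1 h

theorem quad_dg (hτ : τ ^ 2 < 1) (hu : Un u) (q : QuadAt τ u x a b c d) :
    Dg (gm τ u) a b c d = 0 := by
  obtain ⟨p, h1, h2, h3, h4, -⟩ := q
  exact Dg_eq_zero (dv_norm hτ hu p.1 h1) (dv_norm hτ hu p.1 h2) (dv_norm hτ hu p.1 h3)
    (dv_norm hτ hu p.1 h4) (dv_inner hτ p.1 h1 h2) (dv_inner hτ p.1 h1 h3)
    (dv_inner hτ p.1 h1 h4) (dv_inner hτ p.1 h2 h3) (dv_inner hτ p.1 h2 h4)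
    (dv_inner hτ p.1 h3 h4)

theorem ne_of_pos (h : 0 < d4 (u a) (u b) (u c) x) : a ≠ b ∧ a ≠ c ∧ b ≠ c := by
  refine ⟨?_, ?_, ?_⟩ <;> rintro rfl
  · rw [d4_self12] at h; exact lt_irrefl _ h
  · rw [d4_self13] at h; exact lt_irrefl _ h
  · rw [d4_self23] at h; exact lt_irrefl _ h

theorem same_vtx (hx : ‖x‖ = 1) (hy : ‖y‖ = 1) (a1 : Act τ u x a) (b1 : Act τ u x b)
    (c1 : Act τ u x c) (a2 : Act τ u y a) (b2 : Act τ u y b) (c2 : Act τ u y c)
    (p1 : 0 < d4 (u a) (u b) (u c) x) (p2 : 0 < d4 (u a) (u b) (u c) y) : x = y :=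
  vtx_unique hx hy (a1.trans a2.symm) (b1.trans b2.symm) (c1.trans c2.symm) p1 p2

/-- Data of a face at a vertex are invariant under rotation. -/
theorem rot_data {p q r : ι} (h : Rot a b c p q r) :
    (Act τ u x a ∧ Act τ u x b ∧ Act τ u x c ∧ 0 < d4 (u a) (u b) (u c) x) ↔
      (Act τ u x p ∧ Act τ u x q ∧ Act τ u x r ∧ 0 < d4 (u p) (u q) (u r) x) := by
  rcases h with ⟨rfl, rfl, rfl⟩ | ⟨rfl, rfl, rfl⟩ | ⟨rfl, rfl, rfl⟩
  · rfl
  · rw [d4_cyc (u r) (u p) (u q)]; grind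
  · rw [← d4_cyc (u p) (u q) (u r)]; grind

theorem good_flip (g : Good τ u T) (q : QuadAt τ u x a b c d) (f : IsFlip T T' a b c d) :
    Good τ u T' := by
  obtain ⟨p, h1, h2, h3, h4, k1, k2, k3, k4⟩ := q
  refine ⟨g.un, fun i j k hF => ?_, fun y i j s => ?_⟩
  · rcases (f.2.2.2 _ _ _).1 hF with h | r | r
    · exact g.vtx _ _ _ h.1
    · exact ⟨x, p, (rot_data r).1 ⟨h1, h2, h4, k3⟩⟩
    · exact ⟨x, p, (rot_data r).1 ⟨h2, h3, h4, k4⟩⟩
  obtain ⟨k, hF, hk⟩ := g.side y i j s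
  have pos := s.2.2.2.2.2 k (Tri.ne13 hF).symm (Tri.ne23 hF).symm hk
  by_cases r1 : Rot a b c i j k
  · obtain ⟨e1, e2, e3, e4⟩ := (rot_data r1).2 ⟨s.2.2.1, s.2.2.2.1, hk, pos⟩
    obtain rfl := same_vtx p.1 s.1.1 h1 h2 h3 e1 e2 e3 k1 e4
    rcases r1 with ⟨rfl, rfl, rfl⟩ | ⟨rfl, rfl, rfl⟩ | ⟨rfl, rfl, rfl⟩
    · exact ⟨d, f.abd, h4⟩
    · exact ⟨d, f.bcd, h4⟩
    · have := s.2.2.2.2.2 d (ne_of_pos k2).2.2.symm (ne_of_pos k2).2.1.symm h4
      rw [d4_swap12] at this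
      linarith
  by_cases r2 : Rot a c d i j k
  · obtain ⟨e1, e2, e3, e4⟩ := (rot_data r2).2 ⟨s.2.2.1, s.2.2.2.1, hk, pos⟩
    obtain rfl := same_vtx p.1 s.1.1 h1 h3 h4 e1 e2 e3 k2 e4
    rcases r2 with ⟨rfl, rfl, rfl⟩ | ⟨rfl, rfl, rfl⟩ | ⟨rfl, rfl, rfl⟩
    · have := s.2.2.2.2.2 b (ne_of_pos k1).1.symm (ne_of_pos k1).2.2 h2
      rw [d4_swap23] at this
      linarith
    · exact ⟨b, T'.cyc f.bcd, h2⟩
    · exact ⟨b, Tri.cyc2 f.abd, h2⟩
  exact ⟨k, (f.2.2.2 _ _ _).2 (Or.inl ⟨hF, r1, r2⟩), hk⟩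

theorem step_flip (h1 : StMet) (hτ : τ ^ 2 < 1) (g : Good τ u T) (q : QuadAt τ u x a b c d)
    (f : IsFlip T T' a b c d) : Step (T, gm τ u) (T', gm τ u) := by
  refine ⟨h1 _ _ _ _ hτ g, h1 _ _ _ _ hτ (good_flip g q f), fun _ _ _ _ => rfl, Or.inr ?_⟩
  obtain ⟨p, e1, e2, e3, e4, k1, k2, k3, k4⟩ := q
  exact ⟨a, b, c, d, dv τ u x, f, dv_dev hτ p.1 e1 e2 e3 k1, dv_dev hτ p.1 e1 e3 e4 k2,
    dv_dev hτ p.1 e1 e2 e4 k3, dv_dev hτ p.1 e2 e3 e4 k4⟩

theorem quad_side (g : Good τ u T) (l : Loc0 τ u) (q : QuadAt τ u x a b c d) :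
    T.F a b c ∨ T.F a b d := by
  have five := fun e => l.five x a b c d e q
  obtain ⟨p, h1, h2, h3, h4, k1, k2, k3, k4⟩ := q
  have s : SideAt τ u x a b := by
    refine ⟨p, (ne_of_pos k1).1, h1, h2,
      ⟨c, (ne_of_pos k1).2.1.symm, (ne_of_pos k1).2.2.symm, h3⟩, fun e n1 n2 he => ?_⟩
    rcases five e he with rfl | rfl | rfl | rfl
    exacts [absurd rfl n1, absurd rfl n2, k1, k3]
  obtain ⟨e, hF, he⟩ := g.side x a b s
  rcases five e he with rfl | rfl | rfl | rfl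
  exacts [absurd rfl (Tri.ne13 hF), absurd rfl (Tri.ne23 hF), Or.inl hF, Or.inr hF]

theorem type0 (g : Good τ u T) (l : Loc0 τ u) (q : QuadAt τ u x a b c d) :
    (T.F a b c ∧ T.F a c d) ∨ (T.F b c d ∧ T.F b d a) := by
  have n := ne_of_pos q.2.2.2.2.2.2.1
  rcases quad_side g l q with h | h
  · rcases quad_side g l q.rot.rot with h' | h'
    · exact Or.inl ⟨h, Tri.cyc2 h'⟩
    · exact absurd (T.uniq (T.cyc h) (Tri.cyc2 h')) n.2.1
  · rcases quad_side g l q.rot with h' | h'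
    · exact Or.inr ⟨h', T.cyc h⟩
    · exact absurd (T.uniq (Tri.cyc2 h') h) n.2.2

theorem typeAC (hτ : τ ^ 2 < 1) (g : Good τ u T) (l : Loc0 τ u) (w : WFree T (gm τ u))
    (q : QuadAt τ u x a b c d) (h : T.adj a c) : T.F a b c ∧ T.F a c d := by
  rcases type0 g l q with k | ⟨k1, k2⟩
  · exact k
  · exact absurd (quad_dg hτ g.un q) (w a b c d (Tri.adj31 k2) h (Tri.adj32 k2) (Tri.adj12 k1)
      (Tri.adj12 k2) (Tri.adj23 k1))

theorem uniqAC {b' d' : ι} (hτ : τ ^ 2 < 1) (g : Good τ u T) (l : Loc0 τ u)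
    (w : WFree T (gm τ u)) (q : QuadAt τ u x a b c d) (q' : QuadAt τ u y a b' c d')
    (h : T.adj a c) : x = y := by
  obtain rfl := T.uniq (typeAC hτ g l w q h).2 (typeAC hτ g l w q' h).2
  exact same_vtx q.1.1 q'.1.1 q.2.1 q.2.2.2.1 q.2.2.2.2.1 q'.2.1 q'.2.2.2.1 q'.2.2.2.2.1
    q.2.2.2.2.2.2.1 q'.2.2.2.2.2.2.1

/-- Tuples where the triangulation does not follow the choice. -/
def Bad (τ : ℝ) (u : ι → E4) (Ch : ι → ι → ι → ι → Prop) (T : Tri ι) : Set (ι × ι × ι × ι) :=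
  {t | (∃ x, QuadAt τ u x t.1 t.2.1 t.2.2.1 t.2.2.2) ∧ T.F t.1 t.2.1 t.2.2.1 ∧
    ¬ Ch t.1 t.2.1 t.2.2.1 t.2.2.2}

theorem bad_flip {Ch : ι → ι → ι → ι → Prop} (l : Loc0 τ u) (q : QuadAt τ u x a b c d)
    (f : IsFlip T T' a b c d) (c1 : Ch b c d a) (c2 : Ch d a b c) :
    Bad τ u Ch T' ⊆ Bad τ u Ch T := by
  rintro ⟨i, j, k, m⟩ ⟨⟨y, q'⟩, hF, hC⟩
  refine ⟨⟨y, q'⟩, ?_, hC⟩
  simp only at q' hF hC ⊢
  have five := l.five x a b c d m q
  obtain ⟨p, h1, h2, h3, h4, k1, k2, k3, k4⟩ := q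
  obtain ⟨p', e1, e2, e3, e4, j1, j2, j3, j4⟩ := q'
  have n2 := ne_of_pos j2
  have n4 := ne_of_pos j4
  rcases (f.2.2.2 _ _ _).1 hF with h | r | r
  · exact h.1
  · obtain ⟨o1, o2, o3, o4⟩ := (rot_data r).1 ⟨h1, h2, h4, k3⟩
    obtain rfl := same_vtx p.1 p'.1 o1 o2 o3 e1 e2 e3 o4 j1
    have hm : m = c := by unfold Rot at r; grind
    subst hm
    exfalso
    rcases r with ⟨rfl, rfl, rfl⟩ | ⟨rfl, rfl, rfl⟩ | ⟨rfl, rfl, rfl⟩
    · rw [d4_swap23] at j4; linarith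
    · rw [d4_swap12] at j2; linarith
    · exact hC c2
  · obtain ⟨o1, o2, o3, o4⟩ := (rot_data r).1 ⟨h2, h3, h4, k4⟩
    obtain rfl := same_vtx p.1 p'.1 o1 o2 o3 e1 e2 e3 o4 j1
    have hm : m = a := by unfold Rot at r; grind
    subst hm
    exfalso
    rcases r with ⟨rfl, rfl, rfl⟩ | ⟨rfl, rfl, rfl⟩ | ⟨rfl, rfl, rfl⟩
    · exact hC c1
    · rw [d4_swap12, d4_cyc] at j2; linarith
    · rw [d4_swap12, d4_cyc] at j2; linarith

theorem sq_lt (h0 : 0 ≤ τ) (h1 : τ < 1) : τ ^ 2 < 1 := by nlinarith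

/-- Determinant of a symmetric `4 × 4` matrix. -/
def GD (aa bb cc dd ab ac ad bc bd cd : ℝ) : ℝ :=
  aa * bb * cc * dd - ab ^ 2 * cc * dd - ac ^ 2 * bb * dd - ad ^ 2 * bb * cc - bc ^ 2 * aa * dd
    - bd ^ 2 * aa * cc - cd ^ 2 * aa * bb + 2 * ab * bc * ac * dd + 2 * ab * bd * ad * cc
    + 2 * ac * cd * ad * bb + 2 * bc * cd * bd * aa + ab ^ 2 * cd ^ 2 + ac ^ 2 * bd ^ 2
    + ad ^ 2 * bc ^ 2 - 2 * ab * bc * cd * ad - 2 * ab * bd * cd * ac - 2 * ac * bc * bd * ad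

/-- Determinant of a symmetric `3 × 3` matrix. -/
def GT (aa bb cc ab ac bc : ℝ) : ℝ :=
  aa * bb * cc + 2 * ab * bc * ac - aa * bc ^ 2 - bb * ac ^ 2 - cc * ab ^ 2

theorem gd_frame (A B C D : E3) (σ t : ℝ) :
    GD (inner ℝ A A) (inner ℝ B B) (inner ℝ C C) (inner ℝ D D + 2 * σ * t + t ^ 2) (inner ℝ A B)
      (inner ℝ A C) (inner ℝ A D + σ * t) (inner ℝ B C) (inner ℝ B D + σ * t)
      (inner ℝ C D + σ * t) =
    t * (2 * ((σ + t) * d3 A B C - σ * d3 A B D + σ * d3 A C D - σ * d3 B C D) * d3 A B C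
      - t * GT (inner ℝ A A + σ ^ 2) (inner ℝ B B + σ ^ 2) (inner ℝ C C + σ ^ 2)
        (inner ℝ A B + σ ^ 2) (inner ℝ A C + σ ^ 2) (inner ℝ B C + σ ^ 2)) := by
  simp only [GD, GT, inner3, d3]
  ring

theorem d4_expand (a b c d y : E4) : ‖y‖ ^ 2 * d4 a b c d = inner ℝ d y * d4 a b c y
    - inner ℝ c y * d4 a b d y + inner ℝ b y * d4 a c d y - inner ℝ a y * d4 b c d y := by
  simp only [norm4, inner4, d4, m3]
  ring

/-- The Gram determinant in terms of the slack of the fourth constraint. -/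
theorem dg_slack (hτ : τ ^ 2 < 1) (hu : Un u) (hx : ‖x‖ = 1) (ha : Act τ u x a)
    (hb : Act τ u x b) (hc : Act τ u x c) :
    (1 - τ ^ 2) ^ 4 * Dg (gm τ u) a b c d = (inner ℝ (u d) x - τ) *
      (2 * d4 (u a) (u b) (u c) (u d) * d4 (u a) (u b) (u c) x - (inner ℝ (u d) x - τ) *
        GT 1 1 1 (inner ℝ (u a) (u b)) (inner ℝ (u a) (u c)) (inner ℝ (u b) (u c))) := by
  have h1 : 1 - τ ^ 2 ≠ 0 := by linarith
  have e := gd_frame (fr x (u a)) (fr x (u b)) (fr x (u c)) (fr x (u d)) τ (inner ℝ (u d) x - τ)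
  have e2 := d4_expand (u a) (u b) (u c) (u d) x
  unfold Act at ha hb hc
  simp only [fr_inner hx, fr_d3 hx, real_inner_self_eq_norm_sq, hu a, hu b, hu c, hu d, ha, hb,
    hc] at e
  rw [hx, ha, hb, hc, one_pow, one_mul] at e2
  have e3 : (1 - τ ^ 2) ^ 4 * Dg (gm τ u) a b c d = GD (1 - τ ^ 2) (1 - τ ^ 2) (1 - τ ^ 2)
      (1 - τ ^ 2) (inner ℝ (u a) (u b) - τ ^ 2) (inner ℝ (u a) (u c) - τ ^ 2)
      (inner ℝ (u a) (u d) - τ ^ 2) (inner ℝ (u b) (u c) - τ ^ 2) (inner ℝ (u b) (u d) - τ ^ 2)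
      (inner ℝ (u c) (u d) - τ ^ 2) := by
    simp only [Dg, gm, GD]
    field_simp
  rw [e3, e2]
  simp only [GD, GT] at e ⊢
  linear_combination e

theorem vtx_unique' {a b c x y : E4} (hx : ‖x‖ = 1) (hy : ‖y‖ = 1)
    (ha : inner ℝ a x = inner ℝ a y) (hb : inner ℝ b x = inner ℝ b y)
    (hc : inner ℝ c x = inner ℝ c y) (px : 0 < d4 a b c x) (py : 0 ≤ d4 a b c y) : x = y := by
  have h0 : inner ℝ (x + y) (x - y) = (0 : ℝ) := by
    rw [inner_add_left, inner_sub_right, inner_sub_right, real_inner_self_eq_norm_sq,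
      real_inner_self_eq_norm_sq, hx, hy, real_inner_comm]; ring
  have h1 : d4 a b c (x + y) = d4 a b c x + d4 a b c y := by
    rw [← inner_cr, ← inner_cr, ← inner_cr, inner_add_right]
  refine sub_eq_zero.1 (eq_zero_of_inner4 (a := a) (b := b) (c := c) (d := x + y)
    (by rw [h1]; positivity) ?_ ?_ ?_ h0) <;> rw [inner_sub_right] <;> linarith

end RegJ

open RegJ

theorem stFlipAll (h1 : StMet) (h2 : StType) : StFlipAll := by
  intro ι _ τ u T Ch hR c1 c2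
  induction hn : (Bad τ u Ch T).ncard using Nat.strong_induction_on generalizing T with
  | _ n ih =>
  by_cases he : ∀ x a b c d, QuadAt τ u x a b c d → T.F a b c → Ch a b c d
  · exact ⟨T, hR, Relation.ReflTransGen.refl, he⟩
  push Not at he
  obtain ⟨x, a, b, c, d, q, hF, hC⟩ := he
  obtain ⟨-, k2, k3⟩ := ((h2 ι τ u T hR).1 x a b c d q).resolve_right
    fun h => h.2.2 (Tri.adj13 hF)
  obtain ⟨T', f⟩ := exists_flip hF k2 k3
  have c3 := (c1 x a b c d q).resolve_left hC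
  have sub : Bad τ u Ch T' ⊂ Bad τ u Ch T := by
    refine ⟨bad_flip hR.loc q f c3 (c2 _ _ _ _ c3), fun h => ?_⟩
    have := (h (a := (a, b, c, d)) ⟨⟨x, q⟩, hF, hC⟩).2.1
    exact Tri.ne23 k2 (T'.uniq this f.abd)
  obtain ⟨T₁, r1, r2, r3⟩ := ih _ (hn ▸ Set.ncard_lt_ncard sub) T'
    ⟨hR.nn, hR.lt, good_flip hR.good q f, hR.loc, hR.dside, hR.duniq⟩ rfl
  exact ⟨T₁, r1, Relation.ReflTransGen.head
    (step_flip h1 (sq_lt hR.nn hR.lt) hR.good q f) r2, r3⟩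

theorem stGenReg (h1 : StMet) (h2 : StLoc) (h3 : StGenW) (h4 : StGenB) (h5 : StGenStep) :
    StGenReg := by
  intro ι _ τ u T h0 hlt g gen
  have hτ := sq_lt h0 hlt
  have w := h3 ι T _ (h1 ι τ u T hτ g) gen
  have b := h4 ι T τ u g.un h0 hlt gen
  have l := h2 ι τ u T h0 hlt g.un (fun a b c h =>
    let ⟨x, p, e1, e2, e3, _⟩ := g.vtx a b c h; ⟨x, p, e1, e2, e3⟩) w b.1 b.2
  refine ⟨h0, hlt, g, l, fun x y a b c d q s => ?_, fun x y a b c d b' d' q q' => ?_⟩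
  · obtain ⟨e, hF, he⟩ := g.side y a c s
    obtain rfl := T.uniq hF (typeAC hτ g l w q ⟨e, hF⟩).2
    obtain ⟨p, e1, e2, e3, e4, k1, k2, k3, k4⟩ := q
    obtain rfl := same_vtx p.1 s.1.1 e1 e3 e4 s.2.2.1 s.2.2.2.1 he k2
      (s.2.2.2.2.2 e (Tri.ne13 hF).symm (Tri.ne23 hF).symm he)
    have := s.2.2.2.2.2 b (ne_of_pos k1).1.symm (ne_of_pos k1).2.2 e2
    rw [d4_swap23] at this
    linarith
  · by_cases h : T.adj a c
    · exact uniqAC hτ g l w q q' h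
    obtain ⟨k1, k2⟩ := (type0 g l q).resolve_left fun k => h (Tri.adj13 k.1)
    obtain ⟨T', f⟩ := exists_flip k1 k2 fun k => h k.symm
    have st := step_flip h1 hτ g q.rot f
    exact uniqAC hτ (good_flip g q.rot f) l (h3 ι T' _ st.2.1 (h5 ι _ _ st gen)) q q'
      (Tri.adj32 f.abd)

theorem stDg : StDg := by
  intro ι _ τ u hτ hu
  have key : ∀ a b c d : ι, ∀ᶠ G : ι → ι → ℝ in 𝓝 (gm τ u), ∀ x, QuadAt τ u x a b c d →
      G a b = gm τ u a b → G a c = gm τ u a c → G a d = gm τ u a d → G b c = gm τ u b c →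
      G c d = gm τ u c d → ∃ L, 0 < L ∧ Dg G a b c d = L * (G b d - gm τ u b d) := by
    intro a b c d
    by_cases hq : ∃ x, QuadAt τ u x a b c d
    swap
    · exact Eventually.of_forall fun G x q => absurd ⟨x, q⟩ hq
    obtain ⟨x, q⟩ := hq
    have z := quad_dg hτ hu q
    obtain ⟨p, e1, e2, e3, e4, k1, k2, -⟩ := q
    set g := gm τ u with hg
    let L : (ι → ι → ℝ) → ℝ := fun G => (g a c ^ 2 - 1) * (G b d + g b d) +
      2 * (g a b * g a d + g b c * g c d - g a b * g c d * g a c - g a c * g b c * g a d)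
    have hL : Continuous L := by fun_prop
    have pos : 0 < L g := by
      have m := d3_mul (dv τ u x a) (dv τ u x c) (dv τ u x d) (dv τ u x a) (dv τ u x b)
        (dv τ u x c)
      have m2 := mul_pos (dv_pos hτ p.1 k2) (dv_pos hτ p.1 k1)
      rw [m, real_inner_comm (dv τ u x a) (dv τ u x c), real_inner_comm (dv τ u x b) (dv τ u x c),
        real_inner_comm (dv τ u x a) (dv τ u x d), real_inner_comm (dv τ u x b) (dv τ u x d),
        real_inner_comm (dv τ u x c) (dv τ u x d), real_inner_self_eq_norm_sq,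
        real_inner_self_eq_norm_sq, dv_norm hτ hu p.1 e1, dv_norm hτ hu p.1 e3,
        dv_inner hτ p.1 e1 e2, dv_inner hτ p.1 e1 e3, dv_inner hτ p.1 e1 e4,
        dv_inner hτ p.1 e2 e3, dv_inner hτ p.1 e2 e4, dv_inner hτ p.1 e3 e4, ← hg] at m2
      simp only [L]
      linarith
    filter_upwards [hL.continuousAt.eventually (lt_mem_nhds pos)] with G hG _ _ s1 s2 s3 s4 s5
    refine ⟨L G, hG, ?_⟩
    simp only [Dg, L, s1, s2, s3, s4, s5] at z ⊢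
    linear_combination z
  have := eventually_all.2 fun a => eventually_all.2 fun b => eventually_all.2 fun c =>
    eventually_all.2 fun d => key a b c d
  filter_upwards [this] with G hG x a b c d using hG a b c d x

theorem stNec : StNec := by
  intro ι _ τ u hτ
  have key : ∀ a b c d : ι, ∀ᶠ q : ℝ × (ι → E4) in 𝓝 (τ, u), ∀ x, QuadAt τ u x a b c d →
      ∀ T : Tri ι, Good q.1 q.2 T → T.F a b c →
        0 ≤ d4 (u a) (u b) (u c) (u d) * Dg (gm q.1 q.2) a b c d := by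
    intro a b c d
    by_cases hq : ∃ x, QuadAt τ u x a b c d
    swap
    · exact Eventually.of_forall fun G x q => absurd ⟨x, q⟩ hq
    by_cases hδ : d4 (u a) (u b) (u c) (u d) = 0
    · exact Eventually.of_forall fun G x q T _ _ => by rw [hδ, zero_mul]
    obtain ⟨x, p, e1, e2, e3, e4, k1, -⟩ := hq
    let f : (ℝ × (ι → E4)) × E4 → ℝ := fun z => d4 (u a) (u b) (u c) (u d) *
      (2 * d4 (z.1.2 a) (z.1.2 b) (z.1.2 c) (z.1.2 d) * d4 (z.1.2 a) (z.1.2 b) (z.1.2 c) z.2 -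
        (inner ℝ (z.1.2 d) z.2 - z.1.1) * GT 1 1 1 (inner ℝ (z.1.2 a) (z.1.2 b))
          (inner ℝ (z.1.2 a) (z.1.2 c)) (inner ℝ (z.1.2 b) (z.1.2 c)))
    have hf : Continuous f := by
      simp only [f, GT]
      fun_prop
    let C : Set ((ℝ × (ι → E4)) × E4) := {z | inner ℝ (z.1.2 a) z.2 = z.1.1} ∩
      ({z | inner ℝ (z.1.2 b) z.2 = z.1.1} ∩ ({z | inner ℝ (z.1.2 c) z.2 = z.1.1} ∩
        {z | 0 ≤ d4 (z.1.2 a) (z.1.2 b) (z.1.2 c) z.2}))
    have hC : IsClosed C := by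
      refine (isClosed_eq ?_ ?_).inter ((isClosed_eq ?_ ?_).inter ((isClosed_eq ?_ ?_).inter
        (isClosed_le ?_ ?_))) <;> fun_prop
    have ev : ∀ᶠ q : ℝ × (ι → E4) in 𝓝 (τ, u), ∀ y ∈ Metric.sphere (0 : E4) 1,
        (q, y) ∈ C → 0 < f (q, y) := by
      refine (isCompact_sphere (0 : E4) 1).eventually_forall_of_forall_eventually
        (P := fun q y => (q, y) ∈ C → 0 < f (q, y)) fun y hy => ?_
      by_cases hm : ((τ, u), y) ∈ C
      · obtain rfl : x = y := vtx_unique' p.1 (mem_sphere_zero_iff_norm.1 hy)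
          (e1.trans hm.1.symm) (e2.trans hm.2.1.symm) (e3.trans hm.2.2.1.symm) k1 hm.2.2.2
        have pos : 0 < f ((τ, u), x) := by
          unfold Act at e4
          simp only [f, e4, sub_self, zero_mul, sub_zero]
          have := mul_pos (sq_pos_of_ne_zero hδ) k1
          linarith
        filter_upwards [hf.continuousAt.eventually (lt_mem_nhds pos)] with z hz _ using hz
      · filter_upwards [hC.isOpen_compl.mem_nhds hm] with z hz h using absurd h hz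
    have ev2 : ∀ᶠ q : ℝ × (ι → E4) in 𝓝 (τ, u), q.1 ^ 2 < 1 :=
      (by fun_prop : Continuous fun q : ℝ × (ι → E4) => q.1 ^ 2).continuousAt.eventually
        (gt_mem_nhds hτ)
    filter_upwards [ev, ev2] with q h1 h2 _ _ T g hF
    obtain ⟨y, p', a1, a2, a3, pos⟩ := g.vtx a b c hF
    have h3 := h1 y (mem_sphere_zero_iff_norm.2 p'.1) ⟨a1, a2, a3, pos.le⟩
    have h4 := dg_slack (d := d) h2 g.un p'.1 a1 a2 a3
    have h5 : 0 < (1 - q.1 ^ 2) ^ 4 := pow_pos (by linarith) 4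
    have h6 := mul_nonneg (sub_nonneg.2 (p'.2 d)) h3.le
    refine nonneg_of_mul_nonneg_right ?_ h5
    rw [mul_left_comm, h4, mul_left_comm]
    exact h6
  have := eventually_all.2 fun a => eventually_all.2 fun b => eventually_all.2 fun c =>
    eventually_all.2 fun d => key a b c d
  filter_upwards [this] with q hq T g x a b c d h hF using hq a b c d x h T g hF

end Pool.Agent.Lib.MP_34b931_co.G
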