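import Pool.Agent.Lib.MP_34b931_co.H22Tri

/-! Infinitesimal rigidity of regular spherical ball-polyhedra. -/

namespace Pool.Agent.Lib.MP_34b931_co.G

open Filter Topology

namespace Rig

variable {ι : Type} {τ : ℝ} {u : ι → E4} {T : Tri ι} {w : ι → ℝ} {x y : E4} {a b c d : ι}

theorem lift_eq {p : ι → E4} (ha : inner ℝ (p a) y = w a) (hb : inner ℝ (p b) y = w b)
    (hc : inner ℝ (p c) y = w c) (hd : inner ℝ (p d) y = w d) (m : ι) :
    Lift p w a b c d m = d4 (p a) (p b) (p c) (p d) * (inner ℝ (p m) y - w m) := by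
  have := congrArg (fun v => inner ℝ v y) (cramer4 (p a) (p b) (p c) (p d) (p m))
  simp only [inner_add_left, real_inner_smul_left, ha, hb, hc, hd] at this
  simp only [Lift]
  linear_combination -this

theorem ne_of_d4 {p : ι → E4} (h : d4 (p a) (p b) (p c) (p d) ≠ 0) :
    a ≠ b ∧ a ≠ c ∧ a ≠ d ∧ b ≠ c ∧ b ≠ d ∧ c ≠ d := by
  refine ⟨?_, ?_, ?_, ?_, ?_, ?_⟩ <;> rintro rfl <;> apply h
  exacts [d4_self12 .., d4_self13 .., d4_self14 .., d4_self23 .., d4_self24 .., d4_self34 ..]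

theorem ne_of_d4' {p : ι → E4} (h : 0 < d4 (p a) (p b) (p c) x) : a ≠ b ∧ a ≠ c ∧ b ≠ c := by
  refine ⟨?_, ?_, ?_⟩ <;> rintro rfl <;> apply h.ne'
  exacts [d4_self12 .., d4_self13 .., d4_self23 ..]

theorem eq_of_inner (hx : ‖x‖ = 1) (hy : ‖y‖ ≤ 1) (h : 1 ≤ inner ℝ x y) : y = x := by
  have e := norm_sub_sq_real x y
  have : ‖y‖ ^ 2 ≤ 1 := pow_le_one₀ (norm_nonneg _) hy
  have : ‖x - y‖ ^ 2 ≤ 0 := by rw [e, hx]; linarith
  exact (sub_eq_zero.1 (norm_eq_zero.1 (pow_eq_zero_iff two_ne_zero |>.1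
    (le_antisymm this (sq_nonneg _))))).symm

theorem quad_ne (L : Loc0 τ u) (h : QuadAt τ u x a b c d) : d4 (u a) (u b) (u c) (u d) ≠ 0 := by
  obtain ⟨p, h1, h2, h3, h4, k1, k2, k3, k4⟩ := h
  exact (L.four x a b c d p h1 h2 h3 h4 k1 (ne_of_d4' k2).2.1.symm (ne_of_d4' k3).2.2.symm
    (ne_of_d4' k2).2.2.symm).1

theorem pos_pair (L : Loc0 τ u) (h : QuadAt τ u x a b c d) {p q : ι} (hp : Act τ u x p)
    (hq : Act τ u x q) (k : 0 < d4 (u a) (u p) (u q) x) :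
    (p = b ∧ q = c) ∨ (p = c ∧ q = d) ∨ (p = b ∧ q = d) := by
  have n := ne_of_d4' k
  have e1 := L.five _ _ _ _ _ _ h hp
  have e2 := L.five _ _ _ _ _ _ h hq
  obtain ⟨-, -, -, -, -, k1, k2, k3, -⟩ := h
  have s1 := d4_swap23 (u a) (u b) (u c) x
  have s2 := d4_swap23 (u a) (u c) (u d) x
  have s3 := d4_swap23 (u a) (u b) (u d) x
  grind

theorem quad_eq (L : Loc0 τ u) (h : QuadAt τ u x a b c d) {b' c' d' : ι}
    (h' : QuadAt τ u x a b' c' d') : b' = b ∧ c' = c ∧ d' = d := by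
  have n := ne_of_d4 (quad_ne L h)
  obtain ⟨-, -, h2, h3, h4, k1, k2, k3, -⟩ := h'
  have e1 := pos_pair L h h2 h3 k1
  have e2 := pos_pair L h h3 h4 k2
  have e3 := pos_pair L h h2 h4 k3
  grind

/-- The quadrilateral at `x` is folded inwards. -/
def In (τ : ℝ) (u : ι → E4) (T : Tri ι) (x : E4) : Prop :=
  ∃ a b c d, QuadAt τ u x a b c d ∧ 0 < d4 (u a) (u b) (u c) (u d) ∧ T.F a b c

theorem in_iff (hT : StType) (R : Reg τ u T) (h : QuadAt τ u x a b c d) :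
    In τ u T x ↔ (T.F a b c ↔ 0 < d4 (u a) (u b) (u c) (u d)) := by
  have ty := (hT ι τ u T R).1 x a b c d h
  have n := quad_ne R.loc h
  have r1 := d4_rot (u a) (u b) (u c) (u d)
  have r2 := d4_rot2 (u a) (u b) (u c) (u d)
  have r3 := d4_rot (u d) (u a) (u b) (u c)
  have f1 : T.F a b c → T.adj a c := Tri.adj13
  have f2 : T.F b c d → T.adj b d := Tri.adj13
  have f3 : T.F c d a → T.adj a c := Tri.adj31
  have f4 : T.F d a b → T.adj b d := Tri.adj31
  constructor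
  · rintro ⟨a', b', c', d', h', k, f⟩
    rcases R.loc.five _ _ _ _ _ _ h h'.2.1 with rfl | rfl | rfl | rfl
    · obtain ⟨rfl, rfl, rfl⟩ := quad_eq R.loc h h'
      grind
    · obtain ⟨rfl, rfl, rfl⟩ := quad_eq R.loc h.rot h'
      grind
    · obtain ⟨rfl, rfl, rfl⟩ := quad_eq R.loc h.rot.rot h'
      grind
    · obtain ⟨rfl, rfl, rfl⟩ := quad_eq R.loc h.rot.rot.rot h'
      grind
  · intro e
    rcases ty with ty | ty
    · exact ⟨a, b, c, d, h, e.1 ty.1, ty.1⟩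
    · exact ⟨b, c, d, a, h.rot, by grind, ty.1⟩

/-- What is used of the heights. -/
structure W (τ : ℝ) (u : ι → E4) (w : ι → ℝ) : Prop where
  gen : Gen u w
  dual : ∀ a b c d, Cell u w a b c d → ∃ y, (∀ i, τ ≤ inner ℝ (u i) y) ∧ Act τ u y a ∧
    Act τ u y b ∧ Act τ u y c ∧ Act τ u y d
  quad : ∀ x a b c d, QuadAt τ u x a b c d → Cell u w a b c d
  smp : ∀ a b c, (∃ x, Pt τ u x ∧ Act τ u x a ∧ Act τ u x b ∧ Act τ u x c ∧
    0 < d4 (u a) (u b) (u c) x ∧ ∀ m, m ≠ a → m ≠ b → m ≠ c → ¬ Act τ u x m) →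
    ∃ y, inner ℝ y (u a) = w a ∧ inner ℝ y (u b) = w b ∧ inner ℝ y (u c) = w c ∧
      ∀ m, m ≠ a → m ≠ b → m ≠ c → w m < inner ℝ y (u m)

theorem exists_W [Fintype ι] (hD : StDense) (L : Loc0 τ u) : ∃ w, W τ u w := by
  have e1 : ∀ᶠ w in 𝓝 (fun _ : ι => τ), ∀ a b c d m, Lift u (fun _ => τ) a b c d m ≠ 0 →
      0 < Lift u (fun _ => τ) a b c d m * Lift u w a b c d m := by
    simp only [eventually_all]
    intro a b c d m h
    have : Continuous fun w : ι → ℝ => Lift u (fun _ => τ) a b c d m * Lift u w a b c d m := by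
      simp only [Lift]; fun_prop
    exact this.continuousAt.eventually (lt_mem_nhds (mul_self_pos.2 h))
  have e2 : ∀ᶠ w in 𝓝 (fun _ : ι => τ), ∀ a b c, (∃ x, Pt τ u x ∧ Act τ u x a ∧ Act τ u x b ∧
      Act τ u x c ∧ 0 < d4 (u a) (u b) (u c) x ∧ ∀ m, m ≠ a → m ≠ b → m ≠ c → ¬ Act τ u x m) →
      ∃ y, inner ℝ y (u a) = w a ∧ inner ℝ y (u b) = w b ∧ inner ℝ y (u c) = w c ∧
        ∀ m, m ≠ a → m ≠ b → m ≠ c → w m < inner ℝ y (u m) := by
    simp only [eventually_all]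
    rintro a b c ⟨x, p, ha, hb, hc, k, s⟩
    obtain ⟨v1, a1, b1, c1, -⟩ := exists_dual4 k.ne' 1 0 0 0
    obtain ⟨v2, a2, b2, c2, -⟩ := exists_dual4 k.ne' 0 1 0 0
    obtain ⟨v3, a3, b3, c3, -⟩ := exists_dual4 k.ne' 0 0 1 0
    let Y : (ι → ℝ) → E4 := fun w => x + (w a - τ) • v1 + (w b - τ) • v2 + (w c - τ) • v3
    have hY : Continuous Y := by fun_prop
    have : ∀ᶠ w in 𝓝 (fun _ : ι => τ), ∀ m, m ≠ a → m ≠ b → m ≠ c →
        w m < inner ℝ (Y w) (u m) := by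
      simp only [eventually_all]
      intro m n1 n2 n3
      refine ContinuousAt.eventually_lt (continuous_apply m).continuousAt (by fun_prop) ?_
      have := (p.2 m).lt_of_ne (Ne.symm (s m n1 n2 n3))
      simpa [Y, real_inner_comm] using this
    filter_upwards [this] with w hw
    unfold Act at ha hb hc
    rw [real_inner_comm] at ha hb hc
    refine ⟨Y w, ?_, ?_, ?_, hw⟩ <;>
      simp [Y, inner_add_left, real_inner_smul_left, ha, hb, hc, a1, a2, a3, b1, b2, b3, c1, c2, c3]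
  obtain ⟨w, g, k1, k2⟩ := (hD ι u).1.inter_nhds_nonempty (e1.and e2)
  refine ⟨w, g, fun a b c d h => ?_, fun x a b c d h => ⟨quad_ne L h, fun m n1 n2 n3 n4 => ?_⟩, k2⟩
  · obtain ⟨y, ha, hb, hc, hd⟩ := exists_dual4 h.1 τ τ τ τ
    rw [real_inner_comm] at ha hb hc hd
    refine ⟨y, fun m => ?_, ha, hb, hc, hd⟩
    by_contra! hm
    have e := lift_eq (w := fun _ => τ) ha hb hc hd m
    have k := h.2 m (by rintro rfl; linarith) (by rintro rfl; linarith) (by rintro rfl; linarith)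
      (by rintro rfl; linarith)
    have k' := k1 a b c d m (by rw [e]; exact mul_ne_zero h.1 (by linarith))
    rw [e] at k'
    nlinarith
  · have e := lift_eq (w := fun _ => τ) h.2.1 h.2.2.1 h.2.2.2.1 h.2.2.2.2.1 m
    have hm : τ < inner ℝ (u m) x := (h.1.2 m).lt_of_ne fun e => by
      have := L.five _ _ _ _ _ m h e.symm
      grind
    have k' := k1 a b c d m (by rw [e]; exact mul_ne_zero (quad_ne L h) (by linarith))
    rw [e, mul_right_comm] at k'
    exact (mul_pos_iff_of_pos_right (by linarith)).1 k'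

theorem line {A B C : E4} (D : E4) (ha : inner ℝ A x = inner ℝ A y) (hb : inner ℝ B x = inner ℝ B y)
    (hc : inner ℝ C x = inner ℝ C y) :
    d4 A B C D * inner ℝ (x - y) x = (inner ℝ D x - inner ℝ D y) * d4 A B C x := by
  have := congrArg (fun v => inner ℝ v x) (perp_cr (a := A) (b := B) (c := C) (v := x - y) D
    (by rw [inner_sub_right, ha, sub_self]) (by rw [inner_sub_right, hb, sub_self])
    (by rw [inner_sub_right, hc, sub_self]))
  simpa only [real_inner_smul_left, inner_cr, inner_sub_right] using this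

/-- A dual point on the negative side lies outside the ball. -/
theorem line_neg (p : Pt τ u x) (ha : Act τ u x a) (hb : Act τ u x b) (hc : Act τ u x c)
    (k : 0 < d4 (u a) (u b) (u c) x) (ya : Act τ u y a) (yb : Act τ u y b) (yc : Act τ u y c)
    (yd : Act τ u y d) (n : d4 (u a) (u b) (u c) (u d) < 0) (hy : ‖y‖ ≤ 1) : y = x := by
  have e := line (u d) (ha.trans ya.symm) (hb.trans yb.symm) (hc.trans yc.symm)
  rw [inner_sub_left, real_inner_self_eq_norm_sq, p.1, yd, real_inner_comm] at e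
  have := mul_nonneg (sub_nonneg.2 (p.2 d)) k.le
  exact eq_of_inner p.1 hy (by nlinarith)

/-- A dual point on the positive side lies inside the ball. -/
theorem line_pos (p : Pt τ u x) (ha : Act τ u x a) (hb : Act τ u x b) (hc : Act τ u x c)
    (k : 0 < d4 (u a) (u b) (u c) x)
    (M : ∀ y, Pt τ u y → Act τ u y a → Act τ u y b → Act τ u y c → y = x)
    (q : ∀ i, τ ≤ inner ℝ (u i) y) (ya : Act τ u y a) (yb : Act τ u y b) (yc : Act τ u y c)
    (yd : Act τ u y d) (n : 0 < d4 (u a) (u b) (u c) (u d)) : ‖y‖ < 1 ∨ y = x := by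
  by_contra! h
  have e := line (u d) (ha.trans ya.symm) (hb.trans yb.symm) (hc.trans yc.symm)
  have t : τ < inner ℝ (u d) x := (p.2 d).lt_of_ne fun t => h.2 (sub_eq_zero.1
    (eq_zero_of_inner4 n.ne' (by rw [inner_sub_right, ha, ya, sub_self])
      (by rw [inner_sub_right, hb, yb, sub_self]) (by rw [inner_sub_right, hc, yc, sub_self])
      (by rw [inner_sub_right, yd, ← t, sub_self])))
  rw [yd] at e
  have e1 : 0 < inner ℝ (x - y) x :=
    (mul_pos_iff_of_pos_left n).1 (e ▸ mul_pos (sub_pos.2 t) k)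
  have hv : 0 < ‖x - y‖ ^ 2 := pow_pos (norm_pos_iff.2 (sub_ne_zero.2 h.2.symm)) 2
  have nn : ∀ s : ℝ, ‖x - s • (x - y)‖ ^ 2 =
      1 - 2 * s * inner ℝ (x - y) x + s ^ 2 * ‖x - y‖ ^ 2 := fun s => by
    rw [norm_sub_sq_real, p.1, real_inner_smul_right, norm_smul, mul_pow, Real.norm_eq_abs, sq_abs,
      real_inner_comm]
    ring
  have n1 := nn 1
  rw [one_smul, sub_sub_cancel] at n1
  obtain ⟨s, hs⟩ : ∃ s, s = 2 * inner ℝ (x - y) x / ‖x - y‖ ^ 2 := ⟨_, rfl⟩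
  have s0 : 0 < s := by rw [hs]; positivity
  have s1 : s ≤ 1 := by rw [hs, div_le_one hv]; nlinarith [one_le_pow₀ (n := 2) h.1]
  have i : ∀ i, inner ℝ (u i) (x - s • (x - y)) =
      (1 - s) * inner ℝ (u i) x + s * inner ℝ (u i) y := fun i => by
    rw [inner_sub_right, real_inner_smul_right, inner_sub_right]; ring
  have := M (x - s • (x - y)) ⟨(pow_eq_one_iff_of_nonneg (norm_nonneg _) two_ne_zero).1
      (by rw [nn, hs]; field_simp; ring), fun j => by rw [i]; nlinarith [p.2 j, q j]⟩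
    (by rw [Act, i, ha, ya]; ring) (by rw [Act, i, hb, yb]; ring) (by rw [Act, i, hc, yc]; ring)
  rw [sub_eq_self, smul_eq_zero, sub_eq_zero] at this
  exact this.elim s0.ne' h.2.symm

theorem ivt {z : E4} (q : ∀ i, τ ≤ inner ℝ (u i) y) (ya : Act τ u y a) (yb : Act τ u y b)
    (yc : Act τ u y c) (r : ∀ i, τ ≤ inner ℝ (u i) z) (za : Act τ u z a) (zb : Act τ u z b)
    (zc : Act τ u z c) (hy : ‖y‖ ≤ 1) (hz : 1 ≤ ‖z‖) :
    ∃ x, Pt τ u x ∧ Act τ u x a ∧ Act τ u x b ∧ Act τ u x c := by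
  obtain ⟨s, ⟨s0, s1⟩, hs⟩ := intermediate_value_Icc (f := fun s : ℝ => ‖y + s • (z - y)‖)
    zero_le_one (by fun_prop) (a := 0) (b := 1) (show (1 : ℝ) ∈ _ by simp [hy, hz])
  have i : ∀ i, inner ℝ (u i) (y + s • (z - y)) =
      (1 - s) * inner ℝ (u i) y + s * inner ℝ (u i) z := fun i => by
    rw [inner_add_right, real_inner_smul_right, inner_sub_right]; ring
  exact ⟨_, ⟨hs, fun j => by rw [i]; nlinarith [q j, r j]⟩, by rw [Act, i, ya, za]; ring,
    by rw [Act, i, yb, zb]; ring, by rw [Act, i, yc, zc]; ring⟩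

/-- The cells whose dual point lies in the ball. -/
def SS (τ : ℝ) (u : ι → E4) (w : ι → ℝ) (T : Tri ι) (a b c d : ι) : Prop :=
  Cell u w a b c d ∧ ∃ y, (∀ i, τ ≤ inner ℝ (u i) y) ∧ Act τ u y a ∧ Act τ u y b ∧ Act τ u y c ∧
    Act τ u y d ∧ (‖y‖ < 1 ∨ In τ u T y)

theorem In.pt (h : In τ u T x) : Pt τ u x := let ⟨_, _, _, _, h, _⟩ := h; h.1

theorem sym (hS : StCellSym) : Sym4 (SS τ u w T) := by
  rintro a b c d ⟨h, y, q, h1, h2, h3, h4, h5⟩
  obtain ⟨k1, k2, k3⟩ := hS ι u w a b c d h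
  exact ⟨⟨k1, y, q, h2, h1, h3, h4, h5⟩, ⟨k2, y, q, h1, h3, h2, h4, h5⟩,
    ⟨k3, y, q, h1, h2, h4, h3, h5⟩⟩

theorem Sym4.cyc {S : ι → ι → ι → ι → Prop} (h : Sym4 S) (k : S a b c d) : S b c a d :=
  (h _ _ _ _ (h _ _ _ _ k).1).2.1

/-- Four active indices. -/
theorem four (hS : StCellSym) (hT : StType) (R : Reg τ u T) (H : W τ u w) (p : Pt τ u x)
    (ha : Act τ u x a) (hb : Act τ u x b) (hc : Act τ u x c) (hd : Act τ u x d)
    (k : 0 < d4 (u a) (u b) (u c) x) (n1 : d ≠ a) (n2 : d ≠ b) (n3 : d ≠ c) :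
    Cell u w a b c d ∧ (In τ u T x ↔ (T.F a b c ↔ 0 < d4 (u a) (u b) (u c) (u d))) ∧
      ∀ e, Act τ u x e → e = a ∨ e = b ∨ e = c ∨ e = d := by
  have f1 : T.F b c a ↔ T.F a b c := ⟨Tri.cyc2, T.cyc⟩
  have f2 : T.F c a b ↔ T.F a b c := ⟨T.cyc, Tri.cyc2⟩
  have s := hS ι u w
  rcases (R.loc.four x a b c d p ha hb hc hd k n1 n2 n3).2 with h | h | h
  · have h := h.rot.rot
    refine ⟨Sym4.cyc s (Sym4.cyc s (H.quad _ _ _ _ _ h)), ?_, fun e he => ?_⟩
    · rw [in_iff hT R h, f1, d4_cyc]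
    · have := R.loc.five _ _ _ _ _ e h he
      grind
  · have h := h.rot.rot.rot
    refine ⟨Sym4.cyc s (H.quad _ _ _ _ _ h), ?_, fun e he => ?_⟩
    · rw [in_iff hT R h, f2, ← d4_cyc (u c)]
    · have := R.loc.five _ _ _ _ _ e h he
      grind
  · exact ⟨H.quad _ _ _ _ _ h, in_iff hT R h, fun e he => R.loc.five _ _ _ _ _ e h he⟩

/-- The cell on the positive side of a triple at a vertex. -/
theorem pos_cell [Fintype ι] (h1 : StGW1) (h2 : StGW2) (hS : StCellSym) (hT : StType)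
    (hM : StMirror) (R : Reg τ u T) (H : W τ u w) (p : Pt τ u x) (ha : Act τ u x a)
    (hb : Act τ u x b) (hc : Act τ u x c) (k : 0 < d4 (u a) (u b) (u c) x) :
    ∃ d, Cell u w a b c d ∧ 0 < d4 (u a) (u b) (u c) (u d) ∧
      (SS τ u w T a b c d ∨ (Act τ u x d ∧ ¬ T.F a b c)) := by
  obtain ⟨⟨m, hm⟩, M⟩ := (hM ι τ u T R).2 x a b c p ha hb hc k
  obtain ⟨d, h, n⟩ : ∃ d, Cell u w a b c d ∧ 0 < d4 (u a) (u b) (u c) (u d) := by
    by_cases s : ∀ m, m ≠ a → m ≠ b → m ≠ c → ¬ Act τ u x m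
    · obtain ⟨y, y1, y2, y3, y4⟩ := H.smp a b c ⟨x, p, ha, hb, hc, k, s⟩
      exact h1 ι u w H.gen a b c y y1 y2 y3 y4 ⟨m, hm⟩
    push Not at s
    obtain ⟨e, n1, n2, n3, he⟩ := s
    have h := (four hS hT R H p ha hb hc he k n1 n2 n3).1
    rcases h.1.lt_or_gt with n | n
    · obtain ⟨d, h', n'⟩ := h2 ι u w H.gen a b c e m h (mul_neg_of_pos_of_neg hm n)
      exact ⟨d, h', pos_of_mul_neg_left n' n.le⟩
    · exact ⟨e, h, n⟩
  refine ⟨d, h, n, ?_⟩
  obtain ⟨y, q, ya, yb, yc, yd⟩ := H.dual _ _ _ _ h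
  rcases line_pos p ha hb hc k M q ya yb yc yd n with e | rfl
  · exact Or.inl ⟨h, y, q, ya, yb, yc, yd, Or.inl e⟩
  · by_cases f : T.F a b c
    · obtain ⟨-, -, n1, -, n2, n3⟩ := ne_of_d4 h.1
      exact Or.inl ⟨h, y, q, ya, yb, yc, yd, Or.inr
        ((four hS hT R H p ha hb hc yd k n1.symm n2.symm n3.symm).2.1.2 (iff_of_true f n))⟩
    · exact Or.inr ⟨yd, f⟩

theorem SS.norm_le (h : ‖y‖ < 1 ∨ In τ u T y) : ‖y‖ ≤ 1 := h.elim le_of_lt fun h => h.pt.1.le

/-- A cell of `S` on the negative side of a triple at a vertex. -/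
theorem neg_cell (hS : StCellSym) (hT : StType) (R : Reg τ u T) (H : W τ u w) (p : Pt τ u x)
    (ha : Act τ u x a) (hb : Act τ u x b) (hc : Act τ u x c) (k : 0 < d4 (u a) (u b) (u c) x)
    (h : SS τ u w T a b c d) (n : d4 (u a) (u b) (u c) (u d) < 0) :
    Act τ u x d ∧ ¬ T.F a b c := by
  obtain ⟨h, y, q, ya, yb, yc, yd, hy⟩ := h
  obtain rfl := line_neg p ha hb hc k ya yb yc yd n (SS.norm_le hy)
  obtain ⟨-, -, n1, -, n2, n3⟩ := ne_of_d4 h.1
  exact ⟨yd, fun f => n.not_gt (((four hS hT R H p ha hb hc yd k n1.symm n2.symm n3.symm).2.1.1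
    (hy.resolve_left p.1.not_lt)).1 f)⟩

theorem isBd [Fintype ι] (h1 : StGW1) (h2 : StGW2) (hS : StCellSym) (hT : StType)
    (hM : StMirror) (R : Reg τ u T) (H : W τ u w) : IsBd u (SS τ u w T) T := by
  refine fun a b c => ⟨fun f => ?_, ?_⟩
  · obtain ⟨x, p, ha, hb, hc, k⟩ := R.good.vtx a b c f
    obtain ⟨d, -, n, h⟩ := pos_cell h1 h2 hS hT hM R H p ha hb hc k
    exact ⟨⟨d, h.resolve_right fun h => h.2 f, n⟩,
      fun ⟨e, h, n⟩ => (neg_cell hS hT R H p ha hb hc k h n).2 f⟩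
  rintro ⟨⟨d, h, n⟩, N⟩
  by_contra f
  apply N
  obtain ⟨ab, ac, ad, bc, bd, cd⟩ := ne_of_d4 n.ne'
  by_cases hx : ∃ x, Pt τ u x ∧ Act τ u x a ∧ Act τ u x b ∧ Act τ u x c
  · obtain ⟨x, p, ha, hb, hc⟩ := hx
    rcases (R.loc.three x a b c p ab bc ac ha hb hc).lt_or_gt with k | k
    · have k' : 0 < d4 (u a) (u c) (u b) x := by rw [d4_swap23]; linarith
      have hd := (neg_cell hS hT R H p ha hc hb k' (sym hS _ _ _ _ h).2.1
        (by rw [d4_swap23]; linarith)).1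
      obtain ⟨e, -, n', h'⟩ := pos_cell h1 h2 hS hT hM R H p ha hc hb k'
      obtain ⟨-, -, n1, -, n2, n3⟩ := ne_of_d4 n'.ne'
      rw [d4_swap23] at n'
      refine ⟨e, (sym hS _ _ _ _ (h'.resolve_right fun h' => ?_)).2.1, by linarith⟩
      have := (four hS hT R H p ha hc hb hd k' ad.symm cd.symm bd.symm).2.2 e h'.1
      grind
    · obtain ⟨e, n1, n2, n3, he⟩ : ∃ e, e ≠ a ∧ e ≠ b ∧ e ≠ c ∧ Act τ u x e := by
        by_contra! s
        obtain ⟨c', f', h'⟩ := R.good.side x a b ⟨p, ab, ha, hb, ⟨c, ac.symm, bc.symm, hc⟩,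
          fun c' n1 n2 h' => by
            obtain rfl : c' = c := by_contra fun n3 => s c' n1 n2 n3 h'
            exact k⟩
        obtain rfl : c' = c := by_contra fun n3 => s c' (Tri.ne13 f').symm (Tri.ne23 f').symm n3 h'
        exact f f'
      obtain ⟨h', i, -⟩ := four hS hT R H p ha hb hc he k n1 n2 n3
      rcases h'.1.lt_or_gt with n' | n'
      · exact ⟨e, ⟨h', x, p.2, ha, hb, hc, he, Or.inr (i.2 (iff_of_false f n'.not_gt))⟩, n'⟩
      · obtain ⟨-, y, q, ya, yb, yc, yd, hy⟩ := h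
        have e1 := line (u d) (ha.trans ya.symm) (hb.trans yb.symm) (hc.trans yc.symm)
        have e2 := line (u e) (ha.trans ya.symm) (hb.trans yb.symm) (hc.trans yc.symm)
        rw [he] at e2
        have e3 : inner ℝ (x - y) x ≤ (0 : ℝ) := by
          have := mul_nonneg (sub_nonneg.2 (q e)) k.le
          nlinarith
        rw [inner_sub_left, real_inner_self_eq_norm_sq, p.1, real_inner_comm] at e3
        obtain rfl := eq_of_inner p.1 (SS.norm_le hy) (by linarith)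
        exact absurd ((i.1 (hy.resolve_left p.1.not_lt)).2 n') f
  · obtain ⟨h, y, q, ya, yb, yc, yd, hy⟩ := h
    obtain ⟨m, hm⟩ : ∃ m, d4 (u a) (u b) (u c) (u m) < 0 := by
      by_contra! s
      have hcr : 0 < ‖cr (u a) (u b) (u c)‖ := norm_pos_iff.2 fun e => by
        rw [← inner_cr, e, inner_zero_left] at n
        exact lt_irrefl _ n
      have i : ∀ i, inner ℝ (u i) (y + (2 / ‖cr (u a) (u b) (u c)‖) • cr (u a) (u b) (u c)) =
          inner ℝ (u i) y + 2 / ‖cr (u a) (u b) (u c)‖ * d4 (u a) (u b) (u c) (u i) := fun i => by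
        rw [inner_add_right, real_inner_smul_right, real_inner_comm (cr _ _ _), inner_cr]
      refine hx (ivt (z := y + (2 / ‖cr (u a) (u b) (u c)‖) • cr (u a) (u b) (u c)) q ya yb yc
        (fun j => ?_) (by rw [Act, i, ya, d4_self14]; ring) (by rw [Act, i, yb, d4_self24]; ring)
        (by rw [Act, i, yc, d4_self34]; ring) (SS.norm_le hy) ?_)
      · rw [i]
        exact (q j).trans (le_add_of_nonneg_right (mul_nonneg (by positivity) (s j)))
      · have := norm_sub_le (y + (2 / ‖cr (u a) (u b) (u c)‖) • cr (u a) (u b) (u c)) y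
        rw [add_sub_cancel_left, norm_smul, Real.norm_of_nonneg (by positivity),
          div_mul_cancel₀ _ hcr.ne'] at this
        linarith [SS.norm_le hy]
    obtain ⟨e, h', n'⟩ := h2 ι u w H.gen a b c d m h (mul_neg_of_neg_of_pos hm n)
    obtain ⟨z, r, za, zb, zc, ze⟩ := H.dual _ _ _ _ h'
    exact ⟨e, ⟨h', z, r, za, zb, zc, ze, Or.inl (by_contra fun hz =>
      hx (ivt q ya yb yc r za zb zc (SS.norm_le hy) (not_lt.1 hz)))⟩, neg_of_mul_neg_left n' n.le⟩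

/-- An inward folded diagonal lies in one cell of `S` only. -/
theorem diag (L : Loc0 τ u) (h : QuadAt τ u x a b c d) (n : 0 < d4 (u a) (u b) (u c) (u d))
    {c' d' : ι} (s : SS τ u w T a c c' d') : (c' = b ∧ d' = d) ∨ (c' = d ∧ d' = b) := by
  obtain ⟨s, y, q, ya, yc, yc', yd', hy⟩ := s
  have e := cramer4 (u a) (u b) (u c) (u d) x
  have e1 := congrArg (fun v => inner ℝ v x) e
  have e2 := congrArg (fun v => inner ℝ v y) e
  obtain ⟨p, ha, hb, hc, hd, k1, k2, -, -⟩ := id h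
  unfold Act at ha hb hc hd ya yc
  simp only [inner_add_left, real_inner_smul_left, ha, hb, hc, hd, ya, yc,
    real_inner_self_eq_norm_sq, p.1] at e1 e2
  rw [d4_swap34, d4_swap23, neg_neg] at k2
  obtain rfl : y = x := eq_of_inner p.1 (SS.norm_le hy) (by
    have := mul_nonneg k1.le (sub_nonneg.2 (q d))
    have := mul_nonneg k2.le (sub_nonneg.2 (q b))
    nlinarith)
  have := ne_of_d4 s.1
  have := L.five _ _ _ _ _ _ h yc'
  have := L.five _ _ _ _ _ _ h yd'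
  grind

theorem dx_comm (ξ : ι → E4) (a b : ι) : dx u ξ a b = dx u ξ b a := by
  simp only [dx, real_inner_comm, add_comm]

end Rig

open Rig in
theorem stRig (hA : StRigA) (hB : StRigB) (h1 : StGW1) (h2 : StGW2) (hS : StCellSym)
    (hD : StDense) (hT : StType) (hM : StMirror) (hF : StFlipAll) : StRig := by
  intro ι _ τ u ξ T R hξ hs hq
  obtain ⟨w, H⟩ := exists_W hD R.loc
  have E := (hM ι τ u T R).1
  have key : ∀ x a b c d, QuadAt τ u x a b c d → 0 < d4 (u a) (u b) (u c) (u d) →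
      dx u ξ a c * dx u ξ b d = 0 := by
    obtain ⟨T₁, R₁, -, hc⟩ := hF ι τ u T (fun a b c d => 0 < d4 (u a) (u b) (u c) (u d)) R
      (fun x a b c d h => (quad_ne R.loc h).lt_or_gt.symm.imp_right fun n => by
        rw [d4_rot]; linarith) fun a b c d h => by rwa [d4_rot2]
    refine fun x a b c d h n => hA ι u ξ w (SS τ u w T₁)
      (fun a b c d => ∃ x, QuadAt τ u x a b c d ∧ 0 < d4 (u a) (u b) (u c) (u d)) T₁ E H.gen
      (sym hS) (fun _ _ _ _ h => h.1) (isBd h1 h2 hS hT hM R₁ H) hξ ?_ ?_ a b c d ⟨x, h, n⟩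
    · rintro a b c d ⟨x, h, n⟩
      obtain ⟨f1, f2, f3⟩ := ((hT ι τ u T₁ R₁).1 x a b c d h).resolve_right fun f => by
        have := hc _ _ _ _ _ h.rot f.1
        rw [d4_rot] at this
        linarith
      exact ⟨⟨H.quad _ _ _ _ _ h, x, h.1.2, h.2.1, h.2.2.1, h.2.2.2.1, h.2.2.2.2.1,
        Or.inr ⟨a, b, c, d, h, n, f1⟩⟩, f1, f2, f3, fun _ _ => diag R.loc h n, hq x a b c d h⟩
    · rintro a c ⟨e, f⟩
      rcases (hT ι τ u T₁ R₁).2 a c e f with ⟨x, h⟩ | ⟨x, d, h⟩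
      · exact Or.inl (hs x a c h)
      · exact Or.inr (Or.inl ⟨d, e, x, h, hc _ _ _ _ _ h
          (((hT ι τ u T₁ R₁).1 x a d c e h).resolve_right fun g => g.2.2 ⟨e, f⟩).1⟩)
  obtain ⟨T₂, R₂, -, hc⟩ := hF ι τ u T (fun a _ c _ => dx u ξ a c = 0) R
    (fun x a b c d h => (quad_ne R.loc h).lt_or_gt.elim
      (fun n => (mul_eq_zero.1 (key x b c d a h.rot (by rw [d4_rot]; linarith))).symm.imp_left
        (dx_comm ξ a c).trans) fun n => mul_eq_zero.1 (key x a b c d h n))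
    fun a b c d h => (dx_comm ξ c a).trans h
  refine hB ι u ξ w (SS τ u w T₂) T₂ E H.gen (sym hS) (fun _ _ _ _ h => h.1)
    (isBd h1 h2 hS hT hM R₂ H) hξ ?_
  rintro a c ⟨e, f⟩
  rcases (hT ι τ u T₂ R₂).2 a c e f with ⟨x, h⟩ | ⟨x, d, h⟩
  · exact hs x a c h
  · exact hc _ _ _ _ _ h (((hT ι τ u T₂ R₂).1 x a d c e h).resolve_right fun g => g.2.2 ⟨e, f⟩).1

end Pool.Agent.Lib.MP_34b931_co.G
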