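import Pool.Agent.Lib.MP_34b931_co.H22Tri

/-! Infinitesimal rigidity from vanishing edge variations. -/

namespace Pool.Agent.Lib.MP_34b931_co.G

open Filter Topology

namespace RigB

variable {ι : Type}

theorem hull_symm {p : ι → E4} {a b : ι} (h : Hull p a b) : Hull p b a :=
  let ⟨l, h0, h1, h2, h3⟩ := h; ⟨l, h0, h1, h3, h2⟩

theorem sgn {A L L' : ℝ} (h1 : 0 < A * L') (h2 : 0 < L * L') : 0 < A * L := by
  by_contra h
  have := mul_pos h1 h2
  nlinarith [mul_nonneg (neg_nonneg.2 (not_lt.1 h)) (sq_nonneg L')]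

theorem Hb_quad [Fintype ι] (p : ι → E4) (o : E4) (S : ι → ι → ι → ι → Prop)
    (y z : ι → ι → ℝ) (t : ℝ) :
    Hb p o S (fun i j => y i j + t * z i j) (fun i j => y i j + t * z i j) =
      Hb p o S z z * (t * t) + 2 * Hb p o S y z * t + Hb p o S y y := by
  simp only [Hb, Finset.mul_sum, Finset.sum_mul, ← Finset.sum_add_distrib]
  refine Finset.sum_congr rfl fun a _ => Finset.sum_congr rfl fun b _ =>
    Finset.sum_congr rfl fun c _ => Finset.sum_congr rfl fun d _ => ?_
  have e : Rq p o a b c d (fun i j => y i j + t * z i j) =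
      Rq p o a b c d y + t * Rq p o a b c d z := by simp only [Rq]; ring
  split_ifs
  · simp only [hq, e]; ring
  · ring

theorem ker_of_psd [Fintype ι] {p : ι → E4} {o : E4} {w : ι → ℝ} (h : Psd p o w)
    {y z : ι → ι → ℝ} (ys : ∀ a b, y a b = y b a) (yh : ∀ a b, Hull p a b → y a b = 0)
    (zs : ∀ a b, z a b = z b a) (zh : ∀ a b, Hull p a b → z a b = 0)
    (h0 : Hb p o (Cell p w) y y = 0) : Hb p o (Cell p w) y z = 0 := by
  have := discrim_le_zero (a := Hb p o (Cell p w) z z) (b := 2 * Hb p o (Cell p w) y z)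
    (c := Hb p o (Cell p w) y y) fun t => by
      rw [← Hb_quad]
      exact h _ (fun a b => by rw [ys a b, zs a b]) fun a b k => by
        rw [yh a b k, zh a b k]; ring
  rw [discrim, h0] at this
  nlinarith [sq_nonneg (Hb p o (Cell p w) y z)]

theorem Hb_sub [Fintype ι] {p : ι → E4} {o : E4} {S C : ι → ι → ι → ι → Prop}
    (hSC : ∀ a b c d, S a b c d → C a b c d) {y y' : ι → ι → ℝ} (z : ι → ι → ℝ)
    (h1 : ∀ a b c d, C a b c d → ¬ S a b c d → Rq p o a b c d y = 0)
    (h2 : ∀ a b c d, S a b c d → Rq p o a b c d y = Rq p o a b c d y') :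
    Hb p o C y z = Hb p o S y' z := by
  simp only [Hb]
  refine Finset.sum_congr rfl fun a _ => Finset.sum_congr rfl fun b _ =>
    Finset.sum_congr rfl fun c _ => Finset.sum_congr rfl fun d _ => ?_
  by_cases s : S a b c d
  · rw [if_pos s, if_pos (hSC _ _ _ _ s), hq, hq, h2 _ _ _ _ s]
  · rw [if_neg s]
    split_ifs with k
    · rw [hq, h1 _ _ _ _ k s]; simp
    · rfl

/-- Extension by zero to one more index. -/
def ext0 (y : ι → ι → ℝ) : Option ι → Option ι → ℝ
  | some i, some j => y i j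
  | some _, none => 0
  | none, _ => 0

/-- The configuration with one more point. -/
def add1 {X : Type} (q : X) (p : ι → X) : Option ι → X
  | some i => p i
  | none => q

theorem ev_pos {A : ℝ} (hA : 0 < A) (B : ℝ) : ∀ᶠ M : ℝ in atTop, 0 < A * M + B := by
  filter_upwards [eventually_gt_atTop (-B / A)] with M h
  rw [div_lt_iff₀ hA] at h
  linarith

theorem cont_lift (p : ι → E4) (a b c d m : ι) :
    Continuous fun w : ι → ℝ => Lift p w a b c d m := by
  simp only [Lift]; fun_prop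

theorem exists_w [Fintype ι] (h6 : StDense) {p : ι → E4} {w : ι → ℝ} (hw : Gen p w) (q : E4) :
    ∃ w' : Option ι → ℝ, Gen (add1 q p) w' ∧
      (∀ a b c d, Cell (add1 q p) w' (some a) (some b) (some c) (some d) ↔ Cell p w a b c d) ∧
      ∀ b c d, Cell (add1 q p) w' none (some b) (some c) (some d) →
        ∀ m, d4 q (p b) (p c) (p d) * d4 (p m) (p b) (p c) (p d) ≤ 0 := by
  have e2 : ∀ᶠ M : ℝ in atTop, ∀ a b c d, d4 (p a) (p b) (p c) (p d) ≠ 0 →
      0 < d4 (p a) (p b) (p c) (p d) *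
        Lift (add1 q p) (add1 (-M) w) (some a) (some b) (some c) (some d) none := by
    simp only [eventually_all]
    intro a b c d h
    filter_upwards [ev_pos (mul_self_pos.2 h) (d4 (p a) (p b) (p c) (p d) *
      Lift (add1 q p) (add1 0 w) (some a) (some b) (some c) (some d) none)] with M hM
    refine hM.trans_eq ?_
    simp only [Lift, add1]; ring
  have e3 : ∀ᶠ M : ℝ in atTop, ∀ b c d m,
      0 < d4 q (p b) (p c) (p d) * d4 (p m) (p b) (p c) (p d) →
      d4 q (p b) (p c) (p d) *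
        Lift (add1 q p) (add1 (-M) w) none (some b) (some c) (some d) (some m) < 0 := by
    simp only [eventually_all]
    intro b c d m h
    filter_upwards [ev_pos h (-(d4 q (p b) (p c) (p d) *
      Lift (add1 q p) (add1 0 w) none (some b) (some c) (some d) (some m)))] with M hM
    refine neg_pos.1 (hM.trans_eq ?_)
    simp only [Lift, add1]; ring
  obtain ⟨M, m2, m3⟩ := (e2.and e3).exists
  have f1 : ∀ᶠ w' in 𝓝 (add1 (-M) w), ∀ a b c d m, d4 (p a) (p b) (p c) (p d) ≠ 0 → m ≠ a →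
      m ≠ b → m ≠ c → m ≠ d → 0 < Lift p w a b c d m *
        Lift (add1 q p) w' (some a) (some b) (some c) (some d) (some m) := by
    simp only [eventually_all]
    intro a b c d m h ha hb hc hd
    exact (continuous_const.mul (cont_lift _ _ _ _ _ _)).continuousAt.eventually
      (lt_mem_nhds (mul_self_pos.2 (hw a b c d m h ha hb hc hd)))
  have f2 : ∀ᶠ w' in 𝓝 (add1 (-M) w), ∀ a b c d, d4 (p a) (p b) (p c) (p d) ≠ 0 →
      0 < d4 (p a) (p b) (p c) (p d) *
        Lift (add1 q p) w' (some a) (some b) (some c) (some d) none := by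
    simp only [eventually_all]
    intro a b c d h
    exact (continuous_const.mul (cont_lift _ _ _ _ _ _)).continuousAt.eventually
      (lt_mem_nhds (m2 a b c d h))
  have f3 : ∀ᶠ w' in 𝓝 (add1 (-M) w), ∀ b c d m,
      0 < d4 q (p b) (p c) (p d) * d4 (p m) (p b) (p c) (p d) →
      d4 q (p b) (p c) (p d) *
        Lift (add1 q p) w' none (some b) (some c) (some d) (some m) < 0 := by
    simp only [eventually_all]
    intro b c d m h
    exact (continuous_const.mul (cont_lift _ _ _ _ _ _)).continuousAt.eventually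
      (gt_mem_nhds (m3 b c d m h))
  obtain ⟨w', g, g1, g2, g3⟩ := ((mem_closure_iff_frequently.1
    ((h6 _ (add1 q p)).1 (add1 (-M) w))).and_eventually (f1.and (f2.and f3))).exists
  refine ⟨w', g, fun a b c d => ⟨fun h => ⟨h.1, fun m ha hb hc hd => ?_⟩,
    fun h => ⟨h.1, fun m ha hb hc hd => ?_⟩⟩, fun b c d h m => ?_⟩
  · exact sgn (h.2 (some m) (by simpa) (by simpa) (by simpa) (by simpa))
      (g1 a b c d m h.1 ha hb hc hd)
  · cases m with
    | none => exact g2 a b c d h.1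
    | some m =>
      have ha' : m ≠ a := by simpa using ha
      have hb' : m ≠ b := by simpa using hb
      have hc' : m ≠ c := by simpa using hc
      have hd' : m ≠ d := by simpa using hd
      exact sgn (h.2 m ha' hb' hc' hd') (by rw [mul_comm]; exact g1 a b c d m h.1 ha' hb' hc' hd')
  · by_contra k
    have k := not_le.1 k
    have hb : m ≠ b := by rintro rfl; simp [d4_self12] at k
    have hc : m ≠ c := by rintro rfl; simp [d4_self13] at k
    have hd : m ≠ d := by rintro rfl; simp [d4_self14] at k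
    exact lt_asymm (g3 b c d m k) (h.2 (some m) (by simp) (by simpa) (by simpa) (by simpa))

/-- A cell through the new point carries only zero values. -/
theorem zero_new {p : ι → E4} {q : E4} {w' : Option ι → ℝ} {y : ι → ι → ℝ}
    (yh : ∀ a b, Hull p a b → y a b = 0)
    (h : ∀ b c d, Cell (add1 q p) w' none (some b) (some c) (some d) →
      ∀ m, d4 q (p b) (p c) (p d) * d4 (p m) (p b) (p c) (p d) ≤ 0)
    {b c d : Option ι} (k : Cell (add1 q p) w' none b c d) (i j : Option ι)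
    (hi : i = none ∨ i = b ∨ i = c ∨ i = d) (hj : j = none ∨ j = b ∨ j = c ∨ j = d) :
    ext0 y i j = 0 := by
  have k1 := k.1
  cases b with
  | none => exact absurd (d4_self12 _ _ _) k1
  | some b =>
  cases c with
  | none => exact absurd (d4_self13 _ _ _) k1
  | some c =>
  cases d with
  | none => exact absurd (d4_self14 _ _ _) k1
  | some d =>
  cases i with
  | none => rfl
  | some i =>
  cases j with
  | none => rfl
  | some j =>
  have e : ∀ v, inner ℝ (d4 q (p b) (p c) (p d) • cr (p b) (p c) (p d)) v =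
      -(d4 q (p b) (p c) (p d) * d4 v (p b) (p c) (p d)) := fun v => by
    rw [real_inner_smul_left, inner_cr, d4_rot v]; ring
  have z : ∀ m, (some m = none ∨ some m = some b ∨ some m = some c ∨ some m = some d) →
      inner ℝ (d4 q (p b) (p c) (p d) • cr (p b) (p c) (p d)) (p m) = 0 := by
    intro m hm
    rw [e]
    simp only [reduceCtorEq, Option.some.injEq, false_or] at hm
    rcases hm with rfl | rfl | rfl
    · rw [d4_self12]; ring
    · rw [d4_self13]; ring
    · rw [d4_self14]; ring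
  refine yh i j ⟨_, fun h0 => ?_, fun m => ?_, z i hi, z j hj⟩
  · have := e q
    rw [h0, inner_zero_left] at this
    exact k1 (mul_self_eq_zero.1 (neg_eq_zero.1 this.symm))
  · rw [e]; exact neg_nonneg.2 (h b c d k m)

theorem Hb_ext [Fintype ι] (h5 : StCellSym) {p : ι → E4} {q : E4} (o : E4) {w : ι → ℝ}
    {w' : Option ι → ℝ} {y : ι → ι → ℝ} (z : ι → ι → ℝ) (yh : ∀ a b, Hull p a b → y a b = 0)
    (hc : ∀ a b c d, Cell (add1 q p) w' (some a) (some b) (some c) (some d) ↔ Cell p w a b c d)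
    (h : ∀ b c d, Cell (add1 q p) w' none (some b) (some c) (some d) →
      ∀ m, d4 q (p b) (p c) (p d) * d4 (p m) (p b) (p c) (p d) ≤ 0) :
    Hb (add1 q p) o (Cell (add1 q p) w') (ext0 y) (ext0 z) = Hb p o (Cell p w) y z := by
  classical
  have s := h5 _ (add1 q p) w'
  have key : ∀ a b c d : Option ι, (a = none ∨ b = none ∨ c = none ∨ d = none) →
      (if Cell (add1 q p) w' a b c d then hq (add1 q p) o a b c d (ext0 y) (ext0 z) else 0)
        = 0 := by
    intro a b c d hn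
    split_ifs with k
    · have z : ∀ i j, (i = a ∨ i = b ∨ i = c ∨ i = d) → (j = a ∨ j = b ∨ j = c ∨ j = d) →
          ext0 y i j = 0 := by
        intro i j hi hj
        rcases hn with rfl | rfl | rfl | rfl
        · exact zero_new yh h k i j hi hj
        · exact zero_new yh h (s _ _ _ _ k).1 i j (by grind) (by grind)
        · exact zero_new yh h (s _ _ _ _ (s _ _ _ _ k).2.1).1 i j (by grind) (by grind)
        · exact zero_new yh h (s _ _ _ _ (s _ _ _ _ (s _ _ _ _ k).2.2).2.1).1 i j (by grind)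
            (by grind)
      have : Rq (add1 q p) o a b c d (ext0 y) = 0 := by
        rw [Rq, z a b (by simp) (by simp), z a c (by simp) (by simp), z a d (by simp) (by simp),
          z b c (by simp) (by simp), z b d (by simp) (by simp), z c d (by simp) (by simp)]
        ring
      rw [hq, this]; simp
    · rfl
  have k1 := fun b c d => key none b c d (Or.inl rfl)
  have k2 := fun a c d => key a none c d (Or.inr (Or.inl rfl))
  have k3 := fun a b d => key a b none d (Or.inr (Or.inr (Or.inl rfl)))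
  have k4 := fun a b c => key a b c none (Or.inr (Or.inr (Or.inr rfl)))
  simp only [Hb, Fintype.sum_option, k1, k2, k3, k4, Finset.sum_const_zero, zero_add]
  refine Finset.sum_congr rfl fun a _ => Finset.sum_congr rfl fun b _ =>
    Finset.sum_congr rfl fun c _ => Finset.sum_congr rfl fun d _ => ?_
  exact if_congr (hc a b c d) rfl rfl

open Classical in
/-- Indicator of the pair `a, b`. -/
noncomputable def dl (a b i j : ι) : ℝ := if (i = a ∧ j = b) ∨ (i = b ∧ j = a) then 1 else 0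

theorem dl_symm (a b i j : ι) : dl a b i j = dl a b j i := by
  classical
  unfold dl; exact if_congr (by grind) rfl rfl

theorem ext0_symm {y : ι → ι → ℝ} (ys : ∀ a b, y a b = y b a) (i j : Option ι) :
    ext0 y i j = ext0 y j i := by
  cases i <;> cases j <;> simp [ext0, ys]

/-- A new point that hides the pair `a, b` and keeps all points exposed. -/
theorem exists_q [Fintype ι] {p : ι → E4} (hp : Ext p)
    (hsp : ∀ l : E4, (∀ j, inner ℝ l (p j) = 0) → l = 0) {a b : ι} (ab : a ≠ b)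
    (h : Hull p a b) : ∃ q, Ext (add1 q p) ∧ ¬ Hull (add1 q p) (some a) (some b) := by
  choose z z0 z1 using hp
  have z2 : ∀ i j, 0 ≤ inner ℝ (z i) (p j) := fun i j => by
    by_cases e : j = i
    · rw [e, z0]
    · exact (z1 i j e).le
  have pos : ∀ l : E4, l ≠ 0 → (∀ j, 0 ≤ inner ℝ l (p j)) → 0 < inner ℝ l (∑ j, p j) := by
    intro l h0 h1
    rw [inner_sum]
    refine (Finset.sum_nonneg fun j _ => h1 j).lt_of_ne fun e => h0 (hsp l fun j => ?_)
    exact (Finset.sum_eq_zero_iff_of_nonneg fun j _ => h1 j).1 e.symm j (Finset.mem_univ _)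
  have ev : ∀ᶠ ε : ℝ in 𝓝[>] 0, ∀ i, 0 < inner ℝ (z i) (p a + p b - ε • ∑ j, p j) := by
    refine eventually_nhdsWithin_of_eventually_nhds (eventually_all.2 fun i => ?_)
    have c : Continuous fun ε : ℝ => inner ℝ (z i) (p a + p b - ε • ∑ j, p j) := by fun_prop
    refine c.continuousAt.eventually (lt_mem_nhds ?_)
    simp only [zero_smul, sub_zero, inner_add_right]
    by_cases e : a = i
    · exact add_pos_of_nonneg_of_pos (z2 _ _) (z1 i b fun k => ab (e.trans k.symm))
    · exact add_pos_of_pos_of_nonneg (z1 i a e) (z2 _ _)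
  obtain ⟨ε, e1, e2⟩ := (ev.and self_mem_nhdsWithin).exists
  have neg : ∀ l : E4, l ≠ 0 → (∀ j, 0 ≤ inner ℝ l (p j)) → inner ℝ l (p a) = 0 →
      inner ℝ l (p b) = 0 → inner ℝ l (p a + p b - ε • ∑ j, p j) < 0 := by
    intro l h0 h1 h2 h3
    rw [inner_sub_right, inner_add_right, h2, h3, real_inner_smul_right]
    have := mul_pos e2 (pos l h0 h1)
    linarith
  set q := p a + p b - ε • ∑ j, p j
  refine ⟨q, fun i => ?_, fun ⟨l, h0, h1, h2, h3⟩ =>
    (neg l h0 (fun j => h1 (some j)) h2 h3).not_ge (h1 none)⟩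
  cases i with
  | some i =>
    refine ⟨z i, z0 i, fun j hj => ?_⟩
    cases j with
    | none => exact e1 i
    | some j => exact z1 i j (by simpa using hj)
  | none =>
    obtain ⟨l, h0, h1, h2, h3⟩ := h
    have n := neg l h0 h1 h2 h3
    refine ⟨inner ℝ (z a + z b) q • l - inner ℝ l q • (z a + z b), ?_, fun j hj => ?_⟩
    · simp only [add1, inner_sub_left, real_inner_smul_left]; ring
    cases j with
    | none => exact absurd rfl hj
    | some j =>
      have m1 : 0 < inner ℝ (z a + z b) q := by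
        rw [inner_add_left]; exact add_pos (e1 a) (e1 b)
      have m2 : 0 < inner ℝ (z a + z b) (p j) := by
        rw [inner_add_left]
        by_cases e : j = a
        · exact add_pos_of_nonneg_of_pos (z2 _ _) (z1 b j fun k => ab (e.symm.trans k))
        · exact add_pos_of_pos_of_nonneg (z1 a j e) (z2 _ _)
      simp only [add1, inner_sub_left, real_inner_smul_left]
      nlinarith [mul_nonneg m1.le (h1 j), mul_pos (neg_pos.2 n) m2]

/-- The kernel lemma. -/
theorem ker [Fintype ι] (h1 : StPsd) (h5 : StCellSym) (h6 : StDense) {p : ι → E4} {w : ι → ℝ}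
    (hp : Ext p) (hw : Gen p w) (hsp : ∀ l : E4, (∀ j, inner ℝ l (p j) = 0) → l = 0)
    {y : ι → ι → ℝ} (ys : ∀ a b, y a b = y b a) (yh : ∀ a b, Hull p a b → y a b = 0)
    (h0 : ∀ o, GenO p o → Hb p o (Cell p w) y y = 0) {a b : ι} (ab : a ≠ b) :
    ∃ O : Set E4, Dense O ∧ IsOpen O ∧ ∀ o ∈ O, Hb p o (Cell p w) y (dl a b) = 0 := by
  by_cases h : Hull p a b
  · obtain ⟨q, q1, q2⟩ := exists_q hp hsp ab h
    obtain ⟨w', g, c1, c2⟩ := exists_w h6 hw q
    refine ⟨_, (h6 _ (add1 q p)).2.1, (h6 _ (add1 q p)).2.2, fun o ho => ?_⟩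
    have old : ∀ i j, Hull (add1 q p) (some i) (some j) → Hull p i j :=
      fun i j ⟨l, k0, k1, k2, k3⟩ => ⟨l, k0, fun m => k1 (some m), k2, k3⟩
    rw [← Hb_ext h5 o _ yh c1 c2]
    refine ker_of_psd (h1 _ _ o w' q1 ho g) (ext0_symm ys) (fun i j k => ?_)
      (ext0_symm (dl_symm a b)) (fun i j k => ?_) ?_
    · cases i <;> cases j <;> simp only [ext0]
      exact yh _ _ (old _ _ k)
    · cases i <;> cases j <;> simp only [ext0]
      refine if_neg ?_
      rintro (⟨rfl, rfl⟩ | ⟨rfl, rfl⟩)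
      exacts [q2 k, q2 (hull_symm k)]
    · rw [Hb_ext h5 o _ yh c1 c2]
      exact h0 o fun a b c => ho (some a) (some b) (some c)
  · refine ⟨_, (h6 _ p).2.1, (h6 _ p).2.2, fun o ho =>
      ker_of_psd (h1 _ _ o w hp ho hw) ys yh (dl_symm a b) (fun i j k => if_neg ?_) (h0 o ho)⟩
    rintro (⟨rfl, rfl⟩ | ⟨rfl, rfl⟩)
    exacts [h k, h (hull_symm k)]

open Classical in
theorem sum_ind [Fintype ι] (P : ι → Prop) (u : ∀ d d', P d → P d' → d = d') :
    ∑ d, (if P d then (1 : ℝ) else 0) = if ∃ d, P d then 1 else 0 := by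
  split_ifs with h
  · obtain ⟨d, h⟩ := h
    rw [Finset.sum_eq_single d (fun e _ ne => if_neg fun k => ne (u _ _ k h)) (by simp), if_pos h]
  · exact Finset.sum_eq_zero fun d _ => if_neg fun k => h ⟨d, k⟩

open Classical in
theorem bd_eq [Fintype ι] (h4 : StUniq) {p : ι → E4} {w : ι → ℝ} {S : ι → ι → ι → ι → Prop}
    {T : Tri ι} (s : Sym4 S) (hS : ∀ a b c d, S a b c d → Cell p w a b c d) (hB : IsBd p S T)
    (a b c : ι) :
    bd p S a b c = (if T.F a b c then 1 else 0) - (if T.F b a c then 1 else 0) := by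
  have e : ∀ d, (if S a b c d then (SignType.sign (d4 (p a) (p b) (p c) (p d)) : ℝ) else 0) =
      (if S a b c d ∧ 0 < d4 (p a) (p b) (p c) (p d) then 1 else 0) -
        (if S a b c d ∧ d4 (p a) (p b) (p c) (p d) < 0 then 1 else 0) := by
    intro d
    by_cases k : S a b c d
    · rcases lt_trichotomy (d4 (p a) (p b) (p c) (p d)) 0 with h | h | h
      · simp [k, h, h.not_gt, sign_neg h]
      · simp [k, h]
      · simp [k, h, h.not_gt, sign_pos h]
    · simp [k]
  have e1 := sum_ind (fun d => S a b c d ∧ 0 < d4 (p a) (p b) (p c) (p d)) fun d d' k k' =>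
    h4 _ p w a b c d d' (hS _ _ _ _ k.1) (hS _ _ _ _ k'.1) (mul_pos k.2 k'.2)
  have e2 := sum_ind (fun d => S a b c d ∧ d4 (p a) (p b) (p c) (p d) < 0) fun d d' k k' =>
    h4 _ p w a b c d d' (hS _ _ _ _ k.1) (hS _ _ _ _ k'.1) (mul_pos_of_neg_of_neg k.2 k'.2)
  have t1 := hB a b c
  have t2 := hB b a c
  have sw : ∀ d, S b a c d ↔ S a b c d := fun d => ⟨fun k => (s _ _ _ _ k).1, fun k => (s _ _ _ _ k).1⟩
  simp only [sw, d4_swap12 (p a) (p b), neg_pos, neg_lt_zero] at t2
  simp only [bd, e, Finset.sum_sub_distrib]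
  simp only [t1, t2]
  refine (congrArg₂ (· - ·) (Eq.trans (by congr!) e1) (Eq.trans (by congr!) e2)).trans ?_
  by_cases P : ∃ d, S a b c d ∧ 0 < d4 (p a) (p b) (p c) (p d) <;>
  by_cases N : ∃ d, S a b c d ∧ d4 (p a) (p b) (p c) (p d) < 0 <;>
  simp only [P, N, not_true, not_false_iff, and_true, and_false, if_true, if_false, sub_self]

theorem sum_dl [Fintype ι] {a b : ι} (ab : a ≠ b) (f : ι → ι → ℝ) :
    ∑ i, ∑ j, dl a b i j * f i j = f a b + f b a := by
  classical
  have e : ∀ i j, dl a b i j * f i j =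
      (if j = b then if i = a then f i j else 0 else 0) +
        (if j = a then if i = b then f i j else 0 else 0) := by
    intro i j
    unfold dl
    split_ifs <;> grind
  simp only [e, Finset.sum_add_distrib, Finset.sum_ite_eq', Finset.mem_univ, if_true]

theorem ell_swap (p ξ : ι → E4) (o : E4) (a b c : ι) (v : E4) :
    ell p ξ o b a c v = ell p ξ o a b c v := by
  rw [ell, ell, d4_swap12 (p a) (p b), d4_swap12 (p a) (p b), d4_swap12 (p a) v,
    d4_swap12 v (p b), div_neg, ← neg_div]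
  congr 1; ring

theorem exists_o2 {p : ι → E4} {o : E4} {S : ι → ι → ι → ι → Prop}
    (hS : ∀ a b c d, S a b c d → d4 (p a) (p b) (p c) (p d) ≠ 0) (ho : GenO p o) :
    ∃ o₂ : ι → ι → E4, ∀ a b c d, S a b c d → d4 (p a) (p b) o (o₂ a b) ≠ 0 := by
  have : ∀ a b, ∃ v, ∀ c d, S a b c d → d4 (p a) (p b) o v ≠ 0 := by
    intro a b
    by_cases h : ∃ c d, S a b c d
    · obtain ⟨c, d, h⟩ := h
      refine ⟨p c, fun _ _ _ => ?_⟩
      rw [d4_swap34]
      exact neg_ne_zero.2 (ho a b c ⟨_, hS _ _ _ _ h⟩)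
    · exact ⟨0, fun c d k => absurd ⟨c, d, k⟩ h⟩
  choose o₂ h using this
  exact ⟨o₂, h⟩

/-- The linear functions of twin faces agree. -/
theorem twin_ell [Fintype ι] (h2 : StL1) (h4 : StUniq) {p ξ : ι → E4} {w : ι → ℝ} {o : E4}
    {S : ι → ι → ι → ι → Prop} {T : Tri ι} (s : Sym4 S)
    (hS : ∀ a b c d, S a b c d → Cell p w a b c d) (hB : IsBd p S T) (ho : GenO p o)
    (hξ : ∀ a, inner ℝ (ξ a) (p a) = 0) {a b c d : ι} (k : T.F a b c) (k' : T.F b a d)
    (h0 : Hb p o S (dx p ξ) (dl a b) = 0) : ell p ξ o a b c (p d) = inner ℝ (ξ d) o := by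
  classical
  have hD := fun a b c d h => (hS a b c d h).1
  obtain ⟨o₂, h⟩ := exists_o2 hD ho
  have n : d4 (p a) (p b) (p d) o ≠ 0 := by
    obtain ⟨e, he, -⟩ := ((hB _ _ _).1 k').1
    exact ho a b d ⟨_, hD _ _ _ _ (s _ _ _ _ he).1⟩
  have n' : d4 (p a) (p b) o (p d) ≠ 0 := by rw [d4_swap34]; exact neg_ne_zero.2 n
  rw [h2 _ p ξ o S (dl a b)
    (fun i j => if (i = a ∧ j = b) ∨ (i = b ∧ j = a) then p d else o₂ i j) s hD ho hξ
    (dl_symm a b) (fun i j c' d' hs => by
      split_ifs with e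
      · rcases e with ⟨rfl, rfl⟩ | ⟨rfl, rfl⟩
        · exact n'
        · rw [d4_swap12]; exact neg_ne_zero.2 n'
      · exact h _ _ _ _ hs)] at h0
  simp only [mul_assoc, mul_div_assoc, ← Finset.mul_sum] at h0
  rw [sum_dl (T.ne k)] at h0
  have f1 : ∀ x, T.F a b x ↔ x = c := fun x => ⟨fun h => T.uniq h k, fun h => h ▸ k⟩
  have f2 : ∀ x, T.F b a x ↔ x = d := fun x => ⟨fun h => T.uniq h k', fun h => h ▸ k'⟩
  simp only [bd_eq h4 s hS hB, f1, f2, sub_mul, ite_mul, one_mul, zero_mul, and_self, true_or,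
    or_true, if_true, Finset.sum_sub_distrib, Finset.sum_ite_eq', Finset.mem_univ,
    ell_swap p ξ o a b, d4_swap12 (p a) (p b)] at h0
  have e : ell p ξ o a b d (p d) = inner ℝ (ξ d) o := by
    rw [ell, d4_self13, d4_self23]; field_simp; ring
  rw [← e]
  field_simp at h0
  linarith

theorem Hb_zero [Fintype ι] (h2 : StL1) (h4 : StUniq) {p ξ : ι → E4} {w : ι → ℝ} {o : E4}
    {S : ι → ι → ι → ι → Prop} {T : Tri ι} (s : Sym4 S)
    (hS : ∀ a b c d, S a b c d → Cell p w a b c d) (hB : IsBd p S T) (ho : GenO p o)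
    (hξ : ∀ a, inner ℝ (ξ a) (p a) = 0) {y : ι → ι → ℝ} (ys : ∀ a b, y a b = y b a)
    (yt : ∀ a b, T.adj a b → y a b = 0) : Hb p o S (dx p ξ) y = 0 := by
  have hD := fun a b c d h => (hS a b c d h).1
  obtain ⟨o₂, h⟩ := exists_o2 hD ho
  rw [h2 _ p ξ o S y o₂ s hD ho hξ ys h]
  refine mul_eq_zero_of_right _ (Finset.sum_eq_zero fun a _ => Finset.sum_eq_zero fun b _ =>
    Finset.sum_eq_zero fun c _ => ?_)
  by_cases e : T.adj a b
  · rw [yt a b e]; simp
  · rw [bd_eq h4 s hS hB, if_neg fun k => e (Tri.adj12 k), if_neg fun k => e (Tri.adj21 k)]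
    simp

/-- One linear function for all faces. -/
theorem exists_lin {p ξ : ι → E4} {o : E4} {T : Tri ι}
    (n : ∀ a b c, T.F a b c → d4 (p a) (p b) (p c) o ≠ 0)
    (h : ∀ a b c d, T.F a b c → T.F b a d → ell p ξ o a b c (p d) = inner ℝ (ξ d) o) :
    ∃ l : E4, inner ℝ l o = 0 ∧ ∀ i, inner ℝ l (p i) = inner ℝ (ξ i) o := by
  obtain ⟨a₀, b₀, c₀, k₀⟩ := T.exists_face
  obtain ⟨l, l1, l2, l3, l4⟩ := exists_dual4 (n _ _ _ k₀) (inner ℝ (ξ a₀) o) (inner ℝ (ξ b₀) o)
    (inner ℝ (ξ c₀) o) 0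
  refine ⟨l, l4, fun i => ?_⟩
  obtain ⟨b, c, k⟩ := T.cover i
  refine (T.conn (fun a b c => inner ℝ l (p a) = inner ℝ (ξ a) o ∧
    inner ℝ l (p b) = inner ℝ (ξ b) o ∧ inner ℝ l (p c) = inner ℝ (ξ c) o)
    (fun a b c _ s => ⟨s.2.1, s.2.2, s.1⟩) (fun a b c d k k' s => ⟨s.2.1, s.1, ?_⟩)
    _ _ _ _ _ _ k₀ k ⟨l1, l2, l3⟩).1
  have e := congrArg (inner ℝ l) (cramer4 (p a) (p b) (p c) o (p d))
  simp only [inner_add_right, real_inner_smul_right, s.1, s.2.1, s.2.2, l4] at e
  rw [← h a b c d k k', ell, eq_div_iff (n _ _ _ k)]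
  linarith

theorem final {p ξ : ι → E4} {O : Set E4} (hO : Dense O) {a b c d : ι}
    (hD : d4 (p a) (p b) (p c) (p d) ≠ 0)
    (h : ∀ o ∈ O, ∃ l : E4, inner ℝ l o = 0 ∧ ∀ i, inner ℝ l (p i) = inner ℝ (ξ i) o) (i j : ι) :
    dx p ξ i j = 0 := by
  let B : E4 → E4 → ℝ := fun u v => d4 u (p b) (p c) (p d) * inner ℝ (ξ a) v +
    d4 (p a) u (p c) (p d) * inner ℝ (ξ b) v + d4 (p a) (p b) u (p d) * inner ℝ (ξ c) v +
    d4 (p a) (p b) (p c) u * inner ℝ (ξ d) v
  have key : ∀ o ∈ O, B o o = 0 ∧ ∀ i, d4 (p a) (p b) (p c) (p d) * inner ℝ (ξ i) o = B (p i) o := by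
    intro o ho
    obtain ⟨l, l0, l1⟩ := h o ho
    have e := fun v => congrArg (inner ℝ l) (cramer4 (p a) (p b) (p c) (p d) v)
    simp only [inner_add_right, real_inner_smul_right, l1] at e
    exact ⟨by rw [← mul_zero (d4 (p a) (p b) (p c) (p d)), ← l0, e], fun i => by rw [← l1, e]⟩
  have k1 : ∀ o, B o o = 0 := fun o =>
    congrFun (Continuous.ext_on hO (f := fun o => B o o) (g := fun _ => 0)
      (by simp only [B]; fun_prop) continuous_const fun o ho => (key o ho).1) o
  have k2 : ∀ i o, d4 (p a) (p b) (p c) (p d) * inner ℝ (ξ i) o = B (p i) o := fun i o =>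
    congrFun (Continuous.ext_on hO (f := fun o => d4 (p a) (p b) (p c) (p d) * inner ℝ (ξ i) o)
      (g := fun o => B (p i) o) (by fun_prop) (by simp only [B]; fun_prop)
      fun o ho => (key o ho).2 i) o
  have k3 : B (p i + p j) (p i + p j) =
      B (p i) (p i) + B (p i) (p j) + B (p j) (p i) + B (p j) (p j) := by
    simp only [B, inner_add_right, d4, m3, PiLp.add_apply]; ring
  rw [k1, k1, k1, ← k2, ← k2] at k3
  refine (mul_eq_zero.1 ?_).resolve_left hD
  rw [dx, real_inner_comm (ξ j)]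
  linarith

end RigB

open RigB in
theorem stRigB (h1 : StPsd) (h2 : StL1) (h3 : StWalk) (h4 : StUniq) (h5 : StCellSym)
    (h6 : StDense) : StRigB := by
  intro ι _ p ξ w S T hp hw s hS hB hξ hx
  classical
  have sc := h5 _ p w
  obtain ⟨a₀, b₀, c₀, k₀⟩ := T.exists_face
  obtain ⟨d₀, s₀, -⟩ := ((hB _ _ _).1 k₀).1
  have hD := (hS _ _ _ _ s₀).1
  have hsp : ∀ l : E4, (∀ j, inner ℝ l (p j) = 0) → l = 0 := fun l h =>
    eq_zero_of_inner4 hD (by rw [real_inner_comm, h]) (by rw [real_inner_comm, h])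
      (by rw [real_inner_comm, h]) (by rw [real_inner_comm, h])
  let y : ι → ι → ℝ := fun a b => if ∃ c d, S a b c d then dx p ξ a b else 0
  have ys : ∀ a b, y a b = y b a := fun a b =>
    if_congr ⟨fun ⟨c, d, k⟩ => ⟨c, d, (s _ _ _ _ k).1⟩, fun ⟨c, d, k⟩ => ⟨c, d, (s _ _ _ _ k).1⟩⟩
      (by rw [dx, dx, add_comm, real_inner_comm (p a), real_inner_comm (ξ a)]) rfl
  have yt : ∀ a b, T.adj a b → y a b = 0 := fun a b k => by simp only [y, hx a b k, ite_self]
  have yw : ∀ a b, ((∃ c d, Cell p w a b c d ∧ ¬ S a b c d) ∨ Hull p a b) → y a b = 0 := by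
    intro a b k
    by_cases e : ∃ c d, S a b c d
    · obtain ⟨c, d, e⟩ := e
      exact yt a b (h3 _ p w S T hw s hS hB a b c d e k)
    · exact if_neg e
  have tr : ∀ (o : E4) (z : ι → ι → ℝ), Hb p o (Cell p w) y z = Hb p o S (dx p ξ) z := by
    intro o z
    refine Hb_sub hS z (fun a b c d k n => ?_) fun a b c d k => ?_
    · have s1 := fun a b c d (k : S a b c d) => (s a b c d k).1
      have s2 := fun a b c d (k : S a b c d) => (s a b c d k).2.1
      have s3 := fun a b c d (k : S a b c d) => (s a b c d k).2.2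
      have c1 := fun a b c d (k : Cell p w a b c d) => (sc a b c d k).1
      have c2 := fun a b c d (k : Cell p w a b c d) => (sc a b c d k).2.1
      have c3 := fun a b c d (k : Cell p w a b c d) => (sc a b c d k).2.2
      rw [Rq, yw a b (Or.inl ⟨c, d, k, n⟩),
        yw a c (Or.inl ⟨b, d, c2 _ _ _ _ k, fun h => n (s2 _ _ _ _ h)⟩),
        yw a d (Or.inl ⟨b, c, c2 _ _ _ _ (c3 _ _ _ _ k), fun h => n (s3 _ _ _ _ (s2 _ _ _ _ h))⟩),
        yw b c (Or.inl ⟨a, d, c2 _ _ _ _ (c1 _ _ _ _ k), fun h => n (s1 _ _ _ _ (s2 _ _ _ _ h))⟩),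
        yw b d (Or.inl ⟨a, c, c2 _ _ _ _ (c3 _ _ _ _ (c1 _ _ _ _ k)),
          fun h => n (s1 _ _ _ _ (s3 _ _ _ _ (s2 _ _ _ _ h)))⟩),
        yw c d (Or.inl ⟨a, b, c2 _ _ _ _ (c3 _ _ _ _ (c1 _ _ _ _ (c2 _ _ _ _ k))),
          fun h => n (s2 _ _ _ _ (s1 _ _ _ _ (s3 _ _ _ _ (s2 _ _ _ _ h))))⟩)]
      ring
    · have s1 := fun a b c d (k : S a b c d) => (s a b c d k).1
      have s2 := fun a b c d (k : S a b c d) => (s a b c d k).2.1
      have s3 := fun a b c d (k : S a b c d) => (s a b c d k).2.2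
      have e : ∀ a b c d, S a b c d → y a b = dx p ξ a b := fun a b c d k => if_pos ⟨c, d, k⟩
      rw [Rq, Rq, e a b _ _ k, e a c _ _ (s2 _ _ _ _ k), e a d _ _ (s2 _ _ _ _ (s3 _ _ _ _ k)),
        e b c _ _ (s2 _ _ _ _ (s1 _ _ _ _ k)), e b d _ _ (s2 _ _ _ _ (s3 _ _ _ _ (s1 _ _ _ _ k))),
        e c d _ _ (s2 _ _ _ _ (s3 _ _ _ _ (s1 _ _ _ _ (s2 _ _ _ _ k))))]
  have K : ∀ t : ι × ι, ∃ O : Set E4, Dense O ∧ IsOpen O ∧
      ∀ o ∈ O, t.1 ≠ t.2 → Hb p o S (dx p ξ) (dl t.1 t.2) = 0 := by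
    intro t
    by_cases ab : t.1 = t.2
    · exact ⟨Set.univ, dense_univ, isOpen_univ, fun _ _ h => absurd ab h⟩
    obtain ⟨O, o1, o2, o3⟩ := ker h1 h5 h6 hp hw hsp ys (fun a b k => yw a b (Or.inr k))
      (fun o ho => by rw [tr]; exact Hb_zero h2 h4 s hS hB ho hξ ys yt) ab
    exact ⟨O, o1, o2, fun o ho _ => by rw [← tr]; exact o3 o ho⟩
  choose O o1 o2 o3 using K
  refine final ((dense_iInter_of_isOpen o2 o1).inter_of_isOpen_right (h6 _ p).2.1 (h6 _ p).2.2)
    hD fun o ho => exists_lin (T := T) (fun a b c k => ?_) fun a b c d k k' => ?_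
  · obtain ⟨d, e, -⟩ := ((hB _ _ _).1 k).1
    exact ho.2 a b c ⟨_, (hS _ _ _ _ e).1⟩
  · exact twin_ell h2 h4 s hS hB ho.2 hξ k k' (o3 (a, b) o (Set.mem_iInter.1 ho.1 _) (T.ne k))

end Pool.Agent.Lib.MP_34b931_co.G
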