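import Pool.Agent.Lib.MP_34b931_co.H22Tri

/-! The continuity argument for simple spherical ball-polyhedra. -/

namespace Pool.Agent.Lib.MP_34b931_co.G

open Filter Topology Set

namespace S

variable {ι : Type}

theorem exists_iso4 [Fintype ι] (u u' : ι → E4)
    (h : ∀ i j, inner ℝ (u i) (u j) = inner ℝ (u' i) (u' j)) :
    ∃ L : E4 ≃ₗᵢ[ℝ] E4, ∀ i, L (u i) = u' i := by
  classical
  let f := Fintype.linearCombination ℝ u
  let f' := Fintype.linearCombination ℝ u'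
  have hin : ∀ x y, inner ℝ (f x) (f y) = inner ℝ (f' x) (f' y) := by
    intro x y
    simp only [f, f', Fintype.linearCombination_apply, sum_inner, inner_sum, real_inner_smul_left,
      real_inner_smul_right, h]
  have hk : LinearMap.ker f ≤ LinearMap.ker f' := by
    intro x hx
    rw [LinearMap.mem_ker] at hx ⊢
    have := hin x x
    rw [hx, inner_zero_left] at this
    exact inner_self_eq_zero.1 this.symm
  let g : LinearMap.range f →ₗ[ℝ] E4 :=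
    ((LinearMap.ker f).liftQ f' hk).comp f.quotKerEquivRange.symm.toLinearMap
  have hg : ∀ x, g ⟨f x, x, rfl⟩ = f' x := by
    intro x
    simp only [g, LinearMap.comp_apply, LinearEquiv.coe_coe]
    rw [LinearMap.quotKerEquivRange_symm_apply_image]
    rfl
  let G := g.isometryOfInner (by
    rintro ⟨_, x, rfl⟩ ⟨_, y, rfl⟩
    rw [hg, hg, ← hin]; rfl)
  refine ⟨G.extend.toLinearIsometryEquiv rfl, fun i => ?_⟩
  have e1 : f (Pi.single i 1) = u i := by simp [f]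
  have e2 : f' (Pi.single i 1) = u' i := by simp [f']
  rw [LinearIsometry.toLinearIsometryEquiv_apply, ← e1, ← e2, ← hg]
  exact G.extend_apply ⟨f (Pi.single i 1), _, rfl⟩

theorem gm_symm (τ : ℝ) (u : ι → E4) (a b : ι) : gm τ u a b = gm τ u b a := by
  rw [gm, gm, real_inner_comm]

theorem sq_lt {τ : ℝ} (h0 : 0 ≤ τ) (h1 : τ < 1) : τ ^ 2 < 1 := by nlinarith

theorem gm_sub {τ : ℝ} (h : τ ^ 2 < 1) (u v : ι → E4) (a b : ι) :
    inner ℝ (u a) (u b) - inner ℝ (v a) (v b) = (1 - τ ^ 2) * (gm τ u a b - gm τ v a b) := by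
  have : 1 - τ ^ 2 ≠ 0 := by linarith
  simp only [gm]
  field_simp
  ring

theorem gm_tendsto {τ : ℝ} (h : τ ^ 2 < 1) (u : ι → E4) :
    Tendsto (fun q : ℝ × (ι → E4) => gm q.1 q.2) (𝓝 (τ, u)) (𝓝 (gm τ u)) := by
  refine tendsto_pi_nhds.2 fun a => tendsto_pi_nhds.2 fun b => ?_
  have : ContinuousAt (fun q : ℝ × (ι → E4) => gm q.1 q.2 a b) (τ, u) := by
    simp only [gm]
    refine ContinuousAt.div (by fun_prop) (by fun_prop) ?_
    simp only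
    linarith
  exact this

theorem generic_congr {T T' : Tri ι} {G G' : ι → ι → ℝ} (h : Generic T G)
    (e : ∀ a b, T.adj a b → T'.adj a b ∧ G' a b = G a b) : Generic T' G' := fun s hs =>
  h s fun a b k => (e a b k).2 ▸ hs a b (e a b k).1

theorem generic_cls [Fintype ι] (hStep : StGenStep) {X Y : Tri ι × (ι → ι → ℝ)}
    (h : Relation.ReflTransGen Step X Y) (h0 : Generic X.1 X.2) : Generic Y.1 Y.2 := by
  induction h with
  | refl => exact h0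
  | tail _ s ih => exact hStep ι _ _ s ih

/-- A state at level `τ` in the class of `(T₀, G₀)`. -/
def St (T₀ : Tri ι) (G₀ : ι → ι → ℝ) (τ : ℝ) (u : ι → E4) : Prop :=
  ∃ T, Good τ u T ∧ Cls T₀ G₀ T (gm τ u)

theorem cont [Fintype ι] (hMet : StMet) (hFlip : StFlipAll) (hOp : StOpen) (hDg : StDg)
    (hS2 : StSolve2) (hType : StType) {τ : ℝ} {u : ι → E4} {T : Tri ι} (h : Reg τ u T)
    {U : Set (ι → E4)} (hU : U ∈ 𝓝 u) : ∀ᶠ σ in 𝓝 τ, ∃ v ∈ U, St T (gm τ u) σ v := by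
  have t2 := sq_lt h.nn h.lt
  have e1 : ∀ᶠ q : ℝ × (ι → E4) in 𝓝 (τ, u), ∀ T₁ : Tri ι, Reg τ u T₁ → Un q.2 →
      (∀ x a b c d, QuadAt τ u x a b c d → T₁.F a b c →
        0 ≤ d4 (u a) (u b) (u c) (u d) * Dg (gm q.1 q.2) a b c d) → Good q.1 q.2 T₁ := by
    refine eventually_all.2 fun T₁ => ?_
    by_cases k : Reg τ u T₁
    · exact (hOp ι τ u T₁ k).mono fun q hq _ => hq
    · exact .of_forall fun q k' => absurd k' k
  have e2 := (gm_tendsto t2 u).eventually (hDg ι τ u t2 h.good.un)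
  have e3 : ∀ᶠ q : ℝ × (ι → E4) in 𝓝 (τ, u), q.1 ^ 2 < 1 :=
    ContinuousAt.eventually_lt (by fun_prop) continuousAt_const t2
  obtain ⟨V, hV, W, hW, hVW⟩ := mem_nhds_prod_iff.1 (e1.and (e2.and e3))
  filter_upwards [hS2 ι τ u T h _ (inter_mem hU hW), hV] with σ ⟨v, hv, un, hs, hq⟩ hσ
  obtain ⟨k1, k2, k3⟩ := hVW (mk_mem_prod hσ hv.2)
  obtain ⟨T₁, r1, c1, ch⟩ := hFlip ι τ u T (fun a b c d => gm σ v a c = gm τ u a c ∧
    0 ≤ d4 (u a) (u b) (u c) (u d) * (gm σ v b d - gm τ u b d)) h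
    (fun x a b c d q => (hq x a b c d q).imp id fun k => ⟨k.1, by
      rw [d4_rot, gm_symm σ v c a, gm_symm τ u c a]; linarith [k.2]⟩)
    (fun a b c d k => by
      rw [d4_rot2, gm_symm σ v c a, gm_symm τ u c a, gm_symm σ v d b, gm_symm τ u d b]; exact k)
  obtain ⟨ty1, ty2⟩ := hType ι τ u T₁ r1
  have ag : ∀ a b, T₁.adj a b → gm σ v a b = gm τ u a b := by
    rintro a b ⟨c, f⟩
    rcases ty2 a b c f with ⟨x, s⟩ | ⟨x, d, q⟩
    · exact hs x a b s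
    · rcases ty1 x a d b c q with k | k
      · exact (ch x a d b c q k.1).1
      · exact absurd ⟨c, f⟩ k.2.2
  have gd : Good σ v T₁ := by
    refine k1 T₁ r1 un fun x a b c d q f => ?_
    rcases ty1 x a b c d q with k | k
    · obtain ⟨L, l0, e⟩ := k2 x a b c d q (ag _ _ (Tri.adj12 f)) (ag _ _ (Tri.adj13 f))
        (ag _ _ (Tri.adj13 k.2.1)) (ag _ _ (Tri.adj23 f)) (ag _ _ (Tri.adj23 k.2.1))
      have := (ch x a b c d q f).2
      simp only at e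
      rw [e, mul_left_comm]
      positivity
    · exact absurd (Tri.adj13 f) k.2.2
  exact ⟨v, hv.1, T₁, gd, c1.trans (Relation.ReflTransGen.single
    (Step.agree (hMet ι τ u T₁ t2 r1.good) (hMet ι σ v T₁ k3 gd) ag))⟩

theorem near [Fintype ι] (hNec : StNec) (hDg : StDg) (hType : StType) {τ : ℝ} {u : ι → E4}
    {T : Tri ι} (h : Reg τ u T) : ∀ᶠ q : ℝ × (ι → E4) in 𝓝 (τ, u), Good q.1 q.2 T →
      (∀ a b, T.adj a b → gm q.1 q.2 a b = gm τ u a b) → ∀ x a b c d, QuadAt τ u x a b c d →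
      (gm q.1 q.2 a c = gm τ u a c ∧
        0 ≤ d4 (u a) (u b) (u c) (u d) * (gm q.1 q.2 b d - gm τ u b d)) ∨
      (gm q.1 q.2 b d = gm τ u b d ∧
        d4 (u a) (u b) (u c) (u d) * (gm q.1 q.2 a c - gm τ u a c) ≤ 0) := by
  have t2 := sq_lt h.nn h.lt
  filter_upwards [hNec ι τ u t2, (gm_tendsto t2 u).eventually (hDg ι τ u t2 h.good.un)]
    with q k1 k2 gd ag
  have key : ∀ x a b c d, QuadAt τ u x a b c d → T.F a b c → T.F a c d →
      0 ≤ d4 (u a) (u b) (u c) (u d) * (gm q.1 q.2 b d - gm τ u b d) := by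
    intro x a b c d qd f f'
    obtain ⟨L, l0, e⟩ := k2 x a b c d qd (ag _ _ (Tri.adj12 f)) (ag _ _ (Tri.adj13 f))
      (ag _ _ (Tri.adj13 f')) (ag _ _ (Tri.adj23 f)) (ag _ _ (Tri.adj23 f'))
    have := k1 T gd x a b c d qd f
    rw [e, mul_left_comm] at this
    exact nonneg_of_mul_nonneg_right (by linarith) l0 |> fun h => h
  intro x a b c d qd
  rcases (hType ι τ u T h).1 x a b c d qd with k | k
  · exact Or.inl ⟨ag _ _ (Tri.adj12 k.2.1), key x a b c d qd k.1 k.2.1⟩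
  · refine Or.inr ⟨ag _ _ (Tri.adj12 k.2.1), ?_⟩
    have := key x b c d a qd.rot k.1 k.2.1
    rw [d4_rot, gm_symm q.1 q.2 c a, gm_symm τ u c a] at this
    linarith

theorem nomerge [Fintype ι] (hNec : StNec) (hDg : StDg) (hType : StType) (hInj : StInj) {τ : ℝ}
    {u : ι → E4} {T T' : Tri ι} (h : Reg τ u T) (h' : Reg τ u T') :
    ∀ᶠ q : ℝ × (ι → E4) × (ι → E4) in 𝓝 (τ, u, u), Good q.1 q.2.1 T → Good q.1 q.2.2 T' →
      (∀ a b, T.adj a b → gm q.1 q.2.1 a b = gm τ u a b) →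
      (∀ a b, T'.adj a b → gm q.1 q.2.2 a b = gm τ u a b) →
      ∀ a b, inner ℝ (q.2.1 a) (q.2.1 b) = inner ℝ (q.2.2 a) (q.2.2 b) := by
  have t2 := sq_lt h.nn h.lt
  have c1 : Tendsto (fun q : ℝ × (ι → E4) × (ι → E4) => (q.1, q.2.1)) (𝓝 (τ, u, u)) (𝓝 (τ, u)) :=
    Continuous.tendsto' (by fun_prop) _ _ rfl
  have c2 : Tendsto (fun q : ℝ × (ι → E4) × (ι → E4) => (q.1, q.2.2)) (𝓝 (τ, u, u)) (𝓝 (τ, u)) :=
    Continuous.tendsto' (by fun_prop) _ _ rfl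
  have c3 : Tendsto (fun q : ℝ × (ι → E4) × (ι → E4) => q.2) (𝓝 (τ, u, u)) (𝓝 (u, u)) :=
    Continuous.tendsto' (by fun_prop) _ _ rfl
  have e3 : ∀ᶠ q : ℝ × (ι → E4) × (ι → E4) in 𝓝 (τ, u, u), q.1 ^ 2 < 1 :=
    ContinuousAt.eventually_lt (by fun_prop) continuousAt_const t2
  filter_upwards [c1.eventually (near hNec hDg hType h), c2.eventually (near hNec hDg hType h'),
    c3.eventually (hInj ι τ u T h), e3] with q k1 k2 k3 k4 g1 g2 a1 a2
  refine k3 (fun a => (g1.un a).trans (g2.un a).symm) (fun x a b s => ?_) fun x a b c d qd => ?_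
  · obtain ⟨c, f, -⟩ := h.good.side x a b s
    obtain ⟨c', f', -⟩ := h'.good.side x a b s
    rw [← sub_eq_zero, gm_sub k4, a1 _ _ ⟨_, f⟩, a2 _ _ ⟨_, f'⟩]
    ring
  · have ne : d4 (u a) (u b) (u c) (u d) ≠ 0 := by
      obtain ⟨p, x1, x2, x3, x4, y1, y2, y3, y4⟩ := qd
      refine (h.loc.four x a b c d p x1 x2 x3 x4 y1 ?_ ?_ ?_).1 <;> rintro rfl
      · rw [d4_self13] at y2; exact lt_irrefl _ y2
      · rw [d4_self23] at y3; exact lt_irrefl _ y3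
      · rw [d4_self23] at y2; exact lt_irrefl _ y2
    have d2 : 0 < d4 (u a) (u b) (u c) (u d) ^ 2 := by positivity
    rw [gm_sub k4, gm_sub k4, mul_mul_mul_comm]
    refine mul_nonneg (mul_self_nonneg _) (nonneg_of_mul_nonneg_right ?_ d2)
    rcases k1 g1 a1 x a b c d qd with m1 | m1 <;> rcases k2 g2 a2 x a b c d qd with m2 | m2
    · rw [m1.1, m2.1]; simp
    · rw [m1.1, m2.1]; nlinarith [mul_nonneg m1.2 (neg_nonneg.2 m2.2)]
    · rw [m1.1, m2.1]; nlinarith [mul_nonneg m2.2 (neg_nonneg.2 m1.2)]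
    · rw [m1.1, m2.1]; simp

end S

open S in
theorem stS (hIso : StIso) (hFin : StFin) (hStep : StGenStep) (hDense : StGenDense)
    (hMet : StMet) (hFlip : StFlipAll) (hGR : StGenReg) (hSR : StSReg) (hMap : StMap)
    (hCl : StClosed) (hOp : StOpen) (hNec : StNec) (hDg : StDg) (hInj : StInj) (hFull : StFull)
    (hS1 : StSolve1) (hS2 : StSolve2) (hAlex : StAlex) (hType : StType) : StS := by
  intro ι _ τ₀ u₀ u₀' T₀ n0 l0 s1 s2 ag0
  classical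
  by_contra hne
  push Not at hne
  obtain ⟨a₀, b₀, hne⟩ := hne
  have t0 := sq_lt n0 l0
  obtain ⟨r1, q1⟩ := hSR ι τ₀ u₀ T₀ n0 l0 s1
  obtain ⟨r2, q2⟩ := hSR ι τ₀ u₀' T₀ n0 l0 s2
  have sep : ∀ (u u' : ι → E4) (a b : ι), inner ℝ (u a) (u b) ≠ inner ℝ (u' a) (u' b) →
      ∃ U ∈ 𝓝 u, ∃ U' ∈ 𝓝 u', ∀ v ∈ U, ∀ v' ∈ U', inner ℝ (v a) (v b) ≠ inner ℝ (v' a) (v' b) := by
    intro u u' a b h
    have : ∀ᶠ q : (ι → E4) × (ι → E4) in 𝓝 (u, u'),
        inner ℝ (q.1 a) (q.1 b) ≠ inner ℝ (q.2 a) (q.2 b) :=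
      (isOpen_ne_fun (by fun_prop) (by fun_prop)).mem_nhds h
    obtain ⟨U, hU, U', hU', k⟩ := mem_nhds_prod_iff.1 this
    exact ⟨U, hU, U', hU', fun v hv v' hv' => k (mk_mem_prod hv hv')⟩
  have op : ∀ u : ι → E4, Reg τ₀ u T₀ → (∀ x a b c d, ¬ QuadAt τ₀ u x a b c d) →
      ∀ᶠ v in 𝓝 u, Un v → Good τ₀ v T₀ := fun u r q => by
    have c : Tendsto (fun v : ι → E4 => (τ₀, v)) (𝓝 u) (𝓝 (τ₀, u)) :=
      Continuous.tendsto' (by fun_prop) _ _ rfl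
    exact (c.eventually (hOp ι τ₀ u T₀ r)).mono fun v k un =>
      k un fun x a b c d qd => absurd qd (q x a b c d)
  -- a generic pair at level `τ₀`
  obtain ⟨v₀, v₀', g1, g2, gen, ag1, ne1⟩ : ∃ v v', Good τ₀ v T₀ ∧ Good τ₀ v' T₀ ∧
      Generic T₀ (gm τ₀ v) ∧ (∀ a b, T₀.adj a b → gm τ₀ v' a b = gm τ₀ v a b) ∧
      inner ℝ (v a₀) (v b₀) ≠ inner ℝ (v' a₀) (v' b₀) := by
    obtain ⟨U, hU, U', hU', k⟩ := sep _ _ _ _ hne
    have e1 := hS1 ι τ₀ u₀ T₀ r1 q1 _ (inter_mem hU (op u₀ r1 q1))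
    have e2 := hS1 ι τ₀ u₀' T₀ r2 q2 _ (inter_mem hU' (op u₀' r2 q2))
    have c : Tendsto (fun (G : ι → ι → ℝ) a b => if T₀.adj a b then G a b else gm τ₀ u₀' a b)
        (𝓝 (gm τ₀ u₀)) (𝓝 (gm τ₀ u₀')) := by
      refine Continuous.tendsto' (continuous_pi fun a => continuous_pi fun b => ?_) _ _ ?_
      · split_ifs <;> fun_prop
      · funext a b
        split_ifs with h
        · rw [gm, gm, ag0 a b h]
        · rfl
    obtain ⟨G, ⟨k1, k2⟩, sy, gen⟩ := hDense ι T₀ (gm τ₀ u₀) (hFull ι τ₀ u₀ T₀ r1) (gm_symm _ _) _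
      (e1.and (c.eventually e2))
    obtain ⟨v, hv, un, e⟩ := k1 sy
    obtain ⟨v', hv', un', e'⟩ := k2 fun a b => by
      by_cases h : T₀.adj a b
      · simp only [if_pos h, if_pos h.symm, sy a b]
      · simp only [if_neg h, if_neg (mt Tri.adj.symm h), gm_symm τ₀ u₀' a b]
    exact ⟨v, v', hv.2 un, hv'.2 un', generic_congr gen fun a b h => ⟨h, e a b h⟩,
      fun a b h => by rw [e' a b h, e a b h]; exact if_pos h, k v hv.1 v' hv'.1⟩
  have m0 := hMet ι τ₀ v₀ T₀ t0 g1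
  obtain ⟨L, hL, hL'⟩ := hFin ι T₀ _ m0
  have inL : ∀ T G, Cls T₀ (gm τ₀ v₀) T G → ∀ a b, T.adj a b → G a b ∈ L := by
    intro T G c
    obtain ⟨f, g, -, i2, -⟩ := hIso ι _ _ _ _ c
    exact hL' T G g (c.met m0) i2
  let B : Set (ℝ × (ι → E4) × (ι → E4)) := {q | 0 ≤ q.1 ∧ q.1 ≤ τ₀ ∧ St T₀ (gm τ₀ v₀) q.1 q.2.1 ∧
    St T₀ (gm τ₀ v₀) q.1 q.2.2 ∧ ∃ a b, inner ℝ (q.2.1 a) (q.2.1 b) ≠ inner ℝ (q.2.2 a) (q.2.2 b)}
  have b0 : (τ₀, v₀, v₀') ∈ B := ⟨n0, le_rfl, ⟨T₀, g1, .refl⟩,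
    ⟨T₀, g2, .single (Step.agree m0 (hMet ι τ₀ v₀' T₀ t0 g2) ag1)⟩, a₀, b₀, ne1⟩
  have kc : IsCompact (Icc 0 τ₀ ×ˢ (univ.pi fun _ : ι => Metric.sphere (0 : E4) 1) ×ˢ
      univ.pi fun _ : ι => Metric.sphere (0 : E4) 1) :=
    isCompact_Icc.prod ((isCompact_univ_pi fun _ => isCompact_sphere _ _).prod
      (isCompact_univ_pi fun _ => isCompact_sphere _ _))
  have sub : closure B ⊆ Icc 0 τ₀ ×ˢ (univ.pi fun _ : ι => Metric.sphere (0 : E4) 1) ×ˢ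
      univ.pi fun _ : ι => Metric.sphere (0 : E4) 1 := by
    refine closure_minimal ?_ kc.isClosed
    rintro q ⟨h1, h2, ⟨T, g, -⟩, ⟨T', g', -⟩, -⟩
    exact ⟨⟨h1, h2⟩, fun i _ => by simpa using g.un i, fun i _ => by simpa using g'.un i⟩
  obtain ⟨⟨τ, u, u'⟩, hq, hmin⟩ := (kc.of_isClosed_subset isClosed_closure sub).exists_isMinOn
    ⟨_, subset_closure b0⟩ (continuous_fst (Y := (ι → E4) × (ι → E4))).continuousOn
  have l1 : τ < 1 := (sub hq).1.2.trans_lt l0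
  let Γ : Set (ι → ι → ℝ) := univ.pi fun _ => univ.pi fun _ => insert 0 L
  have hΓ : Γ.Finite := Finite.pi fun _ => Finite.pi fun _ => hL.insert 0
  let B' : (Tri ι × Tri ι) × Γ × Γ → Set (ℝ × (ι → E4) × (ι → E4)) := fun i => {q | 0 ≤ q.1 ∧
    Good q.1 q.2.1 i.1.1 ∧ Good q.1 q.2.2 i.1.2 ∧ Cls T₀ (gm τ₀ v₀) i.1.1 (gm q.1 q.2.1) ∧
    Cls T₀ (gm τ₀ v₀) i.1.2 (gm q.1 q.2.2) ∧
    (∀ a b, i.1.1.adj a b → gm q.1 q.2.1 a b = i.2.1.1 a b) ∧
    (∀ a b, i.1.2.adj a b → gm q.1 q.2.2 a b = i.2.2.1 a b) ∧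
    ∃ a b, inner ℝ (q.2.1 a) (q.2.1 b) ≠ inner ℝ (q.2.2 a) (q.2.2 b)}
  have cov : B ⊆ ⋃ i, B' i := by
    rintro q ⟨h1, -, ⟨T, g, c⟩, ⟨T', g', c'⟩, h3⟩
    have mk : ∀ T G, Cls T₀ (gm τ₀ v₀) T G →
        (fun a b => if T.adj a b then G a b else 0) ∈ Γ := fun T G c a _ b _ => by
      by_cases h : T.adj a b
      · simp only [if_pos h]; exact Or.inr (inL T G c a b h)
      · simp only [if_neg h]; exact Or.inl rfl
    exact mem_iUnion.2 ⟨((T, T'), ⟨_, mk _ _ c⟩, ⟨_, mk _ _ c'⟩), h1, g, g', c, c',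
      fun a b h => (if_pos h).symm, fun a b h => (if_pos h).symm, h3⟩
  have := hΓ.to_subtype
  have hq' := closure_mono cov hq
  rw [closure_iUnion_of_finite] at hq'
  obtain ⟨⟨⟨T, T'⟩, G, G'⟩, hi⟩ := mem_iUnion.1 hq'
  obtain ⟨⟨σ, w, w'⟩, -, -, -, cw, cw', aw, aw', -⟩ := closure_nonempty_iff.1 ⟨_, hi⟩
  have gw := generic_cls hStep cw gen
  have gw' := generic_cls hStep cw' gen
  obtain ⟨n1, gu, au⟩ := hCl ι T (gm σ w) τ u (cw.met m0) gw l1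
    (map_mem_closure (f := fun q : ℝ × (ι → E4) × (ι → E4) => (q.1, q.2.1)) (by fun_prop) hi
      fun q k => ⟨k.1, k.2.1, fun a b h => (k.2.2.2.2.2.1 a b h).trans (aw a b h).symm⟩)
  obtain ⟨-, gu', au'⟩ := hCl ι T' (gm σ w') τ u' (cw'.met m0) gw' l1
    (map_mem_closure (f := fun q : ℝ × (ι → E4) × (ι → E4) => (q.1, q.2.2)) (by fun_prop) hi
      fun q k => ⟨k.1, k.2.2.1, fun a b h => (k.2.2.2.2.2.2.1 a b h).trans (aw' a b h).symm⟩)
  have t2 := sq_lt n1 l1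
  have cu : Cls T₀ (gm τ₀ v₀) T (gm τ u) :=
    cw.trans (.single (Step.agree (cw.met m0) (hMet ι τ u T t2 gu) au))
  have cu' : Cls T₀ (gm τ₀ v₀) T' (gm τ u') :=
    cw'.trans (.single (Step.agree (cw'.met m0) (hMet ι τ u' T' t2 gu') au'))
  have ru := hGR ι τ u T n1 l1 gu (generic_cls hStep cu gen)
  have ru' := hGR ι τ u' T' n1 l1 gu' (generic_cls hStep cu' gen)
  by_cases he : ∀ a b, inner ℝ (u' a) (u' b) = inner ℝ (u a) (u b)
  · obtain ⟨R, hR⟩ := exists_iso4 u' u he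
    obtain ⟨T'', ad, hm⟩ := hMap ι R T'
    have eu : (fun i => R (u' i)) = u := funext hR
    have eg : ∀ (σ : ℝ) (v : ι → E4), gm σ (fun i => R (v i)) = gm σ v := fun σ v => by
      funext a b
      simp only [gm, R.inner_map_map]
    have eg' : gm τ u' = gm τ u := by rw [← eu, eg]
    have ru'' : Reg τ u T'' := hGR ι τ u T'' n1 l1 (eu ▸ hm τ u' gu')
      (generic_congr (generic_cls hStep cu' gen) fun a b h => ⟨(ad a b).2 h, by rw [← eg']⟩)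
    have c : Tendsto (fun q : ℝ × (ι → E4) × (ι → E4) => (q.1, q.2.1, fun i => R (q.2.2 i)))
        (𝓝 (τ, u, u')) (𝓝 (τ, u, u)) :=
      Continuous.tendsto' (by fun_prop) _ _ (by simp only [eu])
    obtain ⟨q, k, -, k1, k2, -, -, k3, k4, a, b, k5⟩ :=
      mem_closure_iff_nhds.1 hi _ (c.eventually (nomerge hNec hDg hType hInj ru ru''))
    refine k5 ((k k1 (hm _ _ k2) (fun a b h => ?_) (fun a b h => ?_) a b).trans ?_)
    · rw [k3 a b h, au a b h, aw a b h]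
    · simp only [eg]
      rw [k4 a b ((ad a b).1 h), ← eg', au' a b ((ad a b).1 h), aw' a b ((ad a b).1 h)]
    · exact R.inner_map_map _ _
  · push Not at he
    obtain ⟨a, b, he⟩ := he
    rcases n1.eq_or_lt with rfl | pos
    · exact he (hAlex ι u u' T T' ru ru' (hIso ι _ _ _ _ (cu.symm.trans cu')) a b).symm
    obtain ⟨U, hU, U', hU', k⟩ := sep _ _ _ _ he.symm
    have e1 := cont hMet hFlip hOp hDg hS2 hType ru hU
    have e2 := cont hMet hFlip hOp hDg hS2 hType ru' hU'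
    have e3 : ∀ᶠ σ in 𝓝 τ, 0 < σ := lt_mem_nhds pos
    obtain ⟨ρ, ⟨⟨v, hv, T₁, g, c⟩, ⟨v', hv', T₂, g', c'⟩, p⟩, lt⟩ :=
      (((e1.and (e2.and e3)).filter_mono nhdsWithin_le_nhds).and
        (self_mem_nhdsWithin (a := τ) (s := Iio τ))).exists
    have : (ρ, v, v') ∈ B := ⟨p.le, lt.le.trans (sub hq).1.2, ⟨T₁, g, cu.trans c⟩,
      ⟨T₂, g', cu'.trans c'⟩, a, b, k v hv v' hv'⟩
    exact absurd (hmin (subset_closure this)) (not_le.2 lt)

end Pool.Agent.Lib.MP_34b931_co.G
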