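import Pool.Agent.Lib.MP_34b931_co.H22Tri
import Pool.Agent.Lib.MP_c5277d_co.Topo

/-! Local injectivity and local solvability of the Gram equations. -/

namespace Pool.Agent.Lib.MP_34b931_co.G

open Filter Topology Module

namespace Solve

/-- A closed family of cones that is trivial at `t₀` is trivial near `t₀`. -/
theorem cone_trivial {T X : Type} [TopologicalSpace T] [NormedAddCommGroup X] [NormedSpace ℝ X]
    [FiniteDimensional ℝ X] {Z : T → X → Prop} (hc : IsClosed {p : T × X | Z p.1 p.2})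
    (hom : ∀ t h (c : ℝ), 0 < c → Z t h → Z t (c • h)) {t₀ : T} (h0 : ∀ h, Z t₀ h → h = 0) :
    ∀ᶠ t in 𝓝 t₀, ∀ h, Z t h → h = 0 := by
  have := FiniteDimensional.proper_real X
  have h1 : ∀ᶠ t in 𝓝 t₀, ∀ h ∈ Metric.sphere (0 : X) 1, ¬ Z t h := by
    refine (isCompact_sphere (0 : X) 1).eventually_forall_of_forall_eventually fun h hh => ?_
    refine hc.isOpen_compl.mem_nhds fun k => ?_
    rw [h0 h k] at hh
    simp at hh
  filter_upwards [h1] with t ht h hz
  by_contra hne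
  have h2 : 0 < ‖h‖ := norm_pos_iff.2 hne
  refine ht (‖h‖⁻¹ • h) ?_ (hom t h _ (inv_pos.2 h2) hz)
  rw [mem_sphere_zero_iff_norm, norm_smul, norm_inv, norm_norm, inv_mul_cancel₀ h2.ne']

variable {ι : Type}

theorem dx_smul (s h : ι → E4) (c : ℝ) (a b : ι) : dx s (c • h) a b = c * dx s h a b := by
  simp only [dx, Pi.smul_apply, real_inner_smul_left, real_inner_smul_right]
  ring

theorem dx_mid (v v' : ι → E4) (a b : ι) :
    dx ((1 / 2 : ℝ) • (v + v')) (v - v') a b = inner ℝ (v a) (v b) - inner ℝ (v' a) (v' b) := by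
  simp only [dx, Pi.smul_apply, Pi.add_apply, Pi.sub_apply, real_inner_smul_left,
    real_inner_smul_right, inner_add_left, inner_add_right, inner_sub_left, inner_sub_right]
  ring

@[fun_prop] theorem continuous_dx {X : Type} [TopologicalSpace X] {s h : X → ι → E4}
    (hs : Continuous s) (hh : Continuous h) (a b : ι) :
    Continuous fun x => dx (s x) (h x) a b := by
  simp only [dx]
  fun_prop

theorem tendsto_mid (u : ι → E4) :
    Tendsto (fun q : (ι → E4) × (ι → E4) => (1 / 2 : ℝ) • (q.1 + q.2)) (𝓝 (u, u)) (𝓝 u) := by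
  refine Continuous.tendsto' (by fun_prop) _ _ ?_
  rw [← two_smul ℝ u, smul_smul]
  norm_num

/-- `h` lies in the slice complementary to the infinitesimal rotations of `s`. -/
def Sl (e : Fin 4 → ι) (s h : ι → E4) : Prop :=
  ∀ i j, inner ℝ (h (e i)) (s (e j)) = inner ℝ (h (e j)) (s (e i))

/-- The four chosen vectors are independent. -/
def Bas (e : Fin 4 → ι) (s : ι → E4) : Prop := d4 (s (e 0)) (s (e 1)) (s (e 2)) (s (e 3)) ≠ 0

theorem Sl.smul {e : Fin 4 → ι} {s h : ι → E4} (k : Sl e s h) (c : ℝ) : Sl e s (c • h) := by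
  intro i j
  simp only [Pi.smul_apply, real_inner_smul_left, k i j]

theorem Sl.eq_zero {e : Fin 4 → ι} {s h : ι → E4} (k : Sl e s h) (hb : Bas e s)
    (h0 : ∀ a b, dx s h a b = 0) : h = 0 := by
  have z : ∀ v : E4, (∀ j, inner ℝ (s (e j)) v = 0) → v = 0 := fun v hv =>
    eq_zero_of_inner4 hb (hv 0) (hv 1) (hv 2) (hv 3)
  have h1 : ∀ i, h (e i) = 0 := fun i => z _ fun j => by
    have h2 := h0 (e j) (e i)
    have h3 := k i j
    rw [dx] at h2
    rw [real_inner_comm] at h3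
    linarith
  funext a
  refine z _ fun j => ?_
  have h2 := h0 (e j) a
  rwa [dx, h1, inner_zero_left, zero_add] at h2

theorem exists_sl {e : Fin 4 → ι} {s : ι → E4} (hb : Bas e s) (h : ι → E4) :
    ∃ h', Sl e s h' ∧ ∀ a b, dx s h' a b = dx s h a b := by
  have hd : ∀ i : Fin 4, ∃ y : E4, ∀ j, inner ℝ y (s (e j)) = if i = j then 1 else 0 := by
    intro i
    obtain ⟨y, h0, h1, h2, h3⟩ := exists_dual4 hb (if i = 0 then 1 else 0) (if i = 1 then 1 else 0)
      (if i = 2 then 1 else 0) (if i = 3 then 1 else 0)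
    refine ⟨y, fun j => ?_⟩
    fin_cases j
    exacts [h0, h1, h2, h3]
  choose y hy using hd
  let B : Fin 4 → Fin 4 → ℝ := fun i j =>
    (inner ℝ (h (e i)) (s (e j)) - inner ℝ (h (e j)) (s (e i))) / 2
  let A : E4 → E4 := fun x => ∑ i, ∑ j, (B i j * inner ℝ (y i) x) • y j
  have hA : ∀ x z, inner ℝ (A x) z = ∑ i, ∑ j, B i j * inner ℝ (y i) x * inner ℝ (y j) z := by
    intro x z
    simp only [A, sum_inner, real_inner_smul_left]
  have hskew : ∀ x z, inner ℝ (A x) z + inner ℝ (A z) x = 0 := by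
    intro x z
    rw [hA, hA z, Finset.sum_comm (f := fun i j => B i j * inner ℝ (y i) z * inner ℝ (y j) x),
      ← Finset.sum_add_distrib]
    refine Finset.sum_eq_zero fun i _ => ?_
    rw [← Finset.sum_add_distrib]
    refine Finset.sum_eq_zero fun j _ => ?_
    simp only [B]
    ring
  have hAB : ∀ i j, inner ℝ (A (s (e i))) (s (e j)) = B i j := by
    intro i j
    simp [hA, hy]
  refine ⟨fun a => h a - A (s a), fun i j => ?_, fun a b => ?_⟩
  · simp only [inner_sub_left, hAB, B]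
    ring
  · have h1 := hskew (s a) (s b)
    rw [real_inner_comm (s a) (A (s b))] at h1
    simp only [dx, inner_sub_left, inner_sub_right]
    linarith

theorem exists_bas [Fintype ι] (hm : StMirror) {τ : ℝ} {u : ι → E4} {T : Tri ι}
    (h : Reg τ u T) : ∃ e, Bas e u := by
  obtain ⟨a, b, c, f⟩ := T.exists_face
  obtain ⟨x, p, ha, hb, hc, k⟩ := h.good.vtx a b c f
  obtain ⟨m, hm⟩ := ((hm ι τ u T h).2 x a b c p ha hb hc k).1
  exact ⟨![a, b, c, m], hm.ne'⟩

theorem closed_sl {X : Type} [TopologicalSpace X] (e : Fin 4 → ι) {s h : X → ι → E4}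
    (hs : Continuous s) (hh : Continuous h) : IsClosed {x | Sl e (s x) (h x)} := by
  simp only [Sl, Set.ofPred_forall]
  exact isClosed_iInter fun i => isClosed_iInter fun j => isClosed_eq (by fun_prop) (by fun_prop)

end Solve

open Solve in
theorem stInj (hr : StRig) (hm : StMirror) : StInj := by
  intro ι _ τ u T h
  obtain ⟨e, he⟩ := exists_bas hm h
  let Z : (ι → E4) → (ι → E4) → Prop := fun s k => Sl e s k ∧ (∀ a, dx s k a a = 0) ∧
    (∀ x a b, SideAt τ u x a b → dx s k a b = 0) ∧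
    ∀ x a b c d, QuadAt τ u x a b c d → 0 ≤ dx s k a c * dx s k b d
  have h1 : ∀ᶠ s in 𝓝 u, ∀ k, Z s k → k = 0 := by
    refine cone_trivial ?_ ?_ ?_
    · simp only [Z, Set.ofPred_and]
      refine (closed_sl e continuous_fst continuous_snd).inter (IsClosed.inter ?_
        (IsClosed.inter ?_ ?_)) <;> simp only [Set.ofPred_forall]
      · exact isClosed_iInter fun a => isClosed_eq (by fun_prop) continuous_const
      · exact isClosed_iInter fun x => isClosed_iInter fun a => isClosed_iInter fun b =>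
          isClosed_iInter fun _ => isClosed_eq (by fun_prop) continuous_const
      · exact isClosed_iInter fun x => isClosed_iInter fun a => isClosed_iInter fun b =>
          isClosed_iInter fun c => isClosed_iInter fun d => isClosed_iInter fun _ =>
            isClosed_le continuous_const (by fun_prop)
    · rintro s k c hc ⟨z1, z2, z3, z4⟩
      refine ⟨z1.smul c, fun a => ?_, fun x a b p => ?_, fun x a b c' d p => ?_⟩
      · rw [dx_smul, z2, mul_zero]
      · rw [dx_smul, z3 x a b p, mul_zero]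
      · rw [dx_smul, dx_smul, mul_mul_mul_comm]
        exact mul_nonneg (mul_self_nonneg c) (z4 x a b c' d p)
    · rintro k ⟨z1, z2, z3, z4⟩
      refine z1.eq_zero he (hr ι τ u k T h (fun a => ?_) z3 z4)
      have := z2 a
      rw [dx, real_inner_comm (k a) (u a)] at this
      linarith
  have h2 : ∀ᶠ s in 𝓝 u, Bas e s :=
    (by fun_prop : Continuous fun s : ι → E4 =>
      d4 (s (e 0)) (s (e 1)) (s (e 2)) (s (e 3))).continuousAt.eventually_ne he
  filter_upwards [(tendsto_mid u).eventually (h1.and h2)] with q hq n1 n2 n3 a b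
  obtain ⟨k, k1, k2⟩ := exists_sl hq.2 (q.1 - q.2)
  simp only [dx_mid] at k2
  have h3 : k = 0 := hq.1 k ⟨k1, fun a => by
    rw [k2, real_inner_self_eq_norm_sq, real_inner_self_eq_norm_sq, n1, sub_self],
    fun x a b p => by rw [k2, n2 x a b p, sub_self],
    fun x a b c d p => by rw [k2, k2]; exact n3 x a b c d p⟩
  have h4 := k2 a b
  rw [h3] at h4
  simp only [dx, Pi.zero_apply, inner_zero_left, inner_zero_right, add_zero] at h4
  linarith

namespace Solve

variable {ι : Type} {τ : ℝ} {u : ι → E4} {T : Tri ι}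

/-- The equation attached to a flat quadrilateral. -/
noncomputable def qf (u : ι → E4) (Δ : ι → ι → ℝ) (a b c d : ι) : ℝ :=
  max (d4 (u a) (u b) (u c) (u d) * Δ a c) (-(d4 (u a) (u b) (u c) (u d) * Δ b d))

theorem qf_rot {Δ : ι → ι → ℝ} (hΔ : ∀ a b, Δ a b = Δ b a) (a b c d : ι) :
    qf u Δ b c d a = qf u Δ a b c d := by
  rw [qf, qf, d4_rot, max_comm, hΔ c a, neg_mul, neg_mul, neg_neg]

open Classical in
/-- The equation attached to an edge. -/
noncomputable def fe (τ : ℝ) (u : ι → E4) (Δ : ι → ι → ℝ) (a c : ι) : ℝ :=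
  if h : ∃ p : ι × ι, ∃ x, QuadAt τ u x a p.1 c p.2 then qf u Δ a h.choose.1 c h.choose.2
  else Δ a c

theorem quad_unique (h : Reg τ u T) {x y : E4} {a b c d b' d' : ι} (p : QuadAt τ u x a b c d)
    (p' : QuadAt τ u y a b' c d') : b' = b ∧ d' = d := by
  obtain rfl := h.duniq x y a b c d b' d' p p'
  have k1 := h.loc.five x a b c d b' p p'.2.2.1
  have k2 := h.loc.five x a b c d d' p p'.2.2.2.2.1
  obtain ⟨-, -, -, -, -, s1, s2, -, -⟩ := p
  obtain ⟨-, -, -, -, -, t1, t2, -, -⟩ := p'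
  constructor
  · rcases k1 with rfl | rfl | rfl | rfl
    · simp [d4_self12] at t1
    · rfl
    · simp [d4_self23] at t1
    · rw [d4_swap23] at t1
      linarith
  · rcases k2 with rfl | rfl | rfl | rfl
    · simp [d4_self13] at t2
    · rw [d4_swap23] at t2
      linarith
    · simp [d4_self23] at t2
    · rfl

theorem fe_quad (h : Reg τ u T) (Δ : ι → ι → ℝ) {x : E4} {a b c d : ι}
    (p : QuadAt τ u x a b c d) : fe τ u Δ a c = qf u Δ a b c d := by
  have k : ∃ p : ι × ι, ∃ x, QuadAt τ u x a p.1 c p.2 := ⟨(b, d), x, p⟩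
  obtain ⟨y, p'⟩ := k.choose_spec
  obtain ⟨e1, e2⟩ := quad_unique h p p'
  rw [fe, dif_pos k, e1, e2]

theorem fe_symm (h : Reg τ u T) {Δ : ι → ι → ℝ} (hΔ : ∀ a b, Δ a b = Δ b a) (a c : ι) :
    fe τ u Δ c a = fe τ u Δ a c := by
  by_cases k : ∃ p : ι × ι, ∃ x, QuadAt τ u x a p.1 c p.2
  · obtain ⟨⟨b, d⟩, x, p⟩ := k
    rw [fe_quad h Δ p, fe_quad h Δ p.rot.rot, qf_rot hΔ, qf_rot hΔ]
  · have k' : ¬ ∃ p : ι × ι, ∃ x, QuadAt τ u x c p.1 a p.2 := fun ⟨⟨b, d⟩, x, p⟩ =>
      k ⟨(d, b), x, p.rot.rot⟩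
    rw [fe, fe, dif_neg k, dif_neg k', hΔ]

theorem fe_side (h : Reg τ u T) (Δ : ι → ι → ℝ) {x : E4} {a b : ι} (p : SideAt τ u x a b) :
    fe τ u Δ a b = Δ a b := by
  rw [fe, dif_neg fun ⟨q, y, k⟩ => h.dside y x a q.1 b q.2 k p]

theorem fe_zero (a c : ι) : fe τ u (fun _ _ => 0) a c = 0 := by
  rw [fe]
  split_ifs <;> simp [qf]

theorem continuous_fe (a c : ι) : Continuous fun Δ : ι → ι → ℝ => fe τ u Δ a c := by
  unfold fe
  split_ifs
  · unfold qf
    fun_prop
  · fun_prop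

theorem quad_ne (h : Reg τ u T) {x : E4} {a b c d : ι} (p : QuadAt τ u x a b c d) :
    d4 (u a) (u b) (u c) (u d) ≠ 0 := by
  obtain ⟨p0, a1, a2, a3, a4, s1, s2, s3, s4⟩ := p
  refine (h.loc.four x a b c d p0 a1 a2 a3 a4 s1 ?_ ?_ ?_).1 <;> rintro rfl
  · simp [d4_self13] at s2
  · simp [d4_self23] at s3
  · simp [d4_self23] at s2

/-- Equal edge equations give equal values on the sides and on the quadrilaterals. -/
theorem of_fe_eq (ht : StType) (h : Reg τ u T) {Δ Δ' : ι → ι → ℝ} (hΔ : ∀ a b, Δ a b = Δ b a)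
    (hΔ' : ∀ a b, Δ' a b = Δ' b a) (k : ∀ a c, T.adj a c → fe τ u Δ a c = fe τ u Δ' a c) :
    (∀ x a b, SideAt τ u x a b → Δ a b = Δ' a b) ∧
      ∀ x a b c d, QuadAt τ u x a b c d → qf u Δ a b c d = qf u Δ' a b c d := by
  refine ⟨fun x a b p => ?_, fun x a b c d p => ?_⟩
  · obtain ⟨c, f, -⟩ := h.good.side x a b p
    rw [← fe_side h Δ p, ← fe_side h Δ' p, k a b ⟨c, f⟩]
  · rcases (ht ι τ u T h).1 x a b c d p with f | f
    · rw [← fe_quad h Δ p, ← fe_quad h Δ' p, k a c (Tri.adj12 f.2.1)]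
    · rw [← qf_rot hΔ, ← qf_rot hΔ', ← fe_quad h Δ p.rot, ← fe_quad h Δ' p.rot,
        k b d (Tri.adj12 f.2.1)]

theorem mul_nonneg_of_max {δ A B A' B' : ℝ} (hδ : δ ≠ 0)
    (h : max (δ * A) (-(δ * B)) = max (δ * A') (-(δ * B'))) : 0 ≤ (A - A') * (B - B') := by
  have h1 : 0 ≤ (δ * A - δ * A') * (δ * B - δ * B') := by
    rcases max_cases (δ * A) (-(δ * B)) with ⟨e1, f1⟩ | ⟨e1, f1⟩ <;>
    rcases max_cases (δ * A') (-(δ * B')) with ⟨e2, f2⟩ | ⟨e2, f2⟩ <;> rw [e1, e2] at h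
    · rw [h, sub_self, zero_mul]
    · exact mul_nonneg (by linarith) (by linarith)
    · exact mul_nonneg_of_nonpos_of_nonpos (by linarith) (by linarith)
    · rw [neg_injective h, sub_self, mul_zero]
  rw [← mul_sub, ← mul_sub, mul_mul_mul_comm] at h1
  exact nonneg_of_mul_nonneg_right h1 (mul_self_pos.2 hδ)

theorem gm_symm (σ : ℝ) (v : ι → E4) (a b : ι) : gm σ v a b = gm σ v b a := by
  rw [gm, gm, real_inner_comm]

/-- One representative for each edge. -/
abbrev Edge [Fintype ι] (T : Tri ι) : Type :=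
  {p : ι × ι // Fintype.equivFin ι p.1 < Fintype.equivFin ι p.2 ∧ T.adj p.1 p.2}

theorem card_edge [Fintype ι] (T : Tri ι) :
    2 * Nat.card (Edge T) ≤ Nat.card {t : ι × ι × ι // T.F t.1 t.2.1 t.2.2} := by
  rw [← T.card_adj, two_mul, ← Nat.card_sum]
  refine Nat.card_le_card_of_injective
    (Sum.elim (fun p => ⟨p.1, p.2.2⟩) fun p => ⟨p.1.swap, p.2.2.symm⟩) ?_
  rintro (⟨p, h1, h2⟩ | ⟨p, h1, h2⟩) (⟨q, k1, k2⟩ | ⟨q, k1, k2⟩) e <;>
    simp only [Sum.elim_inl, Sum.elim_inr, Subtype.mk.injEq] at e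
  · subst e
    rfl
  · subst e
    exact absurd h1 (lt_asymm k1)
  · subst e
    exact absurd h1 (lt_asymm k1)
  · obtain rfl := Prod.swap_injective e
    rfl

theorem edge_ind [Fintype ι] {P : ι → ι → Prop} (hs : ∀ a b, P a b → P b a)
    (h : ∀ p : Edge T, P p.1.1 p.1.2) (a c : ι) (k : T.adj a c) : P a c := by
  rcases lt_trichotomy (Fintype.equivFin ι a) (Fintype.equivFin ι c) with l | l | l
  · exact h ⟨(a, c), l, k⟩
  · exact absurd ((Fintype.equivFin ι).injective l) k.ne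
  · exact hs _ _ (h ⟨(c, a), l, k.symm⟩)

/-- The linear conditions that define the slice. -/
noncomputable def slMap (e : Fin 4 → ι) (u : ι → E4) :
    (ι → E4) →ₗ[ℝ] {p : Fin 4 × Fin 4 // p.1 < p.2} → ℝ where
  toFun h p := inner ℝ (h (e p.1.1)) (u (e p.1.2)) - inner ℝ (h (e p.1.2)) (u (e p.1.1))
  map_add' h k := by
    funext p
    simp only [Pi.add_apply, inner_add_left]
    ring
  map_smul' c h := by
    funext p
    simp only [Pi.smul_apply, real_inner_smul_left, RingHom.id_apply, smul_eq_mul]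
    ring

theorem sl_of_mem {e : Fin 4 → ι} {h : ι → E4} (k : h ∈ LinearMap.ker (slMap e u)) :
    Sl e u h := by
  have k' : ∀ i j, i < j → inner ℝ (h (e i)) (u (e j)) = inner ℝ (h (e j)) (u (e i)) :=
    fun i j l => sub_eq_zero.1 (congrFun (LinearMap.mem_ker.1 k) ⟨(i, j), l⟩)
  intro i j
  rcases lt_trichotomy i j with l | rfl | l
  exacts [k' i j l, rfl, (k' j i l).symm]

theorem self_mem (e : Fin 4 → ι) (u : ι → E4) : u ∈ LinearMap.ker (slMap e u) := by
  rw [LinearMap.mem_ker]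
  funext p
  exact sub_eq_zero.2 (real_inner_comm _ _)

theorem finrank_sl [Fintype ι] (e : Fin 4 → ι) (u : ι → E4) :
    4 * Nat.card ι ≤ finrank ℝ (LinearMap.ker (slMap e u)) + 6 := by
  have h1 := (slMap e u).finrank_range_add_finrank_ker
  have h2 := Submodule.finrank_le (LinearMap.range (slMap e u))
  have h3 : Fintype.card {p : Fin 4 × Fin 4 // p.1 < p.2} = 6 := by decide
  rw [finrank_fintype_fun_eq_card, h3] at h2
  have h4 : finrank ℝ (ι → E4) = 4 * Nat.card ι := by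
    simp [finrank_pi_fintype, mul_comm]
  omega

theorem main [Fintype ι] (hi : StInj) (hm : StMirror) (ht : StType) (h : Reg τ u T) :
    T.Full ∧ ∀ U ∈ 𝓝 u, ∀ᶠ y : ℝ × (Edge T → ℝ) in 𝓝 (τ, 0), ∃ v ∈ U, Un v ∧
      ∀ p : Edge T, fe τ u (fun a b => gm y.1 v a b - gm τ u a b) p.1.1 p.1.2 = y.2 p := by
  classical
  obtain ⟨e, he⟩ := exists_bas hm h
  have h1 : ∀ᶠ s in 𝓝 u, ∀ k, (Sl e u k ∧ ∀ a b, dx s k a b = 0) → k = 0 := by
    refine cone_trivial ?_ ?_ fun k z => z.1.eq_zero he z.2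
    · simp only [Set.ofPred_and]
      refine (closed_sl e continuous_const continuous_snd).inter ?_
      simp only [Set.ofPred_forall]
      exact isClosed_iInter fun a => isClosed_iInter fun b =>
        isClosed_eq (by fun_prop) continuous_const
    · exact fun s k c _ z => ⟨z.1.smul c, fun a b => by rw [dx_smul, z.2, mul_zero]⟩
  have h2 := ((tendsto_mid u).eventually h1).and (hi ι τ u T h)
  rw [nhds_prod_eq] at h2
  obtain ⟨V, hV, h3⟩ := Filter.mem_prod_self_iff.1 h2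
  let L := LinearMap.ker (slMap e u)
  let F : ℝ × L → ℝ × (ι → ℝ) × (Edge T → ℝ) := fun z => (z.1, fun a => ‖z.2.1 a‖,
    fun p => fe τ u (fun a b => gm z.1 z.2.1 a b - gm τ u a b) p.1.1 p.1.2)
  let z0 : ℝ × L := (τ, ⟨u, self_mem e u⟩)
  have hτ : 1 - τ ^ 2 ≠ 0 := by nlinarith [h.nn, h.lt]
  let W : Set (ι → E4) → Set (ℝ × L) := fun U => {z | 1 - z.1 ^ 2 ≠ 0 ∧ z.2.1 ∈ U}
  have hW : ∀ U ∈ 𝓝 u, W U ∈ 𝓝 z0 := fun U hU =>
    ((by fun_prop : Continuous fun z : ℝ × L => 1 - z.1 ^ 2).continuousAt.eventually_ne hτ).and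
      ((by fun_prop : Continuous fun z : ℝ × L => z.2.1).continuousAt.preimage_mem_nhds hU)
  have hc : ∀ U, ContinuousOn F (W U) := by
    intro U
    have cv : ∀ a, Continuous fun z : ℝ × L => z.2.1 a := fun a =>
      (continuous_apply a).comp (continuous_subtype_val.comp continuous_snd)
    refine continuousOn_fst.prodMk (ContinuousOn.prodMk
      (continuous_pi fun a => (cv a).norm).continuousOn ?_)
    refine continuousOn_pi.2 fun p => (continuous_fe _ _).comp_continuousOn ?_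
    refine continuousOn_pi.2 fun a => continuousOn_pi.2 fun b => ContinuousOn.sub ?_
      continuousOn_const
    unfold gm
    exact ContinuousOn.div (((cv a).inner (cv b)).sub (by fun_prop)).continuousOn
      (Continuous.continuousOn (by fun_prop)) fun z hz => hz.1
  have hinj : Set.InjOn F (W V) := by
    rintro ⟨σ, v, hv⟩ ⟨s1, s2⟩ ⟨σ', v', hv'⟩ ⟨-, s2'⟩ k
    obtain ⟨rfl, k1, k2⟩ : σ = σ' ∧ _ ∧ _ := by simpa only [F, Prod.mk.injEq] using k
    obtain ⟨k3, k4⟩ := h3 (Set.mk_mem_prod s2 s2')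
    have sy : ∀ (w : ι → E4) a b, gm σ w a b - gm τ u a b = gm σ w b a - gm τ u b a :=
      fun w a b => by rw [gm_symm σ, gm_symm τ]
    obtain ⟨k5, k6⟩ := of_fe_eq ht h (sy v) (sy v') (edge_ind
      (fun a b z => by rwa [fe_symm h (sy v), fe_symm h (sy v')]) fun p => congrFun k2 p)
    have dif : ∀ a b, inner ℝ (v a) (v b) - inner ℝ (v' a) (v' b) =
        (1 - σ ^ 2) * (gm σ v a b - gm τ u a b - (gm σ v' a b - gm τ u a b)) := by
      intro a b
      have s3 : 1 - σ ^ 2 ≠ 0 := s1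
      rw [sub_sub_sub_cancel_right, gm, gm]
      field_simp
      ring
    have k7 := k4 (fun a => congrFun k1 a)
      (fun x a b p => sub_eq_zero.1 (by rw [dif, k5 x a b p, sub_self, mul_zero]))
      (fun x a b c d p => by
        rw [dif, dif, mul_mul_mul_comm]
        exact mul_nonneg (mul_self_nonneg _) (mul_nonneg_of_max (quad_ne h p) (k6 x a b c d p)))
    have k8 : v - v' = 0 := k3 (v - v') ⟨sl_of_mem (sub_mem hv hv'), fun a b => by
      rw [dx_mid]
      exact sub_eq_zero.2 (k7 a b)⟩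
    obtain rfl := sub_eq_zero.1 k8
    rfl
  have d1 := MP_c5277d_co.finrank_le_of_injOn (hW V hV) (hc V) hinj
  have d2 := finrank_sl e u
  have d3 := card_edge T
  have d4 := T.count
  have d5 : finrank ℝ (ℝ × L) = 1 + finrank ℝ L := by simp
  have d6 : finrank ℝ (ℝ × (ι → ℝ) × (Edge T → ℝ)) = 1 + (Nat.card ι + Nat.card (Edge T)) := by
    simp
  have d7 : finrank ℝ L = finrank ℝ (LinearMap.ker (slMap e u)) := rfl
  refine ⟨by unfold Tri.Full; omega, fun U hU => ?_⟩
  have h4 := MP_c5277d_co.invariance_of_domain (by omega) (hW _ (inter_mem hV hU)) (hc _)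
    (hinj.mono fun z hz => And.intro hz.1 hz.2.1)
  have h5 : Tendsto (fun y : ℝ × (Edge T → ℝ) => (y.1, (fun _ : ι => (1 : ℝ)), y.2)) (𝓝 (τ, 0))
      (𝓝 (F z0)) := by
    refine Continuous.tendsto' (by fun_prop) _ _ ?_
    refine Prod.ext rfl (Prod.ext (funext fun a => (h.good.un a).symm) (funext fun p => ?_))
    simp only [F, z0, sub_self, fe_zero, Pi.zero_apply]
  filter_upwards [h5 h4] with y hy
  obtain ⟨⟨σ, v, hv⟩, s, k⟩ := hy
  obtain ⟨rfl, k1, k2⟩ : σ = y.1 ∧ _ ∧ _ := by simpa only [F, Prod.mk.injEq] using k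
  exact ⟨v, s.2.2, fun a => congrFun k1 a, fun p => congrFun k2 p⟩

end Solve

theorem stFull (hi : StInj) (hm : StMirror) (ht : StType) : StFull :=
  fun _ _ _ _ _ h => (Solve.main hi hm ht h).1

open Solve in
theorem stSolve1 (hi : StInj) (hm : StMirror) (ht : StType) : StSolve1 := by
  intro ι _ τ u T h nq U hU
  have h1 : Tendsto (fun G : ι → ι → ℝ =>
      (τ, fun p : Edge T => G p.1.1 p.1.2 - gm τ u p.1.1 p.1.2)) (𝓝 (gm τ u)) (𝓝 (τ, 0)) := by
    refine Continuous.tendsto' (by fun_prop) _ _ ?_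
    simp only [sub_self]
    rfl
  filter_upwards [h1.eventually ((main hi hm ht h).2 U hU)] with G ⟨v, hv, un, k⟩ sy
  refine ⟨v, hv, un, edge_ind (fun a b z => by rwa [gm_symm, sy]) fun p => ?_⟩
  have k1 := k p
  rw [fe, dif_neg fun ⟨q, y, k⟩ => nq _ _ _ _ _ k] at k1
  exact sub_left_injective k1

open Solve in
theorem stSolve2 (hi : StInj) (hm : StMirror) (ht : StType) : StSolve2 := by
  intro ι _ τ u T h U hU
  have h1 : Tendsto (fun σ : ℝ => (σ, (0 : Edge T → ℝ))) (𝓝 τ) (𝓝 (τ, 0)) :=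
    Continuous.tendsto' (by fun_prop) _ _ rfl
  filter_upwards [h1.eventually ((main hi hm ht h).2 U hU)] with σ ⟨v, hv, un, k⟩
  have sy : ∀ a b, gm σ v a b - gm τ u a b = gm σ v b a - gm τ u b a :=
    fun a b => by rw [gm_symm σ, gm_symm τ]
  obtain ⟨k1, k2⟩ := of_fe_eq ht h sy (Δ' := fun _ _ => 0) (fun _ _ => rfl) (edge_ind
    (fun a b z => by rwa [fe_symm h sy, fe_zero, ← fe_zero (τ := τ) (u := u) a b])
    fun p => by rw [fe_zero]; exact k p)
  refine ⟨v, hv, un, fun x a b p => sub_eq_zero.1 (k1 x a b p), fun x a b c d p => ?_⟩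
  have k3 := k2 x a b c d p
  have k4 := quad_ne h p
  simp only [qf, mul_zero, neg_zero, max_self] at k3
  rcases max_eq_iff.1 k3 with ⟨e1, e2⟩ | ⟨e1, e2⟩
  · exact Or.inl ⟨sub_eq_zero.1 ((mul_eq_zero.1 e1).resolve_left k4), by linarith⟩
  · exact Or.inr ⟨sub_eq_zero.1 ((mul_eq_zero.1 (neg_eq_zero.1 e1)).resolve_left k4), by linarith⟩

end Pool.Agent.Lib.MP_34b931_co.G
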