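import Pool.Agent.Lib.MP_34b931_co.H22Defs

/-! The intermediate statements. -/

namespace Pool.Agent.Lib.MP_34b931_co.G

open Filter Topology

/-! ### Intrinsic classes -/

def StIso : Prop := ∀ (ι : Type) [Fintype ι] [DecidableEq ι] (T T' : Tri ι) (G G' : ι → ι → ℝ),
  Cls T G T' G' → Iso T G T' G'

def StFin : Prop := ∀ (ι : Type) [Fintype ι] [DecidableEq ι] (T : Tri ι) (G : ι → ι → ℝ),
  IsMet T G → ∃ L : Set ℝ, L.Finite ∧ ∀ (T' : Tri ι) (G' : ι → ι → ℝ) (g : (ι → ℝ) → ι → ℝ),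
    IsMet T' G' → Iso1 T' G' T G g → ∀ a b, T'.adj a b → G' a b ∈ L

def StGenW : Prop := ∀ (ι : Type) [Fintype ι] (T : Tri ι) (G : ι → ι → ℝ),
  IsMet T G → Generic T G → WFree T G

def StGenB : Prop := ∀ (ι : Type) [Fintype ι] (T : Tri ι) (τ : ℝ) (u : ι → E4),
  Un u → 0 ≤ τ → τ < 1 → Generic T (gm τ u) → B4 τ u ∧ B5 τ u

def StGenStep : Prop := ∀ (ι : Type) [Fintype ι] (X Y : Tri ι × (ι → ι → ℝ)),
  Step X Y → Generic X.1 X.2 → Generic Y.1 Y.2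

def StGenDense : Prop := ∀ (ι : Type) [Fintype ι] (T : Tri ι) (G : ι → ι → ℝ), T.Full →
  (∀ a b, G a b = G b a) → ∀ U ∈ 𝓝 G, ∃ G' ∈ U, (∀ a b, G' a b = G' b a) ∧ Generic T G'

/-! ### Regular triangulations -/

def StCellSym : Prop := ∀ (ι : Type) (p : ι → E4) (w : ι → ℝ), Sym4 (Cell p w)

def StUniq : Prop := ∀ (ι : Type) (p : ι → E4) (w : ι → ℝ) (a b c d d' : ι), Cell p w a b c d →
  Cell p w a b c d' → 0 < d4 (p a) (p b) (p c) (p d) * d4 (p a) (p b) (p c) (p d') → d = d'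

def StGW1 : Prop := ∀ (ι : Type) [Fintype ι] (p : ι → E4) (w : ι → ℝ), Gen p w →
  ∀ (a b c : ι) (y : E4), inner ℝ y (p a) = w a → inner ℝ y (p b) = w b → inner ℝ y (p c) = w c →
    (∀ m, m ≠ a → m ≠ b → m ≠ c → w m < inner ℝ y (p m)) →
    (∃ m, 0 < d4 (p a) (p b) (p c) (p m)) → ∃ d, Cell p w a b c d ∧ 0 < d4 (p a) (p b) (p c) (p d)

def StGW2 : Prop := ∀ (ι : Type) [Fintype ι] (p : ι → E4) (w : ι → ℝ), Gen p w →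
  ∀ a b c d m, Cell p w a b c d → d4 (p a) (p b) (p c) (p m) * d4 (p a) (p b) (p c) (p d) < 0 →
    ∃ d', Cell p w a b c d' ∧ d4 (p a) (p b) (p c) (p d') * d4 (p a) (p b) (p c) (p d) < 0

def StDense : Prop := ∀ (ι : Type) [Fintype ι] (p : ι → E4),
  Dense {w | Gen p w} ∧ Dense {o | GenO p o} ∧ IsOpen {o | GenO p o}

def StL1 : Prop := ∀ (ι : Type) [Fintype ι] (p ξ : ι → E4) (o : E4) (S : ι → ι → ι → ι → Prop)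
  (y : ι → ι → ℝ) (o₂ : ι → ι → E4), Sym4 S →
  (∀ a b c d, S a b c d → d4 (p a) (p b) (p c) (p d) ≠ 0) → GenO p o →
  (∀ a, inner ℝ (ξ a) (p a) = 0) → (∀ a b, y a b = y b a) →
  (∀ a b c d, S a b c d → d4 (p a) (p b) o (o₂ a b) ≠ 0) →
  Hb p o S (dx p ξ) y = -12 * ∑ a, ∑ b, ∑ c,
    y a b * bd p S a b c * ell p ξ o a b c (o₂ a b) / d4 (p a) (p b) o (o₂ a b)

def StWalk : Prop := ∀ (ι : Type) [Fintype ι] (p : ι → E4) (w : ι → ℝ)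
  (S : ι → ι → ι → ι → Prop) (T : Tri ι), Gen p w → Sym4 S →
  (∀ a b c d, S a b c d → Cell p w a b c d) → IsBd p S T → ∀ a b c d, S a b c d →
    ((∃ c' d', Cell p w a b c' d' ∧ ¬ S a b c' d') ∨ Hull p a b) → T.adj a b

/-- The form of the triangulation with heights `w` is nonnegative off the hull. -/
def Psd {ι : Type} [Fintype ι] (p : ι → E4) (o : E4) (w : ι → ℝ) : Prop :=
  ∀ y : ι → ι → ℝ, (∀ a b, y a b = y b a) → (∀ a b, Hull p a b → y a b = 0) →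
    0 ≤ Hb p o (Cell p w) y y

def StPull : Prop := ∀ (ι : Type) [Fintype ι] (p : ι → E4) (o : E4) (w : ι → ℝ) (a₀ : ι),
  Ext p → GP p → GenO p o → Gen p w →
  (∀ a b c d, Cell p w a b c d → a = a₀ ∨ b = a₀ ∨ c = a₀ ∨ d = a₀) → Psd p o w

def StWall : Prop := ∀ (ι : Type) [Fintype ι] (p : ι → E4) (o : E4) (w₀ w₁ w₂ : ι → ℝ)
  (e : Fin 5 → ι), Ext p → GP p → GenO p o → Gen p w₁ → Gen p w₂ → Function.Injective e →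
  Lift p w₀ (e 0) (e 1) (e 2) (e 3) (e 4) = 0 →
  (∀ a b c d m, d4 (p a) (p b) (p c) (p d) ≠ 0 → m ≠ a → m ≠ b → m ≠ c → m ≠ d →
    ¬ (a ∈ Set.range e ∧ b ∈ Set.range e ∧ c ∈ Set.range e ∧ d ∈ Set.range e ∧ m ∈ Set.range e) →
    0 < Lift p w₀ a b c d m * Lift p w₁ a b c d m ∧
      0 < Lift p w₀ a b c d m * Lift p w₂ a b c d m) →
  Psd p o w₁ → Psd p o w₂

def StPsdGP : Prop := ∀ (ι : Type) [Fintype ι] (p : ι → E4) (o : E4) (w : ι → ℝ),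
  Ext p → GP p → GenO p o → Gen p w → Psd p o w

def StPsd : Prop := ∀ (ι : Type) [Fintype ι] (p : ι → E4) (o : E4) (w : ι → ℝ),
  Ext p → GenO p o → Gen p w → Psd p o w

def StRigA : Prop := ∀ (ι : Type) [Fintype ι] (p ξ : ι → E4) (w : ι → ℝ)
  (S Q : ι → ι → ι → ι → Prop) (T : Tri ι), Ext p → Gen p w → Sym4 S →
  (∀ a b c d, S a b c d → Cell p w a b c d) → IsBd p S T → (∀ a, inner ℝ (ξ a) (p a) = 0) →
  (∀ a b c d, Q a b c d → S a b c d ∧ T.F a b c ∧ T.F a c d ∧ ¬ T.adj b d ∧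
    (∀ c' d', S a c c' d' → (c' = b ∧ d' = d) ∨ (c' = d ∧ d' = b)) ∧
    0 ≤ dx p ξ a c * dx p ξ b d) →
  (∀ a c, T.adj a c → dx p ξ a c = 0 ∨ (∃ b d, Q a b c d) ∨ ∃ b d, Q c b a d) →
  ∀ a b c d, Q a b c d → dx p ξ a c * dx p ξ b d = 0

def StRigB : Prop := ∀ (ι : Type) [Fintype ι] (p ξ : ι → E4) (w : ι → ℝ)
  (S : ι → ι → ι → ι → Prop) (T : Tri ι), Ext p → Gen p w → Sym4 S →
  (∀ a b c d, S a b c d → Cell p w a b c d) → IsBd p S T → (∀ a, inner ℝ (ξ a) (p a) = 0) →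
  (∀ a b, T.adj a b → dx p ξ a b = 0) → ∀ a b, dx p ξ a b = 0

/-! ### Spherical ball-polyhedra -/

def StMet : Prop := ∀ (ι : Type) (τ : ℝ) (u : ι → E4) (T : Tri ι),
  τ ^ 2 < 1 → Good τ u T → IsMet T (gm τ u)

def StType : Prop := ∀ (ι : Type) (τ : ℝ) (u : ι → E4) (T : Tri ι), Reg τ u T →
  (∀ x a b c d, QuadAt τ u x a b c d →
    (T.F a b c ∧ T.F a c d ∧ ¬ T.adj b d) ∨ (T.F b c d ∧ T.F b d a ∧ ¬ T.adj a c)) ∧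
  ∀ a b c, T.F a b c → (∃ x, SideAt τ u x a b) ∨ ∃ x d, QuadAt τ u x a d b c

def StMirror : Prop := ∀ (ι : Type) [Fintype ι] (τ : ℝ) (u : ι → E4) (T : Tri ι), Reg τ u T →
  Ext u ∧ ∀ x a b c, Pt τ u x → Act τ u x a → Act τ u x b → Act τ u x c →
    0 < d4 (u a) (u b) (u c) x → (∃ m, 0 < d4 (u a) (u b) (u c) (u m)) ∧
      ∀ y, Pt τ u y → Act τ u y a → Act τ u y b → Act τ u y c → y = x

def StFlipAll : Prop := ∀ (ι : Type) [Fintype ι] (τ : ℝ) (u : ι → E4) (T : Tri ι)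
  (Ch : ι → ι → ι → ι → Prop), Reg τ u T →
  (∀ x a b c d, QuadAt τ u x a b c d → Ch a b c d ∨ Ch b c d a) →
  (∀ a b c d, Ch a b c d → Ch c d a b) →
  ∃ T₁, Reg τ u T₁ ∧ Cls T (gm τ u) T₁ (gm τ u) ∧
    ∀ x a b c d, QuadAt τ u x a b c d → T₁.F a b c → Ch a b c d

/-- Local structure from the existence of the vertices and genericity. -/
def StLoc : Prop := ∀ (ι : Type) [Fintype ι] (τ : ℝ) (u : ι → E4) (T : Tri ι), 0 ≤ τ → τ < 1 →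
  Un u → (∀ a b c, T.F a b c → ∃ x, Pt τ u x ∧ Act τ u x a ∧ Act τ u x b ∧ Act τ u x c) →
  WFree T (gm τ u) → B4 τ u → B5 τ u → Loc0 τ u

def StGenReg : Prop := ∀ (ι : Type) [Fintype ι] (τ : ℝ) (u : ι → E4) (T : Tri ι), 0 ≤ τ → τ < 1 →
  Good τ u T → Generic T (gm τ u) → Reg τ u T

def StSReg : Prop := ∀ (ι : Type) (τ : ℝ) (u : ι → E4) (T : Tri ι), 0 ≤ τ → τ < 1 →
  SGood τ u T → Reg τ u T ∧ ∀ x a b c d, ¬ QuadAt τ u x a b c d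

def StMap : Prop := ∀ (ι : Type) (L : E4 ≃ₗᵢ[ℝ] E4) (T : Tri ι), ∃ T' : Tri ι,
  (∀ a b, T'.adj a b ↔ T.adj a b) ∧
    ∀ (τ : ℝ) (u : ι → E4), Good τ u T → Good τ (fun i => L (u i)) T'

def StClosed : Prop := ∀ (ι : Type) [Fintype ι] (T : Tri ι) (G : ι → ι → ℝ) (τ : ℝ)
  (u : ι → E4), IsMet T G → Generic T G → τ < 1 →
  (τ, u) ∈ closure {q : ℝ × (ι → E4) | 0 ≤ q.1 ∧ Good q.1 q.2 T ∧
    ∀ a b, T.adj a b → gm q.1 q.2 a b = G a b} →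
  0 ≤ τ ∧ Good τ u T ∧ ∀ a b, T.adj a b → gm τ u a b = G a b

def StOpen : Prop := ∀ (ι : Type) [Fintype ι] (τ : ℝ) (u : ι → E4) (T : Tri ι), Reg τ u T →
  ∀ᶠ q : ℝ × (ι → E4) in 𝓝 (τ, u), Un q.2 →
    (∀ x a b c d, QuadAt τ u x a b c d → T.F a b c →
      0 ≤ d4 (u a) (u b) (u c) (u d) * Dg (gm q.1 q.2) a b c d) → Good q.1 q.2 T

def StNec : Prop := ∀ (ι : Type) [Fintype ι] (τ : ℝ) (u : ι → E4), τ ^ 2 < 1 →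
  ∀ᶠ q : ℝ × (ι → E4) in 𝓝 (τ, u), ∀ T : Tri ι, Good q.1 q.2 T →
    ∀ x a b c d, QuadAt τ u x a b c d → T.F a b c →
      0 ≤ d4 (u a) (u b) (u c) (u d) * Dg (gm q.1 q.2) a b c d

def StDg : Prop := ∀ (ι : Type) [Fintype ι] (τ : ℝ) (u : ι → E4), τ ^ 2 < 1 → Un u →
  ∀ᶠ G : ι → ι → ℝ in 𝓝 (gm τ u), ∀ x a b c d, QuadAt τ u x a b c d → G a b = gm τ u a b →
    G a c = gm τ u a c → G a d = gm τ u a d → G b c = gm τ u b c → G c d = gm τ u c d →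
      ∃ L, 0 < L ∧ Dg G a b c d = L * (G b d - gm τ u b d)

def StRig : Prop := ∀ (ι : Type) [Fintype ι] (τ : ℝ) (u ξ : ι → E4) (T : Tri ι), Reg τ u T →
  (∀ a, inner ℝ (ξ a) (u a) = 0) → (∀ x a b, SideAt τ u x a b → dx u ξ a b = 0) →
  (∀ x a b c d, QuadAt τ u x a b c d → 0 ≤ dx u ξ a c * dx u ξ b d) → ∀ a b, dx u ξ a b = 0

def StInj : Prop := ∀ (ι : Type) [Fintype ι] (τ : ℝ) (u : ι → E4) (T : Tri ι), Reg τ u T →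
  ∀ᶠ q : (ι → E4) × (ι → E4) in 𝓝 (u, u), (∀ a, ‖q.1 a‖ = ‖q.2 a‖) →
    (∀ x a b, SideAt τ u x a b → inner ℝ (q.1 a) (q.1 b) = inner ℝ (q.2 a) (q.2 b)) →
    (∀ x a b c d, QuadAt τ u x a b c d →
      0 ≤ (inner ℝ (q.1 a) (q.1 c) - inner ℝ (q.2 a) (q.2 c)) *
        (inner ℝ (q.1 b) (q.1 d) - inner ℝ (q.2 b) (q.2 d))) →
    ∀ a b, inner ℝ (q.1 a) (q.1 b) = inner ℝ (q.2 a) (q.2 b)

def StFull : Prop := ∀ (ι : Type) [Fintype ι] (τ : ℝ) (u : ι → E4) (T : Tri ι),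
  Reg τ u T → T.Full

def StSolve1 : Prop := ∀ (ι : Type) [Fintype ι] (τ : ℝ) (u : ι → E4) (T : Tri ι), Reg τ u T →
  (∀ x a b c d, ¬ QuadAt τ u x a b c d) → ∀ U ∈ 𝓝 u, ∀ᶠ G : ι → ι → ℝ in 𝓝 (gm τ u),
    (∀ a b, G a b = G b a) → ∃ v ∈ U, Un v ∧ ∀ a b, T.adj a b → gm τ v a b = G a b

def StSolve2 : Prop := ∀ (ι : Type) [Fintype ι] (τ : ℝ) (u : ι → E4) (T : Tri ι), Reg τ u T →
  ∀ U ∈ 𝓝 u, ∀ᶠ σ in 𝓝 τ, ∃ v ∈ U, Un v ∧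
    (∀ x a b, SideAt τ u x a b → gm σ v a b = gm τ u a b) ∧
    ∀ x a b c d, QuadAt τ u x a b c d →
      (gm σ v a c = gm τ u a c ∧ 0 ≤ d4 (u a) (u b) (u c) (u d) * (gm σ v b d - gm τ u b d)) ∨
      (gm σ v b d = gm τ u b d ∧ d4 (u a) (u b) (u c) (u d) * (gm σ v a c - gm τ u a c) ≤ 0)

/-- Local lemma at a vertex of two isometric convex cones. -/
def StLL : Prop := ∀ (K : Type) [Fintype K] (σ : Equiv.Perm K) (u u' : K → E3) (a a' : E3),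
  (∀ k, ‖u k‖ = 1) → (∀ k, ‖u' k‖ = 1) → ‖a‖ = 1 → ‖a'‖ = 1 →
  (∀ k, inner ℝ (u k) (u (σ k)) = inner ℝ (u' k) (u' (σ k))) →
  (∀ k, 0 < d3 (u k) (u (σ k)) a) → (∀ k l, 0 ≤ d3 (u k) (u (σ k)) (u l)) →
  (∃ k, 0 < d3 (u k) (u (σ k)) (u (σ (σ k)))) →
  (∀ k, d3 (u' k) (u' (σ k)) a' ≠ 0) →
  (∀ k l, 0 ≤ d3 (u' k) (u' (σ k)) (u' l) * d3 (u' k) (u' (σ k)) a') →
  (∀ k l, k ≠ l → ∀ α β α' β' γ : ℝ, 0 < α → 0 < β → 0 < α' → 0 < β' →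
    α • u' k + β • u' (σ k) ≠ α' • u' l + β' • u' (σ l) + γ • a') →
  ¬ ∀ k, inner ℝ (u k) a < inner ℝ (u' k) a'

/-- `F` is `1`-Lipschitz along segments that avoid the interior of the cone. -/
def StVis : Prop := ∀ (ι : Type) [Fintype ι] [DecidableEq ι] (u u' : ι → E4) (T T' : Tri ι)
  (f : (ι → ℝ) → ι → ℝ), Reg 0 u T → Iso1 T (gm 0 u) T' (gm 0 u') f →
  ∃ (π : E4 → ι → ℝ) (ρ : E4 → ℝ), (∀ l ∈ T.cone, π (∑ i, l i • u i) = l) ∧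
    (∀ y, ρ y = ‖y - ∑ i, π y i • u i‖) ∧
    (∀ y (m : ι → ℝ) (ν : E4), (∀ i, 0 ≤ m i) → ν ≠ 0 → (∀ i, 0 ≤ inner ℝ ν (u i)) →
      inner ℝ ν y ≤ 0 → π y ∈ T.cone ∧ ρ y ≤ ‖y - ∑ i, m i • u i‖) ∧
    ∀ y₀ y₁ ν : E4, ν ≠ 0 → (∀ i, 0 ≤ inner ℝ ν (u i)) → inner ℝ ν y₀ ≤ 0 → inner ℝ ν y₁ ≤ 0 →
      ‖∑ i, f (π y₀) i • u' i - ∑ i, f (π y₁) i • u' i‖ ^ 2 + (ρ y₀ - ρ y₁) ^ 2 ≤ ‖y₀ - y₁‖ ^ 2

/-- A touching point can be moved to a vertex from which no facet is visible. -/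
def StTouch : Prop := ∀ (ι : Type) [Fintype ι] [DecidableEq ι] (u u' : ι → E4) (T T' : Tri ι)
  (f g : (ι → ℝ) → ι → ℝ) (a₀ : ι), Reg 0 u T → Reg 0 u' T' → Iso1 T (gm 0 u) T' (gm 0 u') f →
  Iso1 T' (gm 0 u') T (gm 0 u) g → (∀ y ∈ T.cone, g (f y) = y) → (∀ y ∈ T'.cone, f (g y) = y) →
  (∃ l ∈ T.cone, inner ℝ (∑ i, f l i • u' i) (u' a₀) < inner ℝ (∑ i, l i • u i) (u a₀)) →
  ∃ (o : E4) (j : ι), j ≠ a₀ ∧ 1 < ‖o‖ ∧ inner ℝ (u j) o = inner ℝ (u' j) (u' a₀) ∧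
    (∀ l ∈ T.cone, inner ℝ (∑ i, l i • u i) o ≤ inner ℝ (∑ i, f l i • u' i) (u' a₀)) ∧
    ∀ a b, T.F j a b → 0 < d4 (u j) (u a) (u b) o

/-- No such vertex exists. -/
def StVert : Prop := ∀ (ι : Type) [Fintype ι] [DecidableEq ι] (u u' : ι → E4) (T T' : Tri ι)
  (f g : (ι → ℝ) → ι → ℝ) (a₀ j : ι) (o : E4), Reg 0 u T → Reg 0 u' T' →
  Iso1 T (gm 0 u) T' (gm 0 u') f → (∀ y ∈ T.cone, g (f y) = y) → j ≠ a₀ → 1 < ‖o‖ →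
  inner ℝ (u j) o = inner ℝ (u' j) (u' a₀) →
  (∀ l ∈ T.cone, inner ℝ (∑ i, l i • u i) o ≤ inner ℝ (∑ i, f l i • u' i) (u' a₀)) →
  ¬ ∀ a b, T.F j a b → 0 < d4 (u j) (u a) (u b) o

def StAlex : Prop := ∀ (ι : Type) [Fintype ι] [DecidableEq ι] (u u' : ι → E4) (T T' : Tri ι),
  Reg 0 u T → Reg 0 u' T' → Iso T (gm 0 u) T' (gm 0 u') →
  ∀ a b, inner ℝ (u a) (u b) = inner ℝ (u' a) (u' b)

def StS : Prop := ∀ (ι : Type) [Fintype ι] (τ : ℝ) (u u' : ι → E4) (T : Tri ι), 0 ≤ τ → τ < 1 →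
  SGood τ u T → SGood τ u' T →
  (∀ a b, T.adj a b → inner ℝ (u a) (u b) = inner ℝ (u' a) (u' b)) →
  ∀ a b, inner ℝ (u a) (u b) = inner ℝ (u' a) (u' b)

/-! ### Euclidean ball-polyhedra -/

def StE : Prop := ∀ (ι : Type) [Fintype ι] (c c' : ι → E3) (T : Tri ι), EGood c T → EGood c' T →
  (∀ a b, T.adj a b → dist (c a) (c b) = dist (c' a) (c' b)) →
  ∀ a b, dist (c a) (c b) = dist (c' a) (c' b)

def StStd : Prop := ∀ (n : ℕ) (P : BallPoly n), P.Standard → EStd P.c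

def StMatch : Prop := ∀ (n m : ℕ) (P : BallPoly n) (Q : BallPoly m) (φ : P.Cell ≃o Q.Cell),
  P.Standard → Q.Standard → P.SameFaceAngles Q φ →
  ∃ (σ : Fin n ≃ Fin m) (ψ : E3 → E3), EStd (Q.c ∘ σ) ∧ Match P.c (Q.c ∘ σ) ψ

def StE1 : Prop := ∀ (ι : Type) [Fintype ι] (c : ι → E3) (v : E3), Priv c → EV c v →
  ∃ (n : ℕ) (e : ℕ → ι), 2 ≤ n ∧ (∀ i, dist v (c i) = 1 ↔ ∃ k ≤ n, e k = i) ∧
    Cvx (fun k => c (e k) - v) n ∧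
    ∀ j k, ESide c v j k ↔ ∃ i ≤ n, e i = j ∧ e ((i + 1) % (n + 1)) = k

def StE2 : Prop := ∀ (ι : Type) [Fintype ι] (c : ι → E3) (v : E3) (j k : ι), Priv c → EV c v →
  ESide c v j k → ∃ w, EV c w ∧ w ≠ v ∧ ESide c w k j

def StE3 : Prop := ∀ (ι : Type) [Fintype ι] (c : ι → E3) (v : E3), Priv c → EV c v →
  ∀ᶠ x in 𝓝[≠] v, ∀ j k, j ≠ k → InB c x → dist x (c j) = 1 → dist x (c k) = 1 →
    ESide c v j k ∨ ESide c v k j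

def StE4 : Prop := ∀ (ι : Type) [Fintype ι] (c : ι → E3) (x : E3) (j k : ι), Priv c →
  3 ≤ Nat.card ι → InB c x → j ≠ k → dist x (c j) = 1 → dist x (c k) = 1 →
  ∃ v, EV c v ∧ dist v (c j) = 1 ∧ dist v (c k) = 1

def StConn : Prop := ∀ (ι : Type) [Fintype ι] (c : ι → E3), EStd c →
  (∀ i, ∃ v, EV c v ∧ dist v (c i) = 1) ∧ ∀ κ : E3 → Prop,
    (∀ v w j k, EV c v → EV c w → ESide c v j k → ESide c w k j → κ v → κ w) →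
    ∀ v w, EV c v → EV c w → κ v → κ w

open Classical in
def StBnd : Prop := ∀ (ι : Type) [Fintype ι] (c : ι → E3) (z : ι → ι → ZMod 2), EStd c →
  (∀ j k, z j k = z k j) →
  (∀ v, EV c v → ∑ j, ∑ k, (if ESide c v j k then z j k else 0) = 0) →
  ∃ χ : ι → ZMod 2, ∀ v j k, EV c v → ESide c v j k → z j k = χ j + χ k

def StArm : Prop := ∀ (n : ℕ) (q q' : ℕ → E3), Cvx q n → Cvx q' n →
  (∀ i < n, inner ℝ (q i) (q (i + 1)) = inner ℝ (q' i) (q' (i + 1))) →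
  (∀ i, i + 2 ≤ n → inner ℝ (q' i) (q' (i + 2)) ≤ inner ℝ (q i) (q (i + 2))) →
  inner ℝ (q' 0) (q' n) ≤ inner ℝ (q 0) (q n) ∧
    ((∃ i, i + 2 ≤ n ∧ inner ℝ (q' i) (q' (i + 2)) < inner ℝ (q i) (q (i + 2))) →
      inner ℝ (q' 0) (q' n) < inner ℝ (q 0) (q n))

def StSign : Prop := ∀ (n : ℕ) (q q' : ℕ → E3) (δ : ℕ → ℝ), 2 ≤ n → Cvx q n → Cvx q' n →
  (∀ i ≤ n, inner ℝ (q i) (q ((i + 1) % (n + 1))) = inner ℝ (q' i) (q' ((i + 1) % (n + 1)))) →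
  (∀ i ≤ n, δ i = inner ℝ (q' ((i + n) % (n + 1))) (q' ((i + 1) % (n + 1))) -
    inner ℝ (q ((i + n) % (n + 1))) (q ((i + 1) % (n + 1)))) →
  (∀ i ≤ n, δ i = 0) ∨ ∃ i₁ i₂ i₃ i₄, i₁ < i₂ ∧ i₂ < i₃ ∧ i₃ < i₄ ∧ i₄ ≤ n ∧
    δ i₁ * δ i₂ < 0 ∧ δ i₂ * δ i₃ < 0 ∧ δ i₃ * δ i₄ < 0

open Classical in
/-- Cauchy's combinatorial lemma for a map all of whose cycles bound. -/
def StComb : Prop := ∀ (D V Fc : Type) [Fintype D] (vt : D → V) (fc : D → Fc)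
  (α ρ : Equiv.Perm D) (δ : D → ℝ), (∀ d, α (α d) = d) → (∀ d, vt (ρ d) = vt d) →
  (∀ d d', vt d = vt d' → ρ.SameCycle d d') → (∀ d, fc (ρ d) = fc (α d)) →
  (∀ d, vt (α d) ≠ vt d) → (∀ d d', vt d = vt d' → vt (α d) = vt (α d') → d = d') →
  (∀ z : D → ZMod 2, (∀ d, z (α d) = z d) → (∀ v, ∑ d, (if vt d = v then z d else 0) = 0) →
    ∃ χ : Fc → ZMod 2, ∀ d, z d = χ (fc d) + χ (fc (α d))) →
  (∀ d, δ (α d) = δ d) →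
  (∀ d, δ d ≠ 0 → ∃ (d₀ : D) (i₁ i₂ i₃ i₄ : ℕ), vt d₀ = vt d ∧ i₁ < i₂ ∧ i₂ < i₃ ∧ i₃ < i₄ ∧
    i₄ < Function.minimalPeriod ρ d₀ ∧ δ (ρ^[i₁] d₀) * δ (ρ^[i₂] d₀) < 0 ∧
    δ (ρ^[i₂] d₀) * δ (ρ^[i₃] d₀) < 0 ∧ δ (ρ^[i₃] d₀) * δ (ρ^[i₄] d₀) < 0) →
  ∀ d, δ d = 0

def StStep0 : Prop := ∀ (ι : Type) [Fintype ι] (c c' : ι → E3) (ψ : E3 → E3), EStd c → EStd c' →
  Match c c' ψ → (∀ v j k, EV c v → ESide c v j k → ESide c' (ψ v) j k) →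
  ∀ v i j, EV c v → dist v (c i) = 1 → dist v (c j) = 1 →
    inner ℝ (c i - v) (c j - v) = inner ℝ (c' i - ψ v) (c' j - ψ v)

def StOrient : Prop := ∀ (ι : Type) [Fintype ι] (c c' : ι → E3) (ψ : E3 → E3), EStd c → EStd c' →
  Match c c' ψ → ∃ (c'' : ι → E3) (ψ' : E3 → E3), (c'' = c' ∨ c'' = -c') ∧ EStd c'' ∧
    Match c c'' ψ' ∧ ∀ v j k, EV c v → (ESide c v j k ↔ ESide c'' (ψ' v) j k)

def StTriT : Prop := ∀ (ι : Type) [Fintype ι] (c : ι → E3), EStd c →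
  ∃ (κ : Type) (_ : Fintype κ) (pos : κ → E3) (T : Tri (ι ⊕ κ)), Function.Injective pos ∧
    (∀ v, EV c v ↔ v ∈ Set.range pos) ∧ IsTrunc c pos T

def StTrunc : Prop := ∀ (ι κ : Type) [Fintype ι] [Fintype κ] (c : ι → E3) (pos : κ → E3)
  (T : Tri (ι ⊕ κ)), EStd c → Function.Injective pos → (∀ v, EV c v ↔ v ∈ Set.range pos) →
  IsTrunc c pos T → ∀ᶠ ε in 𝓝[>] (0 : ℝ), EGood (trunc c pos ε) T

end Pool.Agent.Lib.MP_34b931_co.G
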