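import Pool.Agent.Lib.MP_34b931_co.H22Tri

/-! From the face lattice of a standard ball-polyhedron to the combinatorial data. -/

namespace Pool.Agent.Lib.MP_34b931_co.G

open Filter Topology Set BallPoly

namespace Std

variable {ι κ : Type} {c : ι → E3} {n m : ℕ} {P : BallPoly n}

theorem third {v : E3} (h : EV c v) (j k : ι) : ∃ l, l ≠ j ∧ l ≠ k ∧ dist v (c l) = 1 := by
  obtain ⟨-, a, b, d, h⟩ := h
  grind

theorem asymm {v : E3} {j k : ι} (h : EV c v) (h1 : ESide c v j k) : ¬ ESide c v k j := fun h2 => by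
  obtain ⟨l, a, b, d⟩ := third h j k
  have := h1.2.2.2 l a b d
  have := h2.2.2.2 l b a d
  rw [d3_swap12] at this
  linarith

theorem nbr {v : E3} {i j k r : ι} (h1 : ESide c v j i) (h2 : ESide c v i k)
    (h : ESide c v i r ∨ ESide c v r i) : r = j ∨ r = k := by
  by_contra e
  rw [not_or] at e
  rcases h with h | h
  · have := h.2.2.2 k h2.1.symm (Ne.symm e.2) h2.2.2.1
    have := h2.2.2.2 r h.1.symm e.2 h.2.2.1
    rw [d3_swap23] at this
    linarith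
  · have := h.2.2.2 j (Ne.symm e.1) h1.1 h1.2.1
    have := h1.2.2.2 r e.1 h.1 h.2.1
    rw [d3_swap12, d3_cyc] at this
    linarith

theorem d3_ne {a b d : E3} (h : Ind a b d) : d3 a b d ≠ 0 := fun e => by
  have h1 : cr3 a b = 0 := h.orth (by rw [inner_cr3, d3_self13]) (by rw [inner_cr3, d3_self23])
    (by rw [inner_cr3, e])
  obtain ⟨x, x1, x2, -⟩ := h.dual 1 0 0
  have h2 : ∀ i, cr3 a b i = 0 := fun i => by rw [h1]; rfl
  have a0 := h2 0
  have a1 := h2 1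
  have a2 := h2 2
  simp only [cr3, Matrix.cons_val_zero, Matrix.cons_val_one, Matrix.cons_val] at a0 a1 a2
  rw [inner3] at x1 x2
  have : b = 0 := ext3
    (by simp only [PiLp.zero_apply]; linear_combination a 0 * x2 - b 0 * x1 - x 1 * a2 + x 2 * a1)
    (by simp only [PiLp.zero_apply]; linear_combination a 1 * x2 - b 1 * x1 - x 2 * a0 + x 0 * a2)
    (by simp only [PiLp.zero_apply]; linear_combination a 2 * x2 - b 2 * x1 - x 0 * a1 + x 1 * a0)
  simpa using (h 0 1 0 (by simp [this])).2.1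

theorem adj_of_tangent (hp : Priv c) {v t : E3} {i r : ι} (ir : i ≠ r) (hi : dist v (c i) = 1)
    (hr : dist v (c r) = 1) (t0 : t ≠ 0) (t1 : inner ℝ t (c i - v) = 0)
    (t2 : inner ℝ t (c r - v) = 0) (t3 : ∀ l, dist v (c l) = 1 → 0 ≤ inner ℝ t (c l - v)) :
    ESide c v i r ∨ ESide c v r i := by
  have a : ∀ l, l ≠ i → l ≠ r → dist v (c l) = 1 → 0 < inner ℝ t (c l - v) ∧
      d3 (c i - v) (c r - v) (c l - v) ≠ 0 := fun l h1 h2 h3 =>
    have := hp.ind ir h2.symm h1.symm hi hr h3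
    ⟨(t3 l h3).lt_of_ne fun e => t0 (this.orth t1 t2 e.symm), d3_ne this⟩
  by_cases h : ∀ l, l ≠ i → l ≠ r → dist v (c l) = 1 → 0 < d3 (c i - v) (c r - v) (c l - v)
  · exact .inl ⟨ir, hi, hr, h⟩
  push Not at h
  obtain ⟨l, h1, h2, h3, h4⟩ := h
  refine .inr ⟨ir.symm, hr, hi, fun k k1 k2 k3 => ?_⟩
  have b := congrArg (inner ℝ · (c k - v)) (dual3 (c i - v) (c r - v) (c l - v) t)
  simp only [real_inner_comm t, t1, t2, zero_smul, zero_add, real_inner_smul_left, inner_cr3] at b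
  obtain ⟨⟨l1, l2⟩, k4, -⟩ := And.intro (a l h1 h2 h3) (a k k2 k1 k3)
  rw [d3_swap12]
  nlinarith [mul_pos (neg_pos.2 (h4.lt_of_ne l2)) k4]

theorem chord {a b p q r : E3} (ab : a ≠ b) (pa : dist p a = 1) (pb : dist p b = 1)
    (qa : dist q a = 1) (qb : dist q b = 1) (ra : dist r a = 1) (rb : dist r b = 1) (pq : q ≠ p)
    (pr : r ≠ p) (qr : q ≠ r) : d3 (q - p) (r - p) (b - a) ≠ 0 := fun e => by
  have y1 := (eq_iff pa).1 qa
  have z1 := (eq_iff pa).1 ra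
  have e1 : b - a = (b - p) - (a - p) := by abel
  have y2 : inner ℝ (q - p) (b - a) = 0 := by
    rw [e1, inner_sub_right]; linarith [(eq_iff pb).1 qb]
  have z2 : inner ℝ (r - p) (b - a) = 0 := by
    rw [e1, inner_sub_right]; linarith [(eq_iff pb).1 rb]
  have e2 : q - r = (q - p) - (r - p) := by abel
  have n0 := norm_pos_iff.2 (sub_ne_zero.2 ab.symm)
  have y0 := norm_pos_iff.2 (sub_ne_zero.2 pq)
  have z0 := norm_pos_iff.2 (sub_ne_zero.2 pr)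
  have w0 := pow_pos (norm_pos_iff.2 (sub_ne_zero.2 qr)) 2
  have h := d3_sq (q - p) (r - p) (b - a)
  rw [e2, norm_sub_sq_real] at w0
  rw [e, y2, z2] at h
  generalize q - p = y at *
  generalize r - p = z at *
  simp only [real_inner_self_eq_norm_sq] at h
  have h1 : ‖y‖ ^ 2 * ‖z‖ ^ 2 = inner ℝ y z ^ 2 :=
    mul_left_cancel₀ (pow_pos n0 2).ne' (by linear_combination -h)
  have h2 : ‖‖y‖ ^ 2 • z - inner ℝ y z • y‖ ^ 2 = 0 := by
    rw [norm_sub_sq_real, norm_smul, norm_smul, real_inner_smul_left, real_inner_smul_right,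
      real_inner_comm y z, mul_pow, mul_pow, Real.norm_eq_abs, Real.norm_eq_abs, sq_abs, sq_abs]
    linear_combination ‖y‖ ^ 2 * h1
  have h3 := congrArg (inner ℝ · (a - p)) (norm_eq_zero.1 (pow_eq_zero_iff two_ne_zero |>.1 h2))
  simp only [inner_sub_left, real_inner_smul_left, inner_zero_left] at h3
  have h4 : inner ℝ y z = ‖z‖ ^ 2 := mul_left_cancel₀ (pow_pos y0 2).ne' (by
    linear_combination -2 * h3 + inner ℝ y z * y1 - ‖y‖ ^ 2 * z1)
  have h5 : ‖y‖ ^ 2 = ‖z‖ ^ 2 := mul_right_cancel₀ (pow_pos z0 2).ne' (by rw [h1, h4]; ring)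
  linarith

theorem sign {Y : Set E3} (hY : IsPreconnected Y) {g : E3 → ℝ} (hg : Continuous g)
    (h0 : ∀ x ∈ Y, g x ≠ 0) {u : E3} (hu : u ∈ closure Y) (h1 : 0 < g u) : ∀ x ∈ Y, 0 < g x := by
  obtain ⟨y, y1, y2⟩ := mem_closure_iff.1 hu _ (isOpen_lt continuous_const hg) h1
  refine fun x hx => lt_of_not_ge fun h => ?_
  obtain ⟨z, z1, z2⟩ := hY.intermediate_value hx y2 hg.continuousOn ⟨h, le_of_lt y1⟩
  exact h0 z z1 z2

theorem three {Y : Set E3} (hY : IsPreconnected Y) {a b u v w : E3} (ab : a ≠ b)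
    (h : ∀ x ∈ closure Y, dist x a = 1 ∧ dist x b = 1) (hu : u ∈ closure Y) (hv : v ∈ closure Y)
    (hw : w ∈ closure Y) (uv : u ≠ v) (vw : v ≠ w) (wu : w ≠ u) (h1 : u ∉ Y) (h2 : v ∉ Y)
    (h3 : w ∉ Y) : False := by
  have key : ∀ u v w, u ∈ closure Y → v ∈ closure Y → w ∈ closure Y → u ≠ v → v ≠ w → w ≠ u →
      v ∉ Y → w ∉ Y → ∀ x ∈ Y, 0 < d3 (v - x) (w - x) (b - a) * d3 (v - u) (w - u) (b - a) :=
    fun u v w hu hv hw uv vw wu h2 h3 => by
      have ch := fun x (hx : x ∈ closure Y) => chord ab (h x hx).1 (h x hx).2 (h v hv).1 (h v hv).2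
        (h w hw).1 (h w hw).2
      exact sign hY (by fun_prop) (fun x hx => mul_ne_zero (ch x (subset_closure hx)
        (fun e => h2 (e ▸ hx)) (fun e => h3 (e ▸ hx)) vw) (ch u hu uv.symm wu vw)) hu
        (mul_self_pos.2 (ch u hu uv.symm wu vw))
  obtain ⟨x, hx⟩ := closure_nonempty_iff.1 ⟨u, hu⟩
  have k1 := key u v w hu hv hw uv vw wu h2 h3 x hx
  have k2 := key v w u hv hw hu vw wu uv h3 h1 x hx
  have k3 := key w u v hw hu hv wu uv vw h1 h2 x hx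
  have e2 : d3 (w - v) (u - v) (b - a) = d3 (v - u) (w - u) (b - a) := by simp [d3]; ring
  have e3 : d3 (u - w) (v - w) (b - a) = d3 (v - u) (w - u) (b - a) := by simp [d3]; ring
  rw [e2] at k2
  rw [e3] at k3
  obtain ⟨xa, xb⟩ := h x (subset_closure hx)
  have p : ∀ y ∈ closure Y, y ∉ Y → 0 < inner ℝ (y - x) (a - x) ∧ inner ℝ (y - x) (b - a) = 0 :=
    fun y hy hy' => by
      have y0 := pow_pos (norm_pos_iff.2 (sub_ne_zero.2 fun e : y = x => hy' (e ▸ hx))) 2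
      have y1 := (eq_iff xa).1 (h y hy).1
      rw [show b - a = (b - x) - (a - x) by abel, inner_sub_right _ (b - x)]
      exact ⟨by linarith, by linarith [(eq_iff xb).1 (h y hy).2]⟩
  obtain ⟨⟨u1, u2⟩, ⟨v1, v2⟩, w1, w2⟩ := And.intro (p u hu h1) (And.intro (p v hv h2) (p w hw h3))
  have c0 := cramer3 (u - x) (v - x) (w - x) (b - a)
  have c1 := congrArg (inner ℝ · (b - a)) c0
  have c2 := congrArg (inner ℝ · (a - x)) c0
  simp only [inner_add_left, real_inner_smul_left, u2, v2, w2, mul_zero, add_zero, mul_eq_zero,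
    inner_self_eq_zero, sub_ne_zero.2 ab.symm, or_false] at c1 c2
  rw [c1, ← d3_cyc (b - a), d3_cyc (w - x)] at c2
  have := congrArg (· * d3 (v - u) (w - u) (b - a)) c2
  nlinarith [mul_pos k1 u1, mul_pos k2 v1, mul_pos k3 w1]

theorem inB {x : E3} : InB P.c x ↔ x ∈ P.body := by simp [InB, mem_body, InP]

theorem ev_iff {v : E3} : EV P.c v ↔ P.IsVertex v := by
  refine ⟨fun ⟨h, i, j, k, ij, jk, ik, a, b, d⟩ => vertex_of ij jk ik (mem_face.2 ⟨inB.1 h, a⟩)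
    (mem_face.2 ⟨inB.1 h, b⟩) (mem_face.2 ⟨inB.1 h, d⟩), fun h => ?_⟩
  obtain ⟨i, hi, j, hj, k, hk, ij, ik, jk⟩ := Finset.two_lt_card.1 h.2
  exact ⟨inB.2 (closed_body.frontier_subset h.1), i, j, k, ij, jk, ik,
    (mem_face.1 (mem_facesAt.1 hi)).2, (mem_face.1 (mem_facesAt.1 hj)).2,
    (mem_face.1 (mem_facesAt.1 hk)).2⟩

theorem fc {v : E3} (h : EV P.c v) {i : Fin n} : v ∈ P.face i ↔ dist v (P.c i) = 1 :=
  mem_face.trans (and_iff_right (inB.1 h.1))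

theorem edge (h : P.Standard) {v w : E3} {j k : Fin n} (hv : EV P.c v) (hw : EV P.c w)
    (vw : v ≠ w) (jk : j ≠ k) (vj : dist v (P.c j) = 1) (vk : dist v (P.c k) = 1)
    (wj : dist w (P.c j) = 1) (wk : dist w (P.c k) = 1) :
    ∃ Y, IsPreconnected Y ∧ closure Y ⊆ P.face j ∩ P.face k ∧ ∀ u, EV P.c u →
      u ∉ Y ∧ (dist u (P.c j) = 1 → dist u (P.c k) = 1 → u ∈ closure Y) := by
  obtain ⟨C, c1, c2, c3⟩ := h.meet (P.fc j) (P.fc k)
  have key : ∀ u, EV P.c u → dist u (P.c j) = 1 → dist u (P.c k) = 1 → u ∈ C.1 :=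
    fun u hu a b => singleton_subset_iff.1 (c3 _ (vc (ev_iff.1 hu)).2
      (singleton_subset_iff.2 ((fc hu).2 a)) (singleton_subset_iff.2 ((fc hu).2 b)))
  have k1 := key v hv vj vk
  have k2 := key w hw wj wk
  rcases C.2.two jk c1 c2 with e | ⟨u, -, e⟩ | ⟨x, -, e⟩
  · rw [e] at k1; exact k1.elim
  · rw [e] at k1 k2; exact absurd (k1.trans k2.symm) vw
  · refine ⟨_, isPreconnected_connectedComponentIn, e ▸ subset_inter c1 c2, fun u hu =>
      ⟨fun a => ?_, e ▸ key u hu⟩⟩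
    have := (connectedComponentIn_subset _ _ a).2
    have := (ev_iff.1 hu).2
    omega

theorem inB_comp (σ : κ ≃ ι) {x : E3} : InB (c ∘ σ) x ↔ InB c x :=
  σ.surjective.forall (p := fun i => dist x (c i) ≤ 1).symm

theorem ev_comp (σ : κ ≃ ι) {x : E3} : EV (c ∘ σ) x ↔ EV c x := by
  simp only [EV, inB_comp, σ.surjective.exists, σ.injective.ne_iff, Function.comp]

theorem side_comp (σ : κ ≃ ι) {x : E3} {j k : κ} :
    ESide (c ∘ σ) x j k ↔ ESide c x (σ j) (σ k) := by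
  simp only [ESide, σ.surjective.forall, σ.injective.ne_iff, Function.comp]

theorem comp (h : EStd c) (σ : κ ≃ ι) : EStd (c ∘ σ) where
  priv i := (h.priv (σ i)).imp fun _ a => ⟨a.1, fun j b => a.2 _ (σ.injective.ne b)⟩
  three := Nat.card_congr σ ▸ h.three
  int := h.int.imp fun _ a _ => a _
  uniq3 v w i j k a b ij jk ik := h.uniq3 v w _ _ _ ((inB_comp σ).1 a) ((inB_comp σ).1 b)
    (σ.injective.ne ij) (σ.injective.ne jk) (σ.injective.ne ik)
  two v w j k a b vw jk := by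
    simp only [side_comp]
    exact h.two v w _ _ ((ev_comp σ).1 a) ((ev_comp σ).1 b) vw (σ.injective.ne jk)
  suniq v w j k a b := by
    simpa only [side_comp] using h.suniq v w _ _ ((ev_comp σ).1 a) ((ev_comp σ).1 b)

theorem corner_symm {a b d : E3} {θ : ℝ} (h : Corner a b d θ) : Corner a d b θ := by
  obtain ⟨t, s, h1, h2, h3, h4, h5, h6, h7, h8, rfl⟩ := h
  exact ⟨s, t, h2, h1, h6, h7, h8, h3, h4, h5, InnerProductGeometry.angle_comm _ _⟩

theorem corner (h : P.Standard) {v : E3} {i : Fin n} {θ : ℝ} (ha : P.IsFaceAngle (P.face i) v θ) :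
    ∃ r s, r ≠ s ∧ (ESide P.c v i r ∨ ESide P.c v r i) ∧ (ESide P.c v i s ∨ ESide P.c v s i) ∧
      Corner (P.c i - v) (P.c r - v) (P.c s - v) θ := by
  obtain ⟨e1, e2, t1, t2, h1, h2, ne, s1, s2, v1, v2, z1, z2, c1, c2, rfl⟩ := ha
  have ge : ∀ {e t}, e ⊆ P.face i → t ∈ posTangentConeAt e v → ∀ l, dist v (P.c l) = 1 →
      0 ≤ inner ℝ t (P.c l - v) := fun s c l hl =>
    tangent_ge hl (fun x hx => mem_body.1 (s hx).1 l (by simp)) c
  have eq : ∀ {e t l}, e ⊆ P.face l → v ∈ e → t ∈ posTangentConeAt e v →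
      inner ℝ t (P.c l - v) = 0 := fun s hv c =>
    tangent_eq (mem_face.1 (s hv)).2 (fun x hx => (mem_face.1 (s hx)).2) c
  obtain ⟨r, ri, sr⟩ := h1.other i
  obtain ⟨s, si, ss⟩ := h2.other i
  have vi := (mem_face.1 (s1 v1)).2
  have vr := (mem_face.1 (sr v1)).2
  have vs := (mem_face.1 (ss v2)).2
  exact ⟨r, s, fun e => ne (h.edge_eq h1 h2 ri sr s1 (e ▸ ss) s2),
    adj_of_tangent P.priv ri.symm vi vr z1 (eq s1 v1 c1) (eq sr v1 c1) (ge s1 c1),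
    adj_of_tangent P.priv si.symm vi vs z2 (eq s2 v2 c2) (eq ss v2 c2) (ge s2 c2),
    t1, t2, z1, z2, eq s1 v1 c1, eq sr v1 c1, ge s1 c1 _ vs, eq s2 v2 c2, eq ss v2 c2,
    ge s2 c2 _ vr, rfl⟩

theorem corner_of {c' : ι → E3} {v : E3} {i j k r s : ι} {θ : ℝ} (rs : r ≠ s)
    (hr : r = j ∨ r = k) (hs : s = j ∨ s = k) (h : Corner (c' i - v) (c' r - v) (c' s - v) θ) :
    Corner (c' i - v) (c' j - v) (c' k - v) θ := by
  rcases hr with rfl | rfl <;> rcases hs with rfl | rfl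
  exacts [absurd rfl rs, h, corner_symm h, absurd rfl rs]

end Std

open Std

theorem stStd (h2 : StE2) (h3 : StE3) : StStd := by
  intro n P h
  refine ⟨P.priv, by simpa using P.three, P.int.imp fun o ho => int_lt ho,
    fun v w i j k a b ij jk ik a1 a2 a3 b1 b2 b3 => ?_, fun v w j k a b vw jk a1 a2 b1 b2 => ?_,
    fun v w j k a b a1 b1 => by_contra fun vw => ?_⟩
  · rw [inB] at a b
    exact h.uniq ij jk ik (mem_face.2 ⟨a, a1⟩) (mem_face.2 ⟨a, a2⟩) (mem_face.2 ⟨a, a3⟩)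
      (mem_face.2 ⟨b, b1⟩) (mem_face.2 ⟨b, b2⟩) (mem_face.2 ⟨b, b3⟩)
  · obtain ⟨Y, -, y1, y2⟩ := edge h a b vw jk a1 a2 b1 b2
    have := mem_closure_iff_nhdsWithin_neBot.1 ((y2 v a).2 a1 a2)
    obtain ⟨x, x1, x2⟩ := (((h3 _ _ v P.priv a).filter_mono (nhdsWithin_mono v
      (subset_compl_singleton_iff.2 (y2 v a).1))).and self_mem_nhdsWithin).exists
    obtain ⟨x3, x4⟩ := y1 (subset_closure x2)
    exact x1 j k jk (inB.2 x3.1) (mem_face.1 x3).2 (mem_face.1 x4).2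
  · obtain ⟨Y, y0, y1, y2⟩ := edge h a b vw a1.1 a1.2.1 a1.2.2.1 b1.2.1 b1.2.2.1
    obtain ⟨u, u1, u2, u3⟩ := h2 _ _ v j k P.priv a a1
    exact three y0 (P.priv.ne a1.1) (fun x hx => ⟨(mem_face.1 (y1 hx).1).2, (mem_face.1 (y1 hx).2).2⟩)
      ((y2 u u1).2 u3.2.2.1 u3.2.1) ((y2 v a).2 a1.2.1 a1.2.2.1) ((y2 w b).2 b1.2.1 b1.2.2.1) u2 vw
      (fun e => asymm b b1 (e ▸ u3)) (y2 u u1).1 (y2 v a).1 (y2 w b).1

theorem stMatch (h1 : StStd) (h2 : StE2) : StMatch := by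
  intro n m P Q φ hP hQ H
  obtain ⟨σ, hσ⟩ := exists_equiv φ
  have hS := comp (h1 _ Q hQ) σ
  choose! ψ p1 p2 using fun v (hv : P.IsVertex v) => show ∃ w, Q.IsVertex w ∧
      ∀ hv : P.IsVertex v, (φ (vc hv)).1 = {w} ∧ ∀ i, w ∈ Q.face (σ i) ↔ v ∈ P.face i from
    (map_vertex φ σ hσ hv).imp fun _ a => ⟨a.1, fun _ => a.2⟩
  have vert : ∀ v, EV P.c v → EV (Q.c ∘ σ) (ψ v) := fun v hv =>
    (ev_comp σ).2 (ev_iff.2 (p1 v (ev_iff.1 hv)))
  have act : ∀ v, EV P.c v → ∀ i, dist v (P.c i) = 1 ↔ dist (ψ v) ((Q.c ∘ σ) i) = 1 :=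
    fun v hv i => by
      rw [← fc hv, ← (p2 v (ev_iff.1 hv) (ev_iff.1 hv)).2, fc ((ev_comp σ).1 (vert v hv))]
      rfl
  have surj : ∀ w, EV (Q.c ∘ σ) w → ∃ v, EV P.c v ∧ ψ v = w := fun w hw => by
    obtain ⟨v, v1, -, v2⟩ := map_vertex φ.symm σ.symm (fun i => by
      rw [φ.symm_apply_eq, hσ, σ.apply_symm_apply]) (ev_iff.1 ((ev_comp σ).1 hw))
    have v3 := ev_iff.2 v1
    have v4 : ∀ i, dist w ((Q.c ∘ σ) i) = 1 → dist (ψ v) ((Q.c ∘ σ) i) = 1 := fun i hi =>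
      (act v v3 i).1 ((fc v3).1 (by simpa using (v2 (σ i)).2 ((fc ((ev_comp σ).1 hw)).2 hi)))
    obtain ⟨w0, i, j, k, ij, jk, ik, a, b, d⟩ := hw
    exact ⟨v, v3, hS.uniq3 _ _ i j k (vert v v3).1 w0 ij jk ik (v4 i a) (v4 j b) (v4 k d) a b d⟩
  refine ⟨σ, ψ, hS, vert, act, surj, fun v i j k hv a b => ?_⟩
  have v1 := ev_iff.1 hv
  obtain ⟨θ, t1, t2⟩ := H (P.fc i) (vc v1) i v (ψ v) rfl v1 ((fc hv).2 b.2.1) rfl (p2 v v1 v1).1
  rw [hσ] at t2
  obtain ⟨r, s, rs, hr, hs, hc⟩ := corner hP t1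
  obtain ⟨r', s', rs', hr', hs', hc'⟩ := corner hQ t2
  obtain ⟨r', rfl⟩ := σ.surjective r'
  obtain ⟨s', rfl⟩ := σ.surjective s'
  have tr : ∀ l, ESide Q.c (ψ v) (σ i) (σ l) ∨ ESide Q.c (ψ v) (σ l) (σ i) → l = j ∨ l = k := by
    have t : ∀ x y, ESide Q.c (ψ v) (σ x) (σ y) → ESide P.c v x y ∨ ESide P.c v y x :=
      fun x y h => by
        rw [← side_comp] at h
        obtain ⟨w, w1, w2, w3⟩ := h2 _ _ _ x y hS.priv (vert v hv) h
        obtain ⟨u, u1, rfl⟩ := surj w w1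
        exact (h1 _ P hP).two v u x y hv u1 (fun e => w2 (e ▸ rfl)) h.1 ((act v hv x).2 h.2.1)
          ((act v hv y).2 h.2.2.1) ((act u u1 x).2 w3.2.2.1) ((act u u1 y).2 w3.2.1)
    exact fun l h => nbr a b (h.elim (t i l) fun h => (t l i h).symm)
  exact ⟨θ, corner_of rs (nbr a b hr) (nbr a b hs) hc,
    corner_of (c' := Q.c ∘ σ) (σ.injective.ne_iff.1 rs') (tr _ hr') (tr _ hs') hc'⟩

end Pool.Agent.Lib.MP_34b931_co.G
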