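import Pool.Agent.Lib.MP_34b931_co.H22Tri

/-! The face angles determine the vertex figures. -/

namespace Pool.Agent.Lib.MP_34b931_co.G

open Filter Topology InnerProductGeometry

namespace Step0

theorem nx_cases {n i : ℕ} (h : i ≤ n) :
    (i < n ∧ (i + 1) % (n + 1) = i + 1) ∨ (i = n ∧ (i + 1) % (n + 1) = 0) := by
  rcases h.lt_or_eq with h | h
  · exact Or.inl ⟨h, Nat.mod_eq_of_lt (by omega)⟩
  · exact Or.inr ⟨h, by rw [h, Nat.mod_self]⟩

theorem pv_cases {n i : ℕ} (h : i ≤ n) :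
    (i = 0 ∧ (i + n) % (n + 1) = n) ∨ (0 < i ∧ (i + n) % (n + 1) = i - 1) := by
  rcases Nat.eq_zero_or_pos i with h0 | h0
  · exact Or.inl ⟨h0, by rw [h0, zero_add]; exact Nat.mod_eq_of_lt (by omega)⟩
  · refine Or.inr ⟨h0, ?_⟩
    rw [show i + n = (i - 1) + (n + 1) by omega, Nat.add_mod_right]
    exact Nat.mod_eq_of_lt (by omega)

theorem nx_le (n i : ℕ) : (i + 1) % (n + 1) ≤ n := Nat.lt_succ_iff.1 (Nat.mod_lt _ (by omega))

theorem pv_le (n i : ℕ) : (i + n) % (n + 1) ≤ n := Nat.lt_succ_iff.1 (Nat.mod_lt _ (by omega))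

theorem nx_pv {n i : ℕ} (h : i ≤ n) : ((i + n) % (n + 1) + 1) % (n + 1) = i := by
  rcases pv_cases h with ⟨h1, h2⟩ | ⟨h1, h2⟩ <;> rw [h2]
  · rw [Nat.mod_self, h1]
  · rw [show i - 1 + 1 = i by omega]
    exact Nat.mod_eq_of_lt (by omega)

/-- All other vertices lie on the positive side of each side of the closed polygon. -/
def Sides (q : ℕ → E3) (n : ℕ) : Prop :=
  (∀ i ≤ n, ‖q i‖ = 1) ∧ ∀ i ≤ n, ∀ l ≤ n, l ≠ i → l ≠ (i + 1) % (n + 1) →
    0 < d3 (q i) (q ((i + 1) % (n + 1))) (q l)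

theorem pluck (p a x y z : E3) :
    d3 p a y * d3 p x z = d3 p a x * d3 p y z + d3 p a z * d3 p x y := by
  simp only [d3]; ring

theorem cvx_of {q : ℕ → E3} {n : ℕ} (h1 : ∀ i ≤ n, ‖q i‖ = 1)
    (h2 : ∀ i < n, ∀ l ≤ n, l ≠ i → l ≠ i + 1 → 0 < d3 (q i) (q (i + 1)) (q l)) : Cvx q n := by
  refine ⟨h1, fun i j k ij jk kn => ?_⟩
  by_cases e : j = i + 1
  · subst e
    exact h2 i (by omega) k kn (by omega) (by omega)
  induction k, jk using Nat.le_induction with
  | base =>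
    rw [← d3_cyc]
    exact h2 j (by omega) i (by omega) (by omega) (by omega)
  | succ k jk ih =>
    have A := h2 i (by omega) k (by omega) (by omega) (by omega)
    have B := h2 i (by omega) j (by omega) (by omega) (by omega)
    have C := h2 i (by omega) (k + 1) (by omega) (by omega) (by omega)
    have E := h2 k (by omega) i (by omega) (by omega) (by omega)
    rw [d3_cyc] at E
    have P := pluck (q i) (q (i + 1)) (q j) (q k) (q (k + 1))
    have := add_pos (mul_pos B E) (mul_pos C (ih (by omega)))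
    rw [← P] at this
    exact (pos_iff_pos_of_mul_pos this).1 A

theorem Sides.cvx {q : ℕ → E3} {n : ℕ} (h : Sides q n) : Cvx q n :=
  cvx_of h.1 fun i hi l hl a b => by
    have e : (i + 1) % (n + 1) = i + 1 := Nat.mod_eq_of_lt (by omega)
    have := h.2 i hi.le l hl a (by rwa [e])
    rwa [e] at this

noncomputable def nrm (x : E3) : E3 := ‖x‖⁻¹ • x

theorem norm_nrm {x : E3} (h : x ≠ 0) : ‖nrm x‖ = 1 := norm_smul_inv_norm h

theorem cr3_cr3 (a b c : E3) : cr3 (cr3 a b) (cr3 b c) = d3 a b c • b := by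
  apply ext3 <;> simp [cr3, d3] <;> ring

theorem lagrange (a b c d : E3) :
    inner ℝ (cr3 a b) (cr3 c d) = inner ℝ a c * inner ℝ b d - inner ℝ a d * inner ℝ b c := by
  simp [inner3, cr3]; ring

theorem cr3_smul (r s : ℝ) (a b : E3) : cr3 (r • a) (s • b) = (r * s) • cr3 a b := by
  apply ext3 <;> simp [cr3] <;> ring

theorem cr3_ne {a b c : E3} (h : 0 < d3 a b c) : cr3 a b ≠ 0 := by
  intro e
  rw [← inner_cr3, e, inner_zero_left] at h
  exact lt_irrefl _ h

theorem cr3_ne' {a b c : E3} (h : 0 < d3 a b c) : cr3 b c ≠ 0 :=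
  cr3_ne (c := a) (by rwa [d3_cyc])

theorem cr3_nrm {z a b : E3} (h : 0 < d3 z a b) :
    ∃ κ : ℝ, 0 < κ ∧ cr3 (nrm (cr3 z a)) (nrm (cr3 a b)) = κ • a := by
  have h1 := norm_pos_iff.2 (cr3_ne h)
  have h2 := norm_pos_iff.2 (cr3_ne' h)
  refine ⟨‖cr3 z a‖⁻¹ * ‖cr3 a b‖⁻¹ * d3 z a b, by positivity, ?_⟩
  rw [nrm, nrm, cr3_smul, cr3_cr3, smul_smul]

theorem cr3_sqrt {z a b : E3} (ha : ‖a‖ = 1) (h : 0 < d3 z a b) :
    0 < √(1 - inner ℝ (nrm (cr3 z a)) (nrm (cr3 a b)) ^ 2) ∧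
      cr3 (nrm (cr3 z a)) (nrm (cr3 a b)) =
        √(1 - inner ℝ (nrm (cr3 z a)) (nrm (cr3 a b)) ^ 2) • a := by
  obtain ⟨κ, k0, e⟩ := cr3_nrm h
  have h1 := norm_cr3 (nrm (cr3 z a)) (nrm (cr3 a b))
  rw [e, norm_nrm (cr3_ne h), norm_nrm (cr3_ne' h), norm_smul, ha, Real.norm_of_nonneg k0.le]
    at h1
  have h2 : 1 - inner ℝ (nrm (cr3 z a)) (nrm (cr3 a b)) ^ 2 = κ ^ 2 := by linarith
  rw [h2, Real.sqrt_sq k0.le]
  exact ⟨k0, e⟩

/-- The short diagonal of the dual polygon. -/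
theorem diag {z a b c : E3} (ha : ‖a‖ = 1) (hb : ‖b‖ = 1) (h : 0 < d3 z a b)
    (h' : 0 < d3 a b c) :
    inner ℝ (nrm (cr3 z a)) (nrm (cr3 b c)) =
      inner ℝ (nrm (cr3 z a)) (nrm (cr3 a b)) * inner ℝ (nrm (cr3 a b)) (nrm (cr3 b c)) -
        √(1 - inner ℝ (nrm (cr3 z a)) (nrm (cr3 a b)) ^ 2) *
          √(1 - inner ℝ (nrm (cr3 a b)) (nrm (cr3 b c)) ^ 2) * inner ℝ a b := by
  have L := lagrange (nrm (cr3 z a)) (nrm (cr3 a b)) (nrm (cr3 a b)) (nrm (cr3 b c))
  rw [real_inner_self_eq_norm_sq, norm_nrm (cr3_ne h')] at L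
  nth_rewrite 1 [(cr3_sqrt ha h).2, (cr3_sqrt hb h').2] at L
  rw [real_inner_smul_left, real_inner_smul_right] at L
  linarith

theorem corner_cos {a b c : E3} {θ : ℝ} (h : 0 < d3 a b c) (hc : Corner b a c θ) :
    inner ℝ (nrm (cr3 a b)) (nrm (cr3 b c)) = Real.cos θ := by
  obtain ⟨t, s, t0, s0, t1, t2, t3, s1, s3, s2, rfl⟩ := hc
  have et := dual3 a b c t
  have es := dual3 a b c s
  rw [real_inner_comm] at t1 t2 t3 s1 s2 s3
  rw [t1, t2, zero_smul, zero_smul, zero_add, zero_add] at et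
  rw [s1, s3, zero_smul, zero_smul, add_zero, add_zero] at es
  have pt : 0 < inner ℝ c t := lt_of_le_of_ne t3 fun e => by
    rw [← e, zero_smul, smul_eq_zero] at et
    exact et.elim h.ne' t0
  have ps : 0 < inner ℝ a s := lt_of_le_of_ne s2 fun e => by
    rw [← e, zero_smul, smul_eq_zero] at es
    exact es.elim h.ne' s0
  rw [nrm, nrm, unit_inner, ← angle_smul_left_of_pos _ _ pt, ← angle_smul_right_of_pos _ _ ps,
    ← et, ← es, angle_smul_left_of_pos _ _ h, angle_smul_right_of_pos _ _ h]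

/-- The dual polygon. -/
noncomputable def dl (q : ℕ → E3) (n i : ℕ) : E3 := nrm (cr3 (q i) (q ((i + 1) % (n + 1))))

theorem Sides.tri {q : ℕ → E3} {n : ℕ} (h : Sides q n) (hn : 2 ≤ n) {i : ℕ} (hi : i ≤ n) :
    0 < d3 (q i) (q ((i + 1) % (n + 1))) (q (((i + 1) % (n + 1) + 1) % (n + 1))) := by
  have h1 := nx_cases hi
  have h2 := nx_cases (nx_le n i)
  exact h.2 i hi _ (nx_le _ _) (by omega) (by omega)

theorem Sides.dual {q : ℕ → E3} {n : ℕ} (h : Sides q n) (hn : 2 ≤ n) : Cvx (dl q n) n := by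
  refine cvx_of (fun i hi => norm_nrm (cr3_ne (h.tri hn hi))) fun i hi l hl a b => ?_
  have e : (i + 1) % (n + 1) = i + 1 := Nat.mod_eq_of_lt (by omega)
  have t := h.tri hn hi.le
  rw [e] at t
  obtain ⟨κ, k0, ek⟩ := cr3_nrm t
  have h1 := nx_cases hl
  have p := h.2 l hl (i + 1) hi (by omega) (by omega)
  have p2 := norm_pos_iff.2 (cr3_ne p)
  rw [← inner_cr3]
  simp only [dl]
  rw [e, ek, nrm, real_inner_smul_left, real_inner_smul_right, real_inner_comm, inner_cr3]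
  positivity

theorem local1 (hS : StSign) {n : ℕ} (hn : 2 ≤ n) {a a' : ℕ → E3} (h : Sides a n)
    (h' : Sides a' n)
    (hc : ∀ i ≤ n, inner ℝ (dl a n i) (dl a n ((i + 1) % (n + 1))) =
      inner ℝ (dl a' n i) (dl a' n ((i + 1) % (n + 1)))) (δ : ℕ → ℝ)
    (hδ : ∀ i ≤ n, δ i = inner ℝ (a' i) (a' ((i + 1) % (n + 1))) -
      inner ℝ (a i) (a ((i + 1) % (n + 1)))) :
    (∀ i ≤ n, δ i = 0) ∨ ∃ i₁ i₂ i₃ i₄, i₁ < i₂ ∧ i₂ < i₃ ∧ i₃ < i₄ ∧ i₄ ≤ n ∧
      δ i₁ * δ i₂ < 0 ∧ δ i₂ * δ i₃ < 0 ∧ δ i₃ * δ i₄ < 0 := by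
  set ε : ℕ → ℝ := fun i => inner ℝ (dl a' n ((i + n) % (n + 1))) (dl a' n ((i + 1) % (n + 1))) -
    inner ℝ (dl a n ((i + n) % (n + 1))) (dl a n ((i + 1) % (n + 1))) with hε
  have key : ∀ i ≤ n, ∃ κ : ℝ, 0 < κ ∧ ε i = -(κ * δ i) := by
    intro i hi
    have t1 := h.tri hn (pv_le n i)
    have t1' := h'.tri hn (pv_le n i)
    have c1 := hc _ (pv_le n i)
    have c2 := hc i hi
    rw [nx_pv hi] at t1 t1' c1
    have d1 := diag (h.1 i hi) (h.1 _ (nx_le n i)) t1 (h.tri hn hi)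
    have d2 := diag (h'.1 i hi) (h'.1 _ (nx_le n i)) t1' (h'.tri hn hi)
    have p1 := (cr3_sqrt (h.1 i hi) t1).1
    have p2 := (cr3_sqrt (h.1 _ (nx_le n i)) (h.tri hn hi)).1
    simp only [dl, nx_pv hi] at c1 c2
    refine ⟨_, mul_pos p1 p2, ?_⟩
    simp only [hε, dl, nx_pv hi]
    rw [d1, d2, hδ i hi, ← c1, ← c2]
    ring
  have sg : ∀ i ≤ n, ∀ j ≤ n, ε i * ε j < 0 → δ i * δ j < 0 := by
    intro i hi j hj hlt
    obtain ⟨κ, k0, e⟩ := key i hi
    obtain ⟨κ', k0', e'⟩ := key j hj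
    rw [e, e', show -(κ * δ i) * -(κ' * δ j) = (δ i * δ j) * (κ * κ') by ring] at hlt
    exact neg_of_mul_neg_left hlt (mul_pos k0 k0').le
  rcases hS n (dl a n) (dl a' n) ε hn (h.dual hn) (h'.dual hn) hc (fun _ _ => rfl) with
    H | ⟨i₁, i₂, i₃, i₄, l1, l2, l3, l4, s1, s2, s3⟩
  · refine Or.inl fun i hi => ?_
    obtain ⟨κ, k0, e⟩ := key i hi
    rw [H i hi] at e
    exact (mul_eq_zero.1 (neg_eq_zero.1 e.symm)).resolve_left k0.ne'
  · exact Or.inr ⟨i₁, i₂, i₃, i₄, l1, l2, l3, l4, sg _ (by omega) _ (by omega) s1,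
      sg _ (by omega) _ (by omega) s2, sg _ (by omega) _ (by omega) s3⟩

theorem short {z a b : E3} (hz : ‖z‖ = 1) (ha : ‖a‖ = 1) (hb : ‖b‖ = 1) (h : 0 < d3 z a b) :
    inner ℝ z b = inner ℝ z a * inner ℝ a b - √(1 - inner ℝ z a ^ 2) * √(1 - inner ℝ a b ^ 2) *
      inner ℝ (nrm (cr3 z a)) (nrm (cr3 a b)) := by
  have h1 := norm_pos_iff.2 (cr3_ne h)
  have h2 := norm_pos_iff.2 (cr3_ne' h)
  have n1 := norm_cr3 z a
  have n2 := norm_cr3 a b
  rw [hz, ha] at n1
  rw [ha, hb] at n2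
  have e1 : 1 - inner ℝ z a ^ 2 = ‖cr3 z a‖ ^ 2 := by linarith
  have e2 : 1 - inner ℝ a b ^ 2 = ‖cr3 a b‖ ^ 2 := by linarith
  rw [e1, e2, Real.sqrt_sq h1.le, Real.sqrt_sq h2.le, nrm, nrm, real_inner_smul_left,
    real_inner_smul_right, lagrange, real_inner_self_eq_norm_sq, ha]
  field_simp
  ring

theorem local2 (hA : StArm) {n : ℕ} (hn : 2 ≤ n) {a a' : ℕ → E3} (h : Sides a n)
    (h' : Sides a' n)
    (hc : ∀ i ≤ n, inner ℝ (dl a n i) (dl a n ((i + 1) % (n + 1))) =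
      inner ℝ (dl a' n i) (dl a' n ((i + 1) % (n + 1))))
    (hs : ∀ i ≤ n, inner ℝ (a i) (a ((i + 1) % (n + 1))) =
      inner ℝ (a' i) (a' ((i + 1) % (n + 1)))) :
    ∀ i ≤ n, ∀ j ≤ n, inner ℝ (a i) (a j) = inner ℝ (a' i) (a' j) := by
  have s1 : ∀ i < n, inner ℝ (a i) (a (i + 1)) = inner ℝ (a' i) (a' (i + 1)) := by
    intro i hi
    have := hs i hi.le
    rwa [Nat.mod_eq_of_lt (by omega : i + 1 < n + 1)] at this
  have s2 : ∀ i, i + 2 ≤ n → inner ℝ (a i) (a (i + 2)) = inner ℝ (a' i) (a' (i + 2)) := by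
    intro i hi
    have e1 : (i + 1) % (n + 1) = i + 1 := Nat.mod_eq_of_lt (by omega)
    have e2 : (i + 1 + 1) % (n + 1) = i + 2 := Nat.mod_eq_of_lt (by omega)
    have t := h.tri hn (by omega : i ≤ n)
    have t' := h'.tri hn (by omega : i ≤ n)
    have c := hc i (by omega)
    simp only [dl, e1, e2] at t t' c
    rw [short (h.1 _ (by omega)) (h.1 _ (by omega)) (h.1 _ hi) t,
      short (h'.1 _ (by omega)) (h'.1 _ (by omega)) (h'.1 _ hi) t', c, s1 i (by omega),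
      s1 (i + 1) (by omega)]
  have sub : ∀ {q : ℕ → E3}, Cvx q n → ∀ i m, i + m ≤ n → Cvx (fun k => q (i + k)) m :=
    fun hq i m him => ⟨fun k hk => hq.1 _ (by omega),
      fun x y z xy yz zm => hq.2 _ _ _ (by omega) (by omega) (by omega)⟩
  have main : ∀ i m, i + m ≤ n → inner ℝ (a i) (a (i + m)) = inner ℝ (a' i) (a' (i + m)) := by
    intro i m him
    exact le_antisymm
      (hA m _ _ (sub h'.cvx i m him) (sub h.cvx i m him)
        (fun k hk => (s1 (i + k) (by omega)).symm) (fun k hk => (s2 (i + k) (by omega)).le)).1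
      (hA m _ _ (sub h.cvx i m him) (sub h'.cvx i m him)
        (fun k hk => s1 (i + k) (by omega)) (fun k hk => (s2 (i + k) (by omega)).ge)).1
  intro i hi j hj
  rcases le_total i j with ij | ij
  · obtain ⟨m, rfl⟩ := Nat.exists_eq_add_of_le ij
    exact main i m hj
  · obtain ⟨m, rfl⟩ := Nat.exists_eq_add_of_le ij
    rw [real_inner_comm, main j m hi, real_inner_comm]

variable {ι : Type}

/-- Cyclic enumeration of the faces at a vertex. -/
structure Enum (c : ι → E3) (v : E3) (n : ℕ) (e : ℕ → ι) : Prop where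
  two : 2 ≤ n
  act : ∀ i, dist v (c i) = 1 ↔ ∃ k ≤ n, e k = i
  side : ∀ j k, ESide c v j k ↔ ∃ i ≤ n, e i = j ∧ e ((i + 1) % (n + 1)) = k
  inj : ∀ i ≤ n, ∀ j ≤ n, e i = e j → i = j

theorem enum [Fintype ι] (h1 : StE1) {c : ι → E3} (hp : Priv c) {v : E3} (hv : EV c v) :
    ∃ n e, Enum c v n e := by
  obtain ⟨n, e, hn, ha, hc, hs⟩ := h1 ι c v hp hv
  refine ⟨n, e, hn, ha, hs, ?_⟩
  have lt : ∀ i j, i < j → j ≤ n → e i ≠ e j := by
    intro i j ij jn h
    by_cases h0 : 0 < i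
    · have := hc.2 0 i j h0 ij jn
      simp only [h, d3_self23, lt_self_iff_false] at this
    by_cases h2 : j < n
    · have := hc.2 i j n ij h2 le_rfl
      simp only [h, d3_self12, lt_self_iff_false] at this
    · have := hc.2 i 1 j (by omega) (by omega) jn
      simp only [h, d3_self13, lt_self_iff_false] at this
  intro i hi j hj h
  rcases lt_trichotomy i j with l | l | l
  · exact absurd h (lt i j l hj)
  · exact l
  · exact absurd h.symm (lt j i l hi)

theorem Enum.sd {c : ι → E3} {v : E3} {n : ℕ} {e : ℕ → ι} (h : Enum c v n e) {i : ℕ}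
    (hi : i ≤ n) : ESide c v (e i) (e ((i + 1) % (n + 1))) := (h.side _ _).2 ⟨i, hi, rfl, rfl⟩

theorem Enum.sides {c : ι → E3} {v : E3} {n : ℕ} {e : ℕ → ι} (h : Enum c v n e) {c' : ι → E3}
    {v' : E3} (ha : ∀ i, dist v (c i) = 1 → dist v' (c' i) = 1)
    (hs : ∀ j k, ESide c v j k → ESide c' v' j k) : Sides (fun k => c' (e k) - v') n := by
  have act : ∀ i ≤ n, dist v' (c' (e i)) = 1 := fun i hi => ha _ ((h.act _).2 ⟨i, hi, rfl⟩)
  exact ⟨fun i hi => norm_one (act i hi), fun i hi l hl a b =>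
    (hs _ _ (h.sd hi)).2.2.2 _ (fun x => a (h.inj _ hl _ hi x))
      (fun x => b (h.inj _ hl _ (nx_le _ _) x)) (act l hl)⟩

theorem Enum.next {c : ι → E3} {v : E3} {n : ℕ} {e : ℕ → ι} (h : Enum c v n e) {j k : ι}
    (s : ESide c v j k) : ∃ l, ESide c v k l := by
  obtain ⟨i, hi, -, rfl⟩ := (h.side _ _).1 s
  exact ⟨_, h.sd (nx_le n i)⟩

theorem Enum.next_eq {c : ι → E3} {v : E3} {n : ℕ} {e : ℕ → ι} (h : Enum c v n e) {j k k' : ι}
    (s : ESide c v j k) (s' : ESide c v j k') : k = k' := by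
  obtain ⟨i, hi, rfl, rfl⟩ := (h.side _ _).1 s
  obtain ⟨i', hi', e1, rfl⟩ := (h.side _ _).1 s'
  rw [h.inj _ hi' _ hi e1]

theorem Enum.prev_eq {c : ι → E3} {v : E3} {n : ℕ} {e : ℕ → ι} (h : Enum c v n e) {j j' k : ι}
    (s : ESide c v j k) (s' : ESide c v j' k) : j = j' := by
  obtain ⟨i, hi, rfl, rfl⟩ := (h.side _ _).1 s
  obtain ⟨i', hi', rfl, e1⟩ := (h.side _ _).1 s'
  have := h.inj _ (nx_le _ _) _ (nx_le _ _) e1
  have h1 := nx_cases hi
  have h2 := nx_cases hi'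
  rw [show i = i' by omega]

theorem side_asymm {c : ι → E3} {v : E3} (hv : EV c v) {j k : ι} (s : ESide c v j k)
    (s' : ESide c v k j) : False := by
  obtain ⟨l, lj, lk, hl⟩ : ∃ l, l ≠ j ∧ l ≠ k ∧ dist v (c l) = 1 := by
    obtain ⟨-, x, y, z, xy, yz, xz, hx, hy, hz⟩ := hv
    by_contra hn
    push Not at hn
    have h1 := fun a b => hn x a b hx
    have h2 := fun a b => hn y a b hy
    have h3 := fun a b => hn z a b hz
    by_cases x = j <;> by_cases y = j <;> by_cases z = j <;> grind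
  have h1 := s.2.2.2 l lj lk hl
  have h2 := s'.2.2.2 l lk lj hl
  rw [d3_swap12] at h2
  linarith

theorem inner_dist {v x y : E3} (hx : dist v x = 1) (hy : dist v y = 1) :
    inner ℝ (x - v) (y - v) = 1 - dist x y ^ 2 / 2 := by
  have := sq_dist x v y hy
  rw [norm_one hx] at this
  linarith

/-- Darts: a vertex with one of its sides. -/
def Dart (c : ι → E3) : Type := {t : E3 × ι × ι // EV c t.1 ∧ ESide c t.1 t.2.1 t.2.2}

theorem Dart.ext' {c : ι → E3} (hc : EStd c) {d d' : Dart c} (h : d.1.2 = d'.1.2) : d = d' := by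
  obtain ⟨⟨v, j, k⟩, hv, s⟩ := d
  obtain ⟨⟨v', j', k'⟩, hv', s'⟩ := d'
  simp only [Prod.mk.injEq] at h
  obtain ⟨rfl, rfl⟩ := h
  obtain rfl := hc.suniq _ _ _ _ hv hv' s s'
  rfl

theorem exists_alpha [Fintype ι] (h2 : StE2) {c : ι → E3} (hc : EStd c) :
    ∃ α : Equiv.Perm (Dart c), (∀ d, α (α d) = d) ∧ (∀ d, (α d).1.1 ≠ d.1.1) ∧
      (∀ d, (α d).1.2.1 = d.1.2.2) ∧ ∀ d, (α d).1.2.2 = d.1.2.1 := by
  choose w hw ne sd using fun d : Dart c => h2 ι c d.1.1 d.1.2.1 d.1.2.2 hc.priv d.2.1 d.2.2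
  let a : Dart c → Dart c := fun d => ⟨(w d, d.1.2.2, d.1.2.1), hw d, sd d⟩
  have inv : Function.Involutive a := fun d => Dart.ext' hc rfl
  exact ⟨inv.toPerm a, inv, ne, fun _ => rfl, fun _ => rfl⟩

theorem exists_rho [Fintype ι] (h1 : StE1) {c : ι → E3} (hc : EStd c) :
    ∃ ρ : Equiv.Perm (Dart c), (∀ d, (ρ d).1.1 = d.1.1) ∧ ∀ d, (ρ d).1.2.1 = d.1.2.2 := by
  have : Finite (Dart c) := Finite.of_injective (fun d => d.1.2) fun _ _ => Dart.ext' hc
  have nx : ∀ d : Dart c, ∃ l, ESide c d.1.1 d.1.2.2 l := fun d => by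
    obtain ⟨n, e, h⟩ := enum h1 hc.priv d.2.1
    exact h.next d.2.2
  choose l hl using nx
  let r : Dart c → Dart c := fun d => ⟨(d.1.1, d.1.2.2, l d), d.2.1, hl d⟩
  have inj : Function.Injective r := by
    intro d d' h
    have e1 : d.1.1 = d'.1.1 := congrArg (fun x => x.1.1) h
    have e2 : d.1.2.2 = d'.1.2.2 := congrArg (fun x => x.1.2.1) h
    obtain ⟨n, e, hE⟩ := enum h1 hc.priv d.2.1
    refine Dart.ext' hc (Prod.ext (hE.prev_eq d.2.2 ?_) e2)
    rw [e1, e2]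
    exact d'.2.2
  exact ⟨Equiv.ofBijective r (Finite.injective_iff_bijective.1 inj), fun _ => rfl, fun _ => rfl⟩

theorem rho_iter {c : ι → E3} {ρ : Equiv.Perm (Dart c)} (r1 : ∀ d, (ρ d).1.1 = d.1.1)
    (r2 : ∀ d, (ρ d).1.2.1 = d.1.2.2) {v : E3} (hv : EV c v) {n : ℕ} {e : ℕ → ι}
    (h : Enum c v n e) : ∃ d₀ : Dart c, ∀ k ≤ n,
      (ρ^[k] d₀).1 = (v, e k, e ((k + 1) % (n + 1))) := by
  refine ⟨⟨(v, e 0, e ((0 + 1) % (n + 1))), hv, h.sd (Nat.zero_le n)⟩, fun k hk => ?_⟩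
  induction k with
  | zero => rfl
  | succ k ih =>
    rw [Function.iterate_succ_apply']
    generalize ρ^[k] _ = d at ih ⊢
    have e1 := r1 d
    have e2 := r2 d
    rw [ih (by omega)] at e1 e2
    simp only [Nat.mod_eq_of_lt (by omega : k + 1 < n + 1)] at e1 e2
    have s := (ρ d).2.2
    rw [e1, e2] at s
    exact Prod.ext e1 (Prod.ext e2 (h.next_eq s (h.sd hk)))

end Step0

open Step0 in
theorem stStep0 (h1 : StE1) (h2 : StE2) (hB : StBnd) (hA : StArm) (hS : StSign) (hC : StComb) :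
    StStep0 := by
  classical
  intro ι _ c c' ψ hc hc' hm ho
  have : Finite (Dart c) := Finite.of_injective (fun d => d.1.2) fun _ _ => Dart.ext' hc
  let _ := Fintype.ofFinite (Dart c)
  obtain ⟨α, a0, a1, a2, a3⟩ := exists_alpha h2 hc
  obtain ⟨ρ, r1, r2⟩ := exists_rho h1 hc
  let δ0 : ι → ι → ℝ := fun j k => dist (c j) (c k) ^ 2 / 2 - dist (c' j) (c' k) ^ 2 / 2
  have loc : ∀ v n e, EV c v → Enum c v n e → Sides (fun k => c (e k) - v) n ∧
      Sides (fun k => c' (e k) - ψ v) n ∧ (∀ i ≤ n,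
        inner ℝ (dl (fun k => c (e k) - v) n i) (dl (fun k => c (e k) - v) n ((i + 1) % (n + 1))) =
          inner ℝ (dl (fun k => c' (e k) - ψ v) n i)
            (dl (fun k => c' (e k) - ψ v) n ((i + 1) % (n + 1)))) ∧
      ∀ i ≤ n, δ0 (e i) (e ((i + 1) % (n + 1))) =
        inner ℝ (c' (e i) - ψ v) (c' (e ((i + 1) % (n + 1))) - ψ v) -
          inner ℝ (c (e i) - v) (c (e ((i + 1) % (n + 1))) - v) := by
    intro v n e hv h
    have s := h.sides (fun _ x => x) (fun _ _ x => x)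
    have s' := h.sides (fun i => (hm.act v hv i).1) (fun j k => ho v j k hv)
    refine ⟨s, s', fun i hi => ?_, fun i hi => ?_⟩
    · obtain ⟨θ, k1, k2⟩ := hm.ang v _ _ _ hv (h.sd hi) (h.sd (nx_le n i))
      exact (corner_cos (s.tri h.two hi) k1).trans (corner_cos (s'.tri h.two hi) k2).symm
    · have x := h.sd hi
      have y := ho v _ _ hv x
      rw [inner_dist x.2.1 x.2.2.1, inner_dist y.2.1 y.2.2.1]
      ring
  have zero : ∀ d : Dart c, δ0 d.1.2.1 d.1.2.2 = 0 := by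
    refine hC (Dart c) E3 ι (fun d => d.1.1) (fun d => d.1.2.1) α ρ _ a0 r1 ?_
      (fun d => (r2 d).trans (a2 d).symm) a1 ?_ ?_ ?_ ?_
    · intro d d' hd
      obtain ⟨n, e, h⟩ := enum h1 hc.priv d.2.1
      obtain ⟨d₀, it⟩ := rho_iter r1 r2 d.2.1 h
      have : ∀ x : Dart c, d.1.1 = x.1.1 → ρ.SameCycle d₀ x := by
        intro x hx
        obtain ⟨i, hi, e1, e2⟩ := (h.side _ _).1 (hx ▸ x.2.2)
        refine ⟨(i : ℤ), Dart.ext' hc ?_⟩
        rw [zpow_natCast, Equiv.Perm.coe_pow, it i hi]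
        exact Prod.ext e1 e2
      exact (this d rfl).symm.trans (this d' hd)
    · intro d d' e1 e2
      have sv := d.2.2
      have sv' := d'.2.2
      have sw := (α d).2.2
      have sw' := (α d').2.2
      rw [a2, a3] at sw sw'
      rw [← e1] at sv'
      rw [← e2] at sw'
      have U := fun i j k => hc.uniq3 _ _ i j k (α d).2.1.1 d.2.1.1
      have jk := sv.1
      have jk' := sv'.1
      have m1 : d'.1.2.1 = d.1.2.1 ∨ d'.1.2.1 = d.1.2.2 := by
        by_contra hn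
        push Not at hn
        exact a1 d (U _ _ _ jk hn.2.symm hn.1.symm sw.2.2.1 sw.2.1 sw'.2.2.1 sv.2.1 sv.2.2.1
          sv'.2.1)
      have m2 : d'.1.2.2 = d.1.2.1 ∨ d'.1.2.2 = d.1.2.2 := by
        by_contra hn
        push Not at hn
        exact a1 d (U _ _ _ jk hn.2.symm hn.1.symm sw.2.2.1 sw.2.1 sw'.2.1 sv.2.1 sv.2.2.1
          sv'.2.2.1)
      rcases m1 with m1 | m1 <;> rcases m2 with m2 | m2
      · exact absurd (m1.trans m2.symm) jk'
      · exact Dart.ext' hc (Prod.ext m1.symm m2.symm)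
      · rw [m1, m2] at sv'
        exact (side_asymm d.2.1 sv sv').elim
      · exact absurd (m1.trans m2.symm) jk'
    · intro z z1 z2
      let y : ι → ι → ZMod 2 := fun j k => ∑ d : Dart c, if d.1.2 = (j, k) then z d else 0
      have yd : ∀ d : Dart c, y d.1.2.1 d.1.2.2 = z d := by
        intro d
        refine (Finset.sum_eq_single d (fun b _ hb => if_neg fun x => hb (Dart.ext' hc x))
          (fun x => absurd (Finset.mem_univ d) x)).trans (if_pos rfl)
      obtain ⟨χ, hχ⟩ := hB ι c y hc (fun j k => by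
        refine (Equiv.sum_comp α _).symm.trans (Finset.sum_congr rfl fun d _ => ?_)
        rw [z1]
        refine if_congr ?_ rfl rfl
        simp only [Prod.ext_iff, a2, a3, and_comm]) (fun v hv => by
        refine Eq.trans ?_ (z2 v)
        have : ∀ j k, (if ESide c v j k then y j k else 0) =
            ∑ d : Dart c, if d.1.2 = (j, k) then (if d.1.1 = v then z d else 0) else 0 := by
          intro j k
          split_ifs with hs
          · refine Finset.sum_congr rfl fun d _ => ?_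
            split_ifs with x1 x2
            · rfl
            · refine absurd (hc.suniq _ _ j k d.2.1 hv ?_ hs) x2
              have := d.2.2
              rwa [x1] at this
            · rfl
          · refine (Finset.sum_eq_zero fun d _ => ?_).symm
            split_ifs with x1 x2
            · have := d.2.2
              rw [x1, x2] at this
              exact absurd this hs
            · rfl
            · rfl
        simp only [this]
        rw [← Finset.sum_product', Finset.sum_comm]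
        refine Finset.sum_congr rfl fun d _ => ?_
        simp)
      refine ⟨χ, fun d => ?_⟩
      rw [← yd, hχ _ _ _ d.2.1 d.2.2]
      simp only [a2]
    · intro d
      simp only [δ0, a2, a3, dist_comm]
    · intro d hd
      obtain ⟨n, e, h⟩ := enum h1 hc.priv d.2.1
      obtain ⟨d₀, it⟩ := rho_iter r1 r2 d.2.1 h
      obtain ⟨s, s', k1, k2⟩ := loc _ n e d.2.1 h
      rcases local1 hS h.two s s' k1 (fun i => δ0 (e i) (e ((i + 1) % (n + 1)))) k2 with
        H | ⟨i₁, i₂, i₃, i₄, l1, l2, l3, l4, s1, s2, s3⟩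
      · obtain ⟨i, hi, e1, e2⟩ := (h.side _ _).1 d.2.2
        have := H i hi
        rw [e1, e2] at this
        exact absurd this hd
      · refine ⟨d₀, i₁, i₂, i₃, i₄, (congrArg Prod.fst (it 0 (Nat.zero_le _)) :), l1, l2, l3, ?_, ?_⟩
        · by_contra hn
          have p := Function.minimalPeriod_pos_of_mem_periodicPts (ρ.injective.mem_periodicPts d₀)
          have q := Function.iterate_minimalPeriod (f := ρ) (x := d₀)
          have q1 := it (Function.minimalPeriod ρ d₀) (by omega)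
          have q0 := it 0 (Nat.zero_le _)
          rw [q] at q1
          rw [Function.iterate_zero_apply, q1] at q0
          have := h.inj _ (by omega) _ (Nat.zero_le _) (congrArg (fun x => x.2.1) q0)
          omega
        · simp only [it i₁ (by omega), it i₂ (by omega), it i₃ (by omega), it i₄ l4]
          exact ⟨s1, s2, s3⟩
  intro v i j hv hi hj
  obtain ⟨n, e, h⟩ := enum h1 hc.priv hv
  obtain ⟨s, s', k1, k2⟩ := loc _ n e hv h
  obtain ⟨x, hx, rfl⟩ := (h.act _).1 hi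
  obtain ⟨y, hy, rfl⟩ := (h.act _).1 hj
  refine local2 hA h.two s s' k1 (fun l hl => ?_) x hx y hy
  have := zero ⟨(v, e l, e ((l + 1) % (n + 1))), hv, h.sd hl⟩
  rw [k2 l hl] at this
  exact (sub_eq_zero.1 this).symm

end Pool.Agent.Lib.MP_34b931_co.G
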