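import Pool.Agent.Lib.MP_34b931_co.H22Basic

/-! Oriented triangulations and flips. -/

namespace Pool.Agent.Lib.MP_34b931_co.G

variable {ι : Type}

namespace Tri

variable {T : Tri ι} {a b c d : ι}

theorem ext' {T T' : Tri ι} (h : ∀ a b c, T.F a b c ↔ T'.F a b c) : T = T' := by
  cases T; cases T'
  congr
  funext a b c
  exact propext (h a b c)

instance [Finite ι] : Finite (Tri ι) :=
  Finite.of_injective (fun T : Tri ι => T.F) fun _ _ h => ext' fun a b c =>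
    iff_of_eq (congrFun (congrFun (congrFun h a) b) c)

theorem cyc2 (h : T.F a b c) : T.F c a b := T.cyc (T.cyc h)

theorem ne23 (h : T.F a b c) : b ≠ c := T.ne (T.cyc h)

theorem ne13 (h : T.F a b c) : a ≠ c := (T.ne (cyc2 h)).symm

theorem adj.symm (h : T.adj a b) : T.adj b a := let ⟨_, h⟩ := h; T.twin h

theorem adj.ne (h : T.adj a b) : a ≠ b := let ⟨_, h⟩ := h; T.ne h

theorem adj12 (h : T.F a b c) : T.adj a b := ⟨_, h⟩
theorem adj23 (h : T.F a b c) : T.adj b c := ⟨_, T.cyc h⟩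
theorem adj31 (h : T.F a b c) : T.adj c a := ⟨_, cyc2 h⟩
theorem adj21 (h : T.F a b c) : T.adj b a := (adj12 h).symm
theorem adj32 (h : T.F a b c) : T.adj c b := (adj23 h).symm
theorem adj13 (h : T.F a b c) : T.adj a c := (adj31 h).symm

theorem adj_comm : T.adj a b ↔ T.adj b a := ⟨adj.symm, adj.symm⟩

/-- The twin triangle has a fourth vertex. -/
theorem twin_ne (h : T.F a b c) (h' : T.F b a d) : d ≠ c := by
  rintro rfl
  exact T.nrev h (T.cyc h')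

theorem nonempty (T : Tri ι) : Nonempty ι := by
  by_contra h
  have : IsEmpty ι := not_nonempty_iff.1 h
  have := T.count
  simp at this

theorem exists_face (T : Tri ι) : ∃ a b c, T.F a b c :=
  let ⟨a⟩ := T.nonempty; ⟨a, T.cover a⟩

theorem four_le_card [Finite ι] (T : Tri ι) : 4 ≤ Nat.card ι := by
  classical
  obtain ⟨a, b, c, h⟩ := T.exists_face
  obtain ⟨d, h'⟩ := T.twin h
  have := Fintype.ofFinite ι
  have h4 : ({a, b, c, d} : Finset ι).card = 4 := by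
    rw [Finset.card_eq_four]
    exact ⟨a, b, c, d, T.ne h, ne13 h, ne23 h', ne23 h, ne13 h', (twin_ne h h').symm, rfl⟩
  rw [Nat.card_eq_fintype_card, ← h4]
  exact Finset.card_le_univ _

/-- Directed edges correspond to rotated triangles. -/
theorem card_adj (T : Tri ι) : Nat.card {t : ι × ι // T.adj t.1 t.2} =
    Nat.card {t : ι × ι × ι // T.F t.1 t.2.1 t.2.2} := by
  symm
  refine Nat.card_eq_of_bijective (fun t => ⟨(t.1.1, t.1.2.1), _, t.2⟩) ⟨?_, ?_⟩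
  · rintro ⟨⟨a, b, c⟩, h⟩ ⟨⟨a', b', c'⟩, h'⟩ e
    simp only [Subtype.mk.injEq, Prod.mk.injEq] at e ⊢
    obtain ⟨rfl, rfl⟩ := e
    exact ⟨rfl, rfl, T.uniq h h'⟩
  · rintro ⟨⟨a, b⟩, c, h⟩
    exact ⟨⟨(a, b, c), h⟩, rfl⟩

/-- The opposite orientation. -/
def rev (T : Tri ι) : Tri ι where
  F a b c := T.F a c b
  cyc h := cyc2 h
  ne h := ne13 h
  uniq h h' := T.uniq (cyc2 h) (cyc2 h')
  twin h := by
    obtain ⟨d, h'⟩ := T.twin (cyc2 h)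
    exact ⟨d, T.cyc h'⟩
  nrev h h' := T.nrev h h'
  cover a := let ⟨b, c, h⟩ := T.cover a; ⟨c, b, h⟩
  conn S h1 h2 a b c a' b' c' k k' s := by
    refine T.conn (fun x y z => S x z y) (fun x y z k s => ?_) (fun x y z w k k' s => ?_)
      a c b a' c' b' k k' s
    · exact h1 _ _ _ (cyc2 k) (h1 _ _ _ k s)
    · have s1 := h1 _ _ _ (cyc2 k) (h1 _ _ _ k s)
      have s2 := h2 y x z w (T.cyc k) (T.cyc k') s1
      exact h1 _ _ _ (T.cyc k') s2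
  count := by
    have := T.count
    rwa [Nat.card_congr (β := {t : ι × ι × ι // T.F t.1 t.2.2 t.2.1})
      ⟨fun t => ⟨(t.1.1, t.1.2.2, t.1.2.1), t.2⟩, fun t => ⟨(t.1.1, t.1.2.2, t.1.2.1), t.2⟩,
        fun _ => rfl, fun _ => rfl⟩] at this

theorem rev_adj : T.rev.adj a b ↔ T.adj a b :=
  ⟨fun ⟨_, h⟩ => adj13 h, fun h => let ⟨c, h⟩ := h.symm; ⟨c, T.cyc h⟩⟩

end Tri

theorem Rot.face {T : Tri ι} {a b c x y z : ι} (r : Rot a b c x y z) (h : T.F a b c) :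
    T.F x y z := by
  rcases r with ⟨rfl, rfl, rfl⟩ | ⟨rfl, rfl, rfl⟩ | ⟨rfl, rfl, rfl⟩
  exacts [h, T.cyc h, Tri.cyc2 h]

theorem Rot.cyc {a b c x y z : ι} (r : Rot a b c x y z) : Rot a b c y z x := by
  unfold Rot at *; grind

theorem rot_cyc {a b c x y z : ι} : Rot b c a x y z ↔ Rot a b c x y z := by
  unfold Rot; grind

/-- Adjacency after replacing two triangles. -/
theorem flip_adj {T : Tri ι} {F : ι → ι → ι → Prop} {a b c d : ι} (h1 : T.F a b c)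
    (h2 : T.F a c d) (hF : ∀ x y z, F x y z ↔
      (T.F x y z ∧ ¬ Rot a b c x y z ∧ ¬ Rot a c d x y z) ∨ Rot a b d x y z ∨ Rot b c d x y z)
    (x y : ι) : (∃ z, F x y z) ↔ (T.adj x y ∧ ¬ (x = a ∧ y = c) ∧ ¬ (x = c ∧ y = a)) ∨
      (x = b ∧ y = d) ∨ (x = d ∧ y = b) := by
  have ab := T.ne h1
  have bc := Tri.ne23 h1
  have ac := Tri.ne13 h1
  have cd := Tri.ne23 h2
  have ad := Tri.ne13 h2
  have bd : b ≠ d := (Tri.twin_ne h2 (Tri.cyc2 h1))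
  constructor
  · rintro ⟨z, hz⟩
    rcases (hF _ _ _).1 hz with ⟨k, n1, n2⟩ | r | r
    · refine Or.inl ⟨⟨z, k⟩, ?_, ?_⟩
      · rintro ⟨rfl, rfl⟩
        exact n2 (Or.inl ⟨rfl, rfl, T.uniq k h2⟩)
      · rintro ⟨rfl, rfl⟩
        exact n1 (Or.inr (Or.inr ⟨rfl, rfl, T.uniq k (Tri.cyc2 h1)⟩))
    · rcases r with ⟨rfl, rfl, rfl⟩ | ⟨rfl, rfl, rfl⟩ | ⟨rfl, rfl, rfl⟩
      · exact Or.inl ⟨Tri.adj12 h1, by grind, by grind⟩
      · grind
      · exact Or.inl ⟨Tri.adj31 h2, by grind, by grind⟩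
    · rcases r with ⟨rfl, rfl, rfl⟩ | ⟨rfl, rfl, rfl⟩ | ⟨rfl, rfl, rfl⟩
      · exact Or.inl ⟨Tri.adj23 h1, by grind, by grind⟩
      · exact Or.inl ⟨Tri.adj23 h2, by grind, by grind⟩
      · grind
  · rintro (⟨⟨z, k⟩, n1, n2⟩ | ⟨rfl, rfl⟩ | ⟨rfl, rfl⟩)
    · by_cases r1 : Rot a b c x y z
      · rcases r1 with ⟨rfl, rfl, rfl⟩ | ⟨rfl, rfl, rfl⟩ | ⟨rfl, rfl, rfl⟩
        · exact ⟨d, (hF _ _ _).2 (Or.inr (Or.inl (Or.inl ⟨rfl, rfl, rfl⟩)))⟩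
        · exact ⟨d, (hF _ _ _).2 (Or.inr (Or.inr (Or.inl ⟨rfl, rfl, rfl⟩)))⟩
        · grind
      by_cases r2 : Rot a c d x y z
      · rcases r2 with ⟨rfl, rfl, rfl⟩ | ⟨rfl, rfl, rfl⟩ | ⟨rfl, rfl, rfl⟩
        · grind
        · exact ⟨b, (hF _ _ _).2 (Or.inr (Or.inr (Or.inr (Or.inl ⟨rfl, rfl, rfl⟩))))⟩
        · exact ⟨b, (hF _ _ _).2 (Or.inr (Or.inl (Or.inr (Or.inr ⟨rfl, rfl, rfl⟩))))⟩
      exact ⟨z, (hF _ _ _).2 (Or.inl ⟨k, r1, r2⟩)⟩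
    · exact ⟨a, (hF _ _ _).2 (Or.inr (Or.inl (Or.inr (Or.inl ⟨rfl, rfl, rfl⟩))))⟩
    · exact ⟨c, (hF _ _ _).2 (Or.inr (Or.inr (Or.inr (Or.inr ⟨rfl, rfl, rfl⟩))))⟩

theorem card_flip {T : Tri ι} {A : ι → ι → Prop} {a b c d : ι} (h1 : T.adj a c)
    (h3 : ¬ T.adj b d) (bd : b ≠ d) (hA : ∀ x y, A x y ↔ (T.adj x y ∧ ¬ (x = a ∧ y = c) ∧
      ¬ (x = c ∧ y = a)) ∨ (x = b ∧ y = d) ∨ (x = d ∧ y = b)) :
    Nat.card {t : ι × ι // A t.1 t.2} = Nat.card {t : ι × ι // T.adj t.1 t.2} := by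
  classical
  have ac := h1.ne
  have h4 : ¬ T.adj d b := fun h => h3 h.symm
  have n1 : ((a, c) : ι × ι) ≠ (b, d) := fun e => h3 (by
    rw [Prod.mk.injEq] at e; rwa [← e.1, ← e.2])
  have n2 : ((a, c) : ι × ι) ≠ (d, b) := fun e => h4 (by
    rw [Prod.mk.injEq] at e; rwa [← e.1, ← e.2])
  have n3 : ((c, a) : ι × ι) ≠ (b, d) := fun e => h3 (by
    rw [Prod.mk.injEq] at e; rw [← e.1, ← e.2]; exact h1.symm)
  have n4 : ((c, a) : ι × ι) ≠ (d, b) := fun e => h4 (by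
    rw [Prod.mk.injEq] at e; rw [← e.1, ← e.2]; exact h1.symm)
  have n5 : ((a, c) : ι × ι) ≠ (c, a) := fun e => ac (congrArg Prod.fst e)
  have n6 : ((b, d) : ι × ι) ≠ (d, b) := fun e => bd (congrArg Prod.fst e)
  let e : Equiv.Perm (ι × ι) := (Equiv.swap (a, c) (b, d)).trans (Equiv.swap (c, a) (d, b))
  refine Nat.card_congr (e.subtypeEquiv fun t => ?_)
  obtain ⟨x, y⟩ := t
  rw [hA]
  by_cases e1 : (x, y) = (a, c)
  · have : e (x, y) = (b, d) := by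
      simp [e, e1, Equiv.swap_apply_of_ne_of_ne n3.symm n6]
    rw [this]
    simp only [Prod.mk.injEq, ne_eq] at e1 n1 n2
    obtain ⟨rfl, rfl⟩ := e1
    grind
  by_cases e2 : (x, y) = (b, d)
  · have : e (x, y) = (a, c) := by
      simp [e, e2, Equiv.swap_apply_of_ne_of_ne n5 n2]
    rw [this]
    simp only [Prod.mk.injEq] at e2
    grind
  by_cases e3 : (x, y) = (c, a)
  · have : e (x, y) = (d, b) := by
      simp [e, e3, Equiv.swap_apply_of_ne_of_ne n5.symm n3]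
    rw [this]
    simp only [Prod.mk.injEq, ne_eq] at e3 n3 n4
    obtain ⟨rfl, rfl⟩ := e3
    grind
  by_cases e4 : (x, y) = (d, b)
  · have : e (x, y) = (c, a) := by
      simp [e, e4, Equiv.swap_apply_of_ne_of_ne n2.symm n6.symm]
    rw [this]
    simp only [Prod.mk.injEq] at e4
    have := h1.symm
    grind
  have : e (x, y) = (x, y) := by
    simp [e, Equiv.swap_apply_of_ne_of_ne e1 e2, Equiv.swap_apply_of_ne_of_ne e3 e4]
  rw [this]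
  simp only [Prod.mk.injEq] at e1 e2 e3 e4
  grind

theorem exists_flip {T : Tri ι} {a b c d : ι} (h1 : T.F a b c) (h2 : T.F a c d)
    (h3 : ¬ T.adj b d) : ∃ T', IsFlip T T' a b c d := by
  have ab := T.ne h1
  have bc := Tri.ne23 h1
  have ac := Tri.ne13 h1
  have cd := Tri.ne23 h2
  have ad := Tri.ne13 h2
  have bd : b ≠ d := (Tri.twin_ne h2 (Tri.cyc2 h1))
  have h4 : ¬ T.adj d b := fun h => h3 h.symm
  let F : ι → ι → ι → Prop := fun x y z =>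
    (T.F x y z ∧ ¬ Rot a b c x y z ∧ ¬ Rot a c d x y z) ∨ Rot a b d x y z ∨ Rot b c d x y z
  have hadj := flip_adj (F := F) h1 h2 fun _ _ _ => Iff.rfl
  have hcyc : ∀ {x y z}, F x y z → F y z x := by
    rintro x y z (⟨k, n1, n2⟩ | r | r)
    · exact Or.inl ⟨T.cyc k, fun r => n1 r.cyc.cyc, fun r => n2 r.cyc.cyc⟩
    · exact Or.inr (Or.inl r.cyc)
    · exact Or.inr (Or.inr r.cyc)
  have old : ∀ {x y z w}, T.F x y z → ¬ Rot a b c x y z → ¬ Rot a c d x y z →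
      ¬ (Rot a b d x y w ∨ Rot b c d x y w) := by
    rintro x y z w k n1 n2 ((⟨rfl, rfl, rfl⟩ | ⟨rfl, rfl, rfl⟩ | ⟨rfl, rfl, rfl⟩) |
      (⟨rfl, rfl, rfl⟩ | ⟨rfl, rfl, rfl⟩ | ⟨rfl, rfl, rfl⟩))
    · exact n1 (Or.inl ⟨rfl, rfl, T.uniq k h1⟩)
    · exact h3 ⟨_, k⟩
    · exact n2 (Or.inr (Or.inr ⟨rfl, rfl, T.uniq k (Tri.cyc2 h2)⟩))
    · exact n1 (Or.inr (Or.inl ⟨rfl, rfl, T.uniq k (T.cyc h1)⟩))
    · exact n2 (Or.inr (Or.inl ⟨rfl, rfl, T.uniq k (T.cyc h2)⟩))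
    · exact h4 ⟨_, k⟩
  have huniq : ∀ {x y z w}, F x y z → F x y w → z = w := by
    rintro x y z w (⟨k, n1, n2⟩ | r) (⟨k', n1', n2'⟩ | r')
    · exact T.uniq k k'
    · exact absurd r' (old k n1 n2)
    · exact absurd r (old k' n1' n2')
    · unfold Rot at r r'
      grind
  have fabd : F a b d := Or.inr (Or.inl (Or.inl ⟨rfl, rfl, rfl⟩))
  have fbcd : F b c d := Or.inr (Or.inr (Or.inl ⟨rfl, rfl, rfl⟩))
  refine ⟨⟨F, hcyc, ?_, huniq, ?_, ?_, ?_, ?_, ?_⟩, h1, h2, h3, fun _ _ _ => Iff.rfl⟩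
  · rintro x y z (⟨k, -⟩ | r)
    · exact T.ne k
    · unfold Rot at r
      grind
  · intro x y z k
    rw [hadj]
    have := (hadj x y).1 ⟨z, k⟩
    rcases this with ⟨k1, k2, k3⟩ | k1 | k1
    · exact Or.inl ⟨k1.symm, fun h => k3 h.symm, fun h => k2 h.symm⟩
    · exact Or.inr (Or.inr k1.symm)
    · exact Or.inr (Or.inl k1.symm)
  · rintro x y z (⟨k, n1, n2⟩ | r) (⟨k', n1', n2'⟩ | r')
    · exact T.nrev k k'
    · rcases r' with (⟨rfl, rfl, rfl⟩ | ⟨rfl, rfl, rfl⟩ | ⟨rfl, rfl, rfl⟩) |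
        (⟨rfl, rfl, rfl⟩ | ⟨rfl, rfl, rfl⟩ | ⟨rfl, rfl, rfl⟩)
      exacts [h4 (Tri.adj23 k), h3 (Tri.adj13 k), h4 (Tri.adj12 k), h3 (Tri.adj12 k),
        h3 (Tri.adj23 k), h4 (Tri.adj13 k)]
    · rcases r with (⟨rfl, rfl, rfl⟩ | ⟨rfl, rfl, rfl⟩ | ⟨rfl, rfl, rfl⟩) |
        (⟨rfl, rfl, rfl⟩ | ⟨rfl, rfl, rfl⟩ | ⟨rfl, rfl, rfl⟩)
      exacts [h4 (Tri.adj23 k'), h3 (Tri.adj13 k'), h4 (Tri.adj12 k'), h3 (Tri.adj12 k'),
        h3 (Tri.adj23 k'), h4 (Tri.adj13 k')]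
    · unfold Rot at r r'
      grind
  · intro x
    obtain ⟨y, z, k⟩ := T.cover x
    by_cases e1 : x = a
    · exact ⟨b, d, e1 ▸ fabd⟩
    by_cases e2 : x = c
    · exact ⟨d, b, e2 ▸ hcyc fbcd⟩
    obtain ⟨w, hw⟩ := (hadj x y).2 (Or.inl ⟨⟨z, k⟩, fun h => e1 h.1, fun h => e2 h.1⟩)
    exact ⟨y, w, hw⟩
  · intro S s1 s2
    have sy : ∀ x y z, F x y z → (S x y z ↔ S y z x) := fun x y z k =>
      ⟨s1 _ _ _ k, fun s => s1 _ _ _ (hcyc (hcyc k)) (s1 _ _ _ (hcyc k) s)⟩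
    have st : ∀ x y z w, F x y z → F y x w → (S x y z ↔ S y x w) := fun x y z w k k' =>
      ⟨s2 _ _ _ _ k k', s2 _ _ _ _ k' k⟩
    have q1 : S b d a ↔ S a b d := (sy _ _ _ fabd).symm
    have q2 : S d a b ↔ S a b d := (sy _ _ _ (hcyc fabd)).symm.trans q1
    have q3 : S d b c ↔ S a b d := (st _ _ _ _ (hcyc fabd) (hcyc (hcyc fbcd))).symm.trans q1
    have q4 : S b c d ↔ S a b d := (sy _ _ _ (hcyc (hcyc fbcd))).symm.trans q3
    have q5 : S c d b ↔ S a b d := (sy _ _ _ fbcd).symm.trans q4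
    let N : ι → ι → ι → Prop := fun x y z => Rot a b c x y z ∨ Rot a c d x y z
    have key : ∀ x y z w, T.F x y z → F x y w → ((N x y z → S a b d) ∧ (¬ N x y z → S x y z) ↔
        S x y w) := by
      intro x y z w k k'
      by_cases hN : N x y z
      · have : S x y w ↔ S a b d := by
          rcases k' with ⟨k', n1, n2⟩ | r
          · rw [T.uniq k k'] at hN
            exact absurd hN (not_or.2 ⟨n1, n2⟩)
          · rcases r with (⟨rfl, rfl, rfl⟩ | ⟨rfl, rfl, rfl⟩ | ⟨rfl, rfl, rfl⟩) |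
              (⟨rfl, rfl, rfl⟩ | ⟨rfl, rfl, rfl⟩ | ⟨rfl, rfl, rfl⟩)
            exacts [Iff.rfl, q1, q2, q4, q5, q3]
        exact ⟨fun h => this.2 (h.1 hN), fun h => ⟨fun _ => this.1 h, fun n => absurd hN n⟩⟩
      · have : F x y z := Or.inl ⟨k, not_or.1 hN⟩
        rw [huniq k' this]
        exact ⟨fun h => h.2 hN, fun h => ⟨fun n => absurd n hN, fun _ => h⟩⟩
    have hc := T.conn (fun x y z => (N x y z → S a b d) ∧ (¬ N x y z → S x y z))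
      (fun x y z k s => by
        have : N y z x ↔ N x y z :=
          ⟨fun h => h.imp (·.cyc.cyc) (·.cyc.cyc), fun h => h.imp (·.cyc) (·.cyc)⟩
        exact ⟨fun h => s.1 (this.1 h), fun h => s1 _ _ _
          (Or.inl ⟨k, not_or.1 (mt this.2 h)⟩) (s.2 (mt this.2 h))⟩)
      (fun x y z w k k' s => by
        by_cases e : (x = a ∧ y = c) ∨ (x = c ∧ y = a)
        · have n1 : N x y z ∧ N y x w := by
            rcases e with ⟨rfl, rfl⟩ | ⟨rfl, rfl⟩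
            · exact ⟨Or.inr (Or.inl ⟨rfl, rfl, T.uniq k h2⟩),
                Or.inl (Or.inr (Or.inr ⟨rfl, rfl, T.uniq k' (Tri.cyc2 h1)⟩))⟩
            · exact ⟨Or.inl (Or.inr (Or.inr ⟨rfl, rfl, T.uniq k (Tri.cyc2 h1)⟩)),
                Or.inr (Or.inl ⟨rfl, rfl, T.uniq k' h2⟩)⟩
          exact ⟨fun _ => s.1 n1.1, fun h => absurd n1.2 h⟩
        · obtain ⟨z', hz⟩ := (hadj x y).2
            (Or.inl ⟨⟨z, k⟩, fun h => e (Or.inl h), fun h => e (Or.inr h)⟩)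
          obtain ⟨w', hw⟩ := (hadj y x).2
            (Or.inl ⟨⟨w, k'⟩, fun h => e (Or.inr h.symm), fun h => e (Or.inl h.symm)⟩)
          exact (key _ _ _ _ k' hw).2 (s2 _ _ _ _ hz hw ((key _ _ _ _ k hz).1 s)))
    have base : ∀ x y z, F x y z → (S x y z ↔ S a b d) := by
      intro x y z k
      rcases k with ⟨k, n⟩ | r
      · have e1 := key _ _ _ _ k (Or.inl ⟨k, n⟩)
        have e2 := key _ _ _ _ h1 fabd
        exact ⟨fun s => e2.1 (hc _ _ _ _ _ _ k h1 (e1.2 s)),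
          fun s => e1.1 (hc _ _ _ _ _ _ h1 k (e2.2 s))⟩
      · rcases r with (⟨rfl, rfl, rfl⟩ | ⟨rfl, rfl, rfl⟩ | ⟨rfl, rfl, rfl⟩) |
          (⟨rfl, rfl, rfl⟩ | ⟨rfl, rfl, rfl⟩ | ⟨rfl, rfl, rfl⟩)
        exacts [Iff.rfl, q1, q2, q4, q5, q3]
    intro x y z x' y' z' k k' s
    exact (base _ _ _ k').2 ((base _ _ _ k).1 s)
  · have e1 : Nat.card {t : ι × ι × ι // F t.1 t.2.1 t.2.2} =
        Nat.card {t : ι × ι // ∃ z, F t.1 t.2 z} := by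
      refine Nat.card_eq_of_bijective (fun t => ⟨(t.1.1, t.1.2.1), _, t.2⟩) ⟨?_, ?_⟩
      · rintro ⟨⟨x, y, z⟩, h⟩ ⟨⟨x', y', z'⟩, h'⟩ e
        simp only [Subtype.mk.injEq, Prod.mk.injEq] at e ⊢
        obtain ⟨rfl, rfl⟩ := e
        exact ⟨rfl, rfl, huniq h h'⟩
      · rintro ⟨⟨x, y⟩, z, h⟩
        exact ⟨⟨(x, y, z), h⟩, rfl⟩
    rw [e1, card_flip (A := fun x y => ∃ z, F x y z) (Tri.adj12 h2) h3 bd hadj, T.card_adj]
    exact T.count

namespace IsFlip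

variable {T T' : Tri ι} {a b c d : ι}

theorem bd (h : IsFlip T T' a b c d) : b ≠ d := Tri.twin_ne h.2.1 (Tri.cyc2 h.1)

theorem abd (h : IsFlip T T' a b c d) : T'.F a b d :=
  (h.2.2.2 _ _ _).2 (Or.inr (Or.inl (Or.inl ⟨rfl, rfl, rfl⟩)))

theorem bcd (h : IsFlip T T' a b c d) : T'.F b c d :=
  (h.2.2.2 _ _ _).2 (Or.inr (Or.inr (Or.inl ⟨rfl, rfl, rfl⟩)))

theorem adj_iff (h : IsFlip T T' a b c d) (x y : ι) : T'.adj x y ↔
    (T.adj x y ∧ ¬ (x = a ∧ y = c) ∧ ¬ (x = c ∧ y = a)) ∨ (x = b ∧ y = d) ∨ (x = d ∧ y = b) :=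
  flip_adj h.1 h.2.1 h.2.2.2 x y

theorem full (h : IsFlip T T' a b c d) : T'.Full ↔ T.Full := by
  unfold Tri.Full
  rw [← T.card_adj, ← T'.card_adj, card_flip (Tri.adj12 h.2.1) h.2.2.1 h.bd h.adj_iff]

theorem symm (h : IsFlip T T' a b c d) : IsFlip T' T b c d a := by
  have ab := T.ne h.1
  have bc := Tri.ne23 h.1
  have ac := Tri.ne13 h.1
  have cd := Tri.ne23 h.2.1
  have ad := Tri.ne13 h.2.1
  have bd := h.bd
  refine ⟨h.bcd, T'.cyc h.abd, ?_, fun x y z => ?_⟩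
  · rw [h.adj_iff]
    grind
  · have r1 : Rot b c a x y z ↔ Rot a b c x y z := rot_cyc
    have r2 : Rot c d a x y z ↔ Rot a c d x y z := rot_cyc
    have r3 : Rot b d a x y z ↔ Rot a b d x y z := rot_cyc
    have f1 : Rot a b c x y z → T.F x y z := fun r => r.face h.1
    have f2 : Rot a c d x y z → T.F x y z := fun r => r.face h.2.1
    have n1 : Rot a b d x y z → ¬ T.F x y z := by
      rintro (⟨rfl, rfl, rfl⟩ | ⟨rfl, rfl, rfl⟩ | ⟨rfl, rfl, rfl⟩) k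
      exacts [h.2.2.1 (Tri.adj23 k), h.2.2.1 (Tri.adj12 k), h.2.2.1 (Tri.adj31 k)]
    have n2 : Rot b c d x y z → ¬ T.F x y z := by
      rintro (⟨rfl, rfl, rfl⟩ | ⟨rfl, rfl, rfl⟩ | ⟨rfl, rfl, rfl⟩) k
      exacts [h.2.2.1 (Tri.adj13 k), h.2.2.1 (Tri.adj32 k), h.2.2.1 (Tri.adj21 k)]
    rw [h.2.2.2, r1, r2, r3]
    grind

end IsFlip

theorem Dev.cyc {G : ι → ι → ℝ} {D : ι → E3} {a b c : ι} (h : Dev G D a b c) : Dev G D b c a :=
  ⟨fun i j hi hj => h.1 i j (by grind) (by grind), by rw [d3_cyc]; exact h.2⟩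

theorem Step.symm {X Y : Tri ι × (ι → ι → ℝ)} (h : Step X Y) : Step Y X := by
  obtain ⟨h1, h2, h3, h4⟩ := h
  refine ⟨h2, h1, fun x y k k' => (h3 x y k' k).symm, h4.imp Eq.symm ?_⟩
  rintro ⟨a, b, c, d, D, f, d1, d2, d3, d4⟩
  exact ⟨b, c, d, a, D, f.symm, d4, d3.cyc, d1.cyc, d2.cyc⟩

theorem Step.agree {T : Tri ι} {G G' : ι → ι → ℝ} (h : IsMet T G) (h' : IsMet T G')
    (e : ∀ x y, T.adj x y → G' x y = G x y) : Step (T, G) (T, G') :=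
  ⟨h, h', fun x y k _ => e x y k, Or.inl rfl⟩

theorem cls_symm {X Y : Tri ι × (ι → ι → ℝ)} (h : Relation.ReflTransGen Step X Y) :
    Relation.ReflTransGen Step Y X := by
  induction h with
  | refl => exact .refl
  | tail _ s ih => exact .head s.symm ih

theorem Cls.symm {T T' : Tri ι} {G G' : ι → ι → ℝ} (h : Cls T G T' G') : Cls T' G' T G :=
  cls_symm h

theorem Cls.trans {T T' T'' : Tri ι} {G G' G'' : ι → ι → ℝ} (h : Cls T G T' G')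
    (h' : Cls T' G' T'' G'') : Cls T G T'' G'' :=
  Relation.ReflTransGen.trans h h'

theorem Cls.met {T T' : Tri ι} {G G' : ι → ι → ℝ} (h : Cls T G T' G') (h0 : IsMet T G) :
    IsMet T' G' := by
  rcases Relation.ReflTransGen.cases_tail h with e | ⟨_, -, s⟩
  · obtain ⟨rfl, rfl⟩ := Prod.mk.inj e
    exact h0
  · exact s.2.1

/-- Values on edges lie strictly between `-1` and `1`. -/
theorem IsMet.sq_lt {T : Tri ι} {G : ι → ι → ℝ} (h : IsMet T G) {a b : ι} (k : T.adj a b) :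
    G a b ^ 2 < 1 := by
  obtain ⟨c, k⟩ := k
  obtain ⟨D, h1, h2⟩ := h.2.2 a b c k
  have e1 := norm_cr3 (D a) (D b)
  rw [← real_inner_self_eq_norm_sq (D a), ← real_inner_self_eq_norm_sq (D b),
    h1 a a (by grind) (by grind), h1 b b (by grind) (by grind), h1 a b (by grind) (by grind),
    h.2.1, h.2.1] at e1
  have : cr3 (D a) (D b) ≠ 0 := fun e => by
    rw [← inner_cr3, e, inner_zero_left] at h2
    exact lt_irrefl _ h2
  have := pow_pos (norm_pos_iff.2 this) 2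
  linarith

theorem QuadAt.rot {τ : ℝ} {u : ι → E4} {x : E4} {a b c d : ι} (h : QuadAt τ u x a b c d) :
    QuadAt τ u x b c d a := by
  obtain ⟨p, h1, h2, h3, h4, k1, k2, k3, k4⟩ := h
  exact ⟨p, h2, h3, h4, h1, k4, by rwa [d4_cyc], by rwa [d4_cyc], by rwa [d4_cyc]⟩

end Pool.Agent.Lib.MP_34b931_co.G
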