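import Pool.Agent.Lib.MP_34b931_co.H22Tri

/-! The triangulation of the truncated polyhedron. -/

namespace Pool.Agent.Lib.MP_34b931_co.G

namespace TriT

open Module

open Classical in
/-- Euler's inequality from the fact that every cycle bounds. -/
theorem euler {ι κ : Type} [Fintype ι] [Fintype κ] [Nonempty ι] [Nonempty κ]
    (Sd : κ → ι → ι → Prop) (su : ∀ v w j k, Sd v j k → Sd w j k → v = w)
    (tw : ∀ v j k, Sd v j k → ∃ w, Sd w k j) (ne : ∀ v j k, Sd v j k → j ≠ k)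
    (bnd : ∀ z : ι → ι → ZMod 2, (∀ j k, z j k = z k j) →
      (∀ v, ∑ j, ∑ k, (if Sd v j k then z j k else 0) = 0) →
      ∃ χ : ι → ZMod 2, ∀ v j k, Sd v j k → z j k = χ j + χ k) :
    Nat.card {p : ι × ι // ∃ v, Sd v p.1 p.2} + 4 ≤ 2 * (Nat.card ι + Nat.card κ) := by
  let A := {p : ι × ι // ∃ v, Sd v p.1 p.2}
  let s : A → A := fun a => ⟨(a.1.2, a.1.1), let ⟨v, h⟩ := a.2; tw v _ _ h⟩
  have ss : ∀ a, s (s a) = a := fun _ => rfl
  have two : ∀ x : ZMod 2, x + x = 0 := fun x => CharTwo.add_self_eq_zero x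
  let φ : (A → ZMod 2) →ₗ[ZMod 2] (A → ZMod 2) :=
    LinearMap.id + LinearMap.funLeft (ZMod 2) (ZMod 2) s
  have hφ : ∀ z a, φ z a = z a + z (s a) := fun _ _ => rfl
  let W := LinearMap.ker φ
  have hW : ∀ z, z ∈ W ↔ ∀ a, z (s a) = z a := by
    intro z
    rw [LinearMap.mem_ker, funext_iff]
    refine forall_congr' fun a => ?_
    rw [hφ, Pi.zero_apply, CharTwo.add_eq_zero, eq_comm]
  have h1 : Fintype.card A ≤ 2 * finrank (ZMod 2) W := by
    have e := LinearMap.finrank_range_add_finrank_ker φ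
    have l : LinearMap.range φ ≤ W := by
      rintro _ ⟨z, rfl⟩
      rw [hW]
      intro a
      rw [hφ, hφ, ss, add_comm]
    have l2 := Submodule.finrank_mono l
    rw [Module.finrank_fintype_fun_eq_card] at e
    change _ + finrank (ZMod 2) W = _ at e
    omega
  let bd : (A → ZMod 2) →ₗ[ZMod 2] (κ → ZMod 2) :=
    { toFun := fun z v => ∑ a : A, if Sd v a.1.1 a.1.2 then z a else 0
      map_add' := fun z z' => by
        funext v
        rw [Pi.add_apply, ← Finset.sum_add_distrib]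
        refine Finset.sum_congr rfl fun a _ => ?_
        split_ifs <;> simp
      map_smul' := fun r z => by
        funext v
        simp only [Pi.smul_apply, smul_eq_mul, RingHom.id_apply, Finset.mul_sum]
        refine Finset.sum_congr rfl fun a _ => ?_
        split_ifs <;> simp }
  have hbd : ∀ z v, bd z v = ∑ a : A, if Sd v a.1.1 a.1.2 then z a else 0 := fun _ _ => rfl
  let co : (ι → ZMod 2) →ₗ[ZMod 2] (A → ZMod 2) :=
    LinearMap.funLeft (ZMod 2) (ZMod 2) (fun a : A => a.1.1) +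
      LinearMap.funLeft (ZMod 2) (ZMod 2) (fun a : A => a.1.2)
  have hco : ∀ χ a, co χ a = χ a.1.1 + χ a.1.2 := fun _ _ => rfl
  let bW := bd.comp W.subtype
  have h2 := LinearMap.finrank_range_add_finrank_ker bW
  have h3 : finrank (ZMod 2) (LinearMap.range bW) < Fintype.card κ := by
    rw [← Module.finrank_fintype_fun_eq_card (R := ZMod 2)]
    refine Submodule.finrank_lt fun htop => ?_
    obtain ⟨v0⟩ := ‹Nonempty κ›
    obtain ⟨z, hz⟩ : Pi.single v0 1 ∈ LinearMap.range bW := htop ▸ Submodule.mem_top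
    have e1 : ∑ v, bW z v = 1 := by rw [hz]; simp
    have e2 : ∑ v, bW z v = ∑ a : A, z.1 a := by
      change ∑ v, bd z.1 v = _
      simp only [hbd]
      rw [Finset.sum_comm]
      refine Finset.sum_congr rfl fun a _ => ?_
      obtain ⟨v, hv⟩ := a.2
      rw [Finset.sum_eq_single v (fun w _ hw => if_neg fun h => hw (su _ _ _ _ h hv)) (by simp),
        if_pos hv]
    have e3 : ∑ a : A, z.1 a = 0 := by
      refine Finset.sum_involution (fun a _ => s a) (fun a _ => ?_) (fun a _ _ h => ?_)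
        (fun a _ => Finset.mem_univ _) (fun a _ => ss a)
      · rw [(hW _).1 z.2, two]
      · obtain ⟨v, hv⟩ := a.2
        exact ne _ _ _ hv (congrArg (fun b : A => b.1.2) h)
    rw [e2, e3] at e1
    exact zero_ne_one e1
  have h4 : finrank (ZMod 2) (LinearMap.ker bW) ≤ finrank (ZMod 2) (LinearMap.range co) := by
    rw [← Submodule.finrank_map_subtype_eq W]
    refine Submodule.finrank_mono ?_
    rintro _ ⟨z, hz, rfl⟩
    let z' : ι → ι → ZMod 2 := fun j k => if h : ∃ v, Sd v j k then z.1 ⟨(j, k), h⟩ else 0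
    have hz' : ∀ a : A, z' a.1.1 a.1.2 = z.1 a := fun a => dif_pos a.2
    obtain ⟨χ, hχ⟩ := bnd z' (fun j k => by
      by_cases h : ∃ v, Sd v j k
      · exact (hz' ⟨(j, k), h⟩).trans (((hW _).1 z.2 _).symm.trans (hz' (s ⟨(j, k), h⟩)).symm)
      · have h' : ¬ ∃ v, Sd v k j := fun ⟨v, hv⟩ => h (tw v _ _ hv)
        simp only [z', dif_neg h, dif_neg h']) (fun v => by
      have e : bd z.1 v = 0 := congrFun (LinearMap.mem_ker.1 hz) v
      rw [hbd] at e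
      refine Eq.trans ?_ e
      rw [← Fintype.sum_prod_type' fun j k => if Sd v j k then z' j k else 0,
        ← Finset.sum_filter_of_ne (p := fun p : ι × ι => ∃ v, Sd v p.1 p.2)
          (fun p _ hp => ⟨v, by_contra fun h => hp (if_neg h)⟩),
        Finset.sum_subtype (p := fun p : ι × ι => ∃ v, Sd v p.1 p.2) _ (by simp)]
      exact Finset.sum_congr rfl fun a _ => by rw [hz'])
    refine ⟨χ, funext fun a => ?_⟩
    obtain ⟨v, hv⟩ := a.2
    rw [hco, ← hχ v _ _ hv, hz']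
    rfl
  have h5 : finrank (ZMod 2) (LinearMap.range co) < Fintype.card ι := by
    have e := LinearMap.finrank_range_add_finrank_ker co
    rw [Module.finrank_fintype_fun_eq_card] at e
    have : finrank (ZMod 2) (LinearMap.ker co) ≠ 0 := by
      rw [Ne, Submodule.finrank_eq_zero]
      intro h
      have m : (fun _ => 1 : ι → ZMod 2) ∈ LinearMap.ker co := by
        rw [LinearMap.mem_ker]
        funext a
        rw [hco, two]
        rfl
      rw [h, Submodule.mem_bot] at m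
      obtain ⟨i⟩ := ‹Nonempty ι›
      exact one_ne_zero (congrFun m i)
    omega
  rw [Nat.card_eq_fintype_card, Nat.card_eq_fintype_card, Nat.card_eq_fintype_card]
  change Fintype.card A + 4 ≤ _
  omega

variable {ι : Type} {c : ι → E3} {v : E3}

theorem next_uniq {j k l : ι} (h : ESide c v j k) (h' : ESide c v j l) : k = l := by
  by_contra n
  have a := h.2.2.2 l h'.1.symm (Ne.symm n) h'.2.2.1
  have b := h'.2.2.2 k h.1.symm n h.2.2.1
  rw [d3_swap23] at b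
  linarith

theorem prev_uniq {j k l : ι} (h : ESide c v j k) (h' : ESide c v l k) : j = l := by
  by_contra n
  have a := h.2.2.2 l (Ne.symm n) h'.1 h'.2.1
  have b := h'.2.2.2 j n h.1 h.2.1
  rw [d3_swap12, d3_cyc] at a
  linarith

theorem not_rev {j k : ι} (hv : EV c v) (h : ESide c v j k) : ¬ ESide c v k j := by
  intro h'
  obtain ⟨l, l1, l2, l3⟩ : ∃ l, l ≠ j ∧ l ≠ k ∧ dist v (c l) = 1 := by
    obtain ⟨-, a, b, d, n1, n2, n3, d1, d2, d3⟩ := hv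
    by_cases ha : a ≠ j ∧ a ≠ k
    · exact ⟨a, ha.1, ha.2, d1⟩
    by_cases hb : b ≠ j ∧ b ≠ k
    · exact ⟨b, hb.1, hb.2, d2⟩
    exact ⟨d, by grind, by grind, d3⟩
  have a := h.2.2.2 l l1 l2 l3
  have b := h'.2.2.2 l l2 l1 l3
  rw [d3_swap12] at b
  linarith

variable [Fintype ι]

theorem exists_next (h1 : StE1) (hp : Priv c) (hv : EV c v) {j : ι} (hj : dist v (c j) = 1) :
    ∃ k, ESide c v j k := by
  obtain ⟨n, e, -, a, -, b⟩ := h1 ι c v hp hv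
  obtain ⟨i, hi, rfl⟩ := (a j).1 hj
  exact ⟨_, (b _ _).2 ⟨i, hi, rfl, rfl⟩⟩

theorem exists_prev (h1 : StE1) (hp : Priv c) (hv : EV c v) {j : ι} (hj : dist v (c j) = 1) :
    ∃ k, ESide c v k j := by
  obtain ⟨n, e, -, a, -, b⟩ := h1 ι c v hp hv
  obtain ⟨i, hi, rfl⟩ := (a j).1 hj
  rcases i with _ | i
  · exact ⟨_, (b _ _).2 ⟨n, le_rfl, rfl, by simp⟩⟩
  · exact ⟨_, (b _ _).2 ⟨i, by omega, rfl, by rw [Nat.mod_eq_of_lt (by omega)]⟩⟩

theorem round (h1 : StE1) (hp : Priv c) (hv : EV c v) (R : ι → ι → Prop)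
    (hR : ∀ j k l, ESide c v j k → ESide c v k l → R j k → R k l) {j k j' k' : ι}
    (h : ESide c v j k) (h' : ESide c v j' k') (r : R j k) : R j' k' := by
  obtain ⟨n, e, -, -, -, b⟩ := h1 ι c v hp hv
  obtain ⟨i, hi, rfl, rfl⟩ := (b _ _).1 h
  obtain ⟨i', hi', rfl, rfl⟩ := (b _ _).1 h'
  have sd : ∀ m, ESide c v (e (m % (n + 1))) (e ((m + 1) % (n + 1))) := fun m =>
    (b _ _).2 ⟨m % (n + 1), Nat.lt_succ_iff.1 (Nat.mod_lt _ n.succ_pos), rfl, by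
      rw [Nat.mod_add_mod]⟩
  have key : ∀ m, R (e ((i + m) % (n + 1))) (e ((i + m + 1) % (n + 1))) := by
    intro m
    induction m with
    | zero => rwa [Nat.add_zero, Nat.mod_eq_of_lt (Nat.lt_succ_of_le hi)]
    | succ m ih => exact hR _ _ _ (sd (i + m)) (sd (i + m + 1)) ih
  have := key (n + 1 - i + i')
  rw [show i + (n + 1 - i + i') = i' + (n + 1) by omega, Nat.add_mod_right,
    Nat.mod_eq_of_lt (Nat.lt_succ_of_le hi'), show i' + (n + 1) + 1 = i' + 1 + (n + 1) by omega,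
    Nat.add_mod_right] at this
  exact this

theorem finite_EV (hc : EStd c) : Finite {v // EV c v} := by
  choose i j k h using fun v : {v // EV c v} => v.2.2
  refine Finite.of_injective (fun v => (i v, j v, k v)) fun v w e => Subtype.ext ?_
  simp only [Prod.mk.injEq] at e
  obtain ⟨a1, a2, a3, a4, a5, a6⟩ := h v
  obtain ⟨-, -, -, b4, b5, b6⟩ := h w
  rw [← e.1] at b4
  rw [← e.2.1] at b5
  rw [← e.2.2] at b6
  exact hc.uniq3 _ _ _ _ _ v.2.1 w.2.1 a1 a2 a3 a4 a5 a6 b4 b5 b6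

/-- The faces of the truncated polyhedron. -/
def Fc (c : ι → E3) (x y z : ι ⊕ {v // EV c v}) : Prop :=
  ∃ ν j k, ESide c ν.1 j k ∧ Rot (Sum.inr ν) (Sum.inl j) (Sum.inl k) x y z

omit [Fintype ι] in
theorem f1 {ν : {v // EV c v}} {j k : ι} (h : ESide c ν.1 j k) :
    Fc c (Sum.inr ν) (Sum.inl j) (Sum.inl k) := ⟨ν, j, k, h, Or.inl ⟨rfl, rfl, rfl⟩⟩

omit [Fintype ι] in
theorem f2 {ν : {v // EV c v}} {j k : ι} (h : ESide c ν.1 j k) :
    Fc c (Sum.inl j) (Sum.inl k) (Sum.inr ν) := ⟨ν, j, k, h, Or.inr (Or.inl ⟨rfl, rfl, rfl⟩)⟩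

omit [Fintype ι] in
theorem f3 {ν : {v // EV c v}} {j k : ι} (h : ESide c ν.1 j k) :
    Fc c (Sum.inl k) (Sum.inr ν) (Sum.inl j) := ⟨ν, j, k, h, Or.inr (Or.inr ⟨rfl, rfl, rfl⟩)⟩

theorem conn (h1 : StE1) (h3 : StConn) (hc : EStd c)
    (S : ι ⊕ {v // EV c v} → ι ⊕ {v // EV c v} → ι ⊕ {v // EV c v} → Prop)
    (s1 : ∀ a b d, Fc c a b d → S a b d → S b d a)
    (s2 : ∀ a b d e, Fc c a b d → Fc c b a e → S a b d → S b a e) :
    ∀ a b d a' b' d', Fc c a b d → Fc c a' b' d' → S a b d → S a' b' d' := by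
  have loc : ∀ (ν : {v // EV c v}) j k j' k', ESide c ν.1 j k → ESide c ν.1 j' k' →
      S (Sum.inr ν) (Sum.inl j) (Sum.inl k) → S (Sum.inr ν) (Sum.inl j') (Sum.inl k') :=
    fun ν j k j' k' h h' r => round h1 hc.priv ν.2
      (fun j k => S (Sum.inr ν) (Sum.inl j) (Sum.inl k)) (fun j k l a b r =>
        s2 _ _ _ _ (f3 a) (f1 b) (s1 _ _ _ (f2 a) (s1 _ _ _ (f1 a) r))) h h' r
  have glob := (h3 ι c hc).2 (fun v => ∀ (hv : EV c v) j k, ESide c v j k →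
      S (Sum.inr ⟨v, hv⟩) (Sum.inl j) (Sum.inl k)) (fun v w j k hv hw a b r hw' j' k' b' =>
    loc ⟨w, hw'⟩ k j j' k' b b' (s1 _ _ _ (f3 (ν := ⟨w, hw'⟩) b) (s1 _ _ _ (f2 (ν := ⟨w, hw'⟩) b)
      (s2 _ _ _ _ (f2 (ν := ⟨v, hv⟩) a) (f2 (ν := ⟨w, hw'⟩) b)
        (s1 _ _ _ (f1 (ν := ⟨v, hv⟩) a) (r hv j k a))))))
  rintro a b d a' b' d' ⟨ν, j, k, h, r⟩ ⟨ν', j', k', h', r'⟩ s
  have t : S (Sum.inr ν) (Sum.inl j) (Sum.inl k) := by
    rcases r with ⟨rfl, rfl, rfl⟩ | ⟨rfl, rfl, rfl⟩ | ⟨rfl, rfl, rfl⟩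
    exacts [s, s1 _ _ _ (f3 h) (s1 _ _ _ (f2 h) s), s1 _ _ _ (f3 h) s]
  have t' : S (Sum.inr ν') (Sum.inl j') (Sum.inl k') :=
    glob ν.1 ν'.1 ν.2 ν'.2 (fun _ _ _ b => loc ν j k _ _ h b t) ν'.2 j' k' h'
  rcases r' with ⟨rfl, rfl, rfl⟩ | ⟨rfl, rfl, rfl⟩ | ⟨rfl, rfl, rfl⟩
  exacts [t', s1 _ _ _ (f1 h') t', s1 _ _ _ (f2 h') (s1 _ _ _ (f1 h') t')]

theorem count (h2 : StE2) (h3 : StConn) (h4 : StBnd) (hc : EStd c) :
    Nat.card {t : (ι ⊕ {v // EV c v}) × (ι ⊕ {v // EV c v}) × (ι ⊕ {v // EV c v}) //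
      Fc c t.1 t.2.1 t.2.2} + 12 ≤ 6 * Nat.card (ι ⊕ {v // EV c v}) := by
  classical
  have := finite_EV hc
  have := Fintype.ofFinite {v // EV c v}
  have hι : Nonempty ι := by
    have := hc.three
    exact (Nat.card_pos_iff.1 (by omega)).1
  have hκ : Nonempty {v // EV c v} := by
    obtain ⟨i⟩ := hι
    obtain ⟨v, hv, -⟩ := (h3 ι c hc).1 i
    exact ⟨⟨v, hv⟩⟩
  have e := euler (fun (ν : {v // EV c v}) j k => ESide c ν.1 j k)
    (fun v w j k a b => Subtype.ext (hc.suniq _ _ j k v.2 w.2 a b))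
    (fun v j k a => let ⟨w, hw, _, b⟩ := h2 ι c v.1 j k hc.priv v.2 a; ⟨⟨w, hw⟩, b⟩)
    (fun v j k a => a.1) (fun z hz hs =>
      let ⟨χ, hχ⟩ := h4 ι c z hc hz fun v hv => hs ⟨v, hv⟩
      ⟨χ, fun v j k a => hχ v.1 j k v.2 a⟩)
  let A := {p : ι × ι // ∃ ν : {v // EV c v}, ESide c ν.1 p.1 p.2}
  let g : Fin 3 × A → {t : (ι ⊕ {v // EV c v}) × (ι ⊕ {v // EV c v}) × (ι ⊕ {v // EV c v}) //
      Fc c t.1 t.2.1 t.2.2} := fun q =>
    ![⟨(_, _, _), f1 q.2.2.choose_spec⟩, ⟨(_, _, _), f2 q.2.2.choose_spec⟩,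
      ⟨(_, _, _), f3 q.2.2.choose_spec⟩] q.1
  have hg : Function.Surjective g := by
    rintro ⟨⟨x, y, z⟩, hF⟩
    obtain ⟨ν, j, k, h, r⟩ : Fc c x y z := hF
    let a : A := ⟨(j, k), ν, h⟩
    have hν : a.2.choose = ν := Subtype.ext (hc.suniq _ _ j k (Subtype.prop _) ν.2 a.2.choose_spec h)
    rcases r with ⟨rfl, rfl, rfl⟩ | ⟨rfl, rfl, rfl⟩ | ⟨rfl, rfl, rfl⟩
    · exact ⟨(0, a), Subtype.ext (congrArg (fun w => (Sum.inr w, Sum.inl j, Sum.inl k)) hν)⟩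
    · exact ⟨(1, a), Subtype.ext (congrArg (fun w => (Sum.inl j, Sum.inl k, Sum.inr w)) hν)⟩
    · exact ⟨(2, a), Subtype.ext (congrArg (fun w => (Sum.inl k, Sum.inr w, Sum.inl j)) hν)⟩
  have l := Nat.card_le_card_of_surjective g hg
  rw [Nat.card_prod, Nat.card_fin] at l
  rw [Nat.card_sum]
  change Nat.card A + 4 ≤ _ at e
  omega

end TriT

open TriT in
theorem stTriT (h1 : StE1) (h2 : StE2) (h3 : StConn) (h4 : StBnd) : StTriT := by
  intro ι _ c hc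
  have := finite_EV hc
  refine ⟨{v // EV c v}, Fintype.ofFinite _, Subtype.val,
    ⟨Fc c, ?_, ?_, ?_, ?_, ?_, ?_, conn h1 h3 hc, count h2 h3 h4 hc⟩, Subtype.val_injective,
    fun v => by simp, fun x y z => Iff.rfl⟩
  · rintro x y z ⟨ν, j, k, h, r⟩
    exact ⟨ν, j, k, h, r.cyc⟩
  · rintro x y z ⟨ν, j, k, h, ⟨rfl, rfl, rfl⟩ | ⟨rfl, rfl, rfl⟩ | ⟨rfl, rfl, rfl⟩⟩
    · simp
    · simpa using h.1
    · simp
  · rintro x y z w ⟨ν, j, k, h, ⟨rfl, rfl, rfl⟩ | ⟨rfl, rfl, rfl⟩ | ⟨rfl, rfl, rfl⟩⟩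
      ⟨ν', j', k', h', ⟨e1, e2, rfl⟩ | ⟨e1, e2, rfl⟩ | ⟨e1, e2, rfl⟩⟩ <;> cases e1 <;> cases e2
    · rw [next_uniq h h']
    · rw [Subtype.ext (hc.suniq _ _ _ _ ν.2 ν'.2 h h')]
    · rw [prev_uniq h h']
  · rintro x y z ⟨ν, j, k, h, ⟨rfl, rfl, rfl⟩ | ⟨rfl, rfl, rfl⟩ | ⟨rfl, rfl, rfl⟩⟩
    · obtain ⟨i, hi⟩ := exists_prev h1 hc.priv ν.2 h.2.1
      exact ⟨_, f3 hi⟩
    · obtain ⟨w, hw, -, b⟩ := h2 ι c ν.1 j k hc.priv ν.2 h
      exact ⟨_, f2 (ν := ⟨w, hw⟩) b⟩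
    · obtain ⟨i, hi⟩ := exists_next h1 hc.priv ν.2 h.2.2.1
      exact ⟨_, f1 hi⟩
  · rintro x y z ⟨ν, j, k, h, ⟨rfl, rfl, rfl⟩ | ⟨rfl, rfl, rfl⟩ | ⟨rfl, rfl, rfl⟩⟩
      ⟨ν', j', k', h', ⟨e1, e2, e3⟩ | ⟨e1, e2, e3⟩ | ⟨e1, e2, e3⟩⟩ <;> cases e1 <;> cases e2 <;>
      cases e3 <;> exact not_rev (Subtype.prop _) h h'
  · rintro (i | ν)
    · obtain ⟨v, hv, hi⟩ := (h3 ι c hc).1 i
      obtain ⟨k, hk⟩ := exists_next h1 hc.priv hv hi
      exact ⟨_, _, f2 (ν := ⟨v, hv⟩) hk⟩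
    · obtain ⟨i, -, -, -, -, -, hi, -⟩ := ν.2.2
      obtain ⟨k, hk⟩ := exists_next h1 hc.priv ν.2 hi
      exact ⟨_, _, f1 hk⟩

end Pool.Agent.Lib.MP_34b931_co.G
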