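import Pool.Agent.Lib.MP_34b931_co.H22Tri

/-! Cutting off all vertices of a standard ball-polyhedron gives a simple one. -/

namespace Pool.Agent.Lib.MP_34b931_co.G

open Filter Topology

namespace Trunc

variable {ι : Type} [Fintype ι] {c : ι → E3} {v : E3}

/-- The centre of the ball that cuts off `v`. -/
noncomputable def cen (c : ι → E3) (v : E3) (ε : ℝ) : E3 :=
  v + ((1 + ε) * ‖nsum c v‖⁻¹) • nsum c v

open Classical in
theorem inner_nsum (w : E3) : inner ℝ w (nsum c v) =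
    ∑ j, if dist v (c j) = 1 then inner ℝ w (c j - v) else 0 := by
  rw [nsum, inner_sum]
  refine Finset.sum_congr rfl fun j _ => ?_
  split_ifs <;> simp

theorem key (hs : EStd c) (hv : EV c v) : nsum c v ≠ 0 ∧ ∃ m : ℝ, ‖nsum c v‖ < m ∧
    ∀ y, InB c y → m * ‖y - v‖ ^ 2 ≤ 2 * inner ℝ (y - v) (nsum c v) := by
  classical
  obtain ⟨-, i, j, k, ij, -, -, hi, hj, -⟩ := hv
  have hm : ∀ y, InB c y → (∑ l, if dist v (c l) = 1 then (1 : ℝ) else 0) * ‖y - v‖ ^ 2 ≤
      2 * inner ℝ (y - v) (nsum c v) := by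
    intro y hy
    rw [inner_nsum, Finset.sum_mul, Finset.mul_sum]
    refine Finset.sum_le_sum fun l _ => ?_
    split_ifs with h
    · rw [one_mul]; exact (le_iff h).1 (hy l)
    · simp
  have hpos : (0 : ℝ) < ∑ l, if dist v (c l) = 1 then (1 : ℝ) else 0 := by
    refine Finset.sum_pos' (fun l _ => by split_ifs <;> norm_num) ⟨i, Finset.mem_univ _, ?_⟩
    rw [if_pos hi]; norm_num
  have h0 : nsum c v ≠ 0 := by
    intro e
    obtain ⟨o, ho⟩ := hs.int
    have h1 := hm o fun l => (ho l).le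
    rw [e, inner_zero_right, mul_zero] at h1
    have h2 : o ≠ v := by
      rintro rfl
      exact (ho i).ne hi
    have h3 := mul_pos hpos (pow_pos (norm_pos_iff.2 (sub_ne_zero.2 h2)) 2)
    linarith
  refine ⟨h0, _, ?_, hm⟩
  have hn : ‖nsum c v‖ ≠ 0 := norm_ne_zero_iff.2 h0
  have hu : ‖‖nsum c v‖⁻¹ • nsum c v‖ = 1 := by
    rw [norm_smul, norm_inv, norm_norm, inv_mul_cancel₀ hn]
  have e : ‖nsum c v‖ = inner ℝ (‖nsum c v‖⁻¹ • nsum c v) (nsum c v) := by
    rw [real_inner_smul_left, real_inner_self_eq_norm_sq]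
    field_simp
  rw [e, inner_nsum]
  refine Finset.sum_lt_sum (fun l _ => ?_) ?_
  · split_ifs with h
    · exact real_inner_le_one_of_norm_eq_one hu (norm_one h)
    · exact le_rfl
  · have ne : c i - v ≠ c j - v := fun e => hs.priv.ne ij (sub_left_injective e)
    by_cases e1 : ‖nsum c v‖⁻¹ • nsum c v = c i - v
    · refine ⟨j, Finset.mem_univ _, ?_⟩
      rw [if_pos hj, if_pos hj]
      exact (inner_lt_one_iff_real_of_norm_eq_one hu (norm_one hj)).2 (e1 ▸ ne)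
    · refine ⟨i, Finset.mem_univ _, ?_⟩
      rw [if_pos hi, if_pos hi]
      exact (inner_lt_one_iff_real_of_norm_eq_one hu (norm_one hi)).2 e1

theorem norm_cen (h0 : nsum c v ≠ 0) {ε : ℝ} (hε : 0 < ε) : ‖cen c v ε - v‖ = 1 + ε := by
  have hn : ‖nsum c v‖ ≠ 0 := norm_ne_zero_iff.2 h0
  rw [cen, add_sub_cancel_left, norm_smul, norm_mul, norm_inv, norm_norm,
    Real.norm_of_nonneg (by linarith)]
  field_simp

theorem dist_cen (h0 : nsum c v ≠ 0) {ε : ℝ} (hε : 0 < ε) : dist v (cen c v ε) = 1 + ε := by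
  rw [dist_comm, dist_eq_norm, norm_cen h0 hε]

/-- The new ball only cuts near `v`. -/
theorem near (hs : EStd c) (hv : EV c v) {Q : ℝ → E3 → Prop}
    (hQ : ∀ᶠ p : ℝ × E3 in 𝓝 (0, v), Q p.1 p.2) :
    ∀ᶠ ε in 𝓝[>] (0 : ℝ), ∀ y, InB c y → 1 ≤ dist y (cen c v ε) → Q ε y := by
  obtain ⟨h0, m, hm, hk⟩ := key hs hv
  obtain ⟨δ, δ0, hδ⟩ := Metric.eventually_nhds_iff.1 hQ
  have hn : 0 < ‖nsum c v‖ := norm_pos_iff.2 h0
  have hl : 0 < m * ‖nsum c v‖⁻¹ - 1 := by
    rw [sub_pos, ← div_eq_mul_inv, one_lt_div hn]; exact hm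
  have c1 : Continuous fun ε : ℝ => (1 + ε) ^ 2 - 1 := by fun_prop
  have e1 : ∀ᶠ ε in 𝓝 (0 : ℝ), (1 + ε) ^ 2 - 1 < (m * ‖nsum c v‖⁻¹ - 1) * δ ^ 2 :=
    c1.continuousAt.eventually_lt continuousAt_const (by
      have := mul_pos hl (pow_pos δ0 2)
      simpa using this)
  have e2 : ∀ᶠ ε in 𝓝 (0 : ℝ), ε < δ := gt_mem_nhds δ0
  filter_upwards [nhdsWithin_le_nhds e1, nhdsWithin_le_nhds e2, self_mem_nhdsWithin]
    with ε h1 h2 h3 y hy hd
  have h3 : 0 < ε := h3
  refine hδ (y := (ε, y)) ?_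
  rw [Prod.dist_eq, max_lt_iff]
  refine ⟨by rwa [Real.dist_eq, sub_zero, abs_of_pos h3], ?_⟩
  have e3 : y - cen c v ε = (y - v) - (cen c v ε - v) := by abel
  have e4 : dist y (cen c v ε) ^ 2 = ‖y - v‖ ^ 2 -
      (1 + ε) * ‖nsum c v‖⁻¹ * (2 * inner ℝ (y - v) (nsum c v)) + (1 + ε) ^ 2 := by
    rw [dist_eq_norm, e3, norm_sub_sq_real, norm_cen h0 h3, cen, add_sub_cancel_left,
      real_inner_smul_right]
    ring
  have h4 := mul_le_mul_of_nonneg_left (hk y hy)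
    (show 0 ≤ (1 + ε) * ‖nsum c v‖⁻¹ by positivity)
  have h5 : 1 ≤ dist y (cen c v ε) ^ 2 := one_le_pow₀ hd
  have h6 : 0 ≤ ε * (m * ‖nsum c v‖⁻¹) * ‖y - v‖ ^ 2 := by
    have : 0 ≤ m * ‖nsum c v‖⁻¹ := by linarith
    positivity
  have h7 : (m * ‖nsum c v‖⁻¹ - 1) * ‖y - v‖ ^ 2 < (m * ‖nsum c v‖⁻¹ - 1) * δ ^ 2 := by
    nlinarith
  have h8 := lt_of_mul_lt_mul_left h7 hl.le
  change dist y v < δ
  rw [dist_eq_norm]
  exact lt_of_pow_lt_pow_left₀ 2 δ0.le h8

theorem near' (hs : EStd c) (hv : EV c v) {Q : E3 → Prop} (hQ : ∀ᶠ y in 𝓝 v, Q y) :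
    ∀ᶠ ε in 𝓝[>] (0 : ℝ), ∀ y, InB c y → 1 ≤ dist y (cen c v ε) → Q y :=
  near hs hv (Q := fun _ y => Q y) (continuous_snd.continuousAt.eventually hQ)

omit [Fintype ι] in
theorem third (hv : EV c v) (j k : ι) : ∃ l, l ≠ j ∧ l ≠ k ∧ dist v (c l) = 1 := by
  obtain ⟨-, a, b, d, ab, bd, ad, ha, hb, hd⟩ := hv
  grind

theorem side_pos (hv : EV c v) {j k : ι} (h : ESide c v j k) :
    0 < d3 (c j - v) (c k - v) (nsum c v) := by
  classical
  rw [← inner_cr3, inner_nsum]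
  obtain ⟨l, lj, lk, hl⟩ := third hv j k
  refine Finset.sum_pos' (fun i _ => ?_) ⟨l, Finset.mem_univ _, ?_⟩
  · split_ifs with hi
    · rw [inner_cr3]
      by_cases e1 : i = j
      · rw [e1, d3_self13]
      by_cases e2 : i = k
      · rw [e2, d3_self23]
      exact (h.2.2.2 i e1 e2 hi).le
    · exact le_rfl
  · rw [if_pos hl, inner_cr3]
    exact h.2.2.2 l lj lk hl

theorem det_pos (hv : EV c v) {j k : ι} (h : ESide c v j k) :
    ∀ᶠ p : ℝ × E3 in 𝓝 (0, v), 0 < d3 (cen c v p.1 - p.2) (c j - p.2) (c k - p.2) := by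
  have hp := side_pos hv h
  have h0 : nsum c v ≠ 0 := by
    intro e
    rw [e, ← inner_cr3, inner_zero_right] at hp
    exact lt_irrefl _ hp
  have hc : Continuous fun p : ℝ × E3 => d3 (cen c v p.1 - p.2) (c j - p.2) (c k - p.2) := by
    unfold cen
    fun_prop
  refine continuousAt_const.eventually_lt hc.continuousAt ?_
  change 0 < d3 (cen c v 0 - v) (c j - v) (c k - v)
  rw [cen, add_sub_cancel_left, ← d3_cyc, ← inner_cr3, real_inner_smul_right, inner_cr3]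
  have := norm_pos_iff.2 h0
  positivity

/-- The edge between the faces `j` and `k` leaves `v`. -/
theorem arc (hv : EV c v) {j k : ι} (h : ESide c v j k) : ∃ (γ : ℝ → E3) (s₀ : ℝ),
    Continuous γ ∧ γ 0 = v ∧ 0 ≤ s₀ ∧ γ s₀ ≠ v ∧ ∀ s ∈ Set.Icc 0 s₀,
      InB c (γ s) ∧ dist (γ s) (c j) = 1 ∧ dist (γ s) (c k) = 1 := by
  obtain ⟨jk, hj, hk, hl⟩ := h
  set a := c j - v with ha
  set b := c k - v with hb
  have na : ‖a‖ = 1 := norm_one hj
  have nb : ‖b‖ = 1 := norm_one hk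
  have t0 : cr3 a b ≠ 0 := by
    obtain ⟨l, lj, lk, h1⟩ := third hv j k
    intro e
    have := hl l lj lk h1
    rw [← inner_cr3, e, inner_zero_left] at this
    exact lt_irrefl _ this
  have g0 : 0 < 1 + inner ℝ a b := by
    have h1 := norm_cr3 a b
    have h2 := pow_pos (norm_pos_iff.2 t0) 2
    rw [na, nb] at h1
    nlinarith
  let d : ℝ → E3 := fun s => s • (a + b) + cr3 a b
  have da : ∀ s, inner ℝ (d s) a = s * (1 + inner ℝ a b) := fun s => by
    simp only [d, inner_add_left, real_inner_smul_left, inner_cr3, d3_self13,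
      real_inner_self_eq_norm_sq, na, real_inner_comm a b]
    ring
  have db : ∀ s, inner ℝ (d s) b = s * (1 + inner ℝ a b) := fun s => by
    simp only [d, inner_add_left, real_inner_smul_left, inner_cr3, d3_self23,
      real_inner_self_eq_norm_sq, nb]
    ring
  have d0 : ∀ s, d s ≠ 0 := by
    intro s e
    have h1 := da s
    rw [e, inner_zero_left] at h1
    have h2 : s = 0 := (mul_eq_zero.1 h1.symm).resolve_right g0.ne'
    apply t0
    simpa [d, h2] using e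
  have dn : ∀ s, 0 < ‖d s‖ ^ 2 := fun s => pow_pos (norm_pos_iff.2 (d0 s)) 2
  let μ : ℝ → ℝ := fun s => 2 * (s * (1 + inner ℝ a b)) / ‖d s‖ ^ 2
  let γ : ℝ → E3 := fun s => v + μ s • d s
  have cd : Continuous d := by fun_prop
  have cμ : Continuous μ := Continuous.div (by fun_prop) (by fun_prop) fun s => (dn s).ne'
  have cγ : Continuous γ := by fun_prop
  have γ0 : γ 0 = v := by simp [γ, μ]
  have nγ : ∀ s, ‖γ s - v‖ ^ 2 = μ s * (2 * (s * (1 + inner ℝ a b))) := fun s => by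
    have := (dn s).ne'
    simp only [γ, add_sub_cancel_left, norm_smul, mul_pow, Real.norm_eq_abs, sq_abs]
    simp only [μ]
    field_simp
  have iγ : ∀ s w, inner ℝ (γ s - v) w = μ s * inner ℝ (d s) w := fun s w => by
    simp only [γ, add_sub_cancel_left, real_inner_smul_left]
  have aj : ∀ s, dist (γ s) (c j) = 1 := fun s => by
    rw [eq_iff hj, nγ, iγ, ← ha, da]; ring
  have ak : ∀ s, dist (γ s) (c k) = 1 := fun s => by
    rw [eq_iff hk, nγ, iγ, ← hb, db]; ring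
  have ev : ∀ᶠ s in 𝓝 (0 : ℝ), ∀ l, 0 ≤ s → dist (γ s) (c l) ≤ 1 := by
    rw [eventually_all]
    intro l
    by_cases e1 : l = j
    · exact .of_forall fun s _ => e1 ▸ (aj s).le
    by_cases e2 : l = k
    · exact .of_forall fun s _ => e2 ▸ (ak s).le
    rcases (hv.1 l).eq_or_lt with e | e
    · have h1 : ∀ᶠ s in 𝓝 (0 : ℝ), s * (1 + inner ℝ a b) < inner ℝ (d s) (c l - v) := by
        refine ContinuousAt.eventually_lt (by fun_prop) (by fun_prop) ?_
        have := hl l e1 e2 e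
        simpa [d, inner_cr3] using this
      filter_upwards [h1] with s h1 h2
      have h3 : 0 ≤ μ s := div_nonneg (by positivity) (dn s).le
      rw [le_iff e, nγ, iγ]
      nlinarith
    · have h1 : ∀ᶠ s in 𝓝 (0 : ℝ), dist (γ s) (c l) < 1 := by
        refine ContinuousAt.eventually_lt (by fun_prop) continuousAt_const ?_
        rwa [γ0]
      exact h1.mono fun s h _ => h.le
  obtain ⟨δ, δ0, hδ⟩ := Metric.eventually_nhds_iff.1 ev
  refine ⟨γ, δ / 2, cγ, γ0, by linarith, ?_, fun s hs => ⟨fun l => hδ ?_ l hs.1, aj s, ak s⟩⟩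
  · intro e
    have h1 := nγ (δ / 2)
    have h2 : 0 < μ (δ / 2) := div_pos (by positivity) (dn _)
    have h3 : 0 < μ (δ / 2) * (2 * (δ / 2 * (1 + inner ℝ a b))) := by positivity
    rw [e, sub_self, norm_zero] at h1
    linarith
  · rw [Real.dist_eq, sub_zero, abs_of_nonneg hs.1]
    linarith [hs.2]

theorem corner (hs : EStd c) (hv : EV c v) {j k : ι} (h : ESide c v j k) :
    ∀ᶠ ε in 𝓝[>] (0 : ℝ), ∃ x, InB c x ∧ dist x (cen c v ε) = 1 ∧ dist x (c j) = 1 ∧
      dist x (c k) = 1 := by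
  obtain ⟨γ, s₀, cγ, γ0, s0, ne, hγ⟩ := arc hv h
  filter_upwards [near' hs hv (eventually_ne_nhds ne.symm), self_mem_nhdsWithin] with ε h1 h2
  have h2 : 0 < ε := h2
  have h3 : dist (γ s₀) (cen c v ε) ≤ 1 := by
    by_contra h4
    exact h1 _ (hγ s₀ ⟨s0, le_rfl⟩).1 (not_le.1 h4).le rfl
  have h4 : 1 ≤ dist (γ 0) (cen c v ε) := by
    rw [γ0, dist_cen (key hs hv).1 h2]; linarith
  have hc : Continuous fun s => dist (γ s) (cen c v ε) := by fun_prop
  obtain ⟨s, hs', e⟩ := intermediate_value_Icc' s0 hc.continuousOn ⟨h3, h4⟩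
  exact ⟨γ s, (hγ s hs').1, e, (hγ s hs').2⟩

/-- Orientation agrees with the type. -/
def Ori {α : Type} (T : Tri α) (q : α → E3) (a b d : α) : Prop :=
  (T.F a b d ∧ 0 < d3 (q a) (q b) (q d)) ∨ (T.F a d b ∧ d3 (q a) (q b) (q d) < 0)

theorem Ori.cyc {α : Type} {T : Tri α} {q : α → E3} {a b d : α} (h : Ori T q a b d) :
    Ori T q b d a := by
  unfold Ori
  rw [d3_cyc]
  exact h.imp (fun h => ⟨T.cyc h.1, h.2⟩) fun h => ⟨Tri.cyc2 h.1, h.2⟩

theorem Ori.swap {α : Type} {T : Tri α} {q : α → E3} {a b d : α} (h : Ori T q a b d) :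
    Ori T q a d b := by
  unfold Ori
  rw [d3_swap23]
  exact h.symm.imp (fun h => ⟨h.1, by linarith [h.2]⟩) fun h => ⟨h.1, by linarith [h.2]⟩

end Trunc

open Trunc in
theorem stTrunc (_h1 : StE1) (h3 : StE3) : StTrunc := by
  intro ι κ _ _ c pos T hs inj hpos hT
  have ev : ∀ ν, EV c (pos ν) := fun ν => (hpos _).2 ⟨ν, rfl⟩
  have A : ∀ᶠ ε in 𝓝[>] (0 : ℝ), ∀ ν μ, ν ≠ μ → ∀ y, InB c y → 1 ≤ dist y (cen c (pos ν) ε) →
      dist y (cen c (pos μ) ε) < 1 := by
    simp only [eventually_all]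
    intro ν μ ne
    obtain ⟨U, V, hU, hV, hd⟩ := t2_separation_nhds (inj.ne ne)
    have e1 := near' hs (ev ν) (Q := fun y => y ∈ U) hU
    have e2 := near' hs (ev μ) (Q := fun y => y ∈ V) hV
    filter_upwards [e1, e2] with ε k1 k2 y hy h
    by_contra h'
    exact Set.disjoint_left.1 hd (k1 y hy h) (k2 y hy (not_lt.1 h'))
  have B : ∀ᶠ ε in 𝓝[>] (0 : ℝ), ∀ ν j k, ESide c (pos ν) j k → ∃ x, InB c x ∧
      dist x (cen c (pos ν) ε) = 1 ∧ dist x (c j) = 1 ∧ dist x (c k) = 1 := by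
    simp only [eventually_all]
    exact fun ν j k h => corner hs (ev ν) h
  have C : ∀ᶠ ε in 𝓝[>] (0 : ℝ), ∀ ν j k, ESide c (pos ν) j k → ∀ y, InB c y →
      1 ≤ dist y (cen c (pos ν) ε) → 0 < d3 (cen c (pos ν) ε - y) (c j - y) (c k - y) := by
    rw [eventually_all]
    intro ν
    rw [eventually_all]
    intro j
    rw [eventually_all]
    intro k
    rw [eventually_all]
    exact fun h => near hs (ev ν) (det_pos (ev ν) h)
  have D : ∀ᶠ ε in 𝓝[>] (0 : ℝ), ∀ ν y, InB c y → 1 ≤ dist y (cen c (pos ν) ε) → y ≠ pos ν →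
      ∀ j k, j ≠ k → InB c y → dist y (c j) = 1 → dist y (c k) = 1 →
        ESide c (pos ν) j k ∨ ESide c (pos ν) k j := by
    rw [eventually_all]
    exact fun ν => near' hs (ev ν) (eventually_nhdsWithin_iff.1 (h3 ι c _ hs.priv (ev ν)))
  filter_upwards [A, B, C, D, self_mem_nhdsWithin] with ε A B C D h0
  have h0 : 0 < ε := h0
  have tl : ∀ j, trunc c pos ε (Sum.inl j) = c j := fun _ => rfl
  have tr : ∀ ν, trunc c pos ε (Sum.inr ν) = cen c (pos ν) ε := fun _ => rfl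
  constructor
  · intro a b d hF
    obtain ⟨ν, j, k, h, r⟩ := (hT a b d).1 hF
    obtain ⟨x, hx, x1, x2, x3⟩ := B ν j k h
    have hin : InB (trunc c pos ε) x := by
      rintro (l | μ)
      · exact hx l
      · by_cases e : ν = μ
        · exact e ▸ x1.le
        · exact (A ν μ e x hx x1.ge).le
    rcases r with ⟨rfl, rfl, rfl⟩ | ⟨rfl, rfl, rfl⟩ | ⟨rfl, rfl, rfl⟩
    exacts [⟨x, hin, x1, x2, x3⟩, ⟨x, hin, x2, x3, x1⟩, ⟨x, hin, x3, x1, x2⟩]
  · intro x a b d hx ab bd ad ha hb hd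
    have hc : InB c x := fun l => hx (Sum.inl l)
    have nv : ∀ ν, x ≠ pos ν := by
      rintro ν rfl
      have := hx (Sum.inr ν)
      rw [tr, dist_cen (key hs (ev ν)).1 h0] at this
      linarith
    have old : ∀ i j k, dist x (trunc c pos ε (Sum.inl i)) = 1 →
        dist x (trunc c pos ε (Sum.inl j)) = 1 → dist x (trunc c pos ε (Sum.inl k)) = 1 →
        i = j ∨ j = k ∨ i = k := by
      intro i j k hi hj hk
      by_contra h
      simp only [not_or] at h
      obtain ⟨ν, e⟩ := (hpos x).1 ⟨hc, i, j, k, h.1, h.2.1, h.2.2, hi, hj, hk⟩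
      exact nv ν e.symm
    have new : ∀ ν μ, dist x (trunc c pos ε (Sum.inr ν)) = 1 →
        dist x (trunc c pos ε (Sum.inr μ)) = 1 → ν = μ := by
      intro ν μ h1 h2
      by_contra e
      exact (A ν μ e x hc h1.ge).ne h2
    have ori : ∀ ν j k, (Sum.inl j : ι ⊕ κ) ≠ Sum.inl k →
        dist x (trunc c pos ε (Sum.inr ν)) = 1 → dist x (trunc c pos ε (Sum.inl j)) = 1 →
        dist x (trunc c pos ε (Sum.inl k)) = 1 →
        Ori T (fun i => trunc c pos ε i - x) (Sum.inr ν) (Sum.inl j) (Sum.inl k) := by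
      intro ν j k jk h1 hj hk
      rcases D ν x hc h1.ge (nv ν) j k (fun e => jk (congrArg _ e)) hc hj hk with h | h
      · exact Or.inl ⟨(hT _ _ _).2 ⟨ν, j, k, h, Or.inl ⟨rfl, rfl, rfl⟩⟩, C ν j k h x hc h1.ge⟩
      · exact Ori.swap
          (Or.inl ⟨(hT _ _ _).2 ⟨ν, k, j, h, Or.inl ⟨rfl, rfl, rfl⟩⟩, C ν k j h x hc h1.ge⟩)
    refine ⟨fun l hl => ?_, ?_⟩
    · clear ori A B C D
      rcases a with a | a <;> rcases b with b | b <;> rcases d with d | d <;>
        rcases l with l | l <;> grind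
    · change Ori T (fun i => trunc c pos ε i - x) a b d
      rcases a with a | a <;> rcases b with b | b <;> rcases d with d | d
      · grind
      · exact (ori d a b ab hd ha hb).cyc
      · exact (ori b d a ad.symm hb hd ha).cyc.cyc
      · grind
      · exact ori a b d bd ha hb hd
      · grind
      · grind
      · grind

end Pool.Agent.Lib.MP_34b931_co.G
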