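import Pool.Agent.Lib.MP_34b931_co.H22Vert2

/-! No touching vertex from which all facets are invisible. -/

namespace Pool.Agent.Lib.MP_34b931_co.G

open Filter Topology

namespace Vert

variable {ι : Type}

/-- The break points around the vertex `j`, with the cyclic successor. -/
theorem exists_cycle [Fintype ι] (T : Tri ι) (j : ι) (n : ℕ) :
    ∃ (K : Type) (_ : Fintype K) (σ : Equiv.Perm K) (a b : K → ι) (i : K → ℕ),
      (∀ k, T.F j (a k) (b k)) ∧ (∀ k, i k ≤ n) ∧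
      (∀ k, (i (σ k) = i k + 1 ∧ a (σ k) = a k ∧ b (σ k) = b k) ∨
        (i k = n ∧ i (σ k) = 0 ∧ a (σ k) = b k)) ∧
      (∀ k l, a k = a l → i k = i l → k = l) ∧ ∃ k, i k = n := by
  classical
  have h0 : ∀ a : {a // T.adj j a}, ∃ b : {a // T.adj j a}, T.F j a b := fun a =>
    let ⟨b, hb⟩ := a.2; ⟨⟨b, Tri.adj13 hb⟩, hb⟩
  choose nx hnx using h0
  have h1 : Function.Injective nx := fun a a' e =>
    Subtype.ext (T.uniq (Tri.cyc2 (hnx a)) (e ▸ Tri.cyc2 (hnx a')))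
  let e := Equiv.ofBijective nx (Finite.injective_iff_bijective.1 h1)
  obtain ⟨a₁, b₁, k₁⟩ := T.cover j
  refine ⟨Fin (n + 1) × {a // T.adj j a}, Fintype.ofFinite _,
    Equiv.prodShear (finRotate (n + 1)) fun i => if i = Fin.last n then e else Equiv.refl _,
    fun k => k.2, fun k => nx k.2, fun k => k.1, fun k => hnx _, fun k => Nat.le_of_lt_succ k.1.2,
    fun k => ?_, fun k l h h' => Prod.ext (Fin.ext h') (Subtype.ext h),
    ⟨(Fin.last n, ⟨a₁, b₁, k₁⟩), rfl⟩⟩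
  by_cases h : k.1 = Fin.last n
  · right
    simp [h, e, Equiv.prodShear]
  · left
    have := coe_finRotate_of_ne_last h
    simp only [finRotate_apply] at this
    simp [h, Equiv.prodShear, this]

theorem rot_face {T : Tri ι} {l : ι → ℝ} (h : l ∈ T.cone) {j : ι} (hj : l j ≠ 0) :
    ∃ p q, T.F j p q ∧ In j p q l := by
  obtain ⟨h0, a, b, c, k, h1⟩ := h
  rcases h1 j hj with rfl | rfl | rfl
  · exact ⟨_, _, k, h0, h1⟩
  · exact ⟨_, _, T.cyc k, h0, fun i hi => by have := h1 i hi; tauto⟩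
  · exact ⟨_, _, Tri.cyc2 k, h0, fun i hi => by have := h1 i hi; tauto⟩

theorem cmp {α β α' β' s s' t t' : ℝ} (a : 0 < α) (b : 0 < β) (b' : 0 < β')
    (h1 : s < s') (h2 : s' ≤ t) (h3 : t < t') (e : α + β = α' + β') :
    α * s + β * s' ≠ α' * t + β' * t' := by
  have := mul_lt_mul_of_pos_left h1 a
  have := mul_lt_mul_of_pos_left h3 b'
  have := mul_le_mul_of_nonneg_left h2 (add_pos a b).le
  have : (α + β) * t = (α' + β') * t := by rw [e]
  intro h
  linarith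

variable [DecidableEq ι]

/-- A point near the vertex `j` in the face `jab`. -/
def Y (j : ι) (r : ℝ) (a b : ι) (s : ℝ) : ι → ℝ :=
  Pi.single j 1 + (r * (1 - s)) • Pi.single a 1 + (r * s) • Pi.single b 1

theorem Y_in {j a b : ι} {r s : ℝ} (hr : 0 < r) (hs : s ∈ Set.Icc (0 : ℝ) 1) :
    In j a b (Y j r a b s) :=
  ((In.single (by simp)).add ((In.single (by simp)).smul
    (mul_nonneg hr.le (sub_nonneg.2 hs.2)))).add
    ((In.single (by simp)).smul (mul_nonneg hr.le hs.1))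

theorem Y_one (j a b c : ι) (r : ℝ) : Y j r a b 1 = Y j r b c 0 := by simp [Y]

theorem Y_comb (j a b : ι) (r : ℝ) {s t w : ℝ} (h : s < t) : Y j r a b w =
    ((t - w) / (t - s)) • Y j r a b s + ((w - s) / (t - s)) • Y j r a b t +
      (0 : ℝ) • (Pi.single j 1 : ι → ℝ) := by
  have := (sub_pos.2 h).ne'
  funext i
  simp only [Y, Pi.add_apply, Pi.smul_apply, smul_eq_mul]
  field_simp
  ring

theorem Y_cont (j a b : ι) (r : ℝ) : Continuous (Y j r a b) := by
  unfold Y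
  fun_prop

variable [Fintype ι]

theorem Y_nf (u : ι → E4) (j a b : ι) (r s : ℝ) : nf (u j) (R u (Y j r a b s)) =
    (r * (1 - s)) • nf (u j) (u a) + (r * s) • nf (u j) (u b) := by
  simp only [Y, map_add, map_smul, R_single, nf_self, zero_add]

theorem near {T : Tri ι} {j : ι} {P : (ι → ℝ) → Prop}
    (h : ∀ᶠ l in 𝓝[T.cone] (Pi.single j 1), P l) :
    ∃ r, 0 < r ∧ ∀ a b, T.F j a b → ∀ s ∈ Set.Icc (0 : ℝ) 1, P (Y j r a b s) := by
  obtain ⟨δ, hδ, h⟩ := Metric.mem_nhdsWithin_iff.1 h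
  have hr := half_pos hδ
  refine ⟨δ / 2, hr, fun a b k s hs => h ⟨?_, (Y_in hr hs).cone k⟩⟩
  rw [mem_ball_iff_norm, Y, add_assoc, add_sub_cancel_left]
  refine (norm_add_le _ _).trans_lt ?_
  rw [norm_smul, norm_smul, Pi.norm_single, Pi.norm_single, NormOneClass.norm_one,
    Real.norm_of_nonneg (mul_nonneg hr.le (sub_nonneg.2 hs.2)),
    Real.norm_of_nonneg (mul_nonneg hr.le hs.1)]
  linarith

/-- The pair of points is mapped isometrically into one face at `j`. -/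
def Q (u u' : ι → E4) (T' : Tri ι) (f : (ι → ℝ) → ι → ℝ) (j : ι) (x y : ι → ℝ) : Prop :=
  inner ℝ (R u' (f x)) (R u' (f y)) = inner ℝ (R u x) (R u y) ∧
    ∃ p q, T'.F j p q ∧ In j p q (f x) ∧ In j p q (f y)

variable {u u' : ι → E4} {T T' : Tri ι} {f : (ι → ℝ) → ι → ℝ} {j : ι}

theorem Q.lin (hV : StVis) (h : Reg 0 u T) (h' : Reg 0 u' T')
    (hf : Iso1 T (gm 0 u) T' (gm 0 u') f) {a b : ι} (k : T.F j a b) {x y : ι → ℝ}
    (hx : In j a b x) (hy : In j a b y) (hQ : Q u u' T' f j x y)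
    (ex : inner ℝ (R u' (f x)) (u' j) = inner ℝ (R u x) (u j))
    (ey : inner ℝ (R u' (f y)) (u' j) = inner ℝ (R u y) (u j))
    {s t w : ℝ} (hs : 0 ≤ s) (ht : 0 ≤ t) (hw : 0 ≤ w) :
    f (s • x + t • y + w • (Pi.single j 1 : ι → ℝ)) =
      s • f x + t • f y + w • (Pi.single j 1 : ι → ℝ) := by
  obtain ⟨e, p, q, k', hx', hy'⟩ := hQ
  have := seg hV h h' hf k k' hx hy (z := Pi.single j 1) (.single (by simp)) hx' hy'
    (by rw [hf.vert]; exact .single (by simp)) e (by rwa [hf.vert, R_single, R_single])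
    (by rwa [hf.vert, R_single, R_single]) hs ht hw
  rwa [hf.vert] at this

theorem breaks (hV : StVis) (h : Reg 0 u T) (h' : Reg 0 u' T')
    (hf : Iso1 T (gm 0 u) T' (gm 0 u') f) (j : ι) : ∃ (r : ℝ) (n : ℕ) (c : ℕ → ℝ), 0 < r ∧
      (∀ a b, T.F j a b → ∀ s ∈ Set.Icc (0 : ℝ) 1,
        inner ℝ (R u' (f (Y j r a b s))) (u' j) = inner ℝ (R u (Y j r a b s)) (u j)) ∧
      c 0 = 0 ∧ c (n + 1) = 1 ∧ ∀ i ≤ n, c i < c (i + 1) ∧
        ∀ a b, T.F j a b → Q u u' T' f j (Y j r a b (c i)) (Y j r a b (c (i + 1))) := by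
  obtain ⟨a₁, b₁, k₁⟩ := T.cover j
  have hj : (Pi.single j 1 : ι → ℝ) ∈ T.cone := (In.single (by simp)).cone k₁
  have e1 : ∀ᶠ l in 𝓝[T.cone] (Pi.single j 1), 0 < f l j :=
    ((continuous_apply j).continuousAt.tendsto.comp (hf.cont _ hj)).eventually
      (lt_mem_nhds (by simp [hf.vert]))
  obtain ⟨r, hr, hP⟩ := near ((hf.f1 _ hj).and e1)
  simp only [hf.vert, ip_eq, R_single] at hP
  refine ⟨r, (chain
    (fun s t => ∀ a b, T.F j a b → Q u u' T' f j (Y j r a b s) (Y j r a b t))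
    (fun s t hQ a b k => let ⟨e, p, q, k', x, y⟩ := hQ a b k
      ⟨by rw [real_inner_comm, e, real_inner_comm], p, q, k', y, x⟩)
    (fun s hs => eventually_all.2 fun a => eventually_all.2 fun b => ?_)
    fun s t w h0 h1 h2 h3 hQ a b k => ?_).imp fun n => Exists.imp fun c hc =>
      ⟨hr, fun a b k s hs => (hP a b k s hs).1, hc⟩⟩
  · by_cases k : T.F j a b
    swap
    · exact .of_forall fun _ k' => absurd k' k
    have hy := (Y_in hr hs).cone k
    have hT : Tendsto (Y j r a b) (𝓝[Set.Icc 0 1] s) (𝓝[T.cone] Y j r a b s) :=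
      (Y_cont j a b r).continuousWithinAt.tendsto_nhdsWithin fun t ht => (Y_in hr ht).cone k
    have e2 : ∀ᶠ l in 𝓝[T.cone] Y j r a b s, ∀ i, f (Y j r a b s) i ≠ 0 → f l i ≠ 0 :=
      eventually_all.2 fun i => eventually_imp_distrib_left.2 fun hi =>
        ((continuous_apply i).continuousAt.tendsto.comp (hf.cont _ hy)).eventually_ne hi
    filter_upwards [hT.eventually (hf.f1 _ hy), hT.eventually e2, self_mem_nhdsWithin]
      with t e3 e4 ht _
    rw [ip_eq, ip_eq] at e3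
    obtain ⟨p, q, k', hi⟩ := rot_face (hf.maps ((Y_in hr ht).cone k)) (hP a b k t ht).2.ne'
    exact ⟨by rw [real_inner_comm, e3, real_inner_comm], p, q, k',
      ⟨(hf.maps hy).1, fun i h => hi.2 i (e4 i h)⟩, hi⟩
  · have hst := h1.trans_le h2
    have hs : s ∈ Set.Icc (0 : ℝ) 1 := ⟨h0, hst.le.trans h3⟩
    have ht : t ∈ Set.Icc (0 : ℝ) 1 := ⟨h0.trans hst.le, h3⟩
    have p1 : 0 ≤ (t - w) / (t - s) := div_nonneg (sub_nonneg.2 h2) (sub_nonneg.2 hst.le)
    have p2 : 0 ≤ (w - s) / (t - s) := div_nonneg (sub_nonneg.2 h1.le) (sub_nonneg.2 hst.le)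
    have e := (hQ a b k).lin hV h h' hf k (Y_in hr hs) (Y_in hr ht) (hP a b k s hs).1
      (hP a b k t ht).1 p1 p2 le_rfl
    obtain ⟨e', p, q, k', x, y⟩ := hQ a b k
    rw [Y_comb j a b r hst (w := w), Q, e]
    refine ⟨?_, p, q, k', x, ((x.smul p1).add (y.smul p2)).add
      ((In.single (by simp)).smul le_rfl)⟩
    simp only [map_add, map_smul, inner_add_right, real_inner_smul_right, e', zero_mul,
      nrm hf ((Y_in hr hs).cone k)]

omit [Fintype ι] in
/-- Two pieces of the broken path with a common inner ray are the same piece. -/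
theorem disj {r : ℝ} (hr : 0 < r) {a b a' b' : ι} (k : T.F j a b) (k' : T.F j a' b')
    {s s' t t' α β α' β' γ γ' : ℝ} (s0 : 0 ≤ s) (ss : s < s') (s1 : s' ≤ 1)
    (pa : 0 < α) (pb : 0 < β)
    (e : α • Y j r a b s + β • Y j r a b s' + γ • (Pi.single j 1 : ι → ℝ) =
      α' • Y j r a' b' t + β' • Y j r a' b' t' + γ' • (Pi.single j 1 : ι → ℝ)) :
    a = a' ∧ α + β = α' + β' ∧ α * s + β * s' = α' * t + β' * t' := by
  have n1 := (T.ne k).symm
  have n2 := (Tri.ne13 k).symm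
  have n3 := Tri.ne23 k
  have ea := congrFun e a
  have eb := congrFun e b
  simp only [Y, Pi.add_apply, Pi.smul_apply, smul_eq_mul, Pi.single_apply, n1, n2, n3, n3.symm,
    if_true, if_false, mul_zero, mul_one, zero_add, add_zero] at ea eb
  have pa' : 0 < α * (r * (1 - s)) + β * (r * (1 - s')) := by
    have : 0 < 1 - s := by linarith
    have : 0 ≤ 1 - s' := by linarith
    positivity
  have pb' : 0 < α * (r * s) + β * (r * s') := by
    have : 0 < s' := by linarith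
    positivity
  have h1 : a = a' ∨ a = b' := by
    by_contra! h
    simp [h.1, h.2] at ea
    exact pa'.ne' ea
  have h2 : b = a' ∨ b = b' := by
    by_contra! h
    simp [h.1, h.2] at eb
    exact pb'.ne' eb
  have h3 : a = a' := by
    refine h1.resolve_right fun h => ?_
    subst h
    obtain rfl := h2.resolve_right n3.symm
    exact T.nrev k k'
  subst h3
  obtain rfl := T.uniq k k'
  simp only [n3, n3.symm, if_true, if_false, mul_zero, mul_one, zero_add, add_zero] at ea eb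
  have e1 : α * s + β * s' = α' * t + β' * t' := mul_left_cancel₀ hr.ne' (by linarith)
  exact ⟨rfl, mul_left_cancel₀ hr.ne' (by linarith), e1⟩

/-- The direction on the second cone. -/
theorem exists_A (hM : StMirror) (h' : Reg 0 u' T') {a₀ : ι} (ja : j ≠ a₀) {N : ℝ}
    (hN : ‖nf (u' j) (u' a₀)‖ < N) : ∃ B : E3, ‖nf (u' j) (u' a₀) + B‖ = N ∧
      (∀ i, i ≠ j → 0 < inner ℝ (nf (u' j) (u' i)) B) ∧ ∀ p q, T'.F j p q →
        0 < d3 (nf (u' j) (u' p)) (nf (u' j) (u' q)) (nf (u' j) (u' a₀) + B) := by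
  have un := h'.good.un j
  obtain ⟨z, z0, z1⟩ := (hM ι 0 u' T' h').1 j
  have : Nonempty {i // i ≠ j} := ⟨⟨a₀, ja.symm⟩⟩
  obtain ⟨b, b1, b2⟩ := exists_dir (fun i : {i // i ≠ j} => nf (u' j) (u' i)) (nf (u' j) z)
    fun i => by rw [nf_inner un, z0, zero_mul, sub_zero]; exact z1 _ i.2
  obtain ⟨s, hs, e⟩ := exists_len (b := b)
    (fun e => by simpa [e] using b1 ⟨a₀, ja.symm⟩) hN
  refine ⟨_, e, fun i hi => ?_, fun p q k => ?_⟩
  · rw [real_inner_smul_right, real_inner_comm]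
    exact mul_pos hs (b1 ⟨i, hi⟩)
  · obtain ⟨d, k'⟩ := T'.twin k
    obtain ⟨-, f1, f2⟩ := facet h' k
    rw [d3_add, d3_smul3, nf_d3 un, ← inner_cr3]
    refine add_pos_of_nonneg_of_pos (f1 _) (mul_pos hs (b2 _ (fun i => ?_)
      ⟨⟨d, (Tri.ne23 k').symm⟩, ?_⟩)) <;> rw [inner_cr3, nf_d3 un]
    · exact f1 _
    · exact f2 _ (Tri.ne23 k').symm (Tri.ne13 k').symm (Tri.twin_ne k k')

end Vert

open Vert in
theorem stVert (hLL : StLL) (hV : StVis) (_hT : StType) (hM : StMirror) : StVert := by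
  intro ι _ _ u u' T T' f g a₀ j o h h' hf gf ja ho hq hle hpos
  have un := h.good.un j
  have un' := h'.good.un j
  obtain ⟨r, n, c, hr, hj, c0, c1, hc⟩ := breaks hV h h' hf j
  obtain ⟨K, _, σ, a, b, i, hF, hi, hσ, hinj, k₀, hk₀⟩ := exists_cycle T j n
  have mono : ∀ x y, x ≤ y → y ≤ n + 1 → c x ≤ c y := fun x y hxy hy => by
    induction y, hxy using Nat.le_induction with
    | base => exact le_rfl
    | succ y _ ih => exact (ih (by omega)).trans (hc y (by omega)).1.le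
  have cI : ∀ x ≤ n + 1, c x ∈ Set.Icc (0 : ℝ) 1 := fun x hx =>
    ⟨c0 ▸ mono 0 x (Nat.zero_le x) hx, c1 ▸ mono x _ hx le_rfl⟩
  have I0 : ∀ k, c (i k) ∈ Set.Icc (0 : ℝ) 1 := fun k => cI _ ((hi k).trans (Nat.le_succ n))
  have I1 : ∀ k, c (i k + 1) ∈ Set.Icc (0 : ℝ) 1 := fun k => cI _ (Nat.succ_le_succ (hi k))
  have lt : ∀ k, c (i k) < c (i k + 1) := fun k => (hc _ (hi k)).1
  obtain ⟨y, hy⟩ : ∃ y : K → ι → ℝ, ∀ k, y k = Y j r (a k) (b k) (c (i k)) := ⟨_, fun _ => rfl⟩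
  have hy' : ∀ k, y (σ k) = Y j r (a k) (b k) (c (i k + 1)) := fun k => by
    rcases hσ k with ⟨e1, e2, e3⟩ | ⟨e1, e2, e3⟩
    · rw [hy, e1, e2, e3]
    · rw [hy, e1, e2, e3, c0, c1, Y_one]
  have y0 : ∀ k, In j (a k) (b k) (y k) := fun k => hy k ▸ Y_in hr (I0 k)
  have y1 : ∀ k, In j (a k) (b k) (y (σ k)) := fun k => hy' k ▸ Y_in hr (I1 k)
  have yc : ∀ k, y k ∈ T.cone := fun k => (y0 k).cone (hF k)
  have yj : ∀ k, inner ℝ (R u' (f (y k))) (u' j) = inner ℝ (R u (y k)) (u j) := fun k =>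
    hy k ▸ hj _ _ (hF k) _ (I0 k)
  have yQ : ∀ k, Q u u' T' f j (y k) (y (σ k)) := fun k => by
    rw [hy', hy]
    exact (hc _ (hi k)).2 _ _ (hF k)
  have hN : ‖nf (u' j) (u' a₀)‖ < ‖nf (u j) o‖ := by
    refine lt_of_pow_lt_pow_left₀ 2 (norm_nonneg _) ?_
    rw [← real_inner_self_eq_norm_sq, ← real_inner_self_eq_norm_sq, nf_inner un, nf_inner un',
      real_inner_comm (u j), hq, real_inner_comm (u' j), real_inner_self_eq_norm_sq,
      real_inner_self_eq_norm_sq, h'.good.un a₀]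
    nlinarith
  obtain ⟨B, nB, pB, dB⟩ := exists_A hM h' ja hN
  obtain ⟨X, hX⟩ : ∃ X : K → E3, ∀ k, X k = nf (u j) (R u (y k)) := ⟨_, fun _ => rfl⟩
  obtain ⟨X', hX'⟩ : ∃ X : K → E3, ∀ k, X k = nf (u' j) (R u' (f (y k))) := ⟨_, fun _ => rfl⟩
  have n0 : ∀ k, inner ℝ (X' k) (X' k) = inner ℝ (X k) (X k) := fun k => by
    rw [hX, hX', nf_inner un, nf_inner un', yj, nrm hf (yc k)]
  have n1 : ∀ k, ‖X' k‖ = ‖X k‖ := fun k => by
    rw [norm_eq_sqrt_real_inner, n0, ← norm_eq_sqrt_real_inner]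
  have h1 : ∀ k, inner ℝ (X k) (X (σ k)) = inner ℝ (X' k) (X' (σ k)) := fun k => by
    rw [hX, hX, hX', hX', nf_inner un, nf_inner un', yj, yj, (yQ k).1]
  have hD : ∀ k, ∃ D, 0 < D ∧ ∀ w, d3 (X k) (X (σ k)) w =
      D * d3 (nf (u j) (u (a k))) (nf (u j) (u (b k))) w := fun k =>
    ⟨r ^ 2 * (c (i k + 1) - c (i k)), mul_pos (pow_pos hr 2) (sub_pos.2 (lt k)), fun w => by
      rw [hX, hX, hy', hy, Y_nf, Y_nf, d3_comb]; ring⟩
  have h2 : ∀ k, 0 < d3 (X k) (X (σ k)) (nf (u j) o) := fun k => by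
    obtain ⟨D, p, e⟩ := hD k
    rw [e, nf_d3 un]
    exact mul_pos p (hpos _ _ (hF k))
  choose p q hF' x0 x1 using fun k => (yQ k).2
  have f0 : ∀ k, X' k = _ := fun k => (hX' k).trans (nf_face (hF' k) (x0 k) u')
  have f1 : ∀ k, X' (σ k) = _ := fun k => (hX' _).trans (nf_face (hF' k) (x1 k) u')
  have hD' : ∀ k, f (y k) (p k) * f (y (σ k)) (q k) - f (y k) (q k) * f (y (σ k)) (p k) ≠ 0 :=
    fun k e => by
      have e1 : cr3 (X' k) (X' (σ k)) = 0 := by
        rw [← inner_self_eq_zero (𝕜 := ℝ), inner_cr3, f1, f0, d3_comb, e, zero_mul]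
      have e2 := norm_cr3 (X' k) (X' (σ k))
      rw [e1, n1, n1, ← h1, ← norm_cr3, norm_zero, zero_pow two_ne_zero, eq_comm,
        pow_eq_zero_iff two_ne_zero, norm_eq_zero] at e2
      have := h2 k
      rw [← inner_cr3, e2, inner_zero_left] at this
      exact lt_irrefl _ this
  have g0 : ∀ k l, 0 ≤ d3 (nf (u' j) (u' (p k))) (nf (u' j) (u' (q k))) (X' l) := fun k l =>
    hX' l ▸ d3_R h' (hF' k) (hf.maps (yc l)).1
  refine ll hLL σ X X' (nf (u j) o) (nf (u' j) (u' a₀) + B) n1 nB h1 h2 (fun k l => ?_) ⟨k₀, ?_⟩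
    (fun k => ?_) (fun k l => ?_) (fun k l hkl α β α' β' γ pa pb pa' pb' e => hkl ?_) fun k => ?_
  · obtain ⟨D, p, e⟩ := hD k
    rw [e, hX]
    exact mul_nonneg p.le (d3_R h (hF k) (y0 l).1)
  · obtain ⟨D, p, e⟩ := hD k₀
    obtain ⟨-, e2, e3⟩ := (hσ k₀).resolve_left fun h => by have := hi (σ k₀); omega
    have k' := hF (σ k₀)
    have p' := lt (σ k₀)
    rw [e, hX, hy', Y_nf, e3, d3_add, d3_smul3, d3_smul3, d3_self23, nf_d3 un, mul_zero, zero_add]
    rw [e3] at k'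
    rw [e2, c0] at p'
    rw [e2]
    exact mul_pos p (mul_pos (mul_pos hr p') ((facet h (hF k₀)).2.2 _ (Tri.ne13 k').symm
      (fun e => T.nrev (hF k₀) (e ▸ k')) (Tri.ne23 k').symm))
  · rw [f1, f0, d3_comb]
    exact mul_ne_zero (hD' k) (dB _ _ (hF' k)).ne'
  · rw [f1, f0 k, d3_comb, d3_comb, mul_mul_mul_comm]
    exact mul_nonneg (mul_self_nonneg _) (mul_nonneg (g0 k l) (dB _ _ (hF' k)).le)
  · have z0 : ∀ k, d3 (nf (u' j) (u' (p k))) (nf (u' j) (u' (q k))) (X' k) = 0 := fun k => by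
      rw [f0, d3_span]
    have z1 : ∀ k, d3 (nf (u' j) (u' (p k))) (nf (u' j) (u' (q k))) (X' (σ k)) = 0 := fun k => by
      rw [f1, d3_span]
    have ek := congrArg (d3 (nf (u' j) (u' (p k))) (nf (u' j) (u' (q k)))) e
    have el := congrArg (d3 (nf (u' j) (u' (p l))) (nf (u' j) (u' (q l)))) e
    rw [d3_add, d3_add, d3_add] at ek el
    simp only [d3_smul3, z0, z1, mul_zero, add_zero, zero_add] at ek el
    have g1 : γ ≤ 0 := nonpos_of_mul_nonpos_left (b := _) (by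
      linarith [mul_nonneg pa'.le (g0 k l), mul_nonneg pb'.le (g0 k (σ l))]) (dB _ _ (hF' k))
    have g2 : 0 ≤ γ := nonneg_of_mul_nonneg_left (b := _) (by
      linarith [mul_nonneg pa.le (g0 l k), mul_nonneg pb.le (g0 l (σ k))]) (dB _ _ (hF' l))
    rw [le_antisymm g1 g2, zero_smul, add_zero, ← sub_eq_zero] at e
    simp only [hX', ← map_smul, ← map_add, ← map_sub] at e
    obtain ⟨t, ht⟩ : ∃ t : ℝ, _ = t • u' j := ⟨_, nf_ker un' e⟩
    have m1 := (yQ k).lin hV h h' hf (hF k) (y0 k) (y1 k) (yj _) (yj _) pa.le pb.le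
      (le_max_right (-t) 0)
    have m2 := (yQ l).lin hV h h' hf (hF l) (y0 l) (y1 l) (yj _) (yj _) pa'.le pb'.le
      (le_max_right t 0)
    have i1 := ((((y0 k).smul pa.le).add ((y1 k).smul pb.le)).add
      ((In.single (i := j) (by simp)).smul (le_max_right (-t) 0))).cone (hF k)
    have i2 := ((((y0 l).smul pa'.le).add ((y1 l).smul pb'.le)).add
      ((In.single (i := j) (by simp)).smul (le_max_right t 0))).cone (hF l)
    have e1 := R_inj hV h' (hf.maps i1) (hf.maps i2) (by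
      rw [m1, m2, map_add, map_add (R u') (_ + _), map_smul, map_smul, R_single,
        ← sub_eq_iff_eq_add', add_sub_right_comm, ← map_sub, ht, ← add_smul]
      congr 1
      rcases le_total t 0 with h | h <;> simp [h])
    have e2 := congrArg g e1
    rw [gf _ i1, gf _ i2, hy', hy', hy, hy] at e2
    obtain ⟨e3, e4, e5⟩ := disj hr (hF k) (hF l) (I0 k).1 (lt k) (I1 k).2 pa pb e2
    refine hinj k l e3 (le_antisymm (not_lt.1 fun h => ?_) (not_lt.1 fun h => ?_))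
    · exact cmp pa' pb' pb (lt l) (mono _ _ h ((hi k).trans (Nat.le_succ n))) (lt k) e4.symm e5.symm
    · exact cmp pa pb pb' (lt k) (mono _ _ h ((hi l).trans (Nat.le_succ n))) (lt l) e4 e5
  · have : 0 < inner ℝ (X' k) B := by
      have s1 := pB _ (T'.ne (hF' k)).symm
      have s2 := pB _ (Tri.ne13 (hF' k)).symm
      rw [f0, inner_add_left, real_inner_smul_left, real_inner_smul_left]
      rcases ((x0 k).1 (p k)).eq_or_lt with e | e
      · rcases ((x0 k).1 (q k)).eq_or_lt with e' | e'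
        · exact absurd (by rw [← e, ← e']; ring) (hD' k)
        · exact add_pos_of_nonneg_of_pos (mul_nonneg e.le s1.le) (mul_pos e' s2)
      · exact add_pos_of_pos_of_nonneg (mul_pos e s1) (mul_nonneg ((x0 k).1 _) s2.le)
    have := hle _ (yc k)
    rw [← Vert.R_apply, ← Vert.R_apply] at this
    rw [inner_add_right, hX, nf_inner un, hX', nf_inner un', yj, real_inner_comm (u j) o,
      hq, real_inner_comm (u' j) (u' a₀), ← hX']
    linarith

end Pool.Agent.Lib.MP_34b931_co.G
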