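import Pool.Agent.Lib.MP_34b931_co.H22Tri

/-! Tools for the vertex step: the vertex lemma without normalisation, chains, facets. -/

namespace Pool.Agent.Lib.MP_34b931_co.G.Vert

open Filter Topology

theorem d3_smul (a b c : ℝ) (x y z : E3) : d3 (a • x) (b • y) (c • z) = a * b * c * d3 x y z := by
  simp [d3]; ring

theorem d3_comb (a b c d : ℝ) (x y z : E3) :
    d3 (a • x + b • y) (c • x + d • y) z = (a * d - b * c) * d3 x y z := by
  simp [d3]; ring

theorem d3_span (a b : ℝ) (x y : E3) : d3 x y (a • x + b • y) = 0 := by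
  simp [d3]; ring

theorem d3_add (x y z w : E3) : d3 x y (z + w) = d3 x y z + d3 x y w := by
  simp [d3]; ring

theorem d3_smul3 (c : ℝ) (x y z : E3) : d3 x y (c • z) = c * d3 x y z := by
  simp [d3]; ring

/-- The vertex lemma for vectors that are not normalised. -/
theorem ll (hLL : StLL) {K : Type} [Fintype K] (σ : Equiv.Perm K) (X X' : K → E3) (A A' : E3)
    (n1 : ∀ k, ‖X' k‖ = ‖X k‖) (n2 : ‖A'‖ = ‖A‖)
    (h1 : ∀ k, inner ℝ (X k) (X (σ k)) = inner ℝ (X' k) (X' (σ k)))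
    (h2 : ∀ k, 0 < d3 (X k) (X (σ k)) A) (h3 : ∀ k l, 0 ≤ d3 (X k) (X (σ k)) (X l))
    (h4 : ∃ k, 0 < d3 (X k) (X (σ k)) (X (σ (σ k))))
    (h5 : ∀ k, d3 (X' k) (X' (σ k)) A' ≠ 0)
    (h6 : ∀ k l, 0 ≤ d3 (X' k) (X' (σ k)) (X' l) * d3 (X' k) (X' (σ k)) A')
    (h7 : ∀ k l, k ≠ l → ∀ α β α' β' γ : ℝ, 0 < α → 0 < β → 0 < α' → 0 < β' →
      α • X' k + β • X' (σ k) ≠ α' • X' l + β' • X' (σ l) + γ • A') :
    ¬ ∀ k, inner ℝ (X k) A < inner ℝ (X' k) A' := by
  intro h
  have p : ∀ k, 0 < ‖X k‖ := fun k => norm_pos_iff.2 fun e => by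
    have := h2 k
    rw [e] at this
    simp [d3] at this
  have pA : 0 < ‖A‖ := norm_pos_iff.2 fun e => by
    obtain ⟨k, -⟩ := h4
    have := h2 k
    rw [e] at this
    simp [d3] at this
  refine hLL K σ (fun k => ‖X k‖⁻¹ • X k) (fun k => ‖X k‖⁻¹ • X' k) (‖A‖⁻¹ • A) (‖A‖⁻¹ • A')
    (fun k => by rw [norm_smul, norm_inv, norm_norm, inv_mul_cancel₀ (p k).ne'])
    (fun k => by rw [norm_smul, norm_inv, norm_norm, n1, inv_mul_cancel₀ (p k).ne'])
    (by rw [norm_smul, norm_inv, norm_norm, inv_mul_cancel₀ pA.ne'])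
    (by rw [norm_smul, norm_inv, norm_norm, n2, inv_mul_cancel₀ pA.ne'])
    (fun k => by simp only [real_inner_smul_left, real_inner_smul_right, h1])
    (fun k => ?_) (fun k l => ?_) (h4.imp fun k hk => ?_) (fun k => ?_) (fun k l => ?_)
    (fun k l hkl α β α' β' γ a b a' b' => ?_) fun k => ?_
  · have := p k; have := p (σ k); have := h2 k
    rw [d3_smul]; positivity
  · have := p k; have := p (σ k); have := p l; have := h3 k l
    rw [d3_smul]; positivity
  · have := p k; have := p (σ k); have := p (σ (σ k))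
    rw [d3_smul]; positivity
  · have := p k; have := p (σ k); have := h5 k
    rw [d3_smul]; positivity
  · have := p k; have := p (σ k); have := p l; have := h6 k l
    rw [d3_smul, d3_smul, mul_mul_mul_comm]; positivity
  · have := p k; have := p (σ k); have := p l; have := p (σ l)
    simp only [smul_smul]
    exact h7 k l hkl _ _ _ _ _ (by positivity) (by positivity) (by positivity) (by positivity)
  · have := p k
    simp only [real_inner_smul_left, real_inner_smul_right]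
    have := h k
    gcongr

/-- A locally true relation that is inherited by subintervals gives a finite chain. -/
theorem chain (Q : ℝ → ℝ → Prop) (hs : ∀ s t, Q s t → Q t s)
    (hl : ∀ s ∈ Set.Icc (0 : ℝ) 1, ∀ᶠ t in 𝓝[Set.Icc 0 1] s, Q s t)
    (hi : ∀ s t w, 0 ≤ s → s < w → w ≤ t → t ≤ 1 → Q s t → Q s w) :
    ∃ (n : ℕ) (c : ℕ → ℝ), c 0 = 0 ∧ c (n + 1) = 1 ∧
      ∀ i ≤ n, c i < c (i + 1) ∧ Q (c i) (c (i + 1)) := by
  let C : ℝ → Prop := Relation.ReflTransGen (fun s t => s < t ∧ Q s t) 0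
  have h1 : C 1 := by
    refine (isPreconnected_Icc (a := (0 : ℝ)) (b := 1)).induction₂'
      (fun x y => (∀ t, 0 ≤ t → t ≤ x → C t) → ∀ t, 0 ≤ t → t ≤ y → C t) (fun x hx => ?_)
      (fun x y z _ _ _ a b c => b (a c)) (x := 0) (y := 1) (by simp) (by simp)
      (fun t h0 h1 => le_antisymm h1 h0 ▸ .refl) 1 zero_le_one le_rfl
    filter_upwards [hl x hx, self_mem_nhdsWithin] with y hQ hy
    constructor
    · intro h t h0 ht
      rcases le_or_gt t x with e | e
      · exact h t h0 e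
      · exact .tail (h x hx.1 le_rfl) ⟨e, hi x y t hx.1 e ht hy.2 hQ⟩
    · intro h t h0 ht
      rcases le_or_gt t y with e | e
      · exact h t h0 e
      · exact .tail (h y hy.1 le_rfl) ⟨e, hi y x t hy.1 e ht hx.2 (hs _ _ hQ)⟩
  have h2 : ∀ t, C t → ∃ (m : ℕ) (c : ℕ → ℝ), c 0 = 0 ∧ c m = t ∧
      ∀ i < m, c i < c (i + 1) ∧ Q (c i) (c (i + 1)) := by
    intro t ht
    induction ht with
    | refl => exact ⟨0, fun _ => 0, rfl, rfl, fun i hi => absurd hi (Nat.not_lt_zero i)⟩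
    | @tail s t _ hst ih =>
      obtain ⟨m, c, c0, cm, hc⟩ := ih
      refine ⟨m + 1, Function.update c (m + 1) t, by simpa using c0, by simp, fun i hi => ?_⟩
      rw [Function.update_of_ne hi.ne]
      rcases (Nat.lt_succ_iff.1 hi).eq_or_lt with rfl | h
      · rwa [Function.update_self, cm]
      · rw [Function.update_of_ne (by omega)]
        exact hc i h
  obtain ⟨m, c, c0, cm, hc⟩ := h2 1 h1
  cases m with
  | zero => exact absurd (c0.symm.trans cm) zero_ne_one
  | succ n => exact ⟨n, c, c0, cm, fun i hi => hc i (Nat.lt_succ_of_le hi)⟩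

/-- A vector inside the cone and inside the dual cone. -/
theorem exists_dir {I : Type} [Fintype I] [Nonempty I] (v : I → E3) (z : E3)
    (hz : ∀ i, 0 < inner ℝ z (v i)) : ∃ b : E3, (∀ i, 0 < inner ℝ b (v i)) ∧
      ∀ ξ : E3, (∀ i, 0 ≤ inner ℝ ξ (v i)) → (∃ i, 0 < inner ℝ ξ (v i)) → 0 < inner ℝ ξ b := by
  have hc := convex_convexHull ℝ (Set.range v)
  obtain ⟨b, hb, e⟩ := exists_norm_eq_iInf_of_complete_convex
    (Set.range_nonempty v).convexHull ((Set.finite_range v).isCompact_convexHull ℝ).isComplete hc 0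
  rw [norm_eq_iInf_iff_real_inner_le_zero hc hb] at e
  have h0 : b ≠ 0 := fun e0 => by
    have := convexHull_min (s := Set.range v) (t := {x | 0 < innerₛₗ ℝ z x})
      (by rintro _ ⟨i, rfl⟩; exact hz i) (convex_halfSpace_gt (innerₛₗ ℝ z).isLinear 0) hb
    simp [e0] at this
  have h1 : ∀ i, 0 < inner ℝ b (v i) := fun i => by
    have := e _ (subset_convexHull ℝ _ ⟨i, rfl⟩)
    rw [zero_sub, inner_neg_left, inner_sub_right] at this
    linarith [real_inner_self_pos.2 h0]
  have h2 : ∀ᶠ ε : ℝ in 𝓝[>] 0, ∀ i, 0 < inner ℝ (b + ε • ∑ k, v k) (v i) :=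
    nhdsWithin_le_nhds (eventually_all.2 fun i =>
      (show Continuous fun ε : ℝ => inner ℝ (b + ε • ∑ k, v k) (v i) by
        fun_prop).continuousAt.eventually (lt_mem_nhds (by simpa using h1 i)))
  obtain ⟨ε, h3, hε⟩ := (h2.and self_mem_nhdsWithin).exists
  refine ⟨_, h3, fun ξ p ⟨i, q⟩ => ?_⟩
  have h4 : 0 ≤ inner ℝ ξ b := convexHull_min (s := Set.range v) (t := {x | 0 ≤ innerₛₗ ℝ ξ x})
    (by rintro _ ⟨i, rfl⟩; exact p i) (convex_halfSpace_ge (innerₛₗ ℝ ξ).isLinear 0) hb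
  rw [inner_add_right, real_inner_smul_right, inner_sum]
  exact add_pos_of_nonneg_of_pos h4
    (mul_pos hε (Finset.sum_pos' (fun i _ => p i) ⟨i, Finset.mem_univ _, q⟩))

theorem exists_len {A b : E3} {N : ℝ} (hb : b ≠ 0) (h : ‖A‖ < N) :
    ∃ s : ℝ, 0 < s ∧ ‖A + s • b‖ = N := by
  have pb := norm_pos_iff.2 hb
  have pA := norm_nonneg A
  have hS : 0 ≤ (N + ‖A‖) / ‖b‖ := div_nonneg (by linarith) pb.le
  obtain ⟨s, hs, e⟩ := intermediate_value_Icc hS
    (show Continuous fun s : ℝ => ‖A + s • b‖ by fun_prop).continuousOn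
    (show N ∈ Set.Icc _ _ from ⟨by simpa using h.le, by
      have := norm_sub_le (A + ((N + ‖A‖) / ‖b‖) • b) A
      rw [add_sub_cancel_left, norm_smul, Real.norm_of_nonneg hS, div_mul_cancel₀ _ pb.ne'] at this
      linarith⟩)
  refine ⟨s, lt_of_le_of_ne hs.1 ?_, e⟩
  rintro rfl
  simp only [zero_smul, add_zero] at e
  exact h.ne e

/-- Minus the projection to the orthogonal complement of `x`. -/
noncomputable def nf (x : E4) : E4 →ₗ[ℝ] E3 where
  toFun v := -fr x v
  map_add' v w := by rw [fr_add, neg_add]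
  map_smul' t v := by rw [fr_smul, RingHom.id_apply, smul_neg]

theorem nf_inner {x : E4} (hx : ‖x‖ = 1) (v w : E4) : inner ℝ (nf x v) (nf x w) =
    inner ℝ v w - inner ℝ v x * inner ℝ w x := by
  rw [← fr_inner hx]
  exact inner_neg_neg _ _

theorem nf_d3 {x : E4} (hx : ‖x‖ = 1) (a b c : E4) :
    d3 (nf x a) (nf x b) (nf x c) = d4 x a b c := by
  have := d3_smul (-1) (-1) (-1) (fr x a) (fr x b) (fr x c)
  rw [fr_d3 hx, d4_rot] at this
  simp only [neg_smul, one_smul] at this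
  exact this.trans (by ring)

theorem nf_self (x : E4) : nf x x = 0 := neg_eq_zero.2 (fr_self x)

theorem nf_ker {x v : E4} (hx : ‖x‖ = 1) (h : nf x v = 0) : v = inner ℝ v x • x := by
  have := nf_inner hx v v
  rw [h, inner_zero_left] at this
  rw [← sub_eq_zero, ← inner_self_eq_zero (𝕜 := ℝ)]
  simp only [inner_sub_left, inner_sub_right, real_inner_smul_left, real_inner_smul_right,
    real_inner_self_eq_norm_sq x, hx, real_inner_comm v x]
  linarith

variable {ι : Type}

theorem facet {u : ι → E4} {T : Tri ι} (h : Reg 0 u T) {a b c : ι} (k : T.F a b c) :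
    cr (u a) (u b) (u c) ≠ 0 ∧ (∀ i, 0 ≤ d4 (u a) (u b) (u c) (u i)) ∧
      ∀ i, i ≠ a → i ≠ b → i ≠ c → 0 < d4 (u a) (u b) (u c) (u i) := by
  obtain ⟨x, px, ha, hb, hc, pos⟩ := h.good.vtx a b c k
  have e := perp_cr x ha hb hc
  rw [real_inner_self_eq_norm_sq, px.1, one_pow, one_smul] at e
  have e1 : ∀ i, d4 (u a) (u b) (u c) (u i) = d4 (u a) (u b) (u c) x * inner ℝ (u i) x := fun i => by
    rw [← inner_cr, ← e, real_inner_smul_left, real_inner_comm]
  have e2 : ∀ i, 0 ≤ d4 (u a) (u b) (u c) (u i) := fun i => e1 i ▸ mul_nonneg pos.le (px.2 i)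
  refine ⟨fun e0 => ?_, e2, fun i n1 n2 n3 => lt_of_le_of_ne (e2 i) fun e0 => ?_⟩
  · rw [← inner_cr, e0, inner_zero_left] at pos
    exact lt_irrefl _ pos
  · have : Act 0 u x i := (mul_eq_zero.1 ((e1 i).symm.trans e0.symm)).resolve_left pos.ne'
    exact (h.loc.four x a b c i px ha hb hc this pos n1 n2 n3).1 e0.symm

/-- Points of the closed face `abc`. -/
def In (a b c : ι) (l : ι → ℝ) : Prop := (∀ i, 0 ≤ l i) ∧ ∀ i, l i ≠ 0 → i = a ∨ i = b ∨ i = c

theorem In.cone {T : Tri ι} {a b c : ι} {l : ι → ℝ} (h : In a b c l) (k : T.F a b c) :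
    l ∈ T.cone := ⟨h.1, a, b, c, k, h.2⟩

theorem In.add {a b c : ι} {l m : ι → ℝ} (h : In a b c l) (h' : In a b c m) : In a b c (l + m) :=
  ⟨fun i => add_nonneg (h.1 i) (h'.1 i), fun i hi => by
    by_cases e : l i = 0
    · exact h'.2 i fun e' => hi (by simp [e, e'])
    · exact h.2 i e⟩

theorem In.smul {a b c : ι} {l : ι → ℝ} (h : In a b c l) {t : ℝ} (ht : 0 ≤ t) :
    In a b c (t • l) :=
  ⟨fun i => mul_nonneg ht (h.1 i), fun i hi => h.2 i fun e => hi (by simp [e])⟩

theorem In.single [DecidableEq ι] {a b c i : ι} (h : i = a ∨ i = b ∨ i = c) :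
    In a b c (Pi.single i 1) :=
  ⟨fun k => by by_cases e : k = i <;> simp [e],
    fun k hk => by by_cases e : k = i <;> simp_all⟩

variable [Fintype ι]

/-- The linear map to `E4`. -/
noncomputable abbrev R (u : ι → E4) : (ι → ℝ) →ₗ[ℝ] E4 := Fintype.linearCombination ℝ u

theorem R_apply (u : ι → E4) (l : ι → ℝ) : R u l = ∑ i, l i • u i := rfl

theorem ip_eq (u : ι → E4) (l m : ι → ℝ) : ip (gm 0 u) l m = inner ℝ (R u l) (R u m) := by
  simp only [ip, gm, R_apply, sum_inner, inner_sum, real_inner_smul_left, real_inner_smul_right]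
  rw [Finset.sum_comm]
  refine Finset.sum_congr rfl fun i _ => Finset.sum_congr rfl fun j _ => ?_
  ring

theorem R_face {T : Tri ι} {a b c : ι} (k : T.F a b c) {l : ι → ℝ} (h : In a b c l) (u : ι → E4) :
    R u l = l a • u a + l b • u b + l c • u c := by
  classical
  rw [R_apply, ← Finset.sum_subset (Finset.subset_univ {a, b, c}) fun i _ hi => by
    rw [not_imp_comm.1 (h.2 i) (by simpa using hi), zero_smul],
    Finset.sum_insert (by simp [T.ne k, Tri.ne13 k]), Finset.sum_pair (Tri.ne23 k), add_assoc]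

theorem nf_face {T : Tri ι} {a b c : ι} (k : T.F a b c) {l : ι → ℝ} (h : In a b c l) (u : ι → E4) :
    nf (u a) (R u l) = l b • nf (u a) (u b) + l c • nf (u a) (u c) := by
  rw [R_face k h]
  simp only [map_add, map_smul, nf_self, smul_zero, zero_add]

theorem d3_R {u : ι → E4} {T : Tri ι} (h : Reg 0 u T) {a b c : ι} (k : T.F a b c) {l : ι → ℝ}
    (hl : ∀ i, 0 ≤ l i) : 0 ≤ d3 (nf (u a) (u b)) (nf (u a) (u c)) (nf (u a) (R u l)) := by
  rw [nf_d3 (h.good.un a), ← inner_cr, R_apply, inner_sum]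
  refine Finset.sum_nonneg fun i _ => ?_
  rw [real_inner_smul_right, inner_cr]
  exact mul_nonneg (hl i) ((facet h k).2.1 i)

variable [DecidableEq ι]

theorem R_single (u : ι → E4) (i : ι) : R u (Pi.single i 1) = u i := by
  rw [Fintype.linearCombination_apply_single, one_smul]

theorem R_inj (hV : StVis) {u : ι → E4} {T : Tri ι} (h : Reg 0 u T) {l m : ι → ℝ}
    (hl : l ∈ T.cone) (hm : m ∈ T.cone) (e : R u l = R u m) : l = m := by
  obtain ⟨π, -, hπ, -⟩ := hV ι u u T T id h ⟨Set.mapsTo_id _, continuousOn_id, fun _ _ _ _ => rfl,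
    fun _ => rfl, fun _ _ k => k, fun _ _ => .of_forall fun _ => rfl,
    fun _ _ _ D k => ⟨D, k, .of_forall fun _ => rfl⟩⟩
  rw [← hπ l hl, ← hπ m hm, ← R_apply, ← R_apply, e]

variable {u u' : ι → E4} {T T' : Tri ι} {f : (ι → ℝ) → ι → ℝ}

theorem nrm (hf : Iso1 T (gm 0 u) T' (gm 0 u') f) {l : ι → ℝ} (hl : l ∈ T.cone) :
    inner ℝ (R u' (f l)) (R u' (f l)) = inner ℝ (R u l) (R u l) := by
  rw [← ip_eq, ← ip_eq]
  exact (hf.f1 l hl).self_of_nhdsWithin hl

theorem lip (hV : StVis) (h : Reg 0 u T) (hf : Iso1 T (gm 0 u) T' (gm 0 u') f) {a b c : ι}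
    (k : T.F a b c) {l m : ι → ℝ} (hl : In a b c l) (hm : In a b c m) :
    inner ℝ (R u l) (R u m) ≤ inner ℝ (R u' (f l)) (R u' (f m)) := by
  obtain ⟨π, ρ, hπ, -, -, hL⟩ := hV ι u u' T T' f h hf
  have z : ∀ l, In a b c l → inner ℝ (cr (u a) (u b) (u c)) (R u l) ≤ 0 := fun l hl => by
    rw [R_face k hl]
    simp only [inner_add_right, real_inner_smul_right, inner_cr, d4_self14, d4_self24, d4_self34]
    simp
  have := hL _ _ _ (facet h k).1 (fun i => by rw [inner_cr]; exact (facet h k).2.1 i)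
    (z l hl) (z m hm)
  rw [R_apply, R_apply, hπ l (hl.cone k), hπ m (hm.cone k), ← R_apply, ← R_apply, ← R_apply,
    ← R_apply, norm_sub_sq_real, norm_sub_sq_real] at this
  have e1 := nrm hf (hl.cone k)
  have e2 := nrm hf (hm.cone k)
  simp only [real_inner_self_eq_norm_sq] at e1 e2
  linarith [sq_nonneg (ρ (R u l) - ρ (R u m))]

/-- `f` is additive on three points of a face whose inner products it preserves. -/
theorem seg (hV : StVis) (h : Reg 0 u T) (h' : Reg 0 u' T')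
    (hf : Iso1 T (gm 0 u) T' (gm 0 u') f) {a b c p q r : ι} (k : T.F a b c) (k' : T'.F p q r)
    {x y z : ι → ℝ} (hx : In a b c x) (hy : In a b c y) (hz : In a b c z)
    (hx' : In p q r (f x)) (hy' : In p q r (f y)) (hz' : In p q r (f z))
    (xy : inner ℝ (R u' (f x)) (R u' (f y)) = inner ℝ (R u x) (R u y))
    (xz : inner ℝ (R u' (f x)) (R u' (f z)) = inner ℝ (R u x) (R u z))
    (yz : inner ℝ (R u' (f y)) (R u' (f z)) = inner ℝ (R u y) (R u z))
    {s t w : ℝ} (hs : 0 ≤ s) (ht : 0 ≤ t) (hw : 0 ≤ w) :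
    f (s • x + t • y + w • z) = s • f x + t • f y + w • f z := by
  have hm := ((hx.smul hs).add (hy.smul ht)).add (hz.smul hw)
  refine R_inj hV h' (hf.maps (hm.cone k))
    ((((hx'.smul hs).add (hy'.smul ht)).add (hz'.smul hw)).cone k') ?_
  have l1 := mul_le_mul_of_nonneg_left (lip hV h hf k hm hx) hs
  have l2 := mul_le_mul_of_nonneg_left (lip hV h hf k hm hy) ht
  have l3 := mul_le_mul_of_nonneg_left (lip hV h hf k hm hz) hw
  have n0 := nrm hf (hm.cone k)
  have n1 := nrm hf (hx.cone k)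
  have n2 := nrm hf (hy.cone k)
  have n3 := nrm hf (hz.cone k)
  rw [← sub_eq_zero, ← real_inner_self_nonpos]
  generalize f (s • x + t • y + w • z) = m at *
  simp only [map_add, map_smul, inner_sub_left, inner_sub_right, inner_add_left, inner_add_right,
    real_inner_smul_left, real_inner_smul_right,
    real_inner_comm (R u' m) (R u' (f _)), real_inner_comm (R u' (f x)) (R u' (f y)),
    real_inner_comm (R u' (f x)) (R u' (f z)), real_inner_comm (R u' (f y)) (R u' (f z)),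
    real_inner_comm (R u x) (R u y), real_inner_comm (R u x) (R u z),
    real_inner_comm (R u y) (R u z), n1, n2, n3, xy, xz, yz] at l1 l2 l3 n0 ⊢
  linarith

end Pool.Agent.Lib.MP_34b931_co.G.Vert
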