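import Pool.Agent.Lib.MP_34b931_co.H22Tri

/-! Projection on a convex cone and the maximum principle for isometric cones. -/

namespace Pool.Agent.Lib.MP_34b931_co.G

open Filter Topology Set

namespace Vis

variable {ι : Type} [Fintype ι] {u u' : ι → E4} {T T' : Tri ι}

/-- The point of the cone with coordinates `l`. -/
noncomputable def R (u : ι → E4) : (ι → ℝ) →ₗ[ℝ] E4 := Fintype.linearCombination ℝ u

theorem R_eq (u : ι → E4) (l : ι → ℝ) : ∑ i, l i • u i = R u l := rfl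

theorem R_cont : Continuous (R u) := (R u).continuous_of_finiteDimensional

theorem inner_R (x : E4) (l : ι → ℝ) : inner ℝ x (R u l) = ∑ i, l i * inner ℝ x (u i) := by
  simp [← R_eq, inner_sum, real_inner_smul_right]

theorem R_single [DecidableEq ι] (i : ι) : R u (Pi.single i 1) = u i := by
  simp [R]

theorem ip_gm (l m : ι → ℝ) : ip (gm 0 u) l m = inner ℝ (R u l) (R u m) := by
  simp only [ip, gm, ← R_eq, sum_inner]
  simp only [inner_sum, real_inner_smul_left, real_inner_smul_right]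
  exact Finset.sum_congr rfl fun i _ => Finset.sum_congr rfl fun j _ => by ring

theorem inner_nonneg {ν : E4} {m : ι → ℝ} (hm : ∀ i, 0 ≤ m i) (hν : ∀ i, 0 ≤ inner ℝ ν (u i)) :
    0 ≤ inner ℝ ν (R u m) := by
  rw [inner_R]
  exact Finset.sum_nonneg fun i _ => mul_nonneg (hm i) (hν i)

theorem act_of_supp {ν : E4} {m : ι → ℝ} (hm : ∀ i, 0 ≤ m i) (hν : ∀ i, 0 ≤ inner ℝ ν (u i))
    (h : inner ℝ ν (R u m) ≤ 0) (i : ι) (hi : m i ≠ 0) : inner ℝ ν (u i) = 0 := by
  have := h.antisymm (inner_nonneg hm hν)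
  rw [inner_R, Finset.sum_eq_zero_iff_of_nonneg fun i _ => mul_nonneg (hm i) (hν i)] at this
  exact (mul_eq_zero.1 (this i (Finset.mem_univ i))).resolve_left hi

theorem zero_of_supp {ν : E4} {m : ι → ℝ} (h : ∀ i, m i ≠ 0 → inner ℝ ν (u i) = 0) :
    inner ℝ ν (R u m) = 0 := by
  rw [inner_R]
  exact Finset.sum_eq_zero fun i _ => mul_eq_zero.2 (or_iff_not_imp_left.2 (h i))

omit [Fintype ι] in
theorem no4 (h : Reg 0 u T) {x : E4} {a b c d : ι} (hx : Pt 0 u x) (ha : Act 0 u x a)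
    (hb : Act 0 u x b) (hc : Act 0 u x c) (h0 : 0 < d4 (u a) (u b) (u c) x) (hd : Act 0 u x d) :
    d = a ∨ d = b ∨ d = c := by
  by_contra k
  push Not at k
  have := eq_zero_of_inner4 (h.loc.four x a b c d hx ha hb hc hd h0 k.1 k.2.1 k.2.2).1 ha hb hc hd
  simpa [this] using hx.1

omit [Fintype ι] in
theorem face_vtx (h : Reg 0 u T) {a b c : ι} (k : T.F a b c) : ∃ x : E4, ‖x‖ = 1 ∧
    (∀ i, 0 ≤ inner ℝ x (u i)) ∧ (∀ i, inner ℝ x (u i) = 0 ↔ i = a ∨ i = b ∨ i = c) ∧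
    0 < d4 (u a) (u b) (u c) x := by
  obtain ⟨x, hx, ha, hb, hc, h0⟩ := h.good.vtx a b c k
  refine ⟨x, hx.1, fun i => real_inner_comm x (u i) ▸ hx.2 i, fun i => ?_, h0⟩
  rw [real_inner_comm]
  refine ⟨no4 h hx ha hb hc h0, ?_⟩
  rintro (rfl | rfl | rfl) <;> assumption

theorem R_inj (h : Reg 0 u T) {l m : ι → ℝ} (hl : l ∈ T.cone) (hm : ∀ i, 0 ≤ m i)
    (e : R u l = R u m) : l = m := by
  obtain ⟨-, a, b, c, k, hs⟩ := hl
  obtain ⟨x, -, h1, h2, h3⟩ := face_vtx h k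
  have h4 := act_of_supp hm h1 (e ▸ (zero_of_supp fun i hi => (h2 i).2 (hs i hi)).le)
  obtain ⟨y, ya, yb, yc, -⟩ := exists_dual4 h3.ne' ((l - m) a) ((l - m) b) ((l - m) c) 0
  have h5 : ∑ i, (l - m) i * (l - m) i = 0 := by
    rw [← inner_zero_right (𝕜 := ℝ) y, ← sub_eq_zero.2 e, ← map_sub, inner_R]
    refine Finset.sum_congr rfl fun i _ => ?_
    by_cases h6 : i = a ∨ i = b ∨ i = c
    · rcases h6 with rfl | rfl | rfl <;> simp only [ya, yb, yc]
    · have h7 : l i = 0 := by_contra fun k => h6 (hs i k)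
      have h8 : m i = 0 := by_contra fun k => h6 ((h2 i).1 (h4 i k))
      simp [h7, h8]
  rw [Finset.sum_eq_zero_iff_of_nonneg fun i _ => mul_self_nonneg _] at h5
  exact funext fun i => sub_eq_zero.1 (mul_self_eq_zero.1 (h5 i (Finset.mem_univ i)))

theorem exists_perp (a b c : E4) :
    ∃ v : E4, v ≠ 0 ∧ inner ℝ a v = 0 ∧ inner ℝ b v = 0 ∧ inner ℝ c v = 0 := by
  let L : E4 →ₗ[ℝ] Fin 3 → ℝ := LinearMap.pi fun i => innerₛₗ ℝ (![a, b, c] i)
  obtain ⟨v, h1, h2⟩ := (Submodule.ne_bot_iff _).1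
    (LinearMap.ker_ne_bot_of_finrank_lt (f := L) (by simp))
  exact ⟨v, h2, congrFun h1 0, congrFun h1 1, congrFun h1 2⟩

/-- The indices on a supporting hyperplane lie in one face. -/
theorem act_face (hM : StMirror) (h : Reg 0 u T) {ν : E4} (h0 : ν ≠ 0)
    (hν : ∀ i, 0 ≤ inner ℝ ν (u i)) :
    ∃ a b c, T.F a b c ∧ ∀ i, inner ℝ ν (u i) = 0 → i = a ∨ i = b ∨ i = c := by
  classical
  generalize hn : (Finset.univ.filter fun i => inner ℝ ν (u i) ≠ 0).card = n
  induction n using Nat.strong_induction_on generalizing ν with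
  | _ n ih =>
  by_cases h3 : ∃ a b c, a ≠ b ∧ b ≠ c ∧ a ≠ c ∧ inner ℝ ν (u a) = 0 ∧ inner ℝ ν (u b) = 0 ∧
      inner ℝ ν (u c) = 0
  · have hn : 0 < ‖ν‖⁻¹ := inv_pos.2 (norm_pos_iff.2 h0)
    have e : ∀ i, inner ℝ (u i) (‖ν‖⁻¹ • ν) = ‖ν‖⁻¹ * inner ℝ ν (u i) := fun i => by
      rw [real_inner_smul_right, real_inner_comm]
    have hx : Pt 0 u (‖ν‖⁻¹ • ν) :=
      ⟨norm_smul_inv_norm h0, fun i => e i ▸ mul_nonneg hn.le (hν i)⟩
    have ha : ∀ i, inner ℝ ν (u i) = 0 → Act 0 u (‖ν‖⁻¹ • ν) i := fun i hi => by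
      rw [Act, e, hi, mul_zero]
    have key : ∀ a b c, a ≠ b → b ≠ c → a ≠ c → inner ℝ ν (u a) = 0 → inner ℝ ν (u b) = 0 →
        inner ℝ ν (u c) = 0 → 0 < d4 (u a) (u b) (u c) (‖ν‖⁻¹ • ν) →
        ∃ a b c, T.F a b c ∧ ∀ i, inner ℝ ν (u i) = 0 → i = a ∨ i = b ∨ i = c := by
      intro a b c ab bc ac k1 k2 k3 k4
      have k5 := fun d => no4 (d := d) h hx (ha a k1) (ha b k2) (ha c k3) k4
      obtain ⟨d, k6, k7⟩ := h.good.side _ a b ⟨hx, ab, ha a k1, ha b k2,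
        ⟨c, ac.symm, bc.symm, ha c k3⟩, fun d da db k => by
          rwa [((k5 d k).resolve_left da).resolve_left db]⟩
      rw [((k5 d k7).resolve_left (Tri.ne13 k6).symm).resolve_left (Tri.ne23 k6).symm] at k6
      exact ⟨a, b, c, k6, fun i hi => k5 i (ha i hi)⟩
    obtain ⟨a, b, c, ab, bc, ac, k1, k2, k3⟩ := h3
    rcases (h.loc.three _ a b c hx ab bc ac (ha a k1) (ha b k2) (ha c k3)).lt_or_gt with k | k
    · exact key b a c ab.symm ac bc k2 k1 k3 (by rwa [d4_swap12, neg_pos])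
    · exact key a b c ab bc ac k1 k2 k3 k
  obtain ⟨a, b, hab⟩ : ∃ a b, ∀ i, inner ℝ ν (u i) = 0 → i = a ∨ i = b := by
    obtain ⟨a₀⟩ := T.nonempty
    by_cases k1 : ∃ a, inner ℝ ν (u a) = 0
    · obtain ⟨a, k1⟩ := k1
      by_cases k2 : ∃ b, a ≠ b ∧ inner ℝ ν (u b) = 0
      · obtain ⟨b, ab, k2⟩ := k2
        exact ⟨a, b, fun i hi => by_contra fun k => h3
          ⟨a, b, i, ab, fun e => k (Or.inr e.symm), fun e => k (Or.inl e.symm), k1, k2, hi⟩⟩
      · exact ⟨a, a, fun i hi => Or.inl (by_contra fun k => k2 ⟨i, Ne.symm k, hi⟩)⟩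
    · exact ⟨a₀, a₀, fun i hi => (k1 ⟨i, hi⟩).elim⟩
  obtain ⟨v, va, vb, vν, j₀, hj₀⟩ : ∃ v : E4, inner ℝ (u a) v = 0 ∧ inner ℝ (u b) v = 0 ∧
      inner ℝ ν v = 0 ∧ ∃ j, inner ℝ (u j) v < 0 := by
    obtain ⟨v, v0, va, vb, vν⟩ := exists_perp (u a) (u b) ν
    obtain ⟨p, q, r, k⟩ := T.exists_face
    obtain ⟨x, hx, k1, k2, k3, k4⟩ := h.good.vtx p q r k
    obtain ⟨⟨m, hm⟩, -⟩ := (hM ι 0 u T h).2 x p q r hx k1 k2 k3 k4
    obtain ⟨j, hj⟩ : ∃ j, inner ℝ (u j) v ≠ 0 := by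
      by_contra k
      push Not at k
      exact v0 (eq_zero_of_inner4 hm.ne' (k _) (k _) (k _) (k _))
    rcases hj.lt_or_gt with k | k
    · exact ⟨v, va, vb, vν, j, k⟩
    · exact ⟨-v, by simp [va], by simp [vb], by simp [vν], j, by simpa using k⟩
  obtain ⟨j, hj, hmin⟩ := (Finset.univ.filter fun j => inner ℝ (u j) v < 0).exists_min_image
    (fun j => inner ℝ ν (u j) / -inner ℝ (u j) v) ⟨j₀, by simpa using hj₀⟩
  simp only [Finset.mem_filter, Finset.mem_univ, true_and] at hj hmin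
  set t := inner ℝ ν (u j) / -inner ℝ (u j) v with ht
  have t0 : 0 ≤ t := div_nonneg (hν j) (neg_pos.2 hj).le
  have e : ∀ i, inner ℝ (ν + t • v) (u i) = inner ℝ ν (u i) + t * inner ℝ (u i) v := fun i => by
    rw [inner_add_left, real_inner_smul_left, real_inner_comm (u i) v]
  have sub : ∀ i, inner ℝ ν (u i) = 0 → inner ℝ (ν + t • v) (u i) = 0 := fun i hi => by
    rcases hab i hi with rfl | rfl <;> simp [e, hi, va, vb]
  refine (ih _ (hn ▸ Finset.card_lt_card ?_) (ν := ν + t • v) (fun k => ?_)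
    (fun i => ?_) rfl).imp fun p => .imp fun q => .imp fun r k =>
      ⟨k.1, fun i hi => k.2 i (sub i hi)⟩
  · have := congrArg (inner ℝ ν) k
    rw [inner_add_right, real_inner_smul_right, vν] at this
    exact h0 (by simpa using this)
  · rw [e]
    rcases lt_or_ge (inner ℝ (u i) v) 0 with k | k
    · have := (le_div_iff₀ (neg_pos.2 k)).1 (hmin i k)
      linarith
    · exact add_nonneg (hν i) (mul_nonneg t0 k)
  · refine (Finset.ssubset_iff_of_subset fun i hi => ?_).2 ⟨j, ?_, ?_⟩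
    · simp only [Finset.mem_filter, Finset.mem_univ, true_and] at hi ⊢
      exact fun k => hi (sub i k)
    · simp only [Finset.mem_filter, Finset.mem_univ, true_and]
      intro k
      rcases hab j k with rfl | rfl
      exacts [hj.ne va, hj.ne vb]
    · simp only [Finset.mem_filter, Finset.mem_univ, true_and, not_not, e]
      rw [ht, div_neg, neg_mul, div_mul_cancel₀ _ hj.ne, add_neg_cancel]

theorem mem_cone (hM : StMirror) (h : Reg 0 u T) {ν : E4} {m : ι → ℝ} (hm : ∀ i, 0 ≤ m i)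
    (h0 : ν ≠ 0) (hν : ∀ i, 0 ≤ inner ℝ ν (u i)) (k : inner ℝ ν (R u m) ≤ 0) : m ∈ T.cone := by
  obtain ⟨a, b, c, k1, k2⟩ := act_face hM h h0 hν
  exact ⟨hm, a, b, c, k1, fun i hi => k2 i (act_of_supp hm hν k i hi)⟩

theorem closed_cone : IsClosed T.cone := by
  have : T.cone = {l | ∀ i, 0 ≤ l i} ∩ ⋃ a, ⋃ b, ⋃ c, ⋃ _ : T.F a b c,
      ⋂ i, ⋂ _ : ¬ (i = a ∨ i = b ∨ i = c), {l : ι → ℝ | l i = 0} := by
    ext l
    simp only [Tri.cone, mem_ofPred_eq, mem_inter_iff, mem_iUnion, mem_iInter, exists_prop,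
      not_imp_comm]
  rw [this]
  refine (isClosed_Ici (a := (0 : ι → ℝ))).inter (isClosed_iUnion_of_finite fun a =>
    isClosed_iUnion_of_finite fun b => isClosed_iUnion_of_finite fun c =>
    isClosed_iUnion_of_finite fun _ => isClosed_iInter fun i => isClosed_iInter fun _ =>
    isClosed_eq (continuous_apply i) continuous_const)

theorem proper (hM : StMirror) (h : Reg 0 u T) {S : Set (ι → ℝ)} (hS : IsClosed S)
    (h0 : ∀ m ∈ S, ∀ i, 0 ≤ m i) : IsProperMap fun l : S => R u l := by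
  obtain ⟨w, hw⟩ : ∃ w : E4, ∀ i, 0 < inner ℝ w (u i) := by
    obtain ⟨a, b, c, k⟩ := T.exists_face
    obtain ⟨z, z1, z2⟩ := (hM ι 0 u T h).1 a
    obtain ⟨y, y1, y2⟩ := (hM ι 0 u T h).1 b
    refine ⟨z + y, fun i => ?_⟩
    rw [inner_add_left]
    by_cases ia : i = a
    · rw [ia, z1, zero_add]
      exact y2 a (T.ne k)
    by_cases ib : i = b
    · rw [ib, y1, add_zero]
      exact z2 b (T.ne k).symm
    exact add_pos (z2 i ia) (y2 i ib)
  refine isProperMap_iff_isCompact_preimage.2 ⟨R_cont.comp continuous_subtype_val, fun K hK => ?_⟩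
  obtain ⟨B, hB⟩ := hK.isBounded.exists_norm_le
  rw [Subtype.isCompact_iff, show (fun l : S => R u l) ⁻¹' K = Subtype.val ⁻¹' (R u ⁻¹' K) from rfl,
    Subtype.image_preimage_coe]
  refine (isCompact_Icc (a := 0) (b := fun i => ‖w‖ * B / inner ℝ w (u i))).of_isClosed_subset
    (hS.inter (hK.isClosed.preimage R_cont)) fun m hm => ⟨h0 m hm.1, fun i => ?_⟩
  refine (le_div_iff₀ (hw i)).2 (le_trans ?_ ((real_inner_le_norm w _).trans
    (mul_le_mul_of_nonneg_left (hB _ hm.2) (norm_nonneg w))))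
  rw [inner_R]
  exact Finset.single_le_sum (f := fun i => m i * inner ℝ w (u i))
    (fun j _ => mul_nonneg (h0 m hm.1 j) (hw j).le) (Finset.mem_univ i)

theorem loc_glob {E : Type*} [NormedAddCommGroup E] (g : ℝ → E) (L : ℝ)
    (h : ∀ s ∈ Icc (0 : ℝ) 1, ∀ᶠ t in 𝓝[Icc 0 1] s, ‖g t - g s‖ ≤ L * |t - s|) :
    ‖g 1 - g 0‖ ≤ L := by
  have hc : ContinuousOn g (Icc 0 1) := fun s hs => by
    refine tendsto_iff_norm_sub_tendsto_zero.2 (squeeze_zero' (Eventually.of_forall fun _ =>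
      norm_nonneg _) (h s hs) (tendsto_nhdsWithin_of_tendsto_nhds ?_))
    exact Continuous.tendsto' (by fun_prop) _ _ (by simp)
  have := IsClosed.Icc_subset_of_forall_mem_nhdsWithin (a := 0) (b := 1)
    (s := {t : ℝ | ‖g t - g 0‖ ≤ L * t}) ?_ (by simp) ?_ ⟨zero_le_one, le_rfl⟩
  · simpa using this
  · rw [inter_comm]
    exact isClosed_Icc.isClosed_le (hc.sub continuousOn_const).norm (by fun_prop)
  · rintro s ⟨h1, h2⟩
    have h3 : 𝓝[>] s ≤ 𝓝[Icc 0 1] s := nhdsWithin_le_iff.2 (Icc_mem_nhdsGT_of_mem h2)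
    filter_upwards [h3 (h s (Ico_subset_Icc_self h2)), self_mem_nhdsWithin] with t h4 h5
    rw [abs_of_pos (sub_pos.2 h5)] at h4
    have := norm_sub_le_norm_sub_add_norm_sub (g t) (g s) (g 0)
    rw [mem_ofPred_eq] at h1
    linarith

variable [DecidableEq ι] {f g : (ι → ℝ) → ι → ℝ}

theorem iso_norm (I : Iso1 T (gm 0 u) T' (gm 0 u') f) {l : ι → ℝ} (hl : l ∈ T.cone) :
    ‖R u' (f l)‖ ^ 2 = ‖R u l‖ ^ 2 := by
  simpa only [ip_gm, real_inner_self_eq_norm_sq] using (I.f1 l hl).self_of_nhdsWithin hl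

theorem iso_loc (I : Iso1 T (gm 0 u) T' (gm 0 u') f) {y : ι → ℝ} (hy : y ∈ T.cone) :
    ∀ᶠ l in 𝓝[T.cone] y, ‖R u' (f l) - R u' (f y)‖ ^ 2 = ‖R u l - R u y‖ ^ 2 := by
  filter_upwards [I.f1 y hy, self_mem_nhdsWithin] with l h hl
  rw [ip_gm, ip_gm] at h
  rw [norm_sub_sq_real, norm_sub_sq_real, h, iso_norm I hl, iso_norm I hy]

end Vis

open Vis

theorem stVis (_ : StType) (hM : StMirror) : StVis := by
  intro ι _ _ u u' T T' f h I
  simp only [R_eq]
  have hC : Convex ℝ (R u '' Ici 0) := (convex_Ici 0).linear_image _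
  have hcl : IsClosed (R u '' Ici 0) := by
    rw [image_eq_range]
    exact (proper hM h isClosed_Ici fun _ h => h).isClosed_range
  have hex := fun y => (exists_norm_eq_iInf_of_complete_convex (nonempty_Ici.image _) hcl.isComplete
    hC y).imp fun _ h => And.intro h.1 ((norm_eq_iInf_iff_real_inner_le_zero hC h.1).1 h.2)
  choose P hP hP2 using hex
  choose π hπ hπ2 using hP
  have hle : ∀ y m, 0 ≤ m → inner ℝ (y - R u (π y)) (R u m - R u (π y)) ≤ 0 := fun y m hm =>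
    hπ2 y ▸ hP2 y _ ⟨m, hm, rfl⟩
  have lip : ∀ y y', ‖R u (π y) - R u (π y')‖ ^ 2 +
      (‖y - R u (π y)‖ - ‖y' - R u (π y')‖) ^ 2 ≤ ‖y - y'‖ ^ 2 := fun y y' => by
    have h1 := hle y _ (hπ y')
    have h2 := hle y' _ (hπ y)
    have h3 := sq_le_sq' (abs_le.1 (abs_norm_sub_norm_le (y - R u (π y)) (y' - R u (π y')))).1
      (norm_sub_norm_le _ _)
    rw [← neg_sub (R u (π y)) (R u (π y')), inner_neg_right] at h1
    rw [show y - y' = (y - R u (π y) - (y' - R u (π y'))) + (R u (π y) - R u (π y')) by abel,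
      norm_add_sq_real, inner_sub_left (y - R u (π y))]
    linarith
  have mem : ∀ y ν : E4, ν ≠ 0 → (∀ i, 0 ≤ inner ℝ ν (u i)) → inner ℝ ν y ≤ 0 → π y ∈ T.cone := by
    intro y ν h0 hν hy
    by_cases e : R u (π y) - y = 0
    · exact mem_cone hM h (hπ y) h0 hν (by rwa [sub_eq_zero.1 e])
    refine mem_cone hM h (hπ y) e (fun i => ?_) ?_
    · have := hle y (π y + Pi.single i 1) (add_nonneg (hπ y) (Pi.single_nonneg.2 zero_le_one))
      rwa [map_add, R_single, add_sub_cancel_left, ← neg_sub, inner_neg_left, neg_nonpos] at this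
    · have := hle y 0 le_rfl
      rwa [map_zero, zero_sub, inner_neg_right, ← inner_neg_left, neg_sub] at this
  refine ⟨π, fun y => ‖y - R u (π y)‖, fun l hl => ?_, fun _ => rfl,
    fun y m ν hm h0 hν hy => ⟨mem y ν h0 hν hy, ?_⟩, fun y₀ y₁ ν h0 hν k0 k1 => ?_⟩
  · have := hle (R u l) l hl.1
    exact (R_inj h hl (hπ _) (sub_eq_zero.1 (real_inner_self_nonpos.1 this))).symm
  · have := hle y m hm
    refine le_of_sq_le_sq ?_ (norm_nonneg _)
    rw [show y - R u m = (y - R u (π y)) - (R u m - R u (π y)) by abel,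
      norm_sub_sq_real (y - R u (π y))]
    nlinarith [sq_nonneg ‖R u m - R u (π y)‖]
  have hemb : IsClosedEmbedding fun l : T.cone => R u l :=
    .of_continuous_injective_isClosedMap (R_cont.comp continuous_subtype_val)
      (fun l m e => Subtype.ext (R_inj h l.2 m.2.1 e))
      (proper hM h closed_cone fun _ h => h.1).isClosedMap
  have c1 : Continuous fun y => R u (π y) := (LipschitzWith.of_dist_le_mul (K := 1) fun y y' => by
    rw [NNReal.coe_one, one_mul, dist_eq_norm, dist_eq_norm]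
    exact le_of_sq_le_sq
      (le_trans (le_add_of_nonneg_right (sq_nonneg _)) (lip y y')) (norm_nonneg _)).continuous
  let Y : ℝ → E4 := fun s => y₁ + s • (y₀ - y₁)
  have m1 : MapsTo (π ∘ Y) (Icc 0 1) T.cone := fun s hs => mem _ ν h0 hν (by
    simp only [Y, inner_add_right, real_inner_smul_right, inner_sub_right]
    nlinarith [hs.1, hs.2])
  have c2 : ContinuousOn (π ∘ Y) (Icc 0 1) := by
    rw [continuousOn_iff_continuous_domRestrict]
    exact continuous_subtype_val.comp (f := fun s : Icc (0 : ℝ) 1 => (⟨_, m1 s.2⟩ : T.cone))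
      (hemb.isInducing.continuous_iff.2 (c1.comp (f := fun s : Icc (0 : ℝ) 1 => Y s)
        (by fun_prop)))
  have := loc_glob (fun s => (WithLp.toLp 2 (R u' (f (π (Y s))), ‖Y s - R u (π (Y s))‖) :
    WithLp 2 (E4 × ℝ))) ‖y₀ - y₁‖ fun s hs => by
    filter_upwards [((c2 s hs).tendsto_nhdsWithin m1).eventually (iso_loc I (m1 hs))] with t ht
    refine le_of_sq_le_sq ?_ (by positivity)
    rw [WithLp.prod_norm_sq_eq_of_L2]
    refine le_of_eq_of_le (congrArg₂ (· + ·) ht (sq_abs _)) ((lip _ _).trans_eq ?_)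
    rw [show Y t - Y s = (t - s) • (y₀ - y₁) by simp only [Y]; module, norm_smul, mul_comm,
      Real.norm_eq_abs]
  have h2 := pow_le_pow_left₀ (norm_nonneg _) this 2
  rw [WithLp.prod_norm_sq_eq_of_L2] at h2
  simpa [Y] using h2

namespace Vis

variable {ι : Type} [Fintype ι] [DecidableEq ι] {u u' : ι → E4} {T T' : Tri ι}
  {f g : (ι → ℝ) → ι → ℝ} {a₀ : ι} {z : E4} {t : ℝ}

omit [Fintype ι] in
theorem single_mem (T : Tri ι) (i : ι) : (Pi.single i 1 : ι → ℝ) ∈ T.cone := by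
  obtain ⟨b, c, k⟩ := T.cover i
  exact ⟨fun j => by by_cases e : j = i <;> simp [e], i, b, c, k, fun j hj =>
    Or.inl (by_contra fun e => hj (Pi.single_eq_of_ne e 1))⟩

omit [Fintype ι] [DecidableEq ι] in
theorem smul_mem {l : ι → ℝ} (hl : l ∈ T.cone) {s : ℝ} (hs : 0 ≤ s) : s • l ∈ T.cone :=
  ⟨fun i => mul_nonneg hs (hl.1 i), hl.2.imp fun _ => .imp fun _ => .imp fun _ k =>
    ⟨k.1, fun i hi => k.2 i (right_ne_zero_of_mul hi)⟩⟩

theorem eq_ray (z2 : ∀ j, j ≠ a₀ → 0 < inner ℝ z (u j)) (z1 : inner ℝ z (u a₀) = 0) {l : ι → ℝ}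
    (hl : ∀ i, 0 ≤ l i) (h : inner ℝ z (R u l) ≤ 0) : l = l a₀ • Pi.single a₀ 1 := by
  funext i
  by_cases e : i = a₀
  · simp [e]
  · simpa [e] using by_contra fun k => (z2 i e).ne' (act_of_supp hl (fun j =>
      (eq_or_ne j a₀).elim (fun e => (e ▸ z1).ge) fun e => (z2 j e).le) h i k)

/-- A maximum of the quotient gives a touching point. -/
theorem exists_touch (I : Iso1 T (gm 0 u) T' (gm 0 u') f) (z2 : ∀ j, j ≠ a₀ → 0 < inner ℝ z (u j))
    (z1 : inner ℝ z (u a₀) = 0)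
    (h : ∃ l ∈ T.cone, inner ℝ (R u' (f l)) (u' a₀) < inner ℝ (R u l) (u a₀)) :
    ∃ t : ℝ, 0 < t ∧ (∀ l ∈ T.cone, inner ℝ (R u l) (u a₀ - t • z) ≤ inner ℝ (R u' (f l)) (u' a₀)) ∧
      ∃ l ∈ T.cone, 0 < inner ℝ z (R u l) ∧
        inner ℝ (R u l) (u a₀ - t • z) = inner ℝ (R u' (f l)) (u' a₀) := by
  let φ : (ι → ℝ) → ℝ := fun l => inner ℝ (R u l) (u a₀) - inner ℝ (R u' (f l)) (u' a₀)
  have hφ : ∀ l ∈ T.cone, ∀ s, 0 ≤ s → φ (s • l) = s * φ l := fun l hl s hs => by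
    simp only [φ, I.homog l hl s hs, map_smul, real_inner_smul_left, mul_sub]
  have z0 : ∀ l ∈ T.cone, 0 ≤ inner ℝ z (R u l) := fun l hl => inner_nonneg hl.1 fun j =>
    (eq_or_ne j a₀).elim (fun e => (e ▸ z1).ge) fun e => (z2 j e).le
  obtain ⟨U, U1, U2, U3⟩ := mem_nhdsWithin.1 (I.f1 _ (single_mem T a₀))
  have U4 : ∀ l ∈ T.cone, l ∈ U → φ l = 0 := fun l hl k => by
    have := U3 ⟨k, hl⟩
    rw [mem_ofPred_eq, ip_gm, ip_gm, I.vert, R_single, R_single] at this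
    exact sub_eq_zero.2 this.symm
  have hK : IsCompact ((Metric.sphere 0 1 ∩ T.cone) \ U) :=
    ((isCompact_sphere 0 1).inter_right closed_cone).diff U1
  have nrm : ∀ l ∈ T.cone, 0 < φ l → 0 < ‖l‖⁻¹ ∧ ‖l‖⁻¹ • l ∈ (Metric.sphere 0 1 ∩ T.cone) \ U := by
    intro l hl k
    have h0 : l ≠ 0 := fun e => by
      have := hφ l hl 0 le_rfl
      rw [zero_smul, ← e, zero_mul] at this
      exact k.ne' this
    have h1 : 0 < ‖l‖⁻¹ := inv_pos.2 (norm_pos_iff.2 h0)
    exact ⟨h1, ⟨mem_sphere_zero_iff_norm.2 (norm_smul_inv_norm h0), smul_mem hl h1.le⟩, fun k' =>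
      (mul_pos h1 k).ne' (hφ l hl _ h1.le ▸ U4 _ (smul_mem hl h1.le) k')⟩
  have pos : ∀ l ∈ (Metric.sphere 0 1 ∩ T.cone) \ U, 0 < inner ℝ z (R u l) := by
    rintro l ⟨⟨h1, h2⟩, h3⟩
    by_contra k
    have e := eq_ray z2 z1 h2.1 (not_lt.1 k)
    rw [mem_sphere_zero_iff_norm, e, norm_smul, Pi.norm_single, NormOneClass.norm_one, mul_one,
      Real.norm_of_nonneg (h2.1 a₀)] at h1
    rw [h1, one_smul] at e
    exact h3 (e ▸ U2)
  obtain ⟨l₁, h1, h2⟩ := h
  have h3 : 0 < φ l₁ := sub_pos.2 h2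
  obtain ⟨l₀, k1, k2⟩ := hK.exists_isMaxOn ⟨_, (nrm l₁ h1 h3).2⟩
    (f := fun l => φ l / inner ℝ z (R u l)) (ContinuousOn.div
      ((R_cont.inner continuous_const).continuousOn.sub
        ((R_cont.comp_continuousOn (I.cont.mono fun _ h => h.1.2)).inner continuousOn_const))
      (continuous_const.inner R_cont).continuousOn fun l hl => (pos l hl).ne')
  have k3 : ∀ l ∈ T.cone, 0 < φ l → φ l ≤ φ l₀ / inner ℝ z (R u l₀) * inner ℝ z (R u l) := by
    intro l hl k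
    obtain ⟨n1, n2⟩ := nrm l hl k
    have := (div_le_iff₀ (pos _ n2)).1 (k2 n2)
    rw [hφ l hl _ n1.le, map_smul, real_inner_smul_right, mul_left_comm] at this
    exact le_of_mul_le_mul_left this n1
  have k4 : 0 < φ l₀ / inner ℝ z (R u l₀) :=
    pos_of_mul_pos_left (h3.trans_le (k3 l₁ h1 h3)) (z0 l₁ h1)
  have e : ∀ l s, inner ℝ (R u l) (u a₀ - s • z) = inner ℝ (R u l) (u a₀) - s * inner ℝ z (R u l) :=
    fun l s => by rw [inner_sub_right, real_inner_smul_right, real_inner_comm (R u l) z]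
  refine ⟨_, k4, fun l hl => ?_, l₀, k1.1.2, pos l₀ k1, ?_⟩
  · have : φ l ≤ φ l₀ / inner ℝ z (R u l₀) * inner ℝ z (R u l) :=
      (lt_or_ge 0 (φ l)).elim (k3 l hl) fun k => k.trans (mul_nonneg k4.le (z0 l hl))
    rw [e]
    simp only [φ] at this ⊢
    linarith
  · rw [e, div_mul_cancel₀ _ (pos l₀ k1).ne']
    simp only [φ]
    ring

/-- No facet through a touching point is visible from `o`. -/
theorem visible (hV : StVis) (h : Reg 0 u T) (h' : Reg 0 u' T')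
    (I : Iso1 T (gm 0 u) T' (gm 0 u') f) (z2 : ∀ j, j ≠ a₀ → 0 < inner ℝ z (u j))
    (z1 : inner ℝ z (u a₀) = 0) (ht : 0 < t) {l : ι → ℝ} (hl : l ∈ T.cone)
    (hz : 0 < inner ℝ z (R u l))
    (e : inner ℝ (R u l) (u a₀ - t • z) = inner ℝ (R u' (f l)) (u' a₀)) {ν : E4} (h0 : ν ≠ 0)
    (hν : ∀ i, 0 ≤ inner ℝ ν (u i)) (h1 : inner ℝ ν (R u l) = 0) :
    0 < inner ℝ ν (u a₀ - t • z) := by
  obtain ⟨π, ρ, p1, p2, p3, p4⟩ := hV ι u u' T T' f h I
  simp only [R_eq] at p1 p2 p3 p4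
  by_contra k
  push Not at k
  have z0 : ∀ j, 0 ≤ inner ℝ z (u j) := fun j =>
    (eq_or_ne j a₀).elim (fun e => (e ▸ z1).ge) fun e => (z2 j e).le
  set o := u a₀ - t • z with ho
  have q1 : R u (π o) = u a₀ := by
    obtain ⟨m1, m2⟩ := p3 o (Pi.single a₀ 1) ν (single_mem T a₀).1 h0 hν k
    have m3 := inner_nonneg m1.1 z0
    have m4 := pow_le_pow_left₀ (p2 o ▸ norm_nonneg _) m2 2
    rw [p2, R_single, show o - R u (π o) = (u a₀ - R u (π o)) - t • z by rw [ho]; abel,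
      show o - u a₀ = -(t • z) by rw [ho]; abel, norm_neg, norm_sub_sq_real, real_inner_smul_right,
      inner_sub_left, real_inner_comm z, real_inner_comm z, z1] at m4
    have m5 : ‖u a₀ - R u (π o)‖ ^ 2 ≤ 0 := by nlinarith
    exact (sub_eq_zero.1 (norm_eq_zero.1 (pow_eq_zero_iff two_ne_zero |>.1
      (m5.antisymm (sq_nonneg _))))).symm
  have q2 : π o = Pi.single a₀ 1 := by
    rw [← p1 _ (p3 o 0 ν (fun _ => le_rfl) h0 hν k).1, q1, ← p1 _ (single_mem T a₀), R_single]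
  have q3 : ρ o = ‖t • z‖ := by rw [p2, q1, ← norm_neg, ho]; congr 1; abel
  have q4 : ρ (R u l) = 0 := by rw [p2, p1 l hl, sub_self, norm_zero]
  set X := R u l with hX
  set y := (1 / 2 : ℝ) • (o + X) with hy
  have ky : inner ℝ ν y ≤ 0 := by
    rw [hy, real_inner_smul_right, inner_add_right]
    linarith
  have a1 := p4 o y ν h0 hν k ky
  have a2 := p4 y X ν h0 hν ky h1.le
  rw [q2, I.vert, R_single, q3, show o - y = (1 / 2 : ℝ) • (o - X) by rw [hy]; module,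
    norm_smul (1 / 2 : ℝ)] at a1
  rw [p1 l hl, q4, show y - X = (1 / 2 : ℝ) • (o - X) by rw [hy]; module, norm_smul] at a2
  have a3 : ‖o - X‖ ^ 2 = ‖u' a₀ - R u' (f l)‖ ^ 2 + ‖t • z‖ ^ 2 := by
    rw [norm_sub_sq_real, norm_sub_sq_real (u' a₀), real_inner_comm, e, iso_norm I hl,
      real_inner_comm (R u' (f l)), h'.good.un a₀, ho, norm_sub_sq_real, h.good.un a₀,
      real_inner_smul_right, real_inner_comm z, z1]
    ring
  have a4 := parallelogram_law_with_norm ℝ (u' a₀ - R u' (f (π y))) (R u' (f (π y)) - R u' (f l))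
  rw [sub_add_sub_cancel] at a4
  have a5 : ‖t • z‖ ≤ 2 * ρ y := by
    rw [Real.norm_of_nonneg (by norm_num)] at a1 a2
    have : (‖t • z‖ - 2 * ρ y) ^ 2 ≤ 0 := by
      nlinarith [sq_nonneg ‖u' a₀ - R u' (f (π y)) - (R u' (f (π y)) - R u' (f l))‖]
    have := pow_eq_zero_iff two_ne_zero |>.1 (this.antisymm (sq_nonneg _))
    linarith
  obtain ⟨ε, e1, e2, e3⟩ : ∃ ε : ℝ, 0 < ε ∧ ε ≤ 1 ∧ ε * ‖u a₀ + X‖ ^ 2 < 2 * t * inner ℝ z X := by
    have := ((continuous_id.mul (continuous_const (y := ‖u a₀ + X‖ ^ 2))).tendsto' (0 : ℝ) 0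
      (by simp)).eventually (gt_mem_nhds (show 0 < 2 * t * inner ℝ z X by positivity))
    obtain ⟨ε, k1, k2⟩ := ((this.filter_mono nhdsWithin_le_nhds).and
      (Ioc_mem_nhdsGT zero_lt_one)).exists
    exact ⟨ε, k2.1, k2.2, k1⟩
  have b1 := (p3 y (((1 - ε) / 2) • (Pi.single a₀ 1 + l)) ν (fun i => mul_nonneg (by linarith)
    (add_nonneg ((single_mem T a₀).1 i) (hl.1 i))) h0 hν ky).2
  rw [map_smul, map_add, R_single, ← hX, show y - ((1 - ε) / 2) • (u a₀ + X) =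
    (1 / 2 : ℝ) • (ε • (u a₀ + X) - t • z) by rw [hy, ho]; module, norm_smul,
    Real.norm_of_nonneg (by norm_num)] at b1
  have b2 := pow_le_pow_left₀ (norm_nonneg _) (show ‖t • z‖ ≤ ‖ε • (u a₀ + X) - t • z‖ by
    linarith) 2
  rw [norm_sub_sq_real, real_inner_smul_left, real_inner_smul_right, inner_add_left,
    real_inner_comm z, real_inner_comm z, z1, norm_smul ε, Real.norm_of_nonneg e1.le] at b2
  nlinarith

/-- The midpoint inequality at a touching point. -/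
theorem midpoint (hV : StVis) (h : Reg 0 u T) (I : Iso1 T (gm 0 u) T' (gm 0 u') f) {o : E4}
    {l p q : ι → ℝ} (hp : p ∈ T.cone) (hq : q ∈ T.cone) (sp : ∀ i, l i ≠ 0 → p i ≠ 0)
    (sq : ∀ i, l i ≠ 0 → q i ≠ 0)
    (vis : ∀ ν : E4, ν ≠ 0 → (∀ i, 0 ≤ inner ℝ ν (u i)) → inner ℝ ν (R u l) = 0 → 0 < inner ℝ ν o)
    (hd : 2 * ‖R u p - R u l‖ ^ 2 + 2 * ‖R u q - R u l‖ ^ 2 ≤ ‖R u' (f p) - R u' (f q)‖ ^ 2) :
    2 * inner ℝ (R u l) o ≤ inner ℝ (R u p) o + inner ℝ (R u q) o := by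
  obtain ⟨π, ρ, p1, -, -, p4⟩ := hV ι u u' T T' f h I
  simp only [R_eq] at p1 p4
  have key : ∀ p ∈ T.cone, (∀ i, l i ≠ 0 → p i ≠ 0) → ∀ ε : ℝ, 0 < ε →
      ‖R u' (f p) - R u' (f (π (R u l - ε • o)))‖ ^ 2 ≤ ‖R u p - R u l‖ ^ 2 +
        2 * (ε * (inner ℝ (R u p) o - inner ℝ (R u l) o)) + (ε * ‖o‖) ^ 2 := by
    intro p hp sp ε hε
    obtain ⟨a, b, c, k, hs⟩ := hp.2
    obtain ⟨x, x1, x2, x3, -⟩ := face_vtx h k
    have x0 : x ≠ 0 := fun e => by simp [e] at x1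
    have x4 : inner ℝ x (R u l) = 0 := zero_of_supp fun i hi => (x3 i).2 (hs i (sp i hi))
    have := p4 (R u p) (R u l - ε • o) x x0 x2 (zero_of_supp fun i hi => (x3 i).2 (hs i hi)).le (by
      rw [inner_sub_right, x4, real_inner_smul_right, zero_sub, neg_nonpos]
      exact (mul_pos hε (vis x x0 x2 x4)).le)
    rw [p1 p hp, show R u p - (R u l - ε • o) = (R u p - R u l) + ε • o by abel, norm_add_sq_real,
      real_inner_smul_right, inner_sub_left, norm_smul, Real.norm_of_nonneg hε.le] at this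
    exact le_trans (le_add_of_nonneg_right (sq_nonneg _)) this
  refine le_of_forall_pos_le_add fun δ hδ => ?_
  have hε : 0 < δ / (2 * ‖o‖ ^ 2 + 1) := by positivity
  have e : δ / (2 * ‖o‖ ^ 2 + 1) * (2 * ‖o‖ ^ 2 + 1) = δ := div_mul_cancel₀ _ (by positivity)
  generalize δ / (2 * ‖o‖ ^ 2 + 1) = ε at hε e
  have a1 := key p hp sp ε hε
  have a2 := key q hq sq ε hε
  have a4 := parallelogram_law_with_norm ℝ (R u' (f p) - R u' (f (π (R u l - ε • o))))
    (R u' (f q) - R u' (f (π (R u l - ε • o))))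
  rw [sub_sub_sub_cancel_right] at a4
  refine le_of_mul_le_mul_left ?_ hε
  nlinarith [sq_nonneg ‖R u' (f p) - R u' (f (π (R u l - ε • o))) +
    (R u' (f q) - R u' (f (π (R u l - ε • o))))‖, mul_pos hε hε]

end Vis

theorem stTouch (hV : StVis) (_ : StType) (hM : StMirror) : StTouch := by
  intro ι _ _ u u' T T' f g a₀ h h' I J gf fg hex
  simp only [R_eq] at hex ⊢
  obtain ⟨z, z1, z2⟩ := (hM ι 0 u T h).1 a₀
  obtain ⟨t, ht, hle, l, hl, hz, e⟩ := exists_touch I z2 z1 hex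
  have vis := fun {l} => visible (l := l) hV h h' I z2 z1 ht
  obtain ⟨j, ja, hj⟩ : ∃ j, j ≠ a₀ ∧ f l j ≠ 0 := by
    by_contra k
    push Not at k
    have e1 : f l = f l a₀ • Pi.single a₀ 1 := funext fun i => by
      by_cases e : i = a₀ <;> simp [e, k]
    rw [← gf l hl, e1, J.homog _ (single_mem T' a₀) _ ((I.maps hl).1 a₀), J.vert, map_smul,
      R_single, real_inner_smul_right, z1, mul_zero] at hz
    exact hz.false
  have hj' : 0 < f l j := ((I.maps hl).1 j).lt_of_ne' hj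
  let p : ℝ → ι → ℝ := fun s => f l + s • (Pi.single j 1 - f l)
  have pj : ∀ s ∈ Icc (-f l j) 1, 0 < p s j := fun s hs => by
    simp only [p, Pi.add_apply, Pi.smul_apply, Pi.sub_apply, Pi.single_eq_same, smul_eq_mul]
    rcases le_total s 0 with k | k
    · nlinarith [hs.1, mul_pos hj' hj']
    · rcases k.eq_or_lt with rfl | k
      · simpa using hj'
      · nlinarith [hs.2]
  have pm : MapsTo p (Icc (-f l j) 1) T'.cone := fun s hs => by
    obtain ⟨h1, a, b, c, k, h2⟩ := I.maps hl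
    have h3 : ∀ i, i ≠ j → p s i = (1 - s) * f l i := fun i hi => by simp [p, hi]; ring
    refine ⟨fun i => ?_, a, b, c, k, fun i hi => ?_⟩
    · rcases eq_or_ne i j with rfl | hi
      exacts [(pj s hs).le, h3 i hi ▸ mul_nonneg (sub_nonneg.2 hs.2) (h1 i)]
    · rcases eq_or_ne i j with rfl | hi'
      exacts [h2 i hj, h2 i (right_ne_zero_of_mul (h3 i hi' ▸ hi))]
  have pc : Continuous p := by fun_prop
  have qc : ContinuousOn (g ∘ p) (Icc (-f l j) 1) := J.cont.comp pc.continuousOn pm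
  have qz : ∀ s ∈ Icc (-f l j) 1, 0 < inner ℝ z (R u (g (p s))) := fun s hs => by
    by_contra k
    have e1 := eq_ray z2 z1 (J.maps (pm hs)).1 (not_lt.1 k)
    have e2 := pj s hs
    rw [← fg _ (pm hs), e1, I.homog _ (single_mem T a₀) _ ((J.maps (pm hs)).1 a₀), I.vert] at e2
    simp [ja] at e2
  have sub : Icc 0 1 ⊆ Icc (-f l j) 1 := Icc_subset_Icc_left (neg_nonpos.2 hj'.le)
  have fin := IsClosed.Icc_subset_of_forall_mem_nhdsWithin (a := 0) (b := 1)
    (s := {s : ℝ | inner ℝ (R u (g (p s))) (u a₀ - t • z) = inner ℝ (R u' (p s)) (u' a₀)}) ?_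
    (by simpa [p, gf l hl] using e) ?_ ⟨zero_le_one, le_rfl⟩
  · have p1 : p 1 = Pi.single j 1 := by simp [p]
    rw [mem_ofPred_eq, p1, J.vert] at fin
    refine ⟨u a₀ - t • z, j, ja, ?_, by simpa only [R_single] using fin, hle, fun a b k => ?_⟩
    · refine lt_of_pow_lt_pow_left₀ 2 (norm_nonneg _) ?_
      have : z ≠ 0 := fun e => by simp [e] at hz
      rw [norm_sub_sq_real, h.good.un a₀, real_inner_smul_right, real_inner_comm z, z1]
      simpa using pow_pos (norm_pos_iff.2 (smul_ne_zero ht.ne' this)) 2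
    · obtain ⟨x, x1, x2, x3, x4⟩ := face_vtx h k
      have := vis (single_mem T j) (by simpa only [p1, J.vert] using qz 1 (sub ⟨zero_le_one, le_rfl⟩))
        (by rwa [I.vert]) (ν := x) (fun e => by simp [e] at x1) x2
        (by rw [R_single, x3]; exact Or.inl rfl)
      have e3 := perp_cr (a := u j) (b := u a) (c := u b) (v := x) x
        (by rw [real_inner_comm, x3]; simp) (by rw [real_inner_comm, x3]; simp)
        (by rw [real_inner_comm, x3]; simp)
      rw [real_inner_self_eq_norm_sq, x1, one_pow, one_smul] at e3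
      rw [← inner_cr, ← e3, real_inner_smul_left]
      exact mul_pos x4 this
  · rw [inter_comm]
    exact isClosed_Icc.isClosed_eq ((R_cont.comp_continuousOn (qc.mono sub)).inner continuousOn_const)
      ((R_cont.comp pc).inner continuous_const).continuousOn
  rintro s ⟨h1, h2⟩
  have hs : s ∈ Icc (-f l j) 1 := sub (Ico_subset_Icc_self h2)
  have hn : Icc (-f l j) 1 ∈ 𝓝 s := Icc_mem_nhds (by linarith [h2.1]) h2.2
  have ev : ∀ᶠ r in 𝓝 s, r ∈ Icc (-f l j) 1 ∧ (∀ i, g (p s) i ≠ 0 → g (p r) i ≠ 0) ∧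
      ‖R u (g (p r)) - R u (g (p s))‖ ^ 2 = ‖R u' (p r) - R u' (p s)‖ ^ 2 := by
    refine Eventually.and hn (Eventually.and (eventually_all.2 fun i => ?_) ?_)
    · by_cases k : g (p s) i = 0
      · exact .of_forall fun _ k' => (k' k).elim
      · exact ((((continuous_apply i).continuousAt.comp (qc.continuousAt hn)).eventually_ne k).mono
          fun _ k' _ => k')
    · exact (tendsto_nhdsWithin_iff.2 ⟨pc.tendsto s, Eventually.mono hn pm⟩).eventually
        (iso_loc J (pm hs))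
  have ev2 := (Continuous.tendsto' (f := fun r => 2 * s - r) (by fun_prop) s s
    (by ring)).eventually ev
  filter_upwards [nhdsWithin_le_nhds ev, nhdsWithin_le_nhds ev2] with r ⟨r1, r2, r3⟩ ⟨r4, r5, r6⟩
  have m1 := midpoint hV h I (J.maps (pm r1)) (J.maps (pm r4)) r2 r5
    (fun ν => vis (J.maps (pm hs)) (qz s hs) (by rwa [fg _ (pm hs)])) (by
      rw [r3, r6, fg _ (pm r1), fg _ (pm r4), ← map_sub, ← map_sub, ← map_sub,
        show p (2 * s - r) - p s = -(p r - p s) by simp only [p]; module,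
        show p r - p (2 * s - r) = (2 : ℝ) • (p r - p s) by simp only [p]; module, map_neg, norm_neg,
        map_smul, norm_smul, Real.norm_two]
      linarith)
  have m2 := hle _ (J.maps (pm r1))
  have m3 := hle _ (J.maps (pm r4))
  have m4 : inner ℝ (R u' (p r)) (u' a₀) + inner ℝ (R u' (p (2 * s - r))) (u' a₀) =
      2 * inner ℝ (R u' (p s)) (u' a₀) := by
    rw [← inner_add_left, ← map_add, show p r + p (2 * s - r) = (2 : ℝ) • p s by
      simp only [p]; module, map_smul, real_inner_smul_left]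
  rw [fg _ (pm r1)] at m2
  rw [fg _ (pm r4)] at m3
  rw [mem_ofPred_eq] at h1
  linarith

theorem stAlex (hT : StTouch) (hV : StVert) : StAlex := by
  have key : ∀ (ι : Type) [Fintype ι] [DecidableEq ι] (u u' : ι → E4) (T T' : Tri ι)
      (f g : (ι → ℝ) → ι → ℝ), Reg 0 u T → Reg 0 u' T' → Iso1 T (gm 0 u) T' (gm 0 u') f →
      Iso1 T' (gm 0 u') T (gm 0 u) g → (∀ y ∈ T.cone, g (f y) = y) → (∀ y ∈ T'.cone, f (g y) = y) →
      ∀ a b, inner ℝ (u a) (u b) ≤ inner ℝ (u' a) (u' b) := by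
    intro ι _ _ u u' T T' f g h h' I J gf fg a b
    by_contra k
    obtain ⟨o, j, k1, k2, k3, k4, k5⟩ := hT ι u u' T T' f g b h h' I J gf fg
      ⟨_, single_mem T a, by simpa only [R_eq, I.vert, R_single] using not_le.1 k⟩
    exact hV ι u u' T T' f g b j o h h' I gf k1 k2 k3 k4 k5
  rintro ι _ _ u u' T T' h h' ⟨f, g, I, J, gf, fg⟩ a b
  exact (key ι u u' T T' f g h h' I J gf fg a b).antisymm (key ι u' u T' T g f h' h J I fg gf a b)

end Pool.Agent.Lib.MP_34b931_co.G
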