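import Pool.Agent.Lib.MP_34b931_co.H22Tri

/-! Crossing one wall of the secondary fan, and positivity of the form in general position. -/

namespace Pool.Agent.Lib.MP_34b931_co.G

open Filter Topology

namespace Wall

variable {ι : Type} {p : ι → E4} {o : E4}

theorem lift_eq {w : ι → ℝ} {a b c d : ι} {y : E4} (ha : inner ℝ y (p a) = w a)
    (hb : inner ℝ y (p b) = w b) (hc : inner ℝ y (p c) = w c) (hd : inner ℝ y (p d) = w d)
    (m : ι) : Lift p w a b c d m = d4 (p a) (p b) (p c) (p d) * (inner ℝ y (p m) - w m) := by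
  have := congrArg (inner ℝ y) (cramer4 (p a) (p b) (p c) (p d) (p m))
  simp only [inner_add_right, real_inner_smul_right, ha, hb, hc, hd] at this
  unfold Lift
  linarith

theorem cell_fun {w : ι → ℝ} {a b c d : ι} (h : Cell p w a b c d) : ∃ y : E4,
    (∀ m, w m ≤ inner ℝ y (p m)) ∧
      ∀ m, (m = a ∨ m = b ∨ m = c ∨ m = d) → inner ℝ y (p m) = w m := by
  obtain ⟨y, ha, hb, hc, hd⟩ := exists_dual4 h.1 (w a) (w b) (w c) (w d)
  have h2 : ∀ m, (m = a ∨ m = b ∨ m = c ∨ m = d) → inner ℝ y (p m) = w m := by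
    rintro m (rfl | rfl | rfl | rfl) <;> assumption
  refine ⟨y, fun m => ?_, h2⟩
  by_cases hm : m = a ∨ m = b ∨ m = c ∨ m = d
  · exact (h2 m hm).ge
  · simp only [not_or] at hm
    have := h.2 m hm.1 hm.2.1 hm.2.2.1 hm.2.2.2
    rw [lift_eq ha hb hc hd, ← mul_assoc] at this
    have := (pos_iff_pos_of_mul_pos this).1 (mul_self_pos.2 h.1)
    linarith

theorem sum5 (h : Fin 5 → Fin 5 → Fin 5 → Fin 5 → ℝ) (s1 : ∀ a b c d, h a b c d = h b a c d)
    (s2 : ∀ a b c d, h a b c d = h a c b d) (s3 : ∀ a b c d, h a b c d = h a b d c)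
    (z1 : ∀ a c d, h a a c d = 0) : ∑ a, ∑ b, ∑ c, ∑ d, h a b c d =
      24 * (h 1 2 3 4 + h 0 2 3 4 + h 0 1 3 4 + h 0 1 2 4 + h 0 1 2 3) := by
  have z2 : ∀ a b d, h a b b d = 0 := fun a b d => by rw [s1, s2, z1]
  have z3 : ∀ a b c, h a b c c = 0 := fun a b c => by rw [s2, s3, z2]
  simp only [Fin.sum_univ_five]
  simp only [s1, s2, s3, z1, z2, z3]
  ring

theorem sum_range [Fintype ι] {e : Fin 5 → ι} (he : Function.Injective e) (F : ι → ℝ)
    (h : ∀ x, x ∉ Set.range e → F x = 0) : ∑ x, F x = ∑ i, F (e i) :=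
  (Fintype.sum_of_injective e he _ F h fun _ => rfl).symm

theorem sum_range4 [Fintype ι] {e : Fin 5 → ι} (he : Function.Injective e)
    (F : ι → ι → ι → ι → ℝ) (h : ∀ a b c d, ¬ (a ∈ Set.range e ∧ b ∈ Set.range e ∧
      c ∈ Set.range e ∧ d ∈ Set.range e) → F a b c d = 0) :
    ∑ a, ∑ b, ∑ c, ∑ d, F a b c d = ∑ i, ∑ j, ∑ k, ∑ l, F (e i) (e j) (e k) (e l) := by
  rw [sum_range he _ fun a ha => by simp [fun b c d => h a b c d fun k => ha k.1]]
  refine Finset.sum_congr rfl fun i _ => ?_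
  rw [sum_range he _ fun b hb => by simp [fun c d => h (e i) b c d fun k => hb k.2.1]]
  refine Finset.sum_congr rfl fun j _ => ?_
  rw [sum_range he _ fun c hc => by simp [fun d => h (e i) (e j) c d fun k => hc k.2.2.1]]
  refine Finset.sum_congr rfl fun k _ => ?_
  exact sum_range he _ fun d hd => h _ _ _ d fun k => hd k.2.2.2

theorem hq12 {y : ι → ι → ℝ} (hy : ∀ a b, y a b = y b a) (a b c d : ι) :
    hq p o a b c d y y = hq p o b a c d y y := by
  simp only [hq, Rq]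
  rw [d4_swap12 (p a) (p b) (p c) (p d), d4_swap12 (p a) o, d4_swap12 o (p b),
    d4_swap12 (p a) (p b) o, d4_swap12 (p a) (p b) (p c) o, abs_neg, hy b a]
  congr 1 <;> ring

theorem hq23 {y : ι → ι → ℝ} (hy : ∀ a b, y a b = y b a) (a b c d : ι) :
    hq p o a b c d y y = hq p o a c b d y y := by
  simp only [hq, Rq]
  rw [d4_swap23 (p a) (p b) (p c) (p d), d4_swap23 o (p b), d4_swap23 (p a) (p b) o,
    d4_swap23 (p a) o (p c), d4_swap23 (p a) (p b) (p c) o, abs_neg, hy c b]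
  congr 1 <;> ring

theorem hq34 {y : ι → ι → ℝ} (hy : ∀ a b, y a b = y b a) (a b c d : ι) :
    hq p o a b c d y y = hq p o a b d c y y := by
  simp only [hq, Rq]
  rw [d4_swap34 (p a) (p b) (p c) (p d), d4_swap34 o (p b) (p c), d4_swap34 (p a) o (p c),
    d4_swap34 (p a) (p b) (p c) o, d4_swap34 (p a) (p b) o (p d), abs_neg, hy d c]
  congr 1 <;> ring

theorem hq_coord {a b c d : ι} {α β γ δ : ℝ} (ho : o = α • p a + β • p b + γ • p c + δ • p d)
    (hD : d4 (p a) (p b) (p c) (p d) ≠ 0) (y : ι → ι → ℝ) : hq p o a b c d y y =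
      (α * β * y a b + α * γ * y a c + α * δ * y a d + β * γ * y b c + β * δ * y b d +
        γ * δ * y c d) ^ 2 / (α * β * γ * δ) / |d4 (p a) (p b) (p c) (p d)| := by
  have e1 : d4 o (p b) (p c) (p d) = α * d4 (p a) (p b) (p c) (p d) := by
    subst ho; simp [d4, m3]; ring
  have e2 : d4 (p a) o (p c) (p d) = β * d4 (p a) (p b) (p c) (p d) := by
    subst ho; simp [d4, m3]; ring
  have e3 : d4 (p a) (p b) o (p d) = γ * d4 (p a) (p b) (p c) (p d) := by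
    subst ho; simp [d4, m3]; ring
  have e4 : d4 (p a) (p b) (p c) o = δ * d4 (p a) (p b) (p c) (p d) := by
    subst ho; simp [d4, m3]; ring
  simp only [hq, Rq, e1, e2, e3, e4]
  rw [div_div, ← mul_div_mul_left _ (_ * _ * _ * _ * _) (pow_ne_zero 4 hD)]
  congr 1 <;> ring

theorem coord_ne (hO : GenO p o) {a b c d : ι} {α β γ δ : ℝ}
    (ho : o = α • p a + β • p b + γ • p c + δ • p d) (hD : d4 (p a) (p b) (p c) (p d) ≠ 0) :
    α ≠ 0 ∧ β ≠ 0 ∧ γ ≠ 0 ∧ δ ≠ 0 := by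
  refine ⟨?_, ?_, ?_, ?_⟩ <;> rintro rfl
  · refine hO b c d ⟨p a, by rwa [d4_rot, neg_ne_zero]⟩ ?_
    subst ho; simp [d4, m3]; ring
  · refine hO a c d ⟨p b, by rwa [d4_swap34, d4_swap23, neg_neg]⟩ ?_
    subst ho; simp [d4, m3]; ring
  · refine hO a b d ⟨p c, by rwa [d4_swap34, neg_ne_zero]⟩ ?_
    subst ho; simp [d4, m3]; ring
  · refine hO a b c ⟨p d, hD⟩ ?_
    subst ho; simp [d4, m3]; ring

theorem cell_iff {w₀ w : ι → ℝ} {Z : Set ι} {y₀ : E4} (hy : ∀ x ∈ Z, inner ℝ y₀ (p x) = w₀ x)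
    {a b c d m : ι} (hZ : ∀ x, x ∈ Z ↔ x = a ∨ x = b ∨ x = c ∨ x = d ∨ x = m)
    (hD : d4 (p a) (p b) (p c) (p d) ≠ 0) (ma : m ≠ a) (mb : m ≠ b) (mc : m ≠ c) (md : m ≠ d)
    (hs : ∀ x, x ∉ Z → 0 < Lift p w₀ a b c d x * Lift p w a b c d x) :
    Cell p w a b c d ↔ (∀ x, x ∉ Z → w₀ x < inner ℝ y₀ (p x)) ∧
      0 < d4 (p a) (p b) (p c) (p d) * Lift p w a b c d m := by
  have key : ∀ x, x ∉ Z → (w₀ x < inner ℝ y₀ (p x) ↔
      0 < d4 (p a) (p b) (p c) (p d) * Lift p w a b c d x) := fun x hx => by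
    have := hs x hx
    rw [lift_eq (hy a (by simp [hZ])) (hy b (by simp [hZ])) (hy c (by simp [hZ]))
      (hy d (by simp [hZ])), mul_comm (d4 _ _ _ _), mul_assoc] at this
    rw [← pos_iff_pos_of_mul_pos this, sub_pos]
  constructor
  · intro h
    refine ⟨fun x hx => (key x hx).2 ?_, h.2 m ma mb mc md⟩
    simp only [hZ, not_or] at hx
    exact h.2 x hx.1 hx.2.1 hx.2.2.1 hx.2.2.2.1
  · rintro ⟨h1, h2⟩
    refine ⟨hD, fun x xa xb xc xd => ?_⟩
    by_cases hx : x ∈ Z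
    · obtain rfl : x = m := by simpa [hZ, xa, xb, xc, xd] using hx
      exact h2
    · exact (key x hx).1 (h1 x hx)

/-- The three possibilities for the change of the cells. -/
def Kap (C : Prop) (l1 l2 κ : ℝ) : Prop :=
  (κ = 0 ∧ (¬ C ∨ 0 < l1 * l2)) ∨ (C ∧ l1 < 0 ∧ 0 < l2 ∧ κ = -1) ∨ (C ∧ l2 < 0 ∧ 0 < l1 ∧ κ = 1)

theorem exists_kap (C : Prop) {l1 l2 : ℝ} (h1 : l1 ≠ 0) (h2 : l2 ≠ 0) :
    ∃ κ, Kap C l1 l2 κ ∧ κ * l2 ≤ 0 := by
  by_cases hC : C
  · rcases h1.lt_or_gt with h1 | h1 <;> rcases h2.lt_or_gt with h2 | h2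
    · exact ⟨0, Or.inl ⟨rfl, Or.inr (mul_pos_of_neg_of_neg h1 h2)⟩, by simp⟩
    · exact ⟨-1, Or.inr (Or.inl ⟨hC, h1, h2, rfl⟩), by linarith⟩
    · exact ⟨1, Or.inr (Or.inr ⟨hC, h2, h1, rfl⟩), by linarith⟩
    · exact ⟨0, Or.inl ⟨rfl, Or.inr (mul_pos h1 h2)⟩, by simp⟩
  · exact ⟨0, Or.inl ⟨rfl, Or.inl hC⟩, by simp⟩

theorem ite_diff {P1 P2 C : Prop} [Decidable P1] [Decidable P2] {μ l1 l2 κ : ℝ} (Y : ℝ)
    (h1 : P1 ↔ C ∧ 0 < -(μ * l1)) (h2 : P2 ↔ C ∧ 0 < -(μ * l2)) (hμ : μ ≠ 0)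
    (hκ : Kap C l1 l2 κ) :
    (if P2 then Y / |μ| else 0) - (if P1 then Y / |μ| else 0) = κ * (Y / μ) := by
  rcases hκ with ⟨rfl, hC | hl⟩ | ⟨hC, k1, k2, rfl⟩ | ⟨hC, k2, k1, rfl⟩
  · simp [h1, h2, hC]
  · have : P1 ↔ P2 := by
      rw [h1, h2]
      refine and_congr_right fun _ => pos_iff_pos_of_mul_pos ?_
      have := mul_pos (mul_self_pos.2 hμ) hl
      linarith
    simp [this]
  · rcases hμ.lt_or_gt with hμ | hμ
    · rw [if_pos (h2.2 ⟨hC, by nlinarith⟩), if_neg fun h => by nlinarith [(h1.1 h).2],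
        abs_of_neg hμ, div_neg]
      ring
    · rw [if_pos (h1.2 ⟨hC, by nlinarith⟩), if_neg fun h => by nlinarith [(h2.1 h).2],
        abs_of_pos hμ]
      ring
  · rcases hμ.lt_or_gt with hμ | hμ
    · rw [if_pos (h1.2 ⟨hC, by nlinarith⟩), if_neg fun h => by nlinarith [(h2.1 h).2],
        abs_of_neg hμ, div_neg]
      ring
    · rw [if_pos (h2.2 ⟨hC, by nlinarith⟩), if_neg fun h => by nlinarith [(h1.1 h).2],
        abs_of_pos hμ]
      ring

theorem lagr {s0 s1 s2 s3 s4 : ℝ} (A B r : ℝ) (h01 : s1 - s0 ≠ 0) (h02 : s2 - s0 ≠ 0)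
    (h03 : s3 - s0 ≠ 0) (h04 : s4 - s0 ≠ 0) (h12 : s2 - s1 ≠ 0) (h13 : s3 - s1 ≠ 0)
    (h14 : s4 - s1 ≠ 0) (h23 : s3 - s2 ≠ 0) (h24 : s4 - s2 ≠ 0) (h34 : s4 - s3 ≠ 0) :
    (A + B * s0 + r * s0 ^ 2) ^ 2 / ((s1 - s0) * (s2 - s0) * (s3 - s0) * (s4 - s0)) +
    (A + B * s1 + r * s1 ^ 2) ^ 2 / (-(s1 - s0) * (s2 - s1) * (s3 - s1) * (s4 - s1)) +
    (A + B * s2 + r * s2 ^ 2) ^ 2 / ((s2 - s0) * (s2 - s1) * (s3 - s2) * (s4 - s2)) +
    (A + B * s3 + r * s3 ^ 2) ^ 2 / (-(s3 - s0) * (s3 - s1) * (s3 - s2) * (s4 - s3)) +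
    (A + B * s4 + r * s4 ^ 2) ^ 2 / ((s4 - s0) * (s4 - s1) * (s4 - s2) * (s4 - s3)) = r ^ 2 := by
  field_simp
  ring

open Classical in
theorem one (hO : GenO p o) {w₀ w₁ w₂ : ι → ℝ} {Z : Set ι} {y₀ : E4}
    (hy : ∀ x ∈ Z, inner ℝ y₀ (p x) = w₀ x)
    (hs : ∀ a b c d m, d4 (p a) (p b) (p c) (p d) ≠ 0 → m ≠ a → m ≠ b → m ≠ c → m ≠ d →
      ¬ (a ∈ Z ∧ b ∈ Z ∧ c ∈ Z ∧ d ∈ Z ∧ m ∈ Z) →
      0 < Lift p w₀ a b c d m * Lift p w₁ a b c d m ∧
        0 < Lift p w₀ a b c d m * Lift p w₂ a b c d m)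
    {l1 l2 κ : ℝ} (hκ : Kap (∀ x, x ∉ Z → w₀ x < inner ℝ y₀ (p x)) l1 l2 κ) {a b c d m : ι}
    (hZ : ∀ x, x ∈ Z ↔ x = a ∨ x = b ∨ x = c ∨ x = d ∨ x = m) (ma : m ≠ a) (mb : m ≠ b)
    (mc : m ≠ c) (md : m ≠ d) {μ α β γ δ : ℝ} (hμ : μ ≠ 0)
    (hD : |d4 (p a) (p b) (p c) (p d)| = |μ|)
    (e1 : d4 (p a) (p b) (p c) (p d) * Lift p w₁ a b c d m = -(μ * l1))
    (e2 : d4 (p a) (p b) (p c) (p d) * Lift p w₂ a b c d m = -(μ * l2))
    (ho : o = α • p a + β • p b + γ • p c + δ • p d) :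
    (α ≠ 0 ∧ β ≠ 0 ∧ γ ≠ 0 ∧ δ ≠ 0) ∧ ∀ y : ι → ι → ℝ,
      (if Cell p w₂ a b c d then hq p o a b c d y y else 0) -
        (if Cell p w₁ a b c d then hq p o a b c d y y else 0) =
      κ * ((α * β * y a b + α * γ * y a c + α * δ * y a d + β * γ * y b c + β * δ * y b d +
        γ * δ * y c d) ^ 2 / (α * β * γ * δ) / μ) := by
  have hD0 : d4 (p a) (p b) (p c) (p d) ≠ 0 := by rwa [← abs_ne_zero, hD, abs_ne_zero]
  have hx : ∀ x, x ∉ Z → 0 < Lift p w₀ a b c d x * Lift p w₁ a b c d x ∧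
      0 < Lift p w₀ a b c d x * Lift p w₂ a b c d x := fun x hx => by
    have := hx
    simp only [hZ, not_or] at this
    exact hs a b c d x hD0 this.1 this.2.1 this.2.2.1 this.2.2.2.1 fun k => hx k.2.2.2.2
  refine ⟨coord_ne hO ho hD0, fun y => ?_⟩
  rw [hq_coord ho hD0, hD]
  refine ite_diff _ ?_ ?_ hμ hκ
  · rw [cell_iff hy hZ hD0 ma mb mc md fun x h => (hx x h).1, e1]
  · rw [cell_iff hy hZ hD0 ma mb mc md fun x h => (hx x h).2, e2]

/-- Coefficients of the linear relation between five vectors. -/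
def mu (p : ι → E4) (e : Fin 5 → ι) : Fin 5 → ℝ :=
  ![-d4 (p (e 1)) (p (e 2)) (p (e 3)) (p (e 4)), d4 (p (e 0)) (p (e 2)) (p (e 3)) (p (e 4)),
    -d4 (p (e 0)) (p (e 1)) (p (e 3)) (p (e 4)), d4 (p (e 0)) (p (e 1)) (p (e 2)) (p (e 4)),
    -d4 (p (e 0)) (p (e 1)) (p (e 2)) (p (e 3))]

def lead (μ : Fin 5 → ℝ) (z : Fin 5 → Fin 5 → ℝ) : ℝ :=
  μ 0 * μ 1 * z 0 1 + μ 0 * μ 2 * z 0 2 + μ 0 * μ 3 * z 0 3 + μ 0 * μ 4 * z 0 4 +
    μ 1 * μ 2 * z 1 2 + μ 1 * μ 3 * z 1 3 + μ 1 * μ 4 * z 1 4 + μ 2 * μ 3 * z 2 3 +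
    μ 2 * μ 4 * z 2 4 + μ 3 * μ 4 * z 3 4

theorem mu_rel (p : ι → E4) (e : Fin 5 → ι) : ∑ i, mu p e i • p (e i) = 0 := by
  apply ext4 <;> simp [Fin.sum_univ_five, mu, d4, m3] <;> ring

theorem mu_lift (p : ι → E4) (e : Fin 5 → ι) (w : ι → ℝ) :
    Lift p w (e 0) (e 1) (e 2) (e 3) (e 4) = ∑ i, mu p e i * w (e i) := by
  simp [Fin.sum_univ_five, mu, Lift, d4, m3]
  ring

theorem mu_ne (hG : GP p) {e : Fin 5 → ι} (he : Function.Injective e) (i : Fin 5) :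
    mu p e i ≠ 0 := by
  fin_cases i <;> simp only [mu] <;> simp <;> apply hG <;> simp [he.eq_iff]

theorem mu_inner (p : ι → E4) (e : Fin 5 → ι) (y : E4) :
    ∑ i, mu p e i * inner ℝ y (p (e i)) = 0 := by
  have := congrArg (inner ℝ y) (mu_rel p e)
  simpa only [inner_sum, real_inner_smul_right, inner_zero_right] using this

theorem flip_id {μ s : Fin 5 → ℝ} (z : Fin 5 → Fin 5 → ℝ) {R : Fin 5 → Fin 5 → Fin 5 → Fin 5 →
    Fin 5 → ℝ} (hR : ∀ a b c d m, R a b c d m =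
      (μ a * (s a - s m) * (μ b * (s b - s m)) * z a b +
        μ a * (s a - s m) * (μ c * (s c - s m)) * z a c +
        μ a * (s a - s m) * (μ d * (s d - s m)) * z a d +
        μ b * (s b - s m) * (μ c * (s c - s m)) * z b c +
        μ b * (s b - s m) * (μ d * (s d - s m)) * z b d +
        μ c * (s c - s m) * (μ d * (s d - s m)) * z c d) ^ 2 /
      (μ a * (s a - s m) * (μ b * (s b - s m)) * (μ c * (s c - s m)) * (μ d * (s d - s m))) / μ m)
    (h01 : s 1 - s 0 ≠ 0) (h02 : s 2 - s 0 ≠ 0) (h03 : s 3 - s 0 ≠ 0) (h04 : s 4 - s 0 ≠ 0)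
    (h12 : s 2 - s 1 ≠ 0) (h13 : s 3 - s 1 ≠ 0) (h14 : s 4 - s 1 ≠ 0) (h23 : s 3 - s 2 ≠ 0)
    (h24 : s 4 - s 2 ≠ 0) (h34 : s 4 - s 3 ≠ 0) :
    R 1 2 3 4 0 + R 0 2 3 4 1 + R 0 1 3 4 2 + R 0 1 2 4 3 + R 0 1 2 3 4 =
      lead μ z ^ 2 / (μ 0 * μ 1 * μ 2 * μ 3 * μ 4) := by
  rw [← lagr (lead μ fun i j => z i j * (s i * s j)) (-lead μ fun i j => z i j * (s i + s j))
    (lead μ z) h01 h02 h03 h04 h12 h13 h14 h23 h24 h34]
  simp only [hR, add_div, div_div, lead]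
  congr 1
  congr 1
  congr 1
  congr 1
  all_goals congr 1 <;> ring

theorem signs (x : Fin 5 → ℝ) (h0 : ∀ i, x i ≠ 0) (h1 : ∀ i, ∃ j, j ≠ i ∧ x j < 0)
    (h2 : ∀ i, ∃ j, j ≠ i ∧ 0 < x j) : x 0 * x 1 * x 2 * x 3 * x 4 < 0 ∨
      ∃ d e, d ≠ e ∧ ∀ i, i ≠ d → i ≠ e → 0 < x i := by
  have key : ∀ s0 s1 s2 s3 s4 : SignType, (∀ i, ![s0, s1, s2, s3, s4] i ≠ 0) →
      (∀ i, ∃ j, j ≠ i ∧ ![s0, s1, s2, s3, s4] j = -1) →
      (∀ i, ∃ j, j ≠ i ∧ ![s0, s1, s2, s3, s4] j = 1) → s0 * s1 * s2 * s3 * s4 = -1 ∨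
        ∃ d e, d ≠ e ∧ ∀ i, i ≠ d → i ≠ e → ![s0, s1, s2, s3, s4] i = 1 := by decide
  have hv : ∀ i, ![SignType.sign (x 0), SignType.sign (x 1), SignType.sign (x 2),
      SignType.sign (x 3), SignType.sign (x 4)] i = SignType.sign (x i) := fun i => by
    fin_cases i <;> rfl
  have := key (SignType.sign (x 0)) (SignType.sign (x 1)) (SignType.sign (x 2))
    (SignType.sign (x 3)) (SignType.sign (x 4))
  simp only [hv, ← sign_mul, sign_eq_neg_one_iff, sign_eq_one_iff, ne_eq, sign_eq_zero_iff] at this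
  exact this h0 h1 h2

theorem two_signs (hE : Ext p) {e : Fin 5 → ι} (he : Function.Injective e) {t : ℝ} (i : Fin 5)
    (h0 : ∀ j, t * mu p e j ≠ 0) : ∃ j, j ≠ i ∧ t * mu p e j < 0 := by
  by_contra h
  push Not at h
  obtain ⟨z, z1, z2⟩ := hE (e i)
  have h1 : ∑ j, t * mu p e j * inner ℝ z (p (e j)) = 0 := by
    simp only [mul_assoc, ← Finset.mul_sum, mu_inner, mul_zero]
  obtain ⟨k, hk⟩ := exists_ne i
  refine (Finset.sum_pos' (fun j _ => ?_) ⟨k, Finset.mem_univ _, ?_⟩).ne' h1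
  · by_cases hj : j = i
    · rw [hj, z1, mul_zero]
    · exact mul_nonneg (h j hj) (z2 _ (he.ne hj)).le
  · exact mul_pos ((h k hk).lt_of_ne' (h0 k)) (z2 _ (he.ne hk))

theorem lift0 (w : ι → ℝ) (a b c d m : ι) : Lift p w b c d m a = Lift p w a b c d m := by
  simp only [Lift, d4, m3]; ring

theorem lift1 (w : ι → ℝ) (a b c d m : ι) : Lift p w a c d m b = -Lift p w a b c d m := by
  simp only [Lift, d4, m3]; ring

theorem lift2 (w : ι → ℝ) (a b c d m : ι) : Lift p w a b d m c = Lift p w a b c d m := by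
  simp only [Lift, d4, m3]; ring

theorem lift3 (w : ι → ℝ) (a b c d m : ι) : Lift p w a b c m d = -Lift p w a b c d m := by
  simp only [Lift, d4, m3]; ring

theorem diff [Fintype ι] (hS : StCellSym) (hG : GP p) (hO : GenO p o) {w₀ w₁ w₂ : ι → ℝ}
    {e : Fin 5 → ι} (g1 : Gen p w₁) (g2 : Gen p w₂) (he : Function.Injective e)
    (h0 : Lift p w₀ (e 0) (e 1) (e 2) (e 3) (e 4) = 0)
    (hs : ∀ a b c d m, d4 (p a) (p b) (p c) (p d) ≠ 0 → m ≠ a → m ≠ b → m ≠ c → m ≠ d →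
      ¬ (a ∈ Set.range e ∧ b ∈ Set.range e ∧ c ∈ Set.range e ∧ d ∈ Set.range e ∧
        m ∈ Set.range e) → 0 < Lift p w₀ a b c d m * Lift p w₁ a b c d m ∧
        0 < Lift p w₀ a b c d m * Lift p w₂ a b c d m) :
    ∃ κ : ℝ, κ * Lift p w₂ (e 0) (e 1) (e 2) (e 3) (e 4) ≤ 0 ∧
      ∀ y : ι → ι → ℝ, (∀ a b, y a b = y b a) → Hb p o (Cell p w₂) y y = Hb p o (Cell p w₁) y y +
        24 * (κ * (lead (mu p e) (fun i j => y (e i) (e j)) ^ 2 /
          (mu p e 0 * mu p e 1 * mu p e 2 * mu p e 3 * mu p e 4))) := by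
  classical
  have hμ := mu_ne hG he
  have hD : d4 (p (e 0)) (p (e 1)) (p (e 2)) (p (e 3)) ≠ 0 := by simpa [mu] using hμ 4
  have ne : ∀ i j, i ≠ j → e i ≠ e j := fun i j h => he.ne h
  obtain ⟨y₀, y0, y1, y2, y3⟩ := exists_dual4 hD (w₀ (e 0)) (w₀ (e 1)) (w₀ (e 2)) (w₀ (e 3))
  have y4 : inner ℝ y₀ (p (e 4)) = w₀ (e 4) := by
    rw [lift_eq y0 y1 y2 y3] at h0
    exact sub_eq_zero.1 ((mul_eq_zero.1 h0).resolve_left hD)
  have hy : ∀ x ∈ Set.range e, inner ℝ y₀ (p x) = w₀ x := by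
    rintro _ ⟨i, rfl⟩
    fin_cases i <;> assumption
  have hZ : ∀ x, x ∈ Set.range e ↔ x = e 0 ∨ x = e 1 ∨ x = e 2 ∨ x = e 3 ∨ x = e 4 := fun x => by
    simp [Fin.exists_fin_succ, eq_comm]
  obtain ⟨κ, hκ, hκ'⟩ := exists_kap (∀ x, x ∉ Set.range e → w₀ x < inner ℝ y₀ (p x))
    (g1 _ _ _ _ (e 4) hD (ne _ _ (by decide)) (ne _ _ (by decide)) (ne _ _ (by decide))
      (ne _ _ (by decide)))
    (g2 _ _ _ _ (e 4) hD (ne _ _ (by decide)) (ne _ _ (by decide)) (ne _ _ (by decide))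
      (ne _ _ (by decide)))
  obtain ⟨s, ho⟩ : ∃ s : Fin 5 → ℝ, o = ∑ i, (mu p e i * s i) • p (e i) := by
    have hc := cramer4 (p (e 0)) (p (e 1)) (p (e 2)) (p (e 3)) o
    set D := d4 (p (e 0)) (p (e 1)) (p (e 2)) (p (e 3))
    refine ⟨fun i => ![d4 o (p (e 1)) (p (e 2)) (p (e 3)), d4 (p (e 0)) o (p (e 2)) (p (e 3)),
      d4 (p (e 0)) (p (e 1)) o (p (e 3)), d4 (p (e 0)) (p (e 1)) (p (e 2)) o, 0] i / D / mu p e i,
      ?_⟩
    simp only [mul_div_cancel₀ _ (hμ _)]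
    refine smul_right_injective _ hD ?_
    simp only [hc, Finset.smul_sum, smul_smul, mul_div_cancel₀ _ hD]
    simp [Fin.sum_univ_five]
  have ho' : ∀ m, o = ∑ i, (mu p e i * (s i - s m)) • p (e i) := fun m => by
    have := mu_rel p e
    simp only [Fin.sum_univ_five] at this ho ⊢
    linear_combination (norm := module) ho + s m • this
  have k0 := one hO hy hs hκ (a := e 1) (b := e 2) (c := e 3) (d := e 4) (m := e 0)
    (fun x => by rw [hZ]; grind) (ne _ _ (by decide)) (ne _ _ (by decide)) (ne _ _ (by decide))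
    (ne _ _ (by decide)) (hμ 0) (by simp [mu]) (by rw [lift0]; simp [mu])
    (by rw [lift0]; simp [mu]) (by simpa [Fin.sum_univ_five] using ho' 0)
  have k1 := one hO hy hs hκ (a := e 0) (b := e 2) (c := e 3) (d := e 4) (m := e 1)
    (fun x => by rw [hZ]; grind) (ne _ _ (by decide)) (ne _ _ (by decide)) (ne _ _ (by decide))
    (ne _ _ (by decide)) (hμ 1) (by simp [mu]) (by rw [lift1]; simp [mu])
    (by rw [lift1]; simp [mu]) (by simpa [Fin.sum_univ_five] using ho' 1)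
  have k2 := one hO hy hs hκ (a := e 0) (b := e 1) (c := e 3) (d := e 4) (m := e 2)
    (fun x => by rw [hZ]; grind) (ne _ _ (by decide)) (ne _ _ (by decide)) (ne _ _ (by decide))
    (ne _ _ (by decide)) (hμ 2) (by simp [mu]) (by rw [lift2]; simp [mu])
    (by rw [lift2]; simp [mu]) (by simpa [Fin.sum_univ_five] using ho' 2)
  have k3 := one hO hy hs hκ (a := e 0) (b := e 1) (c := e 2) (d := e 4) (m := e 3)
    (fun x => by rw [hZ]; grind) (ne _ _ (by decide)) (ne _ _ (by decide)) (ne _ _ (by decide))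
    (ne _ _ (by decide)) (hμ 3) (by simp [mu]) (by rw [lift3]; simp [mu])
    (by rw [lift3]; simp [mu]) (by simpa [Fin.sum_univ_five] using ho' 3)
  have k4 := one hO hy hs hκ (a := e 0) (b := e 1) (c := e 2) (d := e 3) (m := e 4)
    hZ (ne _ _ (by decide)) (ne _ _ (by decide)) (ne _ _ (by decide))
    (ne _ _ (by decide)) (hμ 4) (by simp [mu]) (by simp [mu]) (by simp [mu])
    (by simpa [Fin.sum_univ_five] using ho' 4)
  refine ⟨κ, hκ', fun y hsym => ?_⟩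
  have sy : ∀ w a b c d, (Cell p w a b c d ↔ Cell p w b a c d) ∧
      (Cell p w a b c d ↔ Cell p w a c b d) ∧ (Cell p w a b c d ↔ Cell p w a b d c) :=
    fun w a b c d => ⟨⟨fun h => (hS ι p w _ _ _ _ h).1, fun h => (hS ι p w _ _ _ _ h).1⟩,
      ⟨fun h => (hS ι p w _ _ _ _ h).2.1, fun h => (hS ι p w _ _ _ _ h).2.1⟩,
      ⟨fun h => (hS ι p w _ _ _ _ h).2.2, fun h => (hS ι p w _ _ _ _ h).2.2⟩⟩
  rw [← sub_eq_iff_eq_add', Hb, Hb]
  simp only [← Finset.sum_sub_distrib]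
  rw [sum_range4 he _ fun a b c d h => ?_, sum5 _ (fun a b c d => ?_) (fun a b c d => ?_)
    (fun a b c d => ?_) fun a c d => ?_]
  · rw [k0.2, k1.2, k2.2, k3.2, k4.2, ← flip_id (fun i j => y (e i) (e j)) (fun _ _ _ _ _ => rfl)
      (right_ne_zero_of_mul k0.1.1) (right_ne_zero_of_mul k0.1.2.1)
      (right_ne_zero_of_mul k0.1.2.2.1) (right_ne_zero_of_mul k0.1.2.2.2)
      (right_ne_zero_of_mul k1.1.2.1) (right_ne_zero_of_mul k1.1.2.2.1)
      (right_ne_zero_of_mul k1.1.2.2.2) (right_ne_zero_of_mul k2.1.2.2.1)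
      (right_ne_zero_of_mul k2.1.2.2.2) (right_ne_zero_of_mul k3.1.2.2.2)]
    simp only [mul_add]
  · simp only [(sy _ (e a) (e b) (e c) (e d)).1, hq12 hsym (e a) (e b)]
  · simp only [(sy _ (e a) (e b) (e c) (e d)).2.1, hq23 hsym (e a) (e b) (e c)]
  · simp only [(sy _ (e a) (e b) (e c) (e d)).2.2, hq34 hsym (e a) (e b) (e c) (e d)]
  · rw [if_neg fun h => h.1 (d4_self12 _ _ _), if_neg fun h => h.1 (d4_self12 _ _ _), sub_zero]
  · have : Cell p w₂ a b c d ↔ Cell p w₁ a b c d := by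
      refine and_congr_right fun hD => forall₅_congr fun m ma mb mc md => ?_
      obtain ⟨q1, q2⟩ := hs a b c d m hD ma mb mc md fun k => h ⟨k.1, k.2.1, k.2.2.1, k.2.2.2.1⟩
      refine pos_iff_pos_of_mul_pos ?_
      have q3 := mul_pos (mul_self_pos.2 hD) (mul_pos q1 q2)
      have q4 : 0 < Lift p w₀ a b c d m * Lift p w₀ a b c d m :=
        mul_self_pos.2 (left_ne_zero_of_mul q1.ne')
      refine (pos_iff_pos_of_mul_pos (a := Lift p w₀ a b c d m * Lift p w₀ a b c d m) ?_).1 q4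
      linarith
    simp [this]

/-- The two indices of the small sign class. -/
theorem pair_sum {μ g : Fin 5 → ℝ} {d d' : Fin 5} (hμ : ∀ i, i ≠ d → i ≠ d' → 0 < μ i)
    (hg : ∀ i, 0 ≤ g i) (h1 : g d = 0) (h2 : g d' = 0) (i : Fin 5) : 0 ≤ μ i * g i := by
  by_cases k1 : i = d
  · rw [k1, h1, mul_zero]
  by_cases k2 : i = d'
  · rw [k2, h2, mul_zero]
  exact mul_nonneg (hμ i k1 k2).le (hg i)

theorem not_hull (hG : GP p) {e : Fin 5 → ι} (he : Function.Injective e) {t : ℝ} {d d' : Fin 5}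
    (hμ : ∀ i, i ≠ d → i ≠ d' → 0 < t * mu p e i) : ¬ Hull p (e d) (e d') := by
  rintro ⟨l, l0, l1, l2, l3⟩
  have h1 : ∑ j, t * mu p e j * inner ℝ l (p (e j)) = 0 := by
    simp only [mul_assoc, ← Finset.mul_sum, mu_inner, mul_zero]
  rw [Finset.sum_eq_zero_iff_of_nonneg fun i _ => pair_sum hμ (fun i => l1 (e i)) l2 l3 i] at h1
  have h2 : ∀ i, inner ℝ (p (e i)) l = 0 := fun i => by
    rw [real_inner_comm]
    by_cases k1 : i = d
    · rwa [k1]
    by_cases k2 : i = d'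
    · rwa [k2]
    exact (mul_eq_zero.1 (h1 i (Finset.mem_univ _))).resolve_left (hμ i k1 k2).ne'
  exact l0 (eq_zero_of_inner4 (by simpa [mu] using mu_ne hG he 4) (h2 0) (h2 1) (h2 2) (h2 3))

theorem not_cell {e : Fin 5 → ι} {w : ι → ℝ} {d d' : Fin 5}
    (h0 : Lift p w (e 0) (e 1) (e 2) (e 3) (e 4) ≠ 0)
    (hμ : ∀ i, i ≠ d → i ≠ d' → 0 < Lift p w (e 0) (e 1) (e 2) (e 3) (e 4) * mu p e i)
    {a b c f : ι} (h : Cell p w a b c f) (h1 : e d = a ∨ e d = b ∨ e d = c ∨ e d = f)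
    (h2 : e d' = a ∨ e d' = b ∨ e d' = c ∨ e d' = f) : False := by
  obtain ⟨y, y1, y2⟩ := cell_fun h
  have h3 := Finset.sum_nonneg fun i (_ : i ∈ Finset.univ) =>
    pair_sum hμ (g := fun i => inner ℝ y (p (e i)) - w (e i)) (fun i => sub_nonneg.2 (y1 _))
      (sub_eq_zero.2 (y2 _ h1)) (sub_eq_zero.2 (y2 _ h2)) i
  simp only [mul_assoc, ← Finset.mul_sum, mul_sub, Finset.sum_sub_distrib, mu_inner,
    ← mu_lift] at h3
  nlinarith [mul_self_pos.2 h0]

theorem psd_congr [Fintype ι] {w w' : ι → ℝ}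
    (h : ∀ a b c d m, d4 (p a) (p b) (p c) (p d) ≠ 0 → m ≠ a → m ≠ b → m ≠ c → m ≠ d →
      0 < Lift p w a b c d m * Lift p w' a b c d m) (hw : Psd p o w) : Psd p o w' := by
  have : Cell p w' = Cell p w := by
    ext a b c d
    refine and_congr_right fun hD => forall₅_congr fun m ma mb mc md => ?_
    refine pos_iff_pos_of_mul_pos ?_
    have := mul_pos (mul_self_pos.2 hD) (h a b c d m hD ma mb mc md)
    linarith
  unfold Psd
  rwa [this]

/-- The lifting determinant as a linear form in the heights. -/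
def LL (p : ι → E4) (e : Fin 5 → ι) : (ι → ℝ) →ₗ[ℝ] ℝ where
  toFun w := Lift p w (e 0) (e 1) (e 2) (e 3) (e 4)
  map_add' w w' := by simp only [Lift, Pi.add_apply]; ring
  map_smul' t w := by simp only [Lift, Pi.smul_apply, smul_eq_mul, RingHom.id_apply]; ring

theorem LL_single [DecidableEq ι] {e : Fin 5 → ι} (he : Function.Injective e) (k : Fin 5) :
    LL p e (Pi.single (e k) 1) = mu p e k := by
  change Lift p _ _ _ _ _ _ = _
  simp [mu_lift, Pi.single_apply, he.eq_iff]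

theorem LL_single' [DecidableEq ι] {e : Fin 5 → ι} {x : ι} (hx : x ∉ Set.range e) :
    LL p e (Pi.single x 1) = 0 := by
  change Lift p _ _ _ _ _ _ = _
  have : ∀ i, e i ≠ x := fun i h => hx ⟨i, h⟩
  simp [mu_lift, this]

theorem inj5 {a b c d m : ι} (hD : d4 (p a) (p b) (p c) (p d) ≠ 0) (ma : m ≠ a) (mb : m ≠ b)
    (mc : m ≠ c) (md : m ≠ d) : Function.Injective ![a, b, c, d, m] := by
  have ab : a ≠ b := fun h => hD (by rw [h, d4_self12])
  have ac : a ≠ c := fun h => hD (by rw [h, d4_self13])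
  have ad : a ≠ d := fun h => hD (by rw [h, d4_self14])
  have bc : b ≠ c := fun h => hD (by rw [h, d4_self23])
  have bd : b ≠ d := fun h => hD (by rw [h, d4_self24])
  have cd : c ≠ d := fun h => hD (by rw [h, d4_self34])
  intro i j h
  fin_cases i <;> fin_cases j <;> first | rfl | (simp at h; grind)

theorem gen_of {w : ι → ℝ} (h : ∀ e, Function.Injective e → LL p e w ≠ 0) : Gen p w :=
  fun _ _ _ _ _ hD ma mb mc md => h _ (inj5 hD ma mb mc md)

theorem of_gen (hG : GP p) {w : ι → ℝ} (h : Gen p w) {e : Fin 5 → ι}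
    (he : Function.Injective e) : LL p e w ≠ 0 :=
  h _ _ _ _ _ (by simpa [mu] using mu_ne hG he 4) (he.ne (by decide)) (he.ne (by decide))
    (he.ne (by decide)) (he.ne (by decide))

theorem dense_ne [Fintype ι] {K : Type} [Finite K] (φ : K → (ι → ℝ) →ₗ[ℝ] ℝ)
    (h : ∀ k, ∃ v, φ k v ≠ 0) : Dense {v | ∀ k, φ k v ≠ 0} := by
  rw [Set.ofPred_forall]
  refine dense_iInter_of_isOpen (fun k => ?_) fun k => ?_
  · exact isOpen_ne_fun (φ k).continuous_of_finiteDimensional continuous_const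
  · refine (interior_eq_empty_iff_dense_compl (s := (LinearMap.ker (φ k) : Set (ι → ℝ)))).1 ?_
    by_contra hn
    obtain ⟨v, hv⟩ := h k
    have := Submodule.eq_top_of_nonempty_interior' _ (Set.nonempty_iff_ne_empty.2 hn)
    exact hv (LinearMap.mem_ker.1 (this ▸ Submodule.mem_top))

/-- A property of generic parameters that is locally constant propagates along the line. -/
theorem propagate {A P : ℝ → Prop} (hA : Dense {t | A t})
    (h : ∀ t, ∃ N ∈ 𝓝 t, ∀ s ∈ N, ∀ s' ∈ N, A s → A s' → P s → P s') (a0 : A 0) (a1 : A 1)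
    (p0 : P 0) : P 1 := by
  have hc : IsClopen {t | ∀ᶠ s in 𝓝 t, A s → P s} := by
    refine ⟨isClosed_of_closure_subset fun t ht => ?_, isOpen_setOfPred_eventually_nhds⟩
    obtain ⟨N, hN, h1⟩ := h t
    obtain ⟨t', k1, k2⟩ := mem_closure_iff_nhds.1 ht _ (interior_mem_nhds.2 hN)
    obtain ⟨s, ⟨q1, q2⟩, q3⟩ := mem_closure_iff_nhds.1 (hA t') _
      (inter_mem (mem_interior_iff_mem_nhds.1 k1) k2)
    exact mem_of_superset hN fun s' hs' a' => h1 s q1 s' hs' q3 a' (q2 q3)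
  obtain ⟨N, hN, h1⟩ := h 0
  have h0 : (0 : ℝ) ∈ {t | ∀ᶠ s in 𝓝 t, A s → P s} :=
    mem_of_superset hN fun s' hs' a' => h1 0 (mem_of_mem_nhds hN) s' hs' a0 a' p0
  have h2 : (1 : ℝ) ∈ {t | ∀ᶠ s in 𝓝 t, A s → P s} := hc.eq_univ ⟨0, h0⟩ ▸ Set.mem_univ _
  exact h2.self_of_nhds a1

end Wall

open Wall

theorem stWall (hS : StCellSym) : StWall := by
  intro ι _ p o w₀ w₁ w₂ e hE hG hO g1 g2 he h0 hs hP y hy hH
  classical
  obtain ⟨κ, hκ, H⟩ := diff hS hG hO g1 g2 he h0 hs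
  have hμ := mu_ne hG he
  have hl : Lift p w₂ (e 0) (e 1) (e 2) (e 3) (e 4) ≠ 0 := of_gen hG g2 he
  set l := Lift p w₂ (e 0) (e 1) (e 2) (e 3) (e 4) with hl'
  have h1 : ∀ j, l * mu p e j ≠ 0 := fun j => mul_ne_zero hl (hμ j)
  rcases signs (fun j => l * mu p e j) h1 (fun i => two_signs hE he i h1) (fun i => by
    simpa using two_signs hE he (t := -l) i (by simpa using h1)) with h2 | ⟨d, d', dd, h2⟩
  · rw [H y hy]
    refine add_nonneg (hP y hy hH) (mul_nonneg (by norm_num) ?_)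
    set M := mu p e 0 * mu p e 1 * mu p e 2 * mu p e 3 * mu p e 4 with hM
    have h3 : l * M < 0 := by
      have h4 : l ^ 4 * (l * M) < 0 := by rw [hM]; linarith
      exact neg_of_mul_neg_right h4 (by positivity)
    have h4 : 0 ≤ κ * M := by
      have := mul_nonneg_of_nonpos_of_nonpos hκ h3.le
      exact nonneg_of_mul_nonneg_right (a := l * l) (by linarith) (mul_self_pos.2 hl)
    have hM0 : M ≠ 0 := right_ne_zero_of_mul h3.ne
    have : ∀ r : ℝ, κ * (r ^ 2 / M) = κ * M * (r / M) ^ 2 := fun r => by field_simp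
    rw [this]
    positivity
  · let δ : ι → ι → ℝ := fun a b =>
      if (a = e d ∧ b = e d') ∨ (a = e d' ∧ b = e d) then 1 else 0
    have hδ : lead (mu p e) (fun i j => δ (e i) (e j)) = mu p e d * mu p e d' := by
      simp only [δ, he.eq_iff, lead]
      clear h2
      fin_cases d <;> fin_cases d' <;> simp at dd ⊢ <;> ring
    obtain ⟨t, ht⟩ : ∃ t : ℝ,
        lead (mu p e) (fun i j => y (e i) (e j) + t * δ (e i) (e j)) = 0 := by
      refine ⟨-lead (mu p e) (fun i j => y (e i) (e j)) / (mu p e d * mu p e d'), ?_⟩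
      have := div_mul_cancel₀ (-lead (mu p e) fun i j => y (e i) (e j))
        (mul_ne_zero (hμ d) (hμ d'))
      rw [← hδ] at this ⊢
      simp only [lead] at this ⊢
      linear_combination this
    have hy' : ∀ a b, y a b + t * δ a b = y b a + t * δ b a := fun a b => by
      rw [hy a b]
      simp only [δ, and_comm, or_comm]
    have h3 := H (fun a b => y a b + t * δ a b) hy'
    have h4 := hP (fun a b => y a b + t * δ a b) hy' fun a b h => by
      have : δ a b = 0 := if_neg (by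
        rintro (⟨rfl, rfl⟩ | ⟨rfl, rfl⟩)
        · exact not_hull hG he h2 h
        · exact not_hull hG he (fun i k k' => h2 i k' k) h)
      rw [hH a b h, this, mul_zero, add_zero]
    rw [ht] at h3
    have h5 : Hb p o (Cell p w₂) (fun a b => y a b + t * δ a b) (fun a b => y a b + t * δ a b) =
        Hb p o (Cell p w₂) y y := by
      unfold Hb
      refine Finset.sum_congr rfl fun a _ => Finset.sum_congr rfl fun b _ =>
        Finset.sum_congr rfl fun c _ => Finset.sum_congr rfl fun f _ => ?_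
      split_ifs with h
      · have k : ∀ u v, (u = a ∨ u = b ∨ u = c ∨ u = f) → (v = a ∨ v = b ∨ v = c ∨ v = f) →
            δ u v = 0 := fun u v hu hv => if_neg (by
          rintro (⟨rfl, rfl⟩ | ⟨rfl, rfl⟩)
          · exact not_cell hl h2 h hu hv
          · exact not_cell hl h2 h hv hu)
        simp [hq, Rq, k]
      · rfl
    rw [← h5, h3]
    simpa using h4

theorem stPsdGP (hW : StWall) (hP : StPull) (_hD : StDense) : StPsdGP := by
  intro ι _ p o w hE hG hO hw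
  classical
  rcases isEmpty_or_nonempty ι with _ | ⟨⟨a₀⟩⟩
  · intro y _ _
    simp [Hb]
  let J := {e : Fin 5 → ι // Function.Injective e}
  let K := {q : J × J // ∃ k, q.2.1 k ∉ Set.range q.1.1}
  have hB : ∀ e : J, LL p e.1 w ≠ 0 := fun e => of_gen hG hw e.2
  have d1 := dense_ne (K := J ⊕ K) (Sum.elim (fun e => LL p e.1) fun q =>
    LL p q.1.2.1 w • LL p q.1.1.1 - LL p q.1.1.1 w • LL p q.1.2.1) (by
      rintro (e | ⟨⟨e, e'⟩, k, hk⟩)
      · exact ⟨w, hB e⟩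
      · refine ⟨Pi.single (e'.1 k) 1, ?_⟩
        simp [LL_single e'.2, LL_single' hk, hB e, mu_ne hG e'.2])
  have hU : IsOpen {v : ι → ℝ | ∀ e : J, e.1 4 = a₀ → 0 < mu p e.1 4 * LL p e.1 v} := by
    simp only [Set.ofPred_forall]
    refine isOpen_iInter_of_finite fun e => isOpen_iInter_of_finite fun _ => ?_
    exact isOpen_lt continuous_const
      (continuous_const.mul (LL p e.1).continuous_of_finiteDimensional)
  obtain ⟨v, v1, v2⟩ := d1.exists_mem_open hU ⟨Pi.single a₀ 1, fun e h => by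
    rw [← h, LL_single e.2]
    exact mul_self_pos.2 (mu_ne hG e.2 4)⟩
  have hA : ∀ e : J, LL p e.1 v ≠ 0 := fun e => v1 (Sum.inl e)
  have hv : Gen p v := gen_of fun e he => hA ⟨e, he⟩
  have p0 : Psd p o v := hP ι p o v a₀ hE hG hO hv fun a b c d h => by
    by_contra hn
    simp only [not_or] at hn
    obtain ⟨n1, n2, n3, n4⟩ := hn
    have q1 := h.2 a₀ (Ne.symm n1) (Ne.symm n2) (Ne.symm n3) (Ne.symm n4)
    have q2 : 0 < -d4 (p a) (p b) (p c) (p d) * Lift p v a b c d a₀ :=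
      v2 ⟨_, inj5 h.1 (Ne.symm n1) (Ne.symm n2) (Ne.symm n3) (Ne.symm n4)⟩ rfl
    linarith
  let c : ℝ → ι → ℝ := fun t => (1 - t) • v + t • w
  have hc : ∀ e t, LL p e (c t) = (1 - t) * LL p e v + t * LL p e w := fun e t => by
    simp [c]
  have key := propagate (A := fun t => Gen p (c t)) (P := fun t => Psd p o (c t)) ?_ ?_
    (by simpa [c] using hv) (by simpa [c] using hw) (by simpa [c] using p0)
  · simpa [c] using key
  · refine ((Set.finite_range fun e : J =>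
      LL p e.1 v / (LL p e.1 v - LL p e.1 w)).countable.dense_compl ℝ).mono fun t ht => ?_
    refine gen_of fun e he h => ht ⟨⟨e, he⟩, ?_⟩
    have h1 : LL p e v = t * (LL p e v - LL p e w) := by rw [hc] at h; linarith
    have h2 : LL p e v - LL p e w ≠ 0 := fun k => hA ⟨e, he⟩ (by rw [h1, k, mul_zero])
    exact (div_eq_iff h2).2 h1
  · intro t
    refine ⟨{s | ∀ e : J, LL p e.1 (c t) ≠ 0 → 0 < LL p e.1 (c t) * LL p e.1 (c s)}, ?_,
      fun s hs s' hs' g g' => ?_⟩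
    · refine eventually_all.2 fun e => eventually_imp_distrib_left.2 fun h => ?_
      have : Continuous fun s => LL p e.1 (c t) * LL p e.1 (c s) := by
        simp only [hc]
        fun_prop
      exact this.continuousAt.eventually (lt_mem_nhds (mul_self_pos.2 h))
    by_cases h : ∃ e : J, LL p e.1 (c t) = 0
    · obtain ⟨e, he⟩ := h
      refine hW ι p o (c t) (c s) (c s') e.1 hE hG hO g g' e.2 he
        fun a b c' d m hD ma mb mc md hn => ?_
      have hi := inj5 hD ma mb mc md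
      have h1 : LL p ![a, b, c', d, m] (c t) ≠ 0 := fun h0 => by
        refine v1 (Sum.inr ⟨(e, ⟨_, hi⟩), ?_⟩) ?_
        · by_contra hk
          push Not at hk
          exact hn ⟨hk 0, hk 1, hk 2, hk 3, hk 4⟩
        · rw [hc] at he h0
          simp only [Sum.elim_inr, LinearMap.sub_apply, LinearMap.smul_apply, smul_eq_mul]
          linear_combination (LL p ![a, b, c', d, m] w - LL p ![a, b, c', d, m] v) * he -
            (LL p e.1 w - LL p e.1 v) * h0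
      exact ⟨hs ⟨_, hi⟩ h1, hs' ⟨_, hi⟩ h1⟩
    · push Not at h
      refine psd_congr fun a b c' d m hD ma mb mc md => ?_
      have hi := inj5 hD ma mb mc md
      have q := mul_pos (hs ⟨_, hi⟩ (h _)) (hs' ⟨_, hi⟩ (h _))
      exact (pos_iff_pos_of_mul_pos (a := LL p ![a, b, c', d, m] (c t) *
        LL p ![a, b, c', d, m] (c t)) (by rw [mul_mul_mul_comm]; exact q)).1
        (mul_self_pos.2 (h ⟨_, hi⟩))

end Pool.Agent.Lib.MP_34b931_co.G
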