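import Pool.Agent.Lib.MP_34b931_co.Defs37

namespace Pool.Agent.Lib.MP_34b931_co

open Metric Set Filter Topology

namespace BallPoly

variable {n m : ℕ} {P : BallPoly n}

theorem mem_body {x : E3} : x ∈ P.body ↔ InP P.c Finset.univ x := by
  simp [body, InP]

theorem mem_face {x : E3} {i : Fin n} : x ∈ P.face i ↔ x ∈ P.body ∧ dist x (P.c i) = 1 := by
  simp only [face, mem_inter_iff, mem_sphere]

theorem mem_facesAt {x : E3} {i : Fin n} : i ∈ P.facesAt x ↔ x ∈ P.face i := by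
  simp [facesAt]

theorem closed_body : IsClosed P.body := isClosed_iInter fun _ => isClosed_closedBall

theorem closed_face (i : Fin n) : IsClosed (P.face i) := closed_body.inter isClosed_sphere

theorem int_lt {x : E3} (h : x ∈ interior P.body) (i : Fin n) : dist x (P.c i) < 1 := by
  have := interior_mono (iInter_subset (fun i => closedBall (P.c i) 1) i) h
  rwa [interior_closedBall _ one_ne_zero, mem_ball] at this

theorem front {x : E3} {i : Fin n} (h : x ∈ P.face i) : x ∈ frontier P.body := by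
  rw [closed_body.frontier_eq]
  exact ⟨h.1, fun h' => (int_lt h' i).ne (mem_face.1 h).2⟩

theorem priv (P : BallPoly n) : Priv P.c := by
  intro i
  obtain ⟨o, ho⟩ := P.int
  have hlt := int_lt (P := P) ho
  obtain ⟨y, y1, y2⟩ : ∃ y, (∀ j, j ≠ i → dist y (P.c j) ≤ 1) ∧ 1 < dist y (P.c i) := by
    by_contra h
    push Not at h
    refine P.reduced i (Subset.antisymm (fun x hx => ?_) fun x hx => ?_)
    · simp only [mem_iInter, mem_closedBall] at hx ⊢
      intro j
      by_cases e : j = i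
      · rw [e]; exact h x hx
      · exact hx j e
    · simp only [mem_iInter] at hx ⊢
      exact fun j _ => hx j
  have hc : Continuous fun t : ℝ => dist ((1 - t) • o + t • y) (P.c i) := by fun_prop
  obtain ⟨t, ht, e⟩ := intermediate_value_Ico zero_le_one hc.continuousOn
    (show (1 : ℝ) ∈ Ico _ _ from ⟨by simpa using (hlt i).le, by simpa using y2⟩)
  refine ⟨_, e, fun j hj => ?_⟩
  have e2 : (1 - t) • o + t • y - P.c j = (1 - t) • (o - P.c j) + t • (y - P.c j) := by module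
  rw [dist_eq_norm, e2]
  refine (norm_add_le _ _).trans_lt ?_
  rw [norm_smul, norm_smul, Real.norm_of_nonneg ht.1, Real.norm_of_nonneg (sub_pos.2 ht.2).le,
    ← dist_eq_norm, ← dist_eq_norm]
  nlinarith [mul_pos (sub_pos.2 ht.2) (sub_pos.2 (hlt j)), mul_nonneg ht.1 (sub_nonneg.2 (y1 j hj))]

theorem priv' (P : BallPoly n) (i : Fin n) : ∃ x ∈ P.face i, ∀ j, x ∈ P.face j → j = i := by
  obtain ⟨x, h1, h2⟩ := P.priv i
  refine ⟨x, mem_face.2 ⟨mem_body.2 fun j _ => ?_, h1⟩, fun j hj => ?_⟩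
  · by_cases e : j = i
    · rw [e]; exact h1.le
    · exact (h2 j e).le
  · by_contra e
    exact (h2 j e).ne (mem_face.1 hj).2

theorem vertex_of {x : E3} {i j k : Fin n} (ij : i ≠ j) (jk : j ≠ k) (ik : i ≠ k)
    (hi : x ∈ P.face i) (hj : x ∈ P.face j) (hk : x ∈ P.face k) : P.IsVertex x := by
  refine ⟨front hi, ?_⟩
  rw [← Finset.card_eq_three.2 ⟨_, _, _, ij, ik, jk, rfl⟩]
  exact Finset.card_le_card (by simp [Finset.insert_subset_iff, mem_facesAt, hi, hj, hk])

theorem IsEdge.sub {e : Set E3} (h : P.IsEdge e) :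
    ∃ i j, i ≠ j ∧ e ⊆ P.face i ∩ P.face j ∧ ∃ x ∈ e, P.facesAt x = {i, j} := by
  obtain ⟨x, hx, rfl⟩ := h
  obtain ⟨i, j, ij, e⟩ := Finset.card_eq_two.1 hx.2
  have c2 : ({i, j} : Finset (Fin n)).card = 2 := Finset.card_pair ij
  have xC := mem_connectedComponentIn hx
  refine ⟨i, j, ij, closure_minimal (fun y hy => ?_) ((closed_face i).inter (closed_face j)), x,
    subset_closure xC, e⟩
  have sub := connectedComponentIn_subset P.twoSet x
  have inb : ∀ z ∈ P.twoSet, z ∈ P.body := fun z hz => closed_body.frontier_subset hz.1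
  let U : Set E3 := ⋂ k, ⋂ (_ : k ∉ ({i, j} : Finset (Fin n))), ball (P.c k) 1
  let V : Set E3 := ball (P.c i) 1 ∪ ball (P.c j) 1
  have oU : IsOpen U := isOpen_iInter_of_finite fun _ => isOpen_iInter_of_finite fun _ => isOpen_ball
  have oV : IsOpen V := isOpen_ball.union isOpen_ball
  have le : ∀ z ∈ P.body, ∀ k, dist z (P.c k) ≤ 1 := fun z hz k => mem_body.1 hz k (by simp)
  have nV : ∀ z ∈ P.body, z ∉ V → z ∈ P.face i ∩ P.face j := by
    intro z hz h
    simp only [V, mem_union, mem_ball, not_or, not_lt] at h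
    exact ⟨mem_face.2 ⟨hz, le_antisymm (le z hz i) h.1⟩, mem_face.2 ⟨hz, le_antisymm (le z hz j) h.2⟩⟩
  have toU : ∀ z ∈ P.body, P.facesAt z = {i, j} → z ∈ U := by
    intro z hz h
    simp only [U, mem_iInter, mem_ball]
    intro k hk
    exact lt_of_le_of_ne (le z hz k) fun h' => hk (h ▸ mem_facesAt.2 (mem_face.2 ⟨hz, h'⟩))
  by_contra hy'
  have yV : y ∈ V := by_contra fun h => hy' (nV y (inb y (sub hy)) h)
  obtain ⟨z, zC, zU, zV⟩ := isPreconnected_connectedComponentIn U V oU oV (fun z hz => by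
      by_cases h : z ∈ V
      · exact Or.inr h
      · have k := nV z (inb z (sub hz)) h
        refine Or.inl (toU z (inb z (sub hz)) (Finset.eq_of_subset_of_card_le ?_ ?_).symm)
        · simp [Finset.insert_subset_iff, mem_facesAt, k.1, k.2]
        · rw [c2, (sub hz).2])
    ⟨x, xC, toU x (inb x hx) e⟩ ⟨y, hy, yV⟩
  have e2 : P.facesAt z = {i, j} := by
    refine Finset.eq_of_subset_of_card_le (fun k hk => by_contra fun h => ?_) (by rw [c2, (sub zC).2])
    simp only [U, mem_iInter, mem_ball] at zU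
    exact (zU k h).ne (mem_face.1 (mem_facesAt.1 hk)).2
  have k1 := (mem_face.1 (mem_facesAt.1 (e2 ▸ (by simp : i ∈ ({i, j} : Finset (Fin n)))))).2
  have k2 := (mem_face.1 (mem_facesAt.1 (e2 ▸ (by simp : j ∈ ({i, j} : Finset (Fin n)))))).2
  rcases zV with h | h
  · exact (mem_ball.1 h).ne k1
  · exact (mem_ball.1 h).ne k2

theorem IsEdge.eq {e e' : Set E3} (h : P.IsEdge e) (h' : P.IsEdge e') (s : e ⊆ e') : e = e' := by
  obtain ⟨x, hx, rfl⟩ := h
  obtain ⟨x', hx', rfl⟩ := h'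
  have k : x ∈ closure (connectedComponentIn P.twoSet x') :=
    s (subset_closure (mem_connectedComponentIn hx))
  have pc : IsPreconnected (insert x (connectedComponentIn P.twoSet x')) :=
    isPreconnected_connectedComponentIn.subset_closure (subset_insert _ _)
      (insert_subset k subset_closure)
  have := pc.subset_connectedComponentIn (mem_insert_of_mem _ (mem_connectedComponentIn hx'))
    (insert_subset hx (connectedComponentIn_subset _ _))
  rw [connectedComponentIn_eq (this (mem_insert _ _))]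

theorem IsCell.two {A : Set E3} (h : P.IsCell A) {i j : Fin n} (ij : i ≠ j) (hi : A ⊆ P.face i)
    (hj : A ⊆ P.face j) : A = ∅ ∨ (∃ v, P.IsVertex v ∧ A = {v}) ∨ P.IsEdge A := by
  rcases h with h | h | h | ⟨l, rfl⟩ | rfl
  · exact Or.inl h
  · exact Or.inr (Or.inl h)
  · exact Or.inr (Or.inr h)
  · obtain ⟨x, h1, h2⟩ := P.priv' l
    exact absurd ((h2 i (hi h1)).trans (h2 j (hj h1)).symm) ij
  · obtain ⟨x, h1, h2⟩ := P.priv' i
    exact absurd (h2 j (hj h1.1)).symm ij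

theorem IsCell.three {A : Set E3} (h : P.IsCell A) {i j k : Fin n} (ij : i ≠ j) (jk : j ≠ k)
    (ik : i ≠ k) (hi : A ⊆ P.face i) (hj : A ⊆ P.face j) (hk : A ⊆ P.face k) :
    A = ∅ ∨ ∃ v, P.IsVertex v ∧ A = {v} := by
  rcases h.two ij hi hj with h | h | h
  · exact Or.inl h
  · exact Or.inr h
  · obtain ⟨p, q, pq, -, x, hx, e⟩ := h.sub
    have := (vertex_of ij jk ik (hi hx) (hj hx) (hk hx)).2
    rw [e, Finset.card_pair pq] at this
    omega

def fc (P : BallPoly n) (i : Fin n) : P.Cell := ⟨P.face i, Or.inr (Or.inr (Or.inr (Or.inl ⟨i, rfl⟩)))⟩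

def top (P : BallPoly n) : P.Cell := ⟨P.body, Or.inr (Or.inr (Or.inr (Or.inr rfl)))⟩

def bot (P : BallPoly n) : P.Cell := ⟨∅, Or.inl rfl⟩

def vc {v : E3} (h : P.IsVertex v) : P.Cell := ⟨{v}, Or.inr (Or.inl ⟨v, h, rfl⟩)⟩

theorem Standard.meet (h : P.Standard) (A B : P.Cell) : ∃ C : P.Cell, C.1 ⊆ A.1 ∧ C.1 ⊆ B.1 ∧
    ∀ D, P.IsCell D → D ⊆ A.1 → D ⊆ B.1 → D ⊆ C.1 := by
  obtain ⟨C, h1, h2⟩ := (h A B).2
  refine ⟨C, h1 (by simp), h1 (by simp), fun D hD k1 k2 => h2 (a := ⟨D, hD⟩) ?_⟩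
  rintro X (rfl | rfl)
  exacts [k1, k2]

theorem Standard.uniq (h : P.Standard) {v v' : E3} {i j k : Fin n} (ij : i ≠ j) (jk : j ≠ k)
    (ik : i ≠ k) (hi : v ∈ P.face i) (hj : v ∈ P.face j) (hk : v ∈ P.face k)
    (hi' : v' ∈ P.face i) (hj' : v' ∈ P.face j) (hk' : v' ∈ P.face k) : v = v' := by
  obtain ⟨C, c1, c2, c3⟩ := h.meet (P.fc i) (P.fc j)
  obtain ⟨D, d1, d2, d3⟩ := h.meet C (P.fc k)
  have key : ∀ {x}, x ∈ P.face i → x ∈ P.face j → x ∈ P.face k → x ∈ D.1 := by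
    intro x k1 k2 k3
    have hx := (vc (vertex_of ij jk ik k1 k2 k3)).2
    exact singleton_subset_iff.1 (d3 _ hx (c3 _ hx (singleton_subset_iff.2 k1)
      (singleton_subset_iff.2 k2)) (singleton_subset_iff.2 k3))
  have k1 := key hi hj hk
  have k2 := key hi' hj' hk'
  rcases D.2.three ij jk ik (d1.trans c1) (d1.trans c2) d2 with e | ⟨w, -, e⟩ <;> rw [e] at k1 k2
  · exact k1.elim
  · exact k1.trans k2.symm

theorem Standard.edge_eq (h : P.Standard) {e e' : Set E3} (he : P.IsEdge e) (he' : P.IsEdge e')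
    {i j : Fin n} (ij : i ≠ j) (hi : e ⊆ P.face i) (hj : e ⊆ P.face j) (hi' : e' ⊆ P.face i)
    (hj' : e' ⊆ P.face j) : e = e' := by
  obtain ⟨C, c1, c2, c3⟩ := h.meet (P.fc i) (P.fc j)
  have k := c3 e (Or.inr (Or.inr (Or.inl he))) hi hj
  have k' := c3 e' (Or.inr (Or.inr (Or.inl he'))) hi' hj'
  obtain ⟨p, q, pq, -, x, hx, ex⟩ := he.sub
  rcases C.2.two ij c1 c2 with e | ⟨w, hw, e⟩ | e
  · rw [e] at k; exact (k hx).elim
  · rw [e] at k
    have := hw.2
    rw [← show x = w from k hx, ex, Finset.card_pair pq] at this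
    omega
  · exact (he.eq e k).trans (he'.eq e k').symm

theorem IsEdge.other {e : Set E3} (h : P.IsEdge e) (i : Fin n) :
    ∃ r, r ≠ i ∧ e ⊆ P.face r := by
  obtain ⟨p, q, pq, s, x, hx, ex⟩ := h.sub
  by_cases e1 : p = i
  · exact ⟨q, fun h => pq (e1.trans h.symm), fun y hy => (s hy).2⟩
  · exact ⟨p, e1, fun y hy => (s hy).1⟩

theorem Standard.corner (h : P.Standard) {v : E3} {i j k : Fin n} (hv : P.facesAt v = {i, j, k})
    {θ : ℝ} (ha : P.IsFaceAngle (P.face i) v θ) :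
    Corner (P.c i - v) (P.c j - v) (P.c k - v) θ := by
  obtain ⟨e1, e2, t1, t2, h1, h2, ne, s1, s2, v1, v2, z1, z2, c1, c2, rfl⟩ := ha
  have on : ∀ l ∈ ({i, j, k} : Finset (Fin n)), dist v (P.c l) = 1 := fun l hl =>
    (mem_face.1 (mem_facesAt.1 (hv ▸ hl))).2
  have ge : ∀ {e t}, e ⊆ P.face i → t ∈ posTangentConeAt e v → ∀ l ∈ ({i, j, k} : Finset (Fin n)),
      0 ≤ inner ℝ t (P.c l - v) := fun s c l hl =>
    tangent_ge (on l hl) (fun x hx => mem_body.1 (s hx).1 l (by simp)) c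
  have eq : ∀ {e t l}, e ⊆ P.face l → v ∈ e → t ∈ posTangentConeAt e v →
      inner ℝ t (P.c l - v) = 0 := fun s hv c =>
    tangent_eq (mem_face.1 (s hv)).2 (fun x hx => (mem_face.1 (s hx)).2) c
  obtain ⟨r, ri, sr⟩ := h1.other i
  obtain ⟨r', ri', sr'⟩ := h2.other i
  have rr : r ≠ r' := fun e => ne (h.edge_eq h1 h2 ri sr s1 (e ▸ sr') s2)
  have m1 := mem_facesAt.2 (sr v1)
  have m2 := mem_facesAt.2 (sr' v2)
  rw [hv] at m1 m2
  simp only [Finset.mem_insert, Finset.mem_singleton, ri, ri', false_or] at m1 m2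
  rcases m1 with rfl | rfl <;> rcases m2 with rfl | rfl
  · exact absurd rfl rr
  · exact ⟨t1, t2, z1, z2, eq s1 v1 c1, eq sr v1 c1, ge s1 c1 _ (by simp), eq s2 v2 c2,
      eq sr' v2 c2, ge s2 c2 _ (by simp), rfl⟩
  · exact ⟨t2, t1, z2, z1, eq s2 v2 c2, eq sr' v2 c2, ge s2 c2 _ (by simp), eq s1 v1 c1,
      eq sr v1 c1, ge s1 c1 _ (by simp), InnerProductGeometry.angle_comm _ _⟩
  · exact absurd rfl rr

theorem le_top (A : P.Cell) : A ≤ P.top := by
  obtain ⟨A, h | ⟨v, hv, h⟩ | h | ⟨i, h⟩ | h⟩ := A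
  · subst h; exact empty_subset _
  · subst h; exact singleton_subset_iff.2 (closed_body.frontier_subset hv.1)
  · obtain ⟨i, j, -, s, -⟩ := h.sub
    exact fun x hx => (s hx).1.1
  · subst h; exact inter_subset_left
  · subst h; exact le_rfl

theorem fc_ne_top (i : Fin n) : P.fc i ≠ P.top := by
  intro h
  obtain ⟨o, ho⟩ := P.int
  have h1 : o ∈ P.face i := by
    rw [show P.face i = P.body from congrArg Subtype.val h]; exact interior_subset ho
  exact (int_lt (P := P) ho i).ne (mem_face.1 h1).2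

theorem fc_inj {i j : Fin n} (h : P.fc i ≤ P.fc j) : i = j := by
  obtain ⟨x, h1, h2⟩ := P.priv' i
  exact (h2 j (h h1)).symm

theorem isFace_iff (A : P.Cell) :
    (∃ i, A = P.fc i) ↔ A ≠ P.top ∧ ∀ B, A ≤ B → B = A ∨ B = P.top := by
  constructor
  · rintro ⟨i, rfl⟩
    refine ⟨fc_ne_top i, fun B hB => ?_⟩
    obtain ⟨x, h1, h2⟩ := P.priv' i
    have hx : x ∈ B.1 := hB h1
    obtain ⟨B, h | ⟨v, hv, h⟩ | h | ⟨j, h⟩ | h⟩ := B
    · subst h; exact hx.elim
    · subst h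
      have h3 : P.facesAt x ⊆ {i} := fun j hj => by simpa using h2 j (mem_facesAt.1 hj)
      have := Finset.card_le_card h3
      have h4 := hv.2
      rw [← show x = v from hx] at h4
      simp at this
      omega
    · obtain ⟨p, q, pq, s, -⟩ := h.sub
      exact absurd ((h2 p (s hx).1).trans (h2 q (s hx).2).symm) pq
    · subst h
      obtain rfl := h2 j hx
      exact Or.inl rfl
    · subst h; exact Or.inr rfl
  · rintro ⟨h1, h2⟩
    obtain ⟨i, hi⟩ : ∃ i, A ≤ P.fc i := by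
      obtain ⟨A, h | ⟨v, hv, h⟩ | h | ⟨i, h⟩ | h⟩ := A
      · subst h; exact ⟨⟨0, by have := P.three; omega⟩, empty_subset _⟩
      · subst h
        obtain ⟨i, hi⟩ : (P.facesAt v).Nonempty := Finset.card_pos.1 (by have := hv.2; omega)
        exact ⟨i, singleton_subset_iff.2 (mem_facesAt.1 hi)⟩
      · obtain ⟨i, j, -, s, -⟩ := h.sub
        exact ⟨i, fun x hx => (s hx).1⟩
      · subst h; exact ⟨i, le_rfl⟩
      · subst h; exact absurd rfl h1
    exact ⟨i, ((h2 _ hi).resolve_right (fc_ne_top i)).symm⟩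

variable {Q : BallPoly m}

theorem map_top (φ : P.Cell ≃o Q.Cell) : φ P.top = Q.top :=
  le_antisymm (le_top _) (φ.symm_apply_le.1 (le_top _))

theorem map_bot (φ : P.Cell ≃o Q.Cell) : φ P.bot = Q.bot :=
  le_antisymm (φ.le_symm_apply.1 (empty_subset _)) (empty_subset _)

theorem map_face (φ : P.Cell ≃o Q.Cell) (i : Fin n) : ∃ j, φ (P.fc i) = Q.fc j := by
  obtain ⟨h1, h2⟩ := (isFace_iff _).1 ⟨i, rfl⟩
  refine (isFace_iff _).2 ⟨fun h => h1 (φ.injective (h.trans (map_top φ).symm)), fun B hB => ?_⟩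
  rcases h2 (φ.symm B) (φ.le_symm_apply.2 hB) with h | h
  · exact Or.inl (by rw [← h, φ.apply_symm_apply])
  · exact Or.inr (by rw [← map_top φ, ← h, φ.apply_symm_apply])

theorem exists_equiv (φ : P.Cell ≃o Q.Cell) :
    ∃ σ : Fin n ≃ Fin m, ∀ i, φ (P.fc i) = Q.fc (σ i) := by
  choose f hf using map_face φ
  refine ⟨Equiv.ofBijective f ⟨fun i j h => ?_, fun j => ?_⟩, hf⟩
  · exact fc_inj (φ.injective (by rw [hf, hf, h])).le
  · obtain ⟨i, hi⟩ := map_face φ.symm j
    exact ⟨i, fc_inj (by rw [← hf, ← hi, φ.apply_symm_apply])⟩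

theorem map_vertex (φ : P.Cell ≃o Q.Cell) (σ : Fin n ≃ Fin m) (hσ : ∀ i, φ (P.fc i) = Q.fc (σ i))
    {v : E3} (hv : P.IsVertex v) : ∃ w, Q.IsVertex w ∧ (φ (vc hv)).1 = {w} ∧
      ∀ i, w ∈ Q.face (σ i) ↔ v ∈ P.face i := by
  have key : ∀ i, (φ (vc hv)).1 ⊆ Q.face (σ i) ↔ v ∈ P.face i := fun i => by
    rw [← singleton_subset_iff]
    have := φ.le_iff_le (x := vc hv) (y := P.fc i)
    rw [hσ] at this
    exact this
  obtain ⟨i, hi, j, hj, k, hk, ij, ik, jk⟩ := Finset.two_lt_card.1 hv.2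
  rcases (φ (vc hv)).2.three (σ.injective.ne ij) (σ.injective.ne jk) (σ.injective.ne ik)
    ((key i).2 (mem_facesAt.1 hi)) ((key j).2 (mem_facesAt.1 hj)) ((key k).2 (mem_facesAt.1 hk))
    with e | ⟨w, hw, e⟩
  · have : vc hv = P.bot := φ.injective (by rw [map_bot]; exact Subtype.ext e)
    exact absurd (congrArg Subtype.val this) (singleton_ne_empty v)
  · exact ⟨w, hw, e, fun i => by rw [← key, e, singleton_subset_iff]⟩

end BallPoly

end Pool.Agent.Lib.MP_34b931_co
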