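import Pool.Agent.Lib.MP_34b931_co.Walk37

namespace Pool.Agent.Lib.MP_34b931_co

open Metric Set Filter Topology

/-- Triangle sets of stacked triangulations of the sphere with vertex set `S`: start from the
boundary of a tetrahedron and repeatedly subdivide a triangle by a new vertex. -/
inductive Stacked {ι : Type} [DecidableEq ι] : Finset ι → Finset (Finset ι) → Prop
  | base (S : Finset ι) : S.card = 4 → Stacked S (S.powersetCard 3)
  | step (S : Finset ι) (T : Finset (Finset ι)) (a b d n : ι) : Stacked S T → n ∉ S →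
      a ≠ b → b ≠ d → a ≠ d → {a, b, d} ∈ T →
      Stacked (insert n S) (T.erase {a, b, d} ∪ {{n, a, b}, {n, b, d}, {n, d, a}})

variable {ι : Type} [DecidableEq ι]

theorem Stacked.sub {S : Finset ι} {T : Finset (Finset ι)} (h : Stacked S T) :
    ∀ A ∈ T, A ⊆ S ∧ A.card = 3 := by
  induction h with
  | base S h => exact fun A hA => Finset.mem_powersetCard.1 hA
  | step S T a b d n _ hn ab bd ad hT ih =>
    have hs := (ih _ hT).1
    have ha : a ∈ S := hs (by simp)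
    have hb : b ∈ S := hs (by simp)
    have hd : d ∈ S := hs (by simp)
    have na : n ≠ a := fun h => hn (h ▸ ha)
    have nb : n ≠ b := fun h => hn (h ▸ hb)
    have nd : n ≠ d := fun h => hn (h ▸ hd)
    intro A hA
    simp only [Finset.mem_union, Finset.mem_erase, Finset.mem_insert, Finset.mem_singleton] at hA
    rcases hA with ⟨-, h⟩ | rfl | rfl | rfl
    · exact ⟨(ih A h).1.trans (Finset.subset_insert _ _), (ih A h).2⟩
    · exact ⟨by simp [Finset.insert_subset_iff, ha, hb], Finset.card_eq_three.2 ⟨_, _, _, na, nb, ab, rfl⟩⟩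
    · exact ⟨by simp [Finset.insert_subset_iff, hd, hb], Finset.card_eq_three.2 ⟨_, _, _, nb, nd, bd, rfl⟩⟩
    · exact ⟨by simp [Finset.insert_subset_iff, ha, hd],
        Finset.card_eq_three.2 ⟨_, _, _, nd, na, ad.symm, rfl⟩⟩

def InP (c : ι → E3) (S : Finset ι) (x : E3) : Prop := ∀ i ∈ S, dist x (c i) ≤ 1

def Priv (c : ι → E3) : Prop := ∀ i, ∃ x, dist x (c i) = 1 ∧ ∀ j, j ≠ i → dist x (c j) < 1

structure Nerve (c : ι → E3) (S : Finset ι) (T : Finset (Finset ι)) : Prop where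
  h1 : ∀ A ∈ T, ∃ v, InP c S v ∧ ∀ i ∈ A, dist v (c i) = 1
  h2 : ∀ v, InP c S v → ∀ i ∈ S, ∀ j ∈ S, ∀ k ∈ S, i ≠ j → j ≠ k → i ≠ k → dist v (c i) = 1 →
    dist v (c j) = 1 → dist v (c k) = 1 → {i, j, k} ∈ T
  h3 : ∀ v, InP c S v → ∀ i ∈ S, ∀ j ∈ S, i ≠ j → dist v (c i) = 1 → dist v (c j) = 1 →
    ∃ A ∈ T, i ∈ A ∧ j ∈ A
  h4 : ∀ v, InP c S v → ∀ v', InP c S v' → ∀ i ∈ S, ∀ j ∈ S, ∀ k ∈ S, i ≠ j → j ≠ k → i ≠ k →
    dist v (c i) = 1 → dist v (c j) = 1 → dist v (c k) = 1 → dist v' (c i) = 1 →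
    dist v' (c j) = 1 → dist v' (c k) = 1 → v = v'

omit [DecidableEq ι] in
theorem Priv.ne {c : ι → E3} (h : Priv c) {i j : ι} (hij : i ≠ j) : c i ≠ c j := by
  obtain ⟨x, h1, h2⟩ := h j
  intro e
  have := h2 i hij
  rw [e] at this
  linarith

omit [DecidableEq ι] in
theorem Priv.ind {c : ι → E3} (h : Priv c) {i j k : ι} (ij : i ≠ j) (jk : j ≠ k) (ik : i ≠ k)
    {v : E3} (hi : dist v (c i) = 1) (hj : dist v (c j) = 1) (hk : dist v (c k) = 1) :
    Ind (c i - v) (c j - v) (c k - v) := by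
  obtain ⟨x, x1, x2⟩ := h i
  obtain ⟨y, y1, y2⟩ := h j
  obtain ⟨z, z1, z2⟩ := h k
  exact ind_of_private hi hj hk x1 (x2 j ij.symm) (x2 k ik.symm) y1 (y2 i ij) (y2 k jk.symm) z1
    (z2 i ik) (z2 j jk)

/-- The ball around `N` meets the three arcs of the lens. -/
def Arcs (a b d N : E3) : Prop := ∃ v1 v2 v3 : E3,
  (dist v1 a = 1 ∧ dist v1 b = 1 ∧ dist v1 d ≤ 1 ∧ dist v1 N ≤ 1) ∧
  (dist v2 b = 1 ∧ dist v2 d = 1 ∧ dist v2 a ≤ 1 ∧ dist v2 N ≤ 1) ∧
  (dist v3 d = 1 ∧ dist v3 a = 1 ∧ dist v3 b ≤ 1 ∧ dist v3 N ≤ 1)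

theorem Arcs.far {a b d N w : E3} (h : Arcs a b d N) (ha : dist w a = 1) (hb : dist w b = 1)
    (hd : dist w d = 1) (hi : Ind (a - w) (b - w) (d - w)) (hN : 1 < dist w N) :
    ∃ α β δ : ℝ, N - w = α • (a - w) + β • (b - w) + δ • (d - w) ∧ 1 < α + β + δ := by
  obtain ⟨v1, v2, v3, ⟨p1, p2, p3, p4⟩, ⟨q1, q2, q3, q4⟩, ⟨r1, r2, r3, r4⟩⟩ := h
  exact far_side ha hb hd hi hN p1 p2 p3 p4 q1 q2 q3 q4 r1 r2 r3 r4

theorem Arcs.map {a b d N : E3} (h : Arcs a b d N) (Ψ : E3 ≃ᵢ E3) :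
    Arcs (Ψ a) (Ψ b) (Ψ d) (Ψ N) := by
  obtain ⟨v1, v2, v3, h⟩ := h
  exact ⟨Ψ v1, Ψ v2, Ψ v3, by simpa only [IsometryEquiv.dist_eq] using h⟩

theorem Nerve.remove {c : ι → E3} (hp : Priv c) {S : Finset ι} {T : Finset (Finset ι)}
    {a b d n : ι} (hsub : ∀ A ∈ T, A ⊆ S) (hn : n ∉ S) (ab : a ≠ b) (bd : b ≠ d) (ad : a ≠ d)
    (hT : {a, b, d} ∈ T)
    (H : Nerve c (insert n S) (T.erase {a, b, d} ∪ {{n, a, b}, {n, b, d}, {n, d, a}})) :
    Nerve c S T ∧ Arcs (c a) (c b) (c d) (c n) ∧ ∃ w, InP c S w ∧ dist w (c a) = 1 ∧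
      dist w (c b) = 1 ∧ dist w (c d) = 1 ∧ 1 < dist w (c n) := by
  set T' := T.erase {a, b, d} ∪ {{n, a, b}, {n, b, d}, {n, d, a}} with hT'
  have hs := hsub _ hT
  have ha : a ∈ S := hs (by simp)
  have hb : b ∈ S := hs (by simp)
  have hd : d ∈ S := hs (by simp)
  have na : n ≠ a := fun h => hn (h ▸ ha)
  have nb : n ≠ b := fun h => hn (h ▸ hb)
  have nd : n ≠ d := fun h => hn (h ▸ hd)
  have mS : ∀ {i}, i ∈ S → i ∈ insert n S := Finset.mem_insert_of_mem
  have mn : n ∈ insert n S := Finset.mem_insert_self _ _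
  have F1 : ∀ A ∈ T', n ∈ A → ∀ z ∈ A, z ∈ S → z = a ∨ z = b ∨ z = d := by
    intro A hA hnA z hz hzS
    have zn : z ≠ n := fun h => hn (h ▸ hzS)
    simp only [hT', Finset.mem_union, Finset.mem_erase, Finset.mem_insert,
      Finset.mem_singleton] at hA
    rcases hA with ⟨-, h⟩ | rfl | rfl | rfl
    · exact absurd (hsub A h hnA) hn
    all_goals
      simp only [Finset.mem_insert, Finset.mem_singleton] at hz
      tauto
  have F2 : ∀ A ∈ T', n ∉ A → A ∈ T ∧ A ≠ {a, b, d} := by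
    intro A hA hnA
    simp only [hT', Finset.mem_union, Finset.mem_erase, Finset.mem_insert,
      Finset.mem_singleton] at hA
    rcases hA with ⟨h, h'⟩ | rfl | rfl | rfl
    · exact ⟨h', h⟩
    all_goals simp at hnA
  have F3 : {a, b, d} ∉ T' := fun h => (F2 _ h (by simp [na, nb, nd])).2 rfl
  have up : ∀ {x}, InP c S x → dist x (c n) ≤ 1 → InP c (insert n S) x := by
    intro x h1 h2 i hi
    rcases Finset.mem_insert.1 hi with rfl | hi
    exacts [h2, h1 i hi]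
  have down : ∀ {x}, InP c (insert n S) x → InP c S x := fun h i hi => h i (mS hi)
  have adj : ∀ {x z}, InP c (insert n S) x → z ∈ S → dist x (c n) = 1 → dist x (c z) = 1 →
      z = a ∨ z = b ∨ z = d := by
    intro x z h1 hz h2 h3
    obtain ⟨A, hA, k1, k2⟩ := H.h3 x h1 n mn z (mS hz) (fun h => hn (h ▸ hz)) h2 h3
    exact F1 A hA k1 z k2 hz
  have out : ∀ x, InP c S x → 1 < dist x (c n) → ∀ y ∈ S, dist x (c y) = 1 →
      y = a ∨ y = b ∨ y = d := by
    intro x h1 h2 y hy h3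
    obtain ⟨x0, p1, p2⟩ := hp y
    have yn : n ≠ y := fun h => hn (h ▸ hy)
    obtain ⟨z, hz, zy⟩ : ∃ z ∈ S, z ≠ y := by
      by_cases h : a = y
      · exact ⟨b, hb, fun h' => ab (h.trans h'.symm)⟩
      · exact ⟨a, ha, h⟩
    obtain ⟨x', q1, q2, q3⟩ := sphere_path (hp.ne zy) p1 h3 (p2 z zy).le (h1 z hz) (p2 n yn).le h2
    refine adj (up (fun i hi => q3 _ ?_ (h1 i hi)) q2.le) hy q2 q1
    by_cases h : i = y
    · rw [h]; exact p1.le
    · exact (p2 i h).le
  have notv : ∀ {x}, InP c (insert n S) x → dist x (c a) = 1 → dist x (c b) = 1 →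
      dist x (c d) = 1 → False := fun h k1 k2 k3 =>
    F3 (H.h2 _ h a (mS ha) b (mS hb) d (mS hd) ab bd ad k1 k2 k3)
  obtain ⟨v1, p1, e1⟩ := H.h1 {n, a, b} (by simp [hT'])
  obtain ⟨v2, p2, e2⟩ := H.h1 {n, b, d} (by simp [hT'])
  obtain ⟨v3, p3, e3⟩ := H.h1 {n, d, a} (by simp [hT'])
  have arcs : Arcs (c a) (c b) (c d) (c n) := ⟨v1, v2, v3,
    ⟨e1 a (by simp), e1 b (by simp), p1 d (mS hd), p1 n mn⟩,
    ⟨e2 b (by simp), e2 d (by simp), p2 a (mS ha), p2 n mn⟩,
    ⟨e3 d (by simp), e3 a (by simp), p3 b (mS hb), p3 n mn⟩⟩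
  have va := e1 a (by simp)
  have vb := e1 b (by simp)
  have vn := e1 n (by simp)
  have pole : ∃ w, InP c S w ∧ dist w (c a) = 1 ∧ dist w (c b) = 1 ∧ dist w (c d) = 1 ∧
      1 < dist w (c n) := by
    have hi := hp.ind ab nb.symm na.symm va vb vn
    obtain ⟨η, η1, η2, η3⟩ := hi.dual (1 / 2) (1 / 2) (1 / 2)
    obtain ⟨τ, τ1, τ2, τ3⟩ := hi.dual 0 0 (-1)
    have τ0 : τ ≠ 0 := by rintro rfl; simp at τ3
    have η0 : η ≠ 0 := by rintro rfl; simp at η3
    have memZ : ∀ {z}, z ∈ (S.erase a).erase b ↔ z ∈ S ∧ z ≠ a ∧ z ≠ b := by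
      intro z; simp only [Finset.mem_erase]; tauto
    have fill : ∀ {x}, dist x (c a) = 1 → dist x (c b) = 1 →
        (∀ z ∈ (S.erase a).erase b, dist x (c z) ≤ 1) → InP c S x := by
      intro x k1 k2 k3 i hi
      by_cases h1 : i = a
      · rw [h1]; exact k1.le
      by_cases h2 : i = b
      · rw [h2]; exact k2.le
      exact k3 i (memZ.2 ⟨hi, h1, h2⟩)
    obtain ⟨t, t0, k1, z, hz, k2⟩ := walk c ((S.erase a).erase b) (v := v1) (η := η) τ0
      (n := c a - v1) (by linarith) τ1 (by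
        intro z hz
        obtain ⟨z1, z2, z3⟩ := memZ.1 hz
        refine lt_of_le_of_ne (p1 z (mS z1)) fun h => ?_
        rcases adj p1 z1 vn h with h' | h' | h'
        · exact z2 h'
        · exact z3 h'
        · exact notv p1 va vb (h' ▸ h)) (by
        by_contra h
        push Not at h
        have i1 := inv_eq va (ζ := η) (by linarith)
        have i2 := inv_eq vb (ζ := η) (by linarith)
        have i3 := inv_eq vn (ζ := η) (by linarith)
        exact inv_ne η0 (H.h4 _ (up (fill i1 i2 h) i3.le) _ p1 a (mS ha) b (mS hb) n mn ab nb.symm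
          na.symm i1 i2 i3 va vb vn))
    have c1 : 2 * inner ℝ (η + t • τ) (c a - v1) = 1 := by
      rw [inner_add_left, real_inner_smul_left, η1, τ1]; ring
    have i1 := inv_eq va c1
    have i2 := inv_eq vb (ζ := η + t • τ) (by
      rw [inner_add_left, real_inner_smul_left, η2, τ2]; ring)
    have i3 := inv_gt vn (ζ := η + t • τ) (by rintro h; rw [h] at c1; simp at c1) (by
      rw [inner_add_left, real_inner_smul_left, η3, τ3]; linarith)
    obtain ⟨z1, z2, z3⟩ := memZ.1 hz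
    have hP := fill i1 i2 k1
    rcases out _ hP i3 z z1 k2 with h | h | h
    · exact absurd h z2
    · exact absurd h z3
    · exact ⟨_, hP, i1, i2, h ▸ k2, i3⟩
  have tri : ∀ x, InP c S x → 1 < dist x (c n) → ∀ i ∈ S, ∀ j ∈ S, ∀ k ∈ S, i ≠ j → j ≠ k →
      i ≠ k → dist x (c i) = 1 → dist x (c j) = 1 → dist x (c k) = 1 →
      ({i, j, k} : Finset ι) = {a, b, d} := by
    intro x h1 h2 i hi j hj k hk ij jk ik k1 k2 k3
    refine Finset.eq_of_subset_of_card_le ?_ ?_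
    · have := out x h1 h2 i hi k1
      have := out x h1 h2 j hj k2
      have := out x h1 h2 k hk k3
      simp only [Finset.insert_subset_iff, Finset.singleton_subset_iff, Finset.mem_insert,
        Finset.mem_singleton]
      tauto
    · rw [Finset.card_eq_three.2 ⟨_, _, _, ab, ad, bd, rfl⟩,
        Finset.card_eq_three.2 ⟨_, _, _, ij, ik, jk, rfl⟩]
  have conv : ∀ {x : E3} {i j k : ι}, ({i, j, k} : Finset ι) = {a, b, d} → dist x (c i) = 1 →
      dist x (c j) = 1 → dist x (c k) = 1 →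
      dist x (c a) = 1 ∧ dist x (c b) = 1 ∧ dist x (c d) = 1 := by
    intro x i j k e k1 k2 k3
    have : ∀ z ∈ ({a, b, d} : Finset ι), dist x (c z) = 1 := by
      rw [← e]
      intro z hz
      simp only [Finset.mem_insert, Finset.mem_singleton] at hz
      rcases hz with rfl | rfl | rfl <;> assumption
    exact ⟨this a (by simp), this b (by simp), this d (by simp)⟩
  refine ⟨⟨fun A hA => ?_, ?_, ?_, ?_⟩, arcs, pole⟩
  · by_cases h : A = {a, b, d}
    · obtain ⟨w, w0, w1, w2, w3, -⟩ := pole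
      refine ⟨w, w0, fun i hi => ?_⟩
      rw [h] at hi
      simp only [Finset.mem_insert, Finset.mem_singleton] at hi
      rcases hi with rfl | rfl | rfl <;> assumption
    · obtain ⟨v, k1, k2⟩ := H.h1 A (Finset.mem_union_left _ (Finset.mem_erase.2 ⟨h, hA⟩))
      exact ⟨v, down k1, k2⟩
  · intro v hv i hi j hj k hk ij jk ik k1 k2 k3
    rcases le_or_gt (dist v (c n)) 1 with h | h
    · refine (F2 _ (H.h2 v (up hv h) i (mS hi) j (mS hj) k (mS hk) ij jk ik k1 k2 k3) ?_).1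
      simp only [Finset.mem_insert, Finset.mem_singleton]
      rintro (rfl | rfl | rfl) <;> contradiction
    · rw [tri v hv h i hi j hj k hk ij jk ik k1 k2 k3]; exact hT
  · intro v hv i hi j hj ij k1 k2
    rcases le_or_gt (dist v (c n)) 1 with h | h
    · obtain ⟨A, hA, m1, m2⟩ := H.h3 v (up hv h) i (mS hi) j (mS hj) ij k1 k2
      by_cases hnA : n ∈ A
      · exact ⟨_, hT, by simpa using F1 A hA hnA i m1 hi, by simpa using F1 A hA hnA j m2 hj⟩
      · exact ⟨A, (F2 A hA hnA).1, m1, m2⟩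
    · exact ⟨_, hT, by simpa using out v hv h i hi k1, by simpa using out v hv h j hj k2⟩
  · intro v hv v' hv' i hi j hj k hk ij jk ik k1 k2 k3 l1 l2 l3
    rcases le_or_gt (dist v (c n)) 1 with h | h <;> rcases le_or_gt (dist v' (c n)) 1 with h' | h'
    · exact H.h4 v (up hv h) v' (up hv' h') i (mS hi) j (mS hj) k (mS hk) ij jk ik k1 k2 k3 l1 l2 l3
    · obtain ⟨m1, m2, m3⟩ := conv (tri v' hv' h' i hi j hj k hk ij jk ik l1 l2 l3) k1 k2 k3
      exact (notv (up hv h) m1 m2 m3).elim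
    · obtain ⟨m1, m2, m3⟩ := conv (tri v hv h i hi j hj k hk ij jk ik k1 k2 k3) l1 l2 l3
      exact (notv (up hv' h') m1 m2 m3).elim
    · have e := tri v hv h i hi j hj k hk ij jk ik k1 k2 k3
      obtain ⟨m1, m2, m3⟩ := conv e k1 k2 k3
      obtain ⟨o1, o2, o3⟩ := conv e l1 l2 l3
      exact far_both m1 m2 m3 o1 o2 o3 (arcs.far m1 m2 m3 (hp.ind ab bd ad m1 m2 m3) h)
        (arcs.far o1 o2 o3 (hp.ind ab bd ad o1 o2 o3) h')

theorem Stacked.rigid {c c' : ι → E3} (hp : Priv c) (hp' : Priv c') {S : Finset ι}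
    {T : Finset (Finset ι)} (h : Stacked S T) (H : Nerve c S T) (H' : Nerve c' S T)
    (hd : ∀ A ∈ T, ∀ i ∈ A, ∀ j ∈ A, dist (c i) (c j) = dist (c' i) (c' j)) :
    ∃ Ψ : E3 ≃ᵢ E3, ∀ i ∈ S, Ψ (c i) = c' i := by
  induction h with
  | base S h =>
    obtain ⟨i0, h0⟩ : S.Nonempty := Finset.card_pos.1 (by omega)
    refine exists_isometry c c' S h0 fun i hi j hj => ?_
    obtain ⟨A, h1, h2, h3⟩ := Finset.exists_subsuperset_card_eq (s := {i, j}) (t := S) (n := 3)
      (by simp [Finset.insert_subset_iff, hi, hj]) (Finset.card_le_two.trans (by omega)) (by omega)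
    exact hd A (Finset.mem_powersetCard.2 ⟨h2, h3⟩) i (h1 (by simp)) j (h1 (by simp))
  | step S T a b d n hS hn ab bd ad hT ih =>
    have hsub : ∀ A ∈ T, A ⊆ S := fun A hA => (hS.sub A hA).1
    obtain ⟨N, arcs, w, w0, w1, w2, w3, w4⟩ := H.remove hp hsub hn ab bd ad hT
    obtain ⟨N', arcs', w', w0', w1', w2', w3', w4'⟩ := H'.remove hp' hsub hn ab bd ad hT
    have d1 := hd {n, a, b} (by simp)
    have d2 := hd {n, b, d} (by simp)
    have d3 := hd {n, d, a} (by simp)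
    obtain ⟨Ψ, hΨ⟩ := ih N N' (by
      intro A hA i hi j hj
      by_cases h : A = {a, b, d}
      · rw [h] at hi hj
        simp only [Finset.mem_insert, Finset.mem_singleton] at hi hj
        rcases hi with rfl | rfl | rfl <;> rcases hj with rfl | rfl | rfl <;>
          first
          | (refine d1 _ ?_ _ ?_ <;> (simp; done))
          | (refine d2 _ ?_ _ ?_ <;> (simp; done))
          | (refine d3 _ ?_ _ ?_ <;> simp)
      · exact hd A (Finset.mem_union_left _ (Finset.mem_erase.2 ⟨h, hA⟩)) i hi j hj)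
    have hs := hsub _ hT
    have ha : a ∈ S := hs (by simp)
    have hb : b ∈ S := hs (by simp)
    have hd' : d ∈ S := hs (by simp)
    have ew : Ψ w = w' := by
      refine N'.h4 _ (fun i hi => ?_) _ w0' a ha b hb d hd' ab bd ad ?_ ?_ ?_ w1' w2' w3'
      · rw [← hΨ i hi, Ψ.dist_eq]; exact w0 i hi
      · rw [← hΨ a ha, Ψ.dist_eq]; exact w1
      · rw [← hΨ b hb, Ψ.dist_eq]; exact w2
      · rw [← hΨ d hd', Ψ.dist_eq]; exact w3
    have hi := hp'.ind ab bd ad w1' w2' w3'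
    have arcs2 := arcs.map Ψ
    rw [hΨ a ha, hΨ b hb, hΨ d hd'] at arcs2
    have en : Ψ (c n) = c' n := by
      refine far_unique hi (arcs2.far w1' w2' w3' hi ?_) (arcs'.far w1' w2' w3' hi w4') ?_ ?_ ?_
      · rw [← ew, Ψ.dist_eq]; exact w4
      · rw [← d1 n (by simp) a (by simp), ← hΨ a ha, Ψ.dist_eq]
      · rw [← d1 n (by simp) b (by simp), ← hΨ b hb, Ψ.dist_eq]
      · rw [← d2 n (by simp) d (by simp), ← hΨ d hd', Ψ.dist_eq]
    refine ⟨Ψ, fun i hi => ?_⟩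
    rcases Finset.mem_insert.1 hi with rfl | hi
    exacts [en, hΨ i hi]

end Pool.Agent.Lib.MP_34b931_co
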