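import Pool.Agent.Lib.MP_34b931_co.Geo37

namespace Pool.Agent.Lib.MP_34b931_co

open Metric Set Filter Topology

/-- Inversion in the unit sphere about `v`, applied to `v + ζ`. -/
noncomputable def inv (v ζ : E3) : E3 := v + (‖ζ‖ ^ 2)⁻¹ • ζ

theorem inv_sq {v c ζ : E3} (h : dist v c = 1) (h0 : ζ ≠ 0) :
    dist (inv v ζ) c ^ 2 = 1 + (‖ζ‖ ^ 2)⁻¹ * (1 - 2 * inner ℝ ζ (c - v)) := by
  have hn : ‖ζ‖ ≠ 0 := norm_ne_zero_iff.2 h0
  rw [sq_dist _ v c h, inv, add_sub_cancel_left, norm_smul, real_inner_smul_left, norm_inv,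
    norm_pow, norm_norm]
  field_simp
  ring

theorem inv_eq {v c ζ : E3} (h : dist v c = 1) (e : 2 * inner ℝ ζ (c - v) = 1) :
    dist (inv v ζ) c = 1 := by
  have h0 : ζ ≠ 0 := by rintro rfl; simp at e
  have := inv_sq h h0
  rw [e, sub_self, mul_zero, add_zero] at this
  have h1 := dist_nonneg (x := inv v ζ) (y := c)
  nlinarith

theorem inv_gt {v c ζ : E3} (h : dist v c = 1) (h0 : ζ ≠ 0) (e : 2 * inner ℝ ζ (c - v) < 1) :
    1 < dist (inv v ζ) c := by
  have := inv_sq h h0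
  have hn : 0 < ‖ζ‖ := norm_pos_iff.2 h0
  have h2 : 0 < (‖ζ‖ ^ 2)⁻¹ * (1 - 2 * inner ℝ ζ (c - v)) := mul_pos (by positivity) (by linarith)
  have h1 := dist_nonneg (x := inv v ζ) (y := c)
  nlinarith

theorem inv_ne {v ζ : E3} (h0 : ζ ≠ 0) : inv v ζ ≠ v := by
  have hn : ‖ζ‖ ≠ 0 := norm_ne_zero_iff.2 h0
  intro h
  rw [inv, add_eq_left, smul_eq_zero] at h
  rcases h with h | h
  · exact (inv_ne_zero (pow_ne_zero 2 hn)) h
  · exact h0 h

theorem inv_inv {v x : E3} (h : x ≠ v) : inv v ((‖x - v‖ ^ 2)⁻¹ • (x - v)) = x := by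
  have hn : ‖x - v‖ ≠ 0 := norm_ne_zero_iff.2 (sub_ne_zero.2 h)
  rw [inv, norm_smul, norm_inv, norm_pow, norm_norm, smul_smul]
  have : (((‖x - v‖ ^ 2)⁻¹ * ‖x - v‖) ^ 2)⁻¹ * (‖x - v‖ ^ 2)⁻¹ = 1 := by field_simp
  rw [this, one_smul]; abel

theorem first_hit {ι : Type*} (c : ι → E3) (Z : Finset ι) (x : ℝ → E3) (hx : Continuous x)
    {T : ℝ} (hT : 0 ≤ T) (h0 : ∃ z ∈ Z, 1 < dist (x 0) (c z)) (h1 : ∀ z ∈ Z, dist (x T) (c z) ≤ 1) :
    ∃ t, 0 < t ∧ t ≤ T ∧ (∀ z ∈ Z, dist (x t) (c z) ≤ 1) ∧ ∃ z ∈ Z, dist (x t) (c z) = 1 := by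
  obtain ⟨z0, hz0, h0⟩ := h0
  have hne : Z.Nonempty := ⟨z0, hz0⟩
  let g : ℝ → ℝ := fun t => Z.sup' hne fun z => dist (x t) (c z)
  have hg : Continuous g := Continuous.finset_sup'_apply hne fun z _ => hx.dist continuous_const
  have g0 : 1 < g 0 := h0.trans_le (Finset.le_sup' (fun z => dist (x 0) (c z)) hz0)
  have gT : g T ≤ 1 := Finset.sup'_le _ _ h1
  obtain ⟨t, ⟨t0, tT⟩, ht⟩ := intermediate_value_Icc' hT hg.continuousOn ⟨gT, g0.le⟩
  refine ⟨t, lt_of_le_of_ne t0 ?_, tT, fun z hz => ?_, ?_⟩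
  · rintro rfl; linarith
  · exact (Finset.le_sup' (fun z => dist (x t) (c z)) hz).trans ht.le
  · obtain ⟨z, hz, e⟩ := Finset.exists_mem_eq_sup' hne fun z => dist (x t) (c z)
    exact ⟨z, hz, e.symm.trans ht⟩

/-- Walking along a circle towards a point that is strictly inside all the balls of `Z`. -/
theorem walk {ι : Type*} (c : ι → E3) (Z : Finset ι) {v η τ n : E3} (hτ : τ ≠ 0)
    (e1 : 2 * inner ℝ η n = 1) (e2 : inner ℝ τ n = 0) (hv : ∀ z ∈ Z, dist v (c z) < 1)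
    (h0 : ∃ z ∈ Z, 1 < dist (inv v η) (c z)) :
    ∃ t : ℝ, 0 < t ∧ (∀ z ∈ Z, dist (inv v (η + t • τ)) (c z) ≤ 1) ∧
      ∃ z ∈ Z, dist (inv v (η + t • τ)) (c z) = 1 := by
  have ne : ∀ t : ℝ, η + t • τ ≠ 0 := by
    intro t h
    have := congrArg (fun y => inner ℝ y n) h
    simp only [inner_add_left, real_inner_smul_left, e2, inner_zero_left] at this
    linarith
  have hc : Continuous fun t : ℝ => inv v (η + t • τ) := by
    unfold inv
    have h1 : Continuous fun t : ℝ => η + t • τ := by fun_prop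
    refine continuous_const.add (Continuous.smul (Continuous.inv₀ (h1.norm.pow 2) fun t => ?_) h1)
    exact pow_ne_zero 2 (norm_ne_zero_iff.2 (ne t))
  have hn : Tendsto (fun t : ℝ => ‖η + t • τ‖) atTop atTop := by
    have h1 : Tendsto (fun t : ℝ => t * ‖τ‖ + -‖η‖) atTop atTop :=
      tendsto_atTop_add_const_right _ _ (tendsto_id.atTop_mul_const (norm_pos_iff.2 hτ))
    refine tendsto_atTop_mono (fun t => ?_) h1
    have h2 : ‖t • τ‖ ≤ ‖η + t • τ‖ + ‖η‖ := by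
      have := norm_sub_le (η + t • τ) η
      rwa [add_sub_cancel_left] at this
    rw [norm_smul, Real.norm_eq_abs] at h2
    have := mul_le_mul_of_nonneg_right (le_abs_self t) (norm_nonneg τ)
    linarith
  have hl : Tendsto (fun t : ℝ => inv v (η + t • τ)) atTop (𝓝 v) := by
    rw [tendsto_iff_dist_tendsto_zero]
    refine (tendsto_inv_atTop_zero.comp hn).congr fun t => ?_
    have h3 : ‖η + t • τ‖ ≠ 0 := norm_ne_zero_iff.2 (ne t)
    rw [dist_eq_norm, inv, add_sub_cancel_left, norm_smul, norm_inv, norm_pow, norm_norm]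
    simp only [Function.comp]
    field_simp
  have ev : ∀ᶠ t : ℝ in atTop, ∀ z ∈ Z, dist (inv v (η + t • τ)) (c z) ≤ 1 := by
    rw [eventually_all_finset]
    intro z hz
    exact ((hl.dist tendsto_const_nhds).eventually (gt_mem_nhds (hv z hz))).mono fun t h => h.le
  obtain ⟨T, hT1, hT0⟩ := (ev.and (eventually_ge_atTop 0)).exists
  obtain ⟨t, t0, -, h⟩ := first_hit c Z _ hc hT0 (by simpa using h0) hT1
  exact ⟨t, t0, h⟩

theorem unit_le_iff {y q u : E3} (hu : ‖u‖ = 1) :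
    dist (y + u) q ≤ 1 ↔ ‖q - y‖ ^ 2 ≤ 2 * inner ℝ u (q - y) := by
  have : y + u - q = u - (q - y) := by abel
  have h2 : dist (y + u) q ^ 2 = 1 - 2 * inner ℝ u (q - y) + ‖q - y‖ ^ 2 := by
    rw [dist_eq_norm, this, norm_sub_sq_real, hu]; ring
  have h0 := dist_nonneg (x := y + u) (y := q)
  constructor <;> intro h <;> nlinarith

theorem unit_eq_iff {y q u : E3} (hu : ‖u‖ = 1) :
    dist (y + u) q = 1 ↔ ‖q - y‖ ^ 2 = 2 * inner ℝ u (q - y) := by
  have : y + u - q = u - (q - y) := by abel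
  have h2 : dist (y + u) q ^ 2 = 1 - 2 * inner ℝ u (q - y) + ‖q - y‖ ^ 2 := by
    rw [dist_eq_norm, this, norm_sub_sq_real, hu]; ring
  have h0 := dist_nonneg (x := y + u) (y := q)
  constructor <;> intro h
  · rw [h] at h2; linarith
  · have : dist (y + u) q ^ 2 = 1 := by linarith
    nlinarith

/-- Spherical convexity of the faces. -/
theorem sphere_path {y q N x0 x1 : E3} (hq : q ≠ y) (y0 : dist x0 y = 1) (y1 : dist x1 y = 1)
    (q0 : dist x0 q ≤ 1) (q1 : dist x1 q ≤ 1) (n0 : dist x0 N ≤ 1) (n1 : 1 < dist x1 N) :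
    ∃ x, dist x y = 1 ∧ dist x N = 1 ∧ ∀ p, dist x0 p ≤ 1 → dist x1 p ≤ 1 → dist x p ≤ 1 := by
  set u0 := x0 - y with hu0
  set u1 := x1 - y with hu1
  have e0 : x0 = y + u0 := by rw [hu0]; abel
  have e1 : x1 = y + u1 := by rw [hu1]; abel
  have m0 : ‖u0‖ = 1 := by rw [hu0, ← dist_eq_norm, y0]
  have m1 : ‖u1‖ = 1 := by rw [hu1, ← dist_eq_norm, y1]
  let u : ℝ → E3 := fun t => (1 - t) • u1 + t • u0
  have low : ∀ p, dist x0 p ≤ 1 → dist x1 p ≤ 1 → ∀ t ∈ Icc (0 : ℝ) 1,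
      ‖p - y‖ ^ 2 ≤ 2 * inner ℝ (u t) (p - y) := by
    intro p p0 p1 t ht
    rw [e0, unit_le_iff m0] at p0
    rw [e1, unit_le_iff m1] at p1
    simp only [u, inner_add_left, real_inner_smul_left]
    nlinarith [ht.1, ht.2]
  have ne : ∀ t ∈ Icc (0 : ℝ) 1, u t ≠ 0 := by
    intro t ht h
    have := low q q0 q1 t ht
    rw [h, inner_zero_left] at this
    have h2 : 0 < ‖q - y‖ := norm_pos_iff.2 (sub_ne_zero.2 hq)
    nlinarith
  have le1 : ∀ t ∈ Icc (0 : ℝ) 1, ‖u t‖ ≤ 1 := by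
    intro t ht
    refine (norm_add_le _ _).trans ?_
    rw [norm_smul, norm_smul, m0, m1, Real.norm_of_nonneg ht.1,
      Real.norm_of_nonneg (sub_nonneg.2 ht.2)]
    linarith
  have un : ∀ t ∈ Icc (0 : ℝ) 1, ‖‖u t‖⁻¹ • u t‖ = 1 := fun t ht => by
    rw [norm_smul, norm_inv, norm_norm, inv_mul_cancel₀ (norm_ne_zero_iff.2 (ne t ht))]
  have hc : ContinuousOn (fun t : ℝ => dist (y + ‖u t‖⁻¹ • u t) N) (Icc 0 1) := by
    have h1 : Continuous u := by unfold u; fun_prop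
    have h2 : ContinuousOn (fun t : ℝ => y + ‖u t‖⁻¹ • u t) (Icc 0 1) :=
      continuousOn_const.add (ContinuousOn.smul
        (ContinuousOn.inv₀ h1.norm.continuousOn fun t ht => norm_ne_zero_iff.2 (ne t ht))
        h1.continuousOn)
    exact (continuous_id.dist continuous_const).comp_continuousOn h2
  obtain ⟨t, ht, e⟩ := intermediate_value_Icc' zero_le_one hc (a := 0) (b := 1)
    (show (1 : ℝ) ∈ Icc _ _ from ⟨by simpa [u, m0, ← e0] using n0, by simpa [u, m1, ← e1] using n1.le⟩)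
  refine ⟨_, ?_, e, fun p p0 p1 => ?_⟩
  · rw [dist_eq_norm, add_sub_cancel_left, un t ht]
  · rw [unit_le_iff (un t ht), real_inner_smul_left]
    have h1 := low p p0 p1 t ht
    have h2 : 1 ≤ ‖u t‖⁻¹ := (one_le_inv₀ (norm_pos_iff.2 (ne t ht))).2 (le1 t ht)
    have h3 : 0 ≤ ‖p - y‖ ^ 2 := by positivity
    nlinarith

/-- If a face has a point on a third sphere, the circle of two spheres leaves that ball. -/
theorem circle_leaves {a b k x : E3} (hk : k ≠ a) (xa : dist x a = 1) (xk : dist x k = 1)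
    (xb : dist x b < 1) (hb : b ≠ a) : ∃ x1, dist x1 a = 1 ∧ dist x1 b = 1 ∧ 1 < dist x1 k := by
  set u := x - a with hu
  have e : x = a + u := by rw [hu]; abel
  have m : ‖u‖ = 1 := by rw [hu, ← dist_eq_norm, xa]
  obtain ⟨τ, m1, t1, t2⟩ := exists_orth u (k - a)
  let w : ℝ → E3 := fun θ => Real.cos θ • u + Real.sin θ • τ
  have un : ∀ θ, ‖w θ‖ = 1 := by
    intro θ
    have : ‖w θ‖ ^ 2 = 1 := by
      simp only [w]
      rw [norm_add_sq_real, norm_smul, norm_smul, m, m1, real_inner_smul_left,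
        real_inner_smul_right, real_inner_comm, t1]
      simp [Real.cos_sq_add_sin_sq]
    nlinarith [norm_nonneg (w θ)]
  have hc : Continuous fun θ : ℝ => dist (a + w θ) b := by unfold w; fun_prop
  have hb0 : 0 < ‖b - a‖ := norm_pos_iff.2 (sub_ne_zero.2 hb)
  have hk0 : 0 < ‖k - a‖ := norm_pos_iff.2 (sub_ne_zero.2 hk)
  have hπ : 1 ≤ dist (a + w Real.pi) b := by
    by_contra h
    have h1 := (unit_le_iff (un Real.pi)).1 (not_le.1 h).le
    have h2 := xb.le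
    rw [e, unit_le_iff m] at h2
    simp only [w, Real.cos_pi, Real.sin_pi, zero_smul, add_zero, real_inner_smul_left] at h1
    nlinarith
  obtain ⟨θ, hθ, e2⟩ := intermediate_value_Icc Real.pi_pos.le hc.continuousOn
    (show (1 : ℝ) ∈ Icc _ _ from ⟨by simpa [w, ← e] using xb.le, hπ⟩)
  refine ⟨a + w θ, by rw [dist_eq_norm, add_sub_cancel_left, un], e2, ?_⟩
  have θ0 : θ ≠ 0 := by
    rintro rfl
    simp [w, ← e] at e2
    linarith
  have hcos : Real.cos θ < 1 := by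
    rw [← Real.cos_zero]
    exact Real.cos_lt_cos_of_nonneg_of_le_pi le_rfl hθ.2 (lt_of_le_of_ne hθ.1 θ0.symm)
  by_contra h
  have h1 := (unit_le_iff (un θ)).1 (not_lt.1 h)
  rw [e, unit_eq_iff m] at xk
  simp only [w, inner_add_left, real_inner_smul_left, t2] at h1
  nlinarith [mul_pos (sub_pos.2 hcos) (pow_pos hk0 2)]

theorem exists_iso {ι : Type*} [Fintype ι] (u u' : ι → E3)
    (h : ∀ i j, inner ℝ (u i) (u j) = inner ℝ (u' i) (u' j)) :
    ∃ L : E3 ≃ₗᵢ[ℝ] E3, ∀ i, L (u i) = u' i := by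
  classical
  let f := Fintype.linearCombination ℝ u
  let f' := Fintype.linearCombination ℝ u'
  have hin : ∀ x y, inner ℝ (f x) (f y) = inner ℝ (f' x) (f' y) := by
    intro x y
    simp only [f, f', Fintype.linearCombination_apply, sum_inner, inner_sum, real_inner_smul_left,
      real_inner_smul_right, h]
  have hk : LinearMap.ker f ≤ LinearMap.ker f' := by
    intro x hx
    rw [LinearMap.mem_ker] at hx ⊢
    have := hin x x
    rw [hx, inner_zero_left] at this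
    exact inner_self_eq_zero.1 this.symm
  let g : LinearMap.range f →ₗ[ℝ] E3 :=
    ((LinearMap.ker f).liftQ f' hk).comp f.quotKerEquivRange.symm.toLinearMap
  have hg : ∀ x, g ⟨f x, x, rfl⟩ = f' x := by
    intro x
    simp only [g, LinearMap.comp_apply, LinearEquiv.coe_coe]
    rw [LinearMap.quotKerEquivRange_symm_apply_image]
    rfl
  let G := g.isometryOfInner (by
    rintro ⟨_, x, rfl⟩ ⟨_, y, rfl⟩
    rw [hg, hg, ← hin]; rfl)
  refine ⟨G.extend.toLinearIsometryEquiv rfl, fun i => ?_⟩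
  have e1 : f (Pi.single i 1) = u i := by simp [f]
  have e2 : f' (Pi.single i 1) = u' i := by simp [f']
  rw [LinearIsometry.toLinearIsometryEquiv_apply, ← e1, ← e2, ← hg]
  exact G.extend_apply ⟨f (Pi.single i 1), _, rfl⟩

theorem exists_isometry {ι : Type*} (c c' : ι → E3) (S : Finset ι) {i0 : ι} (h0 : i0 ∈ S)
    (h : ∀ i ∈ S, ∀ j ∈ S, dist (c i) (c j) = dist (c' i) (c' j)) :
    ∃ Ψ : E3 ≃ᵢ E3, ∀ i ∈ S, Ψ (c i) = c' i := by
  have key : ∀ (d : ι → E3) (i j : ι), 2 * inner ℝ (d i - d i0) (d j - d i0) =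
      dist (d i) (d i0) ^ 2 + dist (d j) (d i0) ^ 2 - dist (d i) (d j) ^ 2 := by
    intro d i j
    have : d i - d j = (d i - d i0) - (d j - d i0) := by abel
    rw [dist_eq_norm, dist_eq_norm, dist_eq_norm, this, norm_sub_sq_real (d i - d i0)]
    ring
  obtain ⟨L, hL⟩ := exists_iso (fun i : S => c i - c i0) (fun i : S => c' i - c' i0) (by
    intro i j
    have h1 := key c i j
    have h2 := key c' i j
    rw [h i i.2 i0 h0, h j j.2 i0 h0, h i i.2 j j.2] at h1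
    linarith)
  refine ⟨((IsometryEquiv.subRight (c i0)).trans L.toIsometryEquiv).trans
    (IsometryEquiv.addRight (c' i0)), fun i hi => ?_⟩
  have := hL ⟨i, hi⟩
  simp only at this
  simp [this]

end Pool.Agent.Lib.MP_34b931_co
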